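import Pool.Agent.Lib.MP_2a1a00_nt.V.H1

/-! The mean square of the Voronoi series. -/

namespace Pool.Agent.Lib.MP_2a1a00_nt

open Complex MeasureTheory Set

/- For `0 < m < n`: `n ^ (1 / d) - m ^ (1 / d) ≥ (n - m) * n ^ (1 / d - 1) / d` (concavity, or the mean value theorem). -/
theorem h4_gap {d m n : ℝ} (hd : 1 ≤ d) (hm : 0 < m) (h : m ≤ n) :
    (n - m) * n ^ (1 / d - 1) / d ≤ n ^ (1 / d) - m ^ (1 / d) := by
  have hn : 0 < n := hm.trans_le h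
  have d0 : 0 < d := by linarith
  have hp : 1 / d ≤ 1 := by rw [div_le_one d0]; exact hd
  have hs : -1 ≤ m / n - 1 := by have := div_pos hm hn; linarith
  have h1 := rpow_one_add_le_one_add_mul_self hs (one_div_pos.2 d0).le hp
  rw [add_sub_cancel, Real.div_rpow hm.le hn.le, div_le_iff₀ (Real.rpow_pos_of_pos hn _)] at h1
  rw [Real.rpow_sub_one hn.ne']
  have e : (n - m) * (n ^ (1 / d) / n) / d =
      n ^ (1 / d) - (1 + 1 / d * (m / n - 1)) * n ^ (1 / d) := by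
    field_simp
    ring
  rw [e]
  linarith

theorem vh4_pt {α m n : ℝ} (h0 : 0 ≤ α) (h1 : α ≤ 1) (hm : 0 < m) (h : m < n) :
    m ^ (α - 1) * (1 / (n - m)) ≤ 2 / n * m ^ (α - 1) + 2 * n ^ (α - 1) * (1 / (n - m)) := by
  have hn : 0 < n := hm.trans h
  have hd : 0 < n - m := by linarith
  have p1 : 0 ≤ m ^ (α - 1) := by positivity
  have p2 : 0 ≤ n ^ (α - 1) := by positivity
  rcases le_or_gt (2 * m) n with h2 | h2
  · have h3 : 1 / (n - m) ≤ 2 / n := by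
      rw [div_le_div_iff₀ hd hn]
      linarith
    have h4 := mul_le_mul_of_nonneg_left h3 p1
    have h5 : 0 ≤ 2 * n ^ (α - 1) * (1 / (n - m)) := by positivity
    linarith
  · have h3 : m ^ (α - 1) ≤ (n / 2) ^ (α - 1) :=
      Real.rpow_le_rpow_of_nonpos (by positivity) (by linarith) (by linarith)
    have h4 : (n / 2) ^ (α - 1) ≤ 2 * n ^ (α - 1) := by
      rw [Real.div_rpow hn.le (by norm_num), div_le_iff₀ (by positivity)]
      have h5 : (2 : ℝ) ^ (-1 : ℝ) ≤ 2 ^ (α - 1) :=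
        Real.rpow_le_rpow_of_exponent_le (by norm_num) (by linarith)
      rw [Real.rpow_neg_one] at h5
      nlinarith
    have h5 := mul_le_mul_of_nonneg_right (h3.trans h4) (one_div_pos.2 hd).le
    have h6 : 0 ≤ 2 / n * m ^ (α - 1) := by positivity
    linarith

theorem vh4_in {α : ℝ} (h0 : 0 < α) (h1 : α ≤ 1) : ∃ C : ℝ, 0 < C ∧ ∀ n : ℕ, 0 < n →
    ∑ m ∈ Finset.Ioo 0 n, (m : ℝ) ^ (α - 1) * (1 / ((n : ℝ) - m)) ≤
      C * ((n : ℝ) ^ (α - 1) * (1 + Real.log n)) := by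
  obtain ⟨C, hC, hS⟩ := sum_rpow_head h0
  refine ⟨2 * C + 2, by positivity, fun n hn => ?_⟩
  have n0 : (0 : ℝ) < n := by exact_mod_cast hn
  have l0 : 0 ≤ Real.log n := Real.log_natCast_nonneg n
  have a1 : ∑ m ∈ Finset.Ioo 0 n, (m : ℝ) ^ (α - 1) ≤ C * (n : ℝ) ^ α :=
    (Finset.sum_le_sum_of_subset_of_nonneg (fun m hm => by
      rw [Finset.mem_Ioo] at hm
      rw [Finset.mem_Icc]
      omega) fun _ _ _ => by positivity).trans (hS n)
  have a2 : ∑ m ∈ Finset.Ioo 0 n, 1 / ((n : ℝ) - m) ≤ 1 + Real.log n := by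
    refine le_trans (le_of_eq (Finset.sum_congr rfl fun m hm => ?_))
      (mvt_inj (Finset.Ioo 0 n) (fun m => n - m) n (fun x hx y hy e => ?_) fun y hy => ?_)
    · rw [Nat.cast_sub (Finset.mem_Ioo.1 hm).2.le]
    · rw [Finset.mem_coe, Finset.mem_Ioo] at hx hy
      have e' : n - x = n - y := e
      omega
    · rw [Finset.mem_Ioo] at hy
      rw [Finset.mem_Icc]
      omega
  have a3 : (n : ℝ) ^ α = n ^ (α - 1) * n := by
    rw [Real.rpow_sub_one n0.ne', div_mul_cancel₀ _ n0.ne']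
  have p2 : 0 ≤ (n : ℝ) ^ (α - 1) := by positivity
  calc ∑ m ∈ Finset.Ioo 0 n, (m : ℝ) ^ (α - 1) * (1 / ((n : ℝ) - m))
      ≤ ∑ m ∈ Finset.Ioo 0 n, (2 / n * (m : ℝ) ^ (α - 1) +
          2 * (n : ℝ) ^ (α - 1) * (1 / ((n : ℝ) - m))) :=
        Finset.sum_le_sum fun m hm => vh4_pt h0.le h1
          (by exact_mod_cast (Finset.mem_Ioo.1 hm).1) (by exact_mod_cast (Finset.mem_Ioo.1 hm).2)
    _ = 2 / n * ∑ m ∈ Finset.Ioo 0 n, (m : ℝ) ^ (α - 1) +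
          2 * (n : ℝ) ^ (α - 1) * ∑ m ∈ Finset.Ioo 0 n, 1 / ((n : ℝ) - m) := by
        rw [Finset.sum_add_distrib, Finset.mul_sum, Finset.mul_sum]
    _ ≤ 2 / n * (C * (n : ℝ) ^ α) + 2 * (n : ℝ) ^ (α - 1) * (1 + Real.log n) := by gcongr
    _ = 2 * C * (n : ℝ) ^ (α - 1) + 2 * (n : ℝ) ^ (α - 1) * (1 + Real.log n) := by
        rw [a3]
        field_simp
    _ ≤ (2 * C + 2) * ((n : ℝ) ^ (α - 1) * (1 + Real.log n)) := by
        have := mul_nonneg (mul_nonneg hC.le p2) l0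
        nlinarith

/- With `α = al d`, for fixed `n` the sum over `m < n` of `m ^ (α - 1) / (n - m)` is at most
`C n ^ (α - 1) (1 + log n)`: use `1 / (n - m) ≤ 2 / n` for `2 m ≤ n` (`sum_rpow_head`) and
`m ^ (α - 1) ≤ 2 n ^ (α - 1)` otherwise (`harm_le`).  Then `n ^ (2 α - 2 + 1 - 1 / d) = n ^ (1 - 2 / d) / n`. -/
theorem h4_off {d : ℝ} (hd : 2 ≤ d) : ∃ C : ℝ, 0 < C ∧ ∀ N : ℕ,
    ∑ n ∈ Finset.Ioc 0 N, ∑ m ∈ Finset.Ioo 0 n, (m : ℝ) ^ (al d - 1) * (n : ℝ) ^ (al d - 1) *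
      (1 / ((n : ℝ) ^ (1 / d) - (m : ℝ) ^ (1 / d))) ≤
      C * ((N : ℝ) ^ (1 - 2 / d) * (1 + Real.log N) ^ 2) := by
  obtain ⟨m1, m2, -⟩ := al_mem hd
  obtain ⟨C, hC, hS⟩ := vh4_in (α := al d) (by linarith) (by linarith)
  have d0 : 0 < d := by linarith
  refine ⟨d * C, by positivity, fun N => ?_⟩
  have e0 : 0 ≤ 1 - 2 / d := by
    rw [sub_nonneg, div_le_one d0]
    exact hd
  have l0 : 0 ≤ Real.log N := Real.log_natCast_nonneg N
  have key : ∀ n ∈ Finset.Ioc 0 N, ∑ m ∈ Finset.Ioo 0 n, (m : ℝ) ^ (al d - 1) *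
      (n : ℝ) ^ (al d - 1) * (1 / ((n : ℝ) ^ (1 / d) - (m : ℝ) ^ (1 / d))) ≤
      d * C * ((N : ℝ) ^ (1 - 2 / d) * (1 + Real.log N)) * (1 / n) := fun n hn => by
    obtain ⟨hn, hN⟩ := Finset.mem_Ioc.1 hn
    have n0 : (0 : ℝ) < n := by exact_mod_cast hn
    have nN : (n : ℝ) ≤ N := by exact_mod_cast hN
    have l1 : 0 ≤ Real.log n := Real.log_natCast_nonneg n
    have e1 : (n : ℝ) ^ (al d - 1) / n ^ (1 / d - 1) * n ^ (al d - 1) = n ^ (1 - 2 / d) * (1 / n) := by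
      rw [← Real.rpow_sub n0, ← Real.rpow_add n0, mul_one_div, ← Real.rpow_sub_one n0.ne']
      congr 1
      unfold al
      field_simp
      ring
    calc ∑ m ∈ Finset.Ioo 0 n, (m : ℝ) ^ (al d - 1) *
          (n : ℝ) ^ (al d - 1) * (1 / ((n : ℝ) ^ (1 / d) - (m : ℝ) ^ (1 / d)))
        ≤ ∑ m ∈ Finset.Ioo 0 n, d * ((n : ℝ) ^ (al d - 1) / n ^ (1 / d - 1)) *
            ((m : ℝ) ^ (al d - 1) * (1 / ((n : ℝ) - m))) := Finset.sum_le_sum fun m hm => by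
          obtain ⟨hm, hmn⟩ := Finset.mem_Ioo.1 hm
          have m0 : (0 : ℝ) < m := by exact_mod_cast hm
          have mn : (0 : ℝ) < n - m := sub_pos.2 (by exact_mod_cast hmn)
          have g := one_div_le_one_div_of_le (by positivity)
            (h4_gap (d := d) (by linarith) m0 (sub_pos.1 mn).le)
          refine (mul_le_mul_of_nonneg_left g (by positivity)).trans (le_of_eq ?_)
          field_simp
      _ = d * ((n : ℝ) ^ (al d - 1) / n ^ (1 / d - 1)) *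
            ∑ m ∈ Finset.Ioo 0 n, (m : ℝ) ^ (al d - 1) * (1 / ((n : ℝ) - m)) := by
          rw [Finset.mul_sum]
      _ ≤ d * ((n : ℝ) ^ (al d - 1) / n ^ (1 / d - 1)) *
            (C * ((n : ℝ) ^ (al d - 1) * (1 + Real.log n))) :=
          mul_le_mul_of_nonneg_left (hS n hn) (by positivity)
      _ = d * C * (((n : ℝ) ^ (al d - 1) / n ^ (1 / d - 1) * n ^ (al d - 1)) *
            (1 + Real.log n)) := by ring
      _ = d * C * ((n : ℝ) ^ (1 - 2 / d) * (1 + Real.log n)) * (1 / n) := by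
          rw [e1]
          ring
      _ ≤ d * C * ((N : ℝ) ^ (1 - 2 / d) * (1 + Real.log N)) * (1 / n) := by gcongr
  refine (Finset.sum_le_sum key).trans ?_
  rw [← Finset.mul_sum]
  have h := harm_le N
  rw [show Finset.Icc 1 N = Finset.Ioc 0 N from rfl] at h
  refine (mul_le_mul_of_nonneg_left h (by positivity)).trans (le_of_eq ?_)
  ring

theorem vh4_sub {d a b : ℝ} (hd : 1 ≤ d) (ha : 0 < a) (hab : a ≤ b) {G : ℝ → ℝ}
    (hG : Continuous G) (h0 : ∀ v, 0 ≤ G v) :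
    ∫ x in a..b, G (x ^ (1 / d)) ≤ d * b ^ (1 - 1 / d) * ∫ v in a ^ (1 / d)..b ^ (1 / d), G v := by
  have d0 : 0 < d := by linarith
  have hp : 1 / d ≤ 1 := by rw [div_le_one d0]; exact hd
  have pos : ∀ x ∈ uIcc a b, x ≠ 0 := fun x hx => by
    rw [uIcc_of_le hab] at hx
    exact (ha.trans_le hx.1).ne'
  have c1 : ContinuousOn (fun x : ℝ => x ^ (1 / d)) (uIcc a b) :=
    continuousOn_id.rpow_const fun x hx => Or.inl (pos x hx)
  have c2 : ContinuousOn (fun x : ℝ => 1 / d * x ^ (1 / d - 1)) (uIcc a b) :=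
    continuousOn_const.mul (continuousOn_id.rpow_const fun x hx => Or.inl (pos x hx))
  have c3 : ContinuousOn (fun x : ℝ => G (x ^ (1 / d))) (uIcc a b) := hG.comp_continuousOn c1
  rw [← intervalIntegral.integral_comp_mul_deriv (f := fun x : ℝ => x ^ (1 / d))
    (fun x hx => Real.hasDerivAt_rpow_const (Or.inl (pos x hx))) c2 hG,
    ← intervalIntegral.integral_const_mul]
  refine intervalIntegral.integral_mono_on hab c3.intervalIntegrable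
    (continuousOn_const.mul (c3.mul c2)).intervalIntegrable fun x hx => ?_
  have x0 : 0 < x := ha.trans_le hx.1
  have h1 : x ^ (1 - 1 / d) ≤ b ^ (1 - 1 / d) := Real.rpow_le_rpow x0.le hx.2 (by linarith)
  have h2 : x ^ (1 - 1 / d) * x ^ (1 / d - 1) = 1 := by
    rw [← Real.rpow_add x0, show 1 - 1 / d + (1 / d - 1) = 0 by ring, Real.rpow_zero]
  have h3 : 1 ≤ b ^ (1 - 1 / d) * x ^ (1 / d - 1) :=
    h2.ge.trans (mul_le_mul_of_nonneg_right h1 (by positivity))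
  have h4 := mul_le_mul_of_nonneg_left h3 (h0 (x ^ (1 / d)))
  refine (mul_one _).ge.trans (h4.trans (le_of_eq ?_))
  rw [Function.comp_apply]
  field_simp

theorem vh4_tri (E : ℕ → ℕ → ℝ) (hE : ∀ x y, y < x → 0 ≤ E x y) (M N : ℕ) :
    ∑ x ∈ Finset.Ioc M N, ∑ y ∈ Finset.Ioc M N, (if y < x then E x y else 0) ≤
      ∑ x ∈ Finset.Ioc 0 N, ∑ y ∈ Finset.Ioo 0 x, E x y := by
  refine (Finset.sum_le_sum (g := fun x => ∑ y ∈ Finset.Ioo 0 x, E x y) fun x _ => ?_).trans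
    (Finset.sum_le_sum_of_subset_of_nonneg (Finset.Ioc_subset_Ioc_left (Nat.zero_le M))
      fun x _ _ => Finset.sum_nonneg fun y hy => hE x y (Finset.mem_Ioo.1 hy).2)
  rw [← Finset.sum_filter]
  refine Finset.sum_le_sum_of_subset_of_nonneg (fun y hy => ?_)
    fun y hy _ => hE x y (Finset.mem_Ioo.1 hy).2
  rw [Finset.mem_filter, Finset.mem_Ioc] at hy
  rw [Finset.mem_Ioo]
  omega

theorem vh4_kk {p κ : ℝ} (hp : 0 < p) (hκ : κ ≠ 0) (ℓ : ℝ) {x y : ℕ} (h : y < x) :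
    KK ℓ (κ * (x : ℝ) ^ p) (κ * (y : ℝ) ^ p) = 2 / |κ| * (1 / ((x : ℝ) ^ p - (y : ℝ) ^ p)) ∧
    KK ℓ (κ * (y : ℝ) ^ p) (κ * (x : ℝ) ^ p) = 2 / |κ| * (1 / ((x : ℝ) ^ p - (y : ℝ) ^ p)) := by
  have h1 : (y : ℝ) ^ p < (x : ℝ) ^ p :=
    Real.rpow_lt_rpow (Nat.cast_nonneg _) (by exact_mod_cast h) hp
  have h2 : κ * (x : ℝ) ^ p ≠ κ * (y : ℝ) ^ p := fun e => h1.ne' (mul_left_cancel₀ hκ e)
  unfold KK
  rw [if_neg h2, if_neg h2.symm, abs_sub_comm (κ * (y : ℝ) ^ p), ← mul_sub, abs_mul,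
    abs_of_pos (sub_pos.2 h1), div_mul_div_comm, mul_one]
  exact ⟨rfl, rfl⟩

theorem vh4_dbl {d κ : ℝ} (hd : 2 ≤ d) (hκ : κ ≠ 0) : ∃ C : ℝ, 0 < C ∧
    ∀ (M N : ℕ) (ℓ : ℝ), 0 ≤ ℓ → ∑ x ∈ Finset.Ioc M N, ∑ y ∈ Finset.Ioc M N,
      (x : ℝ) ^ (al d - 1) * (y : ℝ) ^ (al d - 1) *
        KK ℓ (κ * (x : ℝ) ^ (1 / d)) (κ * (y : ℝ) ^ (1 / d)) ≤
      C * (ℓ * ((M : ℝ) + 1) ^ (-1 / d) + (N : ℝ) ^ (1 - 2 / d) * (1 + Real.log N) ^ 2) := by
  have d0 : 0 < d := by linarith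
  have hp : 0 < 1 / d := one_div_pos.2 d0
  have k0 : 0 < |κ| := abs_pos.2 hκ
  obtain ⟨A, hA, h1⟩ := sum_rpow_tail hp
  obtain ⟨B, hB, h2⟩ := h4_off hd
  refine ⟨A + 4 / |κ| * B, by positivity, fun M N ℓ hℓ => ?_⟩
  obtain ⟨E, hE⟩ : ∃ E : ℕ → ℕ → ℝ, E = fun n m : ℕ => (m : ℝ) ^ (al d - 1) * (n : ℝ) ^ (al d - 1) *
      (1 / ((n : ℝ) ^ (1 / d) - (m : ℝ) ^ (1 / d))) := ⟨_, rfl⟩
  have E0 : ∀ x y, y < x → 0 ≤ E x y := fun x y h => by
    have h3 : 0 < (x : ℝ) ^ (1 / d) - (y : ℝ) ^ (1 / d) :=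
      sub_pos.2 (Real.rpow_lt_rpow (Nat.cast_nonneg _) (by exact_mod_cast h) hp)
    rw [hE]
    positivity
  have h3 : ∑ x ∈ Finset.Ioc M N, ∑ y ∈ Finset.Ioc M N, (if y < x then E x y else 0) ≤
      B * ((N : ℝ) ^ (1 - 2 / d) * (1 + Real.log N) ^ 2) :=
    (vh4_tri E E0 M N).trans (by rw [hE]; exact h2 N)
  have h4 : ∑ x ∈ Finset.Ioc M N, ∑ y ∈ Finset.Ioc M N, (if x < y then E y x else 0) ≤
      B * ((N : ℝ) ^ (1 - 2 / d) * (1 + Real.log N) ^ 2) := by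
    rw [Finset.sum_comm]
    exact h3
  have h5 : ∀ x ∈ Finset.Ioc M N, ∑ y ∈ Finset.Ioc M N,
      (x : ℝ) ^ (al d - 1) * (y : ℝ) ^ (al d - 1) *
        KK ℓ (κ * (x : ℝ) ^ (1 / d)) (κ * (y : ℝ) ^ (1 / d)) =
      ℓ * (x : ℝ) ^ (-1 - 1 / d) + 2 / |κ| * ∑ y ∈ Finset.Ioc M N, (if y < x then E x y else 0) +
        2 / |κ| * ∑ y ∈ Finset.Ioc M N, (if x < y then E y x else 0) := fun x hx => by
    have x0 : (0 : ℝ) < x := by
      have := (Finset.mem_Ioc.1 hx).1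
      exact_mod_cast (by omega : 0 < x)
    have e : ℓ * (x : ℝ) ^ (-1 - 1 / d) =
        ∑ y ∈ Finset.Ioc M N, if x = y then ℓ * (x : ℝ) ^ (-1 - 1 / d) else 0 := by
      rw [Finset.sum_ite_eq, if_pos hx]
    rw [e, Finset.mul_sum, Finset.mul_sum, ← Finset.sum_add_distrib, ← Finset.sum_add_distrib]
    refine Finset.sum_congr rfl fun y _ => ?_
    rcases lt_trichotomy x y with h | h | h
    · rw [if_neg h.ne, if_neg h.not_gt, if_pos h, (vh4_kk hp hκ ℓ h).2, hE]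
      ring
    · subst h
      rw [if_pos rfl, if_neg (lt_irrefl _), KK, if_pos rfl, ← Real.rpow_add x0,
        show al d - 1 + (al d - 1) = -1 - 1 / d by unfold al; field_simp; ring]
      ring
    · rw [if_neg h.ne', if_pos h, if_neg h.not_gt, (vh4_kk hp hκ ℓ h).1, hE]
      ring
  rw [Finset.sum_congr rfl h5, Finset.sum_add_distrib, Finset.sum_add_distrib, ← Finset.mul_sum,
    ← Finset.mul_sum, ← Finset.mul_sum, neg_div]
  have h6 := mul_le_mul_of_nonneg_left (h1 M N) hℓ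
  have h7 := mul_le_mul_of_nonneg_left (add_le_add h3 h4) (by positivity : 0 ≤ 2 / |κ|)
  have p1 : 0 ≤ 4 / |κ| * B * (ℓ * ((M : ℝ) + 1) ^ (-(1 / d))) := by positivity
  have p2 : 0 ≤ A * ((N : ℝ) ^ (1 - 2 / d) * (1 + Real.log N) ^ 2) := by positivity
  have e4 : 4 / |κ| = 2 * (2 / |κ|) := by ring
  rw [e4] at p1 ⊢
  linarith

/- Substitute `x = v ^ d` (`intervalIntegral.integral_comp_mul_deriv'''` or `integral_deriv_smul_comp`), where
`d * v ^ (d - 1) ≤ d * (4 T) ^ (1 - 1 / d)`, the length of the range of `v` is at most `(4 T) ^ (1 / d)`; `mvt_abs` with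
`θ n = κ n ^ (1 / d)`; the diagonal is `∑ n ^ (-1 - 1 / d)` (`sum_rpow_tail`), the rest is `h4_off` twice. -/
theorem ts_mv {d κ : ℝ} (hd : 2 ≤ d) (hκ : κ ≠ 0) : ∃ C : ℝ, 0 < C ∧
    ∀ (c : ℕ → ℂ) (M N : ℕ) (K T : ℝ), 1 ≤ T →
    (∀ n ∈ Finset.Ioc M N, ‖c n‖ ≤ K * (n : ℝ) ^ (al d - 1)) →
    ∫ x in T / 2..4 * T, ‖ts d κ c M N x‖ ^ 2 ≤ C * K ^ 2 * (T * ((M : ℝ) + 1) ^ (-1 / d) +
      T ^ (1 - 1 / d) * ((N : ℝ) ^ (1 - 2 / d) * (1 + Real.log N) ^ 2)) := by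
  have d0 : 0 < d := by linarith
  have hp : 0 < 1 / d := one_div_pos.2 d0
  obtain ⟨C, hC, hS⟩ := vh4_dbl hd hκ
  refine ⟨4 * d * C, by positivity, fun c M N K T hT hc => ?_⟩
  have T0 : 0 < T / 2 := by linarith
  have T1 : T / 2 ≤ 4 * T := by linarith
  have T4 : 0 < 4 * T := by linarith
  obtain ⟨G, hG⟩ : ∃ G : ℝ → ℝ, G = fun v : ℝ =>
    ‖∑ n ∈ Finset.Ioc M N, c n * exp (I * (κ * (n : ℝ) ^ (1 / d) * v : ℝ))‖ ^ 2 := ⟨_, rfl⟩
  have e1 : ∫ x in T / 2..4 * T, ‖ts d κ c M N x‖ ^ 2 = ∫ x in T / 2..4 * T, G (x ^ (1 / d)) := by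
    refine intervalIntegral.integral_congr fun x hx => ?_
    rw [uIcc_of_le T1] at hx
    simp only [hG, ts, Real.mul_rpow (Nat.cast_nonneg _) (T0.le.trans hx.1), mul_assoc]
  have h1 := vh4_sub (d := d) (by linarith) T0 T1 (G := G) (by rw [hG]; fun_prop)
    fun v => by rw [hG]; positivity
  have l0 : 0 ≤ (4 * T) ^ (1 / d) - (T / 2) ^ (1 / d) :=
    sub_nonneg.2 (Real.rpow_le_rpow T0.le T1 hp.le)
  have l1 : (4 * T) ^ (1 / d) - (T / 2) ^ (1 / d) ≤ (4 * T) ^ (1 / d) :=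
    sub_le_self _ (by positivity)
  have h2 := mvt_abs (Finset.Ioc M N) c (fun n => κ * (n : ℝ) ^ (1 / d)) ((T / 2) ^ (1 / d)) l0
  rw [add_sub_cancel] at h2
  generalize (4 * T) ^ (1 / d) - (T / 2) ^ (1 / d) = ℓ at l0 l1 h2
  have h3 : ∫ v in (T / 2) ^ (1 / d)..(4 * T) ^ (1 / d), G v ≤ K ^ 2 *
      (C * (ℓ * ((M : ℝ) + 1) ^ (-1 / d) + (N : ℝ) ^ (1 - 2 / d) * (1 + Real.log N) ^ 2)) := by
    rw [hG]
    refine h2.trans (le_trans ?_ (mul_le_mul_of_nonneg_left (hS M N ℓ l0) (sq_nonneg K)))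
    rw [Finset.mul_sum]
    refine Finset.sum_le_sum fun x hx => ?_
    rw [Finset.mul_sum]
    refine Finset.sum_le_sum fun y hy => ?_
    have k0 : 0 ≤ KK ℓ (κ * (x : ℝ) ^ (1 / d)) (κ * (y : ℝ) ^ (1 / d)) := by
      unfold KK
      split_ifs
      · exact l0
      · positivity
    refine (mul_le_mul_of_nonneg_right (mul_le_mul (hc x hx) (hc y hy) (norm_nonneg _)
      ((norm_nonneg _).trans (hc x hx))) k0).trans (le_of_eq ?_)
    ring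
  have h4 : (4 * T) ^ (1 - 1 / d) * ℓ ≤ 4 * T := by
    refine (mul_le_mul_of_nonneg_left l1 (by positivity)).trans (le_of_eq ?_)
    rw [← Real.rpow_add T4, sub_add_cancel, Real.rpow_one]
  have h5 : (4 * T) ^ (1 - 1 / d) ≤ 4 * T ^ (1 - 1 / d) := by
    rw [Real.mul_rpow (by norm_num) (by linarith)]
    refine mul_le_mul_of_nonneg_right ?_ (by positivity)
    exact (Real.rpow_le_rpow_of_exponent_le (by norm_num) (by linarith)).trans (Real.rpow_one 4).le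
  rw [e1]
  refine h1.trans ((mul_le_mul_of_nonneg_left h3 (by positivity)).trans ?_)
  have h6 := add_le_add
    (mul_le_mul_of_nonneg_right h4 (by positivity : 0 ≤ ((M : ℝ) + 1) ^ (-1 / d)))
    (mul_le_mul_of_nonneg_right h5
      (by positivity : 0 ≤ (N : ℝ) ^ (1 - 2 / d) * (1 + Real.log N) ^ 2))
  have h7 := mul_le_mul_of_nonneg_left h6 (by positivity : 0 ≤ d * C * K ^ 2)
  linarith

/- `H_eq`, `cf_le` (take `K = C * N ^ δ`), `ts_mv`, `log_le_rpow`; `2 al d = 1 - 1 / d`. -/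
theorem Sel.H_mv (F : Sel) {P : Vo} (hP : 0 < P.ka) (hd : 2 ≤ F.deg) {ε : ℝ} (hε : 0 < ε) :
    ∃ C : ℝ, 0 < C ∧ ∀ (M N : ℕ) (T : ℝ), 1 ≤ T →
    ∫ x in T / 2..4 * T, ‖F.H P M N x‖ ^ 2 ≤ C * (N : ℝ) ^ ε *
      (T ^ (2 - 1 / F.deg) * ((M : ℝ) + 1) ^ (-1 / F.deg) +
        T ^ (2 - 2 / F.deg) * (N : ℝ) ^ (1 - 2 / F.deg)) := by
  have d0 : 0 < F.deg := by linarith
  have hp : 0 < 1 / F.deg := one_div_pos.2 d0
  have e4 : 0 < ε / 4 := by linarith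
  obtain ⟨A, hA, h1⟩ := F.cf_le P e4
  obtain ⟨B, hB, h2⟩ := log_le_rpow e4
  obtain ⟨C, hC, h3⟩ := ts_mv hd hP.ne'
  obtain ⟨D, hD, h4⟩ := ts_mv hd (neg_ne_zero.2 hP.ne')
  refine ⟨8 * (‖P.ap‖ ^ 2 * C + ‖P.am‖ ^ 2 * D + 1) * A ^ 2 * (1 + B ^ 2), by positivity,
    fun M N T hT => ?_⟩
  have T0 : 0 < T := by linarith
  have T1 : T / 2 ≤ 4 * T := by linarith
  rcases Nat.eq_zero_or_pos N with rfl | hN
  · have e : ∀ x, F.H P M 0 x = 0 := fun x => by simp [Sel.H]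
    simp only [e, norm_zero, ne_eq, OfNat.ofNat_ne_zero, not_false_eq_true, zero_pow,
      intervalIntegral.integral_zero]
    positivity
  have N1 : (1 : ℝ) ≤ N := by exact_mod_cast hN
  have N0 : (0 : ℝ) < N := by linarith
  have hc : ∀ n ∈ Finset.Ioc M N, ‖F.cf P n‖ ≤ A * (N : ℝ) ^ (ε / 4) * (n : ℝ) ^ (al F.deg - 1) :=
    fun n hn => by
      obtain ⟨a, b⟩ := Finset.mem_Ioc.1 hn
      have n0 : (0 : ℝ) < n := by exact_mod_cast (by omega : 0 < n)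
      have nN : (n : ℝ) ≤ N := by exact_mod_cast b
      refine (h1 n (by omega)).trans ?_
      rw [Real.rpow_add n0, mul_assoc, mul_comm ((N : ℝ) ^ (ε / 4))]
      gcongr
  have sub : uIcc (T / 2) (4 * T) ⊆ Ioi 0 := fun x hx => by
    rw [uIcc_of_le T1] at hx
    exact lt_of_lt_of_le (by linarith) hx.1
  have i1 : IntervalIntegrable (fun x => ‖ts F.deg P.ka (F.cf P) M N x‖ ^ 2) volume
      (T / 2) (4 * T) :=
    (((ts_cont F.deg P.ka (F.cf P) M N).mono sub).norm.pow 2).intervalIntegrable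
  have i2 : IntervalIntegrable (fun x => ‖ts F.deg (-P.ka) (F.cf P) M N x‖ ^ 2) volume
      (T / 2) (4 * T) :=
    (((ts_cont F.deg (-P.ka) (F.cf P) M N).mono sub).norm.pow 2).intervalIntegrable
  have h5 : ∫ x in T / 2..4 * T, ‖F.H P M N x‖ ^ 2 ≤ ∫ x in T / 2..4 * T,
      (8 * T ^ (1 - 1 / F.deg) * ‖P.ap‖ ^ 2 * ‖ts F.deg P.ka (F.cf P) M N x‖ ^ 2 +
        8 * T ^ (1 - 1 / F.deg) * ‖P.am‖ ^ 2 * ‖ts F.deg (-P.ka) (F.cf P) M N x‖ ^ 2) := by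
    refine intervalIntegral.integral_mono_on T1
      (((F.H_cont P M N).mono sub).norm.pow 2).intervalIntegrable
      ((i1.const_mul _).add (i2.const_mul _)) fun x hx => ?_
    have x0 : 0 < x := lt_of_lt_of_le (by linarith) hx.1
    have a1 : (x ^ al F.deg) ^ 2 ≤ 4 * T ^ (1 - 1 / F.deg) := by
      have q0 : 0 ≤ 1 - 1 / F.deg := by
        rw [sub_nonneg, div_le_one d0]
        linarith
      rw [sq, ← Real.rpow_add x0, show al F.deg + al F.deg = 1 - 1 / F.deg by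
        unfold al; field_simp; ring]
      refine (Real.rpow_le_rpow x0.le hx.2 q0).trans ?_
      rw [Real.mul_rpow (by norm_num) T0.le]
      refine mul_le_mul_of_nonneg_right ?_ (by positivity)
      exact (Real.rpow_le_rpow_of_exponent_le (by norm_num) (by linarith)).trans
        (Real.rpow_one 4).le
    rw [F.H_eq P M N x0, norm_mul, norm_px _ x0, Vo.ex_re, mul_pow]
    generalize ts F.deg P.ka (F.cf P) M N x = u
    generalize ts F.deg (-P.ka) (F.cf P) M N x = v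
    have a2 : ‖P.ap * u + P.am * v‖ ^ 2 ≤ 2 * (‖P.ap‖ ^ 2 * ‖u‖ ^ 2 + ‖P.am‖ ^ 2 * ‖v‖ ^ 2) := by
      have a3 := norm_add_le (P.ap * u) (P.am * v)
      rw [norm_mul, norm_mul] at a3
      have a4 := pow_le_pow_left₀ (norm_nonneg _) a3 2
      nlinarith [sq_nonneg (‖P.ap‖ * ‖u‖ - ‖P.am‖ * ‖v‖)]
    refine (mul_le_mul a1 a2 (sq_nonneg _) (by positivity)).trans (le_of_eq ?_)
    ring
  rw [intervalIntegral.integral_add (i1.const_mul _) (i2.const_mul _),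
    intervalIntegral.integral_const_mul, intervalIntegral.integral_const_mul] at h5
  have h6 := add_le_add (mul_le_mul_of_nonneg_left (h3 _ M N _ T hT hc)
    (by positivity : 0 ≤ 8 * T ^ (1 - 1 / F.deg) * ‖P.ap‖ ^ 2))
    (mul_le_mul_of_nonneg_left (h4 _ M N _ T hT hc)
      (by positivity : 0 ≤ 8 * T ^ (1 - 1 / F.deg) * ‖P.am‖ ^ 2))
  refine h5.trans (h6.trans ?_)
  have l0 : 0 ≤ Real.log N := Real.log_natCast_nonneg N
  have b1 : (1 + Real.log N) ^ 2 ≤ (B * (N : ℝ) ^ (ε / 4)) ^ 2 :=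
    pow_le_pow_left₀ (by linarith) (h2 N N1) 2
  have b2 : 1 ≤ (N : ℝ) ^ (ε / 4) := Real.one_le_rpow N1 e4.le
  have b3 : (N : ℝ) ^ ε = ((N : ℝ) ^ (ε / 4)) ^ 4 := by
    rw [← Real.rpow_natCast, ← Real.rpow_mul N0.le]
    congr 1
    push_cast
    ring
  have b4 : T ^ (2 - 1 / F.deg) = T ^ (1 - 1 / F.deg) * T := by
    rw [← Real.rpow_add_one T0.ne']
    congr 1
    ring
  have b5 : T ^ (2 - 2 / F.deg) = T ^ (1 - 1 / F.deg) * T ^ (1 - 1 / F.deg) := by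
    rw [← Real.rpow_add T0]
    congr 1
    ring
  rw [b3, b4, b5]
  have p1 : 0 ≤ T ^ (1 - 1 / F.deg) := by positivity
  have p2 : 0 ≤ ((M : ℝ) + 1) ^ (-1 / F.deg) := by positivity
  have p3 : 0 ≤ (N : ℝ) ^ (1 - 2 / F.deg) := by positivity
  generalize T ^ (1 - 1 / F.deg) = t at p1 ⊢
  generalize ((M : ℝ) + 1) ^ (-1 / F.deg) = m at p2 ⊢
  generalize (N : ℝ) ^ (1 - 2 / F.deg) = r at p3 ⊢
  generalize (N : ℝ) ^ (ε / 4) = q at b1 b2 ⊢
  generalize (1 + Real.log N) ^ 2 = L at b1 ⊢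
  have c1 : T * m + t * (r * L) ≤ (1 + B ^ 2) * q ^ 2 * (T * m + t * r) := by
    have c2 : 1 ≤ q ^ 2 := one_le_pow₀ b2
    have c3 : 1 ≤ (1 + B ^ 2) * q ^ 2 := by nlinarith [sq_nonneg B]
    have c4 : L ≤ (1 + B ^ 2) * q ^ 2 := by nlinarith
    have c5 := mul_le_mul_of_nonneg_right c3 (mul_nonneg T0.le p2)
    have c6 := mul_le_mul_of_nonneg_right c4 (mul_nonneg p1 p3)
    linarith
  have c7 := mul_le_mul_of_nonneg_left c1
    (by positivity : 0 ≤ 8 * t * (‖P.ap‖ ^ 2 * C + ‖P.am‖ ^ 2 * D) * (A * q) ^ 2)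
  have c8 : 0 ≤ 8 * A ^ 2 * (1 + B ^ 2) * q ^ 4 * (t * T * m + t * t * r) := by positivity
  linarith

end Pool.Agent.Lib.MP_2a1a00_nt
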