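import Pool.Agent.Lib.MP_2a1a00_nt.V.Wb
import Pool.Agent.Lib.MP_2a1a00_nt.Cnt
import Pool.Agent.Lib.MP_2a1a00_nt.Mvt

/-! Triangular averages of the full trigonometric polynomial. -/

namespace Pool.Agent.Lib.MP_2a1a00_nt

open Complex MeasureTheory Set

/- For `h ≤ u` bound the minimum by one (`sum_rpow_head`), for `h > u` by `(u / h) ^ 2` (`sum_rpow_tail` with `N = ⌊u⌋₊`). -/
theorem wc_min {β : ℝ} (h0 : -1 < β) (h1 : β < 1) : ∃ C : ℝ, 0 < C ∧ ∀ (u : ℝ) (H : ℕ), 0 < u →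
    ∑ h ∈ Finset.Icc 1 H, min 1 ((u / h) ^ 2) * (h : ℝ) ^ β ≤ C * u ^ (β + 1) := by
  obtain ⟨C₁, hC₁, h₁⟩ := sum_rpow_head (β := β + 1) (by linarith)
  obtain ⟨C₂, hC₂, h₂⟩ := sum_rpow_tail (β := 1 - β) (by linarith)
  refine ⟨C₁ + C₂, by positivity, fun u H hu => ?_⟩
  have f0 : ∀ h : ℕ, 0 ≤ min 1 ((u / h) ^ 2) * (h : ℝ) ^ β := fun h =>
    mul_nonneg (le_min zero_le_one (sq_nonneg _)) (by positivity)
  have hsub : Finset.Icc 1 H ⊆ Finset.Icc 1 ⌊u⌋₊ ∪ Finset.Ioc ⌊u⌋₊ H := fun h hh => by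
    simp only [Finset.mem_union, Finset.mem_Icc, Finset.mem_Ioc] at hh ⊢
    omega
  have hdis : Disjoint (Finset.Icc 1 ⌊u⌋₊) (Finset.Ioc ⌊u⌋₊ H) := by
    rw [Finset.disjoint_left]
    intro h a b
    simp only [Finset.mem_Icc, Finset.mem_Ioc] at a b
    omega
  refine (Finset.sum_le_sum_of_subset_of_nonneg hsub fun h _ _ => f0 h).trans ?_
  rw [Finset.sum_union hdis, add_mul]
  refine add_le_add ?_ ?_
  · refine le_trans (Finset.sum_le_sum fun h _ => ?_) ((h₁ _).trans ?_)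
    · rw [add_sub_cancel_right]
      exact mul_le_of_le_one_left (by positivity) (min_le_left _ _)
    · exact mul_le_mul_of_nonneg_left
        (Real.rpow_le_rpow (Nat.cast_nonneg _) (Nat.floor_le hu.le) (by linarith)) hC₁.le
  · have e1 : ∀ h ∈ Finset.Ioc ⌊u⌋₊ H, min 1 ((u / h) ^ 2) * (h : ℝ) ^ β ≤
        u ^ 2 * (h : ℝ) ^ (-1 - (1 - β)) := fun h hh => by
      have hp : (0 : ℝ) < h := by
        have := (Finset.mem_Ioc.1 hh).1
        exact_mod_cast (show 0 < h by omega)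
      refine (mul_le_mul_of_nonneg_right (min_le_right _ _) (by positivity)).trans (le_of_eq ?_)
      rw [show -1 - (1 - β) = β - 2 by ring, Real.rpow_sub hp, Real.rpow_two]
      field_simp
    refine (Finset.sum_le_sum e1).trans ?_
    rw [← Finset.mul_sum]
    have e2 : ((⌊u⌋₊ : ℝ) + 1) ^ (-(1 - β)) ≤ u ^ (-(1 - β)) :=
      Real.rpow_le_rpow_of_nonpos hu (Nat.lt_floor_add_one u).le (by linarith)
    calc u ^ 2 * ∑ h ∈ Finset.Ioc ⌊u⌋₊ H, (h : ℝ) ^ (-1 - (1 - β)) ≤ u ^ 2 * (C₂ * u ^ (-(1 - β))) :=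
          mul_le_mul_of_nonneg_left ((h₂ _ _).trans (mul_le_mul_of_nonneg_left e2 hC₂.le)) (sq_nonneg _)
      _ = C₂ * u ^ (β + 1) := by
          rw [show β + 1 = 2 + -(1 - β) by ring, Real.rpow_add hu, Real.rpow_two]
          ring

theorem vwc_int (A h Y : ℕ) : ∃ a b : ℕ, A ≤ a ∧ b ≤ 2 * A ∧
    ∀ n, n ∈ Finset.Ico a b ↔ A ≤ n ∧ n < 2 * A ∧ h < n ∧ n * (n + h) ≤ Y := by
  have ex : ∃ n, Y < n * (n + h) := ⟨Y + 1, by nlinarith [Nat.zero_le (Y * h), Nat.zero_le (Y * Y)]⟩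
  refine ⟨max A (h + 1), min (2 * A) (Nat.find ex), le_max_left _ _, min_le_left _ _, fun n => ?_⟩
  have e : n < Nat.find ex ↔ n * (n + h) ≤ Y := by
    rw [Nat.lt_find_iff]
    exact ⟨fun H => not_lt.1 (H n le_rfl), fun H m hm => not_lt.2
      ((Nat.mul_le_mul hm (Nat.add_le_add_right hm h)).trans H)⟩
  rw [Finset.mem_Ico, max_le_iff, lt_min_iff, e, Nat.succ_le_iff]
  tauto

theorem vwc_sum {ι : Type} (S : Finset ι) (D : ι → ℝ → ℂ) (hD : ∀ k ∈ S, Continuous (D k)) (s x : ℝ) :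
    tri s (fun t => ∑ k ∈ S, D k t) x = ∑ k ∈ S, tri s (D k) x := by
  simpa only [one_mul] using tri_sum S (fun _ => 1) D hD s x

theorem vwc_split (Y : ℕ) (a b : ℕ → ℕ → ℕ) (hab : ∀ j h n, n ∈ Finset.Ico (a j h) (b j h) ↔
    2 ^ j ≤ n ∧ n < 2 * 2 ^ j ∧ h < n ∧ n * (n + h) ≤ Y) (f : ℕ × ℕ → ℂ) :
    ∑ p ∈ (Pr Y).filter fun p => p.1 < p.2 ∧ p.2 < 2 * p.1, f p =
      ∑ j ∈ Finset.range (Nat.log 2 Y + 1), ∑ h ∈ Finset.Icc 1 (2 * 2 ^ j),
        ∑ n ∈ Finset.Ico (a j h) (b j h), f (n, n + h) := by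
  simp only [Finset.sum_sigma']
  refine Finset.sum_nbij' (fun p => ⟨Nat.log 2 p.1, p.2 - p.1, p.1⟩) (fun w => (w.2.2, w.2.2 + w.2.1))
    ?_ ?_ ?_ ?_ ?_
  · rintro ⟨n, m⟩ hp
    simp only [Finset.mem_filter, mem_Pr] at hp
    obtain ⟨⟨h1, h2, h3⟩, h4, h5⟩ := hp
    have h6 := Nat.pow_log_le_self 2 (show n ≠ 0 by omega)
    have h7 := Nat.lt_pow_succ_log_self one_lt_two n
    have h8 : Nat.log 2 n ≤ Nat.log 2 Y := Nat.log_mono_right (by nlinarith)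
    rw [Nat.succ_eq_add_one, pow_succ] at h7
    simp only [Finset.mem_sigma, Finset.mem_range, Finset.mem_Icc, hab]
    refine ⟨by omega, ⟨by omega, by omega⟩, h6, by omega, by omega, ?_⟩
    rwa [Nat.add_sub_cancel' h4.le]
  · rintro ⟨j, h, n⟩ hw
    simp only [Finset.mem_sigma, Finset.mem_range, Finset.mem_Icc, hab] at hw
    simp only [Finset.mem_filter, mem_Pr]
    omega
  · rintro ⟨n, m⟩ hp
    simp only [Finset.mem_filter] at hp
    simp only [Nat.add_sub_cancel' hp.2.1.le]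
  · rintro ⟨j, h, n⟩ hw
    simp only [Finset.mem_sigma, Finset.mem_range, Finset.mem_Icc, hab] at hw
    have e : Nat.log 2 n = j := Nat.log_eq_of_pow_le_of_lt_pow hw.2.2.1 (by rw [pow_succ]; omega)
    simp only [e, Nat.add_sub_cancel_left]
  · rintro ⟨n, m⟩ hp
    simp only [Finset.mem_filter] at hp
    simp only [Nat.add_sub_cancel' hp.2.1.le]

theorem vwc_block : ∃ K : ℝ, 0 < K ∧ ∀ (A Y : ℕ) (X s : ℝ), 1 ≤ A → A ^ 2 ≤ Y → 0 < X → 0 < s →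
    ∑ h ∈ Finset.Icc 1 (2 * A), s / A * min 1 ((A / (s * h)) ^ 2) *
      (√(X * h / A) + √((A : ℝ) ^ 3 / (X * h))) ≤ K * (√(X / s) + √(Y * s / X)) := by
  obtain ⟨C₁, hC₁, h₁⟩ := wc_min (β := 1 / 2) (by norm_num) (by norm_num)
  obtain ⟨C₂, hC₂, h₂⟩ := wc_min (β := -(1 / 2)) (by norm_num) (by norm_num)
  refine ⟨C₁ + C₂, by positivity, fun A Y X s hA hY hX hs => ?_⟩
  have hA0 : (0 : ℝ) < A := by exact_mod_cast hA
  have hY' : (A : ℝ) ^ 2 ≤ Y := by exact_mod_cast hY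
  have hu : 0 < A / s := div_pos hA0 hs
  have e1 : ∀ h ∈ Finset.Icc 1 (2 * A), s / A * min 1 ((A / (s * h)) ^ 2) *
      (√(X * h / A) + √((A : ℝ) ^ 3 / (X * h))) =
      s / A * √(X / A) * (min 1 ((A / s / h) ^ 2) * (h : ℝ) ^ (1 / 2 : ℝ)) +
        s / A * √(A ^ 3 / X) * (min 1 ((A / s / h) ^ 2) * (h : ℝ) ^ (-(1 / 2) : ℝ)) := fun h _ => by
    rw [Real.rpow_neg (Nat.cast_nonneg _), ← Real.sqrt_eq_rpow, div_div, mul_div_right_comm,
      Real.sqrt_mul (by positivity), ← div_div _ X, Real.sqrt_div' (A ^ 3 / X) (Nat.cast_nonneg _)]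
    ring
  rw [Finset.sum_congr rfl e1, Finset.sum_add_distrib, ← Finset.mul_sum, ← Finset.mul_sum]
  have e2 : (A / s : ℝ) ^ (1 / 2 + 1 : ℝ) = √(A / s) * (A / s) := by
    rw [Real.rpow_add hu, Real.rpow_one, ← Real.sqrt_eq_rpow]
  have e3 : (A / s : ℝ) ^ (-(1 / 2) + 1 : ℝ) = √(A / s) := by
    rw [Real.sqrt_eq_rpow]
    norm_num
  have e4 : √(X / A) * √(A / s) = √(X / s) := by
    rw [← Real.sqrt_mul (by positivity)]
    congr 1
    field_simp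
  have e5 : s / A * √(A ^ 3 / X) * √(A / s) ≤ √(Y * s / X) := by
    refine Real.le_sqrt_of_sq_le ?_
    rw [mul_pow, mul_pow, Real.sq_sqrt (by positivity), Real.sq_sqrt hu.le]
    calc (s / A) ^ 2 * (A ^ 3 / X) * (A / s) = A ^ 2 * s / X := by field_simp
      _ ≤ _ := by gcongr
  have k1 := mul_le_mul_of_nonneg_left (h₁ _ (2 * A) hu) (show 0 ≤ s / A * √(X / A) by positivity)
  have k2 := mul_le_mul_of_nonneg_left (h₂ _ (2 * A) hu) (show 0 ≤ s / A * √(A ^ 3 / X) by positivity)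
  rw [e2, show s / A * √(X / A) * (C₁ * (√(A / s) * (A / s))) = C₁ * (√(X / A) * √(A / s)) by
    field_simp, e4] at k1
  rw [e3] at k2
  have k3 := mul_le_mul_of_nonneg_left e5 hC₂.le
  have k4 : 0 ≤ C₁ * √(Y * s / X) := by positivity
  have k5 : 0 ≤ C₂ * √(X / s) := by positivity
  linarith

theorem vwc_log {Y : ℕ} (hY : 1 ≤ Y) : ((Nat.log 2 Y + 1 : ℕ) : ℝ) ≤ 2 * (1 + Real.log Y) := by
  have h1 : ((2 : ℝ)) ^ Nat.log 2 Y ≤ Y := by exact_mod_cast Nat.pow_log_le_self 2 (show Y ≠ 0 by omega)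
  have h2 := Real.log_le_log (by positivity) h1
  rw [Real.log_pow] at h2
  have h3 := Real.log_two_gt_d9
  have h4 : (0 : ℝ) ≤ Nat.log 2 Y := Nat.cast_nonneg _
  push_cast
  nlinarith

/- The pairs `(n, n + h)` with `h < n`, `n (n + h) ≤ Y`.  Sort them by `j = Nat.log 2 n` (`2 ^ j ≤ Y`, at most `1 + log Y / log 2`
values) and `h ∈ Icc 1 (2 A)`, `A = 2 ^ j`: for fixed `j`, `h` the `n` form an interval `Ico a b` with `A ≤ a`, `b ≤ 2 A`, empty unless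
`A ^ 2 ≤ Y`.  `wpb`, then `wc_min` with `u = A / s`, `β = 1 / 2` and `β = -1 / 2` gives `√(X / s) + A √(s / X)`. -/
theorem wc_near {q : ℕ} (hq : 0 < q) (n₀ : ℕ) : ∃ C : ℝ, 0 < C ∧
    ∀ (G : ℕ → ℕ → ℂ) (Y : ℕ) (X x s ς : ℝ) (z : ℂ),
    (∀ h n, ‖G h n‖ ≤ 1) → (∀ h n, n₀ ≤ n → G h (n + q) = G h n) → 1 ≤ Y → 0 < X → 0 < s →
    (ς = 1 ∨ ς = -1) → 0 ≤ z.re → (∀ v ∈ Icc (-s) s, X ≤ |x + v| ∧ |x + v| ≤ 8 * X) →
    ‖tri s (fun t => ∑ p ∈ (Pr Y).filter fun p => p.1 < p.2 ∧ p.2 < 2 * p.1,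
        G (p.2 - p.1) p.1 * ((p.1 * p.2 : ℕ) : ℂ) ^ (-(1 / 2) - z) *
          exp (I * (ς * (Real.log p.2 - Real.log p.1) * t : ℝ))) x‖ ≤
      C * (1 + ‖z‖) * (1 + Real.log Y) * (√(X / s) + √(Y * s / X)) := by
  obtain ⟨C, hC, hb⟩ := wpb hq n₀
  obtain ⟨K, hK, hk⟩ := vwc_block
  refine ⟨2 * C * K, by positivity, fun G Y X x s ς z hG hp hY hX hs hς hz hx => ?_⟩
  choose a b ha hb' hab using fun j h : ℕ => vwc_int (2 ^ j) h Y
  simp only [vwc_split Y a b hab, Nat.add_sub_cancel_left, Nat.cast_add _ (_ : ℕ) (R := ℝ)]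
  rw [vwc_sum _ _ fun j _ => by fun_prop]
  have hE : 0 ≤ √(X / s) + √(Y * s / X) := by positivity
  refine (norm_sum_le _ _).trans ((Finset.sum_le_card_nsmul _ _
    (C * (1 + ‖z‖) * (K * (√(X / s) + √(Y * s / X)))) fun j _ => ?_).trans ?_)
  · rw [vwc_sum _ _ fun j _ => by fun_prop]
    refine (norm_sum_le _ _).trans ?_
    rcases le_or_gt ((2 ^ j) ^ 2) Y with hj | hj
    · refine le_trans (Finset.sum_le_sum fun h hh => hb (G h) (2 ^ j) (a j h) (b j h) h X x s ς z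
        (hG h) (hp h) Nat.one_le_two_pow (ha j h) (hb' j h) (Finset.mem_Icc.1 hh).1
        (Finset.mem_Icc.1 hh).2 hX hs hς hz hx) ?_
      simp only [mul_assoc (C * (1 + ‖z‖))]
      rw [← Finset.mul_sum]
      exact mul_le_mul_of_nonneg_left (hk _ Y X s Nat.one_le_two_pow hj hX hs) (by positivity)
    · rw [Finset.sum_eq_zero fun h _ => ?_]
      · positivity
      have e : Finset.Ico (a j h) (b j h) = ∅ := Finset.eq_empty_of_forall_notMem fun n hn => by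
        obtain ⟨h1, -, -, h2⟩ := (hab j h n).1 hn
        have h3 := Nat.pow_le_pow_left h1 2
        have h4 : n ^ 2 ≤ n * (n + h) := by
          rw [sq]
          exact Nat.mul_le_mul_left _ (Nat.le_add_right _ _)
        omega
      simp [e, tri]
  · rw [Finset.card_range, nsmul_eq_mul]
    refine (mul_le_mul_of_nonneg_right (vwc_log hY) (by positivity)).trans (le_of_eq (by ring))

theorem vwc_co {g : ℕ → ℂ} (hg : ∀ n, ‖g n‖ ≤ 1) {z : ℂ} (hz : 0 ≤ z.re) {Y : ℕ} {p : ℕ × ℕ}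
    (hp : p ∈ Pr Y) :
    ‖g p.1 * (starRingEnd ℂ) (g p.2) * ((p.1 * p.2 : ℕ) : ℂ) ^ (-(1 / 2) - z)‖ ≤ w0 p := by
  obtain ⟨h1, h2, -⟩ := mem_Pr.1 hp
  have h3 : 1 ≤ p.1 * p.2 := Nat.mul_pos h1 h2
  rw [norm_mul, norm_mul, RCLike.norm_conj, norm_natCast_cpow_of_pos h3, w0]
  refine (mul_le_of_le_one_left (by positivity) (mul_le_one₀ (hg _) (norm_nonneg _) (hg _))).trans
    (Real.rpow_le_rpow_of_exponent_le (by exact_mod_cast h3) ?_)
  simp only [sub_re, neg_re, div_ofNat_re, one_re]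
  linarith

theorem vwc_far {Y : ℕ} {p : ℕ × ℕ} (hp : p ∈ Pr Y) (h : 2 * p.1 ≤ p.2 ∨ 2 * p.2 ≤ p.1) {s : ℝ}
    (hs : 0 < s) (x : ℝ) : ‖tri s (osc p) x‖ ≤ 16 / s := by
  obtain ⟨h1, h2, -⟩ := mem_Pr.1 hp
  have k : ∀ m n : ℕ, 1 ≤ m → 2 * m ≤ n → 1 / 2 ≤ Real.log n - Real.log m := fun m n hm hn => by
    have hm' : (0 : ℝ) < m := by exact_mod_cast hm
    have hn' : (2 : ℝ) * m ≤ n := by exact_mod_cast hn
    have e := Real.log_le_log (by positivity) hn'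
    rw [Real.log_mul two_ne_zero hm'.ne'] at e
    linarith [Real.log_two_gt_d9]
  have h3 : 1 / 4 ≤ fr p ^ 2 := by
    rcases h with h | h
    · have := k _ _ h1 h
      rw [fr]
      nlinarith
    · have := k _ _ h2 h
      rw [fr]
      nlinarith
  have h4 : fr p ≠ 0 := fun e => by
    rw [e] at h3
    norm_num at h3
  rw [show osc p = fun t => exp (I * (fr p * t : ℝ)) from rfl, tri_exp hs h4, norm_div, norm_real,
    Real.norm_of_nonneg (by positivity), div_le_div_iff₀ (by positivity) hs]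
  have h5 : ‖2 * exp (I * (fr p * x : ℝ)) - exp (I * (fr p * (x + s) : ℝ)) -
      exp (I * (fr p * (x - s) : ℝ))‖ ≤ 4 := by
    refine (norm_sub_le _ _).trans ((add_le_add_left (norm_sub_le _ _) _).trans (le_of_eq ?_))
    rw [norm_mul, norm_ei, norm_ei, norm_ei]
    norm_num
  nlinarith

theorem vwc_four (Y : ℕ) (f : ℕ × ℕ → ℂ) : ∑ p ∈ Pr Y, f p =
    dg f Y + ∑ p ∈ (Pr Y).filter fun p => 2 * p.1 ≤ p.2 ∨ 2 * p.2 ≤ p.1, f p +
      ∑ p ∈ (Pr Y).filter fun p => p.1 < p.2 ∧ p.2 < 2 * p.1, f p +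
      ∑ p ∈ (Pr Y).filter fun p => p.1 < p.2 ∧ p.2 < 2 * p.1, f p.swap := by
  have e : ∑ p ∈ (Pr Y).filter fun p => p.1 < p.2 ∧ p.2 < 2 * p.1, f p.swap =
      ∑ p ∈ (Pr Y).filter fun p => p.2 < p.1 ∧ p.1 < 2 * p.2, f p := by
    refine Finset.sum_nbij' Prod.swap Prod.swap ?_ ?_ (fun _ _ => rfl) (fun _ _ => rfl) fun _ _ => rfl
    all_goals
      intro p hp
      simp only [Finset.mem_filter, mem_Pr, Prod.fst_swap, Prod.snd_swap, mul_comm p.2 p.1] at hp ⊢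
      tauto
  rw [e, dg]
  simp only [Finset.sum_filter, ← Finset.sum_add_distrib]
  refine Finset.sum_congr rfl fun p hp => ?_
  obtain ⟨h1, h2, -⟩ := mem_Pr.1 hp
  split_ifs <;> first | omega | simp

/- Split `Pr Y` into the diagonal (`tri_le`, `harm_le`), the pairs with `|fr p| ≥ log 2` (`tri_sum`, `tri_exp`, each at most
`w0 p * 4 / (s * (log 2) ^ 2)`, `sum_w0`), the pairs of `wc_near` (`G h n = g n * conj (g (n + h))`, `ς = 1`) and their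
mirror images under `Prod.swap` (`G h n = g (n + h) * conj (g n)`, `ς = -1`). -/
theorem wpc {q : ℕ} (hq : 0 < q) (n₀ : ℕ) {ε : ℝ} (hε : 0 < ε) : ∃ C : ℝ, 0 < C ∧
    ∀ (g : ℕ → ℂ) (Y : ℕ) (X x s : ℝ) (z : ℂ),
    (∀ n, ‖g n‖ ≤ 1) → (∀ n, n₀ ≤ n → g (n + q) = g n) → 1 ≤ Y → 0 < X → 0 < s → 0 ≤ z.re →
    (∀ v ∈ Icc (-s) s, X ≤ |x + v| ∧ |x + v| ≤ 8 * X) →
    ‖tri s (PP (fun p => g p.1 * (starRingEnd ℂ) (g p.2) *
        ((p.1 * p.2 : ℕ) : ℂ) ^ (-(1 / 2) - z)) (Pr Y)) x‖ ≤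
      C * (1 + ‖z‖) * (Y : ℝ) ^ ε * (s + √(Y : ℝ) / s + √(X / s) + √(Y * s / X)) := by
  obtain ⟨C₁, hC₁, h₁⟩ := dg_le hε
  obtain ⟨C₂, hC₂, h₂⟩ := sum_w0 hε
  obtain ⟨C₃, hC₃, h₃⟩ := wc_near hq n₀
  obtain ⟨C₄, hC₄, h₄⟩ := log_le_rpow hε
  refine ⟨C₁ + 16 * C₂ + 2 * (C₃ * C₄), by positivity, fun g Y X x s z hg hp hY hX hs hz hx => ?_⟩
  have hY' : (1 : ℝ) ≤ Y := by exact_mod_cast hY
  have co : ∀ p, Continuous (osc p) := fun p => by
    unfold osc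
    fun_prop
  set c : ℕ × ℕ → ℂ := fun p => g p.1 * (starRingEnd ℂ) (g p.2) *
    ((p.1 * p.2 : ℕ) : ℂ) ^ (-(1 / 2) - z) with hc
  have hcw : ∀ p ∈ Pr Y, ‖c p‖ ≤ w0 p := fun p hp => vwc_co hg hz hp
  have hn : ∀ m n, ‖g m * (starRingEnd ℂ) (g n)‖ ≤ 1 := fun m n => by
    rw [norm_mul, RCLike.norm_conj]
    exact mul_le_one₀ (hg _) (norm_nonneg _) (hg _)
  have hp' : ∀ h n, n₀ ≤ n → g (n + q + h) = g (n + h) := fun h n hn => by
    rw [add_right_comm, hp _ (by omega)]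
  have b1 := h₁ Y (fun p => c p * tri s (osc p) x) s hY hs.le fun p hp => by
    rw [norm_mul, mul_comm]
    exact mul_le_mul ((tri_le hs fun v _ => (norm_osc p _).le).trans (mul_one s).le) (hcw p hp)
      (norm_nonneg _) hs.le
  have b2 : ‖∑ p ∈ (Pr Y).filter fun p => 2 * p.1 ≤ p.2 ∨ 2 * p.2 ≤ p.1, c p * tri s (osc p) x‖ ≤
      C₂ * √Y * (Y : ℝ) ^ ε * (16 / s) := by
    refine (norm_sum_le _ _).trans (le_trans ?_ (mul_le_mul_of_nonneg_right (h₂ Y hY) (by positivity)))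
    rw [Finset.sum_mul]
    refine le_trans (Finset.sum_le_sum fun p hp => ?_) (Finset.sum_le_sum_of_subset_of_nonneg
      (Finset.filter_subset _ _) fun p _ _ => mul_nonneg (w0_nonneg p) (by positivity))
    obtain ⟨a1, a2⟩ := Finset.mem_filter.1 hp
    rw [norm_mul]
    exact mul_le_mul (hcw p a1) (vwc_far a1 a2 hs x) (norm_nonneg _) (w0_nonneg p)
  have b3 := h₃ (fun h n => g n * (starRingEnd ℂ) (g (n + h))) Y X x s 1 z (fun h n => hn _ _)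
    (fun h n hn => by simp only [hp n hn, hp' h n hn]) hY hX hs (Or.inl rfl) hz hx
  have b4 := h₃ (fun h n => g (n + h) * (starRingEnd ℂ) (g n)) Y X x s (-1) z (fun h n => hn _ _)
    (fun h n hn => by simp only [hp n hn, hp' h n hn]) hY hX hs (Or.inr rfl) hz hx
  rw [tri_sum _ _ _ fun p _ => by fun_prop, Finset.sum_congr rfl
    (g := fun p => c p * tri s (osc p) x) fun p hp => by
      rw [Nat.add_sub_cancel' (Finset.mem_filter.1 hp).2.1.le, one_mul]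
      rfl] at b3
  rw [tri_sum _ _ _ fun p _ => by fun_prop, Finset.sum_congr rfl
    (g := fun p => c p.swap * tri s (osc p.swap) x) fun p hp => by
      rw [Nat.add_sub_cancel' (Finset.mem_filter.1 hp).2.1.le, neg_one_mul, neg_sub, mul_comm p.1]
      rfl] at b4
  rw [show PP c (Pr Y) = fun t => ∑ p ∈ Pr Y, c p * osc p t from rfl, tri_sum _ _ _ fun p _ => co p,
    vwc_four Y fun p => c p * tri s (osc p) x]
  refine (norm_add_le_of_le (norm_add_le_of_le (norm_add_le_of_le b1 b2) b3) b4).trans ?_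
  have k0 : 0 ≤ √(X / s) + √(Y * s / X) := by positivity
  have k1 := mul_le_mul_of_nonneg_right (mul_le_mul_of_nonneg_left (h₄ Y hY')
    (show 0 ≤ C₃ * (1 + ‖z‖) by positivity)) k0
  have k2 : 0 ≤ √(Y : ℝ) / s := by positivity
  have k3 : (Y : ℝ) ^ ε ≤ (1 + ‖z‖) * (Y : ℝ) ^ ε :=
    le_mul_of_one_le_left (by positivity) (by linarith [norm_nonneg z])
  have k4 : 0 ≤ (Y : ℝ) ^ ε := by positivity
  generalize (1 + ‖z‖) = Z at *
  generalize (Y : ℝ) ^ ε = P at *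
  have k5 : C₁ * s * P ≤ C₁ * (Z * P * (s + √(Y : ℝ) / s + √(X / s) + √(Y * s / X))) := by
    rw [mul_assoc, mul_comm s]
    exact mul_le_mul_of_nonneg_left (mul_le_mul k3 (by linarith) hs.le (k4.trans k3)) hC₁.le
  have k6 : C₂ * √Y * P * (16 / s) ≤
      16 * C₂ * (Z * P * (s + √(Y : ℝ) / s + √(X / s) + √(Y * s / X))) := by
    rw [show C₂ * √Y * P * (16 / s) = 16 * C₂ * (P * (√(Y : ℝ) / s)) by ring]
    exact mul_le_mul_of_nonneg_left (mul_le_mul k3 (by linarith) k2 (k4.trans k3)) (by positivity)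
  have k7 : C₃ * Z * (C₄ * P) * (√(X / s) + √(Y * s / X)) ≤
      C₃ * C₄ * (Z * P * (s + √(Y : ℝ) / s + √(X / s) + √(Y * s / X))) := by
    rw [show C₃ * Z * (C₄ * P) * (√(X / s) + √(Y * s / X)) =
      C₃ * C₄ * (Z * P * (√(X / s) + √(Y * s / X))) by ring]
    exact mul_le_mul_of_nonneg_left (mul_le_mul_of_nonneg_left (by linarith) (k4.trans k3))
      (by positivity)
  linarith

end Pool.Agent.Lib.MP_2a1a00_nt
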