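import Pool.Agent.Lib.MP_2a1a00_nt.V.Defs
import Pool.Agent.Lib.MP_2a1a00_nt.Mvt
import Pool.Agent.Lib.MP_2a1a00_nt.Nm

/-! Elementary properties of the Voronoi series. -/

namespace Pool.Agent.Lib.MP_2a1a00_nt

open Complex MeasureTheory Set

theorem ts_cont (d κ : ℝ) (c : ℕ → ℂ) (M N : ℕ) : ContinuousOn (ts d κ c M N) (Ioi 0) := by
  refine continuousOn_finsetSum _ fun n hn => ?_
  have h0 : (0 : ℝ) < n := by exact_mod_cast (Nat.zero_le M).trans_lt (Finset.mem_Ioc.1 hn).1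
  have h : ContinuousOn (fun y : ℝ => (n * y) ^ (1 / d)) (Ioi 0) :=
    (continuousOn_const.mul continuousOn_id).rpow_const fun _ hx =>
      Or.inl (mul_pos h0 hx).ne'
  exact continuousOn_const.mul (continuousOn_const.mul
    (continuous_ofReal.comp_continuousOn (continuousOn_const.mul h))).cexp

/-- The derivative of one half of the kernel. -/
noncomputable def vh1_g (a : ℂ) (d κ y : ℝ) : ℂ :=
  (a / y + I * (κ * (1 / d * y ^ (1 / d - 1)) : ℝ)) * (px a y * exp (I * (κ * y ^ (1 / d) : ℝ)))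

theorem vh1_der (a : ℂ) (d κ : ℝ) {y : ℝ} (hy : 0 < y) :
    HasDerivAt (fun y : ℝ => px a y * exp (I * (κ * y ^ (1 / d) : ℝ))) (vh1_g a d κ y) y := by
  have h1 := ((((Real.hasDerivAt_rpow_const (p := 1 / d) (Or.inl hy.ne')).const_mul κ).ofReal_comp).const_mul
    I).cexp
  have h2 := (nm_der a hy).mul h1
  refine h2.congr_deriv ?_
  unfold vh1_g px
  ring

theorem vh1_cont (a : ℂ) (d κ : ℝ) : ContinuousOn (vh1_g a d κ) (Ioi 0) := by
  have h (e : ℝ) : ContinuousOn (fun y : ℝ => y ^ e) (Ioi 0) :=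
    continuousOn_id.rpow_const fun _ hx => Or.inl (ne_of_gt hx)
  exact ((continuousOn_const.div continuous_ofReal.continuousOn
    fun _ hx => ofReal_ne_zero.2 (ne_of_gt hx)).add (continuousOn_const.mul
    (continuous_ofReal.comp_continuousOn (continuousOn_const.mul (continuousOn_const.mul (h _)))))).mul
    ((px_cont _).mul (continuousOn_const.mul
    (continuous_ofReal.comp_continuousOn (continuousOn_const.mul (h _)))).cexp)

theorem vh1_le (a : ℂ) {d : ℝ} (hd : 2 ≤ d) (κ : ℝ) {y : ℝ} (hy : 1 / 2 ≤ y) :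
    ‖vh1_g a d κ y‖ ≤ (2 * ‖a‖ + |κ|) * y ^ (a.re + 1 / d - 1) := by
  have h0 : 0 < y := by linarith
  have h1 : 1 / d ≤ 1 := by rw [div_le_one (by linarith)]; linarith
  have h2 : 0 ≤ 1 / d := by positivity
  have h3 : 1 / 2 ≤ y ^ (1 / d) := by
    refine le_trans ?_ (Real.rpow_le_rpow (by norm_num) hy h2)
    have := Real.rpow_le_rpow_of_exponent_ge (x := 1 / 2) (by norm_num) (by norm_num) h1
    rwa [Real.rpow_one] at this
  have h4 : y⁻¹ ≤ 2 * y ^ (1 / d - 1) := by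
    rw [Real.rpow_sub_one h0.ne', div_eq_mul_inv, ← mul_assoc]
    exact le_mul_of_one_le_left (by positivity) (by linarith)
  have h5 : 0 ≤ y ^ (1 / d - 1) := by positivity
  rw [vh1_g, norm_mul, norm_mul, norm_ei, mul_one, norm_px _ h0, add_sub_assoc, add_comm a.re,
    Real.rpow_add h0, ← mul_assoc (2 * ‖a‖ + |κ|)]
  refine mul_le_mul_of_nonneg_right ?_ (Real.rpow_nonneg h0.le _)
  refine (norm_add_le _ _).trans ?_
  rw [norm_div, norm_mul, norm_I, one_mul, norm_real, norm_real, Real.norm_of_nonneg h0.le,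
    Real.norm_eq_abs, abs_mul, abs_of_nonneg (mul_nonneg h2 h5), div_eq_mul_inv ‖a‖, add_mul]
  refine add_le_add ?_ (mul_le_mul_of_nonneg_left (mul_le_of_le_one_left h5 h1) (abs_nonneg κ))
  have := mul_le_mul_of_nonneg_left h4 (norm_nonneg a)
  linarith

/- The derivative of `px a y * exp (i κ y ^ (1 / d))` is `(a / y + i κ y ^ (1 / d - 1) / d)` times the function
(`nm_der`), and `y⁻¹ ≤ 2 * y ^ (1 / d - 1)` for `y ≥ 1 / 2`. -/
theorem J0_der (P : Vo) {d : ℝ} (hd : 2 ≤ d) : ∃ (C : ℝ) (J' : ℝ → ℂ), 0 < C ∧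
    ContinuousOn J' (Ioi 0) ∧ (∀ y : ℝ, 0 < y → HasDerivAt (J0 P d) (J' y) y) ∧
      ∀ y : ℝ, 1 / 2 ≤ y → ‖J' y‖ ≤ C * y ^ (al d + 1 / d - 1) := by
  refine ⟨(‖P.ap‖ + ‖P.am‖) * (2 * ‖P.ex d‖ + |P.ka|) + 1,
    fun y => P.ap * vh1_g (P.ex d) d P.ka y + P.am * vh1_g (P.ex d) d (-P.ka) y, by positivity,
    (continuousOn_const.mul (vh1_cont _ _ _)).add (continuousOn_const.mul (vh1_cont _ _ _)),
    fun y hy => ?_, fun y hy => ?_⟩
  · have h := ((vh1_der (P.ex d) d P.ka hy).const_mul P.ap).add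
      ((vh1_der (P.ex d) d (-P.ka) hy).const_mul P.am)
    refine h.congr_of_eventuallyEq (Filter.Eventually.of_forall fun y => ?_)
    simp only [J0, Pi.add_apply]
    ring
  · have h1 := vh1_le (P.ex d) hd P.ka hy
    have h2 := vh1_le (P.ex d) hd (-P.ka) hy
    rw [abs_neg] at h2
    rw [Vo.ex_re] at h1 h2
    have h3 : 0 ≤ y ^ (al d + 1 / d - 1) := Real.rpow_nonneg (by linarith) _
    refine (norm_add_le _ _).trans ?_
    rw [norm_mul, norm_mul]
    have h4 := mul_le_mul_of_nonneg_left h1 (norm_nonneg P.ap)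
    have h5 := mul_le_mul_of_nonneg_left h2 (norm_nonneg P.am)
    linarith

namespace Sel

variable (F : Sel) (P : Vo)

/- `px_mul`. -/
theorem H_eq (M N : ℕ) {x : ℝ} (hx : 0 < x) : F.H P M N x = px (P.ex F.deg) x *
    (P.ap * ts F.deg P.ka (F.cf P) M N x + P.am * ts F.deg (-P.ka) (F.cf P) M N x) := by
  unfold H ts
  rw [Finset.mul_sum, Finset.mul_sum, ← Finset.sum_add_distrib, Finset.mul_sum]
  refine Finset.sum_congr rfl fun n hn => ?_
  have h0 : (0 : ℝ) < n := by exact_mod_cast (Nat.zero_le M).trans_lt (Finset.mem_Ioc.1 hn).1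
  rw [J0, cf, px_mul _ h0 hx]
  ring

theorem cf_le {ε : ℝ} (hε : 0 < ε) : ∃ C : ℝ, 0 < C ∧ ∀ n : ℕ, 1 ≤ n →
    ‖F.cf P n‖ ≤ C * (n : ℝ) ^ (al F.deg - 1 + ε) := by
  obtain ⟨C, hC, H⟩ := F.ram' hε
  refine ⟨C, by linarith, fun n hn => ?_⟩
  have h0 : (0 : ℝ) < n := by exact_mod_cast hn
  rw [cf, norm_mul, norm_div, norm_px _ h0, Vo.ex_re, RCLike.norm_conj, Complex.norm_natCast,
    Real.rpow_add h0, Real.rpow_sub_one h0.ne']
  calc _ ≤ C * (n : ℝ) ^ ε / n * (n : ℝ) ^ al F.deg := by gcongr; exact H n hn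
    _ = _ := by ring

theorem H_split {M N : ℕ} (h : M ≤ N) (x : ℝ) : F.H P 0 N x = F.H P 0 M x + F.H P M N x := by
  unfold H
  rw [Finset.sum_Ioc_consecutive _ (Nat.zero_le M) h]

theorem H_cont (M N : ℕ) : ContinuousOn (F.H P M N) (Ioi 0) := by
  refine continuousOn_finsetSum _ fun n hn => ?_
  have h0 : (0 : ℝ) < n := by exact_mod_cast (Nat.zero_le M).trans_lt (Finset.mem_Ioc.1 hn).1
  exact continuousOn_const.mul ((J0_cont P F.deg).comp (continuousOn_const.mul continuousOn_id)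
    fun _ hx => mul_pos h0 hx)

/- `norm_J0_le`, `sum_rpow_head`, `al_mem`. -/
theorem H_le (hd : 2 ≤ F.deg) {ε : ℝ} (hε : 0 < ε) : ∃ C : ℝ, 0 < C ∧ ∀ (M N : ℕ) (x : ℝ), 0 < x →
    ‖F.H P M N x‖ ≤ C * x ^ al F.deg * (N : ℝ) ^ (al F.deg + ε) := by
  obtain ⟨a1, -, -⟩ := al_mem hd
  obtain ⟨C, hC, H₁⟩ := F.ram' hε
  obtain ⟨C', hC', H₂⟩ := sum_rpow_head (β := al F.deg + ε) (by linarith)
  refine ⟨C * (‖P.ap‖ + ‖P.am‖ + 1) * C', by positivity, fun M N x hx => ?_⟩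
  have hsub : Finset.Ioc M N ⊆ Finset.Icc 1 N := fun n hn =>
    Finset.mem_Icc.2 ⟨(Nat.zero_le M).trans_lt (Finset.mem_Ioc.1 hn).1, (Finset.mem_Ioc.1 hn).2⟩
  calc _ ≤ ∑ n ∈ Finset.Ioc M N, C * (‖P.ap‖ + ‖P.am‖ + 1) * x ^ al F.deg *
        (n : ℝ) ^ (al F.deg + ε - 1) := by
        refine (norm_sum_le _ _).trans (Finset.sum_le_sum fun n hn => ?_)
        have hn1 := (Finset.mem_Icc.1 (hsub hn)).1
        have h0 : (0 : ℝ) < n := by exact_mod_cast hn1
        have h1 := norm_J0_le P F.deg (mul_pos h0 hx)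
        rw [Real.mul_rpow h0.le hx.le] at h1
        rw [norm_mul, norm_div, RCLike.norm_conj, Complex.norm_natCast, Real.rpow_sub_one h0.ne',
          Real.rpow_add h0]
        calc _ ≤ C * (n : ℝ) ^ ε / n *
              ((‖P.ap‖ + ‖P.am‖ + 1) * ((n : ℝ) ^ al F.deg * x ^ al F.deg)) := by
              refine mul_le_mul (div_le_div_of_nonneg_right (H₁ n hn1) h0.le) (h1.trans ?_)
                (norm_nonneg _) (by positivity)
              exact mul_le_mul_of_nonneg_right (by linarith) (by positivity)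
          _ = _ := by ring
    _ ≤ C * (‖P.ap‖ + ‖P.am‖ + 1) * x ^ al F.deg * (C' * (N : ℝ) ^ (al F.deg + ε)) := by
        rw [← Finset.mul_sum]
        exact mul_le_mul_of_nonneg_left ((Finset.sum_le_sum_of_subset_of_nonneg hsub
          fun _ _ _ => by positivity).trans (H₂ N)) (by positivity)
    _ = _ := by ring

/- `J0_der`; the derivative is `∑ conj (f n) * J' (n x)`; `ram'` with `ε = 1 / 4`; `al_mem`; every term
`n ^ (1 / 4 + al d + 1 / d - 1)` is at most one. -/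
theorem H_der (hd : 2 ≤ F.deg) : ∃ C : ℝ, 1 ≤ C ∧ ∀ N : ℕ, ∃ H' : ℝ → ℂ,
    ContinuousOn H' (Ioi 0) ∧ (∀ x : ℝ, 0 < x → HasDerivAt (F.H P 0 N) (H' x) x) ∧
      ∀ x : ℝ, 1 / 2 ≤ x → ‖F.H P 0 N x‖ ≤ C * x ^ al F.deg * N ∧
        ‖H' x‖ ≤ C * x ^ (al F.deg + 1 / F.deg - 1) * N := by
  obtain ⟨a1, a2, a3⟩ := al_mem hd
  obtain ⟨C₁, J', hC₁, c1, d1, b1⟩ := J0_der P hd
  obtain ⟨C₂, hC₂, H₂⟩ := F.ram' (ε := 1 / 4) (by norm_num)
  obtain ⟨C₃, hC₃, H₃⟩ := F.H_le P hd (ε := 1 / 4) (by norm_num)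
  have h21 : 0 ≤ C₂ * C₁ := by positivity
  refine ⟨1 + C₃ + C₂ * C₁, by linarith, fun N =>
    ⟨fun x => ∑ n ∈ Finset.Ioc 0 N, (starRingEnd ℂ) (F.f n) * J' (n * x), ?_, fun x hx => ?_,
      fun x hx => ⟨?_, ?_⟩⟩⟩
  · refine continuousOn_finsetSum _ fun n hn => ?_
    have h0 : (0 : ℝ) < n := by exact_mod_cast (Finset.mem_Ioc.1 hn).1
    exact continuousOn_const.mul (c1.comp (continuousOn_const.mul continuousOn_id)
      fun _ hx => mul_pos h0 hx)
  · refine HasDerivAt.fun_sum fun n hn => ?_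
    have h0 : (0 : ℝ) < n := by exact_mod_cast (Finset.mem_Ioc.1 hn).1
    have h1 := ((d1 _ (mul_pos h0 hx)).scomp x ((hasDerivAt_id x).const_mul (n : ℝ))).const_mul
      ((starRingEnd ℂ) (F.f n) / n)
    refine h1.congr_deriv ?_
    have h2 : (n : ℂ) ≠ 0 := by exact_mod_cast h0.ne'
    simp only [mul_one, real_smul, ofReal_natCast]
    field_simp
  · have h0 : 0 < x := by linarith
    refine (H₃ 0 N x h0).trans (mul_le_mul (mul_le_mul_of_nonneg_right (by linarith)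
      (by positivity)) ?_ (by positivity) (by positivity))
    rcases Nat.eq_zero_or_pos N with rfl | hN
    · rw [Nat.cast_zero, Real.zero_rpow (by linarith)]
    · have := Real.rpow_le_rpow_of_exponent_le (x := N) (y := al F.deg + 1 / 4) (z := 1)
        (by exact_mod_cast hN) (by linarith)
      rwa [Real.rpow_one] at this
  · have h0 : 0 < x := by linarith
    refine (norm_sum_le _ _).trans ((Finset.sum_le_card_nsmul _ _
      ((1 + C₃ + C₂ * C₁) * x ^ (al F.deg + 1 / F.deg - 1)) fun n hn => ?_).trans (le_of_eq ?_))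
    · have hn1 : 1 ≤ n := (Finset.mem_Ioc.1 hn).1
      have h1 : (1 : ℝ) ≤ n := by exact_mod_cast hn1
      have h2 := b1 (n * x) (by nlinarith)
      rw [Real.mul_rpow (by linarith) h0.le] at h2
      have h3 : (n : ℝ) ^ (1 / 4 : ℝ) * (n : ℝ) ^ (al F.deg + 1 / F.deg - 1) ≤ 1 := by
        rw [← Real.rpow_add (by linarith)]
        exact Real.rpow_le_one_of_one_le_of_nonpos h1 (by linarith)
      rw [norm_mul, RCLike.norm_conj]
      calc _ ≤ C₂ * (n : ℝ) ^ (1 / 4 : ℝ) * (C₁ * ((n : ℝ) ^ (al F.deg + 1 / F.deg - 1) *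
            x ^ (al F.deg + 1 / F.deg - 1))) :=
            mul_le_mul (H₂ n hn1) h2 (norm_nonneg _) (by positivity)
        _ = C₂ * C₁ * x ^ (al F.deg + 1 / F.deg - 1) *
            ((n : ℝ) ^ (1 / 4 : ℝ) * (n : ℝ) ^ (al F.deg + 1 / F.deg - 1)) := by ring
        _ ≤ (1 + C₃ + C₂ * C₁) * x ^ (al F.deg + 1 / F.deg - 1) * 1 :=
            mul_le_mul (mul_le_mul_of_nonneg_right (by linarith) (by positivity)) h3
              (by positivity) (by positivity)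
        _ = _ := mul_one _
    · rw [Nat.card_Ioc, Nat.sub_zero, nsmul_eq_mul, mul_comm]

/- `H_der`; on `[T, 2 T]`: `x ^ al d ≤ 2 T ^ al d`, `x ^ (al d + 1 / d - 1) ≤ T ^ al d * T ^ (-1 / 2)`. -/
theorem H_sm (hd : 2 ≤ F.deg) : ∃ C : ℝ, 1 ≤ C ∧ ∀ (N : ℕ) (T : ℝ), 1 ≤ T →
    Sm (F.H P 0 N) T (C * T ^ al F.deg * N) (T ^ (-1 / 2 : ℝ)) := by
  obtain ⟨a1, a2, a3⟩ := al_mem hd
  obtain ⟨C, hC, H₁⟩ := F.H_der P hd
  have hd' : 1 / F.deg ≤ 1 / 2 := one_div_le_one_div_of_le (by norm_num) hd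
  refine ⟨2 * C, by linarith, fun N T hT => ?_⟩
  obtain ⟨H', c1, d1, b1⟩ := H₁ N
  have hsub : Icc T (2 * T) ⊆ Ioi 0 := fun x hx => lt_of_lt_of_le (by linarith) hx.1
  have hT0 : 0 < T := by linarith
  refine ⟨H', ⟨(F.H_cont P 0 N).mono hsub, fun x hx => (d1 x (hT0.trans hx.1)).hasDerivWithinAt,
    Bm.of_cont (c1.mono hsub)⟩, fun x hx => ?_⟩
  obtain ⟨b2, b3⟩ := b1 x (by linarith [hx.1])
  have h0 : 0 < x := hsub hx
  have h1 : x ^ al F.deg ≤ 2 * T ^ al F.deg := by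
    refine (Real.rpow_le_rpow h0.le hx.2 (by linarith)).trans ?_
    rw [Real.mul_rpow (by norm_num) hT0.le]
    refine mul_le_mul_of_nonneg_right ?_ (by positivity)
    have := Real.rpow_le_rpow_of_exponent_le (x := 2) (y := al F.deg) (z := 1) (by norm_num)
      (by linarith)
    rwa [Real.rpow_one] at this
  have h2 : x ^ (al F.deg + 1 / F.deg - 1) ≤ T ^ al F.deg * T ^ (-1 / 2 : ℝ) := by
    rw [← Real.rpow_add hT0]
    exact (Real.rpow_le_rpow_of_nonpos hT0 hx.1 (by linarith)).trans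
      (Real.rpow_le_rpow_of_exponent_le hT (by linarith))
  have hC0 : 0 ≤ C := by linarith
  refine ⟨b2.trans ?_, b3.trans ?_⟩
  · calc _ ≤ C * (2 * T ^ al F.deg) * N := by gcongr
      _ = _ := by ring
  · calc _ ≤ 2 * C * (T ^ al F.deg * T ^ (-1 / 2 : ℝ)) * N := by gcongr; linarith
      _ = _ := by ring

end Sel

end Pool.Agent.Lib.MP_2a1a00_nt
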