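import Pool.Agent.Lib.MP_2a1a00_nt.V.Osc
import Pool.Agent.Lib.MP_2a1a00_nt.V.H1

/-! Trigonometric sums in two roots of the variable. -/

namespace Pool.Agent.Lib.MP_2a1a00_nt

open Complex MeasureTheory Set

variable {G G₁ G₂ : ℝ → ℂ} {β β₁ β₂ : ℂ} {K K₁ K₂ : ℝ} {ok ok₁ ok₂ : ℝ → ℝ → Prop}

theorem vtr_cont (A B : ℝ) :
    ContinuousOn (fun x : ℝ => exp (I * (A * √x + B * x ^ (1 / 3 : ℝ) : ℝ))) (Ioi 0) := by
  have h : ContinuousOn (fun y : ℝ => y ^ (1 / 3 : ℝ)) (Ioi 0) :=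
    continuousOn_id.rpow_const fun _ hx => Or.inl (ne_of_gt hx)
  exact (continuousOn_const.mul (continuous_ofReal.comp_continuousOn
    ((continuousOn_const.mul Real.continuous_sqrt.continuousOn).add (continuousOn_const.mul h)))).cexp

theorem Trig.nonneg (h : Trig G β K ok) : 0 ≤ K := by
  obtain ⟨ι, S, c, A, B, h1, -, -⟩ := h
  exact (Finset.sum_nonneg fun _ _ => norm_nonneg _).trans h1

theorem Trig.cont (h : Trig G β K ok) : ContinuousOn G (Ioi 0) := by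
  obtain ⟨ι, S, c, A, B, -, -, h3⟩ := h
  exact (continuousOn_finsetSum S fun k _ =>
    continuousOn_const.mul ((px_cont β).mul (vtr_cont (A k) (B k)))).congr fun x hx => h3 x hx

theorem Trig.mono (h : Trig G β K₁ ok₁) (hK : K₁ ≤ K₂) (hok : ∀ A B, ok₁ A B → ok₂ A B) :
    Trig G β K₂ ok₂ := by
  obtain ⟨ι, S, c, A, B, h1, h2, h3⟩ := h
  exact ⟨ι, S, c, A, B, h1.trans hK, fun k hk => hok _ _ (h2 k hk), h3⟩

/- Index set `S₁ ×ˢ S₂`, `Finset.sum_mul_sum`, `px_add`. -/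
theorem Trig.mul (h₁ : Trig G₁ β₁ K₁ ok₁) (h₂ : Trig G₂ β₂ K₂ ok₂)
    (hok : ∀ A B A' B', ok₁ A B → ok₂ A' B' → ok (A + A') (B + B')) :
    Trig (fun x => G₁ x * G₂ x) (β₁ + β₂) (K₁ * K₂) ok := by
  have hK := h₁.nonneg
  obtain ⟨ι, S, c, A, B, h1, h2, h3⟩ := h₁
  obtain ⟨ι', S', c', A', B', h1', h2', h3'⟩ := h₂
  refine ⟨ι × ι', S ×ˢ S', fun k => c k.1 * c' k.2, fun k => A k.1 + A' k.2, fun k => B k.1 + B' k.2,
    ?_, fun k hk => hok _ _ _ _ (h2 _ (Finset.mem_product.1 hk).1) (h2' _ (Finset.mem_product.1 hk).2),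
    fun x hx => ?_⟩
  · simp only [norm_mul]
    rw [Finset.sum_product' (f := fun i j => ‖c i‖ * ‖c' j‖), ← Finset.sum_mul_sum]
    exact mul_le_mul h1 h1' (Finset.sum_nonneg fun _ _ => norm_nonneg _) hK
  · show G₁ x * G₂ x = _
    rw [h3 x hx, h3' x hx, Finset.sum_mul_sum, Finset.sum_product]
    refine Finset.sum_congr rfl fun i _ => Finset.sum_congr rfl fun j _ => ?_
    have e : ((A i + A' j) * √x + (B i + B' j) * x ^ (1 / 3 : ℝ) : ℝ) =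
        (A i * √x + B i * x ^ (1 / 3 : ℝ)) + (A' j * √x + B' j * x ^ (1 / 3 : ℝ)) := by ring
    simp only
    rw [e, ofReal_add (A i * √x + _), mul_add I, exp_add, px_add]
    ring

theorem trig_px (D β : ℂ) : Trig (fun x => D * px β x) β ‖D‖ fun A B => A = 0 ∧ B = 0 := by
  refine ⟨Unit, {()}, fun _ => D, fun _ => 0, fun _ => 0, by simp, fun _ _ => ⟨rfl, rfl⟩,
    fun x _ => ?_⟩
  simp

theorem Trig.pow (h : Trig G β K ok) (h0 : ok 0 0)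
    (hok : ∀ A B A' B', ok A B → ok A' B' → ok (A + A') (B + B')) (a : ℕ) :
    Trig (fun x => G x ^ a) (a * β) (K ^ a) ok := by
  induction a with
  | zero =>
    have h1 := (trig_px 1 0).mono (K₂ := 1) (ok₂ := ok) (by simp) (by rintro _ _ ⟨rfl, rfl⟩; exact h0)
    simpa [px_zero] using h1
  | succ a ih =>
    have h1 := ih.mul h hok
    simpa only [pow_succ, Nat.cast_succ, add_mul, one_mul] using h1

/- Filter the index set by `A k = 0 ∧ B k = 0`. -/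
theorem Trig.split (h : Trig G β K fun A B => (A = 0 ∧ B = 0) ∨ ok A B) :
    ∃ (D : ℂ) (O : ℝ → ℂ), ‖D‖ ≤ K ∧ Trig O β K ok ∧ ∀ x : ℝ, 0 < x → G x = D * px β x + O x := by
  classical
  obtain ⟨ι, S, c, A, B, h1, h2, h3⟩ := h
  have h4 : ∀ S' ⊆ S, ∑ k ∈ S', ‖c k‖ ≤ K := fun S' hS =>
    (Finset.sum_le_sum_of_subset_of_nonneg hS fun _ _ _ => norm_nonneg _).trans h1
  refine ⟨∑ k ∈ S.filter fun k => A k = 0 ∧ B k = 0, c k,
    fun x => ∑ k ∈ S.filter fun k => ¬(A k = 0 ∧ B k = 0),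
      c k * (px β x * exp (I * (A k * √x + B k * x ^ (1 / 3 : ℝ) : ℝ))),
    (norm_sum_le _ _).trans (h4 _ (Finset.filter_subset _ _)),
    ⟨ι, _, c, A, B, h4 _ (Finset.filter_subset _ _), fun k hk => ?_, fun x _ => rfl⟩, fun x hx => ?_⟩
  · rw [Finset.mem_filter] at hk
    exact (h2 k hk.1).resolve_left hk.2
  · rw [h3 x hx, ← Finset.sum_filter_add_sum_filter_not S fun k => A k = 0 ∧ B k = 0, Finset.sum_mul]
    congr 1
    refine Finset.sum_congr rfl fun k hk => ?_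
    obtain ⟨-, e1, e2⟩ := Finset.mem_filter.1 hk
    simp [e1, e2]

theorem vtr_int {T y Z : ℝ} (h : Trig G β K ok) (hβ : 0 ≤ β.re) (hT : 0 < T) (hZ : 0 ≤ Z)
    (hok : ∀ A B, ok A B → ∀ z ∈ Icc T (2 * T),
      ‖∫ x in T..z, exp (I * (A * √x + B * x ^ (1 / 3 : ℝ) : ℝ))‖ ≤ Z) (hy : y ∈ Icc T (2 * T)) :
    ‖∫ x in T..y, G x‖ ≤ K * ((1 + ‖β‖) * (2 * T) ^ β.re * Z) := by
  obtain ⟨ι, S, c, A, B, h1, h2, h3⟩ := h
  have h4 : uIcc T y ⊆ Ioi 0 := fun x hx => by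
    rw [uIcc_of_le hy.1] at hx
    exact hT.trans_le hx.1
  have h5 : ∀ k ∈ S, IntervalIntegrable
      (fun x => c k * (px β x * exp (I * (A k * √x + B k * x ^ (1 / 3 : ℝ) : ℝ)))) volume T y :=
    fun k _ => ((continuousOn_const.mul ((px_cont β).mul (vtr_cont (A k) (B k)))).mono
      h4).intervalIntegrable
  rw [intervalIntegral.integral_congr fun x hx => h3 x (h4 hx), intervalIntegral.integral_finsetSum h5]
  refine (norm_sum_le _ _).trans (le_trans (Finset.sum_le_sum fun k hk => ?_)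
    ((Finset.sum_mul _ _ _).ge.trans (mul_le_mul_of_nonneg_right h1 (by positivity))))
  rw [intervalIntegral.integral_const_mul, norm_mul]
  exact mul_le_mul_of_nonneg_left (parts_px hT ((vtr_cont (A k) (B k)).mono
    fun x hx => hT.trans_le hx.1) hβ (hok _ _ (h2 k hk)) hy) (norm_nonneg _)

/- `parts_px`, `osc_B0`. -/
theorem Trig.int_B {b T y : ℝ} (h : Trig G β K fun _ B => b ≤ |B|) (hb : 0 < b) (hβ : 0 ≤ β.re)
    (hT : 1 ≤ T) (hy : y ∈ Icc T (2 * T)) : ‖∫ x in T..y, G x‖ ≤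
      K * ((1 + ‖β‖) * (2 * T) ^ β.re * (200 * T ^ (5 / 6 : ℝ) / √b)) := by
  have hT0 : 0 < T := by linarith
  refine vtr_int h hβ hT0 (by positivity) (fun A B hB z hz => ?_) hy
  refine (osc_B0 hT hz (abs_pos.1 (hb.trans_le hB))).trans ?_
  exact div_le_div_of_nonneg_left (by positivity) (Real.sqrt_pos.2 hb) (Real.sqrt_le_sqrt hB)

theorem Trig.int_A {b T y : ℝ} (h : Trig G β K fun A _ => b ≤ |A|) (hb : 0 < b) (hβ : 0 ≤ β.re)
    (hT : 1 ≤ T) (hy : y ∈ Icc T (2 * T)) : ‖∫ x in T..y, G x‖ ≤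
      K * ((1 + ‖β‖) * (2 * T) ^ β.re * (200 * T ^ (3 / 4 : ℝ) / √b)) := by
  have hT0 : 0 < T := by linarith
  refine vtr_int h hβ hT0 (by positivity) (fun A B hA z hz => ?_) hy
  refine (osc_A0 hT hz (abs_pos.1 (hb.trans_le hA))).trans ?_
  exact div_le_div_of_nonneg_left (by positivity) (Real.sqrt_pos.2 hb) (Real.sqrt_le_sqrt hA)

namespace Sel

variable (F : Sel) {P : Vo}

theorem vtr_H (hd : 2 ≤ F.deg) (P : Vo) (A B : ℝ → ℕ → ℝ) (hAB : ∀ (κ : ℝ) (n : ℕ) (x : ℝ), 0 < x →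
    κ * (n * x) ^ (1 / F.deg) = A κ n * √x + B κ n * x ^ (1 / 3 : ℝ)) : ∃ C : ℝ, 1 ≤ C ∧ ∀ N : ℕ,
    Trig (F.H P 0 N) (P.ex F.deg) (C * N) fun a b => ∃ n ∈ Finset.Ioc 0 N, ∃ κ : ℝ,
      (κ = P.ka ∨ κ = -P.ka) ∧ a = A κ n ∧ b = B κ n := by
  obtain ⟨C, hC, h1⟩ := F.cf_le P (ε := 1 / 2) (by norm_num)
  have h2 : ∀ n ∈ Finset.Ioc 0 (n : ℕ), ‖F.cf P n‖ ≤ C := fun n hn => by
    have h3 : 1 ≤ n := (Finset.mem_Ioc.1 hn).1
    refine (h1 n h3).trans (mul_le_of_le_one_right hC.le ?_)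
    exact Real.rpow_le_one_of_one_le_of_nonpos (by exact_mod_cast h3) (by linarith [(al_mem hd).2.1])
  refine ⟨1 + (‖P.ap‖ + ‖P.am‖) * C, le_add_of_nonneg_right (by positivity), fun N =>
    ⟨ℕ × Bool, Finset.Ioc 0 N ×ˢ Finset.univ, fun k => (if k.2 then P.ap else P.am) * F.cf P k.1,
      fun k => A (if k.2 then P.ka else -P.ka) k.1, fun k => B (if k.2 then P.ka else -P.ka) k.1,
      ?_, fun k hk => ⟨k.1, (Finset.mem_product.1 hk).1, _, ?_, rfl, rfl⟩, fun x hx => ?_⟩⟩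
  · rw [Finset.sum_product]
    refine (Finset.sum_le_card_nsmul _ _ (1 + (‖P.ap‖ + ‖P.am‖) * C) fun n hn => ?_).trans
      (le_of_eq (by rw [Nat.card_Ioc, Nat.sub_zero, nsmul_eq_mul, mul_comm]))
    have h3 := h2 n (Finset.mem_Ioc.2 ⟨(Finset.mem_Ioc.1 hn).1, le_rfl⟩)
    have h4 := mul_le_mul_of_nonneg_left h3 (norm_nonneg P.ap)
    have h5 := mul_le_mul_of_nonneg_left h3 (norm_nonneg P.am)
    simp only [Fintype.sum_bool, if_true, Bool.false_eq_true, if_false, norm_mul]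
    linarith
  · split_ifs
    · exact Or.inl rfl
    · exact Or.inr rfl
  · rw [F.H_eq P 0 N hx, ts, ts, Finset.mul_sum, Finset.mul_sum, ← Finset.sum_add_distrib,
      Finset.mul_sum, Finset.sum_product]
    refine Finset.sum_congr rfl fun n _ => ?_
    simp only [Fintype.sum_bool, if_true, Bool.false_eq_true, if_false]
    rw [hAB _ n x hx, hAB _ n x hx]
    ring

/- Index set `Ioc 0 N ×ˢ univ` in `ℕ × Bool`; `H_eq`, `cf_le` with `ε = 1 / 2`, every `‖cf n‖` is at most `C`. -/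
theorem H_trig2 (h : F.deg = 2) (P : Vo) : ∃ C : ℝ, 1 ≤ C ∧ ∀ N : ℕ,
    Trig (F.H P 0 N) (P.ex 2) (C * N) fun A B => B = 0 ∧
      ∃ n ∈ Finset.Ioc 0 N, A = P.ka * √(n : ℝ) ∨ A = -P.ka * √(n : ℝ) := by
  obtain ⟨C, hC, h1⟩ := vtr_H F h.ge P (fun κ n => κ * √(n : ℝ)) (fun _ _ => 0) fun κ n x hx => by
    rw [h, ← Real.sqrt_eq_rpow, Real.sqrt_mul (Nat.cast_nonneg n)]
    ring
  refine ⟨C, hC, fun N => ?_⟩
  have h2 := h1 N
  rw [h] at h2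
  refine h2.mono le_rfl ?_
  rintro _ _ ⟨n, hn, κ, hκ, rfl, rfl⟩
  exact ⟨rfl, n, hn, hκ.imp (fun e => by rw [e]) fun e => by rw [e]⟩

theorem H_trig3 (h : F.deg = 3) (P : Vo) : ∃ C : ℝ, 1 ≤ C ∧ ∀ N : ℕ,
    Trig (F.H P 0 N) (P.ex 3) (C * N) fun A B => A = 0 ∧ ∃ n ∈ Finset.Ioc 0 N,
      B = P.ka * (n : ℝ) ^ (1 / 3 : ℝ) ∨ B = -P.ka * (n : ℝ) ^ (1 / 3 : ℝ) := by
  obtain ⟨C, hC, h1⟩ := vtr_H F (by rw [h]; norm_num) P (fun _ _ => 0)
    (fun κ n => κ * (n : ℝ) ^ (1 / 3 : ℝ)) fun κ n x hx => by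
    rw [h, Real.mul_rpow (Nat.cast_nonneg n) hx.le]
    ring
  refine ⟨C, hC, fun N => ?_⟩
  have h2 := h1 N
  rw [h] at h2
  refine h2.mono le_rfl ?_
  rintro _ _ ⟨n, hn, κ, hκ, rfl, rfl⟩
  exact ⟨rfl, n, hn, hκ.imp (fun e => by rw [e]) fun e => by rw [e]⟩

theorem vtr_sep {κ N u v t a a' : ℝ} {m n : ℕ} (hκ : 0 < κ) (hN : 1 ≤ N) (hu : 1 ≤ u) (hv : 1 ≤ v)
    (ht0 : 0 ≤ t) (ht : t ≤ 3 * N) (h : (u - v) * t = m - n) (huv : m = n → u = v)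
    (ha : a = κ * u ∨ a = -κ * u) (ha' : a' = κ * v ∨ a' = -κ * v) :
    a + a' = 0 ∨ κ / (3 * N) ≤ |a + a'| := by
  have h1 : κ / (3 * N) ≤ κ * |u + v| := by
    rw [abs_of_pos (by linarith)]
    exact (div_le_self hκ.le (by linarith)).trans (le_mul_of_one_le_right hκ.le (by linarith))
  have h2 : u - v = 0 ∨ κ / (3 * N) ≤ κ * |u - v| := by
    by_cases e : m = n
    · exact Or.inl (sub_eq_zero.2 (huv e))
    · have h3 : (1 : ℤ) ≤ |(m : ℤ) - n| := Int.one_le_abs (sub_ne_zero.2 (by exact_mod_cast e))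
      have h4 : (1 : ℝ) ≤ |(m : ℝ) - n| := by exact_mod_cast h3
      rw [← h, abs_mul, abs_of_nonneg ht0] at h4
      have h5 := h4.trans (mul_le_mul_of_nonneg_left ht (abs_nonneg _))
      right
      rw [div_le_iff₀ (by linarith), mul_assoc]
      exact le_mul_of_one_le_right hκ.le h5
  rcases ha with rfl | rfl <;> rcases ha' with rfl | rfl
  · right
    rwa [← mul_add, abs_mul, abs_of_pos hκ]
  · rw [show κ * u + -κ * v = κ * (u - v) by ring, abs_mul, abs_of_pos hκ]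
    exact h2.imp_left fun e => by rw [e, mul_zero]
  · rw [show -κ * u + κ * v = -(κ * (u - v)) by ring, abs_neg, abs_mul, abs_of_pos hκ]
    exact h2.imp_left fun e => by rw [e, mul_zero, neg_zero]
  · right
    rwa [← mul_add, abs_mul, abs_neg, abs_of_pos hκ]

/- `Trig.mul`, `Trig.split`; `|√m - √n| = |m - n| / (√m + √n) ≥ 1 / (2 √N)` for `m ≠ n`. -/
theorem H_sq2 (h : F.deg = 2) (hP : 0 < P.ka) : ∃ C : ℝ, 1 ≤ C ∧ ∀ N : ℕ, ∃ (D : ℂ) (O : ℝ → ℂ),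
    ‖D‖ ≤ C * N ^ 2 ∧ Trig O (2 * P.ex 2) (C * N ^ 2) (fun A B => B = 0 ∧ P.ka / (3 * N) ≤ |A|) ∧
      ∀ x : ℝ, 0 < x → F.H P 0 N x ^ 2 = D * px (2 * P.ex 2) x + O x := by
  obtain ⟨C, hC, h1⟩ := F.H_trig2 h P
  refine ⟨C ^ 2, one_le_pow₀ hC, fun N => ?_⟩
  have h2 := (h1 N).mul (h1 N) (ok := fun A B => (A = 0 ∧ B = 0) ∨ (B = 0 ∧ P.ka / (3 * N) ≤ |A|)) (by
    rintro A _ A' _ ⟨rfl, m, hm, hA⟩ ⟨rfl, n, hn, hA'⟩
    rw [Finset.mem_Ioc] at hm hn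
    have hm1 : (1 : ℝ) ≤ m := by exact_mod_cast hm.1
    have hn1 : (1 : ℝ) ≤ n := by exact_mod_cast hn.1
    have hmN : (m : ℝ) ≤ N := by exact_mod_cast hm.2
    have hnN : (n : ℝ) ≤ N := by exact_mod_cast hn.2
    have hu := Real.one_le_sqrt.2 hm1
    have hv := Real.one_le_sqrt.2 hn1
    have eu := Real.mul_self_sqrt (zero_le_one.trans hm1)
    have ev := Real.mul_self_sqrt (zero_le_one.trans hn1)
    refine (vtr_sep (t := √m + √n) (m := m) (n := n) hP (hm1.trans hmN) hu hv (by positivity)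
      (by nlinarith) (by linear_combination eu - ev) (fun e => by rw [e]) hA hA').imp
      (fun e => ⟨e, add_zero _⟩) fun e => ⟨add_zero _, e⟩)
  obtain ⟨D, O, h3, h4, h5⟩ := h2.split
  rw [← two_mul, ← sq, mul_pow] at h4
  rw [← sq, mul_pow] at h3
  exact ⟨D, O, h3, h4, fun x hx => by rw [sq, h5 x hx, two_mul]⟩

/- `u ^ 3 - v ^ 3 = (u - v) (u ^ 2 + u v + v ^ 2)`, the last factor is at most `3 N ^ (2 / 3) ≤ 3 N`. -/
theorem H_sq3 (h : F.deg = 3) (hP : 0 < P.ka) : ∃ C : ℝ, 1 ≤ C ∧ ∀ N : ℕ, ∃ (D : ℂ) (O : ℝ → ℂ),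
    ‖D‖ ≤ C * N ^ 2 ∧ Trig O (2 * P.ex 3) (C * N ^ 2) (fun A B => A = 0 ∧ P.ka / (3 * N) ≤ |B|) ∧
      ∀ x : ℝ, 0 < x → F.H P 0 N x ^ 2 = D * px (2 * P.ex 3) x + O x := by
  obtain ⟨C, hC, h1⟩ := F.H_trig3 h P
  refine ⟨C ^ 2, one_le_pow₀ hC, fun N => ?_⟩
  have h2 := (h1 N).mul (h1 N) (ok := fun A B => (A = 0 ∧ B = 0) ∨ (A = 0 ∧ P.ka / (3 * N) ≤ |B|)) (by
    rintro _ B _ B' ⟨rfl, m, hm, hB⟩ ⟨rfl, n, hn, hB'⟩
    rw [Finset.mem_Ioc] at hm hn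
    have hm1 : (1 : ℝ) ≤ m := by exact_mod_cast hm.1
    have hn1 : (1 : ℝ) ≤ n := by exact_mod_cast hn.1
    have hmN : (m : ℝ) ≤ N := by exact_mod_cast hm.2
    have hnN : (n : ℝ) ≤ N := by exact_mod_cast hn.2
    have hc : ∀ x : ℝ, 1 ≤ x → 1 ≤ x ^ (1 / 3 : ℝ) ∧ (x ^ (1 / 3 : ℝ)) ^ 3 = x := fun x hx =>
      ⟨Real.one_le_rpow hx (by norm_num), by
        rw [← Real.rpow_natCast, ← Real.rpow_mul (zero_le_one.trans hx)]
        norm_num⟩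
    obtain ⟨hu, eu⟩ := hc m hm1
    obtain ⟨hv, ev⟩ := hc n hn1
    have huv : m = n → (m : ℝ) ^ (1 / 3 : ℝ) = (n : ℝ) ^ (1 / 3 : ℝ) := fun e => by rw [e]
    generalize (m : ℝ) ^ (1 / 3 : ℝ) = u at hu eu huv hB
    generalize (n : ℝ) ^ (1 / 3 : ℝ) = v at hv ev huv hB'
    have hu2 : u ^ 2 ≤ u ^ 3 := pow_le_pow_right₀ hu (by norm_num)
    have hv2 : v ^ 2 ≤ v ^ 3 := pow_le_pow_right₀ hv (by norm_num)
    refine (vtr_sep (t := u ^ 2 + u * v + v ^ 2) (m := m) (n := n) hP (hm1.trans hmN) hu hv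
      (by positivity) (by nlinarith [sq_nonneg (u - v)]) (by linear_combination eu - ev) huv hB hB').imp
      (fun e => ⟨add_zero _, e⟩) fun e => ⟨add_zero _, e⟩)
  obtain ⟨D, O, h3, h4, h5⟩ := h2.split
  rw [← two_mul, ← sq, mul_pow] at h4
  rw [← sq, mul_pow] at h3
  exact ⟨D, O, h3, h4, fun x hx => by rw [sq, h5 x hx, two_mul]⟩

end Sel

end Pool.Agent.Lib.MP_2a1a00_nt
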