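import Pool.Agent.Lib.MP_2a1a00_nt.Stmt

/-! The definitions used in the statements on higher hybrid moments. -/

namespace Pool.Agent.Lib.MP_2a1a00_nt

open Complex

/-- For some real `θ` the sequence `f n * n ^ (i θ)` is periodic from some point on. -/
def Sel.QP (F : Sel) : Prop :=
  ∃ (q n₀ : ℕ) (θ : ℝ), 0 < q ∧ ∀ n : ℕ, 1 ≤ n → n₀ ≤ n →
    F.f (n + q) * ((n + q : ℕ) : ℂ) ^ (θ * I) = F.f n * (n : ℂ) ^ (θ * I)

/-- The series is the product of a series of degree at most one with the property `QP` and a series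
of degree at most two. -/
def Sel.Split (F : Sel) : Prop :=
  ∃ G H : Sel, G.QP ∧ G.deg ≤ 1 ∧ H.deg ≤ 2 ∧ ∀ s : ℂ, 1 < s.re → F.L s = G.L s * H.L s

/-- The integrand `E₁ x ^ a * E₂ x ^ b * |L (1 / 2 + i x)| ^ 2`. -/
noncomputable def hy (F₁ F₂ L : Sel) (a b : ℕ) (x : ℝ) : ℂ :=
  F₁.E x ^ a * F₂.E x ^ b * ((‖L.L (1 / 2 + x * I)‖ ^ 2 : ℝ) : ℂ)

end Pool.Agent.Lib.MP_2a1a00_nt
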