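import Pool.Agent.Lib.MP_2a1a00_nt.Defs
import Pool.Agent.Lib.MP_2a1a00_nt.V.Stmt2

/-! Internal vocabulary for the Voronoi expansion. -/

namespace Pool.Agent.Lib.MP_2a1a00_nt

open Complex MeasureTheory Set

/-- The power `x ^ β` for positive `x`. -/
noncomputable def px (β : ℂ) (x : ℝ) : ℂ := exp (β * (Real.log x : ℝ))

/-- The Gaussian multiplier. -/
noncomputable def gW (W : ℝ) (s : ℂ) : ℂ := exp ((s / W) ^ 2)

/-- The Gaussian density with Laplace transform `gW W`. -/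
noncomputable def ph (W v : ℝ) : ℝ := W / (2 * √Real.pi) * Real.exp (-(W * v) ^ 2 / 4)

/-- Its distribution function. -/
noncomputable def cdf (W u : ℝ) : ℝ := ∫ v in Iic u, ph W v

/-- The number `log √(2 π)`. -/
noncomputable def c0 : ℝ := Real.log √(2 * Real.pi)

/-- The exponent `(d - 1) / (2 d)`. -/
noncomputable def al (d : ℝ) : ℝ := 1 / 2 - 1 / (2 * d)

/-- The data of a Voronoi kernel. -/
structure Vo where
  /-- first amplitude -/
  ap : ℂ
  /-- second amplitude -/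
  am : ℂ
  /-- the imaginary part of the exponent -/
  th : ℝ
  /-- the frequency -/
  ka : ℝ

/-- The complex exponent of the kernel. -/
noncomputable def Vo.ex (P : Vo) (d : ℝ) : ℂ := al d + P.th * I

/-- The Voronoi kernel. -/
noncomputable def J0 (P : Vo) (d y : ℝ) : ℂ :=
  px (P.ex d) y * (P.ap * exp (I * (P.ka * y ^ (1 / d) : ℝ)) +
    P.am * exp (I * (-P.ka * y ^ (1 / d) : ℝ)))

/-- A trigonometric sum with the frequencies `n ^ (1 / d)`. -/
noncomputable def ts (d κ : ℝ) (c : ℕ → ℂ) (M N : ℕ) (x : ℝ) : ℂ :=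
  ∑ n ∈ Finset.Ioc M N, c n * exp (I * (κ * (n * x) ^ (1 / d) : ℝ))

/-- A multiplicative average. -/
noncomputable def av (W : ℝ) (h : ℝ → ℂ) (x : ℝ) : ℂ :=
  ∫ v in (-1 / 5 : ℝ)..(1 / 5), (ph W v : ℂ) * h (x * Real.exp v)

/-- The average with a triangular weight. -/
noncomputable def tri (s : ℝ) (D : ℝ → ℂ) (x : ℝ) : ℂ :=
  ∫ v in -s..s, ((1 - |v| / s : ℝ) : ℂ) * D (x + v)

/-- A weighted moment on `[T, 2 T]`. -/
noncomputable def mo (p : ℕ) (f : ℝ → ℂ) (w : ℝ → ℝ) (T : ℝ) : ℝ :=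
  ∫ x in T..2 * T, ‖f x‖ ^ p * w x

/-- A moment on `[T, 2 T]`. -/
noncomputable def mu0 (p : ℕ) (f : ℝ → ℂ) (T : ℝ) : ℝ := ∫ x in T..2 * T, ‖f x‖ ^ p

/-- The points of `X` have mutual distances between `y` and `z`. -/
def Sep (X : Finset ℝ) (y z : ℝ) : Prop :=
  ∀ x ∈ X, ∀ x' ∈ X, x ≠ x' → y ≤ |x - x'| ∧ |x - x'| ≤ z

/-- The function `G` is `x ^ β` times a trigonometric sum in `x ^ (1 / 2)` and `x ^ (1 / 3)` of total
mass at most `K`, and all its frequencies have the property `ok`. -/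
def Trig (G : ℝ → ℂ) (β : ℂ) (K : ℝ) (ok : ℝ → ℝ → Prop) : Prop :=
  ∃ (ι : Type) (S : Finset ι) (c : ι → ℂ) (A B : ι → ℝ), ∑ k ∈ S, ‖c k‖ ≤ K ∧
    (∀ k ∈ S, ok (A k) (B k)) ∧ ∀ x : ℝ, 0 < x →
      G x = ∑ k ∈ S, c k * (px β x * exp (I * (A k * √x + B k * x ^ (1 / 3 : ℝ) : ℝ)))

/-- The function `G` is smooth on `[T, 2 T]`, of size `P`, with a derivative of size `P * μ`. -/
def Sm (G : ℝ → ℂ) (T P μ : ℝ) : Prop :=
  ∃ G' : ℝ → ℂ, Nice G G' T ∧ ∀ x ∈ Icc T (2 * T), ‖G x‖ ≤ P ∧ ‖G' x‖ ≤ P * μ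

namespace Sel

variable (F : Sel)

/-- The coefficients with the value zero at zero. -/
noncomputable def f0 (n : ℕ) : ℂ := if n = 0 then 0 else F.f n

/-- The square of the modulus on the critical line, as a real number. -/
noncomputable def w (x : ℝ) : ℝ := ‖F.L (1 / 2 + x * I)‖ ^ 2

/-- The error term smoothed with the Gaussian multiplier. -/
noncomputable def B (W x : ℝ) : ℂ :=
  Ln (fun s => F.L s * ((x : ℂ) ^ s * (gW W s / s))) (1 / 2)

/-- Its derivative. -/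
noncomputable def B1 (W x : ℝ) : ℂ := Ln (fun s => F.L s * ((x : ℂ) ^ s * gW W s)) (1 / 2) / x

/-- The smoothed Voronoi kernel. -/
noncomputable def kr (W y : ℝ) : ℂ :=
  Ln (fun s => F.chi s * ((y : ℂ) ^ s * (gW W s / s))) (1 / 2)

/-- The shift `2 ∑ im (mu i)`. -/
noncomputable def th : ℝ := 2 * ∑ i, (F.mu i).im

/-- The argument of the model gamma factor. -/
noncomputable def zz (s : ℂ) : ℂ := F.deg * (1 / 2 - s) - 1 / 2 - F.th * I

/-- The model for `chi s / s`. -/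
noncomputable def mdl (c₁ c₂ s : ℂ) : ℂ :=
  exp ((1 / 2 - s) * (Real.log (F.q / F.deg ^ F.deg) : ℝ)) * Gamma (F.zz s) *
    (c₁ * exp (Real.pi / 2 * I * F.zz s) + c₂ * exp (-(Real.pi / 2 * I * F.zz s)))

/-- A piece of the Voronoi series. -/
noncomputable def H (P : Vo) (M N : ℕ) (x : ℝ) : ℂ :=
  ∑ n ∈ Finset.Ioc M N, (starRingEnd ℂ) (F.f n) / n * J0 P F.deg (n * x)

/-- The coefficients of the Voronoi series. -/
noncomputable def cf (P : Vo) (n : ℕ) : ℂ := (starRingEnd ℂ) (F.f n) / n * px (P.ex F.deg) n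

/-- The truncated Voronoi formula. -/
def Vor (P : Vo) : Prop :=
  0 < P.ka ∧ ∀ ε : ℝ, 0 < ε → ∃ C : ℝ, 0 < C ∧ ∀ T W : ℝ, 1 ≤ T → √T ≤ W → W ≤ T →
    ∀ x ∈ Icc T (2 * T), ‖F.B W x - av W (F.H P 0 ⌊W ^ F.deg * T ^ (ε - 1)⌋₊) x‖ ≤
      C * T ^ ε * W ^ (F.deg / 2 - 1)

theorem w_nonneg (x : ℝ) : 0 ≤ F.w x := sq_nonneg _

theorem continuous_w : Continuous F.w := F.continuous_L_half.norm.pow 2

theorem L2_eq (x : ℝ) : F.L2 x = (F.w x : ℂ) := rfl

theorem f0_le {ε : ℝ} (hε : 0 < ε) :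
    ∃ C : ℝ, 1 ≤ C ∧ ∀ n : ℕ, ‖F.f0 n‖ ≤ C * (n : ℝ) ^ ε := by
  obtain ⟨C, h1, hC⟩ := F.ram' hε
  refine ⟨C, h1, fun n => ?_⟩
  unfold f0
  split_ifs with h
  · rw [norm_zero]
    positivity
  · exact hC n (Nat.one_le_iff_ne_zero.2 h)

end Sel

theorem px_add (β γ : ℂ) (x : ℝ) : px (β + γ) x = px β x * px γ x := by
  rw [px, px, px, add_mul, exp_add]

theorem px_zero (x : ℝ) : px 0 x = 1 := by rw [px, zero_mul, exp_zero]

theorem px_mul (β : ℂ) {x y : ℝ} (hx : 0 < x) (hy : 0 < y) : px β (x * y) = px β x * px β y := by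
  rw [px, px, px, Real.log_mul hx.ne' hy.ne', ofReal_add, mul_add, exp_add]

theorem norm_px (β : ℂ) {x : ℝ} (hx : 0 < x) : ‖px β x‖ = x ^ β.re := by
  rw [px, Complex.norm_exp, Complex.re_mul_ofReal, mul_comm, ← Real.rpow_def_of_pos hx]

theorem px_cpow (β : ℂ) {x : ℝ} (hx : 0 < x) : (x : ℂ) ^ β = px β x := by
  rw [px, cpow_def_of_ne_zero (ofReal_ne_zero.2 hx.ne'), ← ofReal_log hx.le, mul_comm]

theorem px_real (β : ℝ) {x : ℝ} (hx : 0 < x) : px β x = ((x ^ β : ℝ) : ℂ) := by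
  rw [← px_cpow _ hx, ofReal_cpow hx.le]

theorem px_exp (β : ℂ) (v : ℝ) : px β (Real.exp v) = exp (β * v) := by rw [px, Real.log_exp]

theorem px_cont (β : ℂ) : ContinuousOn (px β) (Ioi 0) :=
  (continuousOn_const.mul (continuous_ofReal.comp_continuousOn
    (Real.continuousOn_log.mono fun _ hx => ne_of_gt hx))).cexp

theorem norm_ei (x : ℝ) : ‖exp (I * x)‖ = 1 := by
  rw [mul_comm]
  exact norm_exp_ofReal_mul_I x

theorem Vo.ex_re (P : Vo) (d : ℝ) : (P.ex d).re = al d := by simp [Vo.ex]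

theorem al_two : al 2 = 1 / 4 := by norm_num [al]

theorem al_three : al 3 = 1 / 3 := by norm_num [al]

theorem al_mem {d : ℝ} (hd : 2 ≤ d) : 1 / 4 ≤ al d ∧ al d < 1 / 2 ∧ al d + 1 / d ≤ 3 / 4 := by
  have h0 : 0 < d := by linarith
  have h1 : 1 / (2 * d) ≤ 1 / 4 := one_div_le_one_div_of_le (by norm_num) (by linarith)
  have h2 : 0 < 1 / (2 * d) := by positivity
  have h3 : 1 / d = 2 * (1 / (2 * d)) := by field_simp
  unfold al
  refine ⟨by linarith, by linarith, by linarith⟩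

theorem norm_J0_le (P : Vo) (d : ℝ) {y : ℝ} (hy : 0 < y) :
    ‖J0 P d y‖ ≤ (‖P.ap‖ + ‖P.am‖) * y ^ al d := by
  rw [J0, norm_mul, norm_px _ hy, Vo.ex_re, mul_comm]
  refine mul_le_mul_of_nonneg_right ((norm_add_le _ _).trans (le_of_eq ?_)) (by positivity)
  rw [norm_mul, norm_mul, norm_ei, norm_ei, mul_one, mul_one]

theorem J0_cont (P : Vo) (d : ℝ) : ContinuousOn (J0 P d) (Ioi 0) := by
  have h : ContinuousOn (fun y : ℝ => y ^ (1 / d)) (Ioi 0) :=
    continuousOn_id.rpow_const fun _ hx => Or.inl (ne_of_gt hx)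
  exact (px_cont _).mul ((continuousOn_const.mul (continuousOn_const.mul
    (continuous_ofReal.comp_continuousOn (continuousOn_const.mul h))).cexp).add
    (continuousOn_const.mul (continuousOn_const.mul
    (continuous_ofReal.comp_continuousOn (continuousOn_const.mul h))).cexp))

theorem Sq_eq (f : ℝ → ℂ) (T : ℝ) : Sq f T = mu0 2 f T := rfl

end Pool.Agent.Lib.MP_2a1a00_nt
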