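import Pool.Agent.Lib.MP_2a1a00_nt.V.Defs
import Pool.Agent.Lib.MP_2a1a00_nt.Nm

/-! Level sets. -/

namespace Pool.Agent.Lib.MP_2a1a00_nt

open Complex MeasureTheory Set

theorem vcnt_one {S : Set ℝ} {y R : ℝ} (hy : 0 < y)
    (h : ∀ X : Finset ℝ, (X : Set ℝ) ⊆ S → (∀ x ∈ X, ∀ x' ∈ X, x ≠ x' → y ≤ |x - x'|) →
      (X.card : ℝ) ≤ R) : volume S ≤ ENNReal.ofReal (2 * y * R) := by
  classical
  by_contra hc
  have key : ∀ n : ℕ, ∃ X : Finset ℝ, (X : Set ℝ) ⊆ S ∧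
      (∀ x ∈ X, ∀ x' ∈ X, x ≠ x' → y ≤ |x - x'|) ∧ X.card = n := fun n => by
    induction n with
    | zero => exact ⟨∅, by simp, by simp, rfl⟩
    | succ n ih =>
      obtain ⟨X, h1, h2, h3⟩ := ih
      have h4 : ¬ S ⊆ ⋃ x ∈ X, Metric.ball x y := fun h4 => hc <| by
        refine (measure_mono h4).trans ((measure_biUnion_finset_le _ _).trans ?_)
        simp only [Real.volume_ball, Finset.sum_const, nsmul_eq_mul]
        rw [← ENNReal.ofReal_natCast, ← ENNReal.ofReal_mul (Nat.cast_nonneg _), mul_comm]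
        exact ENNReal.ofReal_le_ofReal (mul_le_mul_of_nonneg_left (h X h1 h2) (by positivity))
      obtain ⟨s, hs, h5⟩ := not_subset.1 h4
      simp only [mem_iUnion, Metric.mem_ball, Real.dist_eq, not_exists, not_lt] at h5
      have h6 : s ∉ X := fun h6 => by
        have := h5 s h6
        rw [sub_self, abs_zero] at this
        exact absurd hy this.not_gt
      refine ⟨insert s X, ?_, fun a ha b hb hab => ?_, by rw [Finset.card_insert_of_notMem h6, h3]⟩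
      · rw [Finset.coe_insert]
        exact insert_subset hs h1
      · rcases Finset.mem_insert.1 ha with rfl | ha' <;>
          rcases Finset.mem_insert.1 hb with rfl | hb'
        · exact absurd rfl hab
        · exact h5 b hb'
        · rw [abs_sub_comm]
          exact h5 a ha'
        · exact h2 a ha' b hb' hab
  obtain ⟨n, hn⟩ := exists_nat_gt R
  obtain ⟨X, h1, h2, h3⟩ := key n
  exact absurd (h X h1 h2) (h3 ▸ hn).not_ge

theorem vcnt_res (T : ℝ) (p : ℝ → Prop) :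
    volume {x ∈ Icc T (2 * T) | p x} = volume.restrict (Ioc T (2 * T)) {x | p x} := by
  rw [Measure.restrict_congr_set Ioc_ae_eq_Icc, Measure.restrict_apply' measurableSet_Icc,
    inter_comm]
  rfl

/- Cover `[T, 2 T]` by the `⌊T / z⌋₊ + 1` intervals `J k = [T + k z, T + (k + 1) z)`.  In `S ∩ J k` take a finite set `X`
with mutual distances at least `y` of the largest possible cardinality (`Nat.findGreatest`, or
`Set.Finite.exists_maximal`-type argument, the cardinality is bounded by `R`); then `S ∩ J k` is covered by the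
balls of radius `y` around the points of `X`. -/
theorem cnt {S : Set ℝ} {T y z R : ℝ} (hT : 0 ≤ T) (hS : S ⊆ Icc T (2 * T)) (hy : 0 < y) (hz : 0 < z)
    (h : ∀ X : Finset ℝ, (X : Set ℝ) ⊆ S → Sep X y z → (X.card : ℝ) ≤ R) :
    volume S ≤ ENNReal.ofReal (2 * y * R * (T / z + 1)) := by
  have hR : 0 ≤ R := by simpa using h ∅ (by simp) (by simp [Sep])
  have h1 : S ⊆ ⋃ k ∈ Finset.range (⌊T / z⌋₊ + 1), {x ∈ S | ⌊(x - T) / z⌋₊ = k} := fun x hx => by
    simp only [mem_iUnion, Finset.mem_range, mem_ofPred_eq]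
    refine ⟨_, Nat.lt_succ_of_le (Nat.floor_le_floor ?_), hx, rfl⟩
    exact div_le_div_of_nonneg_right (by linarith [(hS hx).2]) hz.le
  have h2 : ∀ k, volume {x ∈ S | ⌊(x - T) / z⌋₊ = k} ≤ ENNReal.ofReal (2 * y * R) := fun k => by
    refine vcnt_one hy fun X hX hs => h X (fun x hx => (hX hx).1) fun a ha b hb hab =>
      ⟨hs a ha b hb hab, ?_⟩
    obtain ⟨a1, a2⟩ := hX ha
    obtain ⟨b1, b2⟩ := hX hb
    rw [Nat.floor_eq_iff (div_nonneg (sub_nonneg.2 (hS a1).1) hz.le), le_div_iff₀ hz,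
      div_lt_iff₀ hz] at a2
    rw [Nat.floor_eq_iff (div_nonneg (sub_nonneg.2 (hS b1).1) hz.le), le_div_iff₀ hz,
      div_lt_iff₀ hz] at b2
    rw [abs_le]
    constructor <;> linarith [a2.1, a2.2, b2.1, b2.2]
  refine (measure_mono h1).trans ((measure_biUnion_finset_le _ _).trans
    ((Finset.sum_le_sum fun k _ => h2 k).trans ?_))
  rw [Finset.sum_const, Finset.card_range, nsmul_eq_mul, ← ENNReal.ofReal_natCast,
    ← ENNReal.ofReal_mul (Nat.cast_nonneg _), mul_comm]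
  refine ENNReal.ofReal_le_ofReal (mul_le_mul_of_nonneg_left ?_ (by positivity))
  push_cast
  linarith [Nat.floor_le (div_nonneg hT hz.le)]

/- `meas_ge_le_lintegral_div` or `mul_meas_ge_le_lintegral₀` for the restricted measure. -/
theorem cheb {g : ℝ → ℂ} {T y : ℝ} (hT : 0 ≤ T) (hg : Bm g T) (hy : 0 < y) :
    volume {x ∈ Icc T (2 * T) | y < ‖g x‖} ≤ ENNReal.ofReal (Sq g T / y ^ 2) := by
  have hT2 : T ≤ 2 * T := by linarith
  have h1 := mul_meas_ge_le_integral_of_nonneg (μ := volume.restrict (Ioc T (2 * T)))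
    (f := fun x => ‖g x‖ ^ 2) (Filter.Eventually.of_forall fun x => sq_nonneg _)
    ((intervalIntegrable_iff_integrableOn_Ioc_of_le hT2).1 (hg.int_sq hT)) (y ^ 2)
  rw [← intervalIntegral.integral_of_le hT2] at h1
  rw [vcnt_res]
  refine (measure_mono (t := {x | y ^ 2 ≤ ‖g x‖ ^ 2}) fun x hx =>
    pow_le_pow_left₀ hy.le (le_of_lt hx) 2).trans ?_
  rw [← ofReal_measureReal]
  refine ENNReal.ofReal_le_ofReal ?_
  rw [le_div_iff₀ (by positivity), mul_comm]
  exact h1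

theorem vcnt_pow {g : ℝ → ℂ} {T : ℝ} (hg : Bm g T) (p : ℕ) : Bm (fun x => g x ^ p) T := by
  obtain ⟨K, hK⟩ := hg.bdd
  refine ⟨hg.meas.pow p, K ^ p, fun x hx => ?_⟩
  rw [norm_pow]
  exact pow_le_pow_left₀ (norm_nonneg _) (hK x hx) p

theorem vcnt_int {g : ℝ → ℂ} {T : ℝ} (hT : 0 ≤ T) (hg : Bm g T) (p : ℕ) :
    IntervalIntegrable (fun x => ‖g x‖ ^ p) volume T (2 * T) := by
  simpa only [norm_pow] using ((vcnt_pow hg p).int (y := 2 * T) ⟨by linarith, le_rfl⟩).norm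

theorem Bm.int_pow {g : ℝ → ℂ} {T : ℝ} (hT : 0 ≤ T) (hg : Bm g T) (p : ℕ) {w : ℝ → ℝ}
    (hw : ContinuousOn w (Icc T (2 * T))) :
    IntervalIntegrable (fun x => ‖g x‖ ^ p * w x) volume T (2 * T) := by
  exact (vcnt_int hT hg p).mul_continuousOn (by rwa [uIcc_of_le (by linarith)])

theorem Bm.int_pow0 {g : ℝ → ℂ} {T : ℝ} (hT : 0 ≤ T) (hg : Bm g T) (p : ℕ) :
    IntervalIntegrable (fun x => ‖g x‖ ^ p) volume T (2 * T) := by
  exact vcnt_int hT hg p

theorem Bm.pow {g : ℝ → ℂ} {T : ℝ} (hg : Bm g T) (p : ℕ) : Bm (fun x => g x ^ p) T := by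
  exact vcnt_pow hg p

theorem vcnt_pt (q : ℕ) {a b : ℝ} (ha : 0 ≤ a) (hb : 0 ≤ b) (n : ℕ) (h : a ≤ b * 2 ^ n) :
    a ^ q ≤ b ^ q + ∑ k ∈ Finset.range n, if b * 2 ^ k < a then (2 * (b * 2 ^ k)) ^ q else 0 := by
  induction n with
  | zero => simpa using pow_le_pow_left₀ ha (by simpa using h) q
  | succ n ih =>
    rw [Finset.sum_range_succ, ← add_assoc]
    by_cases h1 : b * 2 ^ n < a
    · rw [if_pos h1]
      refine (pow_le_pow_left₀ ha (h.trans_eq (by ring)) q).trans (le_add_of_nonneg_left ?_)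
      exact add_nonneg (by positivity) (Finset.sum_nonneg fun k _ => by split_ifs <;> positivity)
    · rw [if_neg h1, add_zero]
      exact ih (not_lt.1 h1)

/- With `y k = 2 ^ k * y₀` for the `k` with `y k ≤ S` (at most `1 + log (S / y₀) / log 2` values) one has pointwise
`‖Φ x‖ ^ q ≤ (Λ y₀) ^ q + ∑ k, (2 Λ y k) ^ q * indicator {Λ y k < ‖Φ x‖}`; pass to `lintegral`
(`ofReal_integral_eq_lintegral_ofReal`, `lintegral_indicator_const_le` or `lintegral_indicator_one_le`). -/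
theorem lc (q : ℕ) : ∃ C : ℝ, 0 < C ∧ ∀ (Φ : ℝ → ℂ) (T Λ y₀ S Z : ℝ), 0 ≤ T → Bm Φ T → 0 < Λ →
    0 < y₀ → y₀ ≤ S → 0 ≤ Z → (∀ x ∈ Icc T (2 * T), ‖Φ x‖ ≤ Λ * S) →
    (∀ y ∈ Icc y₀ S, volume {x ∈ Icc T (2 * T) | Λ * y < ‖Φ x‖} ≤ ENNReal.ofReal (Z / y ^ q)) →
    mu0 q Φ T ≤ C * Λ ^ q * (T * y₀ ^ q + Z * (1 + Real.log (S / y₀))) := by
  refine ⟨2 ^ (q + 1), by positivity, fun Φ T Λ y₀ S Z hT hΦ hΛ hy hS hZ hb hv => ?_⟩
  have hT2 : T ≤ 2 * T := by linarith
  have h1 : 1 ≤ S / y₀ := (one_le_div hy).2 hS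
  obtain ⟨n, hn1, hn2⟩ := exists_nat_pow_near h1 (one_lt_two : (1 : ℝ) < 2)
  have hlog := Real.log_nonneg h1
  have h2 : ((n + 1 : ℕ) : ℝ) ≤ 2 * (1 + Real.log (S / y₀)) := by
    have h3 := Real.log_le_log (by positivity) hn1
    rw [Real.log_pow] at h3
    have h4 := Real.log_two_gt_d9
    have h5 : (0 : ℝ) ≤ n := Nat.cast_nonneg n
    push_cast
    nlinarith
  rw [le_div_iff₀ hy] at hn1
  rw [div_lt_iff₀ hy] at hn2
  obtain ⟨μ, hμ⟩ : ∃ μ : Measure ℝ, μ = volume.restrict (Ioc T (2 * T)) := ⟨_, rfl⟩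
  have : IsFiniteMeasure μ := hμ ▸ inferInstance
  let A : ℕ → Set ℝ := fun k => {x | Λ * y₀ * 2 ^ k < ‖Φ x‖}
  have hA : ∀ k, NullMeasurableSet (A k) μ := fun k =>
    nullMeasurableSet_lt aemeasurable_const (hμ ▸ hΦ.meas.norm.aemeasurable)
  have hI : ∀ k, Integrable ((A k).indicator fun _ => (2 * (Λ * y₀ * 2 ^ k)) ^ q) μ := fun k =>
    (integrable_const _).indicator₀ (hA k)
  have h3 : ∀ k ∈ Finset.range (n + 1),
      ∫ x, (A k).indicator (fun _ => (2 * (Λ * y₀ * 2 ^ k)) ^ q) x ∂μ ≤ 2 ^ q * Λ ^ q * Z := by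
    intro k hk
    have h4 : (1 : ℝ) ≤ 2 ^ k := one_le_pow₀ one_le_two
    have h5 : (2 : ℝ) ^ k ≤ 2 ^ n :=
      pow_le_pow_right₀ one_le_two (Nat.le_of_lt_succ (Finset.mem_range.1 hk))
    have h6 := hv (y₀ * 2 ^ k) ⟨le_mul_of_one_le_right hy.le h4, by nlinarith⟩
    rw [vcnt_res, ← hμ, ← mul_assoc] at h6
    have h7 : μ.real (A k) ≤ Z / (y₀ * 2 ^ k) ^ q :=
      ENNReal.toReal_le_of_le_ofReal (by positivity) h6
    rw [integral_indicator₀ (hA k), setIntegral_const, smul_eq_mul]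
    refine (mul_le_mul_of_nonneg_right h7 (by positivity)).trans_eq ?_
    rw [mul_assoc Λ, mul_pow 2, mul_pow Λ]
    field_simp
  have h4 : mu0 q Φ T ≤ ∫ x, (Λ * y₀) ^ q + ∑ k ∈ Finset.range (n + 1),
      (A k).indicator (fun _ => (2 * (Λ * y₀ * 2 ^ k)) ^ q) x ∂μ := by
    rw [mu0, intervalIntegral.integral_of_le hT2, ← hμ]
    refine integral_mono_ae
      (hμ ▸ (intervalIntegrable_iff_integrableOn_Ioc_of_le hT2).1 (vcnt_int hT hΦ q))
      ((integrable_const _).add (integrable_finsetSum _ fun k _ => hI k)) ?_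
    rw [hμ]
    filter_upwards [ae_restrict_mem measurableSet_Ioc] with x hx
    refine (vcnt_pt q (norm_nonneg _) (by positivity : 0 ≤ Λ * y₀) (n + 1)
      ((hb x (Ioc_subset_Icc_self hx)).trans ?_)).trans_eq ?_
    · rw [mul_assoc, mul_comm y₀]
      exact mul_le_mul_of_nonneg_left hn2.le hΛ.le
    · simp only [A, indicator_apply, mem_ofPred_eq]
  rw [integral_add (integrable_const _) (integrable_finsetSum _ fun k _ => hI k),
    integral_finsetSum _ fun k _ => hI k, integral_const, smul_eq_mul] at h4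
  have h5 := Finset.sum_le_card_nsmul _ _ _ h3
  rw [Finset.card_range, nsmul_eq_mul] at h5
  have h6 : μ.real univ = T := by
    rw [hμ, measureReal_restrict_apply MeasurableSet.univ, univ_inter, Real.volume_real_Ioc,
      max_eq_left (by linarith)]
    ring
  rw [h6, mul_pow] at h4
  have h7 := mul_le_mul_of_nonneg_right h2 (by positivity : 0 ≤ 2 ^ q * Λ ^ q * Z)
  have h8 : (1 : ℝ) ≤ 2 ^ (q + 1) := one_le_pow₀ one_le_two
  have h9 := mul_le_mul_of_nonneg_right h8 (by positivity : 0 ≤ T * (Λ ^ q * y₀ ^ q))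
  calc mu0 q Φ T ≤ 2 ^ (q + 1) * (T * (Λ ^ q * y₀ ^ q)) +
        2 * (1 + Real.log (S / y₀)) * (2 ^ q * Λ ^ q * Z) := by linarith
    _ = _ := by ring

/- `‖f x‖ ^ p ≤ 2 ^ p * (‖g x‖ ^ p + K ^ p)`. -/
theorem mo_close {f g : ℝ → ℂ} {w : ℝ → ℝ} {T K : ℝ} (p : ℕ) (hT : 0 ≤ T) (hf : Bm f T) (hg : Bm g T)
    (hw : ContinuousOn w (Icc T (2 * T))) (h0 : ∀ x, 0 ≤ w x)
    (h : ∀ x ∈ Icc T (2 * T), ‖f x - g x‖ ≤ K) :
    mo p f w T ≤ 2 ^ p * (mo p g w T + K ^ p * ∫ x in T..2 * T, w x) := by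
  have hT2 : T ≤ 2 * T := by linarith
  have hi := hw.intervalIntegrable_of_Icc (μ := volume) hT2
  rw [mo, mo, ← intervalIntegral.integral_const_mul, ← intervalIntegral.integral_add
    (hg.int_pow hT p hw) (hi.const_mul _), ← intervalIntegral.integral_const_mul]
  refine intervalIntegral.integral_mono_on hT2 (hf.int_pow hT p hw)
    (((hg.int_pow hT p hw).add (hi.const_mul _)).const_mul _) fun x hx => ?_
  have hK : 0 ≤ K := (norm_nonneg _).trans (h x hx)
  have h1 : ‖f x‖ ≤ ‖g x‖ + K := by linarith [norm_sub_norm_le (f x) (g x), h x hx]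
  have h2 : ‖f x‖ ^ p ≤ 2 ^ p * (‖g x‖ ^ p + K ^ p) :=
    (pow_le_pow_left₀ (norm_nonneg _) h1 p).trans ((add_pow_le (norm_nonneg _) hK p).trans
      (mul_le_mul_of_nonneg_right (pow_le_pow_right₀ one_le_two (Nat.sub_le _ _)) (by positivity)))
  rw [← add_mul, ← mul_assoc]
  exact mul_le_mul_of_nonneg_right h2 (h0 x)

theorem mu0_close {f g : ℝ → ℂ} {T K : ℝ} (p : ℕ) (hT : 0 ≤ T) (hf : Bm f T) (hg : Bm g T)
    (h : ∀ x ∈ Icc T (2 * T), ‖f x - g x‖ ≤ K) :
    mu0 p f T ≤ 2 ^ p * (mu0 p g T + K ^ p * T) := by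
  have h1 := mo_close (w := fun _ => 1) p hT hf hg continuousOn_const (fun _ => zero_le_one) h
  simp only [mo, mul_one, intervalIntegral.integral_const, smul_eq_mul] at h1
  rwa [show 2 * T - T = T by ring] at h1

/- `a ^ p ≤ X ^ p + a ^ q / X ^ (q - p)`. -/
theorem mo_low {f : ℝ → ℂ} {w : ℝ → ℝ} {T X : ℝ} {p q : ℕ} (hpq : p ≤ q) (hT : 0 ≤ T) (hf : Bm f T)
    (hw : ContinuousOn w (Icc T (2 * T))) (h0 : ∀ x, 0 ≤ w x) (hX : 0 < X) :
    mo p f w T ≤ X ^ p * (∫ x in T..2 * T, w x) + mo q f w T / X ^ (q - p) := by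
  have hT2 : T ≤ 2 * T := by linarith
  have hi := hw.intervalIntegrable_of_Icc (μ := volume) hT2
  rw [mo, mo, ← intervalIntegral.integral_const_mul, ← intervalIntegral.integral_div,
    ← intervalIntegral.integral_add (hi.const_mul _) ((hf.int_pow hT q hw).div_const _)]
  refine intervalIntegral.integral_mono_on hT2 (hf.int_pow hT p hw)
    ((hi.const_mul _).add ((hf.int_pow hT q hw).div_const _)) fun x _ => ?_
  have h1 : ‖f x‖ ^ p ≤ X ^ p + ‖f x‖ ^ q / X ^ (q - p) := by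
    rcases le_total ‖f x‖ X with h1 | h1
    · exact (pow_le_pow_left₀ (norm_nonneg _) h1 p).trans (le_add_of_nonneg_right (by positivity))
    · refine le_add_of_nonneg_of_le (by positivity) ?_
      rw [le_div_iff₀ (by positivity)]
      nth_rewrite 2 [← Nat.add_sub_cancel' hpq]
      rw [pow_add]
      exact mul_le_mul_of_nonneg_left (pow_le_pow_left₀ hX.le h1 _) (by positivity)
  rw [mul_div_right_comm, ← add_mul]
  exact mul_le_mul_of_nonneg_right h1 (h0 x)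

theorem mu0_low {f : ℝ → ℂ} {T X : ℝ} {p q : ℕ} (hpq : p ≤ q) (hT : 0 ≤ T) (hf : Bm f T)
    (hX : 0 < X) : mu0 p f T ≤ X ^ p * T + mu0 q f T / X ^ (q - p) := by
  have h1 := mo_low (w := fun _ => 1) hpq hT hf continuousOn_const (fun _ => zero_le_one) hX
  simp only [mo, mul_one, intervalIntegral.integral_const, smul_eq_mul] at h1
  rwa [show 2 * T - T = T by ring] at h1

end Pool.Agent.Lib.MP_2a1a00_nt
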