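import Pool.Agent.Lib.MP_2a1a00_nt.V.Defs
import Pool.Agent.Lib.MP_2a1a00_nt.Res

/-! The Gaussian density and the Gaussian multiplier. -/

namespace Pool.Agent.Lib.MP_2a1a00_nt

open Complex MeasureTheory Set

theorem vga_sqrt {r : ℝ} (hr : 0 ≤ r) : ((r ^ 2 : ℝ) : ℂ) ^ (1 / 2 : ℂ) = r := by
  have h := ofReal_cpow (sq_nonneg r) (1 / 2)
  rw [← Real.sqrt_eq_rpow, Real.sqrt_sq hr] at h
  rw [h]
  norm_num

theorem vga_pi : √Real.pi ^ 2 = Real.pi := Real.sq_sqrt Real.pi_pos.le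

theorem vga_pi_pos : 0 < √Real.pi := Real.sqrt_pos.2 Real.pi_pos

theorem ph_pos {W : ℝ} (hW : 0 < W) (v : ℝ) : 0 < ph W v := by
  have := vga_pi_pos
  unfold ph
  positivity

theorem continuous_ph (W : ℝ) : Continuous (ph W) := by
  unfold ph
  fun_prop

/- `integral_cexp_quadratic`, `integrable_cexp_quadratic`: the exponent is `-(W ^ 2 / 4) v ^ 2 + s v`. -/
theorem ph_exp {W : ℝ} (hW : 0 < W) (s : ℂ) :
    Integrable (fun v : ℝ => (ph W v : ℂ) * exp (s * v)) ∧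
      ∫ v : ℝ, (ph W v : ℂ) * exp (s * v) = gW W s := by
  have hb : (((-(W ^ 2 / 4) : ℝ) : ℂ)).re < 0 := by
    rw [ofReal_re]
    have : 0 < W ^ 2 / 4 := by positivity
    linarith
  have e : (fun v : ℝ => (ph W v : ℂ) * exp (s * v)) = fun v : ℝ =>
      ((W / (2 * √Real.pi) : ℝ) : ℂ) * exp (((-(W ^ 2 / 4) : ℝ) : ℂ) * (v : ℂ) ^ 2 + s * v + 0) := by
    funext v
    rw [ph, ofReal_mul, mul_assoc, ofReal_exp, ← exp_add]
    congr 2
    push_cast
    ring
  rw [e]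
  refine ⟨(integrable_cexp_quadratic' hb s 0).const_mul _, ?_⟩
  have hp := vga_pi_pos
  have e2 : (Real.pi : ℂ) / -((-(W ^ 2 / 4) : ℝ) : ℂ) = (((2 * √Real.pi / W) ^ 2 : ℝ) : ℂ) := by
    rw [← ofReal_neg, ← ofReal_div]
    congr 1
    rw [div_pow, mul_pow, vga_pi]
    field_simp
    norm_num
  have e3 : W / (2 * √Real.pi) * (2 * √Real.pi / W) = 1 := by field_simp
  have hW' : (W : ℂ) ≠ 0 := ofReal_ne_zero.2 hW.ne'
  rw [integral_const_mul, integral_cexp_quadratic hb, e2, vga_sqrt (by positivity), ← mul_assoc,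
    ← ofReal_mul, e3, ofReal_one, one_mul, gW]
  congr 1
  push_cast
  field_simp
  ring

/- The real form of `ph_exp`. -/
theorem ph_exp_re {W : ℝ} (hW : 0 < W) (β : ℝ) :
    Integrable (fun v : ℝ => ph W v * Real.exp (β * v)) ∧
      ∫ v : ℝ, ph W v * Real.exp (β * v) = Real.exp ((β / W) ^ 2) := by
  obtain ⟨h1, h2⟩ := ph_exp hW β
  have e : (fun v : ℝ => (ph W v : ℂ) * exp (β * v)) =
      fun v : ℝ => ((ph W v * Real.exp (β * v) : ℝ) : ℂ) := by
    funext v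
    push_cast
    rfl
  rw [e] at h1 h2
  refine ⟨by simpa only [RCLike.re_to_complex, ofReal_re] using h1.re, ?_⟩
  rw [integral_complex_ofReal, gW] at h2
  exact_mod_cast h2

theorem ph_int {W : ℝ} (hW : 0 < W) : Integrable (ph W) ∧ ∫ v, ph W v = 1 := by
  simpa using ph_exp_re hW 0

/- `W * |v| ≤ exp (W v) + exp (-W v)` and `ph_exp_re` with `β = W` and `β = -W`; `2 * exp 1 ≤ 6`. -/
theorem ph_abs {W : ℝ} (hW : 0 < W) :
    Integrable (fun v => |v| * ph W v) ∧ ∫ v, |v| * ph W v ≤ 6 / W := by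
  obtain ⟨h1, h2⟩ := ph_exp_re hW W
  obtain ⟨h3, h4⟩ := ph_exp_re hW (-W)
  have h5 : Integrable fun v => W⁻¹ * (ph W v * Real.exp (W * v) + ph W v * Real.exp (-W * v)) :=
    (h1.add h3).const_mul _
  have h6 : ∀ v, |v| * ph W v ≤
      W⁻¹ * (ph W v * Real.exp (W * v) + ph W v * Real.exp (-W * v)) := by
    intro v
    have h7 : W * |v| ≤ Real.exp (W * v) + Real.exp (-W * v) := by
      have a1 := Real.add_one_le_exp (W * v)
      have a2 := Real.add_one_le_exp (-W * v)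
      have a3 := Real.exp_pos (W * v)
      have a4 := Real.exp_pos (-W * v)
      rcases abs_cases v with h | h <;> rw [h.1] <;> linarith
    have h8 := mul_le_mul_of_nonneg_left h7 (ph_pos hW v).le
    rw [le_inv_mul_iff₀ hW]
    linarith
  have h9 : Integrable fun v => |v| * ph W v := by
    refine h5.mono' (continuous_abs.mul (continuous_ph W)).aestronglyMeasurable
      (Filter.Eventually.of_forall fun v => ?_)
    rw [Real.norm_of_nonneg (mul_nonneg (abs_nonneg v) (ph_pos hW v).le)]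
    exact h6 v
  refine ⟨h9, (integral_mono h9 h5 h6).trans ?_⟩
  rw [integral_const_mul, integral_add h1 h3, h2, h4, neg_div, neg_sq, div_self hW.ne', one_pow,
    div_eq_inv_mul]
  have := Real.exp_one_lt_d9
  gcongr
  linarith

/- For `|v| ≥ 1 / 5` one has `ph W v ≤ 2 * exp (-(3 / 400) * W ^ 2) * ph (W / 2) v`
(`(W v) ^ 2 / 4 = (W v) ^ 2 / 16 + 3 (W v) ^ 2 / 16`); then `ph_exp_re` at `W / 2`. -/
theorem ph_tail (K : ℝ) : ∃ C : ℝ, 0 < C ∧ ∀ W β : ℝ, 1 ≤ W → |β| ≤ 1 →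
    ∫ v in (Ioc (-1 / 5 : ℝ) (1 / 5))ᶜ, ph W v * Real.exp (β * v) ≤ C * W ^ (-K) := by
  refine ⟨2 * Real.exp 4 * Real.exp (34 * K ^ 2), by positivity, fun W β hW hβ => ?_⟩
  have hW0 : 0 < W := by linarith
  obtain ⟨h1, -⟩ := ph_exp_re hW0 β
  obtain ⟨h3, h4⟩ := ph_exp_re (half_pos hW0) β
  have h5 := h3.const_mul (2 * Real.exp (-(3 / 400) * W ^ 2))
  have hp := vga_pi_pos
  have h6 : ∀ v ∈ (Ioc (-1 / 5 : ℝ) (1 / 5))ᶜ, ph W v * Real.exp (β * v) ≤
      2 * Real.exp (-(3 / 400) * W ^ 2) * (ph (W / 2) v * Real.exp (β * v)) := by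
    intro v hv
    have h7 : 1 / 25 ≤ v ^ 2 := by
      rw [mem_compl_iff, mem_Ioc, not_and_or, not_lt, not_le] at hv
      rcases hv with h | h <;> nlinarith
    have h8 : ph W v ≤ 2 * Real.exp (-(3 / 400) * W ^ 2) * ph (W / 2) v := by
      have e : 2 * Real.exp (-(3 / 400) * W ^ 2) * ph (W / 2) v = W / (2 * √Real.pi) *
          Real.exp (-(3 / 400) * W ^ 2 + -(W / 2 * v) ^ 2 / 4) := by
        rw [ph, Real.exp_add]
        ring
      rw [e, ph]
      gcongr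
      nlinarith [mul_le_mul_of_nonneg_left h7 (sq_nonneg W)]
    rw [← mul_assoc]
    gcongr
  have h9 : Real.exp ((β / (W / 2)) ^ 2) ≤ Real.exp 4 := by
    rw [Real.exp_le_exp, div_pow, div_le_iff₀ (by positivity), ← sq_abs β]
    nlinarith [abs_nonneg β]
  have h10 : Real.exp (-(3 / 400) * W ^ 2) ≤ Real.exp (34 * K ^ 2) * W ^ (-K) := by
    rw [Real.rpow_def_of_pos hW0, ← Real.exp_add, Real.exp_le_exp, ← sq_abs K]
    have a1 : 0 ≤ Real.log W := Real.log_nonneg hW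
    have a2 : Real.log W ≤ W := (Real.log_le_sub_one_of_pos hW0).trans (by linarith)
    have a3 : Real.log W * K ≤ W * |K| :=
      (mul_le_mul_of_nonneg_left (le_abs_self K) a1).trans
        (mul_le_mul_of_nonneg_right a2 (abs_nonneg K))
    nlinarith [sq_nonneg (68 * |K| - W), sq_nonneg W]
  calc _ ≤ ∫ v in (Ioc (-1 / 5 : ℝ) (1 / 5))ᶜ,
        2 * Real.exp (-(3 / 400) * W ^ 2) * (ph (W / 2) v * Real.exp (β * v)) :=
        setIntegral_mono_on h1.integrableOn h5.integrableOn measurableSet_Ioc.compl h6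
    _ ≤ ∫ v, 2 * Real.exp (-(3 / 400) * W ^ 2) * (ph (W / 2) v * Real.exp (β * v)) :=
        setIntegral_le_integral h5 (Filter.Eventually.of_forall fun v => by
          have := ph_pos (half_pos hW0) v
          positivity)
    _ = 2 * Real.exp (-(3 / 400) * W ^ 2) * Real.exp ((β / (W / 2)) ^ 2) := by
        rw [integral_const_mul, h4]
    _ ≤ 2 * (Real.exp (34 * K ^ 2) * W ^ (-K)) * Real.exp 4 := by gcongr
    _ = _ := by ring

theorem norm_gW {W : ℝ} (hW : 0 < W) (s : ℂ) :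
    ‖gW W s‖ = Real.exp ((s.re ^ 2 - s.im ^ 2) / W ^ 2) := by
  rw [gW, norm_exp, div_pow, ← ofReal_pow, div_ofReal_re]
  congr 2
  simp [sq]

theorem differentiable_gW (W : ℝ) : Differentiable ℂ (gW W) := by
  unfold gW
  fun_prop

/- `‖exp z - 1‖ ≤ ‖z‖ * exp (max z.re 0)` (integrate the derivative of `t ↦ exp (t z)` over `[0, 1]`,
or `norm_image_sub_le_of_norm_deriv_le_segment_01'`); here `z.re ≤ s.re ^ 2 / W ^ 2 ≤ 4`. -/
theorem gW_sub {W : ℝ} (hW : 1 ≤ W) {s : ℂ} (hs : |s.re| ≤ 2) :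
    ‖gW W s - 1‖ ≤ Real.exp 4 * (‖s‖ ^ 2 / W ^ 2) := by
  have hW0 : 0 < W := by linarith
  have h1 : ((s / W) ^ 2).re ≤ 4 := by
    have h2 := norm_gW hW0 s
    rw [gW, norm_exp, Real.exp_eq_exp] at h2
    rw [h2, div_le_iff₀ (by positivity), ← sq_abs s.re]
    nlinarith [abs_nonneg s.re, sq_nonneg s.im]
  have h3 : ‖(s / W) ^ 2‖ = ‖s‖ ^ 2 / W ^ 2 := by
    rw [norm_pow, norm_div, norm_real, Real.norm_of_nonneg hW0.le, div_pow]
  rw [gW, ← h3]
  generalize (s / W) ^ 2 = z at h1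
  have h4 := norm_image_sub_le_of_norm_deriv_le_segment_01' (f := fun t : ℝ => exp (t * z))
    (f' := fun t : ℝ => exp (t * z) * z) (C := Real.exp 4 * ‖z‖) (fun t _ => ?_) fun t ht => ?_
  · simpa using h4
  · have h5 : HasDerivAt (fun w : ℂ => exp (w * z)) (exp (t * z) * z) t := by
      simpa using ((hasDerivAt_id (t : ℂ)).mul_const z).cexp
    exact h5.comp_ofReal.hasDerivWithinAt
  · rw [norm_mul, norm_exp, re_ofReal_mul]
    gcongr
    nlinarith [ht.1, ht.2]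

/- `shift_pow` and `|K| |t| - t ^ 2 / W ^ 2 + |t| ≤ (|K| + 1) ^ 2 * W ^ 2 / 4`. -/
theorem dec_gW {g : ℂ → ℂ} {a b W C K : ℝ} (hW : 0 < W) (hd : DifferentiableOn ℂ g (St a b))
    (h : ∀ s ∈ St a b, ‖g s‖ ≤ C * (1 + |s.im|) ^ K) : Dec (fun s => g s * gW W s) a b := by
  refine ⟨hd.mul (differentiable_gW W).differentiableOn,
    |C| * Real.exp ((|a| + |b|) ^ 2 / W ^ 2 + (|K| + 1) ^ 2 * W ^ 2 / 4), fun s hs => ?_⟩
  have h1 : ‖g s‖ ≤ |C| * Real.exp (|K| * |s.im|) :=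
    (h s hs).trans (mul_le_mul (le_abs_self C) (shift_pow K s.im) (by positivity) (abs_nonneg C))
  have h2 : s.re ^ 2 ≤ (|a| + |b|) ^ 2 := by
    obtain ⟨h3, h4⟩ := hs
    refine sq_le_sq' ?_ ?_ <;>
      linarith [abs_nonneg a, abs_nonneg b, le_abs_self b, neg_abs_le a]
  have h3 : s.re ^ 2 / W ^ 2 ≤ (|a| + |b|) ^ 2 / W ^ 2 := by gcongr
  have h4 : (|K| + 1) * |s.im| - s.im ^ 2 / W ^ 2 ≤ (|K| + 1) ^ 2 * W ^ 2 / 4 := by
    have e1 : s.im ^ 2 / W ^ 2 = (|s.im| / W) ^ 2 := by rw [div_pow, sq_abs]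
    have e2 : |s.im| = W * (|s.im| / W) := by field_simp
    rw [e1]
    generalize |s.im| / W = x at e2
    rw [e2]
    nlinarith [sq_nonneg ((|K| + 1) * W / 2 - x)]
  rw [norm_mul, norm_gW hW]
  refine (mul_le_mul_of_nonneg_right h1 (Real.exp_pos _).le).trans ?_
  rw [mul_assoc, mul_assoc, ← Real.exp_add, ← Real.exp_add, sub_div]
  exact mul_le_mul_of_nonneg_left (Real.exp_le_exp.2 (by linarith)) (abs_nonneg C)

/- `1 + |t| ≤ W * (1 + |t / W|)`, `gauss_absorb`, `Measure.integral_comp_div`. -/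
theorem gW_poly {K : ℝ} (hK : 0 ≤ K) : ∃ C : ℝ, 0 < C ∧ ∀ W : ℝ, 1 ≤ W →
    Integrable (fun t : ℝ => (1 + |t|) ^ K * Real.exp (-t ^ 2 / W ^ 2)) ∧
      ∫ t : ℝ, (1 + |t|) ^ K * Real.exp (-t ^ 2 / W ^ 2) ≤ C * W ^ (K + 1) := by
  obtain ⟨C, hC, h⟩ := gauss_absorb K
  refine ⟨C * √(2 * Real.pi), by positivity, fun W hW => ?_⟩
  have hW0 : 0 < W := by linarith
  have hb : 0 < 1 / (2 * W ^ 2) := by positivity
  have h1 : Integrable fun t : ℝ => W ^ K * C * Real.exp (-(1 / (2 * W ^ 2)) * t ^ 2) :=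
    (integrable_exp_neg_mul_sq hb).const_mul _
  have h2 : ∀ t : ℝ, (1 + |t|) ^ K * Real.exp (-t ^ 2 / W ^ 2) ≤
      W ^ K * C * Real.exp (-(1 / (2 * W ^ 2)) * t ^ 2) := by
    intro t
    have a1 : 1 + |t| ≤ W * (1 + |t / W|) := by
      rw [abs_div, abs_of_pos hW0, mul_add, mul_div_cancel₀ _ hW0.ne']
      linarith
    have a2 : (1 + |t|) ^ K ≤ W ^ K * (1 + |t / W|) ^ K := by
      rw [← Real.mul_rpow hW0.le (by positivity)]
      exact Real.rpow_le_rpow (by positivity) a1 hK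
    have a3 := h (t / W)
    rw [show -(t / W) ^ 2 / 2 = -(1 / (2 * W ^ 2)) * t ^ 2 by field_simp,
      show -(t / W) ^ 2 = -t ^ 2 / W ^ 2 by field_simp] at a3
    refine (mul_le_mul_of_nonneg_right a2 (Real.exp_pos _).le).trans ?_
    rw [mul_assoc, mul_assoc]
    gcongr
  have h3 : Integrable fun t : ℝ => (1 + |t|) ^ K * Real.exp (-t ^ 2 / W ^ 2) := by
    refine h1.mono' (Continuous.aestronglyMeasurable ?_) (Filter.Eventually.of_forall fun t => ?_)
    · exact ((continuous_const.add continuous_abs).rpow_const fun _ => Or.inr hK).mul (by fun_prop)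
    · rw [Real.norm_of_nonneg (by positivity)]
      exact h2 t
  refine ⟨h3, (integral_mono h3 h1 h2).trans (le_of_eq ?_)⟩
  rw [integral_const_mul, integral_gaussian,
    show Real.pi / (1 / (2 * W ^ 2)) = 2 * Real.pi * W ^ 2 by field_simp,
    Real.sqrt_mul (by positivity), Real.sqrt_sq hW0.le, Real.rpow_add_one hW0.ne']
  ring

/- A Gaussian integral in `t` for `s = σ + t i` (`integral_cexp_quadratic`, compare `res_inner`). -/
theorem Ln_ph {W : ℝ} (hW : 0 < W) (u σ : ℝ) :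
    Ln (fun s => exp (s * u) * gW W s) σ = (ph W u : ℝ) := by
  have hb : (((-(1 / W ^ 2) : ℝ) : ℂ)).re < 0 := by
    rw [ofReal_re]
    have : 0 < 1 / W ^ 2 := by positivity
    linarith
  have hW' : (W : ℂ) ≠ 0 := ofReal_ne_zero.2 hW.ne'
  have e : (fun v : ℝ => exp ((σ + v * I) * u) * gW W (σ + v * I)) = fun v : ℝ =>
      exp (((-(1 / W ^ 2) : ℝ) : ℂ) * (v : ℂ) ^ 2 + (u + 2 * σ / W ^ 2) * I * v +
        (σ * u + σ ^ 2 / W ^ 2)) := by
    funext v
    rw [gW, ← exp_add]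
    congr 1
    push_cast
    linear_combination ((v : ℂ) ^ 2 / W ^ 2) * I_mul_I
  have hp := vga_pi_pos
  have e2 : (Real.pi : ℂ) / -((-(1 / W ^ 2) : ℝ) : ℂ) = (((√Real.pi * W) ^ 2 : ℝ) : ℂ) := by
    rw [← ofReal_neg, ← ofReal_div]
    congr 1
    rw [mul_pow, vga_pi]
    field_simp
  have e3 : 1 / (2 * Real.pi) * (√Real.pi * W) = W / (2 * √Real.pi) := by
    nth_rewrite 1 [← vga_pi]
    field_simp
  unfold Ln
  rw [e, integral_cexp_quadratic hb, e2, vga_sqrt (by positivity), ← mul_assoc, ← ofReal_mul, e3,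
    ph, ofReal_mul, ofReal_exp]
  congr 2
  rw [mul_pow, I_sq]
  push_cast
  field_simp
  ring

/- `1 / s = ∫ r in Ioi 0, exp (-s r)`, Fubini and `Ln_ph` (compare `res_prod`, `Ln_gauss`); the integral
of `ph W (u - r)` over `r > 0` is `cdf W u`. -/
theorem Ln_cdf {W : ℝ} (hW : 0 < W) (u : ℝ) :
    Ln (fun s => exp (s * u) * (gW W s / s)) 2 = (cdf W u : ℝ) := by
  have e : (fun v : ℝ => exp (((2 : ℝ) + v * I) * u) * (gW W ((2 : ℝ) + v * I) / ((2 : ℝ) + v * I))) =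
      fun v : ℝ => ∫ r in Ioi (0 : ℝ),
        exp (((2 : ℝ) + v * I) * (u - r : ℝ)) * gW W ((2 : ℝ) + v * I) := by
    funext v
    have e1 : ∀ r : ℝ, exp (((2 : ℝ) + v * I) * (u - r : ℝ)) * gW W ((2 : ℝ) + v * I) =
        exp (((2 : ℝ) + v * I) * u) * gW W ((2 : ℝ) + v * I) * exp (-((2 : ℝ) + v * I) * r) := by
      intro r
      rw [mul_right_comm, ← exp_add]
      congr 2
      push_cast
      ring
    simp_rw [e1]
    rw [integral_const_mul, integral_exp_mul_complex_Ioi (by simp), ofReal_zero, mul_zero,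
      exp_zero, neg_div_neg_eq, mul_one_div, mul_div_assoc]
  have hi : Integrable (Function.uncurry fun (v : ℝ) (r : ℝ) =>
      exp (((2 : ℝ) + v * I) * (u - r : ℝ)) * gW W ((2 : ℝ) + v * I))
      (volume.prod (volume.restrict (Ioi 0))) := by
    have h1 : Integrable fun v : ℝ =>
        Real.exp (2 * u + 4 / W ^ 2) * Real.exp (-(1 / W ^ 2) * v ^ 2) :=
      (integrable_exp_neg_mul_sq (by positivity)).const_mul _
    have h2 : Integrable (fun r : ℝ => Real.exp (-2 * r)) (volume.restrict (Ioi 0)) :=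
      exp_neg_integrableOn_Ioi 0 two_pos
    refine (h1.mul_prod h2).mono' ?_ (Filter.Eventually.of_forall fun p => le_of_eq ?_)
    · have := (differentiable_gW W).continuous
      exact (by fun_prop : Continuous (Function.uncurry fun (v : ℝ) (r : ℝ) =>
        exp (((2 : ℝ) + v * I) * (u - r : ℝ)) * gW W ((2 : ℝ) + v * I))).aestronglyMeasurable
    · simp only [Function.uncurry, norm_mul, norm_exp, norm_gW hW, ← Real.exp_add]
      congr 1
      simp
      ring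
  have h3 : ∫ r in Ioi (0 : ℝ), ph W (u - r) = cdf W u := by
    have h4 := (Measure.measurePreserving_sub_left volume u).setIntegral_preimage_emb
      (MeasurableEquiv.subLeft u).measurableEmbedding (ph W) (Iic u)
    rw [cdf, ← h4, ← integral_Ici_eq_integral_Ioi]
    congr 2
    ext r
    simp
  have h5 := fun r : ℝ => Ln_ph hW (u - r) 2
  unfold Ln at h5 ⊢
  rw [e, integral_integral_swap hi, ← integral_const_mul, ← h3, ← integral_complex_ofReal]
  simp_rw [h5]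

end Pool.Agent.Lib.MP_2a1a00_nt
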