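import Pool.Agent.Lib.MP_2a1a00_nt.V.Me1
import Pool.Agent.Lib.MP_2a1a00_nt.V.Ga

/-! The Mellin integral of the model. -/

namespace Pool.Agent.Lib.MP_2a1a00_nt

open Complex MeasureTheory Set

theorem vme2_cont {c : ℝ} (hc : 0 < c) : Continuous fun v : ℝ => Gamma (c + v * I) :=
  continuous_iff_continuousAt.2 fun v => ContinuousAt.comp (f := fun v : ℝ => (c + v * I : ℂ))
    (continuousAt_Gamma _ fun m h => by
      have h1 := congrArg re h
      simp at h1
      linarith [m.cast_nonneg (α := ℝ)]) (by fun_prop)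

theorem vme2_g {d W : ℝ} (hd : 0 < d) (hW : 0 < W) (a : ℂ) (c β : ℝ) :
    Integrable fun v : ℝ => Real.exp (β * v) * ‖gW W (a - (c + v * I) / d)‖ := by
  have h1 : 0 < ((1 / (d * W) ^ 2 : ℝ) : ℂ).re := by
    rw [ofReal_re]
    positivity
  refine (integrable_cexp_quadratic h1 (β - 2 * (a - c / d) * I / (d * W ^ 2))
    ((a - c / d) ^ 2 / W ^ 2)).norm.congr (ae_of_all _ fun v => ?_)
  have h2 : (d : ℂ) ≠ 0 := ofReal_ne_zero.2 hd.ne'
  have h3 : (W : ℂ) ≠ 0 := ofReal_ne_zero.2 hW.ne'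
  have h4 : -((1 / (d * W) ^ 2 : ℝ) : ℂ) * (v : ℂ) ^ 2 +
      (β - 2 * (a - c / d) * I / (d * W ^ 2)) * v + (a - c / d) ^ 2 / W ^ 2 =
      ((β * v : ℝ) : ℂ) + ((a - (c + v * I) / d) / W) ^ 2 := by
    push_cast
    field_simp
    linear_combination (-(v : ℂ) ^ 2) * I_sq
  simp only
  rw [h4, exp_add, norm_mul, norm_exp_ofReal, gW]

theorem vme2_bd {c d W : ℝ} (hc : 0 < c) (hd : 0 < d) (hW : 0 < W) (a : ℂ) (u : ℝ) :
    ∃ G : ℝ → ℝ, Integrable G ∧ ∀ φ : ℝ, |φ| ≤ Real.pi / 2 → ∀ v : ℝ,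
      ‖Gamma (c + v * I) * exp (-(c + v * I) * (u - φ * I)) * gW W (a - (c + v * I) / d)‖ ≤
        G v := by
  obtain ⟨C, hC, H⟩ := gam_vert hc
  refine ⟨_, ((vme2_g hd hW a c c).add (vme2_g hd hW a c (-c))).const_mul
    (C * Real.exp (-(c * u))), fun φ hφ v => ?_⟩
  have h1 : (1 + |v|) ^ (c - 1 / 2) ≤ Real.exp (c * v) + Real.exp (-c * v) := by
    calc (1 + |v|) ^ (c - 1 / 2) ≤ (1 + |v|) ^ c :=
          Real.rpow_le_rpow_of_exponent_le (by linarith [abs_nonneg v]) (by linarith)
      _ ≤ Real.exp |v| ^ c := Real.rpow_le_rpow (by positivity)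
          (by linarith [Real.add_one_le_exp |v|]) hc.le
      _ = Real.exp (c * |v|) := by rw [← Real.exp_mul, mul_comm]
      _ ≤ _ := by
        rcases abs_cases v with h | h <;> rw [h.1]
        · linarith [Real.exp_pos (-c * v)]
        · rw [mul_neg, neg_mul]
          linarith [Real.exp_pos (c * v)]
  have h2 : ‖exp (-(c + v * I) * (u - φ * I))‖ ≤
      Real.exp (-(c * u)) * Real.exp (Real.pi / 2 * |v|) := by
    rw [norm_exp, ← Real.exp_add]
    refine Real.exp_le_exp.2 ?_
    have h3 : |v * φ| ≤ |v| * (Real.pi / 2) := by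
      rw [abs_mul]
      exact mul_le_mul_of_nonneg_left hφ (abs_nonneg v)
    simp only [neg_mul, neg_re, mul_re, add_re, ofReal_re, I_re, mul_zero, ofReal_im, I_im,
      mul_one, sub_self, add_zero, sub_re, sub_zero, add_im, mul_im, zero_add, sub_im, zero_sub]
    linarith [neg_abs_le (v * φ)]
  have h3 : Real.exp (-(Real.pi / 2) * |v|) * Real.exp (Real.pi / 2 * |v|) = 1 := by
    rw [← Real.exp_add, neg_mul, neg_add_cancel, Real.exp_zero]
  rw [norm_mul, norm_mul]
  calc _ ≤ C * (Real.exp (c * v) + Real.exp (-c * v)) * Real.exp (-(Real.pi / 2) * |v|) *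
        (Real.exp (-(c * u)) * Real.exp (Real.pi / 2 * |v|)) * ‖gW W (a - (c + v * I) / d)‖ := by
        gcongr
        exact (H v).trans (by gcongr)
    _ = _ := by
      simp only [Pi.add_apply]
      linear_combination C * (Real.exp (c * v) + Real.exp (-c * v)) * Real.exp (-(c * u)) *
        ‖gW W (a - (c + v * I) / d)‖ * h3

theorem vme2_meas {c : ℝ} (hc : 0 < c) (d W : ℝ) (a : ℂ) (u φ : ℝ) : Continuous fun v : ℝ =>
    Gamma (c + v * I) * exp (-(c + v * I) * (u - φ * I)) * gW W (a - (c + v * I) / d) :=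
  ((vme2_cont hc).mul (by fun_prop)).mul ((differentiable_gW W).continuous.comp (by fun_prop))

/- For `|φ| < π / 2`: write `gW W (a - z / d)` as the integral of `ph W v * exp ((a - z / d) v)` (`ph_exp`),
exchange the integrals (the norm of the integrand is a product of a function of `im z`, `me1_int`, and a
function of `v`, `ph_exp_re`) and use `me1_strip` with `ω = u + v / d - φ i`. -/
theorem me2_in {c d W : ℝ} (hc : 0 < c) (hd : 0 < d) (hW : 0 < W) (a : ℂ) (u : ℝ) {φ : ℝ}
    (hφ : |φ| < Real.pi / 2) :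
    Ln (fun z => Gamma z * exp (-z * (u - φ * I)) * gW W (a - z / d)) c =
      ∫ v : ℝ, (ph W v : ℂ) * exp (a * v) * exp (-exp (u + v / d - φ * I)) := by
  have h1 := me1_int hc (ω := u - φ * I) (by simpa using hφ)
  have h2 := (ph_exp_re hW (a.re - c / d)).1
  have h3 : Integrable (Function.uncurry fun t v : ℝ =>
      Gamma (c + t * I) * exp (-(c + t * I) * (u - φ * I)) *
        ((ph W v : ℂ) * exp ((a - (c + t * I) / d) * v))) (volume.prod volume) := by
    refine (h1.norm.mul_prod h2).mono' (Continuous.aestronglyMeasurable ?_)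
      (ae_of_all _ fun p => le_of_eq ?_)
    · exact (((vme2_cont hc).comp continuous_fst).mul (by fun_prop)).mul
        ((continuous_ofReal.comp ((continuous_ph W).comp continuous_snd)).mul (by fun_prop))
    · simp only [Function.uncurry]
      rw [norm_mul, norm_mul (ph W p.2 : ℂ), norm_real, Real.norm_of_nonneg (ph_pos hW _).le,
        norm_exp ((a - _) * _), re_mul_ofReal, sub_re, div_ofReal_re]
      simp
  have h4 : ∀ t : ℝ, Gamma (c + t * I) * exp (-(c + t * I) * (u - φ * I)) *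
      gW W (a - (c + t * I) / d) = ∫ v : ℝ, Gamma (c + t * I) * exp (-(c + t * I) * (u - φ * I)) *
        ((ph W v : ℂ) * exp ((a - (c + t * I) / d) * v)) := fun t => by
    rw [integral_const_mul, (ph_exp hW _).2]
  rw [Ln]
  simp only [h4]
  rw [integral_integral_swap h3, ← integral_const_mul]
  refine integral_congr_ae (ae_of_all _ fun v => ?_)
  have h5 := me1_strip hc (ω := u + v / d - φ * I) (by
    rw [← ofReal_div]
    simpa using hφ)
  simp only
  rw [← h5, Ln, mul_left_comm, ← integral_const_mul ((ph W v : ℂ) * exp (a * v))]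
  congr 1
  refine integral_congr_ae (ae_of_all _ fun t => ?_)
  have h6 : exp (-(c + t * I) * (u - φ * I)) * exp ((a - (c + t * I) / d) * v) =
      exp (a * v) * exp (-(c + t * I) * (u + v / d - φ * I)) := by
    rw [← exp_add, ← exp_add]
    congr 1
    ring
  simp only
  linear_combination Gamma (c + t * I) * (ph W v : ℂ) * h6

/- `gam_vert`, `norm_gW`. -/
theorem me2_int {c d W : ℝ} (hc : 0 < c) (hd : 0 < d) (hW : 0 < W) (a : ℂ) (u : ℝ) {φ : ℝ}
    (hφ : |φ| ≤ Real.pi / 2) : Integrable fun v : ℝ =>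
      Gamma (c + v * I) * exp (-(c + v * I) * (u - φ * I)) * gW W (a - (c + v * I) / d) := by
  obtain ⟨G, hG, H⟩ := vme2_bd hc hd hW a u
  exact hG.mono' (vme2_meas hc d W a u φ).aestronglyMeasurable (ae_of_all _ (H φ hφ))

/- Both sides of `me2_in` are continuous in `φ` on `[-π / 2, π / 2]` (`continuousOn_of_dominated`; on the right
`‖exp (-exp ω)‖ ≤ 1` for `|im ω| ≤ π / 2`), so the identity extends to the closure (`Set.EqOn.of_subset_closure`,
`closure_Ioo`); `exp (-(ς π / 2) i) = -ς i`. -/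
theorem mel_mod {c d W : ℝ} (hc : 0 < c) (hd : 0 < d) (hW : 0 < W) (a : ℂ) (u : ℝ) {ς : ℝ}
    (hς : ς = 1 ∨ ς = -1) :
    Ln (fun z => Gamma z * exp (-z * (u - (ς * (Real.pi / 2) : ℝ) * I)) * gW W (a - z / d)) c =
      ∫ v : ℝ, (ph W v : ℂ) * exp (a * v) * exp (I * (ς * Real.exp (u + v / d) : ℝ)) := by
  obtain ⟨G, hG, H⟩ := vme2_bd hc hd hW a u
  have hp : -(Real.pi / 2) ≠ Real.pi / 2 := by linarith [Real.pi_pos]
  have h1 : ContinuousOn (fun φ : ℝ =>
      Ln (fun z => Gamma z * exp (-z * (u - φ * I)) * gW W (a - z / d)) c)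
      (Icc (-(Real.pi / 2)) (Real.pi / 2)) :=
    continuousOn_const.mul (continuousOn_of_dominated
      (fun φ _ => (vme2_meas hc d W a u φ).aestronglyMeasurable)
      (fun φ hφ => ae_of_all _ (H φ (abs_le.2 hφ))) hG (ae_of_all _ fun v => by fun_prop))
  have h2 : ContinuousOn (fun φ : ℝ =>
      ∫ v : ℝ, (ph W v : ℂ) * exp (a * v) * exp (-exp (u + v / d - φ * I)))
      (Icc (-(Real.pi / 2)) (Real.pi / 2)) := by
    refine continuousOn_of_dominated (fun φ _ => Continuous.aestronglyMeasurable ?_)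
      (fun φ hφ => ae_of_all _ fun v => ?_) (ph_exp hW a).1.norm (ae_of_all _ fun v => by fun_prop)
    · exact ((continuous_ofReal.comp (continuous_ph W)).mul (by fun_prop)).mul (by fun_prop)
    · rw [norm_mul]
      refine mul_le_of_le_one_right (norm_nonneg _) ?_
      rw [norm_exp, Real.exp_le_one_iff, neg_re, neg_nonpos, exp_re]
      refine mul_nonneg (Real.exp_pos _).le ?_
      rw [← ofReal_div]
      simpa using Real.cos_nonneg_of_mem_Icc hφ
  have h3 := EqOn.of_subset_closure (s := Ioo (-(Real.pi / 2)) (Real.pi / 2))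
    (fun φ hφ => me2_in hc hd hW a u (abs_lt.2 hφ)) h1 h2 Ioo_subset_Icc_self
    (closure_Ioo hp).ge (x := ς * (Real.pi / 2))
    (by rcases hς with rfl | rfl <;> constructor <;> linarith [Real.pi_pos])
  refine h3.trans (integral_congr_ae (ae_of_all _ fun v => ?_))
  have h4 : exp (-((ς * (Real.pi / 2) : ℝ) * I)) = -(ς * I) := by
    rcases hς with rfl | rfl
    · rw [show -(((1 * (Real.pi / 2) : ℝ) : ℂ) * I) = -Real.pi / 2 * I by push_cast; ring,
        exp_neg_pi_div_two_mul_I]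
      simp
    · simp
  simp only
  rw [sub_eq_add_neg, exp_add, h4]
  congr 2
  push_cast
  ring

end Pool.Agent.Lib.MP_2a1a00_nt
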