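import Pool.Agent.Lib.MP_2a1a00_nt.V.St3
import Pool.Agent.Lib.MP_2a1a00_nt.V.Me2

/-! The smoothed Voronoi kernel. -/

namespace Pool.Agent.Lib.MP_2a1a00_nt

open Complex MeasureTheory Set

/- The substitution `v = -d t - θ` (`Measure.integral_comp_mul_left`, `integral_sub_right_eq_self`). -/
theorem ker_subst (h : ℂ → ℂ) {d : ℝ} (hd : 0 < d) (c θ : ℝ) :
    (1 / (2 * Real.pi) : ℝ) * ∫ t : ℝ, h (c + (-d * t - θ : ℝ) * I) = (1 / d : ℝ) * Ln h c := by
  have h1 := Measure.integral_comp_mul_left (fun x : ℝ => h (c + (x - θ : ℝ) * I)) (-d)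
  have h2 := integral_sub_right_eq_self (μ := volume) (fun x : ℝ => h (c + x * I)) θ
  rw [h1, h2, Ln, abs_inv, abs_neg, abs_of_pos hd, real_smul]
  push_cast
  ring

theorem vker_int {h : ℂ → ℂ} {d : ℝ} (hd : 0 < d) (c θ : ℝ)
    (hi : Integrable fun v : ℝ => h (c + v * I)) :
    Integrable fun t : ℝ => h (c + (-d * t - θ : ℝ) * I) :=
  (hi.comp_sub_right θ).comp_mul_left' (R := -d) (neg_ne_zero.2 hd.ne')

theorem vker_osc {W : ℝ} (hW : 0 < W) (a : ℂ) {k : ℝ → ℝ} (hk : Continuous k) :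
    Integrable fun v : ℝ => (ph W v : ℂ) * exp (a * v) * exp (I * (k v : ℝ)) := by
  refine (ph_exp hW a).1.mul_bdd (c := 1) (Continuous.aestronglyMeasurable (by fun_prop))
    (Filter.Eventually.of_forall fun v => (norm_ei _).le)

namespace Sel

variable (F : Sel)

/- Let `d = deg`, `b = q / d ^ d`, `a = al d - (th / d) i`, `u = (log y - log b) / d`, `c = d (1 / 2 - σ) - 1 / 2`.
Then `s = a - zz s / d`, `zz (σ + t i) = c + (-d t - th) i` and
`exp ((1 / 2 - s) log b) * y ^ s = exp ((1 / 2 - a) log b) * px a y * exp (-zz s * u)`.  Use `ker_subst`, `me2_int`,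
`mel_mod`.  Take `th := -th / d`, `ka := exp (-log b / d)`, `ap := c₁ * exp ((1 / 2 - a) log b) / d`, similarly `am`;
`exp (u + v / d) = ka * (y * exp v) ^ (1 / d)`, `px a (y * exp v) = px a y * exp (a v)`. -/
theorem ker_mdl (hd : 0 < F.deg) (c₁ c₂ : ℂ) : ∃ P : Vo, 0 < P.ka ∧ ∀ σ W y : ℝ, σ < al F.deg →
    0 < W → 0 < y →
    Integrable (fun t : ℝ => F.mdl c₁ c₂ (σ + t * I) * ((y : ℂ) ^ (σ + t * I : ℂ) * gW W (σ + t * I))) ∧
      Ln (fun s => F.mdl c₁ c₂ s * ((y : ℂ) ^ s * gW W s)) σ =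
        ∫ v : ℝ, (ph W v : ℂ) * J0 P F.deg (y * Real.exp v) := by
  obtain ⟨d, hdd⟩ : ∃ d, d = F.deg := ⟨_, rfl⟩
  obtain ⟨Lb, hLb⟩ : ∃ Lb, Lb = Real.log (F.q / F.deg ^ F.deg) := ⟨_, rfl⟩
  obtain ⟨a, ha⟩ : ∃ a : ℂ, a = al d + (-F.th / d : ℝ) * I := ⟨_, rfl⟩
  have hd0 : 0 < d := hdd ▸ hd
  have hdc : (d : ℂ) ≠ 0 := ofReal_ne_zero.2 hd0.ne'
  refine ⟨⟨c₁ * exp ((1 / 2 - a) * Lb) / d, c₂ * exp ((1 / 2 - a) * Lb) / d, -F.th / d,
    Real.exp (-Lb / d)⟩, Real.exp_pos _, fun σ W y hσ hW hy => ?_⟩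
  rw [← hdd] at hσ ⊢
  obtain ⟨u, hu⟩ : ∃ u : ℝ, u = (Real.log y - Lb) / d := ⟨_, rfl⟩
  obtain ⟨c, hc⟩ : ∃ c : ℝ, c = d * (1 / 2 - σ) - 1 / 2 := ⟨_, rfl⟩
  have hc0 : 0 < c := by
    have h1 : d * σ < d * al d := mul_lt_mul_of_pos_left hσ hd0
    have h2 : d * al d = d / 2 - 1 / 2 := by
      unfold al
      field_simp
    rw [hc]
    linarith
  obtain ⟨h, hh⟩ : ∃ h : ℝ → ℂ → ℂ, h = fun (ς : ℝ) (z : ℂ) =>
      Gamma z * exp (-z * (u - (ς * (Real.pi / 2) : ℝ) * I)) * gW W (a - z / d) := ⟨_, rfl⟩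
  obtain ⟨K, hK⟩ : ∃ K : ℂ, K = exp ((1 / 2 - a) * Lb) * px a y := ⟨_, rfl⟩
  have key : ∀ t : ℝ, F.mdl c₁ c₂ (σ + t * I) * ((y : ℂ) ^ (σ + t * I : ℂ) * gW W (σ + t * I)) =
      K * c₁ * h 1 (c + (-d * t - F.th : ℝ) * I) + K * c₂ * h (-1) (c + (-d * t - F.th : ℝ) * I) := by
    intro t
    have hz : F.zz (σ + t * I) = c + (-d * t - F.th : ℝ) * I := by
      rw [Sel.zz, ← hdd, hc]
      push_cast
      ring
    obtain ⟨z, hz'⟩ : ∃ z : ℂ, z = c + (-d * t - F.th : ℝ) * I := ⟨_, rfl⟩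
    have hs : (σ + t * I : ℂ) = a - z / d := by
      rw [hz', ha, hc, al]
      push_cast
      field_simp
      ring
    rw [Sel.mdl, hz, ← hz', ← hLb, px_cpow _ hy, hs, hh, hK]
    simp only [px]
    have e1 : exp ((1 / 2 - (a - z / d)) * Lb) * exp (Real.pi / 2 * I * z) *
        exp ((a - z / d) * (Real.log y : ℝ)) = exp ((1 / 2 - a) * Lb) * exp (a * (Real.log y : ℝ)) *
        exp (-z * (u - (1 * (Real.pi / 2) : ℝ) * I)) := by
      rw [← exp_add, ← exp_add, ← exp_add, ← exp_add, hu]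
      congr 1
      push_cast
      field_simp
      ring
    have e2 : exp ((1 / 2 - (a - z / d)) * Lb) * exp (-(Real.pi / 2 * I * z)) *
        exp ((a - z / d) * (Real.log y : ℝ)) = exp ((1 / 2 - a) * Lb) * exp (a * (Real.log y : ℝ)) *
        exp (-z * (u - (-1 * (Real.pi / 2) : ℝ) * I)) := by
      rw [← exp_add, ← exp_add, ← exp_add, ← exp_add, hu]
      congr 1
      push_cast
      field_simp
      ring
    linear_combination c₁ * Gamma z * gW W (a - z / d) * e1 + c₂ * Gamma z * gW W (a - z / d) * e2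
  have hi : ∀ ς : ℝ, ς = 1 ∨ ς = -1 →
      Integrable fun t : ℝ => h ς (c + (-d * t - F.th : ℝ) * I) := by
    intro ς hς
    refine vker_int hd0 c F.th ?_
    rw [hh]
    refine me2_int hc0 hd0 hW a u (φ := ς * (Real.pi / 2)) ?_
    have := Real.pi_pos
    rcases hς with rfl | rfl
    · rw [one_mul, abs_of_pos (by positivity)]
    · rw [neg_one_mul, abs_neg, abs_of_pos (by positivity)]
  have h1 := (hi 1 (Or.inl rfl)).const_mul (K * c₁)
  have h2 := (hi (-1) (Or.inr rfl)).const_mul (K * c₂)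
  refine ⟨by simp only [key]; exact h1.add h2, ?_⟩
  have hm : ∀ ς : ℝ, ς = 1 ∨ ς = -1 → (1 / (2 * Real.pi) : ℝ) *
      ∫ t : ℝ, h ς (c + (-d * t - F.th : ℝ) * I) = (1 / d : ℝ) *
      ∫ v : ℝ, (ph W v : ℂ) * exp (a * v) * exp (I * (ς * Real.exp (u + v / d) : ℝ)) := by
    intro ς hς
    rw [ker_subst (h ς) hd0, hh]
    exact congrArg _ (mel_mod hc0 hd0 hW a u hς)
  have hr : ∀ v : ℝ, Real.exp (-Lb / d) * (y * Real.exp v) ^ (1 / d) = Real.exp (u + v / d) := by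
    intro v
    rw [Real.rpow_def_of_pos (by positivity), ← Real.exp_add, Real.log_mul hy.ne' (Real.exp_pos v).ne',
      Real.log_exp, hu]
    congr 1
    field_simp
    ring
  have hJ : ∀ v : ℝ, (ph W v : ℂ) * J0 ⟨c₁ * exp ((1 / 2 - a) * Lb) / d, c₂ * exp ((1 / 2 - a) * Lb) / d,
      -F.th / d, Real.exp (-Lb / d)⟩ d (y * Real.exp v) =
      K * c₁ * (1 / d : ℝ) * ((ph W v : ℂ) * exp (a * v) * exp (I * (1 * Real.exp (u + v / d) : ℝ))) +
      K * c₂ * (1 / d : ℝ) *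
        ((ph W v : ℂ) * exp (a * v) * exp (I * (-1 * Real.exp (u + v / d) : ℝ))) := by
    intro v
    simp only [J0, Vo.ex]
    rw [← ha, neg_mul, hr, px_mul _ hy (Real.exp_pos v), px_exp, hK, one_mul, neg_one_mul]
    push_cast
    ring
  have hk : ∀ ς : ℝ, Continuous fun v : ℝ => ς * Real.exp (u + v / d) := fun ς => by fun_prop
  simp only [Ln, key, hJ]
  rw [integral_add h1 h2, integral_add ((vker_osc hW a (hk 1)).const_mul _)
    ((vker_osc hW a (hk (-1))).const_mul _), integral_const_mul, integral_const_mul,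
    integral_const_mul, integral_const_mul]
  linear_combination K * c₁ * hm 1 (Or.inl rfl) + K * c₂ * hm (-1) (Or.inr rfl)

theorem vker_dec {σ W y : ℝ} (hσ : 0 < σ) (hW : 0 < W) (hy : 0 < y) :
    Dec (fun s => F.chi s / s * (y : ℂ) ^ s * gW W s) σ (1 / 2) := by
  obtain ⟨C, hC, h⟩ := F.chi_le_strip 0
  have hyc : (y : ℂ) ≠ 0 := ofReal_ne_zero.2 hy.ne'
  have hne : ∀ s ∈ St σ (1 / 2), s ≠ 0 := fun s hs h0 => by
    have := hs.1
    rw [h0, zero_re] at this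
    linarith
  refine dec_gW (C := C / σ * (1 + y)) (K := F.deg / 2) hW ?_ fun s hs => ?_
  · refine ((F.chi_diff.mono fun s hs => ?_).div differentiableOn_id hne).mul
      (differentiableOn_id.const_cpow (Or.inl hyc))
    have := hs.2
    simp only [mem_ofPred_eq]
    linarith
  · have hs1 := hs.1
    have hs2 := hs.2
    have h1 : ‖F.chi s‖ ≤ C * (1 + |s.im|) ^ (F.deg / 2) := by
      refine (h s ⟨by rw [neg_zero]; linarith, hs2⟩).trans (mul_le_mul_of_nonneg_left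
        (Real.rpow_le_rpow_of_exponent_le (le_add_of_nonneg_right (abs_nonneg _)) ?_) hC.le)
      have := F.deg_nonneg
      nlinarith
    have h2 : σ ≤ ‖s‖ := hs1.trans (re_le_norm s)
    have h3 : y ^ s.re ≤ 1 + y := by
      rcases le_total y 1 with h1 | h1
      · exact (Real.rpow_le_one hy.le h1 (by linarith)).trans (by linarith)
      · have := Real.rpow_le_rpow_of_exponent_le h1 (show s.re ≤ 1 by linarith)
        rw [Real.rpow_one] at this
        linarith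
    rw [norm_mul, norm_div, norm_cpow_eq_rpow_re_of_pos hy]
    calc ‖F.chi s‖ / ‖s‖ * y ^ s.re ≤ C * (1 + |s.im|) ^ (F.deg / 2) / σ * (1 + y) := by gcongr
      _ = _ := by ring

/- Move the line from `1 / 2` to `σ = 1 / 2 - 1 / d + η` (`Dec.shift`, `dec_gW`, `chi_le_strip`, `chi_diff`), subtract
the model (`model`, `ker_mdl`, `Ln_sub`), and bound the rest with `norm_Ln_le`: the exponent
`d (1 / 2 - σ) - 2 = -1 - d η` is below `-1` (`integrable_one_add_norm`), `‖gW W s‖ ≤ exp 1`. -/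
theorem kernel (hd : 2 ≤ F.deg) : ∃ P : Vo, 0 < P.ka ∧ ∀ η : ℝ, 0 < η → η < 1 / (2 * F.deg) →
    ∃ C : ℝ, 0 < C ∧ ∀ W y : ℝ, 1 ≤ W → 0 < y →
      ‖F.kr W y - ∫ v : ℝ, (ph W v : ℂ) * J0 P F.deg (y * Real.exp v)‖ ≤
        C * y ^ (1 / 2 - 1 / F.deg + η) := by
  have hd0 : 0 < F.deg := by linarith
  obtain ⟨c₁, c₂, hm⟩ := F.model hd0
  obtain ⟨P, hP, hk⟩ := F.ker_mdl hd0 c₁ c₂
  refine ⟨P, hP, fun η hη hη' => ?_⟩
  obtain ⟨σ, hσ⟩ : ∃ σ, σ = 1 / 2 - 1 / F.deg + η := ⟨_, rfl⟩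
  have h1 : 1 / F.deg ≤ 1 / 2 := one_div_le_one_div_of_le (by norm_num) hd
  have h2 : 1 / F.deg = 2 * (1 / (2 * F.deg)) := by field_simp
  have h3 : 0 < 1 / (2 * F.deg) := by positivity
  have hσ0 : 0 < σ := by linarith
  have hσ1 : σ < al F.deg := by
    unfold al
    linarith
  have hσ2 : σ ≤ 1 / 2 := by linarith
  obtain ⟨C, hC, hb⟩ := hm σ hσ0 hσ1
  have he : F.deg * (1 / 2 - σ) - 2 = -(1 + F.deg * η) := by
    rw [hσ]
    field_simp
    ring
  have hi : Integrable fun v : ℝ => (1 + ‖v‖) ^ (-(1 + F.deg * η)) := by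
    refine integrable_one_add_norm ?_
    have := mul_pos hd0 hη
    simp only [Module.finrank_self, Nat.cast_one]
    linarith
  obtain ⟨J, hJ⟩ : ∃ J, J = ∫ v : ℝ, (1 + ‖v‖) ^ (-(1 + F.deg * η)) := ⟨_, rfl⟩
  have hJ0 : 0 ≤ J := hJ ▸ integral_nonneg fun v => by positivity
  refine ⟨C * Real.exp 1 * (J + 1), by positivity, fun W y hW hy => ?_⟩
  have hW0 : 0 < W := by linarith
  have hD := F.vker_dec hσ0 hW0 hy
  obtain ⟨hk1, hk2⟩ := hk σ W y hσ1 hW0 hy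
  have e1 : F.kr W y = Ln (fun s => F.chi s / s * (y : ℂ) ^ s * gW W s) σ := by
    rw [hD.shift hσ2, Sel.kr]
    refine Ln_congr fun v => ?_
    ring
  rw [e1, ← hk2, ← Ln_sub (g₁ := fun s => F.chi s / s * (y : ℂ) ^ s * gW W s)
    (g₂ := fun s => F.mdl c₁ c₂ s * ((y : ℂ) ^ s * gW W s)) (hD.integrable le_rfl hσ2) hk1, ← hσ]
  refine (norm_Ln_le 0 (hi.const_mul (C * Real.exp 1 * y ^ σ)) fun v => ?_).trans ?_
  · rw [zero_add]
    have e2 : F.chi (σ + v * I) / (σ + v * I) * (y : ℂ) ^ (σ + v * I : ℂ) * gW W (σ + v * I) -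
        F.mdl c₁ c₂ (σ + v * I) * ((y : ℂ) ^ (σ + v * I : ℂ) * gW W (σ + v * I)) =
        (F.chi (σ + v * I) / (σ + v * I) - F.mdl c₁ c₂ (σ + v * I)) *
          ((y : ℂ) ^ (σ + v * I : ℂ) * gW W (σ + v * I)) := by ring
    have hg : ‖gW W (σ + v * I)‖ ≤ Real.exp 1 := by
      rw [norm_gW hW0, Real.exp_le_exp, div_le_one (by positivity)]
      simp only [add_re, ofReal_re, mul_re, I_re, mul_zero, ofReal_im, I_im, mul_one, sub_self, add_zero,
        add_im, mul_im, zero_add]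
      nlinarith [sq_nonneg v]
    have hb' := hb v
    rw [he] at hb'
    rw [e2, norm_mul, norm_mul, norm_cpow_eq_rpow_re_of_pos hy, Real.norm_eq_abs]
    simp only [add_re, ofReal_re, mul_re, I_re, mul_zero, ofReal_im, I_im, mul_one, sub_self, add_zero]
    calc _ ≤ C * (1 + |v|) ^ (-(1 + F.deg * η)) * (y ^ σ * Real.exp 1) := by gcongr
      _ = _ := by ring
  · rw [integral_const_mul, ← hJ]
    have : 0 < C * Real.exp 1 * y ^ σ := by positivity
    nlinarith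

end Sel

end Pool.Agent.Lib.MP_2a1a00_nt
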