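import Pool.Agent.Lib.MP_2a1a00_nt.V.F1
import Pool.Agent.Lib.MP_2a1a00_nt.V.Ker

/-! The truncated Voronoi formula. -/

namespace Pool.Agent.Lib.MP_2a1a00_nt

open Complex MeasureTheory Set

theorem vf2_cont (P : Vo) (d W : ℝ) {y : ℝ} (hy : 0 < y) :
    Continuous fun v : ℝ => (ph W v : ℂ) * J0 P d (y * Real.exp v) :=
  (continuous_ofReal.comp (continuous_ph W)).mul ((J0_cont P d).comp_continuous
    (continuous_const.mul Real.continuous_exp) fun v => mul_pos hy (Real.exp_pos v))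

/- Split the integral over the line into `Ioc (-1 / 5) (1 / 5)` and its complement (`integral_add_compl`;
integrable by `norm_J0_le`, `J0_cont`, `ph_exp_re`); `ph_tail` with `β = al d`. -/
theorem f2_cut (P : Vo) {d : ℝ} (hd : 2 ≤ d) (K : ℝ) : ∃ C : ℝ, 0 < C ∧ ∀ W y : ℝ, 1 ≤ W → 0 < y →
    ‖(∫ v : ℝ, (ph W v : ℂ) * J0 P d (y * Real.exp v)) - av W (J0 P d) y‖ ≤
      C * y ^ al d * W ^ (-K) := by
  obtain ⟨C, hC, h⟩ := ph_tail K
  obtain ⟨a1, a2, -⟩ := al_mem hd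
  have ha : 0 ≤ ‖P.ap‖ + ‖P.am‖ := by positivity
  refine ⟨(‖P.ap‖ + ‖P.am‖ + 1) * C, by positivity, fun W y hW hy => ?_⟩
  have hW0 : 0 < W := by linarith
  have hb : ∀ v : ℝ, ‖(ph W v : ℂ) * J0 P d (y * Real.exp v)‖ ≤
      (‖P.ap‖ + ‖P.am‖) * y ^ al d * (ph W v * Real.exp (al d * v)) := fun v => by
    have h1 := norm_J0_le P d (mul_pos hy (Real.exp_pos v))
    rw [Real.mul_rpow hy.le (Real.exp_pos v).le, ← Real.exp_mul, mul_comm v] at h1
    rw [norm_mul, Complex.norm_real, Real.norm_of_nonneg (ph_pos hW0 v).le]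
    calc _ ≤ ph W v * ((‖P.ap‖ + ‖P.am‖) * (y ^ al d * Real.exp (al d * v))) :=
          mul_le_mul_of_nonneg_left h1 (ph_pos hW0 v).le
      _ = _ := by ring
  have hi := ((ph_exp_re hW0 (al d)).1).const_mul ((‖P.ap‖ + ‖P.am‖) * y ^ al d)
  have hg : Integrable fun v : ℝ => (ph W v : ℂ) * J0 P d (y * Real.exp v) :=
    hi.mono' (vf2_cont P d W hy).aestronglyMeasurable (Filter.Eventually.of_forall hb)
  rw [av, intervalIntegral.integral_of_le (by norm_num),
    ← integral_add_compl (measurableSet_Ioc (a := (-1 / 5 : ℝ)) (b := 1 / 5)) hg,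
    add_sub_cancel_left]
  refine (norm_integral_le_of_norm_le hi.integrableOn (Filter.Eventually.of_forall hb)).trans ?_
  rw [integral_const_mul]
  have h2 := h W (al d) hW (abs_le.2 ⟨by linarith, by linarith⟩)
  have h3 : 0 ≤ y ^ al d := by positivity
  have h4 : 0 ≤ C * W ^ (-K) := by positivity
  calc _ ≤ (‖P.ap‖ + ‖P.am‖) * y ^ al d * (C * W ^ (-K)) :=
        mul_le_mul_of_nonneg_left h2 (by positivity)
    _ ≤ (‖P.ap‖ + ‖P.am‖ + 1) * y ^ al d * (C * W ^ (-K)) :=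
        mul_le_mul_of_nonneg_right (mul_le_mul_of_nonneg_right (by linarith) h3) h4
    _ = _ := by ring

namespace Sel

variable (F : Sel)

/- `intervalIntegral.integral_finset_sum`. -/
theorem f2_av (P : Vo) (W : ℝ) (N : ℕ) {x : ℝ} (hx : 0 < x) : av W (F.H P 0 N) x =
    ∑ n ∈ Finset.Ioc 0 N, (starRingEnd ℂ) (F.f n) / n * av W (J0 P F.deg) (n * x) := by
  simp only [av, H, Finset.mul_sum, ← intervalIntegral.integral_const_mul]
  rw [← intervalIntegral.integral_finsetSum]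
  · refine intervalIntegral.integral_congr fun v _ => Finset.sum_congr rfl fun n _ => ?_
    rw [mul_assoc (n : ℝ)]
    ring
  · intro n hn
    have h1 : (0 : ℝ) < n := Nat.cast_pos.2 (Finset.mem_Ioc.1 hn).1
    exact (continuous_const.mul (vf2_cont P F.deg W (mul_pos h1 hx))).intervalIntegrable _ _

/- Take `P` from `kernel`.  Let `d = deg`, `N = ⌊W ^ d * T ^ (ε - 1)⌋₊`, so `N T ≤ W ^ d T ^ ε ≤ (N + 1) T`, and
`N + 1 ≤ 2 T ^ (d + ε)`.  Choose `η < 1 / (2 d)` with `η (2 d + ε) ≤ ε / 2` and `A > η` with `ε A ≥ d / 2 + 1`.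
`B_split`: `((N + 1) x) ^ (-A) * W ^ (d (1 / 2 + A) + 1) ≤ T ^ (-ε A) * W ^ (d / 2 + 1) ≤ 1`, and `1 ≤ W ^ (d / 2 - 1)`.
`kernel`, with `σ = 1 / 2 - 1 / d + η ∈ (0, 1 / 2)`: the sum of `C n ^ (η - 1) * (n x) ^ σ` is at most
`C N ^ η * (2 N T) ^ σ` (`sum_rpow_head`), `(W ^ d T ^ ε) ^ σ ≤ W ^ (d / 2 - 1) * T ^ (d η + ε / 2)`.
`f2_cut` with `K = d + 2 ε`: `(n x) ^ al d ≤ 2 N T ≤ 2 W ^ d T ^ ε ≤ 2 W ^ K` as `T ≤ W ^ 2`, and the sum of
`n ^ (η - 1)` is at most `C N ^ η`. -/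
theorem vor (hd : 2 ≤ F.deg) : ∃ P : Vo, F.Vor P := by
  obtain ⟨P, hP, hk⟩ := F.kernel hd
  refine ⟨P, hP, fun ε hε => ?_⟩
  set d := F.deg with hdd
  have hd0 : 0 < d := by linarith
  obtain ⟨η, η0, η1, η2⟩ : ∃ η : ℝ, 0 < η ∧ η < 1 / (2 * d) ∧ η * (2 * d + ε) ≤ ε / 2 := by
    refine ⟨min (1 / (4 * d)) (ε / 2 / (2 * d + ε)), by positivity,
      (min_le_left _ _).trans_lt (one_div_lt_one_div_of_lt (by positivity) (by linarith)), ?_⟩
    rw [← le_div_iff₀ (by positivity)]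
    exact min_le_right _ _
  have η3 : 1 / (2 * d) ≤ 1 / 4 := one_div_le_one_div_of_le (by norm_num) (by linarith)
  have η4 : 1 / d = 2 * (1 / (2 * d)) := by field_simp
  obtain ⟨A, A0, A1⟩ : ∃ A : ℝ, η < A ∧ d / 2 + 1 ≤ A * ε := by
    refine ⟨η + 1 + (d / 2 + 1) / ε, by
      have : 0 < (d / 2 + 1) / ε := by positivity
      linarith, ?_⟩
    rw [add_mul, div_mul_cancel₀ _ hε.ne']
    have : 0 < (η + 1) * ε := by positivity
    linarith
  obtain ⟨C1, hC1, h1⟩ := F.B_split η0 A0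
  obtain ⟨C2, hC2, h2⟩ := F.ram' η0
  obtain ⟨C3, hC3, h3⟩ := hk η η0 η1
  obtain ⟨C4, hC4, h4⟩ := sum_rpow_head η0
  obtain ⟨C5, hC5, h5⟩ := f2_cut P hd (d + 2 * ε)
  obtain ⟨a1, a2, -⟩ := al_mem hd
  have hC2' : 0 < C2 := by linarith
  refine ⟨4 * C1 + C2 * C4 * (2 * C3 + 2 * C5), by positivity, fun T W hT hTW hWT x hx => ?_⟩
  have hT0 : 0 < T := by linarith
  have hW : 1 ≤ W := (Real.one_le_sqrt.2 hT).trans hTW
  have hW0 : 0 < W := by linarith
  have hx0 : 0 < x := hT0.trans_le hx.1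
  set t := Real.log T with ht
  set w := Real.log W with hw
  have w0 : 0 ≤ w := Real.log_nonneg hW
  have w1 : w ≤ t := Real.log_le_log hW0 hWT
  have w2 : t ≤ 2 * w := by
    have := Real.log_le_log (Real.sqrt_pos.2 hT0) hTW
    rw [Real.log_sqrt hT0.le] at this
    linarith
  have t0 : 0 ≤ t := w0.trans w1
  have eW : ∀ a : ℝ, W ^ a = Real.exp (w * a) := fun a => Real.rpow_def_of_pos hW0 a
  have eT : ∀ a : ℝ, T ^ a = Real.exp (t * a) := fun a => Real.rpow_def_of_pos hT0 a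
  have eT1 : T = Real.exp t := (Real.exp_log hT0).symm
  set Y := W ^ d * T ^ (ε - 1) with hY
  have eY : Y = Real.exp (w * d + t * (ε - 1)) := by rw [hY, eW, eT, Real.exp_add]
  have eZ : Y * T = Real.exp (w * d + t * ε) := by
    rw [eY, eT1, ← Real.exp_add]
    congr 1
    ring
  set N := ⌊Y⌋₊ with hN
  have Y0 : 0 ≤ Y := by rw [eY]; positivity
  have N1 : (N : ℝ) ≤ Y := Nat.floor_le Y0
  have N2 : Y < N + 1 := Nat.lt_floor_add_one Y
  have N0 : (0 : ℝ) ≤ N := Nat.cast_nonneg N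
  have N3 : (N : ℝ) ≤ Real.exp (t * (d + ε)) := by
    refine N1.trans ?_
    rw [eY, Real.exp_le_exp]
    linarith [mul_le_mul_of_nonneg_right w1 hd0.le]
  have N4 : 1 ≤ Real.exp (t * (d + ε)) := Real.one_le_exp (by positivity)
  have two : ∀ a : ℝ, a ≤ 1 → (2 : ℝ) ^ a ≤ 2 := fun a ha => by
    simpa using Real.rpow_le_rpow_of_exponent_le one_le_two ha
  set R := T ^ ε * W ^ (d / 2 - 1) with hR
  have eR : R = Real.exp (t * ε + w * (d / 2 - 1)) := by rw [hR, eW, eT, Real.exp_add]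
  have wd : 0 ≤ w * (d / 2 - 1) := mul_nonneg w0 (by linarith)
  have tη : t * (η * (2 * d + ε)) ≤ t * (ε / 2) := mul_le_mul_of_nonneg_left η2 t0
  have tη0 : 0 ≤ t * η * d := by positivity
  have tε0 : 0 ≤ t * ε := by positivity
  have N5 : (N : ℝ) ^ η ≤ Real.exp (t * (d + ε) * η) := by
    rw [Real.exp_mul]
    exact Real.rpow_le_rpow N0 N3 η0.le
  have N6 : Real.exp (t * (d + ε) * η) ≤ R := by
    rw [eR, Real.exp_le_exp]
    linarith
  have b1 : ((N : ℝ) + 1) ^ η ≤ 2 * R := by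
    calc ((N : ℝ) + 1) ^ η ≤ (2 * Real.exp (t * (d + ε))) ^ η :=
          Real.rpow_le_rpow (by positivity) (by linarith) η0.le
      _ = 2 ^ η * Real.exp (t * (d + ε) * η) := by
          rw [Real.mul_rpow (by norm_num) (by positivity), Real.exp_mul (t * (d + ε))]
      _ ≤ 2 * R := mul_le_mul (two η (by linarith)) N6 (by positivity) (by norm_num)
  have b2 : (((N : ℝ) + 1) * x) ^ (-A) * W ^ (d * (1 / 2 + A) + 1) ≤ 1 := by
    have e1 : (((N : ℝ) + 1) * x) ^ (-A) ≤ Real.exp ((w * d + t * ε) * (-A)) := by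
      rw [Real.exp_mul]
      refine Real.rpow_le_rpow_of_nonpos (Real.exp_pos _) ?_ (by linarith)
      rw [← eZ]
      exact mul_le_mul N2.le hx.1 hT0.le (by positivity)
    refine (mul_le_mul_of_nonneg_right e1 (by positivity)).trans ?_
    rw [eW, ← Real.exp_add, Real.exp_le_one_iff]
    have e2 : w * (d / 2 + 1) ≤ t * (A * ε) := mul_le_mul w1 A1 (by positivity) t0
    linarith
  have R0 : 0 < R := by rw [eR]; positivity
  have I1 := (h1 W x N hW hx0).trans (show C1 * ((N : ℝ) + 1) ^ η * (1 + (((N : ℝ) + 1) * x) ^ (-A) *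
      W ^ (d * (1 / 2 + A) + 1)) ≤ C1 * (2 * R) * 2 from
    mul_le_mul (mul_le_mul_of_nonneg_left b1 hC1.le) (by linarith) (by positivity) (by positivity))
  set S := Real.exp (w * (d / 2 - 1) + t * (d * η + ε / 2)) with hS
  have S1 : 1 ≤ S := Real.one_le_exp (by positivity)
  have I2 : ∀ n ∈ Finset.Ioc 0 N, ‖(starRingEnd ℂ) (F.f n) / n * F.kr W (n * x) -
      (starRingEnd ℂ) (F.f n) / n * av W (J0 P d) (n * x)‖ ≤
        C2 * ((2 * C3 + 2 * C5) * S) * (n : ℝ) ^ (η - 1) := by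
    intro n hn
    obtain ⟨n1, n2⟩ := Finset.mem_Ioc.1 hn
    have n3 : (1 : ℝ) ≤ n := Nat.one_le_cast.2 n1
    have n4 : (n : ℝ) ≤ N := Nat.cast_le.2 n2
    have n0 : (0 : ℝ) < n := by linarith
    have y0 : 0 < (n : ℝ) * x := mul_pos n0 hx0
    have y1 : 1 ≤ (n : ℝ) * x := one_le_mul_of_one_le_of_one_le n3 (hT.trans hx.1)
    have y2 : (n : ℝ) * x ≤ 2 * Real.exp (w * d + t * ε) := by
      rw [← eZ]
      calc (n : ℝ) * x ≤ Y * (2 * T) := mul_le_mul (n4.trans N1) hx.2 hx0.le Y0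
        _ = _ := by ring
    have c1 : ‖(starRingEnd ℂ) (F.f n) / n‖ ≤ C2 * (n : ℝ) ^ (η - 1) := by
      rw [norm_div, Complex.norm_conj, Complex.norm_natCast, Real.rpow_sub_one n0.ne',
        ← mul_div_assoc]
      exact div_le_div_of_nonneg_right (h2 n n1) n0.le
    have c2 : ((n : ℝ) * x) ^ (1 / 2 - 1 / d + η) ≤ 2 * S := by
      have σ0 : 0 ≤ 1 / 2 - 1 / d + η := by linarith
      have σ1 : 1 / 2 - 1 / d + η ≤ 1 / 2 := by linarith
      calc ((n : ℝ) * x) ^ (1 / 2 - 1 / d + η)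
          ≤ (2 * Real.exp (w * d + t * ε)) ^ (1 / 2 - 1 / d + η) := Real.rpow_le_rpow y0.le y2 σ0
        _ = 2 ^ (1 / 2 - 1 / d + η) * Real.exp ((w * d + t * ε) * (1 / 2 - 1 / d + η)) := by
            rw [Real.mul_rpow (by norm_num) (by positivity), Real.exp_mul (w * d + t * ε)]
        _ ≤ 2 * S := by
            refine mul_le_mul (two _ (by linarith)) (Real.exp_le_exp.2 ?_) (by positivity)
              (by norm_num)
            have e1 : w * d * (1 / 2 - 1 / d + η) = w * (d / 2 - 1) + w * (d * η) := by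
              field_simp
            have e2 : w * (d * η) ≤ t * (d * η) := mul_le_mul_of_nonneg_right w1 (by positivity)
            have e3 : t * ε * (1 / 2 - 1 / d + η) ≤ t * ε * (1 / 2) :=
              mul_le_mul_of_nonneg_left σ1 tε0
            rw [add_mul, e1]
            linarith
    have c3 : ((n : ℝ) * x) ^ al d * W ^ (-(d + 2 * ε)) ≤ 2 * S := by
      have e1 : ((n : ℝ) * x) ^ al d ≤ n * x := by
        simpa using Real.rpow_le_rpow_of_exponent_le y1 (show al d ≤ 1 by linarith)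
      have e2 : Real.exp (w * d + t * ε) * W ^ (-(d + 2 * ε)) ≤ 1 := by
        rw [eW, ← Real.exp_add, Real.exp_le_one_iff]
        linarith [mul_le_mul_of_nonneg_right w2 hε.le]
      calc ((n : ℝ) * x) ^ al d * W ^ (-(d + 2 * ε))
          ≤ 2 * Real.exp (w * d + t * ε) * W ^ (-(d + 2 * ε)) :=
            mul_le_mul_of_nonneg_right (e1.trans y2) (by positivity)
        _ ≤ 2 * S := by rw [mul_assoc]; linarith
    have c4 : ‖F.kr W (n * x) - av W (J0 P d) (n * x)‖ ≤ (2 * C3 + 2 * C5) * S := by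
      refine (norm_sub_le_norm_sub_add_norm_sub _ _ _).trans
        ((add_le_add (h3 W _ hW y0) (h5 W _ hW y0)).trans ?_)
      have e1 := mul_le_mul_of_nonneg_left c2 hC3.le
      have e2 := mul_le_mul_of_nonneg_left c3 hC5.le
      rw [mul_assoc C5]
      linarith
    rw [← mul_sub, norm_mul]
    calc _ ≤ C2 * (n : ℝ) ^ (η - 1) * ((2 * C3 + 2 * C5) * S) :=
          mul_le_mul c1 c4 (norm_nonneg _) (by positivity)
      _ = _ := by ring
  have I3 : ‖∑ n ∈ Finset.Ioc 0 N, (starRingEnd ℂ) (F.f n) / n * F.kr W (n * x) -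
      av W (F.H P 0 N) x‖ ≤ C2 * ((2 * C3 + 2 * C5) * S) * (C4 * (N : ℝ) ^ η) := by
    rw [f2_av F P W N hx0, ← Finset.sum_sub_distrib]
    refine (norm_sum_le_of_le _ I2).trans ?_
    rw [← Finset.mul_sum]
    refine mul_le_mul_of_nonneg_left ?_ (by positivity)
    have e : Finset.Ioc 0 N = Finset.Icc 1 N := by
      ext n
      simp only [Finset.mem_Ioc, Finset.mem_Icc]
      omega
    rw [e]
    exact h4 N
  have I4 : S * (N : ℝ) ^ η ≤ R := by
    refine (mul_le_mul_of_nonneg_left N5 (by positivity)).trans ?_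
    rw [hS, eR, ← Real.exp_add, Real.exp_le_exp]
    linarith
  refine (norm_sub_le_norm_sub_add_norm_sub _ _ _).trans ((add_le_add I1 I3).trans ?_)
  have I5 := mul_le_mul_of_nonneg_left I4 (show 0 ≤ C2 * C4 * (2 * C3 + 2 * C5) by positivity)
  rw [mul_assoc _ (T ^ ε)]
  linarith

end Sel

end Pool.Agent.Lib.MP_2a1a00_nt
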