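import Pool.Agent.Lib.MP_2a1a00_nt.V.St2
import Pool.Agent.Lib.MP_2a1a00_nt.V.Ga
import Pool.Agent.Lib.MP_2a1a00_nt.Res

/-! From short mean squares to pointwise bounds. -/

namespace Pool.Agent.Lib.MP_2a1a00_nt

open Complex MeasureTheory Set

theorem vcv_pow {β : ℝ} (hβ : 0 ≤ β) (u v : ℝ) :
    (1 + |u + v|) ^ β ≤ (1 + |u|) ^ β * (1 + |v|) ^ β := by
  rw [← Real.mul_rpow (by positivity) (by positivity)]
  refine Real.rpow_le_rpow (by positivity) ?_ hβ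
  nlinarith [abs_add_le u v, abs_nonneg u, abs_nonneg v, mul_nonneg (abs_nonneg u) (abs_nonneg v)]

theorem vcv_one {β : ℝ} (hβ : 0 ≤ β) (u : ℝ) : 1 ≤ (1 + |u|) ^ β :=
  Real.one_le_rpow (by linarith [abs_nonneg u]) hβ

theorem vcv_sum : Summable fun n : ℤ => Real.exp (-|(n : ℝ)|) := by
  refine Summable.of_nat_of_neg ?_ ?_ <;> simpa using Real.summable_exp_neg_nat

/- The integral over `[n, n + 1]` of `g (u + v) * exp (-v ^ 2 / 2)` is at most `exp (-(|n| - 1) ^ 2 / 2)`-type weight times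
`K (1 + |u + n|) ^ β ≤ K (1 + |u|) ^ β (1 + |n|) ^ β`; use `exp (-v ^ 2 / 2) ≤ C exp (-(β + 1) |n|)` on `[n, n + 1]` and
`MeasureTheory.hasSum_integral_iUnion` or `Real.integrable_of_summable_norm_Icc`, or `lintegral_iUnion_le`. -/
theorem cv_win {β : ℝ} (hβ : 0 ≤ β) : ∃ C : ℝ, 0 < C ∧ ∀ (g : ℝ → ℝ) (K u : ℝ), Continuous g →
    (∀ t, 0 ≤ g t) → (∀ x, ∫ t in x..x + 1, g t ≤ K * (1 + |x|) ^ β) →
    Integrable (fun v : ℝ => g (u + v) * Real.exp (-v ^ 2 / 2)) ∧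
      ∫ v : ℝ, g (u + v) * Real.exp (-v ^ 2 / 2) ≤ C * K * (1 + |u|) ^ β := by
  have hS : 0 ≤ ∑' n : ℤ, Real.exp (-|(n : ℝ)|) := tsum_nonneg fun n => (Real.exp_pos _).le
  refine ⟨Real.exp ((β + 1) ^ 2 / 2 + (β + 1)) * (∑' n : ℤ, Real.exp (-|(n : ℝ)|) + 1),
    by positivity, fun g K u hg h0 h => ?_⟩
  have hK : 0 ≤ K := by
    simpa using (intervalIntegral.integral_nonneg (by linarith) fun t _ => h0 t).trans (h 0)
  have hc : Continuous fun v : ℝ => g (u + v) * Real.exp (-v ^ 2 / 2) := by fun_prop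
  have h1 : ∀ n : ℤ, ∫ v in (n : ℝ)..n + 1, g (u + v) * Real.exp (-v ^ 2 / 2) ≤
      Real.exp ((β + 1) ^ 2 / 2 + (β + 1)) * K * (1 + |u|) ^ β * Real.exp (-|(n : ℝ)|) := by
    intro n
    have h2 : ∫ v in (n : ℝ)..n + 1, g (u + v) * Real.exp (-v ^ 2 / 2) ≤ ∫ v in (n : ℝ)..n + 1,
        g (u + v) * Real.exp ((β + 1) ^ 2 / 2 + (β + 1) - (β + 1) * |(n : ℝ)|) := by
      refine intervalIntegral.integral_mono_on (by linarith) (hc.intervalIntegrable _ _)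
        (Continuous.intervalIntegrable (by fun_prop) _ _) fun v hv =>
          mul_le_mul_of_nonneg_left (Real.exp_le_exp.2 ?_) (h0 _)
      have h3 : |(n : ℝ)| ≤ |v| + 1 := abs_le.2
        ⟨by linarith [hv.2, neg_abs_le v], by linarith [hv.1, le_abs_self v]⟩
      nlinarith [sq_nonneg (|v| - (β + 1)), sq_abs v]
    rw [intervalIntegral.integral_mul_const, intervalIntegral.integral_comp_add_left g u,
      ← add_assoc] at h2
    have h3 := shift_pow β n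
    rw [abs_of_nonneg hβ] at h3
    refine h2.trans ((mul_le_mul_of_nonneg_right ((h _).trans (mul_le_mul_of_nonneg_left
      ((vcv_pow hβ u n).trans (mul_le_mul_of_nonneg_left h3 (by positivity))) hK))
      (Real.exp_pos _).le).trans_eq ?_)
    rw [show (β + 1) ^ 2 / 2 + (β + 1) - (β + 1) * |(n : ℝ)| =
      (β + 1) ^ 2 / 2 + (β + 1) + -|(n : ℝ)| + -(β * |(n : ℝ)|) by ring, Real.exp_add, Real.exp_add,
      Real.exp_neg (β * _)]
    field_simp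
  have h2 := vcv_sum.mul_left (Real.exp ((β + 1) ^ 2 / 2 + (β + 1)) * K * (1 + |u|) ^ β)
  have hi : Integrable fun v : ℝ => g (u + v) * Real.exp (-v ^ 2 / 2) := by
    rw [← integrableOn_univ, ← iUnion_Ioc_intCast ℝ]
    refine integrableOn_iUnion_of_summable_integral_norm (fun n => hc.integrableOn_Ioc)
      (h2.of_nonneg_of_le (fun n => integral_nonneg fun _ => norm_nonneg _) fun n => ?_)
    refine le_trans (le_of_eq ?_) (h1 n)
    rw [intervalIntegral.integral_of_le (by linarith)]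
    exact integral_congr_ae (Filter.Eventually.of_forall fun v =>
      Real.norm_of_nonneg (mul_nonneg (h0 _) (Real.exp_pos _).le))
  refine ⟨hi, ?_⟩
  have h3 := hi.hasSum_intervalIntegral 0
  simp only [zero_add] at h3
  refine (hasSum_le h1 h3 h2.hasSum).trans ?_
  rw [tsum_mul_left]
  have h4 : 0 ≤ Real.exp ((β + 1) ^ 2 / 2 + (β + 1)) * K * (1 + |u|) ^ β := by positivity
  nlinarith

namespace Sel

variable (F : Sel)

theorem vcv_pt : ∃ A : ℝ, 0 < A ∧ ∀ s z : ℂ, s.re ≤ 3 / 4 → |z.re| ≤ 1 → s + z ≠ 1 →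
    ‖F.G (s + z) ^ 2 / (s - 1) ^ (2 * F.m) * gW 1 z‖ ≤
      A * (‖F.L (s + z)‖ ^ 2 * Real.exp (-z.im ^ 2 / 2)) := by
  obtain ⟨C, hC, h⟩ := gauss_absorb (2 * F.m : ℕ)
  refine ⟨5 ^ (2 * F.m) * Real.exp 1 * C, by positivity, fun s z hs hz hne => ?_⟩
  have h1 : 1 / 4 ≤ ‖s - 1‖ := by
    refine le_trans ?_ (abs_re_le_norm _)
    rw [sub_re, one_re, abs_sub_comm]
    exact le_trans (by linarith) (le_abs_self _)
  have h2 : s - 1 ≠ 0 := norm_pos_iff.1 (by linarith)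
  have h3 : s + z - 1 ≠ 0 := sub_ne_zero.2 hne
  have h4 : F.G (s + z) ^ 2 / (s - 1) ^ (2 * F.m) =
      F.L (s + z) ^ 2 * ((s + z - 1) / (s - 1)) ^ (2 * F.m) := by
    rw [L, div_pow, div_pow, ← pow_mul, mul_comm F.m]
    field_simp
  have h5 : ‖(s + z - 1) / (s - 1)‖ ≤ 5 * (1 + |z.im|) := by
    rw [norm_div, div_le_iff₀ (by linarith), add_sub_right_comm]
    have h6 := norm_le_abs_re_add_abs_im z
    nlinarith [norm_add_le (s - 1) z, abs_nonneg z.im]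
  have h6 : ‖gW 1 z‖ ≤ Real.exp 1 * Real.exp (-z.im ^ 2) := by
    rw [norm_gW one_pos, ← Real.exp_add]
    refine Real.exp_le_exp.2 ?_
    nlinarith [sq_abs z.re, abs_nonneg z.re]
  have h7 := h z.im
  rw [Real.rpow_natCast] at h7
  rw [h4, norm_mul, norm_mul, norm_pow, norm_pow]
  calc _ ≤ ‖F.L (s + z)‖ ^ 2 * (5 * (1 + |z.im|)) ^ (2 * F.m) *
        (Real.exp 1 * Real.exp (-z.im ^ 2)) := by gcongr
    _ = 5 ^ (2 * F.m) * Real.exp 1 * ‖F.L (s + z)‖ ^ 2 *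
        ((1 + |z.im|) ^ (2 * F.m) * Real.exp (-z.im ^ 2)) := by
      rw [mul_pow]
      ring
    _ ≤ 5 ^ (2 * F.m) * Real.exp 1 * ‖F.L (s + z)‖ ^ 2 * (C * Real.exp (-z.im ^ 2 / 2)) := by gcongr
    _ = _ := by ring

theorem vcv_int {a : ℝ} (h0 : 0 ≤ a) (h1 : a ≤ 3 / 4) (t : ℝ) :
    Integrable (fun v : ℝ => ‖F.L (a + (t + v : ℝ) * I)‖ ^ 2 * Real.exp (-v ^ 2 / 2)) := by
  obtain ⟨C, K, hC, hK, h⟩ := F.growth
  have hc : Continuous fun v : ℝ => F.L (a + (t + v : ℝ) * I) :=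
    continuous_iff_continuousAt.2 fun v =>
      ContinuousAt.comp (f := fun v : ℝ => (a + (t + v : ℝ) * I : ℂ))
        (F.differentiableAt_L fun h => by
          have := congrArg re h
          simp at this
          linarith).continuousAt (by fun_prop)
  refine ((integrable_gauss_poly (K * 2)).const_mul ((C * (1 + |t|) ^ K * 4 ^ F.m) ^ 2)).mono'
    ((hc.norm.pow 2).mul (by fun_prop)).aestronglyMeasurable
    (Filter.Eventually.of_forall fun v => ?_)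
  have h2 := h (a + (t + v : ℝ) * I) ⟨by simp; linarith, by simp; linarith⟩
  have h3 : (a + (t + v : ℝ) * I : ℂ).im = t + v := by simp
  have h4 : 1 / 4 ≤ ‖(a + (t + v : ℝ) * I : ℂ) - 1‖ := by
    refine le_trans ?_ (abs_re_le_norm _)
    have : ((a + (t + v : ℝ) * I : ℂ) - 1).re = a - 1 := by simp
    rw [this, abs_sub_comm]
    exact le_trans (by linarith) (le_abs_self _)
  have h5 : ‖F.L (a + (t + v : ℝ) * I)‖ ≤ C * (1 + |t|) ^ K * 4 ^ F.m * (1 + |v|) ^ K := by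
    rw [L, norm_div, norm_pow]
    rw [h3] at h2
    refine (div_le_div₀ (by positivity) (h2.trans (mul_le_mul_of_nonneg_left (vcv_pow hK t v) hC.le))
      (by positivity) (pow_le_pow_left₀ (by norm_num) h4 F.m)).trans_eq ?_
    rw [one_div, inv_pow, div_inv_eq_mul]
    ring
  rw [Real.norm_of_nonneg (by positivity), ← mul_assoc, Real.rpow_mul (by positivity),
    Real.rpow_two, ← mul_pow]
  gcongr

/- Let `s = σ + t i`.  `Dec.simple` on `St (-δ) 1` for `g z = G (s + z) ^ 2 * gW 1 z / (s - 1) ^ (2 m)` (`dec_gW`, `growth`), `g 0 = L s ^ 2`,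
`g z = L (s + z) ^ 2 * ((s + z - 1) / (s - 1)) ^ (2 m) * exp (z ^ 2)`, `‖(s + z - 1) / (s - 1)‖ ≤ 1 + 4 ‖z‖`; on `re z = 1` use
`lser_le`; `gauss_absorb`, `norm_Ln_le` with `t = 0`. -/
theorem cv_step {δ : ℝ} (h0 : 0 < δ) (h1 : δ ≤ 1 / 4) : ∃ C : ℝ, 0 < C ∧ ∀ σ t : ℝ, 1 / 2 ≤ σ →
    σ ≤ 3 / 4 →
    Integrable (fun v : ℝ => ‖F.L ((σ - δ : ℝ) + (t + v : ℝ) * I)‖ ^ 2 * Real.exp (-v ^ 2 / 2)) ∧
      ‖F.L (σ + t * I)‖ ^ 2 ≤
        C * (1 + ∫ v : ℝ, ‖F.L ((σ - δ : ℝ) + (t + v : ℝ) * I)‖ ^ 2 * Real.exp (-v ^ 2 / 2)) := by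
  obtain ⟨A, hA, h⟩ := F.vcv_pt
  obtain ⟨C, K, hC, hK, hG⟩ := F.growth
  obtain ⟨B, hB, hL⟩ := F.lser_le (σ := 3 / 2) (by norm_num)
  have hI : Integrable fun v : ℝ => Real.exp (-v ^ 2 / 2) := by simpa using integrable_gauss_poly 0
  have hJ : 0 ≤ ∫ v : ℝ, Real.exp (-v ^ 2 / 2) := integral_nonneg fun v => (Real.exp_pos _).le
  refine ⟨A * B ^ 2 * (∫ v : ℝ, Real.exp (-v ^ 2 / 2)) + A / δ, by positivity,
    fun σ t hσ hσ' => ?_⟩
  have hi := F.vcv_int (a := σ - δ) (by linarith) (by linarith) t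
  refine ⟨hi, ?_⟩
  have hd : Dec (fun z => F.G (σ + t * I + z) ^ 2 / (σ + t * I - 1) ^ (2 * F.m) * gW 1 z) (-δ) 1 := by
    refine dec_gW one_pos (C := (C * (1 + |t|) ^ K) ^ 2 / ‖(σ + t * I - 1 : ℂ)‖ ^ (2 * F.m))
      (K := K * 2) (((F.ent.comp (differentiable_id.const_add _)).pow 2).div_const _).differentiableOn
      fun z hz => ?_
    have h2 := hG (σ + t * I + z) ⟨by simp; linarith [hz.1], by simp; linarith [hz.2]⟩
    have h3 : (σ + t * I + z : ℂ).im = t + z.im := by simp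
    rw [h3] at h2
    have h4 := h2.trans (mul_le_mul_of_nonneg_left (vcv_pow hK t z.im) hC.le)
    rw [norm_div, norm_pow, norm_pow, div_mul_eq_mul_div, Real.rpow_mul (by positivity),
      Real.rpow_two, ← mul_pow, mul_assoc]
    gcongr
  have h2 := hd.simple (by linarith) one_pos
  have h3 : ‖F.L (σ + t * I)‖ ^ 2 =
      ‖F.G (σ + t * I + 0) ^ 2 / (σ + t * I - 1) ^ (2 * F.m) * gW 1 0‖ := by
    rw [← norm_pow, L, div_pow, ← pow_mul, mul_comm F.m]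
    simp [gW]
  have hs : (σ + t * I : ℂ).re ≤ 3 / 4 := by simpa using hσ'
  have h4 := norm_Ln_le (g := fun z =>
    F.G (σ + t * I + z) ^ 2 / (σ + t * I - 1) ^ (2 * F.m) * gW 1 z / z) (σ := 1) 0
    (hI.const_mul (A * B ^ 2)) fun v => by
      have h5 : (σ + t * I + ((1 : ℝ) + (0 + v : ℝ) * I) : ℂ).re = σ + 1 := by simp
      have h6 := h (σ + t * I) ((1 : ℝ) + (0 + v : ℝ) * I) hs (by simp) fun e => by
        rw [e, one_re] at h5
        linarith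
      have h7 : (((1 : ℝ) + (0 + v : ℝ) * I : ℂ)).im = v := by simp
      have h8 : 1 ≤ ‖((1 : ℝ) + (0 + v : ℝ) * I : ℂ)‖ := le_trans (by simp) (re_le_norm _)
      have h9 := hL _ (by rw [h5]; linarith)
      rw [h7, F.L_eq (by rw [h5]; linarith)] at h6
      rw [norm_div]
      refine (div_le_self (norm_nonneg _) h8).trans (h6.trans ?_)
      rw [mul_assoc]
      gcongr
  have h5 := norm_Ln_le (g := fun z =>
    F.G (σ + t * I + z) ^ 2 / (σ + t * I - 1) ^ (2 * F.m) * gW 1 z / z) (σ := -δ) 0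
    (hi.const_mul (A / δ)) fun v => by
      have h5 : (σ + t * I + ((-δ : ℝ) + (0 + v : ℝ) * I) : ℂ) = (σ - δ : ℝ) + (t + v : ℝ) * I := by
        push_cast
        ring
      have h6 := h (σ + t * I) ((-δ : ℝ) + (0 + v : ℝ) * I) hs
        (by simpa using (abs_of_pos h0).trans_le (by linarith)) fun e => by
          rw [h5] at e
          have := congrArg re e
          simp at this
          linarith
      have h7 : (((-δ : ℝ) + (0 + v : ℝ) * I : ℂ)).im = v := by simp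
      have h8 : δ ≤ ‖((-δ : ℝ) + (0 + v : ℝ) * I : ℂ)‖ :=
        le_trans (by simpa using le_abs_self δ) (abs_re_le_norm _)
      rw [h7] at h6
      rw [norm_div, div_mul_eq_mul_div A, ← h5]
      exact div_le_div₀ (by positivity) h6 h0 h8
  rw [integral_const_mul] at h4 h5
  have h6 : 0 ≤ ∫ v : ℝ, ‖F.L ((σ - δ : ℝ) + (t + v : ℝ) * I)‖ ^ 2 * Real.exp (-v ^ 2 / 2) :=
    integral_nonneg fun v => by positivity
  rw [h3, ← h2]
  refine (norm_sub_le _ _).trans ((add_le_add h4 h5).trans ?_)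
  have h7 : 0 ≤ A * B ^ 2 * ∫ v : ℝ, Real.exp (-v ^ 2 / 2) := by positivity
  have h8 : 0 ≤ A / δ := by positivity
  nlinarith [mul_nonneg h7 h6]

/- `cv_step` at `σ = 1 / 2 + δ` and `cv_win` give `‖L (1 / 2 + δ + u i)‖ ^ 2 ≤ C (1 + |u|) ^ β`; `chi_strip` and
`chi_le_strip` give `‖L (1 / 2 - δ + u i)‖ ^ 2 ≤ C (1 + |u|) ^ (β + 2 δ deg)`; then `cv_step` at `σ = 1 / 2` with
`1 + |t + v| ≤ (1 + |t|) (1 + |v|)` and `integrable_gauss_poly`. -/
theorem cv {β K : ℝ} (hβ : 0 ≤ β) (h : ∀ x, ∫ t in x..x + 1, F.w t ≤ K * (1 + |x|) ^ β) {ε : ℝ}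
    (hε : 0 < ε) : ∃ C : ℝ, 0 < C ∧ ∀ t : ℝ, F.w t ≤ C * (1 + |t|) ^ (β + ε) := by
  have hdeg := F.deg_nonneg
  obtain ⟨δ, h0, h1, h2⟩ : ∃ δ : ℝ, 0 < δ ∧ δ ≤ 1 / 4 ∧ F.deg * δ * 2 ≤ ε := by
    refine ⟨min (1 / 4) (ε / (2 * F.deg + 1)), by positivity, min_le_left _ _, ?_⟩
    have h1 := (le_div_iff₀ (by positivity)).1 (min_le_right (1 / 4) (ε / (2 * F.deg + 1)))
    have h2 : 0 < min (1 / 4) (ε / (2 * F.deg + 1)) := by positivity
    linarith
  have hK : 0 ≤ K := by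
    simpa using (intervalIntegral.integral_nonneg (by linarith) fun t _ => F.w_nonneg t).trans (h 0)
  obtain ⟨C₁, hC₁, H₁⟩ := F.cv_step h0 h1
  obtain ⟨C₂, hC₂, H₂⟩ := cv_win hβ
  obtain ⟨C₃, hC₃, H₃⟩ := F.chi_le_strip 0
  have s1 : ∀ u : ℝ, ‖F.L ((1 / 2 + δ : ℝ) + u * I)‖ ^ 2 ≤ C₁ * (1 + C₂ * K) * (1 + |u|) ^ β := by
    intro u
    have h3 := (H₁ (1 / 2 + δ) u (by linarith) (by linarith)).2
    have h4 := (H₂ F.w K u F.continuous_w F.w_nonneg h).2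
    have h5 : ((1 / 2 + δ - δ : ℝ) : ℂ) = 1 / 2 := by
      push_cast
      ring
    rw [h5] at h3
    refine h3.trans ?_
    rw [mul_assoc, add_mul, one_mul]
    exact mul_le_mul_of_nonneg_left (add_le_add (vcv_one hβ u) h4) hC₁.le
  have s2 : ∀ u : ℝ, ‖F.L ((1 / 2 - δ : ℝ) + u * I)‖ ^ 2 ≤
      C₃ ^ 2 * (C₁ * (1 + C₂ * K)) * (1 + |u|) ^ (β + ε) := by
    intro u
    have h3 : ((1 / 2 - δ : ℝ) + u * I : ℂ).re = 1 / 2 - δ := by simp
    have h4 : ((1 / 2 - δ : ℝ) + u * I : ℂ).im = u := by simp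
    have h5 := H₃ ((1 / 2 - δ : ℝ) + u * I) ⟨by rw [h3]; linarith, by rw [h3]; linarith⟩
    have h6 : 1 - (starRingEnd ℂ) ((1 / 2 - δ : ℝ) + u * I) = (1 / 2 + δ : ℝ) + u * I := by
      rw [map_add, map_mul, conj_ofReal, conj_ofReal, conj_I]
      push_cast
      ring
    have h7 : ((1 + |u|) ^ (F.deg * δ)) ^ 2 ≤ (1 + |u|) ^ ε := by
      rw [← Real.rpow_two, ← Real.rpow_mul (by positivity)]
      exact Real.rpow_le_rpow_of_exponent_le (by linarith [abs_nonneg u]) h2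
    rw [h3, h4, sub_sub_cancel] at h5
    rw [F.chi_strip (by rw [h3]; linarith) (by rw [h3]; linarith), h6, norm_mul, RCLike.norm_conj,
      mul_pow, Real.rpow_add (by positivity)]
    calc _ ≤ (C₃ * (1 + |u|) ^ (F.deg * δ)) ^ 2 * (C₁ * (1 + C₂ * K) * (1 + |u|) ^ β) := by
          gcongr
          exact s1 u
      _ ≤ C₃ ^ 2 * (1 + |u|) ^ ε * (C₁ * (1 + C₂ * K) * (1 + |u|) ^ β) := by
          rw [mul_pow]
          gcongr
      _ = _ := by ring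
  have hβε : 0 ≤ β + ε := by linarith
  have hJ : 0 ≤ ∫ v : ℝ, (1 + |v|) ^ (β + ε) * Real.exp (-v ^ 2 / 2) :=
    integral_nonneg fun v => by positivity
  refine ⟨C₁ * (1 + C₃ ^ 2 * (C₁ * (1 + C₂ * K)) *
    ∫ v : ℝ, (1 + |v|) ^ (β + ε) * Real.exp (-v ^ 2 / 2)), by positivity, fun t => ?_⟩
  obtain ⟨h3, h4⟩ := H₁ (1 / 2) t le_rfl (by norm_num)
  have h5 := integral_mono h3 ((integrable_gauss_poly (β + ε)).const_mul
    (C₃ ^ 2 * (C₁ * (1 + C₂ * K)) * (1 + |t|) ^ (β + ε))) fun v => by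
      refine (mul_le_mul_of_nonneg_right ((s2 (t + v)).trans (mul_le_mul_of_nonneg_left
        (vcv_pow hβε t v) (by positivity))) (Real.exp_pos _).le).trans_eq ?_
      ring
  rw [integral_const_mul] at h5
  have h6 : ((1 / 2 : ℝ) : ℂ) = 1 / 2 := by push_cast; ring
  rw [h6] at h4
  refine h4.trans ?_
  rw [mul_assoc, add_mul, one_mul]
  exact mul_le_mul_of_nonneg_left (add_le_add (vcv_one hβε t) (h5.trans_eq (by ring))) hC₁.le

end Sel

end Pool.Agent.Lib.MP_2a1a00_nt
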