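import Pool.Agent.Lib.MP_2a1a00_nt.V.Wd
import Pool.Agent.Lib.MP_2a1a00_nt.V.Cv
import Pool.Agent.Lib.MP_2a1a00_nt.Ms
import Pool.Agent.Lib.MP_2a1a00_nt.Cj
import Pool.Agent.Lib.MP_2a1a00_nt.En2
import Pool.Agent.Lib.MP_2a1a00_nt.Zeta

/-! The mean square of a product. -/

namespace Pool.Agent.Lib.MP_2a1a00_nt

open Complex MeasureTheory Set

namespace Sel

theorem QP.cj {F : Sel} (h : F.QP) : F.cj.QP := by
  obtain ⟨q, n₀, θ, hq, h⟩ := h
  have e : ∀ m : ℕ, (m : ℂ) ^ (((-θ : ℝ) : ℂ) * I) = (starRingEnd ℂ) ((m : ℂ) ^ ((θ : ℂ) * I)) := by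
    intro m
    have h1 := cj_cpow (m : ℝ) (Nat.cast_nonneg m) (((-θ : ℝ) : ℂ) * I)
    rw [ofReal_natCast] at h1
    rw [← h1]
    congr 2
    simp
  refine ⟨q, n₀, -θ, hq, fun n h1 h2 => ?_⟩
  have h3 := congrArg (starRingEnd ℂ) (h n h1 h2)
  rw [map_mul, map_mul] at h3
  rw [e, e]
  exact h3

/- See the proof of `exists_cj`. -/
theorem w_cj (F : Sel) (t : ℝ) : F.cj.w t = F.w (-t) := by
  have h : (starRingEnd ℂ) (1 / 2 + t * I) = 1 / 2 + (-t : ℝ) * I := by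
    apply Complex.ext <;> simp
  rw [w, w, ← h, ← RCLike.norm_conj (F.L _)]
  congr 2
  simp [Sel.L, Sel.cj]

theorem vm43_pos {F : Sel} (hF : F.deg ≤ 1) (hq : F.QP) {ε : ℝ} (hε : 0 < ε) : ∃ K : ℝ, 0 ≤ K ∧
    ∀ x, 1 ≤ x → ∫ t in x..x + 1, F.w t ≤ K * (1 + |x|) ^ (1 / 3 + ε) := by
  obtain ⟨C, hC, h⟩ := F.wp hF hq hε
  refine ⟨C, hC.le, fun x hx => ?_⟩
  have hx0 : 0 < x := by linarith
  have h1 : 1 ≤ x ^ (1 / 3 : ℝ) := Real.one_le_rpow hx (by norm_num)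
  have h2 : ∫ t in x..x + 1, F.w t ≤ ∫ t in x..x + x ^ (1 / 3 : ℝ), F.w t :=
    intervalIntegral.integral_mono_interval le_rfl (by linarith) (by linarith)
      (Filter.Eventually.of_forall F.w_nonneg) (F.continuous_w.intervalIntegrable _ _)
  refine h2.trans ((h x hx x ⟨le_rfl, by linarith⟩).trans ?_)
  rw [mul_assoc, ← Real.rpow_add hx0, add_comm ε]
  have := le_abs_self x
  gcongr
  linarith

/- For `x ≥ 1`: `wp` with `T = a = x`.  For `x ≤ -2`: `wp` for `F.cj` at `-x - 1` (`intervalIntegral.integral_comp_neg`).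
Otherwise `w` is bounded on `[-2, 2]`. -/
theorem wp_unit {F : Sel} (hF : F.deg ≤ 1) (hq : F.QP) {ε : ℝ} (hε : 0 < ε) : ∃ K : ℝ,
    ∀ x, ∫ t in x..x + 1, F.w t ≤ K * (1 + |x|) ^ (1 / 3 + ε) := by
  obtain ⟨K₁, h0, h1⟩ := vm43_pos hF hq hε
  obtain ⟨K₂, h0', h2⟩ := vm43_pos (F := F.cj) hF hq.cj hε
  have hi : ∀ a b, IntervalIntegrable F.w volume a b := F.continuous_w.intervalIntegrable
  have hM : 0 ≤ ∫ t in (-2 : ℝ)..2, F.w t :=
    intervalIntegral.integral_nonneg (by norm_num) fun t _ => F.w_nonneg t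
  refine ⟨K₁ + K₂ + ∫ t in (-2 : ℝ)..2, F.w t, fun x => ?_⟩
  have hx : 1 ≤ (1 + |x|) ^ (1 / 3 + ε) :=
    Real.one_le_rpow (le_add_of_nonneg_right (abs_nonneg x)) (by positivity)
  by_cases a1 : 1 ≤ x
  · refine (h1 x a1).trans ?_
    gcongr
    linarith
  by_cases a2 : x ≤ -2
  · have h3 := h2 (-(x + 1)) (by linarith)
    simp only [w_cj] at h3
    rw [intervalIntegral.integral_comp_neg F.w, neg_neg,
      show -(-(x + 1) + 1) = x by ring] at h3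
    refine h3.trans ?_
    have h4 : |-(x + 1)| ≤ |x| := by
      rw [abs_of_nonneg (by linarith), abs_of_nonpos (by linarith)]
      linarith
    gcongr
    linarith
  · push Not at a1 a2
    have h3 : ∫ t in x..x + 1, F.w t ≤ ∫ t in (-2 : ℝ)..2, F.w t :=
      intervalIntegral.integral_mono_interval a2.le (by linarith) (by linarith)
        (Filter.Eventually.of_forall F.w_nonneg) (hi _ _)
    nlinarith

/- `cv`, `wp_unit`, `prod_ext`, `ms` with `κ = 1`. -/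
theorem ms43 {F : Sel} (h : F.Split) : F.MS (4 / 3) := by
  obtain ⟨G, H, hq, hG, hH, hp⟩ := h
  intro ε hε
  have hε' : 0 < ε / 3 := by positivity
  obtain ⟨K, hK⟩ := wp_unit hG hq hε'
  obtain ⟨C₁, hC₁, h1⟩ := G.cv (by positivity) hK hε'
  obtain ⟨C₂, hC₂, h2⟩ := H.ms le_rfl (by linarith) _ hε'
  refine ⟨C₁ * 2 ^ (1 / 3 + ε / 3 + ε / 3) * C₂, by positivity, fun X hX => ?_⟩
  have hX0 : 0 < X := by linarith
  have hne : ∀ t : ℝ, (1 / 2 + t * I : ℂ) ≠ 1 := fun t e => by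
    have := congrArg re e
    norm_num at this
  have c1 : Continuous fun t : ℝ => ‖F.L (1 / 2 + t * I)‖ ^ 2 := F.continuous_L_half.norm.pow 2
  have c2 : Continuous fun t : ℝ => ‖H.L (1 / 2 + t * I)‖ ^ 2 := H.continuous_L_half.norm.pow 2
  calc ∫ t in -X..X, ‖F.L (1 / 2 + t * I)‖ ^ 2
      ≤ ∫ t in -X..X, C₁ * (2 * X) ^ (1 / 3 + ε / 3 + ε / 3) * ‖H.L (1 / 2 + t * I)‖ ^ 2 := by
        refine intervalIntegral.integral_mono_on (by linarith) (c1.intervalIntegrable _ _)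
          ((c2.const_mul _).intervalIntegrable _ _) fun t ht => ?_
        rw [prod_ext hp (hne t), norm_mul, mul_pow]
        refine mul_le_mul_of_nonneg_right ((h1 t).trans ?_) (sq_nonneg _)
        have := abs_le.2 ht
        gcongr
        linarith
    _ ≤ C₁ * (2 * X) ^ (1 / 3 + ε / 3 + ε / 3) * (C₂ * X ^ (1 + ε / 3)) := by
        rw [intervalIntegral.integral_const_mul]
        exact mul_le_mul_of_nonneg_left (h2 X hX) (by positivity)
    _ = _ := by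
        rw [Real.mul_rpow zero_le_two hX0.le,
          show 4 / 3 + ε = 1 / 3 + ε / 3 + ε / 3 + (1 + ε / 3) by ring,
          Real.rpow_add hX0 (1 / 3 + ε / 3 + ε / 3)]
        ring

end Sel

/- `zeta_pow` for `k = 1, 2, 3`; the coefficients of the first one are `1` for `n ≥ 1`: take `q = 1`, `θ = 0`. -/
theorem zeta_split : ∃ F₁ F₂ L : Sel, F₁.deg = 2 ∧ F₂.deg = 3 ∧ L.deg = 1 ∧ F₂.Split ∧ L.QP ∧
    ∀ s : ℂ, s ≠ 1 → F₁.L s = riemannZeta s ^ 2 ∧ F₂.L s = riemannZeta s ^ 3 ∧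
      L.L s = riemannZeta s := by
  obtain ⟨L, d1, f1, l1⟩ := zeta_pow 1
  obtain ⟨F₁, d2, -, l2⟩ := zeta_pow 2
  obtain ⟨F₂, d3, -, l3⟩ := zeta_pow 3
  have hq : L.QP := by
    refine ⟨1, 0, 0, one_pos, fun n hn _ => ?_⟩
    have hn0 : n ≠ 0 := by omega
    simp [f1, ArithmeticFunction.zeta_apply, hn0]
  rw [Nat.cast_one] at d1
  rw [Nat.cast_ofNat] at d2 d3
  refine ⟨F₁, F₂, L, d2, d3, d1, ⟨L, F₁, hq, d1.le, d2.le, fun s hs => ?_⟩, hq,
    fun s hs => ⟨l2 s hs, l3 s hs, by rw [l1 s hs, pow_one]⟩⟩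
  have h1 : s ≠ 1 := fun h => by simp [h] at hs
  rw [l1 s h1, l2 s h1, l3 s h1]
  ring

end Pool.Agent.Lib.MP_2a1a00_nt
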