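import Pool.Agent.Lib.MP_2a1a00_nt.V.Q2
import Pool.Agent.Lib.MP_2a1a00_nt.V.F2
import Pool.Agent.Lib.MP_2a1a00_nt.V.M43

/-! The main theorems on higher hybrid moments. -/

namespace Pool.Agent.Lib.MP_2a1a00_nt

open Complex MeasureTheory Set

theorem asy_mono {f : ℝ → ℝ} {c d : ℝ} (hcd : c ≤ d)
    (h : ∀ ε : ℝ, 0 < ε → ∃ C : ℝ, ∀ T : ℝ, 1 ≤ T → f T ≤ C * T ^ (c + ε)) (ε : ℝ) (hε : 0 < ε) :
    ∃ C : ℝ, ∀ T : ℝ, 1 ≤ T → f T ≤ C * T ^ (d + ε) := by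
  obtain ⟨C, h⟩ := h ε hε
  exact ⟨|C|, fun T hT => (h T hT).trans (mul_le_mul (le_abs_self C)
    (Real.rpow_le_rpow_of_exponent_le hT (by linarith)) (rpow_nn hT _) (abs_nonneg C))⟩

theorem bd_dsum {f : ℝ → ℂ} (hf : ∀ a b : ℝ, 1 ≤ a → 1 ≤ b → IntervalIntegrable f volume a b)
    {c d : ℝ} (hd : 0 < d) (hcd : c < d) (h : Bd (fun T => ‖∫ x in T..2 * T, f x‖) c) :
    ∃ C : ℝ, ∀ X : ℝ, 1 ≤ X → ‖∫ x in (1 : ℝ)..X, f x‖ ≤ C * X ^ d := by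
  obtain ⟨C, h⟩ := h.le hcd
  obtain ⟨C', -, h⟩ := dsum hf hd h
  exact ⟨C', h⟩

theorem poly_cont (R : Polynomial ℝ) :
    ContinuousOn (fun x : ℝ => ((R.eval (Real.log x) : ℝ) : ℂ)) (Ioi 0) :=
  continuous_ofReal.comp_continuousOn (R.continuous.comp_continuousOn
    (Real.continuousOn_log.mono fun _ hx => ne_of_gt hx))

theorem main_one {F₁ F₂ L : Sel} (h1 : F₁.deg = 2) (h2 : F₂.deg = 3) (hL : L.deg ≤ 1) {a b : ℕ}
    (hab : (b = 1 ∧ (a ≤ 3 ∨ (a ≤ 4 ∧ L.QP))) ∨ (a = 1 ∧ b = 2 ∧ F₂.Split)) :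
    ∃ C : ℝ, ∀ T : ℝ, 1 ≤ T → ‖∫ x in (1 : ℝ)..T, hy F₁ F₂ L a b x‖ ≤
      C * T ^ (1 + (a : ℝ) / 4 + b / 3 - 1 / 2000000) := by
  obtain ⟨P₁, p1⟩ := F₁.vor h1.ge
  obtain ⟨P₂, p2⟩ := F₂.vor (by linarith)
  have h0 : (0 : ℝ) ≤ a / 4 + b / 3 := by positivity
  refine bd_dsum (c := 1 + (a : ℝ) / 4 + b / 3 - 1 / 1680000)
    (fun _ _ ha hb => (hy_int F₁ F₂ L a b ha hb).1) (by linarith) (by linarith) ?_
  rcases hab with ⟨rfl, ha | ⟨ha, hq⟩⟩ | ⟨rfl, rfl, hs⟩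
  · have : (a : ℝ) ≤ 3 := by exact_mod_cast ha
    exact Sel.q_a1 hL h1 h2 p1 p2 (by omega) (Or.inl rfl) (Sel.p2_E6 hL h1 p1)
      (by push_cast; linarith)
  · have : (a : ℝ) ≤ 4 := by exact_mod_cast ha
    exact Sel.q_a1 hL h1 h2 p1 p2 ha (Or.inr rfl) (Sel.p2_E7 hL hq h1 p1) (by push_cast; linarith)
  · exact Sel.q_12 hL h1 h2 p1 p2 (Sel.ms43 hs)

theorem main_two {F₁ F₂ L : Sel} (h1 : F₁.deg = 2) (h2 : F₂.deg = 3) (hs : F₂.Split)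
    (hL : L.deg ≤ 1) (hq : L.QP) {C₁ C₂ : ℂ} {P Q : Polynomial ℝ}
    (hQ : Polynomial.C (13 / 6) * Q + Polynomial.derivative Q = P + Polynomial.derivative P)
    {δ₁ δ₂ η K : ℝ} (d1 : 0 < δ₁) (d2 : 0 < δ₂) (d3 : 0 < η)
    (a1 : ∀ ε : ℝ, 0 < ε → ∃ C : ℝ, ∀ T : ℝ, 1 ≤ T → ‖(∫ x in (1 : ℝ)..T, F₁.E x ^ 2) -
      C₁ * (T ^ (3 / 2 : ℝ) : ℝ)‖ ≤ C * T ^ (3 / 2 - δ₁ + ε))
    (a2 : ∀ ε : ℝ, 0 < ε → ∃ C : ℝ, ∀ T : ℝ, 1 ≤ T → ‖(∫ x in (1 : ℝ)..T, F₂.E x ^ 2) -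
      C₂ * (T ^ (5 / 3 : ℝ) : ℝ)‖ ≤ C * T ^ (5 / 3 - δ₂ + ε))
    (a3 : ∀ T : ℝ, 1 ≤ T → |(∫ x in (1 : ℝ)..T, L.w x) - T * P.eval (Real.log T)| ≤
      K * T ^ (1 - η)) :
    ∃ δ : ℝ, 0 < δ ∧ ∃ C : ℝ, ∀ T : ℝ, 1 ≤ T → ‖(∫ x in (1 : ℝ)..T, hy F₁ F₂ L 2 2 x) -
      5 / 2 * C₁ * C₂ * (T ^ (13 / 6 : ℝ) * Q.eval (Real.log T) : ℝ)‖ ≤ C * T ^ (13 / 6 - δ) := by
  obtain ⟨P₁, p1⟩ := F₁.vor h1.ge
  obtain ⟨P₂, p2⟩ := F₂.vor (by linarith)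
  have hM := Sel.ms43 hs
  obtain ⟨γ, g0, g1, g2⟩ : ∃ γ : ℝ, 0 < γ ∧ γ ≤ 1 / 10000 ∧ 3 * γ ≤ δ₂ :=
    ⟨min (1 / 10000) (δ₂ / 3), by positivity, min_le_left _ _, by
      linarith [min_le_right (1 / 10000) (δ₂ / 3)]⟩
  obtain ⟨δ, e0, e1, e2, e3⟩ : ∃ δ : ℝ, 0 < δ ∧ δ ≤ γ / 168 ∧ δ ≤ δ₁ ∧ δ ≤ η :=
    ⟨min (γ / 168) (min δ₁ η), by positivity, min_le_left _ _,
      (min_le_right _ _).trans (min_le_left _ _), (min_le_right _ _).trans (min_le_right _ _)⟩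
  have hg : ContinuousOn (fun x => 5 / 2 * C₁ * C₂ * px (7 / 6 : ℝ) x) (Ioi 0) :=
    continuousOn_const.mul (px_cont _)
  obtain ⟨B, s1, s2⟩ := Sel.q2_prim (P₁ := P₁) (P₂ := P₂) (C₁ := C₁) (C₂ := C₂) (δ := δ)
    (δ₂ := 3 * γ) h1 h2 p1 p2 hM (by linarith)
    (by rw [show (1 + 1 / 2 : ℝ) = 3 / 2 by norm_num]; exact asy_mono (by linarith) a1)
    (by linarith) γ (by linarith) g1 (by linarith) g0.le
    (by rw [show (1 + 2 / 3 : ℝ) = 5 / 3 by norm_num]; exact asy_mono (by linarith) a2)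
  obtain ⟨K₁, k1, k2⟩ := Sel.Hs_pow h1.ge P₁ γ 2
  obtain ⟨K₂, k3, k4⟩ := Sel.Hs_pow (F := F₂) (by linarith) P₂ (1 / 100) 2
  rw [h1, al_two] at k1
  rw [h2, al_three] at k3
  have k5 := ((bd_two ((7 / 6 : ℝ) : ℂ).re).const_mul (K := 1 + ‖((7 / 6 : ℝ) : ℂ)‖)
    (by positivity)).const_mul (norm_nonneg (5 / 2 * C₁ * C₂))
  have s3 := L.smooth_bd (c := 13 / 6 - δ) (p := 7 / 6 + 1 / 10) hL (m := 1 / 2) (by norm_num)
    (by norm_num) (fun T hT => ((k2 T hT).mul (k4 T hT) (rpow_nn hT _)).sub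
      ((sm_px (by linarith) (5 / 2 * C₁ * C₂) (β := (7 / 6 : ℝ)) (by rw [ofReal_re]; norm_num)).mono
        le_rfl (by positivity) (by
          rw [one_div, ← Real.rpow_neg_one]
          exact Real.rpow_le_rpow_of_exponent_le hT (by norm_num))))
    ((((k1.mul k3 fun T hT => (k4 T hT).nonneg hT).const_mul zero_le_two).mono
      (by push_cast; linarith)).add (k5.mono (by rw [ofReal_re]; norm_num))) s1 s2 (by linarith)
  have s4 := Sel.q_two (a := 2) (c := 13 / 6 - δ) hL h1 h2 p1 p2 hM g0.le g1 (by norm_num) (Or.inr rfl)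
    (Sel.p2_E7 hL hq h1 p1) (by norm_num) (fun T hT => bm_of hT hg) (by push_cast; linarith) s3
  have cw : Continuous fun x => (L.w x : ℂ) := continuous_ofReal.comp L.continuous_w
  have cR := poly_cont (P + Polynomial.derivative P)
  have s5 := pb_of (c := 1 - δ) (u := fun x => (L.w x : ℂ))
    (U := fun x => ((x * P.eval (Real.log x) : ℝ) : ℂ)) (by linarith)
    (fun a b _ _ => cw.intervalIntegrable a b) cR (fun a b ha hb => by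
      have := poly_int (c := 1) ha hb P
      simp only [sub_self, Real.rpow_zero, one_mul, Real.rpow_one, map_one] at this
      rw [intervalIntegral.integral_ofReal, this, ofReal_sub]) (asy_mono (c := 1 - η)
      (by linarith) fun ε hε => ⟨|K|, fun T hT => by
        rw [intervalIntegral.integral_ofReal, ← ofReal_sub, norm_real]
        exact (a3 T hT).trans (mul_le_mul (le_abs_self K) (Real.rpow_le_rpow_of_exponent_le hT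
          (by linarith)) (rpow_nn hT _) (abs_nonneg K))⟩)
  obtain ⟨B', s6, s7⟩ := s5.px (fun T hT => (cw.continuousOn.sub cR).mono fun _ hx => p1_pos hT hx)
    (D := fun _ => 5 / 2 * C₁ * C₂) (bd_const _) (β := (7 / 6 : ℝ)) (by rw [ofReal_re]; norm_num)
  rw [ofReal_re] at s6
  have s8 := bd_split (k := fun _ x => hy F₁ F₂ L 2 2 x - 5 / 2 * C₁ * C₂ * px (7 / 6 : ℝ) x *
    ((P + Polynomial.derivative P).eval (Real.log x) : ℝ)) (fun T hT =>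
      ((((F₁.bm_E hT).pow 2).mul ((F₂.bm_E hT).pow 2)).sub (bm_of hT hg)).mul (L.bm_w T))
    (fun T hT => bm_of hT (hg.mul (cw.continuousOn.sub cR))) s4
    ((s6.mono (by linarith)).of_le fun T hT => s7 T hT _ ⟨by linarith, le_rfl⟩) fun T x => by
      rw [hy, ← Sel.w]
      simp only [Pi.mul_apply, Pi.sub_apply]
      ring
  have hi : ∀ a b : ℝ, 1 ≤ a → 1 ≤ b → IntervalIntegrable (fun x => 5 / 2 * C₁ * C₂ *
      px (7 / 6 : ℝ) x * ((P + Polynomial.derivative P).eval (Real.log x) : ℝ)) volume a b :=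
    fun a b ha hb => ((hg.mul cR).mono fun x hx =>
      lt_of_lt_of_le one_pos ((le_min ha hb).trans hx.1)).intervalIntegrable
  obtain ⟨C, hC⟩ := bd_dsum (d := 13 / 6 - δ / 2) (fun a b ha hb =>
    (hy_int F₁ F₂ L 2 2 ha hb).1.sub (hi a b ha hb)) (by linarith) (by linarith) s8
  refine ⟨δ / 2, half_pos e0, C + ‖5 / 2 * C₁ * C₂ * (Q.eval 0 : ℝ)‖, fun T hT => ?_⟩
  have t1 := hC T hT
  have t2 : ∫ x in (1 : ℝ)..T, 5 / 2 * C₁ * C₂ * px (7 / 6 : ℝ) x *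
      ((P + Polynomial.derivative P).eval (Real.log x) : ℝ) =
      5 / 2 * C₁ * C₂ * (T ^ (13 / 6 : ℝ) * Q.eval (Real.log T) : ℝ) -
        5 / 2 * C₁ * C₂ * (Q.eval 0 : ℝ) := by
    have := poly_int (c := 13 / 6) one_pos (lt_of_lt_of_le one_pos hT) Q
    rw [hQ, Real.one_rpow, one_mul, Real.log_one] at this
    rw [← mul_sub, ← ofReal_sub, ← this, ← intervalIntegral.integral_ofReal,
      ← intervalIntegral.integral_const_mul]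
    refine intervalIntegral.integral_congr fun x hx => ?_
    have h0 : 0 < x := lt_of_lt_of_le one_pos ((le_min le_rfl hT).trans hx.1)
    simp only [px_real _ h0, ofReal_mul, mul_assoc]
    norm_num
  rw [intervalIntegral.integral_sub (hy_int F₁ F₂ L 2 2 le_rfl hT).1 (hi 1 T le_rfl hT), t2,
    ← sub_add] at t1
  have t3 := norm_sub_le ((∫ x in (1 : ℝ)..T, hy F₁ F₂ L 2 2 x) - 5 / 2 * C₁ * C₂ *
    (T ^ (13 / 6 : ℝ) * Q.eval (Real.log T) : ℝ) + 5 / 2 * C₁ * C₂ * (Q.eval 0 : ℝ))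
    (5 / 2 * C₁ * C₂ * (Q.eval 0 : ℝ))
  rw [add_sub_cancel_right] at t3
  have t4 := le_mul_of_one_le_right (norm_nonneg (5 / 2 * C₁ * C₂ * (Q.eval 0 : ℝ)))
    (Real.one_le_rpow hT (show 0 ≤ 13 / 6 - δ / 2 by linarith))
  rw [add_mul]
  linarith

end Pool.Agent.Lib.MP_2a1a00_nt
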