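import Pool.Agent.Lib.MP_2a1a00_nt.V.Ga
import Pool.Agent.Lib.MP_2a1a00_nt.Nm

/-! Multiplicative averages. -/

namespace Pool.Agent.Lib.MP_2a1a00_nt

open Complex MeasureTheory Set

variable {h g : ℝ → ℂ} {W T : ℝ}

theorem av_mass (hW : 0 < W) : ∫ v in (-1 / 5 : ℝ)..(1 / 5), ph W v ≤ 1 := by
  rw [intervalIntegral.integral_of_le (by norm_num), ← (ph_int hW).2]
  exact setIntegral_le_integral (ph_int hW).1 (Filter.Eventually.of_forall fun v => (ph_pos hW v).le)

theorem av_mem {v : ℝ} (hv : v ∈ Icc (-1 / 5 : ℝ) (1 / 5)) :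
    1 / 2 ≤ Real.exp v ∧ Real.exp v ≤ 2 := by
  have h1 := Real.add_one_le_exp v
  have h2 := Real.add_one_le_exp (-v)
  have h3 : Real.exp v * Real.exp (-v) = 1 := by rw [← Real.exp_add, add_neg_cancel, Real.exp_zero]
  have h4 := Real.exp_pos v
  obtain ⟨ha, hb⟩ := hv
  refine ⟨by linarith, by nlinarith⟩

theorem vav_cont (hh : ContinuousOn h (Ioi 0)) {x : ℝ} (hx : 0 < x) :
    Continuous fun v : ℝ => h (x * Real.exp v) :=
  hh.comp_continuous (by fun_prop) fun v => mul_pos hx (Real.exp_pos v)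

theorem vav_cont2 (hh : ContinuousOn h (Ioi 0)) {x : ℝ} (hx : 0 < x) :
    Continuous fun v : ℝ => (ph W v : ℂ) * h (x * Real.exp v) :=
  (continuous_ofReal.comp (continuous_ph W)).mul (vav_cont hh hx)

theorem vav_norm (hW : 0 < W) (h : ℝ → ℂ) (x : ℝ) :
    ‖av W h x‖ ≤ ∫ v in (-1 / 5 : ℝ)..(1 / 5), ph W v * ‖h (x * Real.exp v)‖ := by
  refine (intervalIntegral.norm_integral_le_integral_norm (by norm_num)).trans (le_of_eq ?_)
  refine intervalIntegral.integral_congr fun v _ => ?_
  simp only [norm_mul, norm_real, Real.norm_eq_abs, abs_of_pos (ph_pos hW v)]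

theorem vav_avg (hW : 0 < W) {f : ℝ → ℝ} (hf : Continuous f) {Z : ℝ} (h0 : 0 ≤ Z)
    (hZ : ∀ v ∈ Icc (-1 / 5 : ℝ) (1 / 5), f v ≤ Z) :
    ∫ v in (-1 / 5 : ℝ)..(1 / 5), ph W v * f v ≤ Z := by
  calc _ ≤ ∫ v in (-1 / 5 : ℝ)..(1 / 5), ph W v * Z :=
        intervalIntegral.integral_mono_on (by norm_num)
          (((continuous_ph W).mul hf).intervalIntegrable _ _)
          (((continuous_ph W).mul continuous_const).intervalIntegrable _ _)
          fun v hv => mul_le_mul_of_nonneg_left (hZ v hv) (ph_pos hW v).le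
    _ = (∫ v in (-1 / 5 : ℝ)..(1 / 5), ph W v) * Z := intervalIntegral.integral_mul_const _ _
    _ ≤ Z := mul_le_of_le_one_left h0 (av_mass hW)

theorem av_add (hh : ContinuousOn h (Ioi 0)) (hg : ContinuousOn g (Ioi 0)) {x : ℝ} (hx : 0 < x) :
    av W (fun y => h y + g y) x = av W h x + av W g x := by
  simp only [av, mul_add]
  exact intervalIntegral.integral_add ((vav_cont2 hh hx).intervalIntegrable _ _)
    ((vav_cont2 hg hx).intervalIntegrable _ _)

/- `intervalIntegral.continuous_parametric_intervalIntegral_of_continuous'` after the substitution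
`x = exp u`, or `continuousOn_of_dominated`. -/
theorem av_cont (hh : ContinuousOn h (Ioi 0)) : ContinuousOn (av W h) (Ioi 0) := by
  have hk : Continuous fun u : ℝ => h (Real.exp u) :=
    hh.comp_continuous Real.continuous_exp fun u => Real.exp_pos u
  have hF : Continuous fun u : ℝ =>
      ∫ v in (-1 / 5 : ℝ)..(1 / 5), (ph W v : ℂ) * h (Real.exp (u + v)) := by
    refine intervalIntegral.continuous_parametric_intervalIntegral_of_continuous'
      (f := fun u v : ℝ => (ph W v : ℂ) * h (Real.exp (u + v))) ?_ _ _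
    exact (continuous_ofReal.comp ((continuous_ph W).comp continuous_snd)).mul
      (hk.comp (continuous_fst.add continuous_snd))
  refine (hF.comp_continuousOn (Real.continuousOn_log.mono fun x (hx : x ∈ Ioi 0) =>
    ne_of_gt hx)).congr fun x hx => ?_
  simp only [av, Function.comp_apply, Real.exp_add, Real.exp_log hx]

theorem av_sum (hW : 0 < W) (hh : ContinuousOn h (Ioi 0)) {X : Finset ℝ} (hX : ∀ x ∈ X, 0 < x) {Z : ℝ}
    (hZ : ∀ ρ ∈ Icc (1 / 2 : ℝ) 2, ∑ x ∈ X, ‖h (x * ρ)‖ ≤ Z) : ∑ x ∈ X, ‖av W h x‖ ≤ Z := by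
  have h0 : 0 ≤ Z :=
    (Finset.sum_nonneg fun _ _ => norm_nonneg _).trans (hZ 1 ⟨by norm_num, by norm_num⟩)
  calc _ ≤ ∑ x ∈ X, ∫ v in (-1 / 5 : ℝ)..(1 / 5), ph W v * ‖h (x * Real.exp v)‖ :=
        Finset.sum_le_sum fun x _ => vav_norm hW h x
    _ = ∫ v in (-1 / 5 : ℝ)..(1 / 5), ph W v * ∑ x ∈ X, ‖h (x * Real.exp v)‖ := by
        simp only [Finset.mul_sum]
        exact (intervalIntegral.integral_finsetSum (f := fun x v => ph W v * ‖h (x * Real.exp v)‖)
          fun x hx =>
            ((continuous_ph W).mul (vav_cont hh (hX x hx)).norm).intervalIntegrable _ _).symm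
    _ ≤ Z := vav_avg hW (continuous_finsetSum _ fun x hx => (vav_cont hh (hX x hx)).norm) h0
        fun v hv => hZ _ (av_mem hv)

theorem vav_mem (hT : 0 < T) {x ρ : ℝ} (hx : x ∈ Icc T (2 * T)) (hρ : ρ ∈ Icc (1 / 2 : ℝ) 2) :
    x * ρ ∈ Icc (T / 2) (4 * T) := by
  obtain ⟨h1, h2⟩ := hx
  obtain ⟨h3, h4⟩ := hρ
  constructor <;> nlinarith

theorem av_sup (hW : 0 < W) (hT : 0 < T) (hh : ContinuousOn h (Ioi 0)) {Z : ℝ}
    (hZ : ∀ y ∈ Icc (T / 2) (4 * T), ‖h y‖ ≤ Z) {x : ℝ} (hx : x ∈ Icc T (2 * T)) :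
    ‖av W h x‖ ≤ Z := by
  have := av_sum (X := {x}) (Z := Z) hW hh (by simpa using hT.trans_le hx.1)
    fun ρ hρ => by simpa using hZ _ (vav_mem hT hx hρ)
  simpa using this

theorem vav_sq (hW : 0 < W) {f : ℝ → ℝ} (hf : Continuous f) :
    (∫ v in (-1 / 5 : ℝ)..(1 / 5), ph W v * f v) ^ 2 ≤
      ∫ v in (-1 / 5 : ℝ)..(1 / 5), ph W v * f v ^ 2 := by
  obtain ⟨t, ht⟩ : ∃ t, t = ∫ v in (-1 / 5 : ℝ)..(1 / 5), ph W v * f v := ⟨_, rfl⟩
  have c := continuous_ph W
  have h1 : ∫ v in (-1 / 5 : ℝ)..(1 / 5), 2 * t * (ph W v * f v) ≤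
      ∫ v in (-1 / 5 : ℝ)..(1 / 5), (t ^ 2 * ph W v + ph W v * f v ^ 2) := by
    refine intervalIntegral.integral_mono_on (by norm_num)
      ((continuous_const.mul (c.mul hf)).intervalIntegrable _ _)
      (((continuous_const.mul c).add (c.mul (hf.pow 2))).intervalIntegrable _ _) fun v _ => ?_
    have := mul_nonneg (ph_pos hW v).le (sq_nonneg (t - f v))
    nlinarith
  rw [intervalIntegral.integral_add (f := fun v => t ^ 2 * ph W v) (g := fun v => ph W v * f v ^ 2)
    ((continuous_const.mul c).intervalIntegrable _ _)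
    ((c.mul (hf.pow 2)).intervalIntegrable _ _), intervalIntegral.integral_const_mul,
    intervalIntegral.integral_const_mul, ← ht] at h1
  rw [← ht]
  have h2 := mul_le_mul_of_nonneg_left (av_mass hW) (sq_nonneg t)
  nlinarith

theorem vav_swap {f : ℝ → ℝ → ℝ} (hf : Continuous (Function.uncurry f)) {a b c d : ℝ}
    (hcd : c ≤ d) :
    ∫ x in a..b, ∫ v in c..d, f x v = ∫ v in c..d, ∫ x in a..b, f x v := by
  simp only [intervalIntegral.integral_of_le hcd]
  refine intervalIntegral_integral_swap ?_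
  rw [Measure.prod_restrict]
  exact (hf.continuousOn.integrableOn_compact (isCompact_uIcc.prod isCompact_Icc)).mono_set
    (prod_mono uIoc_subset_uIcc Ioc_subset_Icc_self)

/- `‖av W h x‖ ^ 2 ≤ ∫ ph W v * ‖h (x exp v)‖ ^ 2` (integrate `2 t a ≤ t ^ 2 + a ^ 2` against `ph W` with
`t = ∫ ph W v * ‖h (x exp v)‖`, `av_mass`); Fubini; `intervalIntegral.integral_comp_mul_right`, factor `exp (-v) ≤ 2`. -/
theorem av_sq (hW : 0 < W) (hT : 0 < T) (hh : ContinuousOn h (Ioi 0)) :
    Sq (av W h) T ≤ 2 * ∫ x in T / 2..4 * T, ‖h x‖ ^ 2 := by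
  obtain ⟨G, hG⟩ : ∃ G : ℝ → ℝ, G = fun y => ‖h (max y (T / 2))‖ ^ 2 := ⟨_, rfl⟩
  have cG : Continuous G := by
    rw [hG]
    exact ((hh.comp_continuous (continuous_id.max continuous_const) fun y =>
      lt_max_of_lt_right (half_pos hT)).norm).pow 2
  have eG : ∀ y, T / 2 ≤ y → G y = ‖h y‖ ^ 2 := fun y hy => by rw [hG]; simp only [max_eq_left hy]
  have G0 : ∀ y, 0 ≤ G y := fun y => by rw [hG]; positivity
  have hT2 : T ≤ 2 * T := by linarith
  have cF : Continuous (Function.uncurry fun x v : ℝ => ph W v * G (x * Real.exp v)) :=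
    ((continuous_ph W).comp continuous_snd).mul
      (cG.comp (continuous_fst.mul (Real.continuous_exp.comp continuous_snd)))
  have eI : ∫ x in T / 2..4 * T, ‖h x‖ ^ 2 = ∫ x in T / 2..4 * T, G x :=
    intervalIntegral.integral_congr fun y hy => by
      rw [uIcc_of_le (by linarith)] at hy
      exact (eG y hy.1).symm
  have I0 : 0 ≤ ∫ x in T / 2..4 * T, G x :=
    intervalIntegral.integral_nonneg (by linarith) fun y _ => G0 y
  rw [eI]
  calc Sq (av W h) T ≤ ∫ x in T..2 * T, ∫ v in (-1 / 5 : ℝ)..(1 / 5), ph W v * G (x * Real.exp v) := by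
        refine intervalIntegral.integral_mono_on hT2 ?_
          ((intervalIntegral.continuous_parametric_intervalIntegral_of_continuous' cF _
            _).intervalIntegrable _ _) fun x hx => ?_
        · refine ContinuousOn.intervalIntegrable ?_
          rw [uIcc_of_le hT2]
          exact (((av_cont hh).mono fun x hx => hT.trans_le hx.1).norm).pow 2
        · have hx0 := hT.trans_le hx.1
          refine (pow_le_pow_left₀ (norm_nonneg _) (vav_norm hW h x) 2).trans
            ((vav_sq hW (vav_cont hh hx0).norm).trans (le_of_eq ?_))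
          refine intervalIntegral.integral_congr fun v hv => ?_
          rw [uIcc_of_le (by norm_num)] at hv
          simp only [eG _ (vav_mem hT hx (av_mem hv)).1]
    _ = ∫ v in (-1 / 5 : ℝ)..(1 / 5), ph W v * ∫ x in T..2 * T, G (x * Real.exp v) := by
        rw [vav_swap cF (by norm_num)]
        simp only [intervalIntegral.integral_const_mul]
    _ ≤ _ := by
        refine vav_avg hW (intervalIntegral.continuous_parametric_intervalIntegral_of_continuous'
          (f := fun v x : ℝ => G (x * Real.exp v))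
          (cG.comp (continuous_snd.mul (Real.continuous_exp.comp continuous_fst))) _ _)
          (by linarith) fun v hv => ?_
        obtain ⟨h1, h2⟩ := av_mem hv
        have he := Real.exp_pos v
        rw [intervalIntegral.integral_comp_mul_right G he.ne', smul_eq_mul]
        refine mul_le_mul ?_ ?_ (intervalIntegral.integral_nonneg (by nlinarith) fun y _ => G0 y)
          (by norm_num)
        · rw [inv_le_comm₀ he (by norm_num)]
          linarith
        · refine intervalIntegral.integral_mono_interval (by nlinarith) (by nlinarith)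
            (by nlinarith) (Filter.Eventually.of_forall G0) (cG.intervalIntegrable _ _)

theorem vav_exp {v : ℝ} (hv : v ∈ Icc (-1 / 5 : ℝ) (1 / 5)) : |Real.exp v - 1| ≤ 2 * |v| := by
  refine Real.abs_exp_sub_one_le ?_
  rw [abs_le]
  exact ⟨by linarith [hv.1], by linarith [hv.2]⟩

theorem vav_out (hW : 0 < W) : 1 - ∫ v in (-1 / 5 : ℝ)..(1 / 5), ph W v ≤ 30 / W := by
  have e0 := integral_add_compl (measurableSet_Ioc (a := (-1 / 5 : ℝ)) (b := 1 / 5)) (ph_int hW).1
  rw [(ph_int hW).2] at e0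
  rw [intervalIntegral.integral_of_le (by norm_num)]
  calc _ = ∫ v in (Ioc (-1 / 5 : ℝ) (1 / 5))ᶜ, ph W v := by linarith
    _ ≤ ∫ v in (Ioc (-1 / 5 : ℝ) (1 / 5))ᶜ, 5 * (|v| * ph W v) := by
        refine setIntegral_mono_on (ph_int hW).1.integrableOn
          ((ph_abs hW).1.const_mul 5).integrableOn measurableSet_Ioc.compl fun v hv => ?_
        have h1 : 1 / 5 ≤ |v| := by
          by_contra h2
          rw [not_le, abs_lt] at h2
          exact hv ⟨by linarith [h2.1], h2.2.le⟩
        have := ph_pos hW v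
        nlinarith
    _ ≤ ∫ v, 5 * (|v| * ph W v) :=
        setIntegral_le_integral ((ph_abs hW).1.const_mul 5) (Filter.Eventually.of_forall fun v =>
          mul_nonneg (by norm_num) (mul_nonneg (abs_nonneg v) (ph_pos hW v).le))
    _ ≤ _ := by
        rw [integral_const_mul]
        have := (ph_abs hW).2
        have e : 30 / W = 5 * (6 / W) := by ring
        linarith

/- `‖h (x exp v) - h x‖ ≤ P' * x * |exp v - 1| ≤ P' * 2 T * 2 |v|`, `ph_abs`, and the mass outside
`[-1 / 5, 1 / 5]` is at most `5 * ∫ |v| * ph W v`. -/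
theorem av_near (hW : 0 < W) (hT : 0 < T) {h' : ℝ → ℂ} (hh : ∀ y : ℝ, 0 < y → HasDerivAt h (h' y) y)
    {P P' : ℝ} (hP : ∀ y ∈ Icc (T / 2) (4 * T), ‖h y‖ ≤ P ∧ ‖h' y‖ ≤ P') {x : ℝ}
    (hx : x ∈ Icc T (2 * T)) : ‖av W h x - h x‖ ≤ 30 * (T * P' + P) / W := by
  have hc : ContinuousOn h (Ioi 0) := fun y hy => (hh y hy).continuousAt.continuousWithinAt
  have hx0 := hT.trans_le hx.1
  have hxm : x ∈ Icc (T / 2) (4 * T) := ⟨by linarith [hx.1], by linarith [hx.2]⟩
  have hP0 : 0 ≤ P := (norm_nonneg _).trans (hP x hxm).1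
  have hP1 : 0 ≤ P' := (norm_nonneg _).trans (hP x hxm).2
  have c := continuous_ph W
  have cC : Continuous fun v => (ph W v : ℂ) := continuous_ofReal.comp c
  have lip : ∀ y ∈ Icc (T / 2) (4 * T), ‖h y - h x‖ ≤ P' * ‖y - x‖ := fun y hy =>
    (convex_Icc _ _).norm_image_sub_le_of_norm_hasDerivWithin_le
      (fun z hz => (hh z (by linarith [hz.1])).hasDerivWithinAt) (fun z hz => (hP z hz).2) hxm hy
  obtain ⟨m, hm⟩ : ∃ m, m = ∫ v in (-1 / 5 : ℝ)..(1 / 5), ph W v := ⟨_, rfl⟩
  have e : av W h x - h x = (∫ v in (-1 / 5 : ℝ)..(1 / 5), (ph W v : ℂ) *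
      (h (x * Real.exp v) - h x)) - ((1 - m : ℝ) : ℂ) * h x := by
    simp only [mul_sub]
    rw [intervalIntegral.integral_sub (g := fun v => (ph W v : ℂ) * h x)
      ((vav_cont2 hc hx0).intervalIntegrable _ _)
      ((cC.mul continuous_const).intervalIntegrable _ _), intervalIntegral.integral_mul_const,
      intervalIntegral.integral_ofReal, ← hm, av]
    push_cast
    ring
  have h1 : ‖∫ v in (-1 / 5 : ℝ)..(1 / 5), (ph W v : ℂ) * (h (x * Real.exp v) - h x)‖ ≤
      4 * (T * P') * (6 / W) := by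
    calc _ ≤ ∫ v in (-1 / 5 : ℝ)..(1 / 5), 4 * (T * P') * (|v| * ph W v) := by
          refine intervalIntegral.norm_integral_le_of_norm_le (by norm_num)
            (Filter.Eventually.of_forall fun v hv => ?_)
            ((continuous_const.mul (continuous_abs.mul c)).intervalIntegrable _ _)
          have hv' := Ioc_subset_Icc_self hv
          have h2 := lip _ (vav_mem hT hx (av_mem hv'))
          have h3 : ‖x * Real.exp v - x‖ ≤ 2 * T * (2 * |v|) := by
            rw [Real.norm_eq_abs, ← mul_sub_one, abs_mul, abs_of_pos hx0]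
            exact mul_le_mul hx.2 (vav_exp hv') (abs_nonneg _) (by linarith)
          have h4 := h2.trans (mul_le_mul_of_nonneg_left h3 hP1)
          rw [norm_mul, norm_real, Real.norm_eq_abs, abs_of_pos (ph_pos hW v)]
          calc _ ≤ ph W v * (P' * (2 * T * (2 * |v|))) :=
                mul_le_mul_of_nonneg_left h4 (ph_pos hW v).le
            _ = _ := by ring
      _ ≤ _ := by
          rw [intervalIntegral.integral_const_mul]
          refine mul_le_mul_of_nonneg_left ?_ (by positivity)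
          rw [intervalIntegral.integral_of_le (by norm_num)]
          exact (setIntegral_le_integral (ph_abs hW).1 (Filter.Eventually.of_forall fun v =>
            mul_nonneg (abs_nonneg v) (ph_pos hW v).le)).trans (ph_abs hW).2
  have h2 : ‖((1 - m : ℝ) : ℂ) * h x‖ ≤ 30 / W * P := by
    rw [norm_mul, norm_real, Real.norm_eq_abs, abs_of_nonneg (by linarith [av_mass hW])]
    exact mul_le_mul (hm ▸ vav_out hW) (hP x hxm).1 (norm_nonneg _) (by positivity)
  rw [e]
  refine (norm_sub_le _ _).trans ((add_le_add h1 h2).trans ?_)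
  have h3 : 0 ≤ T * P' / W := by positivity
  have e1 : 4 * (T * P') * (6 / W) + 30 / W * P = 30 * (T * P' + P) / W - 6 * (T * P' / W) := by
    ring
  linarith

end Pool.Agent.Lib.MP_2a1a00_nt
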