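import Pool.Agent.Lib.MP_2a1a00_nt.V.Defs

/-! A calculus for bounds of the form `f T ≪ T ^ (c + ε)`. -/

namespace Pool.Agent.Lib.MP_2a1a00_nt

open Set

/-- The bound `f T ≪ T ^ (c + ε)` for `T ≥ 1` and every positive `ε`. -/
def Bd (f : ℝ → ℝ) (c : ℝ) : Prop :=
  ∀ ε : ℝ, 0 < ε → ∃ C : ℝ, 0 < C ∧ ∀ T : ℝ, 1 ≤ T → f T ≤ C * T ^ ε * T ^ c

variable {f g : ℝ → ℝ} {c d : ℝ}

theorem bd_half {T ε : ℝ} (hT : 1 ≤ T) : T ^ ε = T ^ (ε / 2) * T ^ (ε / 2) := by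
  rw [← Real.rpow_add (by linarith), add_halves]

theorem Bd.of_le (h : Bd g c) (hf : ∀ T, 1 ≤ T → f T ≤ g T) : Bd f c := fun ε hε => by
  obtain ⟨C, hC, h⟩ := h ε hε
  exact ⟨C, hC, fun T hT => (hf T hT).trans (h T hT)⟩

theorem Bd.mono (h : Bd f c) (hc : c ≤ d) : Bd f d := fun ε hε => by
  obtain ⟨C, hC, h⟩ := h ε hε
  refine ⟨C, hC, fun T hT => (h T hT).trans ?_⟩
  have : 0 < T := by linarith
  exact mul_le_mul_of_nonneg_left (Real.rpow_le_rpow_of_exponent_le hT hc) (by positivity)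

theorem Bd.add (hf : Bd f c) (hg : Bd g c) : Bd (fun T => f T + g T) c := fun ε hε => by
  obtain ⟨C, hC, hf⟩ := hf ε hε
  obtain ⟨D, hD, hg⟩ := hg ε hε
  refine ⟨C + D, by positivity, fun T hT => ?_⟩
  have := hf T hT
  have := hg T hT
  beta_reduce
  linarith

theorem bd_rpow (c : ℝ) : Bd (fun T => T ^ c) c := fun ε hε =>
  ⟨1, one_pos, fun T hT => by
    have : 0 < T := by linarith
    rw [one_mul]
    exact le_mul_of_one_le_left (by positivity) (Real.one_le_rpow hT hε.le)⟩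

theorem bd_const (K : ℝ) : Bd (fun _ => K) 0 := fun ε hε =>
  ⟨|K| + 1, by positivity, fun T hT => by
    rw [Real.rpow_zero, mul_one]
    have h1 := Real.one_le_rpow hT hε.le
    have h2 := le_abs_self K
    have h3 := abs_nonneg K
    nlinarith⟩

theorem bd_id : Bd (fun T => T) 1 := (bd_rpow 1).of_le fun T _ => by rw [Real.rpow_one]

theorem bd_sqrt : Bd (fun T => √T) (1 / 2) :=
  (bd_rpow (1 / 2)).of_le fun T _ => by rw [Real.sqrt_eq_rpow]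

/-- Only one of the two factors has to be non-negative. -/
theorem Bd.mul (hf : Bd f c) (hg : Bd g d) (h0 : ∀ T, 1 ≤ T → 0 ≤ g T) :
    Bd (fun T => f T * g T) (c + d) := fun ε hε => by
  obtain ⟨C, hC, hf⟩ := hf (ε / 2) (half_pos hε)
  obtain ⟨D, hD, hg⟩ := hg (ε / 2) (half_pos hε)
  refine ⟨C * D, by positivity, fun T hT => ?_⟩
  have : 0 < T := by linarith
  calc f T * g T ≤ C * T ^ (ε / 2) * T ^ c * (D * T ^ (ε / 2) * T ^ d) :=
        mul_le_mul (hf T hT) (hg T hT) (h0 T hT) (by positivity)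
    _ = _ := by rw [bd_half (ε := ε) hT, Real.rpow_add this]; ring

theorem Bd.const_mul (hf : Bd f c) {K : ℝ} (hK : 0 ≤ K) : Bd (fun T => K * f T) c :=
  ((hf.mul (bd_const K) fun _ _ => hK).mono (add_zero c).le).of_le fun _ _ => (mul_comm _ _).le

theorem Bd.mul_rpow (hf : Bd f c) (d : ℝ) : Bd (fun T => f T * T ^ d) (c + d) :=
  hf.mul (bd_rpow d) fun T hT => Real.rpow_nonneg (by linarith) d

theorem Bd.div_rpow (hf : Bd f c) (d : ℝ) : Bd (fun T => f T / T ^ d) (c - d) :=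
  (hf.mul_rpow (-d)).of_le fun T hT => by
    rw [Real.rpow_neg (by linarith), div_eq_mul_inv]

theorem Bd.pow (hf : Bd f c) (h0 : ∀ T, 1 ≤ T → 0 ≤ f T) (n : ℕ) :
    Bd (fun T => f T ^ n) (n * c) := by
  induction n with
  | zero => simpa using bd_const 1
  | succ n ih =>
    exact ((ih.mul hf h0).mono (by push_cast; linarith)).of_le fun T _ => (pow_succ _ _).le

theorem Bd.sqrt (hf : Bd f c) : Bd (fun T => √(f T)) (c / 2) := fun ε hε => by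
  obtain ⟨C, hC, hf⟩ := hf (2 * ε) (by positivity)
  refine ⟨√C, by positivity, fun T hT => ?_⟩
  have h0 : 0 < T := by linarith
  refine Real.sqrt_le_iff.2 ⟨by positivity, (hf T hT).trans (le_of_eq ?_)⟩
  rw [mul_pow, mul_pow, Real.sq_sqrt hC.le, ← Real.rpow_natCast, ← Real.rpow_natCast,
    ← Real.rpow_mul h0.le, ← Real.rpow_mul h0.le]
  congr 2
  · congr 1
    push_cast
    ring
  · push_cast
    ring

theorem Bd.of_forall (hg : Bd g c)
    (h : ∀ ε : ℝ, 0 < ε → ∃ C : ℝ, 0 < C ∧ ∀ T : ℝ, 1 ≤ T → f T ≤ C * T ^ ε * g T) : Bd f c :=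
  fun ε hε => by
  obtain ⟨C, hC, hg⟩ := hg (ε / 2) (half_pos hε)
  obtain ⟨D, hD, h⟩ := h (ε / 2) (half_pos hε)
  refine ⟨D * C, by positivity, fun T hT => (h T hT).trans ?_⟩
  have : 0 < T := by linarith
  calc D * T ^ (ε / 2) * g T ≤ D * T ^ (ε / 2) * (C * T ^ (ε / 2) * T ^ c) :=
        mul_le_mul_of_nonneg_left (hg T hT) (by positivity)
    _ = _ := by rw [bd_half (ε := ε) hT]; ring

theorem bd_floor (γ : ℝ) : Bd (fun T => (⌊T ^ γ⌋₊ : ℝ)) γ :=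
  (bd_rpow γ).of_le fun T hT => Nat.floor_le (Real.rpow_nonneg (by linarith) γ)

/-- A bound that is uniform in a parameter is a bound with one factor `Λ T`. -/
theorem bd_unif {α : Type} {S : ℝ → Set α} {φ : ℝ → α → ℝ} (hg : ∀ T, 1 ≤ T → 0 < g T)
    (h : ∀ ε : ℝ, 0 < ε → ∃ C : ℝ, ∀ T : ℝ, 1 ≤ T → ∀ x ∈ S T, φ T x ≤ C * T ^ ε * g T) :
    ∃ Λ : ℝ → ℝ, Bd Λ 0 ∧ (∀ T, 1 ≤ Λ T) ∧ ∀ T, 1 ≤ T → ∀ x ∈ S T, φ T x ≤ Λ T * g T := by
  refine ⟨fun T => max 1 (sSup ((fun x => φ T x / g T) '' S T)), fun ε hε => ?_,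
    fun T => le_max_left _ _, fun T hT x hx => ?_⟩
  · obtain ⟨C, hC⟩ := h ε hε
    refine ⟨max 1 C, lt_max_of_lt_left one_pos, fun T hT => ?_⟩
    have h1 := Real.one_le_rpow hT hε.le
    have h2 : 1 ≤ max 1 C * T ^ ε := one_le_mul_of_one_le_of_one_le (le_max_left _ _) h1
    rw [Real.rpow_zero, mul_one]
    refine max_le h2 (Real.sSup_le ?_ (by linarith))
    rintro _ ⟨x, hx, rfl⟩
    exact ((div_le_iff₀ (hg T hT)).2 (hC T hT x hx)).trans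
      (mul_le_mul_of_nonneg_right (le_max_right _ _) (by linarith))
  · obtain ⟨C, hC⟩ := h 1 one_pos
    rw [← div_le_iff₀ (hg T hT)]
    refine le_max_of_le_right (le_csSup ⟨C * T ^ (1 : ℝ), ?_⟩ ⟨x, hx, rfl⟩)
    rintro _ ⟨y, hy, rfl⟩
    exact (div_le_iff₀ (hg T hT)).2 (hC T hT y hy)

theorem Bd.le (h : Bd f c) (hc : c < d) : ∃ C : ℝ, ∀ T : ℝ, 1 ≤ T → f T ≤ C * T ^ d := by
  obtain ⟨C, -, h⟩ := h (d - c) (by linarith)
  refine ⟨C, fun T hT => (h T hT).trans (le_of_eq ?_)⟩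
  rw [mul_assoc, ← Real.rpow_add (by linarith), sub_add_cancel]

theorem one_le_floor {γ T : ℝ} (hγ : 0 ≤ γ) (hT : 1 ≤ T) : 1 ≤ ⌊T ^ γ⌋₊ :=
  Nat.le_floor (by exact_mod_cast Real.one_le_rpow hT hγ)

end Pool.Agent.Lib.MP_2a1a00_nt
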