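import Pool.Agent.Lib.MP_2a1a00_nt.V.Ga

/-! The Gaussian distribution function and a Gaussian sum. -/

namespace Pool.Agent.Lib.MP_2a1a00_nt

open Complex MeasureTheory Set

theorem cdf_deriv {W : ℝ} (hW : 0 < W) (u : ℝ) : HasDerivAt (cdf W) (ph W u) u := by
  have h : cdf W = fun u => cdf W 0 + ∫ v in (0 : ℝ)..u, ph W v := by
    funext u
    have := intervalIntegral.integral_Iic_sub_Iic (f := ph W) (μ := volume) (a := 0) (b := u)
      (ph_int hW).1.integrableOn (ph_int hW).1.integrableOn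
    unfold cdf
    linarith
  rw [h]
  exact ((continuous_ph W).integral_hasStrictDerivAt 0 u).hasDerivAt.const_add _

/- `ph W` is even with integral one. -/
theorem cdf_neg {W : ℝ} (hW : 0 < W) (u : ℝ) : cdf W (-u) = 1 - cdf W u := by
  have h1 : cdf W (-u) = ∫ v in Ioi u, ph W v := by
    unfold cdf
    rw [← integral_comp_neg_Ioi]
    congr 1
    funext v
    simp [ph]
  have h2 := intervalIntegral.integral_Iic_add_Ioi (f := ph W) (μ := volume) (b := u)
    (ph_int hW).1.integrableOn (ph_int hW).1.integrableOn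
  rw [(ph_int hW).2] at h2
  rw [h1]
  unfold cdf
  linarith

theorem vgb_nonneg {W : ℝ} (hW : 0 < W) (u : ℝ) : 0 ≤ cdf W u :=
  setIntegral_nonneg measurableSet_Iic fun v _ => (ph_pos hW v).le

theorem vgb_exp {W u v : ℝ} (h : 0 ≤ u * (v - u)) :
    Real.exp (-(W * v) ^ 2 / 4) ≤
      Real.exp (-(W * u) ^ 2 / 4) * Real.exp (-(W * (v - u)) ^ 2 / 4) := by
  rw [← Real.exp_add]
  apply Real.exp_le_exp.2
  nlinarith [mul_nonneg (sq_nonneg W) h]

theorem vgb_shift {W : ℝ} (hW : 0 < W) (u : ℝ) (S : Set ℝ) : ∫ v in S, ph W (v - u) ≤ 1 := by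
  have hi : Integrable (fun v => ph W (v - u)) := (ph_int hW).1.comp_sub_right u
  calc ∫ v in S, ph W (v - u) ≤ ∫ v, ph W (v - u) :=
        setIntegral_le_integral hi (Filter.Eventually.of_forall fun v => (ph_pos hW _).le)
    _ = 1 := by rw [integral_sub_right_eq_self (ph W) u, (ph_int hW).2]

theorem vgb_le {W : ℝ} (hW : 0 < W) {u : ℝ} (hu : u ≤ 0) :
    cdf W u ≤ Real.exp (-(W * u) ^ 2 / 4) := by
  have hi : Integrable (fun v => ph W (v - u)) := (ph_int hW).1.comp_sub_right u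
  have hE := Real.exp_pos (-(W * u) ^ 2 / 4)
  calc cdf W u ≤ ∫ v in Iic u, Real.exp (-(W * u) ^ 2 / 4) * ph W (v - u) := by
        refine setIntegral_mono_on (ph_int hW).1.integrableOn (hi.const_mul _).integrableOn
          measurableSet_Iic fun v hv => ?_
        have h1 := vgb_exp (W := W) (u := u) (v := v)
          (mul_nonneg_of_nonpos_of_nonpos hu (sub_nonpos.2 hv))
        have h2 : 0 ≤ W / (2 * √Real.pi) := by positivity
        unfold ph
        nlinarith [mul_le_mul_of_nonneg_left h1 h2]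
    _ = Real.exp (-(W * u) ^ 2 / 4) * ∫ v in Iic u, ph W (v - u) := integral_const_mul _ _
    _ ≤ _ := by nlinarith [vgb_shift hW u (Iic u)]

/- For `u ≤ 0`, `r ≥ 0`: `ph W (u - r) ≤ exp (-(W u) ^ 2 / 4) * ph W r`. -/
theorem cdf_le {W : ℝ} (hW : 0 < W) (u : ℝ) :
    |(if 0 ≤ u then 1 else 0) - cdf W u| ≤ Real.exp (-(W * u) ^ 2 / 4) := by
  split_ifs with h
  · rw [← cdf_neg hW, abs_of_nonneg (vgb_nonneg hW _)]
    have := vgb_le hW (u := -u) (by linarith)
    simpa using this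
  · rw [zero_sub, abs_neg, abs_of_nonneg (vgb_nonneg hW _)]
    exact vgb_le hW (by linarith)

theorem vgb_cont {W : ℝ} (hW : 0 < W) : Continuous (cdf W) :=
  continuous_iff_continuousAt.2 fun u => (cdf_deriv hW u).continuousAt

theorem vgb_diff {V W : ℝ} (hW : 0 < W) (hV : W ≤ V) {v : ℝ} (hv : 0 ≤ v) :
    |cdf V v - cdf W v| ≤ Real.exp (-(W * v) ^ 2 / 4) := by
  have hV0 : 0 < V := hW.trans_le hV
  have a1 := vgb_le hW (u := -v) (by linarith)
  have a2 := vgb_le hV0 (u := -v) (by linarith)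
  have b1 := vgb_nonneg hW (-v)
  have b2 := vgb_nonneg hV0 (-v)
  rw [cdf_neg hW] at a1 b1
  rw [cdf_neg hV0] at a2 b2
  have e1 : (W * -v) ^ 2 = (W * v) ^ 2 := by ring
  have e2 : Real.exp (-(V * -v) ^ 2 / 4) ≤ Real.exp (-(W * v) ^ 2 / 4) := by
    apply Real.exp_le_exp.2
    have : W * v ≤ V * v := mul_le_mul_of_nonneg_right hV hv
    have h0 : 0 ≤ W * v := by positivity
    nlinarith
  rw [e1] at a1
  rw [abs_le]
  constructor <;> linarith

theorem vgb_pos {V W : ℝ} (hW : 0 < W) (hV : W ≤ V) {a b : ℝ} (ha : 0 ≤ a) (hab : a ≤ b) :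
    |∫ u in a..b, (cdf V u - cdf W u)| ≤ 4 / W * Real.exp (-(W * a) ^ 2 / 4) := by
  have hV0 : 0 < V := hW.trans_le hV
  have hE := Real.exp_pos (-(W * a) ^ 2 / 4)
  have hp : 0 < √Real.pi := Real.sqrt_pos.2 Real.pi_pos
  have hp2 : √Real.pi ≤ 2 := by
    rw [Real.sqrt_le_iff]
    exact ⟨by norm_num, by linarith [Real.pi_le_four]⟩
  have hc : Continuous fun v => ph W (v - a) := (continuous_ph W).comp (by fun_prop)
  have h1 : |∫ u in a..b, (cdf V u - cdf W u)| ≤
      ∫ v in a..b, 4 / W * Real.exp (-(W * a) ^ 2 / 4) * ph W (v - a) := by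
    refine (intervalIntegral.abs_integral_le_integral_abs hab).trans ?_
    refine intervalIntegral.integral_mono_on hab
      (((vgb_cont hV0).sub (vgb_cont hW)).abs.intervalIntegrable _ _)
      ((continuous_const.mul hc).intervalIntegrable _ _) fun v hv => ?_
    refine (vgb_diff hW hV (ha.trans hv.1)).trans ?_
    refine (vgb_exp (W := W) (mul_nonneg ha (sub_nonneg.2 hv.1))).trans ?_
    have h3 := Real.exp_pos (-(W * (v - a)) ^ 2 / 4)
    have h4 : 4 / W * Real.exp (-(W * a) ^ 2 / 4) * ph W (v - a) =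
        2 / √Real.pi * (Real.exp (-(W * a) ^ 2 / 4) * Real.exp (-(W * (v - a)) ^ 2 / 4)) := by
      unfold ph
      field_simp
      ring
    rw [h4]
    refine le_mul_of_one_le_left (by positivity) ?_
    rw [le_div_iff₀ hp]
    linarith
  refine h1.trans ?_
  rw [intervalIntegral.integral_const_mul, intervalIntegral.integral_of_le hab]
  exact mul_le_of_le_one_right (by positivity) (vgb_shift hW a _)

theorem vgb_even {V W : ℝ} (hW : 0 < W) (hV : 0 < V) (u : ℝ) :
    ∫ v in (0 : ℝ)..u, (cdf V v - cdf W v) = ∫ v in (0 : ℝ)..|u|, (cdf V v - cdf W v) := by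
  rcases le_total 0 u with h | h
  · rw [abs_of_nonneg h]
  · rw [abs_of_nonpos h]
    have h1 := intervalIntegral.integral_comp_neg (a := u) (b := 0)
      (fun v => cdf V v - cdf W v)
    rw [neg_zero] at h1
    rw [← h1, intervalIntegral.integral_symm, ← intervalIntegral.integral_neg]
    congr 1
    funext v
    rw [cdf_neg hV, cdf_neg hW]
    ring

/- The function `cdf V - cdf W` is odd, so `Ψ u = ∫ 0..u (cdf V - cdf W)` is even, and for `0 ≤ a ≤ b`
one has `|Ψ b - Ψ a| ≤ ∫ a..b 2 * exp (-(W v) ^ 2 / 4)` by `cdf_le`, at most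
`exp (-(W a) ^ 2 / 4) * 2 * √π / W` (write `v = a + r`).  The integral is `Ψ |u₂| - Ψ |u₁|`. -/
theorem cdf_prim {V W : ℝ} (hW : 0 < W) (hV : W ≤ V) (u₁ u₂ : ℝ) :
    |∫ u in u₁..u₂, (cdf V u - cdf W u)| ≤
      4 / W * (Real.exp (-(W * u₁) ^ 2 / 4) + Real.exp (-(W * u₂) ^ 2 / 4)) := by
  have hV0 : 0 < V := hW.trans_le hV
  have hc : Continuous fun u => cdf V u - cdf W u := (vgb_cont hV0).sub (vgb_cont hW)
  have h1 : ∫ u in u₁..u₂, (cdf V u - cdf W u) = ∫ u in |u₁|..|u₂|, (cdf V u - cdf W u) := by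
    rw [← intervalIntegral.integral_interval_sub_left (a := 0) (b := u₂) (c := u₁)
      (hc.intervalIntegrable _ _) (hc.intervalIntegrable _ _),
      ← intervalIntegral.integral_interval_sub_left (a := 0) (b := |u₂|) (c := |u₁|)
      (hc.intervalIntegrable _ _) (hc.intervalIntegrable _ _), vgb_even hW hV0 u₁,
      vgb_even hW hV0 u₂]
  have e : ∀ u : ℝ, (W * |u|) ^ 2 = (W * u) ^ 2 := fun u => by rw [mul_pow, mul_pow, sq_abs]
  have p1 := Real.exp_pos (-(W * u₁) ^ 2 / 4)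
  have p2 := Real.exp_pos (-(W * u₂) ^ 2 / 4)
  have p3 : 0 < 4 / W := by positivity
  rw [h1]
  rcases le_total |u₁| |u₂| with h | h
  · have := vgb_pos hW hV (abs_nonneg u₁) h
    rw [e] at this
    nlinarith [mul_pos p3 p2]
  · have := vgb_pos hW hV (abs_nonneg u₂) h
    rw [e] at this
    rw [intervalIntegral.integral_symm, abs_neg]
    nlinarith [mul_pos p3 p1]

theorem vgb_tel {m : ℝ} (hm : 1 ≤ m) (t : ℝ) :
    m ^ 2 / (m ^ 2 + t ^ 2) ≤ 4 * m * ((t + 1) / (m + |t + 1|) - t / (m + |t|)) := by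
  have hm0 : 0 < m := by linarith
  rcases le_total 0 t with h | h
  · rw [abs_of_nonneg h, abs_of_nonneg (by linarith : 0 ≤ t + 1)]
    have e : 4 * m * ((t + 1) / (m + (t + 1)) - t / (m + t)) =
        m ^ 2 / ((m + (t + 1)) * (m + t) / 4) := by
      field_simp
      ring
    rw [e]
    apply div_le_div_of_nonneg_left (by positivity) (by positivity)
    nlinarith [sq_nonneg (m - t), mul_nonneg hm0.le h]
  · rcases le_total (t + 1) 0 with h' | h'
    · rw [abs_of_nonpos h, abs_of_nonpos h']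
      have a1 : 0 < m + -(t + 1) := by linarith
      have a2 : 0 < m + -t := by linarith
      have e : 4 * m * ((t + 1) / (m + -(t + 1)) - t / (m + -t)) =
          m ^ 2 / ((m + -(t + 1)) * (m + -t) / 4) := by
        field_simp
        ring
      rw [e]
      apply div_le_div_of_nonneg_left (by positivity) (by positivity)
      nlinarith [sq_nonneg (m + t)]
    · rw [abs_of_nonpos h, abs_of_nonneg h']
      have a1 : (t + 1) / (m + 1) ≤ (t + 1) / (m + (t + 1)) :=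
        div_le_div_of_nonneg_left h' (by linarith) (by linarith)
      have a2 : -t / (m + 1) ≤ -t / (m + -t) :=
        div_le_div_of_nonneg_left (by linarith) (by linarith) (by linarith)
      have a3 : (t + 1) / (m + 1) + -t / (m + 1) = 1 / (m + 1) := by
        field_simp
        ring
      have a4 : m ^ 2 / (m ^ 2 + t ^ 2) ≤ 1 := by
        rw [div_le_one (by positivity)]
        nlinarith [sq_nonneg t]
      have a5 : 1 ≤ 4 * m * (1 / (m + 1)) := by
        rw [mul_one_div, le_div_iff₀ (by linarith)]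
        linarith
      have a6 : 1 / (m + 1) ≤ (t + 1) / (m + (t + 1)) - t / (m + -t) := by
        rw [neg_div (m + -t)] at a2
        linarith
      nlinarith [mul_le_mul_of_nonneg_left a6 (by positivity : (0 : ℝ) ≤ 4 * m)]

theorem vgb_sum {m : ℝ} (hm : 1 ≤ m) (x : ℝ) (N : ℕ) :
    ∑ n ∈ Finset.range N, m ^ 2 / (m ^ 2 + ((n : ℝ) - x) ^ 2) ≤ 8 * m := by
  have hm0 : 0 < m := by linarith
  let F : ℕ → ℝ := fun n => ((n : ℝ) - x) / (m + |(n : ℝ) - x|)
  have hF : ∀ n, |F n| ≤ 1 := fun n => by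
    have h0 : 0 < m + |(n : ℝ) - x| := by positivity
    simp only [F]
    rw [abs_div, abs_of_pos h0, div_le_one h0]
    linarith
  calc ∑ n ∈ Finset.range N, m ^ 2 / (m ^ 2 + ((n : ℝ) - x) ^ 2)
      ≤ ∑ n ∈ Finset.range N, 4 * m * (F (n + 1) - F n) := by
        refine Finset.sum_le_sum fun n _ => ?_
        have := vgb_tel hm ((n : ℝ) - x)
        have e : ((n + 1 : ℕ) : ℝ) - x = (n : ℝ) - x + 1 := by push_cast; ring
        simp only [F]
        rw [e]
        exact this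
    _ = 4 * m * (F N - F 0) := by rw [← Finset.mul_sum, Finset.sum_range_sub]
    _ ≤ 8 * m := by
        have h1 := abs_le.1 (hF N)
        have h2 := abs_le.1 (hF 0)
        nlinarith [h1.2, h2.1]

theorem vgb_core {ε W : ℝ} (hε : 0 < ε) (hW : 1 ≤ W) (L : ℝ) :
    Real.exp (ε * L) * Real.exp (-(W * L) ^ 2 / 4) * (1 + W ^ 2 * (Real.exp L - 1) ^ 2) ≤
      8 * Real.exp (2 * (ε + 2) ^ 2) := by
  have h1 : |Real.exp L - 1| ≤ |L| * Real.exp |L| := by
    rcases le_total 0 L with h | h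
    · have a := Real.add_one_le_exp (-L)
      have b : Real.exp (-L) * Real.exp L = 1 := by rw [← Real.exp_add]; simp
      have c := Real.one_le_exp h
      rw [abs_of_nonneg h, abs_of_nonneg (by linarith)]
      nlinarith [Real.exp_pos L]
    · have a := Real.add_one_le_exp L
      have b : Real.exp L ≤ 1 := Real.exp_le_one_iff.2 h
      have c := Real.one_le_exp (abs_nonneg L)
      rw [abs_of_nonpos (by linarith : Real.exp L - 1 ≤ 0)]
      have d : -L ≤ |L| := neg_le_abs L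
      nlinarith [abs_nonneg L]
  have h2 : (Real.exp L - 1) ^ 2 ≤ L ^ 2 * Real.exp (2 * |L|) := by
    have := pow_le_pow_left₀ (abs_nonneg _) h1 2
    rw [sq_abs, mul_pow, sq_abs, ← Real.exp_nat_mul] at this
    exact_mod_cast this
  have h3 : 1 ≤ Real.exp (2 * |L|) := Real.one_le_exp (by positivity)
  have h4 := Real.add_one_le_exp ((W * L) ^ 2 / 8)
  have h5 : 1 + W ^ 2 * (Real.exp L - 1) ^ 2 ≤
      8 * (Real.exp ((W * L) ^ 2 / 8) * Real.exp (2 * |L|)) := by
    have a : W ^ 2 * (Real.exp L - 1) ^ 2 ≤ (W * L) ^ 2 * Real.exp (2 * |L|) := by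
      rw [mul_pow, mul_assoc]
      exact mul_le_mul_of_nonneg_left h2 (sq_nonneg W)
    nlinarith [mul_le_mul_of_nonneg_right h4 (Real.exp_pos (2 * |L|)).le]
  calc _ ≤ Real.exp (ε * L) * Real.exp (-(W * L) ^ 2 / 4) *
        (8 * (Real.exp ((W * L) ^ 2 / 8) * Real.exp (2 * |L|))) :=
        mul_le_mul_of_nonneg_left h5 (by positivity)
    _ = 8 * Real.exp (ε * L + -(W * L) ^ 2 / 4 + ((W * L) ^ 2 / 8 + 2 * |L|)) := by
        rw [Real.exp_add, Real.exp_add, Real.exp_add]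
        ring
    _ ≤ _ := by
        refine mul_le_mul_of_nonneg_left (Real.exp_le_exp.2 ?_) (by norm_num)
        have a : ε * L ≤ ε * |L| := mul_le_mul_of_nonneg_left (le_abs_self L) hε.le
        have b : |L| ^ 2 ≤ (W * L) ^ 2 := by
          rw [sq_abs, mul_pow]
          nlinarith [sq_nonneg L, mul_nonneg (sq_nonneg L) (by nlinarith : (0 : ℝ) ≤ W ^ 2 - 1)]
        nlinarith [sq_nonneg (|L| - 4 * (ε + 2))]

theorem vgb_term {ε W x : ℝ} (hε : 0 < ε) (hW : 1 ≤ W) (hx : 1 ≤ x) (n : ℕ) :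
    (n : ℝ) ^ ε * Real.exp (-(W * (Real.log x - Real.log n)) ^ 2 / 4) ≤
      8 * Real.exp (2 * (ε + 2) ^ 2) * x ^ ε *
        ((x / W + 1) ^ 2 / ((x / W + 1) ^ 2 + ((n : ℝ) - x) ^ 2)) := by
  have hx0 : 0 < x := by linarith
  have hW0 : 0 < W := by linarith
  rcases Nat.eq_zero_or_pos n with rfl | hn
  · rw [Nat.cast_zero, Real.zero_rpow hε.ne', zero_mul]
    positivity
  have hn0 : (0 : ℝ) < n := by exact_mod_cast hn
  set L := Real.log n - Real.log x with hL
  have h1 := vgb_core hε hW L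
  have e1 : Real.exp L = n / x := by rw [hL, Real.exp_sub, Real.exp_log hn0, Real.exp_log hx0]
  have e2 : (n : ℝ) ^ ε = x ^ ε * Real.exp (ε * L) := by
    rw [Real.rpow_def_of_pos hn0, Real.rpow_def_of_pos hx0, ← Real.exp_add, hL]
    congr 1
    ring
  have e3 : (W * (Real.log x - Real.log n)) ^ 2 = (W * L) ^ 2 := by rw [hL]; ring
  rw [e1] at h1
  rw [e2, e3]
  have hD : 0 < 1 + W ^ 2 * ((n : ℝ) / x - 1) ^ 2 := by positivity
  have h2 : 1 / (1 + W ^ 2 * ((n : ℝ) / x - 1) ^ 2) ≤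
      (x / W + 1) ^ 2 / ((x / W + 1) ^ 2 + ((n : ℝ) - x) ^ 2) := by
    rw [div_le_div_iff₀ hD (by positivity)]
    have e4 : ((n : ℝ) - x) ^ 2 = (x / W) ^ 2 * (W ^ 2 * ((n : ℝ) / x - 1) ^ 2) := by
      field_simp
    have h3 : (x / W) ^ 2 ≤ (x / W + 1) ^ 2 := by
      have : 0 < x / W := by positivity
      nlinarith
    rw [e4]
    nlinarith [mul_le_mul_of_nonneg_right h3
      (by positivity : (0 : ℝ) ≤ W ^ 2 * ((n : ℝ) / x - 1) ^ 2)]
  have h4 : Real.exp (ε * L) * Real.exp (-(W * L) ^ 2 / 4) ≤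
      8 * Real.exp (2 * (ε + 2) ^ 2) * (1 / (1 + W ^ 2 * ((n : ℝ) / x - 1) ^ 2)) := by
    rw [mul_one_div, le_div_iff₀ hD]
    exact h1
  have h5 := h4.trans (mul_le_mul_of_nonneg_left h2 (by positivity))
  have h6 : 0 ≤ x ^ ε := by positivity
  calc _ = x ^ ε * (Real.exp (ε * L) * Real.exp (-(W * L) ^ 2 / 4)) := by ring
    _ ≤ _ := mul_le_mul_of_nonneg_left h5 h6
    _ = _ := by ring

/- For `n ≤ 2 x`: `|log x - log n| ≥ |x - n| / (2 x)`, `exp (-y ^ 2) ≤ 1 / (1 + y ^ 2)`, and the sum of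
`1 / (1 + (k / ℓ) ^ 2)` over integers `k ≥ 0` is at most `C * (ℓ + 1)`, `ℓ = 4 x / W`.
For `n > 2 x`, with `L = log (n / x) ≥ log 2`: `W ^ 2 L ^ 2 / 4 ≥ W ^ 2 (log 2) ^ 2 / 8 + L ^ 2 / 8`,
`exp (-c W ^ 2) ≤ C / W`, `exp (-L ^ 2 / 8) ≤ C * (x / n) ^ (2 + ε)`, and `∑ n > 2 x, n ^ (-2) ≤ 1 / x`. -/
theorem gs {ε : ℝ} (hε : 0 < ε) : ∃ C : ℝ, 0 < C ∧ ∀ W x : ℝ, 1 ≤ W → 1 ≤ x →
    Summable (fun n : ℕ => (n : ℝ) ^ ε * Real.exp (-(W * (Real.log x - Real.log n)) ^ 2 / 4)) ∧
      ∑' n : ℕ, (n : ℝ) ^ ε * Real.exp (-(W * (Real.log x - Real.log n)) ^ 2 / 4) ≤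
        C * x ^ ε * (x / W + 1) := by
  refine ⟨8 * Real.exp (2 * (ε + 2) ^ 2) * 8, by positivity, fun W x hW hx => ?_⟩
  have hm : 1 ≤ x / W + 1 := by
    have : 0 ≤ x / W := by positivity
    linarith
  have h0 : ∀ n : ℕ,
      0 ≤ (n : ℝ) ^ ε * Real.exp (-(W * (Real.log x - Real.log n)) ^ 2 / 4) := fun n => by
    positivity
  have h1 : ∀ N : ℕ, ∑ n ∈ Finset.range N,
      (n : ℝ) ^ ε * Real.exp (-(W * (Real.log x - Real.log n)) ^ 2 / 4) ≤
        8 * Real.exp (2 * (ε + 2) ^ 2) * 8 * x ^ ε * (x / W + 1) := fun N => by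
    refine (Finset.sum_le_sum fun n _ => vgb_term hε hW hx n).trans ?_
    rw [← Finset.mul_sum]
    refine (mul_le_mul_of_nonneg_left (vgb_sum hm x N) (by positivity)).trans_eq ?_
    ring
  exact ⟨summable_of_sum_range_le h0 h1, Real.tsum_le_of_sum_range_le h0 h1⟩

end Pool.Agent.Lib.MP_2a1a00_nt
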