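import Pool.Agent.Lib.MP_2a1a00_nt.V.B1
import Pool.Agent.Lib.MP_2a1a00_nt.V.Gb
import Pool.Agent.Lib.MP_2a1a00_nt.Nm
import Pool.Agent.Lib.MP_2a1a00_nt.Triv

/-! Elementary bounds for the smoothed error term. -/

namespace Pool.Agent.Lib.MP_2a1a00_nt

open Complex MeasureTheory Set

namespace Sel

variable (F : Sel)

theorem vb2_ball {s : ℂ} (hs : s ∈ Metric.closedBall (1 : ℂ) (1 / 2)) :
    |s.re| ≤ 2 ∧ 1 / 2 ≤ ‖s‖ ∧ ‖s‖ ≤ 2 := by
  obtain ⟨h1, h2⟩ := triv_ball hs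
  have h3 := mem_closedBall_iff_norm.1 hs
  have h4 := norm_sub_norm_le s 1
  rw [norm_one] at h4
  exact ⟨abs_le.2 ⟨by linarith, by linarith⟩, by linarith [re_le_norm s], by linarith⟩

theorem vb2_sum {ε : ℝ} (hε : 0 < ε) : ∃ C : ℝ, 0 < C ∧ ∀ (W x K : ℝ) (g : ℕ → ℝ) (S : ℂ), 1 ≤ W →
    1 ≤ x → 0 ≤ K → (∀ n, |g n| ≤ K * Real.exp (-(W * (Real.log x - Real.log n)) ^ 2 / 4)) →
    HasSum (fun n : ℕ => F.f0 n * (g n : ℝ)) S → ‖S‖ ≤ C * K * x ^ ε * (x / W + 1) := by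
  obtain ⟨C₁, h₁, H₁⟩ := F.f0_le hε
  obtain ⟨C₂, h₂, H₂⟩ := gs hε
  refine ⟨C₁ * C₂, by positivity, fun W x K g S hW hx hK hg hS => ?_⟩
  obtain ⟨h3, h4⟩ := H₂ W x hW hx
  have h5 := HasSum.norm_le_of_bounded hS (h3.hasSum.mul_left (C₁ * K)) fun n => by
    rw [norm_mul, norm_real, Real.norm_eq_abs]
    refine (mul_le_mul (H₁ n) (hg n) (abs_nonneg _) (by positivity)).trans (le_of_eq ?_)
    ring
  refine h5.trans ((mul_le_mul_of_nonneg_left h4 (by positivity)).trans (le_of_eq ?_))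
  ring

theorem vb2_E {x : ℝ} (hx : 1 ≤ x) :
    HasSum (fun n : ℕ => F.f0 n * ((if 0 ≤ Real.log x - Real.log n then 1 else 0 : ℝ) : ℂ))
      (∑ n ∈ Finset.Icc 1 ⌊x⌋₊, F.f n) := by
  have key : ∀ n : ℕ, n ≠ 0 → (0 ≤ Real.log x - Real.log n ↔ n ≤ ⌊x⌋₊) := fun n hn => by
    rw [sub_nonneg, Real.log_le_log_iff (by positivity) (by linarith), Nat.le_floor_iff (by linarith)]
  have e : ∑ n ∈ Finset.Icc 1 ⌊x⌋₊, F.f n = ∑ n ∈ Finset.Icc 1 ⌊x⌋₊,
      F.f0 n * ((if 0 ≤ Real.log x - Real.log n then 1 else 0 : ℝ) : ℂ) :=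
    Finset.sum_congr rfl fun n hn => by
      obtain ⟨h1, h2⟩ := Finset.mem_Icc.1 hn
      rw [f0, if_neg (by omega), if_pos ((key n (by omega)).2 h2), ofReal_one, mul_one]
  rw [e]
  refine hasSum_sum_of_ne_finset_zero fun n hn => ?_
  by_cases h0 : n = 0
  · rw [f0, if_pos h0, zero_mul]
  · rw [if_neg fun h => hn (Finset.mem_Icc.2 ⟨by omega, (key n h0).1 h⟩), ofReal_zero, mul_zero]

theorem vb2_pow {ε T x : ℝ} (hε : 0 < ε) (hT : 1 ≤ T) (hx : x ∈ Icc T (2 * T)) :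
    x ^ ε ≤ 2 ^ ε * T ^ ε := by
  rw [← Real.mul_rpow (by norm_num) (by linarith)]
  exact Real.rpow_le_rpow (by linarith [hx.1]) hx.2 hε.le

/- `B_ser`, `cdf_le`, `f0_le`, `gs`: `E x + res (x ^ s / s)` is the sum of `f0 n * (if 0 ≤ log x - log n then 1 else 0)`
(for `n ≥ 1` the condition is `n ≤ ⌊x⌋₊`).  The residues differ by `res (x ^ s * ((gW W s - 1) / s))`: `res_add`,
`res_le`, `gW_sub` (on the closed ball `1 / 2 ≤ ‖s‖ ≤ 3 / 2`). -/
theorem B_near {ε : ℝ} (hε : 0 < ε) : ∃ C : ℝ, 0 < C ∧ ∀ T W : ℝ, 1 ≤ W → W ≤ T →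
    ∀ x ∈ Icc T (2 * T), ‖F.E x - F.B W x‖ ≤ C * T ^ ε * (T / W) := by
  obtain ⟨C₁, h₁, H₁⟩ := F.vb2_sum hε
  obtain ⟨C₂, h₂, H₂⟩ := F.res_le hε
  refine ⟨2 ^ ε * (3 * C₁ + 4 * Real.exp 4 * C₂), by positivity, fun T W hW hWT x hx => ?_⟩
  have hT : 1 ≤ T := hW.trans hWT
  have hx1 : 1 ≤ x := hT.trans hx.1
  have hx0 : 0 < x := by linarith
  have hW0 : 0 < W := by linarith
  have s1 := H₁ W x 1 (fun n => (if 0 ≤ Real.log x - Real.log n then 1 else 0) -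
    cdf W (Real.log x - Real.log n)) _ hW hx1 zero_le_one
    (fun n => by rw [one_mul]; exact cdf_le hW0 _)
    (by simpa only [ofReal_sub, mul_sub] using (F.vb2_E hx1).sub (F.B_ser hW0 hx0))
  have s2 := H₂ x (2 * Real.exp 4 / W) (fun s => (gW W s - 1) / s) hx1
    (((differentiable_gW W).sub_const 1).differentiableOn.div differentiableOn_id fun s hs =>
      norm_pos_iff.1 (by linarith [(vb2_ball hs).2.1])) fun s hs => by
      obtain ⟨h3, h4, h5⟩ := vb2_ball hs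
      have h6 : 0 < ‖s‖ := by linarith
      rw [norm_div, div_le_iff₀ h6]
      refine (gW_sub hW h3).trans ?_
      have h7 : ‖s‖ ^ 2 / W ^ 2 ≤ 2 / W * ‖s‖ := by
        rw [div_le_iff₀ (by positivity)]
        have e : 2 / W * ‖s‖ * W ^ 2 = 2 * W * ‖s‖ := by field_simp
        rw [e]
        nlinarith
      refine (mul_le_mul_of_nonneg_left h7 (Real.exp_pos _).le).trans (le_of_eq ?_)
      ring
  have hne : ∀ s ∈ Metric.sphere (1 : ℂ) (1 / 2), s ≠ 0 := fun s hs => (triv_sph hs le_rfl).1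
  have e1 : (F.res fun s => (x : ℂ) ^ s * ((gW W s - 1) / s)) =
      1 * (F.res fun s => (x : ℂ) ^ s * (gW W s / s)) + -1 * F.res fun s => (x : ℂ) ^ s / s := by
    refine (F.res_congr fun s _ => by ring).trans (F.res_add (h₁ := fun s => (x : ℂ) ^ s * (gW W s / s))
      (h₂ := fun s => (x : ℂ) ^ s / s) 1 (-1) ((triv_cpow hx0).continuousOn.fun_mul
      ((differentiable_gW W).continuous.continuousOn.div continuousOn_id hne))
      ((triv_cpow hx0).continuousOn.div continuousOn_id hne))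
  have e2 : F.E x - F.B W x = (∑ n ∈ Finset.Icc 1 ⌊x⌋₊, F.f n -
      (F.B W x + F.res fun s => (x : ℂ) ^ s * (gW W s / s))) +
      F.res fun s => (x : ℂ) ^ s * ((gW W s - 1) / s) := by
    rw [e1, E]
    ring
  rw [e2]
  refine (norm_add_le _ _).trans ((add_le_add s1 s2).trans ?_)
  have h3 := vb2_pow hε hT hx
  have h4 : x / W ≤ 2 * (T / W) := by
    rw [← mul_div_assoc]
    exact div_le_div_of_nonneg_right hx.2 hW0.le
  have h5 : 1 ≤ T / W := (one_le_div hW0).2 hWT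
  rw [Real.rpow_add hx0, Real.rpow_one]
  calc C₁ * 1 * x ^ ε * (x / W + 1) + C₂ * (x * x ^ ε) * (2 * Real.exp 4 / W)
      = x ^ ε * (C₁ * (x / W + 1) + 2 * Real.exp 4 * C₂ * (x / W)) := by ring
    _ ≤ (2 ^ ε * T ^ ε) * (C₁ * (3 * (T / W)) + 2 * Real.exp 4 * C₂ * (2 * (T / W))) := by
        gcongr
        linarith
    _ = _ := by ring

/- `B1_ser`, `ph W u ≤ W * exp (-(W u) ^ 2 / 4)`, `gs`, `res_le`. -/
theorem B1_le {ε : ℝ} (hε : 0 < ε) : ∃ C : ℝ, 0 < C ∧ ∀ T W : ℝ, 1 ≤ W → W ≤ T →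
    ∀ x ∈ Icc T (2 * T), ‖F.B1 W x‖ ≤ C * T ^ ε := by
  obtain ⟨C₁, h₁, H₁⟩ := F.vb2_sum hε
  obtain ⟨C₂, h₂, H₂⟩ := F.res_le hε
  refine ⟨2 ^ ε * (2 * C₁ + Real.exp 4 * C₂), by positivity, fun T W hW hWT x hx => ?_⟩
  have hT : 1 ≤ T := hW.trans hWT
  have hx1 : 1 ≤ x := hT.trans hx.1
  have hx0 : 0 < x := by linarith
  have hW0 : 0 < W := by linarith
  have s1 := H₁ W x W (fun n => ph W (Real.log x - Real.log n)) _ hW hx1 hW0.le (fun n => by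
    rw [abs_of_pos (ph_pos hW0 _), ph]
    refine mul_le_mul_of_nonneg_right (div_le_self hW0.le ?_) (Real.exp_pos _).le
    have := Real.one_le_sqrt.2 (show 1 ≤ Real.pi by linarith [Real.pi_gt_three])
    linarith) (F.B1_ser hW0 hx0)
  have s2 := H₂ x (Real.exp 4) (gW W) hx1 (differentiable_gW W).differentiableOn fun s hs => by
    rw [norm_gW hW0]
    refine Real.exp_le_exp.2 ?_
    obtain ⟨h3, h4⟩ := abs_le.1 (vb2_ball hs).1
    rw [div_le_iff₀ (by positivity)]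
    nlinarith [sq_nonneg s.im]
  have h3 : x * ‖F.B1 W x‖ ≤ x * (x ^ ε * (2 * C₁ + Real.exp 4 * C₂)) := by
    have e : (x : ℂ) * F.B1 W x = (x * F.B1 W x + F.res fun s => (x : ℂ) ^ s * gW W s) -
        F.res fun s => (x : ℂ) ^ s * gW W s := by ring
    have h4 := norm_sub_le (x * F.B1 W x + F.res fun s => (x : ℂ) ^ s * gW W s)
      (F.res fun s => (x : ℂ) ^ s * gW W s)
    rw [← e, norm_mul, norm_real, Real.norm_of_nonneg hx0.le] at h4
    refine h4.trans ((add_le_add s1 s2).trans ?_)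
    rw [Real.rpow_add hx0, Real.rpow_one]
    have h5 : W * (x / W + 1) ≤ 2 * x := by
      rw [mul_add, mul_div_cancel₀ _ hW0.ne']
      linarith [hx.1]
    calc C₁ * W * x ^ ε * (x / W + 1) + C₂ * (x * x ^ ε) * Real.exp 4
        = C₁ * x ^ ε * (W * (x / W + 1)) + C₂ * (x * x ^ ε) * Real.exp 4 := by ring
      _ ≤ C₁ * x ^ ε * (2 * x) + C₂ * (x * x ^ ε) * Real.exp 4 := by gcongr
      _ = _ := by ring
  refine (le_of_mul_le_mul_left h3 hx0).trans ?_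
  refine (mul_le_mul_of_nonneg_right (vb2_pow hε hT hx) (by positivity)).trans (le_of_eq ?_)
  ring

theorem B_cont {W : ℝ} (hW : 0 < W) : ContinuousOn (F.B W) (Ioi 0) := by
  exact fun x hx => (F.B_der hW hx).continuousAt.continuousWithinAt

theorem nice_B {W T : ℝ} (hW : 0 < W) (hT : 0 < T) : Nice (F.B W) (F.B1 W) T := by
  have h : Icc T (2 * T) ⊆ Ioi 0 := fun x hx => hT.trans_le hx.1
  exact ⟨(F.B_cont hW).mono h, fun x hx => (F.B_der hW (hT.trans hx.1)).hasDerivWithinAt,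
    Bm.of_cont ((F.B1_cont hW).mono h)⟩

end Sel

end Pool.Agent.Lib.MP_2a1a00_nt
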