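import Pool.Agent.Lib.MP_2a1a00_nt.V.H4
import Pool.Agent.Lib.MP_2a1a00_nt.V.Av
import Pool.Agent.Lib.MP_2a1a00_nt.V.B2

/-! Pointwise and mean square consequences of the Voronoi formula. -/

namespace Pool.Agent.Lib.MP_2a1a00_nt

open Complex MeasureTheory Set

theorem vc1_floor {W T d δ : ℝ} (hW : 0 < W) (hT : 0 < T) :
    (⌊W ^ d * T ^ (δ - 1)⌋₊ : ℝ) ≤ W ^ d * T ^ (δ - 1) := Nat.floor_le (by positivity)

theorem vc1_four {T a y : ℝ} (hT : 0 < T) (h0 : 0 ≤ a) (h1 : a ≤ 1) (hy : y ∈ Icc (T / 2) (4 * T)) :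
    y ^ a ≤ 4 * T ^ a := by
  have hy0 : 0 ≤ y := le_trans (by positivity) hy.1
  refine (Real.rpow_le_rpow hy0 hy.2 h0).trans ?_
  rw [Real.mul_rpow (by norm_num) hT.le]
  refine mul_le_mul_of_nonneg_right ?_ (by positivity)
  exact (Real.rpow_le_rpow_of_exponent_le (by norm_num) h1).trans_eq (Real.rpow_one _)

theorem vc1_two {T a y : ℝ} (hT : 0 < T) (h0 : a ≤ 0) (h1 : -1 ≤ a)
    (hy : y ∈ Icc (T / 2) (4 * T)) : y ^ a ≤ 2 * T ^ a := by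
  refine (Real.rpow_le_rpow_of_nonpos (by positivity) hy.1 h0).trans ?_
  rw [Real.div_rpow hT.le (by norm_num), div_eq_mul_inv, mul_comm, ← Real.rpow_neg (by norm_num)]
  refine mul_le_mul_of_nonneg_right ?_ (by positivity)
  exact (Real.rpow_le_rpow_of_exponent_le (by norm_num) (by linarith : -a ≤ 1)).trans_eq
    (Real.rpow_one _)

theorem vc1_sq {f g : ℝ → ℂ} {T A : ℝ} (hT : 0 ≤ T) (hf : Bm f T) (hg : Bm g T)
    (h : ∀ x ∈ Icc T (2 * T), ‖f x‖ ≤ ‖g x‖ + A) : Sq f T ≤ 2 * Sq g T + 2 * (T * A ^ 2) := by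
  have h1 := intervalIntegral.integral_mono_on (μ := volume) (by linarith : T ≤ 2 * T)
    (hf.int_sq hT) (((hg.int_sq hT).const_mul 2).add (intervalIntegrable_const (c := 2 * A ^ 2)))
    fun x hx => by
      have h2 := pow_le_pow_left₀ (norm_nonneg _) (h x hx) 2
      nlinarith [sq_nonneg (‖g x‖ - A)]
  rw [intervalIntegral.integral_add ((hg.int_sq hT).const_mul 2) intervalIntegrable_const,
    intervalIntegral.integral_const_mul, intervalIntegral.integral_const, smul_eq_mul] at h1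
  unfold Sq
  linarith

namespace Sel

variable (F : Sel) {P : Vo}

/- `W = T ^ (2 / (d + 1))`: `T / W = T ^ ((d - 1) / (d + 1)) = W ^ ((d - 1) / 2)`.  `B_near`, `hP`, `av_sup` with `H_le`:
`N T ≤ W ^ d T ^ δ`, so `T ^ al d * N ^ al d ≤ W ^ ((d - 1) / 2) * T ^ δ`, and `N ≤ T ^ (d + δ)`. -/
theorem E_sup (h2 : 2 ≤ F.deg) (h3 : F.deg ≤ 3) (hP : F.Vor P) {ε : ℝ} (hε : 0 < ε) :
    ∃ C : ℝ, 1 ≤ C ∧ ∀ T : ℝ, 1 ≤ T → ∀ x ∈ Icc T (2 * T),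
      ‖F.E x‖ ≤ C * T ^ ε * T ^ ((F.deg - 1) / (F.deg + 1)) := by
  obtain ⟨δ, hδ0, hδ1, hδ2⟩ : ∃ δ : ℝ, 0 < δ ∧ δ ≤ 1 ∧ 3 * δ ≤ ε :=
    ⟨min 1 (ε / 3), lt_min one_pos (by linarith), min_le_left _ _,
      by linarith [min_le_right 1 (ε / 3)]⟩
  obtain ⟨C₁, hC₁, H₁⟩ := F.B_near hδ0
  obtain ⟨C₂, hC₂, H₂⟩ := hP.2 δ hδ0
  obtain ⟨C₃, hC₃, H₃⟩ := F.H_le P h2 hδ0
  obtain ⟨a1, a2, -⟩ := al_mem h2
  refine ⟨1 + C₁ + C₂ + 4 * C₃, by linarith, fun T hT x hx => ?_⟩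
  obtain ⟨d, hd⟩ : ∃ d, d = F.deg := ⟨_, rfl⟩
  rw [← hd] at h2 h3 H₂ H₃ a1 a2 ⊢
  have hT0 : 0 < T := by linarith
  have hd1 : 0 < d + 1 := by linarith
  have hd0 : 0 < d := by linarith
  obtain ⟨u, hu⟩ : ∃ u : ℝ, u = 2 / (d + 1) := ⟨_, rfl⟩
  have hu1 : u * (d + 1) = 2 := by rw [hu]; field_simp
  have hu2 : 1 / 2 ≤ u := by nlinarith
  have hu3 : u ≤ 1 := by nlinarith
  have hθ : (d - 1) / (d + 1) = 1 - u := by rw [hu]; field_simp; ring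
  have hal : u * d * al d = 1 - u := by rw [hu, al]; field_simp; ring
  have hW0 : 0 < T ^ u := by positivity
  have hW1 : 1 ≤ T ^ u := Real.one_le_rpow hT (by linarith)
  have hW2 : √T ≤ T ^ u := by
    rw [Real.sqrt_eq_rpow]
    exact Real.rpow_le_rpow_of_exponent_le hT hu2
  have hW3 : T ^ u ≤ T := (Real.rpow_le_rpow_of_exponent_le hT hu3).trans_eq (Real.rpow_one _)
  have e1 := H₁ T (T ^ u) hW1 hW3 x hx
  have e2 := H₂ T (T ^ u) hT hW2 hW3 x hx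
  obtain ⟨N, hN⟩ : ∃ N : ℕ, N = ⌊(T ^ u) ^ d * T ^ (δ - 1)⌋₊ := ⟨_, rfl⟩
  have hN1 : (N : ℝ) ≤ T ^ (u * d + (δ - 1)) := by
    rw [Real.rpow_add hT0, Real.rpow_mul hT0.le, hN]
    exact vc1_floor hW0 hT0
  rw [← hN] at e2
  have e3 : ‖av (T ^ u) (F.H P 0 N) x‖ ≤ 4 * C₃ * (T ^ ε * T ^ (1 - u)) := by
    refine av_sup hW0 hT0 (F.H_cont P 0 N) (fun y hy => ?_) hx
    have hy0 : 0 < y := lt_of_lt_of_le (by positivity) hy.1
    refine (H₃ 0 N y hy0).trans ?_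
    have b1 := vc1_four hT0 (by linarith : 0 ≤ al d) (by linarith) hy
    have b2 : (N : ℝ) ^ (al d + δ) ≤ T ^ ((u * d + (δ - 1)) * (al d + δ)) := by
      rw [Real.rpow_mul hT0.le]
      exact Real.rpow_le_rpow (Nat.cast_nonneg _) hN1 (by linarith)
    have b3 : T ^ al d * T ^ ((u * d + (δ - 1)) * (al d + δ)) ≤ T ^ ε * T ^ (1 - u) := by
      rw [← Real.rpow_add hT0, ← Real.rpow_add hT0]
      refine Real.rpow_le_rpow_of_exponent_le hT ?_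
      have b4 : u * d = 2 - u := by linarith
      have b5 : δ * (al d + (1 - u) + δ) ≤ δ * 3 :=
        mul_le_mul_of_nonneg_left (by linarith) hδ0.le
      have b6 : al d + (u * d + (δ - 1)) * (al d + δ) =
          u * d * al d + δ * (al d + (u * d - 1) + δ) := by ring
      rw [b6, hal, b4]
      linarith
    calc C₃ * y ^ al d * (N : ℝ) ^ (al d + δ)
        ≤ C₃ * (4 * T ^ al d) * T ^ ((u * d + (δ - 1)) * (al d + δ)) := by gcongr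
      _ = 4 * C₃ * (T ^ al d * T ^ ((u * d + (δ - 1)) * (al d + δ))) := by ring
      _ ≤ _ := mul_le_mul_of_nonneg_left b3 (by positivity)
  have c1 : T ^ δ ≤ T ^ ε := Real.rpow_le_rpow_of_exponent_le hT (by linarith)
  have c2 : T / T ^ u = T ^ (1 - u) := by rw [Real.rpow_sub hT0, Real.rpow_one]
  have c3 : (T ^ u) ^ (d / 2 - 1) ≤ T ^ (1 - u) := by
    rw [← Real.rpow_mul hT0.le]
    exact Real.rpow_le_rpow_of_exponent_le hT (by nlinarith)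
  have e4 : C₁ * T ^ δ * (T / T ^ u) ≤ C₁ * (T ^ ε * T ^ (1 - u)) := by
    rw [c2, mul_assoc]
    gcongr
  have e5 : C₂ * T ^ δ * (T ^ u) ^ (d / 2 - 1) ≤ C₂ * (T ^ ε * T ^ (1 - u)) := by
    rw [mul_assoc]
    gcongr
  have e6 : F.E x = (F.E x - F.B (T ^ u) x) + (F.B (T ^ u) x - av (T ^ u) (F.H P 0 N) x) +
      av (T ^ u) (F.H P 0 N) x := by ring
  have e7 : 0 ≤ T ^ ε * T ^ (1 - u) := by positivity
  rw [e6, hθ]
  refine norm_add₃_le.trans ?_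
  linarith

/- With `N = ⌊W ^ d * T ^ (δ - 1)⌋₊ ≥ M`: `B W - H 0 M` is the sum of `B W - av W (H 0 N)` (`hP`), `av W (H M N)` (`H_split`,
`av_add`, `av_sq`, `H_mv`; `T ^ (2 - 2 / d) * N ^ (1 - 2 / d) ≤ T * W ^ (d - 2) * T ^ δ`) and `av W (H 0 M) - H 0 M`
(`av_near`, `H_der`; on `[T / 2, 4 T]`: `y ^ (al d + 1 / d - 1) ≤ 2 T ^ (al d + 1 / d - 1)`). -/
theorem B_sq (h2 : 2 ≤ F.deg) (hP : F.Vor P) {ε : ℝ} (hε : 0 < ε) : ∃ C : ℝ, 0 < C ∧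
    ∀ (T W : ℝ) (M : ℕ), 1 ≤ T → √T ≤ W → W ≤ T → (M : ℝ) ≤ W ^ F.deg / T →
    Sq (fun x => F.B W x - F.H P 0 M x) T ≤ C * T ^ ε *
      (T ^ (2 - 1 / F.deg) * ((M : ℝ) + 1) ^ (-1 / F.deg) + T * W ^ (F.deg - 2) +
        T * (T ^ (al F.deg + 1 / F.deg) * M / W) ^ 2) := by
  have hd0 : 0 < F.deg := by linarith
  obtain ⟨δ, hδ0, hδ1, hδ2⟩ : ∃ δ : ℝ, 0 < δ ∧ δ ≤ 1 ∧ (F.deg + 2) * δ ≤ ε :=
    ⟨min 1 (ε / (F.deg + 2)), lt_min one_pos (by positivity), min_le_left _ _, by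
      rw [mul_comm, ← le_div_iff₀ (by positivity)]
      exact min_le_right _ _⟩
  obtain ⟨C₂, hC₂, H₂⟩ := hP.2 δ hδ0
  obtain ⟨C₃, hC₃, H₃⟩ := F.H_mv hP.1 h2 hδ0
  obtain ⟨C₄, hC₄, H₄⟩ := F.H_der P h2
  obtain ⟨a1, a2, a3⟩ := al_mem h2
  refine ⟨4 * C₃ + 4 * C₂ ^ 2 + 4 * (180 * C₄) ^ 2, by positivity,
    fun T W M hT hW1 hW2 hM => ?_⟩
  obtain ⟨d, hd⟩ : ∃ d, d = F.deg := ⟨_, rfl⟩
  rw [← hd] at h2 hd0 hδ2 H₂ H₃ H₄ a1 a2 a3 hM ⊢
  have hT0 : 0 < T := by linarith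
  have hW0 : 0 < W := (Real.sqrt_pos.2 hT0).trans_le hW1
  have hi0 : 0 < 1 / d := by positivity
  have hi2 : 0 ≤ 1 - 2 / d := by
    rw [sub_nonneg, div_le_one hd0]
    exact h2
  have hi3 : 0 < 2 / d := by positivity
  obtain ⟨N, hN⟩ : ∃ N : ℕ, N = ⌊W ^ d * T ^ (δ - 1)⌋₊ := ⟨_, rfl⟩
  have hN1 : (N : ℝ) ≤ W ^ d * T ^ (δ - 1) := hN ▸ vc1_floor hW0 hT0
  have hMN : M ≤ N := by
    rw [hN]
    refine Nat.le_floor (hM.trans ?_)
    rw [div_eq_mul_inv, ← Real.rpow_neg_one]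
    exact mul_le_mul_of_nonneg_left (Real.rpow_le_rpow_of_exponent_le hT (by linarith))
      (by positivity)
  have hsub : Icc T (2 * T) ⊆ Ioi 0 := fun x hx => hT0.trans_le hx.1
  obtain ⟨H', -, d1, d2⟩ := H₄ M
  obtain ⟨R, hR⟩ : ∃ R : ℝ, R = T ^ (al d + 1 / d) * M / W := ⟨_, rfl⟩
  have hR0 : 0 ≤ R := by rw [hR]; positivity
  have e1 : ∀ x ∈ Icc T (2 * T), ‖av W (F.H P 0 M) x - F.H P 0 M x‖ ≤ 180 * C₄ * R :=
    fun x hx => by
    refine (av_near hW0 hT0 d1 (P := C₄ * (4 * T ^ al d) * M)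
      (P' := C₄ * (2 * T ^ (al d + 1 / d - 1)) * M) (fun y hy => ?_) hx).trans ?_
    · obtain ⟨b1, b2⟩ := d2 y (le_trans (by linarith) hy.1)
      have b3 := vc1_four hT0 (by linarith : 0 ≤ al d) (by linarith) hy
      have b4 := vc1_two hT0 (by linarith : al d + 1 / d - 1 ≤ 0) (by linarith) hy
      exact ⟨b1.trans (by gcongr), b2.trans (by gcongr)⟩
    · have b1 : T * T ^ (al d + 1 / d - 1) = T ^ (al d + 1 / d) := by
        rw [Real.rpow_sub_one hT0.ne']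
        field_simp
      have b2 : T ^ al d ≤ T ^ (al d + 1 / d) := Real.rpow_le_rpow_of_exponent_le hT (by linarith)
      have b3 : C₄ * M * T ^ al d ≤ C₄ * M * T ^ (al d + 1 / d) :=
        mul_le_mul_of_nonneg_left b2 (by positivity)
      rw [hR, ← mul_div_assoc]
      refine div_le_div_of_nonneg_right ?_ hW0.le
      have b4 : T * (C₄ * (2 * T ^ (al d + 1 / d - 1)) * M) =
          2 * (C₄ * M * T ^ (al d + 1 / d)) := by
        rw [← b1]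
        ring
      rw [b4]
      linarith
  obtain ⟨A, hA⟩ : ∃ A : ℝ, A = C₂ * T ^ δ * W ^ (d / 2 - 1) := ⟨_, rfl⟩
  have e2 := vc1_sq (f := fun x => F.B W x - F.H P 0 M x) (g := av W (F.H P M N))
    (A := A + 180 * C₄ * R) hT0.le
    (Bm.of_cont (((F.B_cont hW0).sub (F.H_cont P 0 M)).mono hsub))
    (Bm.of_cont ((av_cont (F.H_cont P M N)).mono hsub)) fun x hx => by
      have b1 := H₂ T W hT hW1 hW2 x hx
      rw [← hN, ← hA] at b1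
      have b2 : av W (F.H P 0 N) x = av W (F.H P 0 M) x + av W (F.H P M N) x := by
        rw [← av_add (F.H_cont P 0 M) (F.H_cont P M N) (hsub hx)]
        exact congrArg (fun h => av W h x) (funext (F.H_split P hMN))
      have b3 : F.B W x - F.H P 0 M x = av W (F.H P M N) x + (F.B W x - av W (F.H P 0 N) x) +
          (av W (F.H P 0 M) x - F.H P 0 M x) := by
        rw [b2]
        ring
      rw [b3]
      refine norm_add₃_le.trans ?_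
      linarith [e1 x hx]
  have e3 := av_sq hW0 hT0 (F.H_cont P M N)
  have e4 := H₃ M N T hT
  obtain ⟨X, hX⟩ : ∃ X : ℝ, X = T ^ (2 - 1 / d) * ((M : ℝ) + 1) ^ (-1 / d) := ⟨_, rfl⟩
  have hX0 : 0 ≤ X := by rw [hX]; positivity
  obtain ⟨Y, hY⟩ : ∃ Y : ℝ, Y = T * W ^ (d - 2) := ⟨_, rfl⟩
  have hY0 : 0 ≤ Y := by rw [hY]; positivity
  rw [← hX] at e4
  rw [← hX, ← hY, ← hR]
  have hTδ : 1 ≤ T ^ δ := Real.one_le_rpow hT hδ0.le
  have hTε : 1 ≤ T ^ ε := Real.one_le_rpow hT hε.le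
  have c1 : (N : ℝ) ^ δ * T ^ δ ≤ T ^ ε := by
    have b1 : (N : ℝ) ≤ T ^ d := by
      refine hN1.trans ?_
      have b2 : T ^ (δ - 1) ≤ 1 := Real.rpow_le_one_of_one_le_of_nonpos hT (by linarith)
      exact (mul_le_of_le_one_right (by positivity) b2).trans (Real.rpow_le_rpow hW0.le hW2 hd0.le)
    have b3 : (N : ℝ) ^ δ ≤ T ^ (d * δ) := by
      rw [Real.rpow_mul hT0.le]
      exact Real.rpow_le_rpow (Nat.cast_nonneg _) b1 hδ0.le
    refine (mul_le_mul_of_nonneg_right b3 (by positivity)).trans ?_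
    rw [← Real.rpow_add hT0]
    exact Real.rpow_le_rpow_of_exponent_le hT (by linarith)
  have c2 : T ^ (2 - 2 / d) * (N : ℝ) ^ (1 - 2 / d) ≤ T ^ δ * Y := by
    have b1 : (N : ℝ) ^ (1 - 2 / d) ≤ W ^ (d - 2) * T ^ ((δ - 1) * (1 - 2 / d)) := by
      refine (Real.rpow_le_rpow (Nat.cast_nonneg _) hN1 hi2).trans (le_of_eq ?_)
      rw [Real.mul_rpow (by positivity) (by positivity), ← Real.rpow_mul hW0.le,
        ← Real.rpow_mul hT0.le]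
      congr 2
      field_simp
    have b2 : T ^ (2 - 2 / d) * T ^ ((δ - 1) * (1 - 2 / d)) ≤ T ^ δ * T := by
      rw [← Real.rpow_add hT0, ← Real.rpow_add_one hT0.ne']
      refine Real.rpow_le_rpow_of_exponent_le hT ?_
      nlinarith [mul_pos hδ0 hi3]
    calc T ^ (2 - 2 / d) * (N : ℝ) ^ (1 - 2 / d)
        ≤ T ^ (2 - 2 / d) * (W ^ (d - 2) * T ^ ((δ - 1) * (1 - 2 / d))) := by gcongr
      _ = T ^ (2 - 2 / d) * T ^ ((δ - 1) * (1 - 2 / d)) * W ^ (d - 2) := by ring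
      _ ≤ T ^ δ * T * W ^ (d - 2) := by gcongr
      _ = _ := by rw [hY, mul_assoc]
  have c3 : C₃ * (N : ℝ) ^ δ * (X + T ^ (2 - 2 / d) * (N : ℝ) ^ (1 - 2 / d)) ≤
      C₃ * (T ^ ε * (X + Y)) := by
    have b1 : X ≤ T ^ δ * X := le_mul_of_one_le_left hX0 hTδ
    calc C₃ * (N : ℝ) ^ δ * (X + T ^ (2 - 2 / d) * (N : ℝ) ^ (1 - 2 / d))
        ≤ C₃ * (N : ℝ) ^ δ * (T ^ δ * X + T ^ δ * Y) := by gcongr
      _ = C₃ * ((N : ℝ) ^ δ * T ^ δ * (X + Y)) := by ring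
      _ ≤ _ := by gcongr
  have c4 : T * A ^ 2 ≤ C₂ ^ 2 * (T ^ ε * Y) := by
    have b1 : (W ^ (d / 2 - 1)) ^ 2 = W ^ (d - 2) := by
      rw [← Real.rpow_natCast, ← Real.rpow_mul hW0.le]
      congr 1
      push_cast
      ring
    have b2 : (T ^ δ) ^ 2 ≤ T ^ ε := by
      rw [← Real.rpow_natCast, ← Real.rpow_mul hT0.le]
      refine Real.rpow_le_rpow_of_exponent_le hT ?_
      push_cast
      nlinarith [mul_pos hd0 hδ0]
    calc T * A ^ 2 = C₂ ^ 2 * ((T ^ δ) ^ 2 * Y) := by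
          rw [hA, hY, ← b1]
          ring
      _ ≤ _ := by gcongr
  have c5 : T * (180 * C₄ * R) ^ 2 ≤ (180 * C₄) ^ 2 * (T ^ ε * (T * R ^ 2)) := by
    have b1 : T * R ^ 2 ≤ T ^ ε * (T * R ^ 2) := le_mul_of_one_le_left (by positivity) hTε
    calc T * (180 * C₄ * R) ^ 2 = (180 * C₄) ^ 2 * (T * R ^ 2) := by ring
      _ ≤ _ := by gcongr
  have c6 : T * (A + 180 * C₄ * R) ^ 2 ≤ 2 * (T * A ^ 2) + 2 * (T * (180 * C₄ * R) ^ 2) := by
    have b1 := mul_nonneg hT0.le (sq_nonneg (A - 180 * C₄ * R))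
    linarith
  have g1 : 0 ≤ T ^ ε * X := by positivity
  have g2 : 0 ≤ T ^ ε * Y := by positivity
  have g3 : 0 ≤ T ^ ε * (T * R ^ 2) := by positivity
  have g4 := mul_nonneg hC₃.le g3
  have g5 := mul_nonneg (sq_nonneg C₂) g1
  have g6 := mul_nonneg (sq_nonneg C₂) g3
  have g7 := mul_nonneg (sq_nonneg (180 * C₄)) g1
  have g8 := mul_nonneg (sq_nonneg (180 * C₄)) g2
  linarith

end Sel

end Pool.Agent.Lib.MP_2a1a00_nt
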