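import Pool.Agent.Lib.MP_2a1a00_nt.V.C4
import Pool.Agent.Lib.MP_2a1a00_nt.V.C1
import Pool.Agent.Lib.MP_2a1a00_nt.V.Cnt
import Pool.Agent.Lib.MP_2a1a00_nt.Unt

/-! The eighth moment in degree two. -/

namespace Pool.Agent.Lib.MP_2a1a00_nt

open Complex MeasureTheory Set

theorem vc5_cube {T : ℝ} (hT : 0 ≤ T) : (T ^ (1 / 3 : ℝ)) ^ 3 = T := by
  rw [← Real.rpow_natCast, ← Real.rpow_mul hT]
  norm_num

theorem vc5_quart {T : ℝ} (hT : 0 ≤ T) : (T ^ (1 / 4 : ℝ)) ^ 8 = T ^ 2 := by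
  rw [← Real.rpow_natCast, ← Real.rpow_mul hT, ← Real.rpow_natCast]
  norm_num

/- `cnt` with `z = y ^ 6 / T`, `R = T / y ^ 3`: for `X` in the level set `2 Λ y R ≤ Λ (R y + √(R T / y))`;
`1 ≤ T / z` as `y ^ 6 ≤ T ^ 2`. -/
theorem c5_lev {Φ : ℝ → ℂ} {T y Λ : ℝ} (hT : 1 ≤ T) (hy : 0 < y) (hy' : y ≤ T ^ (1 / 3 : ℝ))
    (hΛ : 0 < Λ) (h : ∀ X : Finset ℝ, (∀ x ∈ X, x ∈ Icc T (2 * T)) → Sep X y (y ^ 6 / T) →
      ∑ x ∈ X, ‖Φ x‖ ≤ Λ * (X.card * y + √(X.card * T / y))) :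
    volume {x ∈ Icc T (2 * T) | 2 * Λ * y < ‖Φ x‖} ≤ ENNReal.ofReal (4 * T ^ 3 / y ^ 8) := by
  have hT0 : 0 < T := by linarith
  have h3 : y ^ 3 ≤ T := by
    rw [← vc5_cube hT0.le]
    exact pow_le_pow_left₀ hy.le hy' 3
  have h6 : y ^ 6 ≤ T ^ 2 := by
    have := pow_le_pow_left₀ (by positivity) h3 2
    rwa [← pow_mul] at this
  refine (cnt (R := T / y ^ 3) (y := y) (z := y ^ 6 / T) hT0.le (fun x hx => hx.1) hy
    (by positivity) ?_).trans (ENNReal.ofReal_le_ofReal ?_)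
  · intro X hX hS
    have h1 := h X (fun x hx => (hX hx).1) hS
    have h2 : (X.card : ℝ) * (2 * Λ * y) ≤ ∑ x ∈ X, ‖Φ x‖ := by
      have := Finset.card_nsmul_le_sum X (fun x => ‖Φ x‖) (2 * Λ * y) fun x hx => (hX hx).2.le
      rwa [nsmul_eq_mul] at this
    have h4 : Λ * (X.card * y) ≤ Λ * √(X.card * T / y) := by linarith
    have h5 : (X.card : ℝ) * y ≤ √(X.card * T / y) := le_of_mul_le_mul_left h4 hΛ
    have h7 : ((X.card : ℝ) * y) ^ 2 ≤ X.card * T / y :=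
      (Real.le_sqrt (by positivity) (by positivity)).1 h5
    rcases Nat.eq_zero_or_pos X.card with h0 | h0
    · rw [h0, Nat.cast_zero]
      positivity
    · have h8 : (0 : ℝ) < X.card := Nat.cast_pos.2 h0
      rw [le_div_iff₀ hy] at h7
      rw [le_div_iff₀ (by positivity)]
      refine le_of_mul_le_mul_left ?_ h8
      nlinarith
  · have h9 : 1 ≤ T / (y ^ 6 / T) := by
      rw [le_div_iff₀ (by positivity), one_mul, div_le_iff₀ hT0]
      linarith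
    calc 2 * y * (T / y ^ 3) * (T / (y ^ 6 / T) + 1)
        ≤ 2 * y * (T / y ^ 3) * (T / (y ^ 6 / T) + T / (y ^ 6 / T)) := by gcongr
      _ = 4 * T ^ 3 / y ^ 8 := by
        field_simp
        ring

theorem vc5_eight {η : ℝ} (hη : 0 < η) : ∃ C : ℝ, 0 < C ∧ ∀ (Φ : ℝ → ℂ) (T K : ℝ), 1 ≤ T →
    Bm Φ T → 0 < K → (∀ x ∈ Icc T (2 * T), ‖Φ x‖ ≤ K * T ^ η * T ^ (1 / 3 : ℝ)) →
    (∀ (y : ℝ) (X : Finset ℝ), T ^ (1 / 4 : ℝ) ≤ y → y ≤ T ^ (1 / 3 : ℝ) →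
      (∀ x ∈ X, x ∈ Icc T (2 * T)) → Sep X y (y ^ 6 / T) →
      ∑ x ∈ X, ‖Φ x‖ ≤ K * T ^ η * (X.card * y + √(X.card * T / y))) →
    mu0 8 Φ T ≤ C * K ^ 8 * T ^ (9 * η) * T ^ 3 := by
  obtain ⟨C₀, hC₀, h0⟩ := lc 8
  obtain ⟨C₁, hC₁, h1⟩ := log_le_rpow hη
  refine ⟨C₀ * 2 ^ 8 * (1 + 4 * C₁), by positivity, fun Φ T K hT hb hK hs hp => ?_⟩
  have hT0 : 0 < T := by linarith
  have hy0 : 1 ≤ T ^ (1 / 4 : ℝ) := Real.one_le_rpow hT (by norm_num)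
  have hyS : T ^ (1 / 4 : ℝ) ≤ T ^ (1 / 3 : ℝ) :=
    Real.rpow_le_rpow_of_exponent_le hT (by norm_num)
  have hΛ : 0 < K * T ^ η := by positivity
  have hη1 : 1 ≤ T ^ η := Real.one_le_rpow hT hη.le
  have h2 := h0 Φ T (2 * (K * T ^ η)) (T ^ (1 / 4 : ℝ)) (T ^ (1 / 3 : ℝ)) (4 * T ^ 3) hT0.le hb
    (by positivity) (by positivity) hyS (by positivity)
    (fun x hx => (hs x hx).trans (by
      have : 0 ≤ K * T ^ η * T ^ (1 / 3 : ℝ) := by positivity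
      linarith))
    (fun y hy => c5_lev hT (by linarith [hy.1]) hy.2 hΛ fun X hX hS => hp y X hy.1 hy.2 hX hS)
  have h3 : T ^ (1 / 3 : ℝ) / T ^ (1 / 4 : ℝ) ≤ T := by
    refine (div_le_self (by positivity) hy0).trans ?_
    simpa using Real.rpow_le_rpow_of_exponent_le hT (by norm_num : (1 / 3 : ℝ) ≤ 1)
  have h4 : 1 + Real.log (T ^ (1 / 3 : ℝ) / T ^ (1 / 4 : ℝ)) ≤ C₁ * T ^ η :=
    (add_le_add_right (Real.log_le_log (by positivity) h3) 1).trans (h1 T hT)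
  have h5 : T ^ (9 * η) = (T ^ η) ^ 8 * T ^ η := by
    rw [← pow_succ, ← Real.rpow_natCast, ← Real.rpow_mul hT0.le]
    congr 1
    push_cast
    ring
  rw [vc5_quart hT0.le] at h2
  refine h2.trans ?_
  have h6 : T * T ^ 2 + 4 * T ^ 3 * (1 + Real.log (T ^ (1 / 3 : ℝ) / T ^ (1 / 4 : ℝ))) ≤
      (1 + 4 * C₁) * T ^ η * T ^ 3 := by
    have h7 : 4 * T ^ 3 * (1 + Real.log (T ^ (1 / 3 : ℝ) / T ^ (1 / 4 : ℝ))) ≤
        4 * T ^ 3 * (C₁ * T ^ η) := mul_le_mul_of_nonneg_left h4 (by positivity)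
    have h8 : 1 * T ^ 3 ≤ T ^ η * T ^ 3 := mul_le_mul_of_nonneg_right hη1 (by positivity)
    nlinarith
  calc _ ≤ C₀ * (2 * (K * T ^ η)) ^ 8 * ((1 + 4 * C₁) * T ^ η * T ^ 3) :=
        mul_le_mul_of_nonneg_left h6 (by positivity)
    _ = _ := by
      rw [h5]
      ring

theorem vc5_sep {X : Finset ℝ} {y z ρ : ℝ} (hy : 0 ≤ y) (h : Sep X y z) (hρ : ρ ∈ Icc (1 / 2 : ℝ) 2) :
    Sep (X.image fun x => x * ρ) (y / 2) (2 * z) := by
  intro a ha b hb hab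
  obtain ⟨x, hx, rfl⟩ := Finset.mem_image.1 ha
  obtain ⟨x', hx', rfl⟩ := Finset.mem_image.1 hb
  obtain ⟨h1, h2⟩ := h x hx x' hx' fun e => hab (by rw [e])
  have h0 : 0 < ρ := by linarith [hρ.1]
  rw [← sub_mul, abs_mul, abs_of_pos h0]
  have h3 := abs_nonneg (x - x')
  constructor
  · nlinarith [hρ.1]
  · nlinarith [hρ.2]

namespace Sel

variable (F : Sel) {P : Vo}

/- `W = T / y`, `N = ⌊W ^ 2 * T ^ (δ - 1)⌋₊` with `δ` from `H_pts`: `B_near`, `hP`, `av_sum` with `H_pts` for the image of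
`X` under `x ↦ x * ρ` (`Finset.sum_image`, `Finset.card_image_of_injective`). -/
theorem E_pts (h : F.deg = 2) (hP : F.Vor P) {ε : ℝ} (hε : 0 < ε) : ∃ C : ℝ, 1 ≤ C ∧
    ∀ (T y : ℝ) (X : Finset ℝ), 1 ≤ T → T ^ (1 / 4 : ℝ) ≤ y → y ≤ T ^ (1 / 3 : ℝ) →
    (∀ x ∈ X, x ∈ Icc T (2 * T)) → Sep X y (y ^ 6 / T) →
    ∑ x ∈ X, ‖F.E x‖ ≤ C * T ^ ε * (X.card * y + √(X.card * T / y)) := by
  obtain ⟨δ, C₁, hδ, hδε, hC₁, h1⟩ := F.H_pts h hP.1 hε
  obtain ⟨C₂, hC₂, h2⟩ := F.B_near hε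
  obtain ⟨C₃, hC₃, h3⟩ := hP.2 δ hδ
  refine ⟨C₁ + C₂ + C₃, by linarith, fun T y X hT hy hy' hX hS => ?_⟩
  have hT0 : 0 < T := by linarith
  have hy1 : 1 ≤ y := (Real.one_le_rpow hT (by norm_num)).trans hy
  have hy0 : 0 < y := by linarith
  have hys : y ≤ √T := by
    rw [Real.sqrt_eq_rpow]
    exact hy'.trans (Real.rpow_le_rpow_of_exponent_le hT (by norm_num))
  have hW1 : √T ≤ T / y := by
    rw [le_div_iff₀ hy0]
    calc √T * y ≤ √T * √T := mul_le_mul_of_nonneg_left hys (Real.sqrt_nonneg T)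
      _ = T := Real.mul_self_sqrt hT0.le
  have hW2 : T / y ≤ T := div_le_self hT0.le hy1
  have hW3 : 1 ≤ T / y := (Real.one_le_sqrt.2 hT).trans hW1
  have hW0 : 0 < T / y := by positivity
  set N : ℕ := ⌊(T / y) ^ F.deg * T ^ (δ - 1)⌋₊ with hN
  have hN1 : (N : ℝ) ≤ T ^ (1 + δ) / y ^ 2 := by
    refine (Nat.floor_le (by positivity)).trans (le_of_eq ?_)
    rw [h, Real.rpow_two, Real.rpow_sub hT0, Real.rpow_add hT0, Real.rpow_one]
    field_simp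
  have hε1 : T ^ δ ≤ T ^ ε := Real.rpow_le_rpow_of_exponent_le hT hδε
  have hεp : 0 < T ^ ε := by positivity
  have h4 : ∑ x ∈ X, ‖av (T / y) (F.H P 0 N) x‖ ≤
      C₁ * T ^ ε * (X.card * y + √(X.card * T / y)) := by
    refine av_sum hW0 (F.H_cont P 0 N) (fun x hx => hT0.trans_le (hX x hx).1) fun ρ hρ => ?_
    have h0 : 0 < ρ := by linarith [hρ.1]
    have hi : Function.Injective fun x : ℝ => x * ρ := mul_left_injective₀ h0.ne'
    have h5 := h1 T y N (X.image fun x => x * ρ) hT hy hy' hN1 (fun a ha => by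
      obtain ⟨x, hx, rfl⟩ := Finset.mem_image.1 ha
      obtain ⟨h6, h7⟩ := hX x hx
      constructor
      · nlinarith [hρ.1]
      · nlinarith [hρ.2]) (vc5_sep hy0.le hS hρ)
    rwa [Finset.sum_image fun a _ b _ e => hi e, Finset.card_image_of_injective _ hi] at h5
  have h5 : ∀ x ∈ X, ‖F.E x‖ ≤ (C₂ + C₃) * T ^ ε * y + ‖av (T / y) (F.H P 0 N) x‖ := by
    intro x hx
    have h6 := h2 T (T / y) hW3 hW2 x (hX x hx)
    have h7 := h3 T (T / y) hT hW1 hW2 x (hX x hx)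
    have e1 : T / (T / y) = y := by field_simp
    have e2 : F.deg / 2 - 1 = 0 := by
      rw [h]
      norm_num
    rw [e1] at h6
    rw [e2, Real.rpow_zero, mul_one, ← hN] at h7
    have h8 : C₃ * T ^ δ ≤ C₃ * T ^ ε * y := by
      have h9 : C₃ * T ^ δ ≤ C₃ * T ^ ε := mul_le_mul_of_nonneg_left hε1 hC₃.le
      have h10 : C₃ * T ^ ε * 1 ≤ C₃ * T ^ ε * y :=
        mul_le_mul_of_nonneg_left hy1 (by positivity)
      linarith
    have e3 : F.E x = F.E x - F.B (T / y) x + (F.B (T / y) x - av (T / y) (F.H P 0 N) x) +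
        av (T / y) (F.H P 0 N) x := by ring
    have h11 := norm_add₃_le (a := F.E x - F.B (T / y) x)
      (b := F.B (T / y) x - av (T / y) (F.H P 0 N) x) (c := av (T / y) (F.H P 0 N) x)
    rw [← e3] at h11
    linarith
  have h6 := Finset.sum_le_sum h5
  rw [Finset.sum_add_distrib, Finset.sum_const, nsmul_eq_mul] at h6
  have h7 : 0 ≤ (C₂ + C₃) * T ^ ε * √(X.card * T / y) := by positivity
  nlinarith

/- `lc 8` with `y₀ = T ^ (1 / 4)`, `S = T ^ (1 / 3)`, `c5_lev`, `E_pts`, `E_sup`, `bm_E`. -/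
theorem E_eight (h : F.deg = 2) (hP : F.Vor P) {ε : ℝ} (hε : 0 < ε) : ∃ C : ℝ, 0 < C ∧
    ∀ T : ℝ, 1 ≤ T → mu0 8 F.E T ≤ C * T ^ ε * T ^ 3 := by
  have hη : 0 < ε / 9 := by positivity
  obtain ⟨C₀, hC₀, h0⟩ := vc5_eight hη
  obtain ⟨C₁, hC₁, h1⟩ := F.E_pts h hP hη
  obtain ⟨C₂, hC₂, h2⟩ := F.E_sup h.ge (by rw [h]; norm_num) hP hη
  refine ⟨C₀ * (C₁ + C₂) ^ 8, by positivity, fun T hT => ?_⟩
  have hT0 : 0 < T := by linarith
  have h3 := h0 F.E T (C₁ + C₂) hT (F.bm_E hT) (by linarith) (fun x hx => by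
    have h4 := h2 T hT x hx
    have e : (F.deg - 1) / (F.deg + 1) = 1 / 3 := by
      rw [h]
      norm_num
    rw [e] at h4
    refine h4.trans ?_
    gcongr
    linarith) fun y X hy hy' hX hS => by
      refine (h1 T y X hT hy hy' hX hS).trans ?_
      have hy0 : 0 < y := lt_of_lt_of_le (by positivity) hy
      gcongr
      linarith
  have e : 9 * (ε / 9) = ε := by ring
  rwa [e] at h3

/- The same with `H_pts` (`N ≤ T ^ (1 / 3) ≤ T / y ^ 2`) and `H_le`. -/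
theorem H_eight (h : F.deg = 2) (hP : 0 < P.ka) {ε : ℝ} (hε : 0 < ε) : ∃ C : ℝ, 0 < C ∧
    ∀ (T : ℝ) (N : ℕ), 1 ≤ T → (N : ℝ) ≤ T ^ (1 / 3 : ℝ) →
      mu0 8 (F.H P 0 N) T ≤ C * T ^ ε * T ^ 3 := by
  have hη : 0 < ε / 9 := by positivity
  obtain ⟨C₀, hC₀, h0⟩ := vc5_eight hη
  obtain ⟨δ, C₁, hδ, -, hC₁, h1⟩ := F.H_pts h hP hη
  obtain ⟨C₂, hC₂, h2⟩ := F.H_le P h.ge hη
  refine ⟨C₀ * (C₁ + 2 * C₂) ^ 8, by positivity, fun T N hT hN => ?_⟩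
  have hT0 : 0 < T := by linarith
  have h3 := h0 (F.H P 0 N) T (C₁ + 2 * C₂) hT
    (Bm.of_cont ((F.H_cont P 0 N).mono fun x hx => hT0.trans_le hx.1)) (by linarith)
    (fun x hx => by
      have hx0 : 0 < x := hT0.trans_le hx.1
      have h4 := h2 0 N x hx0
      rw [h, al_two] at h4
      have h5 : x ^ (1 / 4 : ℝ) ≤ 2 * T ^ (1 / 4 : ℝ) := by
        refine (Real.rpow_le_rpow hx0.le hx.2 (by norm_num)).trans ?_
        rw [Real.mul_rpow (by norm_num) hT0.le]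
        refine mul_le_mul_of_nonneg_right ?_ (by positivity)
        simpa using Real.rpow_le_rpow_of_exponent_le (by norm_num : (1 : ℝ) ≤ 2)
          (by norm_num : (1 / 4 : ℝ) ≤ 1)
      have h6 : (N : ℝ) ^ (1 / 4 + ε / 9) ≤ T ^ (1 / 12 + ε / 9) := by
        refine (Real.rpow_le_rpow (Nat.cast_nonneg N) hN (by positivity)).trans ?_
        rw [← Real.rpow_mul hT0.le]
        exact Real.rpow_le_rpow_of_exponent_le hT (by linarith)
      have h7 : T ^ (1 / 4 : ℝ) * T ^ (1 / 12 + ε / 9) = T ^ (ε / 9) * T ^ (1 / 3 : ℝ) := by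
        rw [← Real.rpow_add hT0, ← Real.rpow_add hT0]
        congr 1
        ring
      calc _ ≤ C₂ * (2 * T ^ (1 / 4 : ℝ)) * T ^ (1 / 12 + ε / 9) := h4.trans (by gcongr)
        _ = 2 * C₂ * T ^ (ε / 9) * T ^ (1 / 3 : ℝ) := by
          rw [mul_assoc (2 * C₂), ← h7]
          ring
        _ ≤ _ := by
          gcongr
          linarith) fun y X hy hy' hX hS => by
      have hy0 : 0 < y := lt_of_lt_of_le (by positivity) hy
      have h4 : (N : ℝ) ≤ T ^ (1 + δ) / y ^ 2 := by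
        rw [le_div_iff₀ (by positivity)]
        calc (N : ℝ) * y ^ 2 ≤ T ^ (1 / 3 : ℝ) * (T ^ (1 / 3 : ℝ)) ^ 2 := by gcongr
          _ = T := by rw [← pow_succ', vc5_cube hT0.le]
          _ ≤ T ^ (1 + δ) := by
            simpa using Real.rpow_le_rpow_of_exponent_le hT (by linarith : (1 : ℝ) ≤ 1 + δ)
      have h5 := h1 T y N X hT hy hy' h4
        (fun x hx => ⟨by linarith [(hX x hx).1], by linarith [(hX x hx).2]⟩)
        fun a ha b hb hab => by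
          obtain ⟨h6, h7⟩ := hS a ha b hb hab
          have h8 : 0 ≤ y ^ 6 / T := by positivity
          exact ⟨by linarith, by linarith⟩
      refine h5.trans ?_
      gcongr
      linarith
  have e : 9 * (ε / 9) = ε := by ring
  rwa [e] at h3

end Sel

end Pool.Agent.Lib.MP_2a1a00_nt
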