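import Pool.Agent.Lib.MP_2a1a00_nt.V.Cnt

/-! The contribution of very large values. -/

namespace Pool.Agent.Lib.MP_2a1a00_nt

open Complex MeasureTheory Set

/- `norm_image_sub_le_of_norm_deriv_right_le_segment` on `[x, x']` for `T < x` (`HasDerivWithinAt.Ici_of_Ioi`), and
continuity at `T` (or `image_norm_le_of_norm_deriv_right_le_deriv_boundary`, `le_of_tendsto`). -/
theorem Nice.lip {Φ Φ' : ℝ → ℂ} {T K : ℝ} (h : Nice Φ Φ' T) (hK : ∀ x ∈ Icc T (2 * T), ‖Φ' x‖ ≤ K)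
    {x x' : ℝ} (hx : x ∈ Icc T (2 * T)) (hx' : x' ∈ Icc T (2 * T)) :
    ‖Φ x - Φ x'‖ ≤ K * |x - x'| := by
  have key : ∀ a ∈ Icc T (2 * T), ∀ b ∈ Icc T (2 * T), a < b → ‖Φ b - Φ a‖ ≤ K * (b - a) := by
    intro a ha b hb hab
    have sub : Ioc a b ⊆ Icc T (2 * T) := fun y hy => ⟨ha.1.trans hy.1.le, hy.2.trans hb.2⟩
    refine ContinuousWithinAt.closure_le (f := fun a => ‖Φ b - Φ a‖) (g := fun a => K * (b - a))
      (s := Ioc a b) (by rw [closure_Ioc hab.ne]; exact ⟨le_rfl, hab.le⟩)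
      ((continuousWithinAt_const.sub ((h.cont a ha).mono sub)).norm) (by fun_prop) fun y hy => ?_
    exact norm_image_sub_le_of_norm_deriv_right_le_segment (f' := Φ')
      (h.cont.mono (Icc_subset_Icc (sub hy).1 hb.2))
      (fun z hz => (h.der z ⟨(ha.1.trans_lt hy.1).trans_le hz.1, hz.2.trans_le hb.2⟩).Ici_of_Ioi)
      (fun z hz => hK z ⟨(sub hy).1.trans hz.1, hz.2.le.trans hb.2⟩) b ⟨hy.2, le_rfl⟩
  rcases lt_trichotomy x x' with e | rfl | e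
  · rw [norm_sub_rev, abs_sub_comm, abs_of_pos (sub_pos.2 e)]
    exact key x hx x' hx' e
  · simp
  · rw [abs_of_pos (sub_pos.2 e)]
    exact key x' hx' x hx e

/- Let `y = ‖Φ x₀‖`, `r = y / (4 K) ≤ ℓ / 2`.  One of `[x₀, x₀ + r]`, `[x₀ - r, x₀]` lies in `[a, a + ℓ]`, and there
`‖Φ x‖ ≥ y / 2`. -/
theorem tw_peak {Φ : ℝ → ℂ} {a ℓ K x₀ : ℝ} (hK : 0 < K) (hc : ContinuousOn Φ (Icc a (a + ℓ)))
    (h : ∀ x ∈ Icc a (a + ℓ), ‖Φ x - Φ x₀‖ ≤ K * |x - x₀|) (h0 : x₀ ∈ Icc a (a + ℓ))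
    (h1 : ‖Φ x₀‖ ≤ 2 * K * ℓ) : ‖Φ x₀‖ ^ 9 ≤ 2 ^ 10 * K * ∫ x in a..a + ℓ, ‖Φ x‖ ^ 8 := by
  obtain ⟨r, hr⟩ : ∃ r, r = ‖Φ x₀‖ / (4 * K) := ⟨_, rfl⟩
  have r0 : 0 ≤ r := hr ▸ by positivity
  have r1 : ‖Φ x₀‖ = 4 * K * r := by rw [hr]; field_simp
  have r2 : r ≤ ℓ / 2 := by nlinarith
  obtain ⟨c, c1, c2, c3, c4⟩ : ∃ c, a ≤ c ∧ c + r ≤ a + ℓ ∧ x₀ - r ≤ c ∧ c ≤ x₀ := by
    by_cases e : x₀ + r ≤ a + ℓ
    · exact ⟨x₀, h0.1, e, by linarith, le_rfl⟩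
    · exact ⟨x₀ - r, by linarith, by linarith [h0.2], le_rfl, by linarith⟩
  have hc8 : ContinuousOn (fun x => ‖Φ x‖ ^ 8) (Icc a (a + ℓ)) := hc.norm.pow 8
  have e1 : ∫ x in c..c + r, ‖Φ x‖ ^ 8 ≤ ∫ x in a..a + ℓ, ‖Φ x‖ ^ 8 :=
    intervalIntegral.integral_mono_interval c1 (by linarith) c2
      (Filter.Eventually.of_forall fun x => by positivity)
      (hc8.intervalIntegrable_of_Icc (by linarith))
  have e2 : ∫ _ in c..c + r, (2 * K * r) ^ 8 ≤ ∫ x in c..c + r, ‖Φ x‖ ^ 8 := by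
    refine intervalIntegral.integral_mono_on (by linarith) intervalIntegrable_const
      ((hc8.mono (Icc_subset_Icc c1 c2)).intervalIntegrable_of_Icc (by linarith)) fun x hx => ?_
    have a1 := h x ⟨c1.trans hx.1, hx.2.trans c2⟩
    have a2 : |x - x₀| ≤ r := abs_le.2 ⟨by linarith [hx.1], by linarith [hx.2]⟩
    have a3 := norm_sub_norm_le (Φ x₀) (Φ x)
    rw [norm_sub_rev] at a3
    have a4 := mul_le_mul_of_nonneg_left a2 hK.le
    have a5 := mul_nonneg hK.le r0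
    exact pow_le_pow_left₀ (by positivity) (by linarith) 8
  rw [intervalIntegral.integral_const, add_sub_cancel_left, smul_eq_mul] at e2
  calc ‖Φ x₀‖ ^ 9 = 2 ^ 10 * K * (r * (2 * K * r) ^ 8) := by rw [r1]; ring
    _ ≤ _ := mul_le_mul_of_nonneg_left (e2.trans e1) (by positivity)

/- Cut `[T, 2 T]` into `n = ⌈T / s⌉₊` intervals of length `ℓ = T / n ∈ [s / 2, s]`
(`intervalIntegral.sum_integral_adjacent_intervals`).  On each of them let `x₀` be a point where `‖Φ‖` is largest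
(`IsCompact.exists_isMaxOn`), `y = ‖Φ x₀‖`: then `‖Φ x‖ ^ 7 ≤ min ‖Φ x‖ Y ^ 7 + y ^ 9 / Y ^ 2`; `tw_peak`, `Nice.lip`. -/
theorem tw_big {Φ Φ' : ℝ → ℂ} {w : ℝ → ℝ} {T K s m Y Z : ℝ} (h : Nice Φ Φ' T) (hK : 0 < K)
    (hs : 0 < s) (hsT : s ≤ T) (hY : 0 < Y) (hw : Continuous w) (h0 : ∀ x, 0 ≤ w x)
    (hm : ∀ a ∈ Icc T (2 * T), ∫ x in a..a + s, w x ≤ m)
    (h1 : ∀ x ∈ Icc T (2 * T), ‖Φ x‖ ≤ K * s ∧ ‖Φ' x‖ ≤ K) (hZ : mu0 8 Φ T ≤ Z) :
    mo 7 Φ w T ≤ (∫ x in T..2 * T, min ‖Φ x‖ Y ^ 7 * w x) + 2 ^ 10 * m * K * Z / Y ^ 2 := by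
  have hT : 0 < T := hs.trans_le hsT
  obtain ⟨n, hn⟩ : ∃ n : ℕ, n = ⌈T / s⌉₊ := ⟨_, rfl⟩
  have n1 : T / s ≤ n := hn ▸ Nat.le_ceil _
  have n2 : (n : ℝ) < T / s + 1 := hn ▸ Nat.ceil_lt_add_one (by positivity)
  have n3 : 1 ≤ T / s := (one_le_div hs).2 hsT
  have n0 : (0 : ℝ) < n := by linarith
  obtain ⟨ℓ, hl⟩ : ∃ ℓ, ℓ = T / n := ⟨_, rfl⟩
  have l0 : n * ℓ = T := by rw [hl]; field_simp
  have l1 : ℓ ≤ s := by
    rw [hl, div_le_iff₀ n0]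
    rw [div_le_iff₀ hs] at n1
    linarith
  have l2 : s ≤ 2 * ℓ := by
    have : (n : ℝ) * s ≤ 2 * T := by
      have := mul_le_mul_of_nonneg_right (show (n : ℝ) ≤ 2 * (T / s) by linarith) hs.le
      rwa [mul_assoc, div_mul_cancel₀ _ hs.ne'] at this
    nlinarith
  have lp : 0 < ℓ := by linarith
  have m0 : 0 ≤ m := (intervalIntegral.integral_nonneg (by linarith) fun x _ => h0 x).trans
    (hm T ⟨le_rfl, by linarith⟩)
  have sub : ∀ k, k < n → Icc (T + (k : ℕ) * ℓ) (T + (k : ℕ) * ℓ + ℓ) ⊆ Icc T (2 * T) := by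
    intro k hk
    have : ((k : ℝ) + 1) * ℓ ≤ n * ℓ :=
      mul_le_mul_of_nonneg_right (by exact_mod_cast hk) lp.le
    exact Icc_subset_Icc (by have := mul_nonneg (Nat.cast_nonneg (α := ℝ) k) lp.le; linarith)
      (by linarith)
  have split : ∀ f : ℝ → ℝ, ContinuousOn f (Icc T (2 * T)) → ∫ x in T..2 * T, f x =
      ∑ k ∈ Finset.range n, ∫ x in T + k * ℓ..T + k * ℓ + ℓ, f x := by
    intro f hf
    have e : ∀ k : ℕ, T + ((k + 1 : ℕ) : ℝ) * ℓ = T + k * ℓ + ℓ := fun k => by push_cast; ring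
    have := intervalIntegral.sum_integral_adjacent_intervals (f := f) (μ := volume)
      (a := fun k : ℕ => T + k * ℓ) (n := n) fun k hk => by
        rw [e]
        exact (hf.mono (sub k hk)).intervalIntegrable_of_Icc (by linarith)
    simp only [e, l0, Nat.cast_zero, zero_mul, add_zero] at this
    rw [this, two_mul]
  have c7 : ContinuousOn (fun x => ‖Φ x‖ ^ 7 * w x) (Icc T (2 * T)) :=
    (h.cont.norm.pow 7).mul hw.continuousOn
  have cm : ContinuousOn (fun x => min ‖Φ x‖ Y ^ 7 * w x) (Icc T (2 * T)) :=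
    ((h.cont.norm.inf continuousOn_const).pow 7).mul hw.continuousOn
  have c8 : ContinuousOn (fun x => ‖Φ x‖ ^ 8) (Icc T (2 * T)) := h.cont.norm.pow 8
  have key : ∀ k ∈ Finset.range n, ∫ x in T + k * ℓ..T + k * ℓ + ℓ, ‖Φ x‖ ^ 7 * w x ≤
      (∫ x in T + k * ℓ..T + k * ℓ + ℓ, min ‖Φ x‖ Y ^ 7 * w x) +
        2 ^ 10 * m * K / Y ^ 2 * ∫ x in T + k * ℓ..T + k * ℓ + ℓ, ‖Φ x‖ ^ 8 := by
    intro k hk
    have hk := sub k (Finset.mem_range.1 hk)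
    generalize T + k * ℓ = a at hk
    have hab : a ≤ a + ℓ := by linarith
    obtain ⟨x₀, x1, x2⟩ := isCompact_Icc.exists_isMaxOn (nonempty_Icc.2 hab)
      (h.cont.mono hk).norm
    have p := tw_peak hK (h.cont.mono hk)
      (fun x hx => h.lip (fun x hx => (h1 x hx).2) (hk hx) (hk x1)) x1
      ((h1 _ (hk x1)).1.trans (by nlinarith))
    have w1 : ∫ x in a..a + ℓ, w x ≤ m := (intervalIntegral.integral_mono_interval le_rfl hab
      (by linarith) (Filter.Eventually.of_forall h0) (hw.intervalIntegrable _ _)).trans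
      (hm a (hk ⟨le_rfl, hab⟩))
    have i1 := (cm.mono hk).intervalIntegrable_of_Icc (μ := volume) hab
    have i2 : IntervalIntegrable (fun x => ‖Φ x₀‖ ^ 9 / Y ^ 2 * w x) volume a (a + ℓ) :=
      (hw.intervalIntegrable _ _).const_mul _
    have e := intervalIntegral.integral_mono_on hab ((c7.mono hk).intervalIntegrable_of_Icc hab)
      (i1.add i2) fun x hx => by
        rw [← add_mul]
        refine mul_le_mul_of_nonneg_right ?_ (h0 x)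
        have a1 : ‖Φ x‖ ≤ ‖Φ x₀‖ := x2 hx
        rcases le_total ‖Φ x‖ Y with e | e
        · rw [min_eq_left e]
          exact le_add_of_nonneg_right (by positivity)
        · refine le_add_of_nonneg_of_le (by positivity) ((le_div_iff₀ (by positivity)).2 ?_)
          calc ‖Φ x‖ ^ 7 * Y ^ 2 ≤ ‖Φ x₀‖ ^ 7 * ‖Φ x₀‖ ^ 2 := by gcongr; exact e.trans a1
            _ = _ := by ring
    rw [intervalIntegral.integral_add i1 i2, intervalIntegral.integral_const_mul] at e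
    refine e.trans (add_le_add le_rfl ?_)
    calc ‖Φ x₀‖ ^ 9 / Y ^ 2 * ∫ x in a..a + ℓ, w x ≤ ‖Φ x₀‖ ^ 9 / Y ^ 2 * m := by gcongr
      _ ≤ (2 ^ 10 * K * ∫ x in a..a + ℓ, ‖Φ x‖ ^ 8) / Y ^ 2 * m := by gcongr
      _ = _ := by ring
  have e := Finset.sum_le_sum key
  rw [Finset.sum_add_distrib, ← Finset.mul_sum, ← split _ c7, ← split _ cm, ← split _ c8] at e
  refine e.trans (add_le_add le_rfl ?_)
  calc 2 ^ 10 * m * K / Y ^ 2 * ∫ x in T..2 * T, ‖Φ x‖ ^ 8 ≤ 2 ^ 10 * m * K / Y ^ 2 * Z := by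
        gcongr
        exact hZ
    _ = _ := by ring

end Pool.Agent.Lib.MP_2a1a00_nt
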