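import Pool.Agent.Lib.MP_2a1a00_nt.V.Wc
import Pool.Agent.Lib.MP_2a1a00_nt.Tw

/-! The mean square on short intervals. -/

namespace Pool.Agent.Lib.MP_2a1a00_nt

open Complex MeasureTheory Set

theorem vwd_tri {s x₀ T : ℝ} (hs : 0 < s) (h1 : T ≤ x₀ - s) (h2 : x₀ + s ≤ 2 * T) (D : ℝ → ℂ) :
    ∫ x in T..2 * T, ((max 0 (1 - |x - x₀| / s) : ℝ) : ℂ) * D x = tri s D x₀ := by
  have e1 : ∫ x in T..2 * T, ((max 0 (1 - |x - x₀| / s) : ℝ) : ℂ) * D x =
      ∫ x in x₀ + -s..x₀ + s, ((max 0 (1 - |x - x₀| / s) : ℝ) : ℂ) * D x := by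
    rw [intervalIntegral.integral_of_le (by linarith), intervalIntegral.integral_of_le (by linarith)]
    refine setIntegral_eq_of_subset_of_forall_sdiff_eq_zero measurableSet_Ioc
      (Ioc_subset_Ioc (by linarith) h2) fun x hx => ?_
    have h3 : s ≤ |x - x₀| := by
      by_contra h3
      obtain ⟨h4, h5⟩ := abs_lt.1 (not_le.1 h3)
      exact hx.2 ⟨by linarith, by linarith⟩
    rw [max_eq_left (sub_nonpos.2 ((one_le_div hs).2 h3)), ofReal_zero, zero_mul]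
  rw [e1, ← intervalIntegral.integral_comp_add_left]
  refine intervalIntegral.integral_congr fun v hv => ?_
  rw [uIcc_of_le (by linarith)] at hv
  simp only [add_sub_cancel_left]
  rw [max_eq_right (sub_nonneg.2 ((div_le_one hs).2 (abs_le.2 hv)))]

theorem vwd_shift (s x θ : ℝ) (K : ℂ) (D : ℝ → ℂ) :
    tri s (fun t => K * D (t + θ)) x = K * tri s D (x + θ) := by
  unfold tri
  rw [← intervalIntegral.integral_const_mul]
  refine intervalIntegral.integral_congr fun v _ => ?_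
  simp only [add_right_comm x v θ]
  ring

theorem vwd_low {w : ℝ → ℝ} (hc : Continuous w) (h0 : ∀ x, 0 ≤ w x) {s : ℝ} (hs : 0 < s) (a : ℝ) :
    ∫ x in a..a + s, w x ≤ 2 * ‖tri s (fun x => (w x : ℂ)) (a + s / 2)‖ := by
  have c1 : Continuous fun v => (1 - |v| / s) * w (a + s / 2 + v) := by fun_prop
  have e1 : tri s (fun x => (w x : ℂ)) (a + s / 2) =
      ((∫ v in -s..s, (1 - |v| / s) * w (a + s / 2 + v) : ℝ) : ℂ) := by
    rw [← intervalIntegral.integral_ofReal]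
    simp only [tri, ofReal_mul]
  have e2 : ∫ x in a..a + s, w x = ∫ v in -(s / 2)..s / 2, w (a + s / 2 + v) := by
    rw [intervalIntegral.integral_comp_add_left]
    congr 1 <;> ring
  have e3 : ∫ v in -(s / 2)..s / 2, w (a + s / 2 + v) ≤
      ∫ v in -(s / 2)..s / 2, 2 * ((1 - |v| / s) * w (a + s / 2 + v)) := by
    refine intervalIntegral.integral_mono_on (by linarith)
      (Continuous.intervalIntegrable (by fun_prop) _ _)
      (Continuous.intervalIntegrable (by fun_prop) _ _) fun v hv => ?_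
    have h1 : |v| / s ≤ 1 / 2 := by
      rw [div_le_iff₀ hs]
      linarith [abs_le.2 hv]
    nlinarith [h0 (a + s / 2 + v)]
  have e4 : ∫ v in -(s / 2)..s / 2, (1 - |v| / s) * w (a + s / 2 + v) ≤
      ∫ v in -s..s, (1 - |v| / s) * w (a + s / 2 + v) := by
    refine intervalIntegral.integral_mono_interval (by linarith) (by linarith) (by linarith)
      ((ae_restrict_mem measurableSet_Ioc).mono fun v hv => ?_) (c1.intervalIntegrable _ _)
    exact mul_nonneg (sub_nonneg.2 ((div_le_one hs).2 (abs_le.2 ⟨hv.1.le, hv.2⟩))) (h0 _)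
  rw [intervalIntegral.integral_const_mul] at e3
  rw [e1, e2, Complex.norm_real, Real.norm_eq_abs]
  linarith [le_abs_self (∫ v in -s..s, (1 - |v| / s) * w (a + s / 2 + v))]

theorem vwd_cube {T : ℝ} (hT : 0 ≤ T) : (T ^ (1 / 3 : ℝ)) ^ 3 = T := by
  rw [← Real.rpow_natCast, ← Real.rpow_mul hT]
  norm_num

theorem vwd_num {s E Y : ℝ} (hs : 1 ≤ s) (hE : 1 ≤ E) (hY : Y ≤ s ^ 3 * E) :
    √Y ≤ E * s ^ 2 ∧ s + √Y / s + √(s ^ 3 / 2 / s) + √(Y * s / (s ^ 3 / 2)) ≤ 5 * (E * s) := by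
  have hs0 : 0 < s := by linarith
  have h0 : 1 ≤ E * s := one_le_mul_of_one_le_of_one_le hE hs
  have h1 : √Y ≤ E * s ^ 2 := by
    refine Real.sqrt_le_iff.2 ⟨by positivity, hY.trans ?_⟩
    calc s ^ 3 * E = s ^ 3 * E * 1 := by ring
      _ ≤ s ^ 3 * E * (E * s) := by gcongr
      _ = _ := by ring
  have h2 : √Y / s ≤ E * s := by
    rw [div_le_iff₀ hs0]
    linarith
  have h3 : √(s ^ 3 / 2 / s) ≤ s := by
    refine Real.sqrt_le_iff.2 ⟨hs0.le, ?_⟩
    rw [div_le_iff₀ hs0]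
    nlinarith [pow_pos hs0 3]
  have h4 : √(Y * s / (s ^ 3 / 2)) ≤ 2 * (E * s) := by
    refine Real.sqrt_le_iff.2 ⟨by positivity, ?_⟩
    have h5 : Y * s / (s ^ 3 / 2) ≤ 2 * (E * s) := by
      rw [div_le_iff₀ (by positivity)]
      linarith [mul_le_mul_of_nonneg_right hY hs0.le]
    nlinarith
  have h5 : s ≤ E * s := le_mul_of_one_le_left hs0.le hE
  exact ⟨h1, by linarith⟩

namespace Sel

variable (L : Sel)

/- Let `g n = f n * n ^ (θ i) / K` for `n ≥ 1`, `g 0 = 0`, with `K ≥ 1` a bound for the eventually periodic sequence (strong induction, or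
the maximum over `n ≤ n₀ + q`); `co z p * osc p x = K ^ 2 * (g p.1 * conj (g p.2) * (p.1 p.2) ^ (-1 / 2 - z)) * osc p (x + θ)`. -/
theorem wd_per (hq : L.QP) : ∃ (q n₀ : ℕ) (θ K : ℝ) (g : ℕ → ℂ), 0 < q ∧ 0 < K ∧ (∀ n, ‖g n‖ ≤ 1) ∧
    (∀ n, n₀ ≤ n → g (n + q) = g n) ∧ ∀ (z : ℂ) (Y : ℕ) (x : ℝ), PP (L.co z) (Pr Y) x =
      K * PP (fun p => g p.1 * (starRingEnd ℂ) (g p.2) *
        ((p.1 * p.2 : ℕ) : ℂ) ^ (-(1 / 2) - z)) (Pr Y) (x + θ) := by
  obtain ⟨q, n₀, θ, hq, h⟩ := hq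
  obtain ⟨K, hK⟩ : ∃ K : ℝ, K = 1 + ∑ n ∈ Finset.range (n₀ + 1 + q), ‖L.f n * (n : ℂ) ^ (θ * I)‖ :=
    ⟨_, rfl⟩
  have hK1 : 0 ≤ K - 1 := by
    rw [hK, add_sub_cancel_left]
    positivity
  have hK0 : 0 < K := by linarith
  have hb : ∀ n : ℕ, ‖L.f n * (n : ℂ) ^ (θ * I)‖ ≤ K := by
    intro n
    induction n using Nat.strong_induction_on with
    | _ n ih =>
      by_cases h1 : n < n₀ + 1 + q
      · have := Finset.single_le_sum (f := fun n : ℕ => ‖L.f n * (n : ℂ) ^ (θ * I)‖)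
          (fun _ _ => norm_nonneg _) (Finset.mem_range.2 h1)
        linarith
      · obtain ⟨m, rfl⟩ : ∃ m, n = m + q := ⟨n - q, by omega⟩
        rw [h m (by omega) (by omega)]
        exact ih m (by omega)
  refine ⟨q, n₀ + 1, θ, K ^ 2, fun n => L.f n * (n : ℂ) ^ (θ * I) / K, hq, by positivity,
    fun n => ?_, fun n hn => ?_, fun z Y x => ?_⟩
  · rw [norm_div, Complex.norm_real, Real.norm_of_nonneg hK0.le, div_le_one hK0]
    exact hb n
  · simp only
    rw [h n (by omega) (by omega)]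
  · unfold PP
    rw [Finset.mul_sum]
    refine Finset.sum_congr rfl fun p hp => ?_
    obtain ⟨h1, h2, -⟩ := mem_Pr.1 hp
    have e : ∀ n : ℕ, 1 ≤ n → (n : ℂ) ^ (θ * I) = exp (I * (Real.log n * θ : ℝ)) := fun n hn => by
      rw [cpow_def_of_ne_zero (Nat.cast_ne_zero.2 (by omega)), ← natCast_log]
      congr 1
      push_cast
      ring
    have e2 : osc p x = exp (I * (Real.log p.1 * θ : ℝ)) *
        (starRingEnd ℂ) (exp (I * (Real.log p.2 * θ : ℝ))) * osc p (x + θ) := by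
      rw [← exp_conj, map_mul, conj_I, conj_ofReal, osc, osc, ← exp_add, ← exp_add, fr]
      congr 1
      push_cast
      ring
    have e3 : (K : ℂ) ≠ 0 := ofReal_ne_zero.2 hK0.ne'
    simp only [co, e _ h1, e _ h2, e2, map_div₀, map_mul, conj_ofReal]
    push_cast
    field_simp

/- Let `G x = max 0 (1 - |x - x₀| / s)`, so that `∫ T..2 T, G x * D x = tri s D x₀`.  `afe` with a small `η`, `Y = ⌊T ^ (deg + η)⌋₊`, and
`fub` with `H z x = PP (co z) (Pr Y) x` (`Tw_PP`, `co_le`, `sum_w0`, as in the proof of `tw`).  In the hypothesis of `fub` replace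
`exp (ω log x)`, `ω = z * deg`, by its value at `x₀`: the difference is at most `‖ω‖ (2 T) ^ η * s / T` (`nm_der`), times
`s * K √Y Y ^ η`.  Then `wd_per`, `wpc` with `X = T / 2` for `T ≥ 2 |θ|`, `s = T ^ (1 / 3)`, `Y ≤ T ^ (1 + η)`. -/
theorem wd_tri (hL : L.deg ≤ 1) (hq : L.QP) {ε : ℝ} (hε : 0 < ε) : ∃ C T₀ : ℝ, 0 < C ∧
    ∀ T x₀ : ℝ, T₀ ≤ T → T ≤ x₀ - T ^ (1 / 3 : ℝ) → x₀ + T ^ (1 / 3 : ℝ) ≤ 2 * T →
    ‖tri (T ^ (1 / 3 : ℝ)) L.L2 x₀‖ ≤ C * T ^ ε * T ^ (1 / 3 : ℝ) := by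
  have hd := L.deg_nonneg
  obtain ⟨η, h0, h1, h2⟩ : ∃ η : ℝ, 0 < η ∧ η ≤ 1 / 2 ∧ η * (2 * L.deg + 2) ≤ ε :=
    ⟨min (1 / 2) (ε / (2 * L.deg + 2)), by positivity, min_le_left _ _,
      (le_div_iff₀ (by positivity)).1 (min_le_right _ _)⟩
  obtain ⟨Cf, hCf, Hf⟩ := L.fub h0
  obtain ⟨K, hK, HK⟩ := L.co_le h0
  obtain ⟨Cw, hCw, Hw⟩ := sum_w0 h0
  obtain ⟨Ca, hCa, Ha⟩ := L.afe h0 h1
  obtain ⟨q, n₀, θ, Kp, g, hq0, hKp, g1, g2, g3⟩ := L.wd_per hq
  obtain ⟨Cc, hCc, Hc⟩ := wpc hq0 n₀ h0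
  refine ⟨Ca + 2 * Cf * ((K * Cw * (1 + L.deg) + 10 * Kp * Cc) * 2 ^ L.deg), max 1 (2 * |θ|),
    by positivity, fun T x₀ hT' hx1 hx2 => ?_⟩
  have hT : 1 ≤ T := (le_max_left _ _).trans hT'
  have hθ := abs_le.1 (show |θ| ≤ T / 2 by linarith [(le_max_right _ _).trans hT'])
  have hT0 : 0 < T := one_pos.trans_le hT
  have hTT : T ≤ 2 * T := by linarith
  have hE : 1 ≤ T ^ η := Real.one_le_rpow hT h0.le
  have hEε : 1 ≤ T ^ ε := Real.one_le_rpow hT hε.le
  have hs1 : 1 ≤ T ^ (1 / 3 : ℝ) := Real.one_le_rpow hT (by norm_num)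
  have hs3 := vwd_cube hT0.le
  generalize T ^ (1 / 3 : ℝ) = s at *
  have hs : 0 < s := by linarith
  obtain ⟨Y, hYe⟩ : ∃ Y : ℕ, Y = ⌊T ^ (L.deg + η)⌋₊ := ⟨_, rfl⟩
  have hY1 : 1 ≤ Y := hYe ▸ (Nat.one_le_floor_iff _).2 (Real.one_le_rpow hT (by positivity))
  have hY : (Y : ℝ) ≤ T ^ (L.deg + η) := hYe ▸ Nat.floor_le (by positivity)
  have hpow := Tw_pow hd h0 h1 h2 hT (Nat.cast_nonneg Y) hY
  obtain ⟨n1, n2⟩ := vwd_num hs1 hE (Y := Y) (by
    refine hY.trans ?_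
    rw [hs3, Real.rpow_add hT0]
    exact mul_le_mul_of_nonneg_right ((Real.rpow_le_rpow_of_exponent_le hT hL).trans
      (Real.rpow_one T).le) (by positivity))
  rw [hs3] at n2
  have hH : ∀ v x : ℝ, ‖PP (L.co (η + v * I)) (Pr Y) x‖ ≤ K * (Cw * √Y * (Y : ℝ) ^ η) := fun v x => by
    refine (norm_sum_le _ _).trans ((Finset.sum_le_sum fun p hp => ?_).trans
      ((Finset.mul_sum _ _ _).ge.trans (mul_le_mul_of_nonneg_left (Hw Y hY1) hK.le)))
    rw [norm_mul, norm_osc, mul_one]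
    exact HK Y _ (by simp) p hp
  obtain ⟨c1, -, b1⟩ := Hf T _ (fun z x => PP (L.co z) (Pr Y) x) hT (L.Tw_PP Y η) hH
  have hG : ContinuousOn (fun x => ((max 0 (1 - |x - x₀| / s) : ℝ) : ℂ)) (Icc T (2 * T)) :=
    Continuous.continuousOn (by fun_prop)
  have hx : ∀ v ∈ Icc (-s) s, x₀ + v ∈ Icc T (2 * T) := fun v hv =>
    ⟨by linarith [hv.1], by linarith [hv.2]⟩
  have hx0 : x₀ ∈ Icc T (2 * T) := ⟨by linarith, by linarith⟩
  have split : ∀ (D D₁ D₂ : ℝ → ℂ) (c : ℂ), ContinuousOn D₁ (Icc T (2 * T)) →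
      ContinuousOn D₂ (Icc T (2 * T)) → (∀ x, D x = D₁ x + c * D₂ x) →
      ‖tri s D x₀‖ ≤ ‖tri s D₁ x₀‖ + ‖c‖ * ‖tri s D₂ x₀‖ := by
    intro D D₁ D₂ c k1 k2 k3
    rw [← vwd_tri hs hx1 hx2, ← vwd_tri hs hx1 hx2, ← vwd_tri hs hx1 hx2, ← norm_mul,
      ← intervalIntegral.integral_const_mul]
    refine le_trans (le_of_eq ?_) (norm_add_le _ _)
    rw [← intervalIntegral.integral_add ((hG.fun_mul k1).intervalIntegrable_of_Icc hTT)
      ((continuousOn_const.fun_mul (hG.fun_mul k2)).intervalIntegrable_of_Icc hTT)]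
    exact congrArg _ (intervalIntegral.integral_congr fun x _ => by simp only [k3]; ring)
  have h3 := b1 _ ((K * Cw * (1 + L.deg) + 10 * Kp * Cc) *
      ((Y : ℝ) ^ η * (2 * T) ^ (η * L.deg) * T ^ η) * s) hG fun v => by
    obtain ⟨w1, w2⟩ := L.Tw_w h0 h1 v
    have w3 : 1 + ‖(η + v * I : ℂ)‖ ≤ 2 * (1 + |v|) := by
      have h2 : ‖(η + v * I : ℂ)‖ ≤ η + |v| := by
        refine (norm_add_le _ _).trans (le_of_eq ?_)
        simp [abs_of_pos h0]
      linarith [abs_nonneg v]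
    have cP : Continuous (PP (L.co (η + v * I)) (Pr Y)) :=
      (L.Tw_PP Y η).comp (f := fun x : ℝ => (v, x)) (by fun_prop)
    have hP := hH v
    have k1 := Hc g Y (T / 2) (x₀ + θ) s (η + v * I) g1 g2 hY1 (by positivity) hs
      (by simpa using h0.le) fun u hu => by
        obtain ⟨k2, k3⟩ := hx u hu
        rw [abs_of_nonneg (by linarith)]
        constructor <;> linarith
    have k2 : ‖tri s (PP (L.co (η + v * I)) (Pr Y)) x₀‖ ≤
        Kp * (Cc * (2 * (1 + |v|)) * (Y : ℝ) ^ η * (5 * (T ^ η * s))) := by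
      rw [funext (g3 (η + v * I) Y), vwd_shift, norm_mul, Complex.norm_real,
        Real.norm_of_nonneg hKp.le]
      exact mul_le_mul_of_nonneg_left (k1.trans (by gcongr)) hKp.le
    generalize (η + v * I : ℂ) * L.deg = w at w1 w2 ⊢
    generalize PP (L.co (η + v * I)) (Pr Y) = P at cP hP k2 ⊢
    have he : ∀ x ∈ Icc T (2 * T), ‖exp (w * (Real.log x : ℝ))‖ ≤ (2 * T) ^ (η * L.deg) :=
      fun x hx => w1 ▸ norm_exp_log hT0 (by rw [w1]; positivity) hx
    have k3 : ∀ x ∈ Icc T (2 * T), ‖exp (w * (Real.log x : ℝ)) - exp (w * (Real.log x₀ : ℝ))‖ ≤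
        (1 + |v|) * (1 + L.deg) / T * (2 * T) ^ (η * L.deg) * ‖x - x₀‖ := fun x hx' =>
      (convex_Icc T (2 * T)).norm_image_sub_le_of_norm_hasDerivWithin_le
        (f := fun x : ℝ => exp (w * (Real.log x : ℝ)))
        (fun y hy => (nm_der w (hT0.trans_le hy.1)).hasDerivWithinAt) (fun y hy => by
          rw [norm_mul, norm_div, Complex.norm_real, Real.norm_of_nonneg (hT0.le.trans hy.1)]
          exact mul_le_mul (div_le_div₀ (by positivity) (by linarith) hT0 hy.1) (he y hy)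
            (norm_nonneg _) (by positivity)) hx0 hx'
    have k4 := tri_le hs (x := x₀)
      (D := fun x => P x * (exp (w * (Real.log x : ℝ)) - exp (w * (Real.log x₀ : ℝ))))
      (Z := K * (Cw * (T ^ η * s ^ 2) * (Y : ℝ) ^ η) *
        ((1 + |v|) * (1 + L.deg) / T * (2 * T) ^ (η * L.deg) * s)) fun u hu => by
        rw [norm_mul]
        refine mul_le_mul ((hP _).trans (by gcongr)) ((k3 _ (hx u hu)).trans ?_) (norm_nonneg _)
          (by positivity)
        rw [add_sub_cancel_left]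
        exact mul_le_mul_of_nonneg_left (abs_le.2 hu) (by positivity)
    rw [vwd_tri hs hx1 hx2]
    refine (split _ _ P (exp (w * (Real.log x₀ : ℝ))) (cP.continuousOn.fun_mul ((nice_exp hT0 w).cont.fun_sub
      (continuousOn_const (c := exp (w * (Real.log x₀ : ℝ)))))) cP.continuousOn fun x => by ring).trans
      ((add_le_add k4 (mul_le_mul (he _ hx0) k2 (norm_nonneg _) (by positivity))).trans
        (le_of_eq ?_))
    rw [mul_div_assoc, div_eq_mul_inv, show T⁻¹ = (s ^ 3)⁻¹ by rw [hs3]]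
    field_simp
    ring
  rw [vwd_tri hs hx1 hx2] at h3
  have hL2 : Continuous L.L2 := Complex.continuous_ofReal.comp (L.continuous_L_half.norm.pow 2)
  have h4 := tri_le hs (x := x₀)
    (D := fun x => L.L2 x - 2 * Ln (fun z => PP (L.co z) (Pr Y) x * L.wt x z) η) (Z := Ca)
    fun u hu => by
      have h5 := Ha T _ hT (hx u hu)
      rw [← hYe] at h5
      exact h5.trans (mul_le_of_le_one_right hCa.le
        (Real.rpow_le_one_of_one_le_of_nonpos hT (by nlinarith)))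
  refine (split _ _ _ 2 (hL2.continuousOn.fun_sub ((continuousOn_const (c := 2)).fun_mul c1)) c1
    fun x => by ring).trans ?_
  rw [Complex.norm_ofNat, add_mul, add_mul]
  refine add_le_add (h4.trans ?_) ?_
  · calc s * Ca = Ca * 1 * s := by ring
      _ ≤ _ := by gcongr
  · calc _ ≤ 2 * (Cf * ((K * Cw * (1 + L.deg) + 10 * Kp * Cc) * (2 ^ L.deg * T ^ ε) * s)) :=
          mul_le_mul_of_nonneg_left (h3.trans (by gcongr)) zero_le_two
      _ = _ := by ring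

/- For large `T` apply `wd_tri` to `T' = 2 a / 3 ∈ [2 T / 3, 4 T / 3]`, `s = T' ^ (1 / 3)`, at the two points `x₀ = a + s / 2` and
`x₀ = a + 3 s / 2`: the weight is at least `1 / 2` on `[a, a + s]` and on `[a + s, a + 2 s]`, and `T ^ (1 / 3) ≤ 2 s`.  For bounded
`T` use that `w` is bounded on a compact set. -/
theorem wp (hL : L.deg ≤ 1) (hq : L.QP) {ε : ℝ} (hε : 0 < ε) : ∃ C : ℝ, 0 < C ∧ ∀ T : ℝ, 1 ≤ T →
    ∀ a ∈ Icc T (2 * T), ∫ x in a..a + T ^ (1 / 3 : ℝ), L.w x ≤ C * T ^ ε * T ^ (1 / 3 : ℝ) := by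
  obtain ⟨C, T₀, hC, H⟩ := L.wd_tri hL hq hε
  obtain ⟨T₁, h1, h2⟩ : ∃ T₁ : ℝ, 2 * T₀ ≤ T₁ ∧ 54 ≤ T₁ := ⟨max _ _, le_max_left _ _, le_max_right _ _⟩
  obtain ⟨M, hM⟩ := isCompact_Icc.exists_bound_of_continuousOn
    (L.continuous_w.continuousOn (s := Icc 0 (3 * T₁)))
  have hM0 : 0 ≤ M := (norm_nonneg _).trans (hM 0 ⟨le_rfl, by linarith⟩)
  refine ⟨8 * C * 2 ^ ε + M, by positivity, fun T hT a ha => ?_⟩
  have hT0 : 0 < T := one_pos.trans_le hT
  have hE : 1 ≤ T ^ ε := Real.one_le_rpow hT hε.le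
  have hr1 : 1 ≤ T ^ (1 / 3 : ℝ) := Real.one_le_rpow hT (by norm_num)
  have hr3 := vwd_cube hT0.le
  generalize T ^ (1 / 3 : ℝ) = r at *
  have hr : 0 < r := by linarith
  obtain ⟨a1, a2⟩ := ha
  rw [add_mul, add_mul]
  rcases le_total T T₁ with h3 | h3
  · refine le_add_of_nonneg_of_le (by positivity) ?_
    have h4 : r ≤ T := hr3 ▸ le_self_pow₀ hr1 three_ne_zero
    have h5 := intervalIntegral.norm_integral_le_of_norm_le_const (a := a) (b := a + r) (C := M)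
      (f := L.w) fun x hx => by
        rw [uIoc_of_le (by linarith)] at hx
        exact hM x ⟨by linarith [hx.1], by linarith [hx.2]⟩
    rw [add_sub_cancel_left, abs_of_pos hr] at h5
    calc _ ≤ M * 1 * r := by linarith [Real.le_norm_self (∫ x in a..a + r, L.w x)]
      _ ≤ _ := by gcongr
  refine le_add_of_le_of_nonneg ?_ (by positivity)
  have H' := fun x₀ => H (2 * a / 3) x₀ (by linarith)
  have hs0 : 0 ≤ (2 * a / 3) ^ (1 / 3 : ℝ) := Real.rpow_nonneg (by linarith) _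
  have hs3 := vwd_cube (T := 2 * a / 3) (by linarith)
  generalize (2 * a / 3) ^ (1 / 3 : ℝ) = s at *
  have s1 : 3 ≤ s := le_of_pow_le_pow_left₀ three_ne_zero hs0 (by linarith)
  have s2 : s ≤ 2 * r := le_of_pow_le_pow_left₀ three_ne_zero (by linarith) (by linarith)
  have s3 : r ≤ 2 * s := le_of_pow_le_pow_left₀ three_ne_zero (by linarith) (by linarith)
  have s4 : 9 * s ≤ s ^ 3 := by nlinarith [mul_le_mul s1 s1 (by norm_num) hs0]
  have s5 : (2 * a / 3) ^ ε ≤ 2 ^ ε * T ^ ε := by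
    rw [← Real.mul_rpow zero_le_two hT0.le]
    exact Real.rpow_le_rpow (by linarith) (by linarith) hε.le
  have b1 := (vwd_low L.continuous_w L.w_nonneg (by linarith : 0 < s) a).trans
    (mul_le_mul_of_nonneg_left (H' _ (by linarith) (by linarith)) zero_le_two)
  have b2 := (vwd_low L.continuous_w L.w_nonneg (by linarith : 0 < s) (a + s)).trans
    (mul_le_mul_of_nonneg_left (H' _ (by linarith) (by linarith)) zero_le_two)
  have b3 := intervalIntegral.integral_add_adjacent_intervals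
    (L.continuous_w.intervalIntegrable (μ := volume) a (a + s))
    (L.continuous_w.intervalIntegrable (a + s) (a + s + s))
  have b4 : ∫ x in a..a + r, L.w x ≤ ∫ x in a..a + s + s, L.w x :=
    intervalIntegral.integral_mono_interval le_rfl (by linarith) (by linarith)
      (Filter.Eventually.of_forall L.w_nonneg) (L.continuous_w.intervalIntegrable _ _)
  have b5 : C * (2 * a / 3) ^ ε * s ≤ C * (2 ^ ε * T ^ ε) * (2 * r) := by gcongr
  linarith

end Sel

end Pool.Agent.Lib.MP_2a1a00_nt
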