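import Pool.Agent.Lib.MP_2a1a00_nt.V.P1
import Pool.Agent.Lib.MP_2a1a00_nt.V.C5
import Pool.Agent.Lib.MP_2a1a00_nt.V.TW
import Pool.Agent.Lib.MP_2a1a00_nt.V.Wd

/-! Twisted moments in degree two. -/

namespace Pool.Agent.Lib.MP_2a1a00_nt

open Complex MeasureTheory Set

theorem low0 {n m : ℕ} (hnm : n ≤ m) {f : ℝ → ℝ → ℂ} {x : ℝ} (hf : ∀ T, 1 ≤ T → Bm (f T) T)
    (m1 : Bd (fun T => mu0 m (f T) T) (1 + m * x)) : Bd (fun T => mu0 n (f T) T) (1 + n * x) := by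
  simp only [← mo_one] at m1 ⊢
  exact low_bd hnm hf continuous_const (fun _ => zero_le_one) bd_one m1

theorem bd_nat {f : ℝ → ℝ} (n : ℕ)
    (h : ∀ ε : ℝ, 0 < ε → ∃ C : ℝ, 0 < C ∧ ∀ T : ℝ, 1 ≤ T → f T ≤ C * T ^ ε * T ^ n) : Bd f n := by
  simpa only [Bd, Real.rpow_natCast] using h

namespace Sel

variable {F L : Sel} {P : Vo} {γ : ℝ}

theorem p2_sq (h : F.deg = 2) (hP : F.Vor P) (h1 : γ ≤ 1 / 100) :
    Bd (fun T => mu0 2 (fun x => F.B (T ^ (1 : ℝ)) x - F.Hs P γ T x) T) (3 / 2 - γ / 2) :=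
  F.sq_bd h.ge hP (by norm_num) le_rfl (by rw [h]; linarith) (by rw [h]; linarith)
    (by rw [h]; linarith) (by rw [h, al_two]; linarith)

theorem p2_l2 (h : F.deg = 2) (hP : F.Vor P) (h1 : γ ≤ 1 / 100) :
    Bd (fun T => mo 2 (fun x => F.E x - F.Hs P γ T x) (fun _ => 1) T) (3 / 2 - γ / 2) := by
  refine F.back continuous_const (fun _ => zero_le_one) bd_one (fun T hT => F.bm_Hs P γ hT)
    (by linarith) ?_
  simp only [mo_one]
  exact p2_sq h hP h1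

theorem p2_tw (hL : L.deg ≤ 1) (h : F.deg = 2) (hP : F.Vor P) (h1 : γ ≤ 1 / 100) :
    Bd (fun T => mo 2 (fun x => F.E x - F.Hs P γ T x) L.w T) (3 / 2 - γ / 2) :=
  F.back L.continuous_w L.w_nonneg (L.bd_mass hL) (fun _ hT => F.bm_Hs P γ hT) (by linarith)
    (F.tw_l2 (y := 1 / 3) hL h.ge (by linarith) hP zero_le_one le_rfl (by rw [h]; norm_num)
      (by norm_num) (by norm_num) (by rw [h, al_two]; linarith) (p2_sq h hP h1) (by linarith)
      (by linarith))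

theorem p2_H8 (h : F.deg = 2) (hP : F.Vor P) (h1 : γ ≤ 1 / 100) :
    Bd (fun T => mu0 8 (F.Hs P γ T) T) 3 := by
  refine bd_nat 3 fun ε hε => ?_
  obtain ⟨C, hC, k⟩ := F.H_eight h hP.1 hε
  exact ⟨C, hC, fun T hT => k T _ hT ((Nat.floor_le (Real.rpow_nonneg (by linarith) _)).trans
    (Real.rpow_le_rpow_of_exponent_le hT (by linarith)))⟩

theorem p2_B8 (h : F.deg = 2) (hP : F.Vor P) : Bd (fun T => mu0 8 (F.B (T ^ (1 : ℝ))) T) 3 :=
  F.forth (by norm_num) (bd_nat 3 fun _ hε => F.E_eight h hP hε)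

theorem p2_H (hL : L.deg ≤ 1) (h : F.deg = 2) (hP : F.Vor P) (h0 : 0 ≤ γ) (h1 : γ ≤ 1 / 100)
    {n : ℕ} (hn : n = 6 ∨ n = 7) : Bd (fun T => mo n (F.Hs P γ T) L.w T) (1 + n / 4) := by
  obtain ⟨H', K, Λ, k1, k2, k3⟩ := F.Hs_nice h.ge P (γ := γ) (by rw [h, al_two]; linarith)
  rw [h, al_two] at k2
  have k4 := p2_H8 h hP h1
  have k5 := low0 (n := n) (m := 8) (x := 1 / 4) (by omega) (fun T hT => F.bm_Hs P γ hT)
    (k4.mono (by norm_num))
  refine L.tm_sup hL (by omega) (q := 8) (by omega) (by linarith) (by linarith)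
    (fun T hT => (k3 T hT).1) k1 (fun T hT x hx => ((k3 T hT).2 x hx).2) k2
    (fun T hT x hx => ((k3 T hT).2 x hx).1) (k5.mono (by linarith)) k4 ?_ ?_
  · rcases hn with rfl | rfl <;> push_cast <;> linarith
  · rcases hn with rfl | rfl <;> push_cast <;> linarith

theorem p2_E6 (hL : L.deg ≤ 1) (h : F.deg = 2) (hP : F.Vor P) :
    Bd (fun T => mo 6 F.E L.w T) (1 + (6 : ℕ) / 4) := by
  obtain ⟨K, k1, k2⟩ := F.bd_B1 zero_le_one le_rfl
  obtain ⟨Λ, k3, k4⟩ := F.bd_B (y := 1 / 3) h.ge (by linarith) hP zero_le_one le_rfl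
    (by rw [h]; norm_num) (by norm_num)
  have k5 := p2_B8 h hP
  have k6 := low0 (n := 6) (m := 8) (x := 1 / 4) (by omega) (fun T hT => (F.nice_Bw 1 hT).bm0)
    (k5.mono (by norm_num))
  exact F.back0 L.continuous_w L.w_nonneg (L.bd_mass hL) (by norm_num)
    (L.tm_sup hL (by omega) (q := 8) (by omega) (by norm_num) (by norm_num)
      (fun T hT => F.nice_Bw 1 hT) k1 k2 k3 k4 (k6.mono (by norm_num)) k5 (by norm_num)
      (by norm_num))

theorem p2_E7 (hL : L.deg ≤ 1) (hq : L.QP) (h : F.deg = 2) (hP : F.Vor P) :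
    Bd (fun T => mo 7 F.E L.w T) (1 + (7 : ℕ) / 4) := by
  obtain ⟨K, k1, k2⟩ := F.bd_B1 zero_le_one le_rfl
  obtain ⟨Λ, k3, k4⟩ := F.bd_B (y := 1 / 3) h.ge (by linarith) hP zero_le_one le_rfl
    (by rw [h]; norm_num) (by norm_num)
  have k5 := p2_B8 h hP
  have k6 := low0 (n := 7) (m := 8) (x := 1 / 4) (by omega) (fun T hT => (F.nice_Bw 1 hT).bm0)
    (k5.mono (by norm_num))
  have k7 := L.tm_bd (c := 1 + (7 : ℕ) / 4) (y := 3 / 10) hL (by omega) (q := 8) (by omega)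
    (by norm_num) (by norm_num) (fun T hT => F.nice_Bw 1 hT) k1 k2 (k6.mono (by norm_num)) k5
    (by norm_num) (by norm_num)
  obtain ⟨m, m1, m0, m2⟩ := bd_unif' (S := fun T => Icc T (2 * T)) (c := 1 / 3)
    (φ := fun T a => ∫ x in a..a + T ^ (1 / 3 : ℝ), L.w x) fun ε hε => by
      obtain ⟨C, -, k⟩ := L.wp hL hq hε
      exact ⟨C, k⟩
  have n1 : ∀ T, 1 ≤ T → 0 ≤ K T := fun T hT =>
    (norm_nonneg _).trans (k2 T hT T ⟨le_rfl, by linarith⟩)
  have n2 : ∀ T, 1 ≤ T → 0 ≤ Λ T / T ^ (1 / 3 : ℝ) := fun T hT => div_nonneg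
    ((norm_nonneg _).trans (k4 T hT T ⟨le_rfl, by linarith⟩)) (Real.rpow_nonneg (by linarith) _)
  have k8 := ((bd_const 1).add k1).add ((k3.div_rpow (1 / 3)).mono (sub_self _).le)
  have k9 := ((((m1.const_mul (K := 2 ^ 10) (by norm_num)).mul k8 fun T hT => by
    linarith [n1 T hT, n2 T hT]).mul k5 fun T hT => mu0_nonneg _ _ (by linarith)).div_rpow
    (2 * (3 / 10))).mono (d := 1 + (7 : ℕ) / 4) (by norm_num)
  refine F.back0 L.continuous_w L.w_nonneg (L.bd_mass hL) (by norm_num)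
    ((k7.add k9).of_le fun T hT => ?_)
  have h0 : 0 < T := by linarith
  have h1 : 0 < T ^ (1 / 3 : ℝ) := by positivity
  refine (tw_big (K := 1 + K T + Λ T / T ^ (1 / 3 : ℝ)) (Y := T ^ (3 / 10 : ℝ)) (F.nice_Bw 1 hT)
    (by linarith [n1 T hT, n2 T hT]) h1 (p1_W (by norm_num) (by norm_num) hT).2 (by positivity)
    L.continuous_w L.w_nonneg (m2 T hT) (fun x hx => ⟨?_, ?_⟩) le_rfl).trans (le_of_eq ?_)
  · rw [add_mul, div_mul_cancel₀ _ h1.ne']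
    have := mul_nonneg (add_nonneg zero_le_one (n1 T hT)) h1.le
    linarith [k4 T hT x hx]
  · linarith [k2 T hT x hx, n2 T hT]
  · rw [rpow_pow hT, Nat.cast_ofNat]

end Sel

end Pool.Agent.Lib.MP_2a1a00_nt
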