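import Pool.Agent.Lib.MP_2a1a00_nt.V.B2
import Pool.Agent.Lib.MP_2a1a00_nt.Dy
import Pool.Agent.Lib.MP_2a1a00_nt.X

/-! The difference of two smoothings in mean square. -/

namespace Pool.Agent.Lib.MP_2a1a00_nt

open Complex MeasureTheory Set

theorem vb5_pow {y U W p : ℝ} (hy : 0 ≤ y) (hU : 1 ≤ U) (hW : 1 ≤ W) (h0 : 0 ≤ p) (h2 : p ≤ 2)
    (h3 : y ≤ U / W ^ 2) (h4 : y ≤ 1 / U) : y ^ 2 ≤ W ^ (p - 2) * U ^ (-p) := by
  have hU0 : 0 < U := by linarith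
  have hW0 : 0 < W := by linarith
  rw [Real.rpow_neg hU0.le, ← div_eq_mul_inv, le_div_iff₀ (by positivity)]
  rcases le_total U W with h | h
  · have h5 : y ≤ 1 / W := by
      refine h3.trans ?_
      rw [div_le_div_iff₀ (by positivity) hW0]
      nlinarith
    calc y ^ 2 * U ^ p ≤ (1 / W) ^ 2 * W ^ p := by gcongr
      _ = W ^ (p - 2) := by
        rw [Real.rpow_sub hW0, Real.rpow_two]
        field_simp
  · calc y ^ 2 * U ^ p ≤ (1 / U) ^ 2 * U ^ p := by gcongr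
      _ = U ^ (p - 2) := by
        rw [Real.rpow_sub hU0, Real.rpow_two]
        field_simp
      _ ≤ W ^ (p - 2) := Real.rpow_le_rpow_of_nonpos hW0 h (by linarith)

theorem vb5_mult {T W U t : ℝ} (hW : 1 ≤ W) (hT : W ≤ T) (hU : 1 ≤ U) (ht : t ∈ Bl U) {s : ℂ}
    (h1 : s.re = 1 / 2) (h2 : s.im = t) :
    ‖(gW T s - gW W s) / s‖ / (6 * Real.exp 4) ≤ U / W ^ 2 ∧
      ‖(gW T s - gW W s) / s‖ / (6 * Real.exp 4) ≤ 1 / U := by
  have hW0 : 0 < W := by linarith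
  have hU0 : 0 < U := by linarith
  have a1 : 1 / 2 ≤ ‖s‖ := by
    have := re_le_norm s
    rwa [h1] at this
  have a2 : |t| ≤ ‖s‖ := h2 ▸ abs_im_le_norm s
  have a3 : ‖s‖ ≤ 2 * U := by
    have h3 := norm_le_abs_re_add_abs_im s
    have h4 : 1 + |t| ≤ 2 * U := ht.2
    rw [h1, h2, abs_of_pos (by norm_num : (0 : ℝ) < 1 / 2)] at h3
    linarith
  have a4 : U ≤ 3 * ‖s‖ := by
    have h4 : U ≤ 1 + |t| := ht.1
    linarith
  have hs0 : 0 < ‖s‖ := by linarith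
  have he := Real.exp_pos 4
  have hre : |s.re| ≤ 2 := by rw [h1, abs_le]; constructor <;> norm_num
  have b1 : ‖gW T s - gW W s‖ ≤ 2 * Real.exp 4 * (‖s‖ ^ 2 / W ^ 2) := by
    have h3 := gW_sub (hW.trans hT) hre
    have h4 := gW_sub hW hre
    have h5 : Real.exp 4 * (‖s‖ ^ 2 / T ^ 2) ≤ Real.exp 4 * (‖s‖ ^ 2 / W ^ 2) := by gcongr
    have h6 := norm_sub_le (gW T s - 1) (gW W s - 1)
    rw [sub_sub_sub_cancel_right] at h6
    linarith
  have b2 : ∀ V : ℝ, 1 ≤ V → ‖gW V s‖ ≤ Real.exp 4 := fun V hV => by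
    rw [norm_gW (by linarith), Real.exp_le_exp, div_le_iff₀ (by positivity), h1]
    nlinarith [sq_nonneg s.im]
  have b3 : ‖gW T s - gW W s‖ ≤ 2 * Real.exp 4 := by
    linarith [norm_sub_le (gW T s) (gW W s), b2 T (hW.trans hT), b2 W hW]
  rw [norm_div, div_div]
  constructor
  · rw [div_le_iff₀ (by positivity)]
    refine b1.trans ?_
    calc 2 * Real.exp 4 * (‖s‖ ^ 2 / W ^ 2) = ‖s‖ * (2 * Real.exp 4 * ‖s‖ / W ^ 2) := by ring
      _ ≤ (3 * U) * (2 * Real.exp 4 * ‖s‖ / W ^ 2) := by gcongr; linarith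
      _ = _ := by ring
  · rw [div_le_div_iff₀ (by positivity) hU0]
    calc ‖gW T s - gW W s‖ * U ≤ 2 * Real.exp 4 * (3 * ‖s‖) := by gcongr
      _ = _ := by ring

theorem vb5_four {a b : ℝ → ℂ} (ha : Integrable a) (hb : Integrable b) (u : ℝ) :
    four (fun t => a t - b t) u = four a u - four b u := by
  have h : ∀ {a : ℝ → ℂ}, Integrable a → Integrable fun t : ℝ => a t * exp (I * (t * u : ℝ)) :=
    fun ha => ha.mul_bdd (c := 1) (Continuous.aestronglyMeasurable (by fun_prop))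
      (Filter.Eventually.of_forall fun t => (norm_ei _).le)
  unfold four
  rw [← integral_sub (h ha) (h hb)]
  simp only [sub_mul]

namespace Sel

variable (F : Sel)

theorem vb5_int {W : ℝ} (hW : 0 < W) : Integrable fun t : ℝ =>
    F.L (((1 / 2 : ℝ) : ℂ) + t * I) / (((1 / 2 : ℝ) : ℂ) + t * I) *
      gW W (((1 / 2 : ℝ) : ℂ) + t * I) := by
  obtain ⟨C, K, hC, -, h⟩ := F.growth
  have hre : ∀ s ∈ St (1 / 2) (1 / 2), s.re = 1 / 2 := fun s hs => le_antisymm hs.2 hs.1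
  refine (dec_gW (g := fun s => F.L s / s) (a := 1 / 2) (b := 1 / 2) (C := C * 2 ^ F.m * 2)
    (K := K) hW (fun s hs => ?_) fun s hs => ?_).integrable le_rfl le_rfl
  · refine ((F.differentiableAt_L fun e => ?_).div differentiableAt_id
      fun e : s = 0 => ?_).differentiableWithinAt
    · have := hre s hs
      rw [e] at this
      norm_num at this
    · have := hre s hs
      rw [e] at this
      norm_num at this
  · have h1 : 1 / 2 ≤ ‖s‖ := by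
      have := re_le_norm s
      rwa [hre s hs] at this
    have h2 : 1 / 2 ≤ ‖s - 1‖ := by
      have := abs_re_le_norm (s - 1)
      rw [sub_re, hre s hs, one_re] at this
      norm_num [abs_of_neg] at this ⊢
      exact this
    have h3 := h s ⟨by rw [hre s hs]; norm_num, by rw [hre s hs]; norm_num⟩
    rw [Sel.L, norm_div, norm_div, norm_pow]
    calc ‖F.G s‖ / ‖s - 1‖ ^ F.m / ‖s‖ ≤ C * (1 + |s.im|) ^ K / (1 / 2) ^ F.m / (1 / 2) := by
          gcongr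
      _ = _ := by
          rw [one_div, inv_pow]
          field_simp

theorem vb5_eq (W : ℝ) {x : ℝ} (hx : 0 < x) :
    F.B W x = (1 / (2 * Real.pi) : ℝ) * px (1 / 2 : ℝ) x * four (fun t : ℝ =>
      F.L (((1 / 2 : ℝ) : ℂ) + t * I) / (((1 / 2 : ℝ) : ℂ) + t * I) *
        gW W (((1 / 2 : ℝ) : ℂ) + t * I)) (Real.log x) := by
  rw [B, Ln, four, mul_assoc, ← integral_const_mul (px _ x)]
  congr 2
  funext t
  have e : px (t * I) x = exp (I * (t * Real.log x : ℝ)) := by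
    rw [px]
    congr 1
    push_cast
    ring
  rw [px_cpow _ hx, px_add, e]
  ring

/- `B T x - B W x = √x * four Ψ (log x)` with `Ψ t = L s * (gW T s - gW W s) / (2 π s)`, `s = 1 / 2 + t i`
(integrable: as in `B_der`).  `‖gW T s - gW W s‖ ≤ C * min 1 (‖s‖ ^ 2 / W ^ 2)` (`gW_sub`, `norm_gW`), so on
`Bl U` one has `‖Ψ t‖ ^ 2 ≤ C * ‖L s‖ ^ 2 * min (U ^ 2 / W ^ 4) (1 / U ^ 2)`; `Bl U ⊆ [-2 U, 2 U]`, `h`, and
`U ^ (κ + 2 δ) * min (U ^ 2 / W ^ 4) (1 / U ^ 2) ≤ W ^ (κ + 2 δ - 2)` for `κ + 2 δ ≤ 2`; then `dy`, `l2`,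
and `x_sub` with `‖B T x - B W x‖ ^ 2 ≤ 4 T ^ 2 * (x⁻¹ * ‖four Ψ (log x)‖ ^ 2)` (compare `x_l2`). -/
theorem B_ms {κ : ℝ} (h0 : 0 ≤ κ) (h1 : κ ≤ 3 / 2) (h : F.MS κ) {ε : ℝ} (hε : 0 < ε) :
    ∃ C : ℝ, 0 < C ∧ ∀ T W : ℝ, 1 ≤ W → W ≤ T →
      Sq (fun x => F.B T x - F.B W x) T ≤ C * T ^ ε * (T ^ 2 * W ^ (κ - 2)) := by
  obtain ⟨δ, hδ, d1, d2⟩ : ∃ δ : ℝ, 0 < δ ∧ 2 * δ ≤ ε ∧ δ ≤ 1 / 4 :=
    ⟨min (ε / 2) (1 / 4), by positivity, by linarith [min_le_left (ε / 2) (1 / 4)],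
      min_le_right _ _⟩
  obtain ⟨C₁, hC₁, m1⟩ := h δ hδ
  obtain ⟨C₂, hC₂, m2⟩ := dy hδ
  obtain ⟨C₃, hC₃, m3⟩ := l2
  refine ⟨4 * (C₃ * (C₂ * ((6 * Real.exp 4) ^ 2 * C₁ * 4))), by positivity, fun T W hW hT => ?_⟩
  have hW0 : 0 < W := by linarith
  have hT1 : 1 ≤ T := hW.trans hT
  have hT0 : 0 < T := by linarith
  have i1 := F.vb5_int hT0
  have i2 := F.vb5_int hW0
  obtain ⟨Ψ, hΨ⟩ : ∃ Ψ : ℝ → ℂ, Ψ = fun t : ℝ =>
      F.L (((1 / 2 : ℝ) : ℂ) + t * I) / (((1 / 2 : ℝ) : ℂ) + t * I) *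
        gW T (((1 / 2 : ℝ) : ℂ) + t * I) -
      F.L (((1 / 2 : ℝ) : ℂ) + t * I) / (((1 / 2 : ℝ) : ℂ) + t * I) *
        gW W (((1 / 2 : ℝ) : ℂ) + t * I) := ⟨_, rfl⟩
  have i3 : Integrable Ψ := hΨ ▸ i1.sub i2
  have e1 : ∀ x : ℝ, 0 < x → F.B T x - F.B W x =
      (1 / (2 * Real.pi) : ℝ) * px (1 / 2 : ℝ) x * four Ψ (Real.log x) := fun x hx => by
    rw [F.vb5_eq T hx, F.vb5_eq W hx, hΨ, vb5_four i1 i2, mul_sub]
  have hb : ∀ U : ℝ, 1 ≤ U → ∫⁻ t in Bl U, ‖Ψ t‖ₑ ^ 2 ≤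
      ENNReal.ofReal ((6 * Real.exp 4) ^ 2 * C₁ * 4 * W ^ (κ + 2 * δ - 2) * U ^ (-δ)) := by
    intro U hU
    have hU0 : 0 < U := by linarith
    set c : ℝ := (6 * Real.exp 4) ^ 2 * (W ^ (κ + 2 * δ - 2) * U ^ (-(κ + 2 * δ))) with hc
    have hc0 : 0 ≤ c := by positivity
    have hw : Continuous fun t : ℝ => c * ‖F.L (1 / 2 + t * I)‖ ^ 2 :=
      continuous_const.mul (F.continuous_L_half.norm.pow 2)
    have hle : -(2 * U) ≤ 2 * U := by linarith
    calc ∫⁻ t in Bl U, ‖Ψ t‖ₑ ^ 2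
        ≤ ∫⁻ t in Bl U, ENNReal.ofReal (c * ‖F.L (1 / 2 + t * I)‖ ^ 2) := by
          refine setLIntegral_mono' (measurableSet_Bl U) fun t ht => ?_
          rw [← ofReal_norm, ← ENNReal.ofReal_pow (norm_nonneg _)]
          refine ENNReal.ofReal_le_ofReal ?_
          obtain ⟨k1, k2⟩ := vb5_mult hW hT hU ht (s := 1 / 2 + t * I) (by simp) (by simp)
          have k3 := vb5_pow (by positivity) hU hW (by linarith : 0 ≤ κ + 2 * δ) (by linarith) k1 k2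
          rw [div_pow, div_le_iff₀' (by positivity)] at k3
          have e : Ψ t = (gW T (1 / 2 + t * I) - gW W (1 / 2 + t * I)) / (1 / 2 + t * I) *
              F.L (1 / 2 + t * I) := by
            rw [hΨ]
            push_cast
            ring
          rw [e, norm_mul, mul_pow]
          exact mul_le_mul_of_nonneg_right k3 (sq_nonneg _)
      _ ≤ ∫⁻ t in Ioc (-(2 * U)) (2 * U), ENNReal.ofReal (c * ‖F.L (1 / 2 + t * I)‖ ^ 2) := by
          refine lintegral_mono_set ?_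
          have := Bl_subset hU
          rwa [show -(2 * U) + 4 * U = 2 * U by ring] at this
      _ = ENNReal.ofReal (∫ t in -(2 * U)..2 * U, c * ‖F.L (1 / 2 + t * I)‖ ^ 2) := by
          rw [intervalIntegral.integral_of_le hle, ofReal_integral_eq_lintegral_ofReal
            (hw.intervalIntegrable _ _).1 (Filter.Eventually.of_forall fun t => by positivity)]
      _ ≤ _ := by
          refine ENNReal.ofReal_le_ofReal ?_
          rw [intervalIntegral.integral_const_mul]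
          refine (mul_le_mul_of_nonneg_left (m1 (2 * U) (by linarith)) hc0).trans ?_
          have k1 : (2 : ℝ) ^ (κ + δ) ≤ 4 := by
            calc (2 : ℝ) ^ (κ + δ) ≤ 2 ^ (2 : ℝ) :=
                  Real.rpow_le_rpow_of_exponent_le one_le_two (by linarith)
              _ = 4 := by norm_num
          have k2 : U ^ (-δ) = U ^ (-(κ + 2 * δ)) * U ^ (κ + δ) := by
            rw [← Real.rpow_add hU0]
            congr 1
            ring
          rw [Real.mul_rpow zero_le_two hU0.le, k2, hc]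
          calc (6 * Real.exp 4) ^ 2 * (W ^ (κ + 2 * δ - 2) * U ^ (-(κ + 2 * δ))) *
                (C₁ * (2 ^ (κ + δ) * U ^ (κ + δ)))
              ≤ (6 * Real.exp 4) ^ 2 * (W ^ (κ + 2 * δ - 2) * U ^ (-(κ + 2 * δ))) *
                (C₁ * (4 * U ^ (κ + δ))) := by gcongr
            _ = _ := by ring
  have hZ := m3 Ψ _ (Real.log T) i3 (by positivity) (m2 _ _ (by positivity) hb)
  have h2 : T ≤ 2 * T := by linarith
  have hψ : Continuous fun u => ‖four Ψ u‖ ^ 2 := (continuous_four i3).norm.pow 2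
  have h3 : ‖∫ x in T..2 * T, ‖F.B T x - F.B W x‖ ^ 2‖ ≤
      ∫ x in T..2 * T, 4 * T ^ 2 * (x⁻¹ • ‖four Ψ (Real.log x)‖ ^ 2) := by
    refine intervalIntegral.norm_integral_le_of_norm_le h2
      (Filter.Eventually.of_forall fun x hx => ?_)
      (((x_cont hψ hT0).intervalIntegrable_of_Icc h2).const_mul _)
    have hx0 : 0 < x := hT0.trans hx.1
    have k1 : ‖((1 / (2 * Real.pi) : ℝ) : ℂ)‖ ≤ 1 := by
      rw [norm_real, Real.norm_of_nonneg (by positivity), div_le_one (by positivity)]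
      linarith [Real.pi_gt_three]
    have k2 : ‖px (1 / 2 : ℝ) x‖ ^ 2 = x := by
      rw [norm_px _ hx0, ofReal_re, ← Real.sqrt_eq_rpow, Real.sq_sqrt hx0.le]
    have k3 : x ≤ 4 * T ^ 2 * x⁻¹ := by
      rw [← div_eq_mul_inv, le_div_iff₀ hx0]
      nlinarith [hx.2]
    rw [Real.norm_of_nonneg (sq_nonneg _), smul_eq_mul, e1 x hx0, norm_mul, norm_mul, mul_pow,
      mul_pow, k2, ← mul_assoc]
    refine mul_le_mul_of_nonneg_right (le_trans ?_ k3) (sq_nonneg _)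
    exact mul_le_of_le_one_left hx0.le (pow_le_one₀ (norm_nonneg _) k1)
  rw [intervalIntegral.integral_const_mul, x_sub hψ hT0 h2] at h3
  obtain ⟨h4, h5⟩ := x_log hT1 ⟨h2, le_rfl⟩
  have h6 : ∫ u in Real.log T..Real.log (2 * T), ‖four Ψ u‖ ^ 2 ≤
      ∫ u in Real.log T..Real.log T + 1, ‖four Ψ u‖ ^ 2 :=
    intervalIntegral.integral_mono_interval le_rfl (by linarith) (by linarith)
      (Filter.Eventually.of_forall fun u => sq_nonneg _) (hψ.intervalIntegrable _ _)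
  refine ((le_abs_self _).trans h3).trans ((mul_le_mul_of_nonneg_left (h6.trans hZ)
    (by positivity)).trans ?_)
  have h7 : W ^ (κ + 2 * δ - 2) ≤ T ^ ε * W ^ (κ - 2) := by
    rw [show κ + 2 * δ - 2 = 2 * δ + (κ - 2) by ring, Real.rpow_add hW0]
    refine mul_le_mul_of_nonneg_right ?_ (by positivity)
    exact (Real.rpow_le_rpow hW0.le hT (by linarith)).trans
      (Real.rpow_le_rpow_of_exponent_le hT1 d1)
  calc 4 * T ^ 2 * (C₃ * (C₂ * ((6 * Real.exp 4) ^ 2 * C₁ * 4 * W ^ (κ + 2 * δ - 2))))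
      ≤ 4 * T ^ 2 * (C₃ * (C₂ * ((6 * Real.exp 4) ^ 2 * C₁ * 4 * (T ^ ε * W ^ (κ - 2))))) := by
        gcongr
    _ = _ := by ring

end Sel

end Pool.Agent.Lib.MP_2a1a00_nt
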