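import Pool.Agent.Lib.MP_2a1a00_nt.V.C1
import Pool.Agent.Lib.MP_2a1a00_nt.V.Cnt
import Pool.Agent.Lib.MP_2a1a00_nt.Unt

/-! The third moment in degree three. -/

namespace Pool.Agent.Lib.MP_2a1a00_nt

open Complex MeasureTheory Set

theorem vc3_root {u v e : ℝ} (n : ℕ) (hn : n ≠ 0) (he : e = (n : ℝ)⁻¹) (hu : 0 ≤ u) (hv : 0 ≤ v)
    (h : u ≤ v ^ n) : u ^ e ≤ v := by
  rw [he]
  exact (Real.rpow_le_rpow hu h (by positivity)).trans_eq (Real.pow_rpow_inv_natCast hv hn)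

theorem vc3_pow {T e : ℝ} (n : ℕ) (hn : n ≠ 0) (he : e = (n : ℝ)⁻¹) (hT : 0 ≤ T) :
    (T ^ e) ^ n = T := by
  rw [he, Real.rpow_inv_natCast_pow hT hn]

theorem vc3_head {T y x δ : ℝ} {M : ℕ} (hT : 1 ≤ T) (hy : 1 ≤ y) (hy2 : y ^ 2 ≤ T) (hδ : 0 < δ)
    (hx : x ∈ Icc (T / 2) (4 * T)) (hM : (M : ℝ) ≤ y ^ 3 / T) :
    x ^ (1 / 3 : ℝ) * (M : ℝ) ^ (1 / 3 + δ) ≤ 2 * (T ^ δ * y) := by
  have hT0 : 0 < T := one_pos.trans_le hT
  have hx0 : 0 ≤ x := le_trans (by positivity) hx.1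
  have h1 : (M : ℝ) * T ≤ y ^ 3 := (le_div_iff₀ hT0).1 hM
  have h2 : (M : ℝ) ≤ T := by
    refine le_of_mul_le_mul_right (h1.trans ?_) hT0
    have h3 : y ≤ T := le_trans (by nlinarith) hy2
    calc y ^ 3 = y * y ^ 2 := by ring
      _ ≤ T * T := by gcongr
  have h3 : (x * M) ^ (1 / 3 : ℝ) ≤ 2 * y := by
    refine vc3_root 3 (by norm_num) (by norm_num) (by positivity) (by positivity) ?_
    have h4 := mul_le_mul_of_nonneg_right hx.2 (Nat.cast_nonneg (α := ℝ) M)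
    have h5 : 0 ≤ y ^ 3 := by positivity
    linarith
  rw [Real.rpow_add_of_nonneg (Nat.cast_nonneg _) (by norm_num) hδ.le, ← mul_assoc,
    ← Real.mul_rpow hx0 (Nat.cast_nonneg _)]
  calc _ ≤ 2 * y * T ^ δ :=
        mul_le_mul h3 (Real.rpow_le_rpow (Nat.cast_nonneg _) h2 hδ.le) (by positivity)
          (by positivity)
    _ = _ := by ring

theorem vc3_diag {T y m : ℝ} (hT : 0 < T) (hy : 0 < y) (hm : y ^ 3 / T ≤ m) :
    T ^ (2 - 1 / 3 : ℝ) * m ^ (-1 / 3 : ℝ) ≤ T ^ 2 / y := by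
  have hm0 : 0 < m := lt_of_lt_of_le (by positivity) hm
  have h1 : (T * m) ^ (-1 / 3 : ℝ) ≤ y⁻¹ := by
    refine (Real.rpow_le_rpow_of_nonpos (pow_pos hy 3) ((div_le_iff₀' hT).1 hm)
      (by norm_num)).trans_eq ?_
    rw [← Real.rpow_natCast, ← Real.rpow_mul hy.le, ← Real.rpow_neg_one]
    norm_num
  rw [show (2 - 1 / 3 : ℝ) = (2 : ℕ) + -1 / 3 by norm_num, Real.rpow_add hT, Real.rpow_natCast,
    mul_assoc, ← Real.mul_rpow hT.le hm0.le, div_eq_mul_inv (T ^ 2)]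
  exact mul_le_mul_of_nonneg_left h1 (by positivity)

theorem vc3_off {T y n δ : ℝ} (hT : 1 ≤ T) (hy : 0 < y) (hδ : 0 < δ) (hn0 : 0 ≤ n)
    (hn : n ≤ (T / y) ^ 3 * T ^ (δ - 1)) :
    T ^ (2 - 2 / 3 : ℝ) * n ^ (1 - 2 / 3 : ℝ) ≤ T ^ δ * (T ^ 2 / y) := by
  have hT0 : 0 < T := one_pos.trans_le hT
  have h0 : 1 ≤ T ^ δ := Real.one_le_rpow hT hδ.le
  have h1 : (T * n) ^ (1 - 2 / 3 : ℝ) ≤ T / y * T ^ δ := by
    refine vc3_root 3 (by norm_num) (by norm_num) (by positivity) (by positivity) ?_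
    rw [Real.rpow_sub_one hT0.ne', ← mul_div_assoc, le_div_iff₀' hT0] at hn
    rw [mul_pow]
    exact hn.trans (mul_le_mul_of_nonneg_left (le_self_pow₀ h0 (by norm_num)) (by positivity))
  rw [show (2 - 2 / 3 : ℝ) = 1 + (1 - 2 / 3) by norm_num, Real.rpow_add hT0, Real.rpow_one,
    mul_assoc, ← Real.mul_rpow hT0.le hn0]
  exact (mul_le_mul_of_nonneg_left h1 hT0.le).trans_eq (by ring)

namespace Sel

variable (F : Sel) {P : Vo}

/- `W = T / y`, `N = ⌊W ^ 3 * T ^ (δ - 1)⌋₊`, `M = min N ⌊y ^ 3 / T⌋₊`.  The functions `E - B W` (`B_near`),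
`B W - av W (H 0 N)` (`hP`, `W ^ (1 / 2) ≤ T ^ (1 / 3) ≤ y`) and `av W (H 0 M)` (`av_sup`, `H_le`,
`(T M) ^ (1 / 3) ≤ y`, `M ≤ T`) are at most `C T ^ δ y`; so the set lies in `{y < ‖av W (H M N) x‖}`; `cheb`, `av_sq`, `H_mv`:
`T ^ (5 / 3) * (M + 1) ^ (-1 / 3) ≤ T ^ 2 / y` if `M = ⌊y ^ 3 / T⌋₊` (else `H M N = 0`), and
`T ^ (4 / 3) * N ^ (1 / 3) ≤ T ^ δ * T ^ 2 / y`. -/
theorem E_lev3 (h : F.deg = 3) (hP : F.Vor P) {ε : ℝ} (hε : 0 < ε) : ∃ C : ℝ, 1 ≤ C ∧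
    ∀ T y : ℝ, 1 ≤ T → T ^ (1 / 3 : ℝ) ≤ y → y ≤ T ^ (1 / 2 : ℝ) →
    volume {x ∈ Icc T (2 * T) | C * T ^ ε * y < ‖F.E x‖} ≤
      ENNReal.ofReal (C * T ^ ε * T ^ 2 / y ^ 3) := by
  obtain ⟨δ, hδ, hδ1, hδε⟩ : ∃ δ : ℝ, 0 < δ ∧ δ ≤ 1 ∧ 3 * δ ≤ ε :=
    ⟨min 1 (ε / 3), by positivity, min_le_left _ _, by linarith [min_le_right 1 (ε / 3)]⟩
  obtain ⟨C₁, hC₁, h1⟩ := F.B_near hδ
  obtain ⟨C₂, hC₂, h2⟩ := hP.2 δ hδ
  obtain ⟨C₃, hC₃, h3⟩ := F.H_le P (by rw [h]; norm_num) hδ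
  obtain ⟨C₄, hC₄, h4⟩ := F.H_mv hP.1 (by rw [h]; norm_num) hδ
  rw [h] at h2 h3 h4
  rw [al_three] at h3
  refine ⟨C₁ + C₂ + 2 * C₃ + 1 + 4 * C₄, by linarith, fun T y hT hy1 hy2 => ?_⟩
  have hT0 : 0 < T := one_pos.trans_le hT
  have hy : 1 ≤ y := (Real.one_le_rpow hT (by norm_num)).trans hy1
  have hy0 : 0 < y := one_pos.trans_le hy
  have a1 : T ≤ y ^ 3 := (vc3_pow 3 (by norm_num) (by norm_num) hT0.le).symm.trans_le
    (pow_le_pow_left₀ (by positivity) hy1 3)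
  have a2 : y ^ 2 ≤ T := (pow_le_pow_left₀ hy0.le hy2 2).trans_eq
    (vc3_pow 2 (by norm_num) (by norm_num) hT0.le)
  have hW0 : 0 < T / y := by positivity
  have hW1 : 1 ≤ T / y := (one_le_div hy0).2 (le_trans (by nlinarith) a2)
  have hW2 : T / y ≤ T := div_le_self hT0.le hy
  have hW3 : √T ≤ T / y := by
    rw [Real.sqrt_le_left hW0.le, div_pow, le_div_iff₀ (by positivity)]
    nlinarith
  have hW4 : (T / y) ^ (3 / 2 - 1 : ℝ) ≤ y := by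
    refine vc3_root 2 (by norm_num) (by norm_num) hW0.le hy0.le ?_
    rw [div_le_iff₀ hy0]
    linarith
  have b0 : 1 ≤ T ^ δ := Real.one_le_rpow hT hδ.le
  have b1 : (T ^ δ) ^ 3 ≤ T ^ ε := by
    rw [← Real.rpow_natCast, ← Real.rpow_mul hT0.le]
    exact Real.rpow_le_rpow_of_exponent_le hT (by push_cast; linarith)
  have b2 : T ^ δ ≤ T ^ ε := Real.rpow_le_rpow_of_exponent_le hT (by linarith)
  obtain ⟨N, hN⟩ : ∃ N : ℕ, N = ⌊(T / y) ^ (3 : ℝ) * T ^ (δ - 1)⌋₊ := ⟨_, rfl⟩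
  obtain ⟨M, hM⟩ : ∃ M : ℕ, M = ⌊y ^ 3 / T⌋₊ := ⟨_, rfl⟩
  have hN1 : (N : ℝ) ≤ (T / y) ^ 3 * T ^ (δ - 1) := by
    rw [hN, ← Real.rpow_natCast, Nat.cast_ofNat]
    exact Nat.floor_le (by positivity)
  have hN2 : (N : ℝ) ^ δ ≤ (T ^ δ) ^ 2 := by
    rw [← Real.rpow_natCast, ← Real.rpow_mul hT0.le, mul_comm, Real.rpow_mul hT0.le,
      Real.rpow_natCast]
    refine Real.rpow_le_rpow (Nat.cast_nonneg _) (hN1.trans ?_) hδ.le
    refine (mul_le_of_le_one_right (by positivity)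
      (Real.rpow_le_one_of_one_le_of_nonpos hT (by linarith))).trans ?_
    rw [div_pow, div_le_iff₀ (by positivity)]
    nlinarith [mul_le_mul_of_nonneg_left a1 (sq_nonneg T)]
  have hM1 : (M : ℝ) ≤ y ^ 3 / T := hM ▸ Nat.floor_le (by positivity)
  have hM2 : y ^ 3 / T ≤ M + 1 := hM ▸ (Nat.lt_floor_add_one _).le
  have hsp : F.H P 0 N = fun x => F.H P 0 (min N M) x + F.H P M N x := by
    ext x
    rcases le_total N M with hNM | hNM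
    · rw [min_eq_left hNM]
      simp [H, Finset.Ioc_eq_empty_of_le hNM]
    · rw [min_eq_right hNM, F.H_split P hNM]
  have hsub : {x ∈ Icc T (2 * T) | (C₁ + C₂ + 2 * C₃ + 1 + 4 * C₄) * T ^ ε * y < ‖F.E x‖} ⊆
      {x ∈ Icc T (2 * T) | y < ‖av (T / y) (F.H P M N) x‖} := by
    rintro x ⟨hx, hx'⟩
    refine ⟨hx, ?_⟩
    have c1 := h1 T (T / y) hW1 hW2 x hx
    rw [div_div_cancel₀ hT0.ne'] at c1
    have c2 := (h2 T (T / y) hT hW3 hW2 x hx).trans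
      (mul_le_mul_of_nonneg_left hW4 (by positivity))
    rw [← hN, hsp, av_add (F.H_cont P _ _) (F.H_cont P _ _) (hT0.trans_le hx.1)] at c2
    have c3 := av_sup hW0 hT0 (F.H_cont P 0 (min N M)) (Z := C₃ * (2 * (T ^ δ * y)))
      (fun z hz => (h3 0 _ z (lt_of_lt_of_le (by positivity) hz.1)).trans (by
        rw [mul_assoc]
        exact mul_le_mul_of_nonneg_left (vc3_head hT hy a2 hδ hz
          ((Nat.cast_le.2 (min_le_right _ _)).trans hM1)) hC₃.le)) hx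
    have c4 := norm_sub_le_norm_sub_add_norm_sub (F.E x) (F.B (T / y) x)
      (av (T / y) (F.H P 0 (min N M)) x + av (T / y) (F.H P M N) x)
    have c5 := norm_le_norm_add_norm_sub' (F.E x)
      (av (T / y) (F.H P 0 (min N M)) x + av (T / y) (F.H P M N) x)
    have c6 := norm_add_le (av (T / y) (F.H P 0 (min N M)) x) (av (T / y) (F.H P M N) x)
    have c7 := mul_le_mul_of_nonneg_left (mul_le_mul_of_nonneg_right b2 hy0.le)
      (by positivity : 0 ≤ C₁ + C₂ + 2 * C₃ + 1 + 4 * C₄)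
    have c8 : y ≤ T ^ δ * y := le_mul_of_one_le_left hy0.le b0
    have c9 : 0 ≤ C₄ * (T ^ δ * y) := by positivity
    linarith
  refine (measure_mono hsub).trans ((cheb hT0.le (Bm.of_cont ((av_cont (F.H_cont P _ _)).mono
    fun x hx => hT0.trans_le hx.1)) hy0).trans (ENNReal.ofReal_le_ofReal ?_))
  have d1 := vc3_diag hT0 hy0 hM2
  have d2 := vc3_off hT hy0 hδ (Nat.cast_nonneg N) hN1
  have d3 : T ^ 2 / y ≤ T ^ δ * (T ^ 2 / y) := le_mul_of_one_le_left (by positivity) b0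
  have d4 := (av_sq hW0 hT0 (F.H_cont P M N)).trans
    (mul_le_mul_of_nonneg_left (h4 M N T hT) zero_le_two)
  calc _ ≤ 2 * (C₄ * (T ^ δ) ^ 2 * (T ^ δ * (T ^ 2 / y) + T ^ δ * (T ^ 2 / y))) / y ^ 2 := by
        refine div_le_div_of_nonneg_right (d4.trans ?_) (by positivity)
        have := d1.trans d3
        gcongr
    _ = 4 * C₄ * (T ^ δ) ^ 3 * T ^ 2 / y ^ 3 := by field_simp; ring
    _ ≤ _ := by
        gcongr
        linarith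

/- `lc 3` with `E_lev3`, `E_sup`, `bm_E`, `log_le_rpow`. -/
theorem E_three (h : F.deg = 3) (hP : F.Vor P) {ε : ℝ} (hε : 0 < ε) : ∃ C : ℝ, 0 < C ∧
    ∀ T : ℝ, 1 ≤ T → mu0 3 F.E T ≤ C * T ^ ε * T ^ 2 := by
  have hδ : 0 < ε / 5 := by positivity
  obtain ⟨C₀, hC₀, h0⟩ := lc 3
  obtain ⟨C₁, hC₁, h1⟩ := F.E_lev3 h hP hδ
  obtain ⟨C₂, hC₂, h2⟩ := F.E_sup (by rw [h]; norm_num) h.le hP hδ
  obtain ⟨C₃, hC₃, h3⟩ := log_le_rpow hδ
  rw [h, show ((3 : ℝ) - 1) / (3 + 1) = 1 / 2 by norm_num] at h2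
  refine ⟨C₀ * (C₁ + C₂) ^ 3 * (1 + C₁ * C₃), by positivity, fun T hT => ?_⟩
  have hT0 : 0 < T := one_pos.trans_le hT
  have b0 : 1 ≤ T ^ (ε / 5) := Real.one_le_rpow hT hδ.le
  have b1 : T ^ ε = (T ^ (ε / 5)) ^ 5 := by
    rw [← Real.rpow_natCast, ← Real.rpow_mul hT0.le]
    congr 1
    push_cast
    ring
  have b2 : 1 ≤ T ^ (1 / 3 : ℝ) := Real.one_le_rpow hT (by norm_num)
  have b3 : 1 + Real.log (T ^ (1 / 2 : ℝ) / T ^ (1 / 3 : ℝ)) ≤ C₃ * T ^ (ε / 5) := by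
    refine le_trans (add_le_add le_rfl (Real.log_le_log (by positivity) ?_)) (h3 T hT)
    exact (div_le_self (by positivity) b2).trans
      (Real.rpow_le_self_of_one_le hT (by norm_num))
  refine (h0 F.E T ((C₁ + C₂) * T ^ (ε / 5)) (T ^ (1 / 3 : ℝ)) (T ^ (1 / 2 : ℝ))
    (C₁ * T ^ (ε / 5) * T ^ 2) hT0.le (F.bm_E hT) (by positivity) (by positivity)
    (Real.rpow_le_rpow_of_exponent_le hT (by norm_num)) (by positivity)
    (fun x hx => (h2 T hT x hx).trans (by gcongr; linarith))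
    (fun y hy => le_trans (measure_mono ?_) (h1 T y hT hy.1 hy.2))).trans ?_
  · rintro x ⟨hx, hx'⟩
    refine ⟨hx, lt_of_le_of_lt ?_ hx'⟩
    have : 0 ≤ y := le_trans (by positivity) hy.1
    gcongr
    linarith
  rw [vc3_pow 3 (by norm_num) (by norm_num) hT0.le, b1]
  generalize T ^ (ε / 5) = a at b0 b3 ⊢
  have b4 : T * T ≤ a * a * T ^ 2 := by
    rw [← sq T]
    exact le_mul_of_one_le_left (by positivity) (one_le_mul_of_one_le_of_one_le b0 b0)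
  calc _ ≤ C₀ * ((C₁ + C₂) * a) ^ 3 * (a * a * T ^ 2 + C₁ * a * T ^ 2 * (C₃ * a)) := by gcongr
    _ = _ := by ring

end Sel

end Pool.Agent.Lib.MP_2a1a00_nt
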