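import Pool.Agent.Lib.MP_2a1a00_nt.V.P2
import Pool.Agent.Lib.MP_2a1a00_nt.V.C3
import Pool.Agent.Lib.MP_2a1a00_nt.V.B5

/-! Twisted moments in degree three. -/

namespace Pool.Agent.Lib.MP_2a1a00_nt

open Complex MeasureTheory Set

theorem mu0_add {f g k : ℝ → ℂ} {T : ℝ} (hT : 0 ≤ T) (hf : Bm f T) (hg : Bm g T) (hk : Bm k T) :
    mu0 2 (fun x => f x - k x) T ≤
      2 * mu0 2 (fun x => f x - g x) T + 2 * mu0 2 (fun x => g x - k x) T := by
  have h1 := (hf.sub hg).int_sq hT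
  have h2 := (hg.sub hk).int_sq hT
  rw [mu0, mu0, mu0, ← intervalIntegral.integral_const_mul, ← intervalIntegral.integral_const_mul,
    ← intervalIntegral.integral_add (h1.const_mul _) (h2.const_mul _)]
  refine intervalIntegral.integral_mono_on (by linarith) ((hf.sub hk).int_sq hT)
    ((h1.const_mul _).add (h2.const_mul _)) fun x _ => ?_
  have h3 := pow_le_pow_left₀ (norm_nonneg _) (norm_sub_le_norm_sub_add_norm_sub (f x) (g x) (k x)) 2
  nlinarith [sq_nonneg (‖f x - g x‖ - ‖g x - k x‖)]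

namespace Sel

variable {F L : Sel} {P : Vo} {γ : ℝ}

theorem p3_E (hL : L.deg ≤ 1) (h : F.deg = 3) (hP : F.Vor P) :
    Bd (fun T => mo 3 F.E L.w T) 2 := by
  obtain ⟨K, k1, k2⟩ := F.bd_B1 zero_le_one le_rfl
  obtain ⟨Λ, k3, k4⟩ := F.bd_B (y := 1 / 2) (by linarith) h.le hP zero_le_one le_rfl
    (by rw [h]; norm_num) (by norm_num)
  have k5 : Bd (fun T => mu0 3 (F.B (T ^ (1 : ℝ))) T) 2 :=
    F.forth (by norm_num) (bd_nat 2 fun _ hε => F.E_three h hP hε)
  exact F.back0 L.continuous_w L.w_nonneg (L.bd_mass hL) (by norm_num)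
    (L.tm_sup hL (by omega) (q := 3) (by omega) (by norm_num) (by norm_num)
      (fun T hT => F.nice_Bw 1 hT) k1 k2 k3 k4 k5 k5 (by norm_num) (by norm_num))

theorem p3_E2 (hL : L.deg ≤ 1) (h : F.deg = 3) (hP : F.Vor P) :
    Bd (fun T => mo 2 F.E L.w T) (1 + 2 * (1 / 3)) :=
  low_bd (n := 2) (m := 3) (f := fun _ => F.E) (by omega) (fun _ hT => bm_E F hT) L.continuous_w
    L.w_nonneg (L.bd_mass hL) ((p3_E hL h hP).mono (by norm_num))

theorem p3_E0 (h : F.deg = 3) (hP : F.Vor P) :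
    Bd (fun T => mo 2 F.E (fun _ => 1) T) (1 + 2 * (1 / 3)) := by
  simp only [mo_one]
  exact low0 (n := 2) (m := 3) (f := fun _ => F.E) (by omega) (fun _ hT => bm_E F hT)
    ((bd_nat 2 fun _ hε => F.E_three h hP hε).mono (by norm_num))

theorem p3_sq (h : F.deg = 3) (hP : F.Vor P) (h1 : γ ≤ 1 / 100) :
    Bd (fun T => mu0 2 (fun x => F.B (T ^ (5 / 8 : ℝ)) x - F.Hs P γ T x) T) (5 / 3 - γ / 3) :=
  F.sq_bd (by linarith) hP (by norm_num) (by norm_num) (by rw [h]; linarith) (by rw [h]; linarith)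
    (by rw [h]; linarith) (by rw [h, al_three]; linarith)

theorem p3_B (hL : L.deg ≤ 1) (h : F.deg = 3) (hP : F.Vor P) (h1 : γ ≤ 1 / 100) :
    Bd (fun T => mo 2 (fun x => F.B (T ^ (5 / 8 : ℝ)) x - F.Hs P γ T x) L.w T) (5 / 3 - γ / 3) :=
  F.tw_l2 (y := 1 / 2) hL (by linarith) h.le hP (by norm_num) (by norm_num) (by rw [h]; norm_num)
    (by norm_num) le_rfl (by rw [h, al_three]; linarith) (p3_sq h hP h1) (by linarith) (by linarith)

theorem p3_sq1 (h : F.deg = 3) (hP : F.Vor P) (hM : F.MS (4 / 3)) (h1 : γ ≤ 1 / 100) :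
    Bd (fun T => mu0 2 (fun x => F.B (T ^ (1 : ℝ)) x - F.Hs P γ T x) T) (5 / 3 - γ / 3) := by
  have k1 : Bd (fun T => mu0 2 (fun x => F.B (T ^ (1 : ℝ)) x - F.B (T ^ (5 / 8 : ℝ)) x) T)
      (5 / 3 - γ / 3) := by
    refine ((bd_rpow (19 / 12)).mono (by linarith)).of_forall fun ε hε => ?_
    obtain ⟨C, hC, k⟩ := F.B_ms (by norm_num) (by norm_num) hM hε
    refine ⟨C, hC, fun T hT => ?_⟩
    have h0 : 0 < T := by linarith
    have := p1_W (w := 5 / 8) (by norm_num) (by norm_num) hT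
    rw [Real.rpow_one]
    refine (k T _ this.1 this.2).trans (le_of_eq ?_)
    rw [← Real.rpow_mul h0.le, ← Real.rpow_natCast, ← Real.rpow_add h0]
    norm_num
  exact ((k1.const_mul zero_le_two).add ((p3_sq h hP h1).const_mul zero_le_two)).of_le fun T hT =>
    mu0_add (by linarith) (F.nice_Bw _ hT).bm0 (F.nice_Bw _ hT).bm0 (F.bm_Hs P γ hT)

theorem p3_l2 (h : F.deg = 3) (hP : F.Vor P) (hM : F.MS (4 / 3)) (h1 : γ ≤ 1 / 100) :
    Bd (fun T => mo 2 (fun x => F.E x - F.Hs P γ T x) (fun _ => 1) T) (5 / 3 - γ / 3) := by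
  refine F.back continuous_const (fun _ => zero_le_one) bd_one (fun T hT => F.bm_Hs P γ hT)
    (by linarith) ?_
  simp only [mo_one]
  exact p3_sq1 h hP hM h1

theorem p3_tw (hL : L.deg ≤ 1) (h : F.deg = 3) (hP : F.Vor P) (hM : F.MS (4 / 3))
    (h1 : γ ≤ 1 / 100) :
    Bd (fun T => mo 2 (fun x => F.E x - F.Hs P γ T x) L.w T) (5 / 3 - γ / 3) :=
  F.back L.continuous_w L.w_nonneg (L.bd_mass hL) (fun _ hT => F.bm_Hs P γ hT) (by linarith)
    (F.tw_l2 (y := 1 / 2) hL (by linarith) h.le hP zero_le_one le_rfl (by rw [h]; norm_num)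
      (by norm_num) le_rfl (by rw [h, al_three]; linarith) (p3_sq1 h hP hM h1) (by linarith)
      (by linarith))

end Sel

end Pool.Agent.Lib.MP_2a1a00_nt
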