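import Pool.Agent.Lib.MP_2a1a00_nt.V.Ga
import Pool.Agent.Lib.MP_2a1a00_nt.Rep
import Pool.Agent.Lib.MP_2a1a00_nt.Chi

/-! The smoothed error term as a series. -/

namespace Pool.Agent.Lib.MP_2a1a00_nt

open Complex MeasureTheory Set

theorem vb1_pow {x : ℝ} (hx : 0 < x) {s : ℂ} (hs : s ∈ St (1 / 2) 2) :
    ‖(x : ℂ) ^ s‖ ≤ (1 + x) ^ (2 : ℝ) := by
  rw [norm_cpow_eq_rpow_re_of_pos hx]
  exact (Real.rpow_le_rpow hx.le (by linarith) (le_trans (by norm_num) hs.1)).trans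
    (Real.rpow_le_rpow_of_exponent_le (by linarith) hs.2)

theorem vb1_diff {x : ℝ} (hx : 0 < x) : Differentiable ℂ fun s : ℂ => (x : ℂ) ^ s :=
  differentiable_id.const_cpow (Or.inl (ofReal_ne_zero.2 hx.ne'))

theorem vb1_norm {s : ℂ} (hs : s ∈ St (1 / 2) 2) : 1 / 2 ≤ ‖s‖ := hs.1.trans (re_le_norm s)

theorem vb1_inv_diff : DifferentiableOn ℂ (fun s : ℂ => s⁻¹) (St (1 / 2) 2) :=
  differentiableOn_id.inv fun s hs h => by
    have h3 := vb1_norm hs
    rw [show s = 0 from h] at h3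
    norm_num at h3

theorem vb1_inv_le : ∀ s ∈ St (1 / 2) 2, ‖(fun s : ℂ => s⁻¹) s‖ ≤ 2 := fun s hs => by
  simp only [norm_inv]
  exact (inv_anti₀ (by norm_num) (vb1_norm hs)).trans (by norm_num)

namespace Sel

variable (F : Sel)

theorem vb1_dec {W x K : ℝ} (hW : 0 < W) (hx : 0 < x) {h : ℂ → ℂ}
    (hd : DifferentiableOn ℂ h (St (1 / 2) 2)) (hK : ∀ s ∈ St (1 / 2) 2, ‖h s‖ ≤ K) :
    Dec (fun s => F.G s * ((x : ℂ) ^ s * h s) * gW W s) (1 / 2) 2 := by
  obtain ⟨C, A, hC, -, hG⟩ := F.growth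
  refine dec_gW hW (F.ent.differentiableOn.mul ((vb1_diff hx).differentiableOn.mul hd))
    (C := C * ((1 + x) ^ (2 : ℝ) * K)) (K := A) fun s hs => ?_
  rw [norm_mul, norm_mul, mul_right_comm]
  exact mul_le_mul (hG s ⟨le_trans (by norm_num) hs.1, hs.2⟩)
    (mul_le_mul (vb1_pow hx hs) (hK s hs) (norm_nonneg _) (by positivity)) (by positivity)
    (by positivity)

theorem vb1_eq (W x : ℝ) (h : ℂ → ℂ) :
    (fun s => F.G s * ((x : ℂ) ^ s * h s) * gW W s / (s - (1 : ℝ)) ^ F.m) =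
      fun s => F.L s * ((x : ℂ) ^ s * (gW W s * h s)) := funext fun s => by
  rw [L, ofReal_one]
  ring

theorem vb1_int {W x K : ℝ} (hW : 0 < W) (hx : 0 < x) {h : ℂ → ℂ}
    (hd : DifferentiableOn ℂ h (St (1 / 2) 2)) (hK : ∀ s ∈ St (1 / 2) 2, ‖h s‖ ≤ K) :
    Integrable fun v : ℝ => F.L ((1 / 2 : ℝ) + v * I) * ((x : ℂ) ^ (((1 / 2 : ℝ) : ℂ) + v * I) *
      (gW W ((1 / 2 : ℝ) + v * I) * h ((1 / 2 : ℝ) + v * I))) := by
  have h1 := (F.vb1_dec hW hx hd hK).integrable_div (σ := 1 / 2) (c := 1) le_rfl (by norm_num)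
    (by norm_num) F.m
  exact h1.congr (Filter.Eventually.of_forall fun v => congrFun (F.vb1_eq W x h) _)

/- If `h s = h₀ s * gW W s` with `h₀` holomorphic and bounded on `St (1 / 2) 2`: `Dec.pole` for
`G s * x ^ s * h₀ s * gW W s` (`dec_gW`, `growth`) with `k = F.m`, `c = 1`, `r = 1 / 2`. -/
theorem b1_pole {W x K : ℝ} (hW : 0 < W) (hx : 0 < x) {h : ℂ → ℂ}
    (hd : DifferentiableOn ℂ h (St (1 / 2) 2)) (hK : ∀ s ∈ St (1 / 2) 2, ‖h s‖ ≤ K) :
    Ln (fun s => F.L s * ((x : ℂ) ^ s * (gW W s * h s))) 2 -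
      Ln (fun s => F.L s * ((x : ℂ) ^ s * (gW W s * h s))) (1 / 2) =
      F.res fun s => (x : ℂ) ^ s * (gW W s * h s) := by
  have h2 := (F.vb1_dec hW hx hd hK).pole (c := 1) (r := 1 / 2) (by norm_num) (by norm_num)
    (by norm_num) F.m
  rw [F.vb1_eq, ofReal_one] at h2
  rw [res, ← h2]

theorem vb1_ser {W x K : ℝ} (hW : 0 < W) (hx : 0 < x) {h : ℂ → ℂ}
    (hd : DifferentiableOn ℂ h (St (1 / 2) 2)) (hK : ∀ s ∈ St (1 / 2) 2, ‖h s‖ ≤ K) {φ : ℝ → ℂ}
    (hφ : ∀ u : ℝ, Ln (fun s => exp (s * u) * (gW W s * h s)) 2 = φ u) :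
    HasSum (fun n : ℕ => F.f0 n * φ (Real.log x - Real.log n))
      (Ln (fun s => F.L s * ((x : ℂ) ^ s * (gW W s * h s))) (1 / 2) +
        F.res fun s => (x : ℂ) ^ s * (gW W s * h s)) := by
  rw [← F.b1_pole hW hx hd hK, add_sub_cancel]
  have hi : Integrable fun v : ℝ => (x : ℂ) ^ (((2 : ℝ) : ℂ) + v * I) *
      (gW W ((2 : ℝ) + v * I) * h ((2 : ℝ) + v * I)) := by
    have h1 : Dec (fun s => ((x : ℂ) ^ s * h s) * gW W s) (1 / 2) 2 := by
      refine dec_gW hW ((vb1_diff hx).differentiableOn.mul hd)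
        (C := (1 + x) ^ (2 : ℝ) * K) (K := 0) fun s hs => ?_
      rw [Real.rpow_zero, mul_one, norm_mul]
      exact mul_le_mul (vb1_pow hx hs) (hK s hs) (norm_nonneg _) (by positivity)
    refine (h1.integrable (σ := 2) (by norm_num) le_rfl).congr
      (Filter.Eventually.of_forall fun v => ?_)
    simp only
    ring
  have h2 : ∀ v : ℝ, 1 < (((2 : ℝ) : ℂ) + v * I).re := fun v => by rw [rep_two]; norm_num
  have hn : ∀ (n : ℕ) (v : ℝ), ‖LSeries.term F.f ((2 : ℝ) + v * I) n‖ = ‖LSeries.term F.f 2 n‖ :=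
    fun n v => by simp [LSeries.norm_term_eq]
  have key := hasSum_integral_of_summable_integral_norm (μ := volume)
    (F := fun (n : ℕ) (v : ℝ) => LSeries.term F.f ((2 : ℝ) + v * I) n *
      ((x : ℂ) ^ (((2 : ℝ) : ℂ) + v * I) * (gW W ((2 : ℝ) + v * I) * h ((2 : ℝ) + v * I))))
    (fun n => hi.bdd_mul (c := ‖LSeries.term F.f 2 n‖)
      (Measurable.aestronglyMeasurable (by unfold LSeries.term; split_ifs <;> fun_prop))
      (Filter.Eventually.of_forall fun v => (hn n v).le)) (by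
      simp only [norm_mul (LSeries.term _ _ _), hn, integral_const_mul]
      exact (F.summable (s := 2) (by simp)).norm.mul_right _)
  simp only [tsum_mul_right] at key
  have k2 := key.mul_left ((1 / (2 * Real.pi) : ℝ) : ℂ)
  have ht : ∀ n : ℕ, ((1 / (2 * Real.pi) : ℝ) : ℂ) *
      ∫ v : ℝ, LSeries.term F.f ((2 : ℝ) + v * I) n * ((x : ℂ) ^ (((2 : ℝ) : ℂ) + v * I) *
        (gW W ((2 : ℝ) + v * I) * h ((2 : ℝ) + v * I))) =
      F.f0 n * φ (Real.log x - Real.log n) := fun n => by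
    rcases eq_or_ne n 0 with rfl | hn0
    · simp [f0]
    have hp : (0 : ℝ) < n := by positivity
    rw [← hφ, ← Ln_const_mul, Ln, f0, if_neg hn0]
    congr 1
    refine integral_congr_ae (Filter.Eventually.of_forall fun v => ?_)
    simp only
    rw [LSeries.term_of_ne_zero hn0, ← ofReal_natCast, px_cpow _ hp, px_cpow _ hx, px, px,
      ofReal_sub, mul_sub, exp_sub]
    ring
  simp only [ht] at k2
  rw [Ln]
  simp only [F.L_eq (h2 _)]
  exact k2

/- `b1_pole`; on `re s = 2` expand the Dirichlet series (`L_eq`, `summable`,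
`hasSum_integral_of_summable_integral_norm`, compare `sum_perron`); `x ^ s / n ^ s` is
`exp (s * (log x - log n))`; `Ln_cdf`. -/
theorem B_ser {W x : ℝ} (hW : 0 < W) (hx : 0 < x) :
    HasSum (fun n : ℕ => F.f0 n * (cdf W (Real.log x - Real.log n) : ℝ))
      (F.B W x + F.res fun s => (x : ℂ) ^ s * (gW W s / s)) := by
  have h := F.vb1_ser hW hx vb1_inv_diff vb1_inv_le (φ := fun u => (cdf W u : ℝ))
    fun u => by simpa only [div_eq_mul_inv] using Ln_cdf hW u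
  simpa only [B, div_eq_mul_inv] using h

/- The same with `Ln_ph`. -/
theorem B1_ser {W x : ℝ} (hW : 0 < W) (hx : 0 < x) :
    HasSum (fun n : ℕ => F.f0 n * (ph W (Real.log x - Real.log n) : ℝ))
      (x * F.B1 W x + F.res fun s => (x : ℂ) ^ s * gW W s) := by
  have h := F.vb1_ser hW hx (h := fun _ => 1) (K := 1) (differentiableOn_const _)
    (fun _ _ => by simp) (φ := fun u => (ph W u : ℝ)) fun u => by
      simpa only [mul_one] using Ln_ph hW u 2
  rw [B1, mul_div_cancel₀ _ (ofReal_ne_zero.2 hx.ne')]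
  simpa only [mul_one] using h

theorem vb1_int1 {W : ℝ} (hW : 0 < W) :
    Integrable fun v : ℝ => F.L ((1 / 2 : ℝ) + v * I) * gW W ((1 / 2 : ℝ) + v * I) := by
  have h := F.vb1_int hW one_pos (h := fun _ => 1) (K := 1) (differentiableOn_const _)
    (fun _ _ => by simp)
  simpa only [ofReal_one, one_cpow, one_mul, mul_one] using h

theorem vb1_int2 {W x : ℝ} (hW : 0 < W) (hx : 0 < x) :
    Integrable fun v : ℝ => F.L ((1 / 2 : ℝ) + v * I) * ((x : ℂ) ^ (((1 / 2 : ℝ) : ℂ) + v * I) *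
      gW W ((1 / 2 : ℝ) + v * I)) := by
  have h := F.vb1_int hW hx (h := fun _ => 1) (K := 1) (differentiableOn_const _)
    (fun _ _ => by simp)
  simpa only [mul_one] using h

theorem vb1_bd {W x y : ℝ} (hy : 0 < y) (hy2 : y ≤ 2 * x) (v : ℝ) :
    ‖F.L ((1 / 2 : ℝ) + v * I) * ((y : ℂ) ^ (((1 / 2 : ℝ) : ℂ) + v * I) *
      gW W ((1 / 2 : ℝ) + v * I))‖ ≤
      (1 + 2 * x) ^ (2 : ℝ) * ‖F.L ((1 / 2 : ℝ) + v * I) * gW W ((1 / 2 : ℝ) + v * I)‖ := by
  rw [mul_left_comm, norm_mul]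
  refine mul_le_mul_of_nonneg_right ((vb1_pow hy (shift_mem le_rfl (by norm_num) v)).trans ?_)
    (norm_nonneg _)
  exact Real.rpow_le_rpow (by linarith) (by linarith) (by norm_num)

/- Differentiate under the integral (`hasDerivAt_integral_of_dominated_loc_of_deriv_le`); on the line
`re s = 1 / 2` one has `1 / 2 ≤ ‖s - 1‖`, so `growth` bounds `L` by a power; `gW_poly` or `Dec.integrable`. -/
theorem B_der {W x : ℝ} (hW : 0 < W) (hx : 0 < x) : HasDerivAt (F.B W) (F.B1 W x) x := by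
  have hs : Ioo (x / 2) (2 * x) ∈ nhds x := Ioo_mem_nhds (by linarith) (by linarith)
  have hne : ∀ v : ℝ, (((1 / 2 : ℝ) : ℂ) + v * I) ≠ 0 := fun v h => by
    have := congrArg re h
    norm_num at this
  have hi : ∀ y : ℝ, 0 < y → Integrable fun v : ℝ => F.L ((1 / 2 : ℝ) + v * I) *
      ((y : ℂ) ^ (((1 / 2 : ℝ) : ℂ) + v * I) *
        (gW W ((1 / 2 : ℝ) + v * I) / ((1 / 2 : ℝ) + v * I))) := fun y hy => by
    simpa only [div_eq_mul_inv (gW W _)] using F.vb1_int hW hy vb1_inv_diff vb1_inv_le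
  have key := hasDerivAt_integral_of_dominated_loc_of_deriv_le (μ := volume) (x₀ := x)
    (F := fun (y : ℝ) (v : ℝ) => F.L ((1 / 2 : ℝ) + v * I) *
      ((y : ℂ) ^ (((1 / 2 : ℝ) : ℂ) + v * I) *
        (gW W ((1 / 2 : ℝ) + v * I) / ((1 / 2 : ℝ) + v * I))))
    (F' := fun (y : ℝ) (v : ℝ) => F.L ((1 / 2 : ℝ) + v * I) *
      ((y : ℂ) ^ (((1 / 2 : ℝ) : ℂ) + v * I) * gW W ((1 / 2 : ℝ) + v * I)) / y)
    (bound := fun v : ℝ => (1 + 2 * x) ^ (2 : ℝ) *
      ‖F.L ((1 / 2 : ℝ) + v * I) * gW W ((1 / 2 : ℝ) + v * I)‖ / (x / 2)) hs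
    (by filter_upwards [lt_mem_nhds hx] with y hy using (hi y hy).1) (hi x hx)
    ((F.vb1_int2 hW hx).div_const _).1
    (Filter.Eventually.of_forall fun v y hy => by
      have hy0 : 0 < y := lt_trans (by linarith) hy.1
      rw [norm_div, norm_real, Real.norm_of_nonneg hy0.le]
      exact div_le_div₀ (by positivity) (F.vb1_bd hy0 hy.2.le v) (by linarith) hy.1.le)
    (((F.vb1_int1 hW).norm.const_mul _).div_const _)
    (Filter.Eventually.of_forall fun v y hy => by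
      have hy0 : 0 < y := lt_trans (by linarith) hy.1
      have h1 := ((hasDerivAt_ofReal_cpow_const hy0.ne' (hne v)).mul_const
        (gW W ((1 / 2 : ℝ) + v * I) / ((1 / 2 : ℝ) + v * I))).const_mul
        (F.L ((1 / 2 : ℝ) + v * I))
      refine h1.congr_deriv ?_
      rw [cpow_sub _ _ (ofReal_ne_zero.2 hy0.ne'), cpow_one]
      have h2 := hne v
      have h3 : (y : ℂ) ≠ 0 := ofReal_ne_zero.2 hy0.ne'
      field_simp)
  have h := key.2.const_mul (((1 / (2 * Real.pi) : ℝ)) : ℂ)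
  rw [integral_div, ← mul_div_assoc] at h
  exact h

/- `continuousAt_of_dominated`. -/
theorem B1_cont {W : ℝ} (hW : 0 < W) : ContinuousOn (F.B1 W) (Ioi 0) := by
  intro x hx
  have hx : 0 < x := hx
  refine ContinuousAt.continuousWithinAt ?_
  have hs : Ioo (x / 2) (2 * x) ∈ nhds x := Ioo_mem_nhds (by linarith) (by linarith)
  have key := continuousAt_of_dominated (μ := volume) (x₀ := x)
    (F := fun (y : ℝ) (v : ℝ) => F.L ((1 / 2 : ℝ) + v * I) *
      ((y : ℂ) ^ (((1 / 2 : ℝ) : ℂ) + v * I) * gW W ((1 / 2 : ℝ) + v * I)))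
    (bound := fun v : ℝ => (1 + 2 * x) ^ (2 : ℝ) *
      ‖F.L ((1 / 2 : ℝ) + v * I) * gW W ((1 / 2 : ℝ) + v * I)‖)
    (by filter_upwards [lt_mem_nhds hx] with y hy using (F.vb1_int2 hW hy).1)
    (by
      filter_upwards [hs] with y hy
      exact Filter.Eventually.of_forall fun v =>
        F.vb1_bd (lt_trans (by linarith) hy.1) hy.2.le v)
    ((F.vb1_int1 hW).norm.const_mul _)
    (Filter.Eventually.of_forall fun v => continuousAt_const.mul
      ((continuousAt_ofReal_cpow_const _ _ (Or.inr hx.ne')).mul continuousAt_const))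
  exact (continuousAt_const.mul key).div continuous_ofReal.continuousAt (ofReal_ne_zero.2 hx.ne')

end Sel

end Pool.Agent.Lib.MP_2a1a00_nt
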