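import Pool.Agent.Lib.MP_2a1a00_nt.V.St2
import Pool.Agent.Lib.MP_2a1a00_nt.V.Ga
import Pool.Agent.Lib.MP_2a1a00_nt.MvtD
import Pool.Agent.Lib.MP_2a1a00_nt.Res

/-! The smoothed error term and the dual series. -/

namespace Pool.Agent.Lib.MP_2a1a00_nt

open Complex MeasureTheory Set

namespace Sel

variable (F : Sel)

/- On `St (-A) (-1 / 2)` use `fe'`, `chi_le_strip`, `lser_le`, `L_eq`; on `St (-1 / 2) (1 / 2)` use `growth` and
`1 / 2 ≤ ‖s - 1‖`. -/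
theorem f1_growth (A : ℝ) : ∃ C K : ℝ, 0 < C ∧ 0 ≤ K ∧ ∀ s ∈ St (-A) (1 / 2),
    ‖F.L s‖ ≤ C * (1 + |s.im|) ^ K := by
  obtain ⟨C1, hC1, h1⟩ := F.chi_le_strip A
  obtain ⟨C2, hC2, h2⟩ := F.lser_le (σ := 3 / 2) (by norm_num)
  obtain ⟨C3, K3, hC3, hK3, h3⟩ := F.growth
  have hd := F.deg_nonneg
  have hA := abs_nonneg A
  refine ⟨C1 * C2 + C3 * 2 ^ F.m, F.deg * (1 / 2 + |A|) + K3, by positivity, by positivity,
    fun s hs => ?_⟩
  have hj : 1 ≤ 1 + |s.im| := by linarith [abs_nonneg s.im]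
  have hP : 0 ≤ (1 + |s.im|) ^ (F.deg * (1 / 2 + |A|) + K3) := by positivity
  rcases le_total s.re (-1 / 2) with h | h
  · have h0 : s ≠ 0 := by
      rintro rfl
      norm_num at h
    have hre : (1 - (starRingEnd ℂ) s).re = 1 - s.re := by simp
    rw [F.fe' (by linarith) h0, norm_mul, Complex.norm_conj, F.L_eq (by rw [hre]; linarith)]
    have e1 := h1 s hs
    have e2 := h2 (1 - (starRingEnd ℂ) s) (by rw [hre]; linarith)
    have e3 : (1 + |s.im|) ^ (F.deg * (1 / 2 - s.re)) ≤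
        (1 + |s.im|) ^ (F.deg * (1 / 2 + |A|) + K3) := by
      refine Real.rpow_le_rpow_of_exponent_le hj ?_
      have h4 := hs.1
      have h5 := le_abs_self A
      have h6 : F.deg * (1 / 2 - s.re) ≤ F.deg * (1 / 2 + |A|) :=
        mul_le_mul_of_nonneg_left (by linarith) hd
      linarith
    calc _ ≤ C1 * (1 + |s.im|) ^ (F.deg * (1 / 2 + |A|) + K3) * C2 :=
          mul_le_mul (e1.trans (mul_le_mul_of_nonneg_left e3 hC1.le)) e2 (norm_nonneg _)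
            (by positivity)
      _ = C1 * C2 * (1 + |s.im|) ^ (F.deg * (1 / 2 + |A|) + K3) := by ring
      _ ≤ _ := mul_le_mul_of_nonneg_right (le_add_of_nonneg_right (by positivity)) hP
  · have e1 := h3 s ⟨h, by linarith [hs.2]⟩
    have e2 : 1 / 2 ≤ ‖s - 1‖ := by
      have h4 := abs_re_le_norm (s - 1)
      rw [sub_re, one_re] at h4
      linarith [hs.2, neg_abs_le (s.re - 1)]
    have e3 : (1 + |s.im|) ^ K3 ≤ (1 + |s.im|) ^ (F.deg * (1 / 2 + |A|) + K3) :=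
      Real.rpow_le_rpow_of_exponent_le hj (le_add_of_nonneg_left (by positivity))
    have e4 : (1 / 2 : ℝ) ^ F.m ≤ ‖s - 1‖ ^ F.m := pow_le_pow_left₀ (by norm_num) e2 _
    rw [L, norm_div, norm_pow]
    calc _ ≤ C3 * (1 + |s.im|) ^ (F.deg * (1 / 2 + |A|) + K3) / (1 / 2 : ℝ) ^ F.m :=
          div_le_div₀ (by positivity) (e1.trans (mul_le_mul_of_nonneg_left e3 hC3.le))
            (by positivity) e4
      _ = C3 * 2 ^ F.m * (1 + |s.im|) ^ (F.deg * (1 / 2 + |A|) + K3) := by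
          rw [one_div, inv_pow, div_inv_eq_mul]
          ring
      _ ≤ _ := mul_le_mul_of_nonneg_right (le_add_of_nonneg_left (by positivity)) hP

theorem vf1_dec {g : ℂ → ℂ} {A W y C K : ℝ} (hW : 0 < W) (hy : 0 < y) (hC : 0 ≤ C)
    (hd : DifferentiableOn ℂ g (St (-A) (1 / 2)))
    (h : ∀ s ∈ St (-A) (1 / 2), ‖g s‖ ≤ C * (1 + |s.im|) ^ K) :
    Dec (fun s => g s * (y : ℂ) ^ s * gW W s) (-A) (1 / 2) := by
  refine dec_gW (C := C * (y ^ (-A) + y ^ (1 / 2 : ℝ))) (K := K) hW ?_ fun s hs => ?_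
  · exact hd.mul (differentiable_id.const_cpow
      (Or.inl (ofReal_ne_zero.2 hy.ne'))).differentiableOn
  · rw [norm_mul, Complex.norm_cpow_eq_rpow_re_of_pos hy]
    have e1 : y ^ s.re ≤ y ^ (-A) + y ^ (1 / 2 : ℝ) := by
      rcases le_total y 1 with h1 | h1
      · exact (Real.rpow_le_rpow_of_exponent_ge hy h1 hs.1).trans
          (le_add_of_nonneg_right (by positivity))
      · exact (Real.rpow_le_rpow_of_exponent_le h1 hs.2).trans
          (le_add_of_nonneg_left (by positivity))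
    calc _ ≤ C * (1 + |s.im|) ^ K * (y ^ (-A) + y ^ (1 / 2 : ℝ)) :=
          mul_le_mul (h s hs) e1 (by positivity) (by positivity)
      _ = _ := by ring

theorem vf1_shift {g : ℂ → ℂ} {A W y C K : ℝ} (hA : 0 < A) (hW : 0 < W) (hy : 0 < y) (hC : 0 ≤ C)
    (hd : DifferentiableOn ℂ g (St (-A) (1 / 2)))
    (h : ∀ s ∈ St (-A) (1 / 2), ‖g s‖ ≤ C * (1 + |s.im|) ^ K) :
    Ln (fun s => g s * ((y : ℂ) ^ s * (gW W s / s))) (1 / 2) =
        g 0 + Ln (fun s => g s * ((y : ℂ) ^ s * (gW W s / s))) (-A) ∧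
      Integrable fun v : ℝ => (fun s => g s * ((y : ℂ) ^ s * (gW W s / s))) (((-A : ℝ) : ℂ) + v * I) := by
  have hD := vf1_dec hW hy hC hd h
  have e : (fun s => g s * ((y : ℂ) ^ s * (gW W s / s))) =
      fun s => g s * (y : ℂ) ^ s * gW W s / s := by
    funext s
    ring
  rw [e]
  refine ⟨?_, ?_⟩
  · have h1 := hD.simple (by linarith) (by norm_num)
    simp only [cpow_zero, mul_one, gW, zero_div, ne_eq, OfNat.ofNat_ne_zero, not_false_eq_true,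
      zero_pow, exp_zero] at h1
    simp only [gW]
    rw [← h1]
    ring
  · have h1 := hD.integrable_div (σ := -A) (c := 0) le_rfl (by linarith) (by linarith) 1
    simpa only [ofReal_zero, sub_zero, pow_one] using h1

theorem vf1_Ln_sum {g : ℕ → ℂ → ℂ} {σ : ℝ} (S : Finset ℕ)
    (h : ∀ n ∈ S, Integrable fun v : ℝ => g n (σ + v * I)) :
    Ln (fun s => ∑ n ∈ S, g n s) σ = ∑ n ∈ S, Ln (g n) σ := by
  simp only [Ln]
  rw [integral_finsetSum S h, Finset.mul_sum]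

theorem vf1_chi (A : ℝ) : ∃ C K : ℝ, 0 < C ∧ ∀ s ∈ St (-A) (1 / 2),
    ‖F.chi s‖ ≤ C * (1 + |s.im|) ^ K := by
  obtain ⟨C, hC, h⟩ := F.chi_le_strip A
  refine ⟨C, F.deg * (1 / 2 + A), hC, fun s hs => (h s hs).trans ?_⟩
  refine mul_le_mul_of_nonneg_left (Real.rpow_le_rpow_of_exponent_le
    (by linarith [abs_nonneg s.im]) ?_) hC.le
  exact mul_le_mul_of_nonneg_left (by linarith [hs.1]) F.deg_nonneg

theorem vf1_Hd (N : ℕ) (s : ℂ) :
    F.Hd N s = ∑ n ∈ Finset.Ioc 0 N, (starRingEnd ℂ) (F.f n) / n * (n : ℂ) ^ s := by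
  have e : Finset.Icc 1 N = Finset.Ioc 0 N := by
    ext n
    simp only [Finset.mem_Icc, Finset.mem_Ioc]
    omega
  rw [Hd, e]
  refine Finset.sum_congr rfl fun n hn => ?_
  have h0 : (n : ℂ) ≠ 0 := Nat.cast_ne_zero.2 (Finset.mem_Ioc.1 hn).1.ne'
  rw [cpow_sub _ _ h0, cpow_one]
  ring

/- `Dec.simple` on `St (-A) (1 / 2)` for `g s = (L s - chi s * Hd N s) * x ^ s * gW W s` (`dec_gW`, `f1_growth`,
`chi_le_strip`; `Hd N s * x ^ s` is bounded on the strip); on `re s = -A` one has `L - chi * Hd N = chi * Tl N`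
(`fe'`, `Hd_add_Tl`); on `re s = 1 / 2` expand `Hd N s * x ^ s = ∑ conj (f n) / n * (n x) ^ s` and exchange
the finite sum with `Ln` (`integral_finset_sum`). -/
theorem f1_split {A W x : ℝ} (hA : 0 < A) (hW : 0 < W) (hx : 0 < x) (N : ℕ) :
    F.B W x - ∑ n ∈ Finset.Ioc 0 N, (starRingEnd ℂ) (F.f n) / n * F.kr W (n * x) =
      (F.L 0 - F.chi 0 * F.Hd N 0) +
        Ln (fun s => F.chi s * F.Tl N s * ((x : ℂ) ^ s * (gW W s / s))) (-A) := by
  obtain ⟨C1, K1, hC1, -, h1⟩ := F.f1_growth A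
  obtain ⟨C2, K2, hC2, h2⟩ := F.vf1_chi A
  have dL : DifferentiableOn ℂ F.L (St (-A) (1 / 2)) := fun s hs =>
    (F.differentiableAt_L (by
      rintro rfl
      have := hs.2
      norm_num at this)).differentiableWithinAt
  have dc : DifferentiableOn ℂ F.chi (St (-A) (1 / 2)) :=
    F.chi_diff.mono fun s hs => lt_of_le_of_lt hs.2 (by norm_num)
  obtain ⟨e1, i1⟩ := vf1_shift hA hW hx hC1.le dL h1
  have hn : ∀ n ∈ Finset.Ioc 0 N, (0 : ℝ) < n * x := fun n hn =>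
    mul_pos (by exact_mod_cast (Finset.mem_Ioc.1 hn).1) hx
  have e2 := fun n (h : n ∈ Finset.Ioc 0 N) => vf1_shift hA hW (hn n h) hC2.le dc h2
  have e3 : ∑ n ∈ Finset.Ioc 0 N, (starRingEnd ℂ) (F.f n) / n * F.kr W (n * x) =
      F.chi 0 * F.Hd N 0 + Ln (fun s => ∑ n ∈ Finset.Ioc 0 N, (starRingEnd ℂ) (F.f n) / n *
        (F.chi s * (((n * x : ℝ) : ℂ) ^ s * (gW W s / s)))) (-A) := by
    rw [vf1_Ln_sum _ fun n h => (e2 n h).2.const_mul _, F.vf1_Hd, Finset.mul_sum,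
      ← Finset.sum_add_distrib]
    refine Finset.sum_congr rfl fun n h => ?_
    rw [kr, (e2 n h).1, Ln_const_mul, cpow_zero]
    ring
  have i2 : Integrable fun v : ℝ => (fun s => ∑ n ∈ Finset.Ioc 0 N, (starRingEnd ℂ) (F.f n) / n *
      (F.chi s * (((n * x : ℝ) : ℂ) ^ s * (gW W s / s)))) (((-A : ℝ) : ℂ) + v * I) :=
    integrable_finsetSum _ fun n h => (e2 n h).2.const_mul _
  have e4 := Ln_sub (σ := -A) (g₁ := fun s => F.L s * ((x : ℂ) ^ s * (gW W s / s)))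
    (g₂ := fun s => ∑ n ∈ Finset.Ioc 0 N, (starRingEnd ℂ) (F.f n) / n *
      (F.chi s * (((n * x : ℝ) : ℂ) ^ s * (gW W s / s)))) i1 i2
  have e5 : Ln (fun s => F.L s * ((x : ℂ) ^ s * (gW W s / s)) -
      ∑ n ∈ Finset.Ioc 0 N, (starRingEnd ℂ) (F.f n) / n *
        (F.chi s * (((n * x : ℝ) : ℂ) ^ s * (gW W s / s)))) (-A) =
      Ln (fun s => F.chi s * F.Tl N s * ((x : ℂ) ^ s * (gW W s / s))) (-A) := by
    refine Ln_congr fun v => ?_
    have hre : ((((-A : ℝ) : ℂ) + v * I)).re = -A := by simp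
    generalize (((-A : ℝ) : ℂ) + v * I) = s at hre
    have h0 : s ≠ 0 := by
      rintro rfl
      rw [zero_re] at hre
      linarith
    rw [F.fe' (by linarith) h0, ← F.Hd_add_Tl N (by linarith), F.vf1_Hd]
    have e6 : ∑ n ∈ Finset.Ioc 0 N, (starRingEnd ℂ) (F.f n) / n *
        (F.chi s * (((n * x : ℝ) : ℂ) ^ s * (gW W s / s))) =
        F.chi s * (∑ n ∈ Finset.Ioc 0 N, (starRingEnd ℂ) (F.f n) / n * (n : ℂ) ^ s) *
          ((x : ℂ) ^ s * (gW W s / s)) := by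
      rw [Finset.mul_sum, Finset.sum_mul]
      refine Finset.sum_congr rfl fun n _ => ?_
      rw [ofReal_mul, Complex.mul_cpow_ofReal_nonneg (Nat.cast_nonneg n) hx.le, ofReal_natCast]
      ring
    rw [e6]
    ring
  rw [B, e1, e3, ← e5, e4]
  ring

/- `mvtd_tendsto`, `mvtd_le`, `sum_rpow_tail` with `β = A - η`. -/
theorem f1_tail {A η : ℝ} (h0 : 0 < η) (h1 : η < A) : ∃ C : ℝ, 0 < C ∧ ∀ (N : ℕ) (t : ℝ),
    ‖F.Tl N ((-A : ℝ) + t * I)‖ ≤ C * ((N : ℝ) + 1) ^ (-A + η) := by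
  obtain ⟨C1, hC1, h2⟩ := F.mvtd_le h0
  obtain ⟨C2, hC2, h3⟩ := sum_rpow_tail (β := A - η) (by linarith)
  refine ⟨C1 * C2, by positivity, fun N t => ?_⟩
  have hre : ((((-A : ℝ) : ℂ) + t * I)).re = -A := by simp
  generalize (((-A : ℝ) : ℂ) + t * I) = s at hre
  refine le_of_tendsto' (F.mvtd_tendsto N (s := s) (by linarith)).norm fun X => ?_
  refine (norm_sum_le _ _).trans ?_
  calc _ ≤ ∑ n ∈ Finset.Ioc N X, C1 * (n : ℝ) ^ (-1 - (A - η)) := by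
        refine Finset.sum_le_sum fun n hn => ?_
        have h4 := h2 n (by have := (Finset.mem_Ioc.1 hn).1; omega) s
        rwa [hre, show η + -A - 1 = -1 - (A - η) by ring] at h4
    _ = C1 * ∑ n ∈ Finset.Ioc N X, (n : ℝ) ^ (-1 - (A - η)) := (Finset.mul_sum _ _ _).symm
    _ ≤ C1 * (C2 * ((N : ℝ) + 1) ^ (-(A - η))) := mul_le_mul_of_nonneg_left (h3 N X) (by linarith)
    _ = _ := by
        rw [show -(A - η) = -A + η by ring]
        ring

/- `f1_split`, `Hd_zero_le`, `norm_Ln_le` with `chi_le_strip`, `f1_tail`, `norm_gW`, `gW_poly`, `A ≤ ‖s‖`. -/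
theorem B_split {A η : ℝ} (h0 : 0 < η) (h1 : η < A) : ∃ C : ℝ, 0 < C ∧ ∀ (W x : ℝ) (N : ℕ),
    1 ≤ W → 0 < x →
    ‖F.B W x - ∑ n ∈ Finset.Ioc 0 N, (starRingEnd ℂ) (F.f n) / n * F.kr W (n * x)‖ ≤
      C * ((N : ℝ) + 1) ^ η * (1 + (((N : ℝ) + 1) * x) ^ (-A) * W ^ (F.deg * (1 / 2 + A) + 1)) := by
  have hA : 0 < A := h0.trans h1
  have hd := F.deg_nonneg
  obtain ⟨C1, hC1, e1⟩ := F.Hd_zero_le h0
  obtain ⟨C2, hC2, e2⟩ := F.chi_le_strip A
  obtain ⟨C3, hC3, e3⟩ := F.f1_tail h0 h1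
  obtain ⟨C4, hC4, e4⟩ := gW_poly (K := F.deg * (1 / 2 + A)) (by positivity)
  refine ⟨‖F.L 0‖ + ‖F.chi 0‖ * C1 + C2 * C3 * (Real.exp (A ^ 2) / A) * C4, by positivity,
    fun W x N hW hx => ?_⟩
  have hW0 : 0 < W := by linarith
  have hN : (1 : ℝ) ≤ N + 1 := by linarith [Nat.cast_nonneg (α := ℝ) N]
  have hN1 : 1 ≤ ((N : ℝ) + 1) ^ η := Real.one_le_rpow hN h0.le
  obtain ⟨i4, e5⟩ := e4 W hW
  rw [F.f1_split hA hW0 hx N]
  have b1 : ‖F.L 0 - F.chi 0 * F.Hd N 0‖ ≤ (‖F.L 0‖ + ‖F.chi 0‖ * C1) * ((N : ℝ) + 1) ^ η := by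
    refine (norm_sub_le _ _).trans ?_
    rw [norm_mul, add_mul, mul_assoc]
    refine add_le_add (le_mul_of_one_le_right (norm_nonneg _) hN1)
      (mul_le_mul_of_nonneg_left ((e1 N).trans (mul_le_mul_of_nonneg_left ?_ hC1.le))
        (norm_nonneg _))
    exact Real.rpow_le_rpow (Nat.cast_nonneg N) (by linarith) h0.le
  have b2 : ‖Ln (fun s => F.chi s * F.Tl N s * ((x : ℂ) ^ s * (gW W s / s))) (-A)‖ ≤
      ∫ t : ℝ, C2 * C3 * (Real.exp (A ^ 2) / A) * (((N : ℝ) + 1) ^ (-A + η) * x ^ (-A)) *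
        ((1 + |t|) ^ (F.deg * (1 / 2 + A)) * Real.exp (-t ^ 2 / W ^ 2)) := by
    refine norm_Ln_le 0 (i4.const_mul _) fun v => ?_
    rw [zero_add]
    have f3 := e3 N v
    have hre : ((((-A : ℝ) : ℂ) + v * I)).re = -A := by simp
    have him : ((((-A : ℝ) : ℂ) + v * I)).im = v := by simp
    generalize (((-A : ℝ) : ℂ) + v * I) = s at hre him f3
    have f2 := e2 s ⟨hre.ge, by linarith⟩
    rw [hre, him, sub_neg_eq_add] at f2
    have f4 : A ≤ ‖s‖ := by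
      have := abs_re_le_norm s
      rwa [hre, abs_neg, abs_of_pos hA] at this
    have f5 : ‖gW W s‖ ≤ Real.exp (A ^ 2) * Real.exp (-v ^ 2 / W ^ 2) := by
      rw [norm_gW hW0, hre, him, ← Real.exp_add, Real.exp_le_exp, neg_sq, sub_div, neg_div,
        sub_eq_add_neg]
      have : A ^ 2 / W ^ 2 ≤ A ^ 2 := div_le_self (by positivity) (one_le_pow₀ hW)
      linarith
    simp only [norm_mul, norm_div]
    rw [Complex.norm_cpow_eq_rpow_re_of_pos hx, hre]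
    calc _ ≤ C2 * (1 + |v|) ^ (F.deg * (1 / 2 + A)) * (C3 * ((N : ℝ) + 1) ^ (-A + η)) *
          (x ^ (-A) * (Real.exp (A ^ 2) * Real.exp (-v ^ 2 / W ^ 2) / A)) :=
          mul_le_mul (mul_le_mul f2 f3 (norm_nonneg _) (by positivity))
            (mul_le_mul_of_nonneg_left (div_le_div₀ (by positivity) f5 hA f4) (by positivity))
            (by positivity) (by positivity)
      _ = _ := by ring
  rw [integral_const_mul] at b2
  have b3 := b2.trans (mul_le_mul_of_nonneg_left e5 (by positivity))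
  have e6 : ((N : ℝ) + 1) ^ (-A + η) * x ^ (-A) =
      ((N : ℝ) + 1) ^ η * (((N : ℝ) + 1) * x) ^ (-A) := by
    rw [Real.rpow_add (by linarith), Real.mul_rpow (by linarith) hx.le]
    ring
  rw [e6] at b3
  refine (norm_add_le _ _).trans ((add_le_add b1 b3).trans ?_)
  have p1 : 0 ≤ (((N : ℝ) + 1) * x) ^ (-A) * W ^ (F.deg * (1 / 2 + A) + 1) := by positivity
  have p2 : 0 ≤ ‖F.L 0‖ + ‖F.chi 0‖ * C1 := by positivity
  have p3 : 0 ≤ C2 * C3 * (Real.exp (A ^ 2) / A) * C4 := by positivity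
  have p4 : 0 ≤ ((N : ℝ) + 1) ^ η := by positivity
  generalize ‖F.L 0‖ + ‖F.chi 0‖ * C1 = a at *
  generalize ((N : ℝ) + 1) ^ η = n at *
  have e7 : C2 * C3 * (Real.exp (A ^ 2) / A) * (n * (((N : ℝ) + 1) * x) ^ (-A)) *
      (C4 * W ^ (F.deg * (1 / 2 + A) + 1)) = C2 * C3 * (Real.exp (A ^ 2) / A) * C4 * n *
      ((((N : ℝ) + 1) * x) ^ (-A) * W ^ (F.deg * (1 / 2 + A) + 1)) := by ring
  rw [e7]
  generalize (((N : ℝ) + 1) * x) ^ (-A) * W ^ (F.deg * (1 / 2 + A) + 1) = w at *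
  generalize C2 * C3 * (Real.exp (A ^ 2) / A) * C4 = b at *
  nlinarith [mul_nonneg (mul_nonneg p2 p4) p1, mul_nonneg p3 p4]

end Sel

end Pool.Agent.Lib.MP_2a1a00_nt
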