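import Pool.Agent.Lib.MP_2a1a00_nt.V.Defs
import Pool.Agent.Lib.MP_2a1a00_nt.Nm

/-! Oscillatory integrals. -/

namespace Pool.Agent.Lib.MP_2a1a00_nt

open Complex MeasureTheory Set

/- First derivative test: `exp (i φ) = (1 / (i φ')) * (exp (i φ))'`; integrate by parts; `φ'' / φ' ^ 2` is the derivative of
`-1 / φ'` and is not negative. -/
theorem osc_one {φ φ' φ'' : ℝ → ℝ} {a b η : ℝ} (hab : a ≤ b) (hη : 0 < η)
    (h1 : ∀ x ∈ Icc a b, HasDerivAt φ (φ' x) x) (h2 : ∀ x ∈ Icc a b, HasDerivAt φ' (φ'' x) x)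
    (hc : ContinuousOn φ'' (Icc a b)) (h3 : ∀ x ∈ Icc a b, 0 ≤ φ'' x)
    (h4 : ∀ x ∈ Icc a b, η ≤ |φ' x|) : ‖∫ x in a..b, exp (I * (φ x : ℝ))‖ ≤ 4 / η := by
  have h0 : ∀ x ∈ Icc a b, φ' x ≠ 0 := fun x hx => abs_pos.1 (hη.trans_le (h4 x hx))
  have c1 : ContinuousOn φ (Icc a b) := fun x hx => (h1 x hx).continuousAt.continuousWithinAt
  have c2 : ContinuousOn φ' (Icc a b) := fun x hx => (h2 x hx).continuousAt.continuousWithinAt
  have c3 : ContinuousOn (fun x => φ'' x / φ' x ^ 2) (Icc a b) :=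
    hc.div (c2.pow 2) fun x hx => pow_ne_zero 2 (h0 x hx)
  have c4 : ContinuousOn (fun x => exp (I * (φ x : ℝ))) (Icc a b) := by fun_prop
  have c5 : ContinuousOn (fun x => I * (φ'' x / φ' x ^ 2 : ℝ) * exp (I * (φ x : ℝ))) (Icc a b) :=
    (continuousOn_const.mul (continuous_ofReal.comp_continuousOn c3)).mul c4
  have e1 := intervalIntegral.integral_eq_sub_of_hasDerivAt (a := a) (b := b)
    (f := fun x => -I * ((φ' x)⁻¹ : ℝ) * exp (I * (φ x : ℝ)))
    (f' := fun x => exp (I * (φ x : ℝ)) + I * (φ'' x / φ' x ^ 2 : ℝ) * exp (I * (φ x : ℝ)))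
    (fun x hx => by
      rw [uIcc_of_le hab] at hx
      have h5 := ofReal_ne_zero.2 (h0 x hx)
      refine (((((h2 x hx).inv (h0 x hx)).ofReal_comp).const_mul (-I)).mul
        (((h1 x hx).ofReal_comp).const_mul I).cexp).congr_deriv ?_
      simp only [Pi.inv_apply]
      push_cast
      field_simp
      linear_combination (-(φ' x : ℂ) ^ 2) * I_sq) ((c4.add c5).intervalIntegrable_of_Icc hab)
  have e2 := intervalIntegral.integral_eq_sub_of_hasDerivAt (a := a) (b := b)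
    (f := fun x => -(φ' x)⁻¹) (f' := fun x => φ'' x / φ' x ^ 2)
    (fun x hx => by
      rw [uIcc_of_le hab] at hx
      exact ((h2 x hx).inv (h0 x hx)).neg.congr_deriv (by ring)) (c3.intervalIntegrable_of_Icc hab)
  have e3 : ‖∫ x in a..b, I * (φ'' x / φ' x ^ 2 : ℝ) * exp (I * (φ x : ℝ))‖ ≤
      ∫ x in a..b, φ'' x / φ' x ^ 2 :=
    intervalIntegral.norm_integral_le_of_norm_le hab (Filter.Eventually.of_forall fun x hx => by
      rw [norm_mul, norm_mul, norm_I, norm_exp_I_mul_ofReal, norm_real, one_mul, mul_one,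
        Real.norm_of_nonneg (div_nonneg (h3 x (Ioc_subset_Icc_self hx)) (sq_nonneg _))])
      (c3.intervalIntegrable_of_Icc hab)
  have e4 : ∀ x ∈ Icc a b, |(φ' x)⁻¹| ≤ 1 / η := fun x hx => by
    rw [abs_inv, one_div]
    exact inv_anti₀ hη (h4 x hx)
  have e5 : ∀ x ∈ Icc a b, ‖-I * ((φ' x)⁻¹ : ℝ) * exp (I * (φ x : ℝ))‖ ≤ 1 / η := fun x hx => by
    rw [norm_mul, norm_mul, norm_neg, norm_I, norm_exp_I_mul_ofReal, norm_real, one_mul, mul_one]
    exact e4 x hx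
  rw [intervalIntegral.integral_add (c4.intervalIntegrable_of_Icc hab)
    (c5.intervalIntegrable_of_Icc hab)] at e1
  rw [eq_sub_of_add_eq e1, show 4 / η = 4 * (1 / η) by ring]
  refine (norm_sub_le _ _).trans ((add_le_add (norm_sub_le _ _) e3).trans ?_)
  linarith [e5 a ⟨le_rfl, hab⟩, e5 b ⟨hab, le_rfl⟩, abs_le.1 (e4 a ⟨le_rfl, hab⟩),
    abs_le.1 (e4 b ⟨hab, le_rfl⟩)]

theorem vosc_two {φ φ' φ'' : ℝ → ℝ} {a b lam : ℝ} (hab : a ≤ b) (hl : 0 < lam)
    (h1 : ∀ x ∈ Icc a b, HasDerivAt φ (φ' x) x) (h2 : ∀ x ∈ Icc a b, HasDerivAt φ' (φ'' x) x)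
    (hc : ContinuousOn φ'' (Icc a b)) (h3 : ∀ x ∈ Icc a b, lam ≤ φ'' x) :
    ‖∫ x in a..b, exp (I * (φ x : ℝ))‖ ≤ 10 / √lam := by
  have c1 : ContinuousOn φ (Icc a b) := fun x hx => (h1 x hx).continuousAt.continuousWithinAt
  have c2 : ContinuousOn φ' (Icc a b) := fun x hx => (h2 x hx).continuousAt.continuousWithinAt
  have c4 : ContinuousOn (fun x => exp (I * (φ x : ℝ))) (Icc a b) := by fun_prop
  have hm := (convex_Icc a b).mul_sub_le_image_sub_of_le_deriv c2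
    (fun x hx => (h2 x (interior_subset hx)).differentiableAt.differentiableWithinAt)
    fun x hx => (h2 x (interior_subset hx)).deriv ▸ h3 x (interior_subset hx)
  have hm' : ∀ x ∈ Icc a b, ∀ y ∈ Icc a b, x ≤ y → φ' x ≤ φ' y := fun x hx y hy h => by
    linarith [hm x hx y hy h, mul_nonneg hl.le (sub_nonneg.2 h)]
  have cut : ∀ t, ∃ c ∈ Icc a b, (c = a ∨ φ' c ≤ t) ∧ (c = b ∨ t ≤ φ' c) := fun t => by
    rcases le_total t (φ' a) with h | h
    · exact ⟨a, ⟨le_rfl, hab⟩, .inl rfl, .inr h⟩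
    rcases le_total (φ' b) t with h' | h'
    · exact ⟨b, ⟨hab, le_rfl⟩, .inr h', .inl rfl⟩
    obtain ⟨c, hc, e⟩ := intermediate_value_Icc hab c2 ⟨h, h'⟩
    exact ⟨c, hc, .inr e.le, .inr e.ge⟩
  have hη := Real.sqrt_pos.2 hl
  have hη' := Real.mul_self_sqrt hl.le
  generalize √lam = η at hη hη'
  have one : ∀ c ∈ Icc a b, ∀ d ∈ Icc a b, c ≤ d → (c = d ∨ ∀ x ∈ Icc c d, η ≤ |φ' x|) →
      ‖∫ x in c..d, exp (I * (φ x : ℝ))‖ ≤ 4 / η := fun c hc' d hd h h' => by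
    have hs : Icc c d ⊆ Icc a b := Icc_subset_Icc hc'.1 hd.2
    rcases h' with rfl | h'
    · rw [intervalIntegral.integral_same, norm_zero]
      positivity
    · exact osc_one h hη (fun x hx => h1 x (hs hx)) (fun x hx => h2 x (hs hx)) (hc.mono hs)
        (fun x hx => hl.le.trans (h3 x (hs hx))) h'
  have hi : ∀ c ∈ Icc a b, ∀ d ∈ Icc a b,
      IntervalIntegrable (fun x => exp (I * (φ x : ℝ))) volume c d := fun c hc d hd =>
    (c4.mono (uIcc_subset_Icc hc hd)).intervalIntegrable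
  obtain ⟨c, hc, c5, c6⟩ := cut (-η)
  obtain ⟨d, hd, d5, d6⟩ := cut η
  have ha : a ∈ Icc a b := ⟨le_rfl, hab⟩
  have hb : b ∈ Icc a b := ⟨hab, le_rfl⟩
  have k1 := one a ha c hc hc.1 (c5.imp Eq.symm fun h x hx => by
    linarith [hm' x ⟨hx.1, hx.2.trans hc.2⟩ c hc hx.2, neg_le_abs (φ' x)])
  have k2 := one d hd b hb hd.2 (d6.imp id fun h x hx => by
    linarith [hm' d hd x ⟨hd.1.trans hx.1, hx.2⟩ hx.1, le_abs_self (φ' x)])
  have k3 : ‖∫ x in c..d, exp (I * (φ x : ℝ))‖ ≤ 1 * |d - c| :=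
    intervalIntegral.norm_integral_le_of_norm_le_const fun x _ => (norm_exp_I_mul_ofReal _).le
  have k4 : |d - c| ≤ 2 / η := by
    rcases lt_trichotomy c d with h | rfl | h
    · rw [abs_of_pos (sub_pos.2 h), le_div_iff₀ hη]
      have h5 := hm c hc d hd h.le
      have h6 := c6.resolve_left (h.trans_le hd.2).ne
      have h7 := d5.resolve_left (hc.1.trans_lt h).ne'
      rw [← hη'] at h5
      exact le_of_mul_le_mul_left (by linarith) hη
    · rw [sub_self, abs_zero]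
      positivity
    · linarith [hm' d hd c hc h.le, c5.resolve_left (hd.1.trans_lt h).ne',
        d6.resolve_left (h.trans_le hc.2).ne]
  rw [← intervalIntegral.integral_add_adjacent_intervals (hi a ha d hd) (hi d hd b hb),
    ← intervalIntegral.integral_add_adjacent_intervals (hi a ha c hc) (hi c hc d hd),
    show 10 / η = 4 / η + 2 / η + 4 / η by ring]
  exact (norm_add_le _ _).trans (add_le_add ((norm_add_le _ _).trans (by linarith)) k2)

/- Second derivative test, `η = √lam`.  For `lam ≤ φ''` the function `φ'` increases at least like `lam x`; cut at points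
`c ≤ d` with `φ' ≤ -η` on `[a, c]` (or `c = a`), `η ≤ φ'` on `[d, b]` (or `d = b`), `|φ'| ≤ η` on `[c, d]`, `lam (d - c) ≤ 2 η`
(intermediate value theorem).  In the second case conjugate. -/
theorem osc_two {φ φ' φ'' : ℝ → ℝ} {a b lam : ℝ} (hab : a ≤ b) (hl : 0 < lam)
    (h1 : ∀ x ∈ Icc a b, HasDerivAt φ (φ' x) x) (h2 : ∀ x ∈ Icc a b, HasDerivAt φ' (φ'' x) x)
    (hc : ContinuousOn φ'' (Icc a b))
    (h3 : (∀ x ∈ Icc a b, lam ≤ φ'' x) ∨ ∀ x ∈ Icc a b, lam ≤ -φ'' x) :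
    ‖∫ x in a..b, exp (I * (φ x : ℝ))‖ ≤ 10 / √lam := by
  rcases h3 with h3 | h3
  · exact vosc_two hab hl h1 h2 hc h3
  · have h4 := vosc_two (φ := fun x => -φ x) hab hl (fun x hx => (h1 x hx).neg)
      (fun x hx => (h2 x hx).neg) hc.neg h3
    rw [← norm_conj, ← intervalIntegral.intervalIntegral_conj]
    simpa only [← exp_conj, map_mul, conj_I, conj_ofReal, ofReal_neg, mul_neg, neg_mul] using h4

theorem vosc_pow {a y A B p μ : ℝ} (ha : 0 < a) (h1 : a ≤ y) (h2 : y ≤ 3 / 2 * a) (p0 : 0 ≤ p)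
    (p2 : p ≤ 2) (hμ : 0 < μ) (h : μ ≤ |B * p * (p - 1)| * (4 / 9)) :
    ‖∫ x in a..y, exp (I * (A * x + B * x ^ p : ℝ))‖ ≤ 10 * a ^ (1 - p / 2) / √μ := by
  have h0 : ∀ x ∈ Icc a y, x ≠ 0 := fun x hx => (ha.trans_le hx.1).ne'
  have h3 : ∀ x ∈ Icc a y, μ * a ^ (p - 2) ≤ |B * p * (p - 1)| * x ^ (p - 2) := fun x hx => by
    have k1 := Real.rpow_le_rpow_of_nonpos (ha.trans_le hx.1) (hx.2.trans h2) (sub_nonpos.2 p2)
    have k2 := Real.rpow_le_rpow_of_exponent_le (show (1 : ℝ) ≤ 3 / 2 by norm_num)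
      (show -2 ≤ p - 2 by linarith)
    rw [Real.mul_rpow (by norm_num) ha.le] at k1
    rw [show (3 / 2 : ℝ) ^ (-2 : ℝ) = 4 / 9 by norm_num] at k2
    calc μ * a ^ (p - 2) ≤ |B * p * (p - 1)| * (3 / 2) ^ (p - 2) * a ^ (p - 2) := by
          gcongr
          exact h.trans (by gcongr)
      _ ≤ _ := by
          rw [mul_assoc]
          gcongr
  refine (osc_two (φ' := fun x => A + B * p * x ^ (p - 1))
    (φ'' := fun x => B * p * (p - 1) * x ^ (p - 2)) (lam := μ * a ^ (p - 2)) h1 (by positivity)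
    (fun x hx => ?_) (fun x hx => ?_)
    (continuousOn_const.mul (continuousOn_id.rpow_const fun x hx => .inl (h0 x hx))) ?_).trans
    (le_of_eq ?_)
  · exact (((hasDerivAt_id x).const_mul A).add
      ((Real.hasDerivAt_rpow_const (p := p) (.inl (h0 x hx))).const_mul B)).congr_deriv (by ring)
  · refine (((Real.hasDerivAt_rpow_const (p := p - 1) (.inl (h0 x hx))).const_mul
      (B * p)).const_add A).congr_deriv ?_
    rw [show p - 1 - 1 = p - 2 by ring]
    ring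
  · rcases abs_choice (B * p * (p - 1)) with e | e <;> rw [e] at h3
    · exact .inl h3
    · exact .inr fun x hx => (h3 x hx).trans_eq (neg_mul _ _)
  · rw [Real.sqrt_mul hμ.le, Real.sqrt_eq_rpow (a ^ _), ← Real.rpow_mul ha.le,
      show (p - 2) * (1 / 2) = -(1 - p / 2) by ring, Real.rpow_neg ha.le]
    field_simp

theorem vosc_sub (A B a b : ℝ) (m : ℕ) :
    ∫ x in a ^ m..b ^ m, exp (I * (A * √x + B * x ^ (1 / 3 : ℝ) : ℝ)) = ∫ v in a..b,
      exp (I * (A * √(v ^ m) + B * (v ^ m) ^ (1 / 3 : ℝ) : ℝ)) * (m * (v : ℂ) ^ (m - 1)) := by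
  have h : Continuous fun x : ℝ => x ^ (1 / 3 : ℝ) := Real.continuous_rpow_const (by norm_num)
  rw [← intervalIntegral.integral_deriv_smul_comp (f := fun v => v ^ m)
    (fun v _ => hasDerivAt_pow m v) (by fun_prop) (by fun_prop)]
  refine intervalIntegral.integral_congr fun v _ => ?_
  simp only [Function.comp, real_smul]
  push_cast
  ring

theorem vosc_root {T y c : ℝ} {m : ℕ} (hm : m ≠ 0) (hc : 0 ≤ c) (hc' : 2 ≤ c ^ m) (hT : 1 ≤ T)
    (hy : y ∈ Icc T (2 * T)) : ∃ a b : ℝ, 0 < a ∧ a ≤ b ∧ b ≤ c * a ∧ T = a ^ m ∧ y = b ^ m := by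
  have h0 : 0 < T := by linarith
  have h1 : 0 < y := h0.trans_le hy.1
  have e1 := Real.rpow_inv_natCast_pow h0.le hm
  have e2 := Real.rpow_inv_natCast_pow h1.le hm
  have a0 := Real.rpow_pos_of_pos h0 (m : ℝ)⁻¹
  have b0 := Real.rpow_pos_of_pos h1 (m : ℝ)⁻¹
  refine ⟨_, _, a0, le_of_pow_le_pow_left₀ hm b0.le ?_, le_of_pow_le_pow_left₀ hm (by positivity) ?_,
    e1.symm, e2.symm⟩
  · rw [e1, e2]
    exact hy.1
  · rw [mul_pow, e1, e2]
    exact hy.2.trans (by gcongr)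

/- Substitute `x = v ^ 2`; the phase `A v + B v ^ (2 / 3)` has the second derivative `-(2 / 9) B v ^ (-4 / 3)`, of absolute value
at least `|B| T ^ (-2 / 3) / 8`; `parts` with the weight `2 v ≤ 3 √T`. -/
theorem osc_B0 {T y A B : ℝ} (hT : 1 ≤ T) (hy : y ∈ Icc T (2 * T)) (hB : B ≠ 0) :
    ‖∫ x in T..y, exp (I * (A * √x + B * x ^ (1 / 3 : ℝ) : ℝ))‖ ≤
      200 * T ^ (5 / 6 : ℝ) / √|B| := by
  obtain ⟨a, b, ha, h1, h2, rfl, rfl⟩ := vosc_root (c := 3 / 2) two_ne_zero (by norm_num)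
    (by norm_num) hT hy
  have hB' := abs_pos.2 hB
  have h : Continuous fun x : ℝ => x ^ (2 / 3 : ℝ) := Real.continuous_rpow_const (by norm_num)
  have h3 := parts (g := fun x => exp (I * (A * x + B * x ^ (2 / 3 : ℝ) : ℝ)))
    (w := fun v => 2 * v) (w' := fun _ => 2) (W₀ := 2 * b) (W₁ := 2) h1 (by fun_prop)
    (fun x _ => by simpa using (hasDerivAt_id x).ofReal_comp.const_mul (2 : ℂ)) continuousOn_const
    (fun y hy => vosc_pow (μ := |B| / 16) ha hy.1 (hy.2.trans h2) (by norm_num) (by norm_num)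
      (by positivity) (by
        rw [abs_mul, abs_mul, abs_of_pos (by norm_num : (0 : ℝ) < 2 / 3),
          abs_of_neg (by norm_num : (2 / 3 - 1 : ℝ) < 0)]
        linarith))
    (by simp [abs_of_pos (ha.trans_le h1)]) (by simp)
  rw [vosc_sub, intervalIntegral.integral_congr (g := fun x : ℝ =>
    exp (I * (A * x + B * x ^ (2 / 3 : ℝ) : ℝ)) * (2 * x)) fun v hv => by
      rw [uIcc_of_le h1] at hv
      have h0 := ha.le.trans hv.1
      simp only [Real.sqrt_sq h0, ← Real.rpow_natCast_mul h0]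
      norm_num]
  refine h3.trans ?_
  rw [← Real.rpow_natCast_mul ha.le, show ((2 : ℕ) : ℝ) * (5 / 6) = 1 + (1 - 2 / 3 / 2) by norm_num,
    Real.rpow_add ha, Real.rpow_one, Real.sqrt_div hB'.le,
    show √16 = 4 from Real.sqrt_eq_iff_mul_self_eq_of_pos (by norm_num) |>.2 (by norm_num)]
  have k1 := Real.rpow_pos_of_pos ha (1 - 2 / 3 / 2)
  have k2 := Real.sqrt_pos.2 hB'
  rw [div_div_eq_mul_div, ← mul_div_assoc]
  exact div_le_div_of_nonneg_right (by nlinarith) k2.le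

/- Substitute `x = v ^ 3`; the phase `A v ^ (3 / 2) + B v` has the second derivative `(3 / 4) A v ^ (-1 / 2)`, of absolute value
at least `|A| T ^ (-1 / 6) / 2`; `parts` with the weight `3 v ^ 2`. -/
theorem osc_A0 {T y A B : ℝ} (hT : 1 ≤ T) (hy : y ∈ Icc T (2 * T)) (hA : A ≠ 0) :
    ‖∫ x in T..y, exp (I * (A * √x + B * x ^ (1 / 3 : ℝ) : ℝ))‖ ≤
      200 * T ^ (3 / 4 : ℝ) / √|A| := by
  obtain ⟨a, b, ha, h1, h2, rfl, rfl⟩ := vosc_root (c := 4 / 3) three_ne_zero (by norm_num)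
    (by norm_num) hT hy
  have hA' := abs_pos.2 hA
  have hb := ha.trans_le h1
  have h : Continuous fun x : ℝ => x ^ (3 / 2 : ℝ) := Real.continuous_rpow_const (by norm_num)
  have h3 := parts (g := fun x => exp (I * (B * x + A * x ^ (3 / 2 : ℝ) : ℝ)))
    (w := fun v => 3 * v ^ 2) (w' := fun v => 6 * v) (W₀ := 3 * b ^ 2) (W₁ := 6 * b) h1 (by fun_prop)
    (fun x _ => by
      refine (((hasDerivAt_id x).ofReal_comp.pow 2).const_mul (3 : ℂ)).congr_deriv ?_
      simp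
      ring) (by fun_prop)
    (fun y hy => vosc_pow (μ := |A| / 4) ha hy.1 (by linarith [hy.2]) (by norm_num) (by norm_num)
      (by positivity) (by
        rw [abs_mul, abs_mul, abs_of_pos (by norm_num : (0 : ℝ) < 3 / 2),
          abs_of_pos (by norm_num : (0 : ℝ) < 3 / 2 - 1)]
        linarith))
    (by simp) fun x hx => by simpa [abs_of_pos (ha.trans_le hx.1)] using hx.2
  rw [vosc_sub, intervalIntegral.integral_congr (g := fun x : ℝ =>
    exp (I * (B * x + A * x ^ (3 / 2 : ℝ) : ℝ)) * (3 * x ^ 2)) fun v hv => by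
      rw [uIcc_of_le h1] at hv
      have h0 := ha.le.trans hv.1
      simp only [Real.sqrt_eq_rpow, ← Real.rpow_natCast_mul h0]
      norm_num [add_comm]]
  refine h3.trans ?_
  rw [← Real.rpow_natCast_mul ha.le, show ((3 : ℕ) : ℝ) * (3 / 4) = 2 + (1 - 3 / 2 / 2) by norm_num,
    Real.rpow_add ha, Real.rpow_two, Real.sqrt_div hA'.le,
    show √4 = 2 from Real.sqrt_eq_iff_mul_self_eq_of_pos (by norm_num) |>.2 (by norm_num)]
  have k1 := Real.rpow_pos_of_pos ha (1 - 3 / 2 / 2)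
  have k2 := Real.sqrt_pos.2 hA'
  have k3 : 3 * b ^ 2 + (b - a) * (6 * b) ≤ 10 * a ^ 2 := by nlinarith
  rw [div_div_eq_mul_div, ← mul_div_assoc]
  exact div_le_div_of_nonneg_right (by nlinarith) k2.le

/- `parts` on `[T, y]` with `nm_der`, as in `parts_log`: `‖px β y‖ ≤ (2 T) ^ re β`, the derivative is at most
`‖β‖ / T * (2 T) ^ re β`. -/
theorem parts_px {g : ℝ → ℂ} {T Z : ℝ} (hT : 0 < T) (hg : ContinuousOn g (Icc T (2 * T))) {β : ℂ}
    (hβ : 0 ≤ β.re) (hZ : ∀ y ∈ Icc T (2 * T), ‖∫ x in T..y, g x‖ ≤ Z) {y : ℝ}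
    (hy : y ∈ Icc T (2 * T)) :
    ‖∫ x in T..y, px β x * g x‖ ≤ (1 + ‖β‖) * (2 * T) ^ β.re * Z := by
  have hs : Icc T y ⊆ Icc T (2 * T) := Icc_subset_Icc_right hy.2
  have h1 := parts (W₀ := (2 * T) ^ β.re) (W₁ := ‖β‖ / T * (2 * T) ^ β.re) hy.1 (hg.mono hs)
    (fun x hx => nm_der β (hT.trans_le hx.1)) ((nm_cont hT β).mono hs) (fun x hx => hZ x (hs hx))
    (norm_exp_log hT hβ hy) fun x hx => by
      rw [norm_mul, norm_div, Complex.norm_real, Real.norm_of_nonneg (hT.le.trans hx.1)]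
      exact mul_le_mul (div_le_div_of_nonneg_left (norm_nonneg _) hT hx.1)
        (norm_exp_log hT hβ (hs hx)) (norm_nonneg _) (by positivity)
  simp only [px, mul_comm _ (g _)]
  refine h1.trans (mul_le_mul_of_nonneg_right ?_ ((norm_nonneg _).trans (hZ y hy)))
  have h2 : (y - T) * (‖β‖ / T * (2 * T) ^ β.re) ≤ T * (‖β‖ / T * (2 * T) ^ β.re) :=
    mul_le_mul_of_nonneg_right (by linarith [hy.2]) (by positivity)
  rw [← mul_assoc T, mul_div_cancel₀ _ hT.ne'] at h2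
  linarith

end Pool.Agent.Lib.MP_2a1a00_nt
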