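import Pool.Agent.Lib.MP_2a1a00_nt.V.St2

/-! The model for the factor in the functional equation. -/

namespace Pool.Agent.Lib.MP_2a1a00_nt

open Complex MeasureTheory Set

theorem vst3_core {K σ u : ℝ} {e r r' E : ℂ} (he : e = I ∨ e = -I) (h0 : 0 ≤ σ) (h1 : σ ≤ 1)
    (hK : 1 ≤ K) (hu : K ≤ u) (hr : ‖r‖ ≤ K / u) (hr' : ‖r'‖ ≤ K / u) (hE : ‖E‖ ≤ K / u) :
    ‖exp r' / (σ + u * e) - exp r / (u * e) * (1 + E)‖ ≤ 8 * K / u ^ 2 := by
  have hu0 : 0 < u := by linarith
  have hk : K / u ≤ 1 := (div_le_one hu0).2 hu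
  have hk0 : 0 ≤ K / u := by positivity
  have hn : ‖(u : ℂ) * e‖ = u := by
    rcases he with rfl | rfl <;> simp [hu0.le]
  have hs : u ≤ ‖(σ : ℂ) + u * e‖ := by
    refine le_trans ?_ (abs_im_le_norm _)
    rcases he with rfl | rfl <;> simp [abs_of_pos hu0]
  have hn0 : (u : ℂ) * e ≠ 0 := norm_pos_iff.1 (by rw [hn]; exact hu0)
  have hs0 : (σ : ℂ) + u * e ≠ 0 := norm_pos_iff.1 (hu0.trans_le hs)
  have a1 : ‖exp r - 1‖ ≤ 2 * (K / u) :=
    (norm_exp_sub_one_le (hr.trans hk)).trans (by linarith)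
  have a2 : ‖exp r' - 1‖ ≤ 2 * (K / u) :=
    (norm_exp_sub_one_le (hr'.trans hk)).trans (by linarith)
  have a3 : ‖exp r‖ ≤ 3 := by
    have := norm_add_le (exp r - 1) 1
    rw [sub_add_cancel, norm_one] at this
    linarith
  have a4 : ‖exp r - 1 + exp r * E‖ ≤ 5 * (K / u) := by
    refine (norm_add_le _ _).trans ?_
    rw [norm_mul]
    have := mul_le_mul a3 hE (norm_nonneg _) (by norm_num)
    linarith
  have a5 : ‖(σ : ℂ) / (u * e)‖ ≤ K / u := by
    rw [norm_div, hn, norm_real, Real.norm_of_nonneg h0]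
    exact div_le_div_of_nonneg_right (h1.trans hK) hu0.le
  have id : exp r' / (σ + u * e) - exp r / (u * e) * (1 + E) =
      (exp r' - 1 - σ / (u * e)) / (σ + u * e) - (exp r - 1 + exp r * E) / (u * e) := by
    generalize (u : ℂ) * e = w at hn0 hs0
    field_simp
    ring
  rw [id]
  refine (norm_sub_le _ _).trans ?_
  rw [norm_div, norm_div _ (_ * e), hn]
  have b1 : ‖exp r' - 1 - σ / (u * e)‖ / ‖(σ : ℂ) + u * e‖ ≤ 3 * (K / u) / u :=
    div_le_div₀ (by positivity) ((norm_sub_le _ _).trans (by linarith)) hu0 hs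
  have b2 := div_le_div_of_nonneg_right a4 hu0.le
  refine (add_le_add b1 b2).trans (le_of_eq ?_)
  field_simp
  ring

theorem vst3_alg {c b e s z r d th lq ld lu g π : ℂ} (he : e ≠ 0)
    (hz : z = d * (1 / 2 - s) - 1 / 2 - th * I) (v : ℂ) :
    exp ((1 / 2 - s) * (lq - d * ld)) * exp (g + (z - 1 / 2) * (ld + lu - π / 2 * e) + v + r) *
      (exp (c - g - π / 4 * e + (1 + th * I) * ld) / e * exp (π / 2 * e * z) +
        b * exp (-(π / 2 * e * z))) =
    exp (c + (1 / 2 - s) * lq + (d * (1 / 2 - s) - th * I) * lu + v) * (exp r / (exp lu * e) *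
      (1 + b / (exp (c - g - π / 4 * e + (1 + th * I) * ld) / e) * exp (-(π * e * z)))) := by
  have h1 : exp ((1 / 2 - s) * (lq - d * ld)) *
      exp (g + (z - 1 / 2) * (ld + lu - π / 2 * e) + v + r) *
      exp (c - g - π / 4 * e + (1 + th * I) * ld) * exp (π / 2 * e * z) * exp lu =
      exp (c + (1 / 2 - s) * lq + (d * (1 / 2 - s) - th * I) * lu + v) * exp r := by
    simp only [← exp_add]
    congr 1
    rw [hz]
    ring
  have h2 : exp (-(π / 2 * e * z)) = exp (π / 2 * e * z) * exp (-(π * e * z)) := by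
    rw [← exp_add]
    congr 1
    ring
  have h3 := exp_ne_zero lu
  have h4 := exp_ne_zero (c - g - π / 4 * e + (1 + th * I) * ld)
  rw [h2, ← mul_assoc (exp (c + _ + _ + v)), ← mul_div_assoc, ← h1]
  generalize exp (c - g - π / 4 * e + (1 + th * I) * ld) = A at h4
  generalize exp lu = B at h3
  generalize exp (π / 2 * e * z) = D
  generalize exp (-(π * e * z)) = E
  generalize exp ((1 / 2 - s) * (lq - d * ld)) *
    exp (g + (z - 1 / 2) * (ld + lu - π / 2 * e) + v + r) = X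
  field_simp

namespace Sel

variable (F : Sel)

theorem vst3_half (hd : 0 < F.deg) {σ : ℝ} (h0 : 0 < σ) (h1 : σ < 1 / 2) {e : ℂ} (c b : ℂ)
    (he : e = I ∨ e = -I) {C₁ t₁ C₂ t₂ : ℝ} (hC₁ : 0 < C₁) (hC₂ : 0 < C₂)
    (hx : ∀ u : ℝ, t₁ ≤ u → ∃ r : ℂ, ‖r‖ ≤ C₁ / u ∧ F.chi (σ + u * e) =
      exp (c + (1 / 2 - (σ + u * e)) * (Real.log F.q : ℝ) +
        (F.deg * (1 / 2 - (σ + u * e)) - F.th * I) * (Real.log u : ℝ) + F.deg * u * e + r))
    (hg : ∀ τ : ℝ, t₂ ≤ τ → ∃ r : ℂ, ‖r‖ ≤ C₂ / τ ∧ Gamma (F.zz σ - τ * e) =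
      exp (c0 + (F.zz σ - 1 / 2 - τ * e) * (Real.log τ - Real.pi / 2 * e) + τ * e + r)) :
    ∃ C T : ℝ, 0 < C ∧ ∀ u : ℝ, T ≤ u → ‖F.chi (σ + u * e) / (σ + u * e) -
      exp ((1 / 2 - (σ + u * e)) * (Real.log (F.q / F.deg ^ F.deg) : ℝ)) * Gamma (F.zz (σ + u * e)) *
      (exp (c - c0 - Real.pi / 4 * e + (1 + F.th * I) * (Real.log F.deg : ℝ)) / e *
        exp (Real.pi / 2 * e * F.zz (σ + u * e)) + b * exp (-(Real.pi / 2 * e * F.zz (σ + u * e))))‖ ≤
      C * (1 + u) ^ (F.deg * (1 / 2 - σ) - 2) := by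
  have e2 : e * e = -1 := by rcases he with rfl | rfl <;> simp
  have e0 : e ≠ 0 := by rcases he with rfl | rfl <;> simp
  have er : e.re = 0 := by rcases he with rfl | rfl <;> simp
  set a : ℂ := exp (c - c0 - Real.pi / 4 * e + (1 + F.th * I) * (Real.log F.deg : ℝ)) / e with ha
  set k : ℝ := ‖b / a * exp (-(Real.pi * e * F.zz σ))‖ with hk
  have hk0 : 0 ≤ k := norm_nonneg _
  set K : ℝ := 1 + C₁ + C₂ / F.deg + k / F.deg with hK
  have p1 : 0 ≤ C₂ / F.deg := by positivity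
  have p2 : 0 ≤ k / F.deg := by positivity
  have hK1 : 1 ≤ K := by linarith
  refine ⟨Real.exp (c.re + (1 / 2 - σ) * Real.log F.q) * (32 * K), max K (max t₁ (t₂ / F.deg)),
    by positivity, fun u hu => ?_⟩
  have hKu : K ≤ u := (le_max_left _ _).trans hu
  have hu1 : 1 ≤ u := hK1.trans hKu
  have hu0 : 0 < u := by linarith
  have hdu : 0 < F.deg * u := by positivity
  obtain ⟨r', hr', hx⟩ := hx u (((le_max_left _ _).trans (le_max_right _ _)).trans hu)
  obtain ⟨r, hr, hg⟩ := hg (F.deg * u) (by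
    have := ((le_max_right _ _).trans (le_max_right _ _)).trans hu
    rwa [div_le_iff₀' hd] at this)
  have hz : F.zz (σ + u * e) = F.zz σ - (F.deg * u : ℝ) * e := by
    simp only [zz, ofReal_mul]
    ring
  have hg' : Gamma (F.zz (σ + u * e)) = exp (c0 + (F.zz (σ + u * e) - 1 / 2) *
      ((Real.log F.deg : ℝ) + (Real.log u : ℝ) - Real.pi / 2 * e) + F.deg * u * e + r) := by
    rw [hz, hg, Real.log_mul hd.ne' hu0.ne']
    congr 1
    push_cast
    ring
  have hl : ((Real.log (F.q / F.deg ^ F.deg) : ℝ) : ℂ) =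
      (Real.log F.q : ℝ) - F.deg * (Real.log F.deg : ℝ) := by
    rw [Real.log_div F.q_pos.ne' (Real.rpow_pos_of_pos hd _).ne', Real.log_rpow hd, ofReal_sub,
      ofReal_mul]
  have hE : ‖b / a * exp (-(Real.pi * e * F.zz (σ + u * e)))‖ ≤ K / u := by
    have : -(Real.pi * e * F.zz (σ + u * e)) =
        -(Real.pi * e * F.zz σ) + (-(Real.pi * (F.deg * u)) : ℝ) := by
      rw [hz]
      push_cast
      linear_combination (Real.pi * F.deg * u : ℂ) * e2
    rw [this, exp_add, ← mul_assoc, norm_mul, ← hk, norm_exp_ofReal]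
    have h3 : Real.exp (-(Real.pi * (F.deg * u))) ≤ 1 / (F.deg * u) := by
      rw [Real.exp_neg, one_div]
      refine inv_anti₀ hdu ?_
      have := Real.add_one_le_exp (Real.pi * (F.deg * u))
      nlinarith [Real.pi_gt_three]
    refine (mul_le_mul_of_nonneg_left h3 hk0).trans ?_
    rw [mul_one_div, ← div_div]
    exact div_le_div_of_nonneg_right (by linarith) hu0.le
  have hco := vst3_core (K := K) (r := r) (r' := r') he h0.le (by linarith) hK1 hKu
    (hr.trans (by rw [← div_div]; exact div_le_div_of_nonneg_right (by linarith) hu0.le))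
    (hr'.trans (div_le_div_of_nonneg_right (by linarith) hu0.le)) hE
  rw [hg', hl, ha, vst3_alg (z := F.zz (σ + u * e)) e0 rfl, ← ha, hx, exp_add _ r', ← ofReal_exp, Real.exp_log hu0,
    mul_div_assoc, ← mul_sub, norm_mul, Complex.norm_exp]
  have hre : (c + (1 / 2 - (σ + u * e)) * (Real.log F.q : ℝ) +
      (F.deg * (1 / 2 - (σ + u * e)) - F.th * I) * (Real.log u : ℝ) + F.deg * u * e).re =
      c.re + (1 / 2 - σ) * Real.log F.q + Real.log u * (F.deg * (1 / 2 - σ)) := by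
    simp only [add_re, sub_re, mul_re, ofReal_re, ofReal_im, er, I_re, I_im, mul_im,
      div_ofNat_re, one_re]
    ring
  rw [hre, Real.exp_add _ (Real.log u * _), ← Real.rpow_def_of_pos hu0,
    Real.rpow_sub (by positivity), Real.rpow_two]
  have q1 : u ^ (F.deg * (1 / 2 - σ)) ≤ (1 + u) ^ (F.deg * (1 / 2 - σ)) :=
    Real.rpow_le_rpow hu0.le (by linarith) (mul_nonneg hd.le (by linarith))
  have q2 : 8 * K / u ^ 2 ≤ 32 * K / (1 + u) ^ 2 := by
    rw [div_le_div_iff₀ (by positivity) (by positivity)]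
    have : (1 + u) ^ 2 ≤ 4 * u ^ 2 := by nlinarith
    nlinarith
  refine (mul_le_mul (mul_le_mul_of_nonneg_left q1 (by positivity)) (hco.trans q2)
    (norm_nonneg _) (by positivity)).trans (le_of_eq ?_)
  ring

theorem vst3_cont (hd : 0 < F.deg) (c₁ c₂ : ℂ) {σ : ℝ} (h0 : 0 < σ) (h1 : σ < al F.deg) :
    Continuous fun t : ℝ => F.chi (σ + t * I) / (σ + t * I) - F.mdl c₁ c₂ (σ + t * I) := by
  have h2 : 0 < 1 / (2 * F.deg) := by positivity
  have h3 : F.deg * (1 / (2 * F.deg)) = 1 / 2 := by field_simp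
  unfold al at h1
  have c1 : Continuous fun t : ℝ => F.chi (σ + t * I) :=
    F.chi_diff.continuousOn.comp_continuous (by fun_prop) fun t => by
      simp only [mem_ofPred_eq, add_re, ofReal_re, re_ofReal_mul, I_re]
      linarith
  have c2 : Continuous fun t : ℝ => F.zz (σ + t * I) := by
    unfold zz
    fun_prop
  have c3 : Continuous fun t : ℝ => Gamma (F.zz (σ + t * I)) := by
    refine continuous_iff_continuousAt.2 fun t => ContinuousAt.comp
      (f := fun t : ℝ => F.zz (σ + t * I)) (differentiableAt_Gamma _ fun m hm => ?_).continuousAt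
      c2.continuousAt
    have h4 := congrArg re hm
    have h5 : (0 : ℝ) ≤ m := Nat.cast_nonneg m
    have h6 := mul_lt_mul_of_pos_left h1 hd
    simp only [zz, sub_re, add_re, re_ofReal_mul, ofReal_re, I_re, div_ofNat_re, one_re, neg_re,
      natCast_re] at h4
    nlinarith
  unfold mdl
  refine (c1.div (by fun_prop) fun t h => ?_).sub (by fun_prop)
  have := congrArg re h
  simp only [add_re, ofReal_re, re_ofReal_mul, I_re, zero_re] at this
  linarith

/- Let `d = deg`, `s = σ + t i`, `z = zz s = p - (d t) i`, `p = d (1 / 2 - σ) - 1 / 2 - th i`, `0 < re p`.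
For `t > 0` large, `stir_neg` with `τ = d t` gives `Gamma z * exp (π / 2 * i z) =
exp (c0 + π / 4 * i + (z - 1 / 2) * (log d + log t) + d t i + r)`, where `z - 1 / 2 = d (1 / 2 - s) - th i - 1`, so with
`c₁ = exp (cp - c0 - π / 4 * i + (1 + th i) * log d) / i` the first term of the model is
`exp (cp + ...) / (t i) * exp r`, the expression of `chi_asymp` without its error, `M` say, over `t i`;
`‖M‖ ≤ C t ^ (d (1 / 2 - σ))`, `‖exp r' / s - exp r / (t i)‖ ≤ C / t ^ 2`, and the second term is the first one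
without `c₁` times `c₂ * exp (-π i z)`, of norm `C * exp (-π d t)`.  For `t < 0` use `stir_pos`, the roles are
exchanged (`t i = -|t| i`).  For bounded `t` both terms are continuous in `t` (`chi_diff`, `0 < re z`). -/
theorem model (hd : 0 < F.deg) : ∃ c₁ c₂ : ℂ, ∀ σ : ℝ, 0 < σ → σ < al F.deg → ∃ C : ℝ, 0 < C ∧
    ∀ t : ℝ, ‖F.chi (σ + t * I) / (σ + t * I) - F.mdl c₁ c₂ (σ + t * I)‖ ≤
      C * (1 + |t|) ^ (F.deg * (1 / 2 - σ) - 2) := by
  obtain ⟨cp, cm, hc⟩ := F.chi_asymp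
  set c₁ : ℂ := exp (cp - c0 - Real.pi / 4 * I + (1 + F.th * I) * (Real.log F.deg : ℝ)) / I with hc₁
  set c₂ : ℂ := exp (cm - c0 - Real.pi / 4 * (-I) + (1 + F.th * I) * (Real.log F.deg : ℝ)) / (-I)
    with hc₂
  refine ⟨c₁, c₂, fun σ h0 h1 => ?_⟩
  have h2 : σ < 1 / 2 := by
    have : 0 < 1 / (2 * F.deg) := by positivity
    unfold al at h1
    linarith
  obtain ⟨C₁, t₁, hC₁, ht₁, hc⟩ := hc 1
  obtain ⟨C₂, t₂, hC₂, -, hn⟩ := stir_neg ‖F.zz σ‖
  obtain ⟨C₃, t₃, hC₃, -, hp⟩ := stir_pos ‖F.zz σ‖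
  have hσ : |σ| ≤ 1 := by rw [abs_of_pos h0]; linarith
  obtain ⟨A, T, hA, hP⟩ := F.vst3_half hd h0 h2 cp c₂ (Or.inl rfl) (t₁ := t₁) hC₁ hC₂ (fun u hu => by
    have hu0 : 0 < u := by linarith
    have := hc (σ + u * I) (by simpa using hσ) (by simpa [abs_of_pos hu0] using hu)
    simpa [abs_of_pos hu0, hu0] using this) fun τ hτ => hn _ τ le_rfl hτ
  obtain ⟨A', T', hA', hM⟩ := F.vst3_half hd h0 h2 cm c₁ (Or.inr rfl) (t₁ := t₁) (t₂ := t₃) hC₁ hC₃
    (fun u hu => by
      have hu0 : 0 < u := by linarith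
      have := hc (σ + u * -I) (by simpa using hσ) (by simpa [abs_of_pos hu0] using hu)
      simpa [abs_of_pos hu0, hu0.le, not_lt.2 hu0.le] using this) fun τ hτ => by
      simpa [sub_eq_add_neg] using hp _ τ le_rfl hτ
  have hco : Continuous fun t : ℝ =>
      ‖F.chi (σ + t * I) / (σ + t * I) - F.mdl c₁ c₂ (σ + t * I)‖ /
        (1 + |t|) ^ (F.deg * (1 / 2 - σ) - 2) :=
    (F.vst3_cont hd c₁ c₂ h0 h1).norm.div ((continuous_const.add continuous_abs).rpow_const
      fun t => Or.inl (jb_pos t).ne') fun t => by positivity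
  obtain ⟨B, hB⟩ := (isCompact_Icc (a := -(max T' 0)) (b := max T 0)).exists_bound_of_continuousOn
    hco.continuousOn
  refine ⟨max A (max A' B), hA.trans_le (le_max_left _ _), fun t => ?_⟩
  have hw : 0 < (1 + |t|) ^ (F.deg * (1 / 2 - σ) - 2) := by positivity
  by_cases ht : t ∈ Icc (-(max T' 0)) (max T 0)
  · have := hB t ht
    rw [Real.norm_of_nonneg (by positivity), div_le_iff₀ hw] at this
    exact this.trans (mul_le_mul_of_nonneg_right
      ((le_max_right _ _).trans (le_max_right _ _)) hw.le)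
  rw [mem_Icc, not_and_or, not_le, not_le] at ht
  rcases ht with ht | ht
  · rw [lt_neg, max_lt_iff] at ht
    have := hM (-t) ht.1.le
    rw [← abs_of_neg (neg_pos.1 ht.2)] at this
    refine le_trans (le_of_eq ?_) (this.trans (mul_le_mul_of_nonneg_right
      ((le_max_left _ _).trans (le_max_right _ _)) hw.le))
    rw [abs_of_neg (neg_pos.1 ht.2), mdl, ← hc₂, add_comm (c₂ * _)]
    simp
  · rw [max_lt_iff] at ht
    have := hP t ht.1.le
    rw [abs_of_pos ht.2] at hw ⊢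
    exact this.trans (mul_le_mul_of_nonneg_right (le_max_left _ _) hw.le)

end Sel

end Pool.Agent.Lib.MP_2a1a00_nt
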