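import Pool.Agent.Lib.MP_2a1a00_nt.V.St1
import Pool.Agent.Lib.MP_2a1a00_nt.Chi

/-! The asymptotic behaviour of the factor in the functional equation. -/

namespace Pool.Agent.Lib.MP_2a1a00_nt

open Complex MeasureTheory Set

theorem vst2_norm {lam σ A : ℝ} (hl : 0 < lam) (mu : ℂ) (h : |σ| ≤ A) :
    ‖(lam * (1 - σ) + (starRingEnd ℂ) mu : ℂ)‖ ≤ lam * (1 + A) + ‖mu‖ ∧
      ‖(lam * σ + mu : ℂ)‖ ≤ lam * (1 + A) + ‖mu‖ := by
  have e : ‖(lam : ℂ)‖ = lam := by rw [norm_real, Real.norm_of_nonneg hl.le]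
  have e2 : ‖(σ : ℂ)‖ ≤ A := by rwa [norm_real, Real.norm_eq_abs]
  have e3 : ‖(1 - σ : ℂ)‖ ≤ 1 + A := (norm_sub_le _ _).trans (by rw [norm_one]; linarith)
  constructor
  · refine (norm_add_le _ _).trans ?_
    rw [norm_mul, e, Complex.norm_conj]
    gcongr
  · refine (norm_add_le _ _).trans ?_
    rw [norm_mul, e]
    gcongr
    linarith

/- With `s = σ + t i`, `τ = lam * |t|`, `p₁ = lam (1 - σ) + conj mu`, `p₂ = lam σ + mu`.  For `t > 0` the quotient is
`Gamma (p₁ - τ i) / Gamma (p₂ + τ i)`, and `stir_neg`, `stir_pos` give the exponent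
`(p₁ - p₂ - 2 τ i) log τ - (π / 2) i (p₁ + p₂ - 1) + 2 τ i`, where `p₁ - p₂ - 2 τ i = lam (1 - 2 s) - 2 i im mu`,
`p₁ + p₂ - 1 = lam + 2 re mu - 1`.  For `t < 0` it is `Gamma (p₁ + τ i) / Gamma (p₂ - τ i)`, and only the
sign of the middle term changes. -/
theorem st2_factor {lam : ℝ} (hl : 0 < lam) (mu : ℂ) : ∃ cp cm : ℂ, ∀ A : ℝ, ∃ C t₀ : ℝ,
    0 < C ∧ 1 ≤ t₀ ∧ ∀ s : ℂ, |s.re| ≤ A → t₀ ≤ |s.im| → ∃ r : ℂ, ‖r‖ ≤ C / |s.im| ∧
      Gamma (lam * (1 - s) + (starRingEnd ℂ) mu) * (Gamma (lam * s + mu))⁻¹ =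
        exp ((if 0 < s.im then cp else cm) + (1 / 2 - s) * (2 * lam * Real.log lam : ℝ) +
          (2 * lam * (1 / 2 - s) - 2 * mu.im * I) * (Real.log |s.im| : ℝ) + 2 * lam * s.im * I + r) := by
  refine ⟨-2 * mu.im * I * (Real.log lam : ℝ) - Real.pi / 2 * I * (lam + 2 * mu.re - 1),
    -2 * mu.im * I * (Real.log lam : ℝ) + Real.pi / 2 * I * (lam + 2 * mu.re - 1), fun A => ?_⟩
  obtain ⟨C1, τ1, hC1, hτ1, h1⟩ := stir_pos (lam * (1 + A) + ‖mu‖)
  obtain ⟨C2, τ2, hC2, hτ2, h2⟩ := stir_neg (lam * (1 + A) + ‖mu‖)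
  refine ⟨(C1 + C2) / lam, max 1 (max τ1 τ2 / lam), by positivity, le_max_left _ _,
    fun s hs ht => ?_⟩
  obtain ⟨n1, n2⟩ := vst2_norm hl mu hs
  have t1 : 1 ≤ |s.im| := (le_max_left _ _).trans ht
  have t0 : 0 < |s.im| := one_pos.trans_le t1
  have t2 : max τ1 τ2 ≤ lam * |s.im| := by
    have := (le_max_right _ _).trans ht
    rwa [div_le_iff₀ hl, mul_comm] at this
  have a1 : τ1 ≤ lam * |s.im| := (le_max_left _ _).trans t2
  have a2 : τ2 ≤ lam * |s.im| := (le_max_right _ _).trans t2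
  have lg : Real.log (lam * |s.im|) = Real.log lam + Real.log |s.im| := Real.log_mul hl.ne' t0.ne'
  have hm : (starRingEnd ℂ) mu = mu.re - mu.im * I := by
    apply Complex.ext <;> simp
  have hm' : mu = mu.re + mu.im * I := (re_add_im mu).symm
  have hs' : s = s.re + s.im * I := (re_add_im s).symm
  have nb : ∀ r1 r2 : ℂ, ∀ D1 D2 : ℝ, D1 + D2 = C1 + C2 → ‖r1‖ ≤ D1 / (lam * |s.im|) →
      ‖r2‖ ≤ D2 / (lam * |s.im|) → ‖r1 - r2‖ ≤ (C1 + C2) / lam / |s.im| := fun r1 r2 D1 D2 e b1 b2 => by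
    refine (norm_sub_le _ _).trans ((add_le_add b1 b2).trans (le_of_eq ?_))
    rw [← add_div, e, div_div]
  by_cases hp : 0 < s.im
  · obtain ⟨r1, b1, g1⟩ := h2 _ _ n1 a2
    obtain ⟨r2, b2, g2⟩ := h1 _ _ n2 a1
    refine ⟨r1 - r2, nb r1 r2 C2 C1 (add_comm _ _) b1 b2, ?_⟩
    have ab : |s.im| = s.im := abs_of_pos hp
    have e1 : lam * (1 - s) + (starRingEnd ℂ) mu =
        lam * (1 - s.re) + (starRingEnd ℂ) mu - (lam * |s.im| : ℝ) * I := by
      rw [ab]
      conv_lhs => rw [hs']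
      push_cast
      ring
    have e2 : lam * s + mu = lam * s.re + mu + (lam * |s.im| : ℝ) * I := by
      rw [ab]
      conv_lhs => rw [hs']
      push_cast
      ring
    rw [e1, e2, g1, g2, ← Complex.exp_neg, ← Complex.exp_add, if_pos hp, lg, hm]
    congr 1
    generalize Real.log |s.im| = l
    rw [ab]
    generalize s.im = t at hs'
    generalize s.re = σ at hs'
    generalize mu.im = b at hm'
    generalize mu.re = a at hm'
    subst hs' hm'
    push_cast
    ring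
  · obtain ⟨r1, b1, g1⟩ := h1 _ _ n1 a1
    obtain ⟨r2, b2, g2⟩ := h2 _ _ n2 a2
    refine ⟨r1 - r2, nb r1 r2 C1 C2 rfl b1 b2, ?_⟩
    have ab : |s.im| = -s.im := abs_of_nonpos (not_lt.1 hp)
    have e1 : lam * (1 - s) + (starRingEnd ℂ) mu =
        lam * (1 - s.re) + (starRingEnd ℂ) mu + (lam * |s.im| : ℝ) * I := by
      rw [ab]
      conv_lhs => rw [hs']
      push_cast
      ring
    have e2 : lam * s + mu = lam * s.re + mu - (lam * |s.im| : ℝ) * I := by
      rw [ab]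
      conv_lhs => rw [hs']
      push_cast
      ring
    rw [e1, e2, g1, g2, ← Complex.exp_neg, ← Complex.exp_add, if_neg hp, lg, hm]
    congr 1
    generalize Real.log |s.im| = l
    rw [ab]
    generalize s.im = t at hs'
    generalize s.re = σ at hs'
    generalize mu.im = b at hm'
    generalize mu.re = a at hm'
    subst hs' hm'
    push_cast
    ring

namespace Sel

variable (F : Sel)

theorem vst2_logq : Real.log F.q = 2 * Real.log F.Q + ∑ i, 2 * F.lam i * Real.log (F.lam i) := by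
  rw [q, Real.log_mul (pow_pos F.Q_pos 2).ne'
    (Finset.prod_pos fun i _ => Real.rpow_pos_of_pos (F.lam_pos i) _).ne', Real.log_pow,
    Real.log_prod fun i _ => (Real.rpow_pos_of_pos (F.lam_pos i) _).ne']
  simp only [Real.log_rpow (F.lam_pos _), Nat.cast_ofNat]

/- Multiply `st2_factor` over the factors (`Complex.exp_sum`, `choose`); `om = exp (log om)`,
`Q ^ (1 - 2 s) = exp ((1 / 2 - s) * (2 log Q))`, `log q = 2 log Q + ∑ 2 lam log lam`. -/
theorem chi_asymp : ∃ cp cm : ℂ, ∀ A : ℝ, ∃ C t₀ : ℝ, 0 < C ∧ 1 ≤ t₀ ∧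
    ∀ s : ℂ, |s.re| ≤ A → t₀ ≤ |s.im| → ∃ r : ℂ, ‖r‖ ≤ C / |s.im| ∧
      F.chi s = exp ((if 0 < s.im then cp else cm) + (1 / 2 - s) * (Real.log F.q : ℝ) +
        (F.deg * (1 / 2 - s) - F.th * I) * (Real.log |s.im| : ℝ) + F.deg * s.im * I + r) := by
  choose cp cm h using fun i => st2_factor (F.lam_pos i) (F.mu i)
  refine ⟨log F.om + ∑ i, cp i, log F.om + ∑ i, cm i, fun A => ?_⟩
  choose C t₀ hC ht h using fun i => h i A
  have s1 : 0 ≤ ∑ i, C i := Finset.sum_nonneg fun i _ => (hC i).le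
  have s2 : 0 ≤ ∑ i, t₀ i := Finset.sum_nonneg fun i _ => zero_le_one.trans (ht i)
  refine ⟨1 + ∑ i, C i, 1 + ∑ i, t₀ i, by linarith, by linarith, fun s hs hi => ?_⟩
  have hi' : ∀ i, t₀ i ≤ |s.im| := fun i => by
    have := Finset.single_le_sum (f := t₀) (fun i _ => zero_le_one.trans (ht i)) (Finset.mem_univ i)
    linarith
  choose r hr e using fun i => h i s hs (hi' i)
  have t0 : 0 < |s.im| := by linarith
  refine ⟨∑ i, r i, ?_, ?_⟩
  · refine (norm_sum_le _ _).trans ((Finset.sum_le_sum fun i _ => hr i).trans ?_)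
    rw [← Finset.sum_div]
    gcongr
    linarith
  · have o : F.om ≠ 0 := fun h => by simpa [h] using F.om_norm
    rw [chi, Finset.prod_congr rfl fun i _ => e i, ← Complex.exp_sum, px_cpow _ F.Q_pos, px]
    conv_lhs => rw [← Complex.exp_log o]
    rw [← Complex.exp_add, ← Complex.exp_add, vst2_logq, deg, th]
    congr 1
    simp only [Finset.sum_add_distrib, ← Finset.mul_sum, ← Finset.sum_mul, Finset.sum_sub_distrib]
    push_cast
    split_ifs <;> ring

/- `chi_asymp` for `|im s| ≥ t₀`; otherwise `chi_diff` and compactness (the exponent is not negative). -/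
theorem chi_le_strip (A : ℝ) : ∃ C : ℝ, 0 < C ∧ ∀ s ∈ St (-A) (1 / 2),
    ‖F.chi s‖ ≤ C * (1 + |s.im|) ^ (F.deg * (1 / 2 - s.re)) := by
  obtain ⟨cp, cm, h⟩ := F.chi_asymp
  obtain ⟨C, t₀, hC, ht, h⟩ := h (|A| + 1)
  have hK : IsCompact (Icc (-A) (1 / 2) ×ℂ Icc (-t₀) t₀) := isCompact_Icc.reProdIm isCompact_Icc
  obtain ⟨M, hM⟩ := hK.exists_bound_of_continuousOn (f := F.chi)
    (F.chi_diff.continuousOn.mono fun s hs => by
      have := (mem_reProdIm.1 hs).1.2
      show s.re < 1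
      linarith)
  set E : ℝ := ‖cp‖ + ‖cm‖ + (|A| + 2) * |Real.log F.q| + C with hE
  refine ⟨max M 0 + Real.exp E, by positivity, fun s hs => ?_⟩
  have x0 : 0 ≤ F.deg * (1 / 2 - s.re) := mul_nonneg F.deg_nonneg (sub_nonneg.2 hs.2)
  have j1 : 1 ≤ (1 + |s.im|) ^ (F.deg * (1 / 2 - s.re)) :=
    Real.one_le_rpow (le_add_of_nonneg_right (abs_nonneg _)) x0
  have m0 := le_max_right M 0
  have ep := Real.exp_pos E
  by_cases hi : t₀ ≤ |s.im|
  · have a1 := le_abs_self A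
    have a0 := abs_nonneg A
    have h1 := hs.1
    have h2 := hs.2
    obtain ⟨r, hr, e⟩ := h s (abs_le.2 ⟨by linarith, by linarith⟩) hi
    have t1 : 1 ≤ |s.im| := ht.trans hi
    have b1 : r.re ≤ C := (re_le_norm r).trans (hr.trans (div_le_self hC.le t1))
    have b2 : (if 0 < s.im then cp else cm).re ≤ ‖cp‖ + ‖cm‖ := by
      have := re_le_norm cp
      have := re_le_norm cm
      have := norm_nonneg cp
      have := norm_nonneg cm
      split_ifs <;> linarith
    have b3 : (1 / 2 - s.re) * Real.log F.q ≤ (|A| + 2) * |Real.log F.q| := by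
      refine (mul_le_mul_of_nonneg_left (le_abs_self _) (by linarith)).trans ?_
      gcongr
      linarith
    have b4 : |s.im| ^ (F.deg * (1 / 2 - s.re)) ≤ (1 + |s.im|) ^ (F.deg * (1 / 2 - s.re)) :=
      Real.rpow_le_rpow (abs_nonneg _) (by linarith) x0
    rw [Real.rpow_def_of_pos (by linarith)] at b4
    rw [e, Complex.norm_exp]
    have e2 : ((if 0 < s.im then cp else cm) + (1 / 2 - s) * (Real.log F.q : ℝ) +
        (F.deg * (1 / 2 - s) - F.th * I) * (Real.log |s.im| : ℝ) + F.deg * s.im * I + r).re =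
        (if 0 < s.im then cp else cm).re + (1 / 2 - s.re) * Real.log F.q + r.re +
          Real.log |s.im| * (F.deg * (1 / 2 - s.re)) := by
      generalize Real.log |s.im| = l
      generalize Real.log F.q = l'
      generalize (if 0 < s.im then cp else cm) = c
      simp
      ring
    rw [e2, Real.exp_add]
    refine mul_le_mul ?_ b4 (Real.exp_pos _).le (by positivity)
    have : Real.exp ((if 0 < s.im then cp else cm).re + (1 / 2 - s.re) * Real.log F.q + r.re) ≤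
        Real.exp E := Real.exp_le_exp.2 (by linarith)
    linarith
  · have := hM s (mem_reProdIm.2 ⟨hs, abs_le.1 (not_le.1 hi).le⟩)
    have m1 := le_max_left M 0
    nlinarith

end Sel

end Pool.Agent.Lib.MP_2a1a00_nt
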