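import Pool.Agent.Lib.MP_2a1a00_nt.V.B2
import Pool.Agent.Lib.MP_2a1a00_nt.X

/-! The primitive of the difference of two smoothings. -/

namespace Pool.Agent.Lib.MP_2a1a00_nt

open Complex MeasureTheory Set

theorem vb4_cdf_cont {W : ℝ} (hW : 0 < W) : Continuous (cdf W) :=
  continuous_iff_continuousAt.2 fun u => (cdf_deriv hW u).continuousAt

theorem vb4_cdf_le {V W : ℝ} (hW : 0 < W) (hV : W ≤ V) (u : ℝ) :
    |cdf V u - cdf W u| ≤ 2 * Real.exp (-(W * u) ^ 2 / 4) := by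
  have h1 := cdf_le hW u
  have h2 := cdf_le (hW.trans_le hV) u
  have h3 : Real.exp (-(V * u) ^ 2 / 4) ≤ Real.exp (-(W * u) ^ 2 / 4) := by
    refine Real.exp_le_exp.2 ?_
    have h4 : W ^ 2 ≤ V ^ 2 := pow_le_pow_left₀ hW.le hV 2
    have h5 := mul_le_mul_of_nonneg_right h4 (sq_nonneg u)
    rw [mul_pow, mul_pow]
    linarith
  obtain ⟨h4, h5⟩ := abs_le.1 h1
  obtain ⟨h6, h7⟩ := abs_le.1 h2
  exact abs_le.2 ⟨by linarith, by linarith⟩

theorem vb4_ball {s : ℂ} (hs : s ∈ Metric.closedBall (1 : ℂ) (1 / 2)) :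
    1 / 2 ≤ ‖s‖ ∧ ‖s‖ ≤ 3 / 2 := by
  have h := mem_closedBall_iff_norm.1 hs
  have h1 := abs_le.1 ((abs_norm_sub_norm_le s 1).trans h)
  rw [norm_one] at h1
  constructor <;> linarith [h1.1, h1.2]

theorem vb4_ne {s : ℂ} (hs : s ∈ Metric.closedBall (1 : ℂ) (1 / 2)) : s ≠ 0 := by
  intro h
  have h1 := (vb4_ball hs).1
  rw [h, norm_zero] at h1
  linarith

theorem vb4_h_le {V W : ℝ} (hW : 1 ≤ W) (hV : W ≤ V) {s : ℂ}
    (hs : s ∈ Metric.closedBall (1 : ℂ) (1 / 2)) :
    ‖(gW V s - gW W s) / s‖ ≤ 3 * Real.exp 4 / W ^ 2 := by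
  obtain ⟨h1, h2⟩ := vb4_ball hs
  have h3 : |s.re| ≤ 2 := (abs_re_le_norm s).trans (by linarith)
  have h4 := gW_sub hW h3
  have h5 := gW_sub (hW.trans hV) h3
  have hW0 : 0 < W := by linarith
  have h6 : ‖s‖ ^ 2 / V ^ 2 ≤ ‖s‖ ^ 2 / W ^ 2 :=
    div_le_div_of_nonneg_left (sq_nonneg _) (by positivity) (pow_le_pow_left₀ hW0.le hV 2)
  have h7 := mul_le_mul_of_nonneg_left h6 (Real.exp_pos 4).le
  have h8 : ‖gW V s - gW W s‖ ≤ 2 * (Real.exp 4 * (‖s‖ ^ 2 / W ^ 2)) := by
    have h9 := norm_sub_le (gW V s - 1) (gW W s - 1)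
    rw [sub_sub_sub_cancel_right] at h9
    linarith
  rw [norm_div, div_le_iff₀ (by linarith)]
  refine h8.trans ?_
  have h9 : 0 ≤ Real.exp 4 / W ^ 2 * ‖s‖ := by positivity
  have h10 := mul_le_mul_of_nonneg_left h2 h9
  calc 2 * (Real.exp 4 * (‖s‖ ^ 2 / W ^ 2)) = 2 * (Real.exp 4 / W ^ 2 * ‖s‖ * ‖s‖) := by ring
    _ ≤ 2 * (Real.exp 4 / W ^ 2 * ‖s‖ * (3 / 2)) := by linarith
    _ = _ := by ring

theorem vb4_h_diff (V W : ℝ) :
    DifferentiableOn ℂ (fun s => (gW V s - gW W s) / s) (Metric.closedBall 1 (1 / 2)) :=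
  ((differentiable_gW V).sub (differentiable_gW W)).differentiableOn.div differentiableOn_id
    fun _ hs => vb4_ne hs

namespace Sel

variable (F : Sel)

theorem vb4_ser {V W x : ℝ} (hW : 0 < W) (hV : 0 < V) (hx : 0 < x) :
    HasSum (fun n : ℕ => F.f0 n *
      ((cdf V (Real.log x - Real.log n) - cdf W (Real.log x - Real.log n) : ℝ) : ℂ))
      (F.B V x - F.B W x + F.res fun s => (x : ℂ) ^ s * ((gW V s - gW W s) / s)) := by
  have hc : ∀ U : ℝ, ContinuousOn (fun s : ℂ => (x : ℂ) ^ s * (gW U s / s))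
      (Metric.sphere 1 (1 / 2)) := fun U =>
    (continuousOn_id.const_cpow (Or.inl (ofReal_ne_zero.2 hx.ne'))).mul
      ((differentiable_gW U).continuous.continuousOn.div continuousOn_id
        fun s hs => vb4_ne (Metric.sphere_subset_closedBall hs))
  have h1 := F.res_add 1 (-1) (hc V) (hc W)
  have h2 : F.res (fun s => (x : ℂ) ^ s * ((gW V s - gW W s) / s)) =
      F.res fun s => 1 * ((x : ℂ) ^ s * (gW V s / s)) + -1 * ((x : ℂ) ^ s * (gW W s / s)) :=
    F.res_congr fun s _ => by ring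
  have h3 := (F.B_ser hV hx).sub (F.B_ser hW hx)
  rw [h2, h1]
  convert h3 using 1
  · rfl
  · funext n
    push_cast
    ring
  · ring

theorem vb4_res {ε : ℝ} (hε : 0 < ε) : ∃ C : ℝ, 0 < C ∧ ∀ T W : ℝ, 1 ≤ W → W ≤ T →
    ∀ y ∈ Icc T (2 * T),
      ‖∫ x in T..y, (F.res fun s => (x : ℂ) ^ s * ((gW T s - gW W s) / s)) / x‖ ≤
        C * T ^ ε * (T / W ^ 2) := by
  obtain ⟨C, hC, h⟩ := F.res_le hε
  refine ⟨C * 2 ^ ε * (3 * Real.exp 4), by positivity, fun T W hW hT y hy => ?_⟩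
  have hT1 : 1 ≤ T := hW.trans hT
  have hT0 : 0 < T := by linarith
  have hW0 : 0 < W := by linarith
  have h1 : ∀ x ∈ uIoc T y, ‖(F.res fun s => (x : ℂ) ^ s * ((gW T s - gW W s) / s)) / x‖ ≤
      C * 2 ^ ε * T ^ ε * (3 * Real.exp 4 / W ^ 2) := by
    intro x hx
    rw [uIoc_of_le hy.1] at hx
    have hx0 : 0 < x := hT0.trans hx.1
    have h2 := h x _ _ (hT1.trans hx.1.le) (vb4_h_diff T W) fun s hs => vb4_h_le hW hT hs
    have h3 : x ^ ε ≤ 2 ^ ε * T ^ ε := by
      rw [← Real.mul_rpow zero_le_two hT0.le]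
      exact Real.rpow_le_rpow hx0.le (hx.2.trans hy.2) hε.le
    rw [norm_div, norm_real, Real.norm_of_nonneg hx0.le, div_le_iff₀ hx0]
    refine h2.trans ?_
    rw [Real.rpow_add hx0, Real.rpow_one]
    have h4 : 0 ≤ C * x * (3 * Real.exp 4 / W ^ 2) := by positivity
    have h5 := mul_le_mul_of_nonneg_left h3 h4
    linarith
  refine (intervalIntegral.norm_integral_le_of_norm_le_const h1).trans ?_
  have h2 : |y - T| ≤ T := abs_le.2 ⟨by linarith [hy.1], by linarith [hy.2]⟩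
  refine (mul_le_mul_of_nonneg_left h2 (by positivity)).trans (le_of_eq ?_)
  ring

theorem vb4_sum {ε : ℝ} (hε : 0 < ε) {T W y : ℝ} (hW : 1 ≤ W) (hT : W ≤ T)
    (hy : y ∈ Icc T (2 * T)) :
    HasSum (fun n : ℕ => F.f0 n * ((∫ u in Real.log T - Real.log n..Real.log y - Real.log n,
      (cdf T u - cdf W u) : ℝ) : ℂ))
      (∫ x in T..y, x⁻¹ •
        (F.B T x - F.B W x + F.res fun s => (x : ℂ) ^ s * ((gW T s - gW W s) / s))) := by
  obtain ⟨C, hC, hf⟩ := F.f0_le hε
  obtain ⟨C', -, hg⟩ := gs hε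
  have hT1 : 1 ≤ T := hW.trans hT
  have hT0 : 0 < T := by linarith
  have hW0 : 0 < W := by linarith
  have hψ : ∀ n : ℕ, Continuous fun u : ℝ => F.f0 n *
      ((cdf T (u - Real.log n) - cdf W (u - Real.log n) : ℝ) : ℂ) := fun n =>
    continuous_const.mul (continuous_ofReal.comp
      (((vb4_cdf_cont hT0).comp (continuous_id.sub continuous_const)).sub
        ((vb4_cdf_cont hW0).comp (continuous_id.sub continuous_const))))
  have hb : Summable fun n : ℕ => 2 * C * ((n : ℝ) ^ ε *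
      Real.exp (-(W * (Real.log (2 * T) - Real.log n)) ^ 2 / 4) +
        if n ∈ Finset.range ⌈2 * T⌉₊ then (n : ℝ) ^ ε else 0) := by
    refine ((hg W (2 * T) hW (by linarith)).1.add ?_).mul_left _
    exact summable_of_ne_finset_zero (s := Finset.range ⌈2 * T⌉₊) fun n hn => if_neg hn
  have key := intervalIntegral.hasSum_integral_of_dominated_convergence (μ := volume)
    (a := T) (b := y)
    (F := fun (n : ℕ) (x : ℝ) => x⁻¹ • (F.f0 n *
      ((cdf T (Real.log x - Real.log n) - cdf W (Real.log x - Real.log n) : ℝ) : ℂ)))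
    (f := fun x : ℝ => x⁻¹ •
      (F.B T x - F.B W x + F.res fun s => (x : ℂ) ^ s * ((gW T s - gW W s) / s)))
    (fun (n : ℕ) (_ : ℝ) => 2 * C * ((n : ℝ) ^ ε *
      Real.exp (-(W * (Real.log (2 * T) - Real.log n)) ^ 2 / 4) +
        if n ∈ Finset.range ⌈2 * T⌉₊ then (n : ℝ) ^ ε else 0))
    (fun n => by
      rw [uIoc_of_le hy.1]
      exact ((x_cont (hψ n) hT0).mono Ioc_subset_Icc_self).aestronglyMeasurable measurableSet_Ioc)
    (fun n => Filter.Eventually.of_forall fun x hx => ?_)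
    (Filter.Eventually.of_forall fun _ _ => hb) intervalIntegrable_const
    (Filter.Eventually.of_forall fun x hx => by
      rw [uIoc_of_le hy.1] at hx
      exact (F.vb4_ser hW0 hT0 (hT0.trans hx.1)).const_smul _)
  · convert key using 1
    · rfl
    funext n
    rw [x_sub (hψ n) hT0 hy.1, intervalIntegral.integral_const_mul,
      intervalIntegral.integral_ofReal,
      intervalIntegral.integral_comp_sub_right (fun u => cdf T u - cdf W u)]
  · rw [uIoc_of_le hy.1] at hx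
    have hx0 : 0 < x := hT0.trans hx.1
    have h1 : x⁻¹ ≤ 1 := inv_le_one_of_one_le₀ (hT1.trans hx.1.le)
    have h2 := vb4_cdf_le hW0 hT (Real.log x - Real.log n)
    have hn : 0 ≤ (n : ℝ) ^ ε := by positivity
    have h3 : (n : ℝ) ^ ε * Real.exp (-(W * (Real.log x - Real.log n)) ^ 2 / 4) ≤
        (n : ℝ) ^ ε * Real.exp (-(W * (Real.log (2 * T) - Real.log n)) ^ 2 / 4) +
          if n ∈ Finset.range ⌈2 * T⌉₊ then (n : ℝ) ^ ε else 0 := by
      split_ifs with h
      · have h4 : Real.exp (-(W * (Real.log x - Real.log n)) ^ 2 / 4) ≤ 1 :=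
          Real.exp_le_one_iff.2 (by linarith [sq_nonneg (W * (Real.log x - Real.log n))])
        have h5 := mul_le_of_le_one_right hn h4
        have h6 : 0 ≤ (n : ℝ) ^ ε *
          Real.exp (-(W * (Real.log (2 * T) - Real.log n)) ^ 2 / 4) := by positivity
        linarith
      · rw [add_zero]
        refine mul_le_mul_of_nonneg_left (Real.exp_le_exp.2 ?_) hn
        have h4 : 2 * T ≤ n := Nat.ceil_le.1 (not_lt.1 fun h' => h (Finset.mem_range.2 h'))
        have h5 := Real.log_le_log (by linarith) h4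
        have h6 := Real.log_le_log hx0 (hx.2.trans hy.2)
        have h7 : (Real.log (2 * T) - Real.log n) ^ 2 ≤ (Real.log x - Real.log n) ^ 2 := by
          nlinarith
        have h8 := mul_le_mul_of_nonneg_left h7 (sq_nonneg W)
        rw [mul_pow, mul_pow]
        linarith
    rw [norm_smul, norm_mul, norm_real, Real.norm_of_nonneg (inv_pos.2 hx0).le, Real.norm_eq_abs]
    refine (mul_le_of_le_one_left (by positivity) h1).trans ?_
    refine (mul_le_mul (hf n) h2 (abs_nonneg _) (by positivity)).trans ?_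
    have h4 := mul_le_mul_of_nonneg_left h3 (show 0 ≤ 2 * C by linarith)
    linarith

/- By `B_ser`, `(B T x - B W x) / x` is the sum of `f0 n * (cdf T u - cdf W u) / x`, `u = log x - log n`,
minus `res (x ^ s * ((gW T s - gW W s) / s)) / x`, which is at most `C * T ^ ε / W ^ 2` (`res_add`, `res_le`,
`gW_sub` twice).  Integrate the series termwise (`intervalIntegral.hasSum_integral_of_summable_norm`, or
`hasSum_integral_of_summable_integral_norm`; for `x ∈ [T, 2 T]` and `n ≥ 4 T` the terms are bounded through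
`cdf_le` by `2 * C * n ^ ε * exp (-(W * (log (2 T) - log n)) ^ 2 / 4)`), substitute `u = log x` (`x_sub`),
and use `cdf_prim` and `gs` at `x = T` and `x = y`; `1 / W ≤ T / W ^ 2`. -/
theorem B_prim {ε : ℝ} (hε : 0 < ε) : ∃ C : ℝ, 0 < C ∧ ∀ T W : ℝ, 1 ≤ W → W ≤ T →
    ∀ y ∈ Icc T (2 * T), ‖∫ x in T..y, (F.B T x - F.B W x) / x‖ ≤ C * T ^ ε * (T / W ^ 2) := by
  obtain ⟨C₁, hC₁, h₁⟩ := F.vb4_res hε
  obtain ⟨C, hC, hf⟩ := F.f0_le hε
  obtain ⟨C', hC', hg⟩ := gs hε
  have hC0 : 0 < C := by linarith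
  refine ⟨4 * C * C' * (2 + 3 * 2 ^ ε) + C₁, by positivity, fun T W hW hT y hy => ?_⟩
  have hT1 : 1 ≤ T := hW.trans hT
  have hT0 : 0 < T := by linarith
  have hW0 : 0 < W := by linarith
  have hy1 : 1 ≤ y := hT1.trans hy.1
  have hpos : Icc T y ⊆ Ioi 0 := fun x hx => hT0.trans_le hx.1
  have hne : ∀ x ∈ Icc T y, (x : ℂ) ≠ 0 := fun x hx => ofReal_ne_zero.2 (ne_of_gt (hpos hx))
  have hR : ContinuousOn (fun x : ℝ => F.res fun s => (x : ℂ) ^ s * ((gW T s - gW W s) / s))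
      (Icc T y) := fun x hx =>
    (F.res_deriv ((vb4_h_diff T W).continuousOn.mono Metric.sphere_subset_closedBall)
      (hpos hx)).continuousAt.continuousWithinAt
  have hB : ContinuousOn (fun x => F.B T x - F.B W x) (Icc T y) :=
    ((F.B_cont hT0).mono hpos).sub ((F.B_cont hW0).mono hpos)
  have i1 := (hB.div continuous_ofReal.continuousOn hne).intervalIntegrable_of_Icc
    (μ := volume) hy.1
  have i2 := (hR.div continuous_ofReal.continuousOn hne).intervalIntegrable_of_Icc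
    (μ := volume) hy.1
  have e : ∫ x in T..y, (F.B T x - F.B W x) / x = (∫ x in T..y, x⁻¹ •
      (F.B T x - F.B W x + F.res fun s => (x : ℂ) ^ s * ((gW T s - gW W s) / s))) -
      ∫ x in T..y, (F.res fun s => (x : ℂ) ^ s * ((gW T s - gW W s) / s)) / x := by
    rw [eq_sub_iff_add_eq]
    refine (intervalIntegral.integral_add i1 i2).symm.trans
      (intervalIntegral.integral_congr fun x _ => ?_)
    simp only [Pi.div_apply, real_smul, ofReal_inv]
    ring
  obtain ⟨s1, b1⟩ := hg W T hW hT1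
  obtain ⟨s2, b2⟩ := hg W y hW hy1
  have h2 := (F.vb4_sum hε hW hT hy).norm_le_of_bounded
    ((s1.hasSum.add s2.hasSum).mul_left (4 * C / W)) fun n => by
      rw [norm_mul, norm_real, Real.norm_eq_abs]
      refine (mul_le_mul (hf n) (cdf_prim hW0 hT _ _) (abs_nonneg _) (by positivity)).trans
        (le_of_eq ?_)
      ring
  have h3 : y ^ ε ≤ 2 ^ ε * T ^ ε := by
    rw [← Real.mul_rpow zero_le_two hT0.le]
    exact Real.rpow_le_rpow (by linarith) hy.2 hε.le
  have h4 : 1 ≤ T / W := (one_le_div hW0).2 hT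
  have h5 : y / W ≤ 2 * (T / W) := by
    rw [← mul_div_assoc]
    exact div_le_div_of_nonneg_right hy.2 hW0.le
  have h6 : C' * T ^ ε * (T / W + 1) ≤ C' * T ^ ε * (2 * (T / W)) :=
    mul_le_mul_of_nonneg_left (by linarith) (by positivity)
  have h7 : C' * y ^ ε * (y / W + 1) ≤ C' * (2 ^ ε * T ^ ε) * (3 * (T / W)) :=
    mul_le_mul (mul_le_mul_of_nonneg_left h3 hC'.le) (by linarith) (by positivity) (by positivity)
  have h8 := h2.trans (mul_le_mul_of_nonneg_left (add_le_add (b1.trans h6) (b2.trans h7))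
    (by positivity))
  rw [e]
  refine (norm_sub_le _ _).trans ((add_le_add h8 (h₁ T W hW hT y hy)).trans (le_of_eq ?_))
  ring

end Sel

end Pool.Agent.Lib.MP_2a1a00_nt
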