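import Pool.Agent.Lib.MP_2a1a00_nt.V.HZ
import Pool.Agent.Lib.MP_2a1a00_nt.V.H1

/-! Large values of the Voronoi series in degree two. -/

namespace Pool.Agent.Lib.MP_2a1a00_nt

open Complex MeasureTheory Set

/- The points lie in an interval of length `7 T / 2` with mutual distances at least `y / 2 ≥ 1 / 2`: the map
`x ↦ ⌊2 x⌋₊` is injective on `X` with values at most `8 T`. -/
theorem c4_card {X : Finset ℝ} {T y z : ℝ} (hT : 1 ≤ T) (hy : 1 ≤ y)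
    (h1 : ∀ x ∈ X, x ∈ Icc (T / 2) (4 * T)) (h2 : Sep X (y / 2) z) : (X.card : ℝ) ≤ 9 * T := by
  have hc : X.card ≤ (Finset.range (⌊8 * T⌋₊ + 1)).card := by
    refine Finset.card_le_card_of_injOn (fun x => ⌊2 * x⌋₊) (fun x hx => ?_) ?_
    · have h3 := (h1 x hx).2
      simp only [Finset.coe_range, mem_Iio]
      exact Nat.lt_succ_of_le (Nat.floor_le_floor (by linarith))
    · intro x hx x' hx' he
      by_contra hne
      have h3 := (h2 x hx x' hx' hne).1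
      have h4 := (h1 x hx).1
      have h5 := (h1 x' hx').1
      have he' : ⌊2 * x⌋₊ = ⌊2 * x'⌋₊ := he
      have a1 := Nat.floor_le (show (0 : ℝ) ≤ 2 * x by linarith)
      have a2 := Nat.lt_floor_add_one (2 * x)
      have a3 := Nat.floor_le (show (0 : ℝ) ≤ 2 * x' by linarith)
      have a4 := Nat.lt_floor_add_one (2 * x')
      rw [he'] at a1 a2
      have h6 : |x - x'| < 1 / 2 := abs_lt.2 ⟨by linarith, by linarith⟩
      linarith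
  rw [Finset.card_range] at hc
  have h7 : (X.card : ℝ) ≤ (⌊8 * T⌋₊ : ℝ) + 1 := by exact_mod_cast hc
  have h8 := Nat.floor_le (show (0 : ℝ) ≤ 8 * T by linarith)
  linarith

theorem vc4_t4 {T : ℝ} (hT : 0 ≤ T) : (T ^ (1 / 4 : ℝ)) ^ 4 = T := by
  rw [← Real.rpow_natCast, ← Real.rpow_mul hT]
  norm_num

theorem vc4_q4 {a : ℝ} (ha : 0 ≤ a) : (a ^ 4) ^ (1 / 4 : ℝ) = a := by
  rw [← Real.rpow_natCast, ← Real.rpow_mul ha]
  norm_num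

theorem vc4_t1 {T N g y : ℝ} (hT : 0 ≤ T) (hg : 1 ≤ g) (hy : 0 < y) (hN : N ≤ T * g / y ^ 2) :
    √T * √N ≤ g * (T / y) := by
  rw [← Real.sqrt_mul hT]
  refine Real.sqrt_le_iff.2 ⟨by positivity, ?_⟩
  calc T * N ≤ T * (T * g / y ^ 2) := mul_le_mul_of_nonneg_left hN hT
    _ = g * (T / y) ^ 2 := by ring
    _ ≤ g ^ 2 * (T / y) ^ 2 := mul_le_mul_of_nonneg_right (le_self_pow₀ hg two_ne_zero) (by positivity)
    _ = _ := by ring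

theorem vc4_t3 {t y m : ℝ} (ht : 0 < t) (hy : 0 < y) (hm : y ^ 4 / t ^ 4 ≤ m) :
    t ^ 2 * (√(2 * (y ^ 6 / t ^ 4) / t ^ 2) * m ^ (-1 / 4 : ℝ)) ≤ 2 * y ^ 2 := by
  have h1 : √(2 * (y ^ 6 / t ^ 4) / t ^ 2) ≤ 2 * (y ^ 3 / t ^ 3) := by
    refine Real.sqrt_le_iff.2 ⟨by positivity, ?_⟩
    have : 2 * (y ^ 6 / t ^ 4) / t ^ 2 = 2 * (y ^ 3 / t ^ 3) ^ 2 := by field_simp
    rw [this, mul_pow]
    exact mul_le_mul_of_nonneg_right (by norm_num) (by positivity)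
  have h2 : m ^ (-1 / 4 : ℝ) ≤ t / y := by
    refine (Real.rpow_le_rpow_of_nonpos (by positivity) hm (by norm_num)).trans (le_of_eq ?_)
    rw [← div_pow, show (-1 / 4 : ℝ) = -(1 / 4) by norm_num, Real.rpow_neg (by positivity),
      vc4_q4 (by positivity), inv_div]
  have hm0 : 0 < m := lt_of_lt_of_le (by positivity) hm
  calc t ^ 2 * (√(2 * (y ^ 6 / t ^ 4) / t ^ 2) * m ^ (-1 / 4 : ℝ))
      ≤ t ^ 2 * (2 * (y ^ 3 / t ^ 3) * (t / y)) :=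
        mul_le_mul_of_nonneg_left (mul_le_mul h1 h2 (by positivity) (by positivity)) (by positivity)
    _ = 2 * y ^ 2 := by field_simp

theorem vc4_tail {κ : ℝ} (hκ : κ ≠ 0) {δ : ℝ} (hδ : 0 < δ) (hδ1 : δ ≤ 1) {c : ℕ → ℂ} {C₂ : ℝ}
    (hC₂ : 0 < C₂) (hc : ∀ n : ℕ, 1 ≤ n → ‖c n‖ ≤ C₂ * (n : ℝ) ^ (1 / 4 - 1 + δ)) :
    ∃ D : ℝ, 0 < D ∧ ∀ (T y : ℝ) (M N : ℕ) (X : Finset ℝ), 1 ≤ T → T ^ (1 / 4 : ℝ) ≤ y → 1 ≤ N →
      (N : ℝ) ≤ T ^ (1 + δ) / y ^ 2 → y ^ 4 / T ≤ M + 1 → (∀ x ∈ X, x ∈ Icc (T / 2) (4 * T)) →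
      Sep X (y / 2) (2 * (y ^ 6 / T)) →
      T ^ (1 / 4 : ℝ) * ∑ x ∈ X, ‖ts 2 κ c M N x‖ ≤
        D * (T ^ δ) ^ 5 * (X.card * y + √(X.card * T / y)) := by
  obtain ⟨Cz, hCz, hz⟩ := hz hκ
  obtain ⟨C₃, hC₃, hl⟩ := log_le_rpow hδ
  refine ⟨√(Cz * (3 + 18 * C₃)) * C₂ * C₃, by positivity, ?_⟩
  intro T y M N X hT hy hN1 hN hM hX hS
  rcases X.eq_empty_or_nonempty with rfl | hne
  · simp
  have hT0 : 0 < T := by linarith
  have hR1 : (1 : ℝ) ≤ X.card := by exact_mod_cast hne.card_pos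
  have hN1' : (1 : ℝ) ≤ N := by exact_mod_cast hN1
  have ht1 : 1 ≤ T ^ (1 / 4 : ℝ) := Real.one_le_rpow hT (by norm_num)
  have hy1 : 1 ≤ y := ht1.trans hy
  have hy0 : 0 < y := by linarith
  have hg1 : 1 ≤ T ^ δ := Real.one_le_rpow hT hδ.le
  have hgT : T ^ δ ≤ T := by
    simpa using Real.rpow_le_rpow_of_exponent_le hT hδ1
  rw [Real.rpow_add hT0, Real.rpow_one] at hN
  have hR9 := c4_card hT hy1 hX hS
  have hNd : (N : ℝ) ^ δ ≤ (T ^ δ) ^ 2 := by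
    have h1 : (N : ℝ) ≤ T * T := by
      refine hN.trans ((div_le_self (by positivity) (one_le_pow₀ hy1)).trans ?_)
      exact mul_le_mul_of_nonneg_left hgT hT0.le
    calc (N : ℝ) ^ δ ≤ (T * T) ^ δ := Real.rpow_le_rpow (by positivity) h1 hδ.le
      _ = _ := by rw [Real.mul_rpow hT0.le hT0.le, sq]
  have hRd : (X.card : ℝ) ^ δ ≤ 9 * T ^ δ := by
    calc (X.card : ℝ) ^ δ ≤ (9 * T) ^ δ := Real.rpow_le_rpow (by positivity) hR9 hδ.le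
      _ = 9 ^ δ * T ^ δ := Real.mul_rpow (by norm_num) hT0.le
      _ ≤ 9 * T ^ δ := by
        refine mul_le_mul_of_nonneg_right ?_ (by positivity)
        simpa using Real.rpow_le_rpow_of_exponent_le (show (1 : ℝ) ≤ 9 by norm_num) hδ1
  have hK : ∀ n ∈ Finset.Ioc M N, ‖c n‖ ≤ C₂ * (T ^ δ) ^ 2 * (n : ℝ) ^ (-3 / 4 : ℝ) := by
    intro n hn
    obtain ⟨h1, h2⟩ := Finset.mem_Ioc.1 hn
    have hn1 : 1 ≤ n := by omega
    have hn0 : (0 : ℝ) < n := by exact_mod_cast hn1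
    refine (hc n hn1).trans ?_
    rw [show (1 / 4 - 1 + δ : ℝ) = δ + -3 / 4 by ring, Real.rpow_add hn0, ← mul_assoc]
    refine mul_le_mul_of_nonneg_right (mul_le_mul_of_nonneg_left ?_ hC₂.le) (by positivity)
    exact (Real.rpow_le_rpow hn0.le (by exact_mod_cast h2) hδ.le).trans hNd
  have H := hz c M N _ T (y / 2) (2 * (y ^ 6 / T)) X hT (by positivity) (by positivity) hX hS hK
  have hlN : 1 + Real.log N ≤ C₃ * (T ^ δ) ^ 2 :=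
    (hl _ hN1').trans (mul_le_mul_of_nonneg_left hNd hC₃.le)
  have hlN0 : 0 ≤ 1 + Real.log N := by linarith [Real.log_nonneg hN1']
  have hlR : 1 + Real.log X.card ≤ C₃ * (9 * T ^ δ) :=
    (hl _ hR1).trans (mul_le_mul_of_nonneg_left hRd hC₃.le)
  have hlR0 : 0 ≤ 1 + Real.log X.card := by linarith [Real.log_nonneg hR1]
  have e1 := vc4_t1 hT0.le hg1 hy0 hN
  have ht4 := vc4_t4 hT0.le
  generalize T ^ δ = g at *
  generalize T ^ (1 / 4 : ℝ) = t at *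
  generalize (X.card : ℝ) = R at *
  generalize 1 + Real.log R = lR at *
  generalize 1 + Real.log (N : ℝ) = lN at *
  generalize ∑ x ∈ X, ‖ts 2 κ c M N x‖ = S at *
  have ht0 : 0 < t := by linarith
  have hsq : √T = t ^ 2 := by
    rw [← ht4, show t ^ 4 = (t ^ 2) ^ 2 by ring, Real.sqrt_sq (by positivity)]
  have e3 : t ^ 2 * (√(2 * (y ^ 6 / T) / t ^ 2) * ((M : ℝ) + 1) ^ (-1 / 4 : ℝ)) ≤ 2 * y ^ 2 := by
    rw [← ht4] at hM ⊢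
    exact vc4_t3 ht0 hy0 hM
  rw [hsq] at H e1
  have hA : 0 ≤ R * T / y := by positivity
  have hAs := Real.sq_sqrt hA
  have hA0 := Real.sqrt_nonneg (R * T / y)
  have hR0 : 0 < R := by linarith
  have hg0 : 0 < g := by linarith
  have e4 : t ^ 2 * (R * √(N : ℝ) + R * lR * t ^ 2 / (y / 2) +
      R ^ 2 * √(2 * (y ^ 6 / T) / t ^ 2) * ((M : ℝ) + 1) ^ (-1 / 4 : ℝ)) ≤
      (3 + 18 * C₃) * g ^ 2 * (R * y + √(R * T / y)) ^ 2 := by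
    have f1 : t ^ 2 * (R * √(N : ℝ)) ≤ g * (R * T / y) := by
      calc t ^ 2 * (R * √(N : ℝ)) = R * (t ^ 2 * √(N : ℝ)) := by ring
        _ ≤ R * (g * (T / y)) := mul_le_mul_of_nonneg_left e1 hR0.le
        _ = _ := by ring
    have f2 : t ^ 2 * (R * lR * t ^ 2 / (y / 2)) ≤ 18 * C₃ * g * (R * T / y) := by
      calc t ^ 2 * (R * lR * t ^ 2 / (y / 2)) = lR * (2 * (R * t ^ 4 / y)) := by field_simp
        _ ≤ C₃ * (9 * g) * (2 * (R * t ^ 4 / y)) := mul_le_mul_of_nonneg_right hlR (by positivity)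
        _ = _ := by rw [ht4]; ring
    have f3 : t ^ 2 * (R ^ 2 * √(2 * (y ^ 6 / T) / t ^ 2) * ((M : ℝ) + 1) ^ (-1 / 4 : ℝ)) ≤
        2 * (R * y) ^ 2 := by
      calc _ = R ^ 2 * (t ^ 2 * (√(2 * (y ^ 6 / T) / t ^ 2) * ((M : ℝ) + 1) ^ (-1 / 4 : ℝ))) := by
            ring
        _ ≤ R ^ 2 * (2 * y ^ 2) := mul_le_mul_of_nonneg_left e3 (by positivity)
        _ = _ := by ring
    have hB : 0 ≤ R * y := by positivity
    have k1 : R * T / y ≤ (R * y + √(R * T / y)) ^ 2 :=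
      hAs.ge.trans (pow_le_pow_left₀ hA0 (le_add_of_nonneg_left hB) 2)
    have k2 : (R * y) ^ 2 ≤ (R * y + √(R * T / y)) ^ 2 :=
      pow_le_pow_left₀ hB (le_add_of_nonneg_right hA0) 2
    generalize (R * y + √(R * T / y)) ^ 2 = Q at *
    have hQ : 0 ≤ Q := hA.trans k1
    have hgg : g ≤ g ^ 2 := le_self_pow₀ hg1 two_ne_zero
    have hg2 : 1 ≤ g ^ 2 := hg1.trans hgg
    have k3 : g * (R * T / y) ≤ g ^ 2 * Q := mul_le_mul hgg k1 hA (by positivity)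
    have k4 : (R * y) ^ 2 ≤ g ^ 2 * Q := k2.trans (le_mul_of_one_le_left hQ hg2)
    have k5 : 18 * C₃ * g * (R * T / y) ≤ 18 * C₃ * (g ^ 2 * Q) := by
      rw [mul_assoc (18 * C₃)]
      exact mul_le_mul_of_nonneg_left k3 (by positivity)
    rw [mul_add, mul_add]
    linarith
  refine abs_le_of_sq_le_sq' ?_ (by positivity) |>.2
  have hZ : 0 ≤ Cz * (3 + 18 * C₃) := by positivity
  calc (t * S) ^ 2 = t ^ 2 * S ^ 2 := mul_pow _ _ _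
    _ ≤ t ^ 2 * (Cz * (C₂ * g ^ 2) ^ 2 * lN ^ 2 * (R * √(N : ℝ) + R * lR * t ^ 2 / (y / 2) +
      R ^ 2 * √(2 * (y ^ 6 / T) / t ^ 2) * ((M : ℝ) + 1) ^ (-1 / 4 : ℝ))) :=
        mul_le_mul_of_nonneg_left H (by positivity)
    _ = Cz * (C₂ * g ^ 2) ^ 2 * lN ^ 2 * (t ^ 2 * (R * √(N : ℝ) + R * lR * t ^ 2 / (y / 2) +
      R ^ 2 * √(2 * (y ^ 6 / T) / t ^ 2) * ((M : ℝ) + 1) ^ (-1 / 4 : ℝ))) := by ring
    _ ≤ Cz * (C₂ * g ^ 2) ^ 2 * (C₃ * g ^ 2) ^ 2 *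
        ((3 + 18 * C₃) * g ^ 2 * (R * y + √(R * T / y)) ^ 2) :=
        mul_le_mul (mul_le_mul_of_nonneg_left (pow_le_pow_left₀ hlN0 hlN 2) (by positivity)) e4
          (by positivity) (by positivity)
    _ = (Cz * (3 + 18 * C₃)) * (C₂ * C₃ * g ^ 5 * (R * y + √(R * T / y))) ^ 2 := by ring
    _ = _ := by
      conv_lhs => rw [← Real.sq_sqrt hZ]
      ring

theorem vc4_head {T y δ x : ℝ} {M : ℕ} (hT : 1 ≤ T) (hδ : 0 < δ) (hy : T ^ (1 / 4 : ℝ) ≤ y)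
    (hy' : y ≤ T ^ (1 / 3 : ℝ)) (hM : (M : ℝ) ≤ y ^ 4 / T) (hx : x ∈ Icc (T / 2) (4 * T)) :
    x ^ (1 / 4 : ℝ) ≤ 2 * T ^ (1 / 4 : ℝ) ∧
      x ^ (1 / 4 : ℝ) * (M : ℝ) ^ (1 / 4 + δ) ≤ 2 * T ^ δ * y := by
  have hT0 : 0 < T := by linarith
  have hx0 : 0 < x := by linarith [hx.1]
  have ht0 : 0 < T ^ (1 / 4 : ℝ) := by positivity
  have hy0 : 0 < y := ht0.trans_le hy
  have h1 : x ^ (1 / 4 : ℝ) ≤ 2 * T ^ (1 / 4 : ℝ) := by
    calc x ^ (1 / 4 : ℝ) ≤ (2 ^ 4 * T) ^ (1 / 4 : ℝ) :=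
          Real.rpow_le_rpow hx0.le (by linarith [hx.2]) (by norm_num)
      _ = _ := by rw [Real.mul_rpow (by norm_num) hT0.le, vc4_q4 (by norm_num)]
  refine ⟨h1, ?_⟩
  have h2 : y ^ 4 / T ≤ T := by
    have h3 : y ≤ √T := by
      rw [Real.sqrt_eq_rpow]
      exact hy'.trans (Real.rpow_le_rpow_of_exponent_le hT (by norm_num))
    have h4 : y ^ 2 ≤ T := by
      rw [← Real.sq_sqrt hT0.le]
      exact pow_le_pow_left₀ hy0.le h3 2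
    rw [div_le_iff₀ hT0]
    calc y ^ 4 = y ^ 2 * y ^ 2 := by ring
      _ ≤ T * T := mul_le_mul h4 h4 (by positivity) hT0.le
  have h5 : (M : ℝ) ^ (1 / 4 + δ) ≤ y / T ^ (1 / 4 : ℝ) * T ^ δ := by
    calc (M : ℝ) ^ (1 / 4 + δ) ≤ (y ^ 4 / T) ^ (1 / 4 + δ) :=
          Real.rpow_le_rpow (by positivity) hM (by positivity)
      _ = (y ^ 4 / T) ^ (1 / 4 : ℝ) * (y ^ 4 / T) ^ δ := Real.rpow_add (by positivity) _ _
      _ ≤ y / T ^ (1 / 4 : ℝ) * T ^ δ := by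
          rw [Real.div_rpow (by positivity) hT0.le, vc4_q4 hy0.le]
          exact mul_le_mul_of_nonneg_left (Real.rpow_le_rpow (by positivity) h2 hδ.le)
            (by positivity)
  calc x ^ (1 / 4 : ℝ) * (M : ℝ) ^ (1 / 4 + δ)
      ≤ 2 * T ^ (1 / 4 : ℝ) * (y / T ^ (1 / 4 : ℝ) * T ^ δ) :=
        mul_le_mul h1 h5 (by positivity) (by positivity)
    _ = _ := by field_simp

/- Let `R = X.card`, `M = min N ⌊y ^ 4 / T⌋₊`, `H_split`.  `H_le`: `‖H 0 M x‖ ≤ C (4 T) ^ (1 / 4) M ^ (1 / 4 + δ) ≤ C T ^ δ y`.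
If `M < N`: `H_eq`, `cf_le`, `hz` with `K = C N ^ δ`, `N ≤ T ^ (1 + δ)`, `y ^ 4 / T ≤ M + 1`; the three terms times
`√T` are at most `T ^ (δ / 2) * R T / y`, `C T ^ δ * R T / y` (`c4_card`, `log_le_rpow`) and `2 R ^ 2 y ^ 2`. -/
theorem Sel.H_pts (F : Sel) {P : Vo} (h : F.deg = 2) (hP : 0 < P.ka) {ε : ℝ} (hε : 0 < ε) :
    ∃ δ C : ℝ, 0 < δ ∧ δ ≤ ε ∧ 1 ≤ C ∧ ∀ (T y : ℝ) (N : ℕ) (X : Finset ℝ), 1 ≤ T →
    T ^ (1 / 4 : ℝ) ≤ y → y ≤ T ^ (1 / 3 : ℝ) → (N : ℝ) ≤ T ^ (1 + δ) / y ^ 2 →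
    (∀ x ∈ X, x ∈ Icc (T / 2) (4 * T)) → Sep X (y / 2) (2 * (y ^ 6 / T)) →
    ∑ x ∈ X, ‖F.H P 0 N x‖ ≤ C * T ^ ε * (X.card * y + √(X.card * T / y)) := by
  obtain ⟨δ, hδ, hδε, hδ1⟩ : ∃ δ : ℝ, 0 < δ ∧ δ * 5 ≤ ε ∧ δ ≤ 1 :=
    ⟨min (ε / 5) 1, by positivity, by linarith [min_le_left (ε / 5) 1], min_le_right _ _⟩
  obtain ⟨C₁, hC₁, h1⟩ := F.H_le P h.ge hδ
  obtain ⟨C₂, hC₂, h2⟩ := F.cf_le P hδ
  rw [h, al_two] at h1 h2
  obtain ⟨D₁, hD₁, k1⟩ := vc4_tail hP.ne' hδ hδ1 hC₂ h2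
  obtain ⟨D₂, hD₂, k2⟩ := vc4_tail (neg_ne_zero.2 hP.ne') hδ hδ1 hC₂ h2
  have hap := norm_nonneg P.ap
  have ham := norm_nonneg P.am
  refine ⟨δ, 1 + 2 * C₁ + 2 * (‖P.ap‖ * D₁ + ‖P.am‖ * D₂), hδ, by linarith,
    by linarith [mul_nonneg hap hD₁.le, mul_nonneg ham hD₂.le], ?_⟩
  intro T y N X hT hy hy' hN hX hS
  have hT0 : 0 < T := by linarith
  have ht0 : 0 < T ^ (1 / 4 : ℝ) := by positivity
  have hy0 : 0 < y := ht0.trans_le hy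
  have hg1 : 1 ≤ T ^ δ := Real.one_le_rpow hT hδ.le
  have hg5 : (T ^ δ) ^ 5 ≤ T ^ ε := by
    rw [← Real.rpow_natCast, ← Real.rpow_mul hT0.le]
    exact Real.rpow_le_rpow_of_exponent_le hT (by exact_mod_cast hδε)
  have hgε : T ^ δ ≤ T ^ ε := Real.rpow_le_rpow_of_exponent_le hT (by linarith)
  obtain ⟨M, hMN, hM, hM'⟩ : ∃ M : ℕ, M ≤ N ∧ (M : ℝ) ≤ y ^ 4 / T ∧
      (M = N ∨ (1 ≤ N ∧ y ^ 4 / T ≤ M + 1)) := by
    rcases le_or_gt N ⌊y ^ 4 / T⌋₊ with hh | hh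
    · exact ⟨N, le_rfl, (Nat.cast_le.2 hh).trans (Nat.floor_le (by positivity)), Or.inl rfl⟩
    · exact ⟨_, hh.le, Nat.floor_le (by positivity),
        Or.inr ⟨by omega, (Nat.lt_floor_add_one _).le⟩⟩
  have hQ1 : 0 ≤ (X.card : ℝ) * y := by positivity
  have hQ2 := Real.sqrt_nonneg (X.card * T / y)
  have hE : 0 < T ^ ε := by positivity
  have A : ∑ x ∈ X, ‖F.H P 0 M x‖ ≤ 2 * C₁ * (T ^ ε * (X.card * y + √(X.card * T / y))) := by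
    calc ∑ x ∈ X, ‖F.H P 0 M x‖ ≤ ∑ x ∈ X, C₁ * (2 * T ^ δ * y) := by
          refine Finset.sum_le_sum fun x hx => ?_
          refine (h1 0 M x (by linarith [(hX x hx).1])).trans ?_
          rw [mul_assoc]
          exact mul_le_mul_of_nonneg_left (vc4_head hT hδ hy hy' hM (hX x hx)).2 hC₁.le
      _ = 2 * C₁ * (T ^ δ * (X.card * y)) := by
          rw [Finset.sum_const, nsmul_eq_mul]
          ring
      _ ≤ _ := mul_le_mul_of_nonneg_left (mul_le_mul hgε (by linarith) hQ1 hE.le) (by positivity)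
  have B : ∑ x ∈ X, ‖F.H P M N x‖ ≤
      2 * (‖P.ap‖ * D₁ + ‖P.am‖ * D₂) * (T ^ ε * (X.card * y + √(X.card * T / y))) := by
    rcases hM' with rfl | ⟨hN1, hM1⟩
    · simp only [Sel.H, Finset.Ioc_self, Finset.sum_empty, norm_zero, Finset.sum_const_zero]
      positivity
    have l1 := k1 T y M N X hT hy hN1 hN hM1 hX hS
    have l2 := k2 T y M N X hT hy hN1 hN hM1 hX hS
    have l3 : ∀ D : ℝ, 0 < D → D * (T ^ δ) ^ 5 * (X.card * y + √(X.card * T / y)) ≤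
        D * (T ^ ε * (X.card * y + √(X.card * T / y))) := fun D hD => by
      rw [mul_assoc]
      exact mul_le_mul_of_nonneg_left (mul_le_mul_of_nonneg_right hg5 (by positivity)) hD.le
    replace l1 := mul_le_mul_of_nonneg_left (l1.trans (l3 _ hD₁)) hap
    replace l2 := mul_le_mul_of_nonneg_left (l2.trans (l3 _ hD₂)) ham
    calc ∑ x ∈ X, ‖F.H P M N x‖ ≤ ∑ x ∈ X, 2 * T ^ (1 / 4 : ℝ) *
          (‖P.ap‖ * ‖ts 2 P.ka (F.cf P) M N x‖ + ‖P.am‖ * ‖ts 2 (-P.ka) (F.cf P) M N x‖) := by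
          refine Finset.sum_le_sum fun x hx => ?_
          have hx0 : 0 < x := by linarith [(hX x hx).1]
          rw [F.H_eq P M N hx0, norm_mul, norm_px _ hx0, Vo.ex_re, h, al_two]
          refine mul_le_mul (vc4_head hT hδ hy hy' hM (hX x hx)).1 ?_ (norm_nonneg _)
            (by positivity)
          refine (norm_add_le _ _).trans (le_of_eq ?_)
          rw [norm_mul, norm_mul]
      _ = 2 * (‖P.ap‖ * (T ^ (1 / 4 : ℝ) * ∑ x ∈ X, ‖ts 2 P.ka (F.cf P) M N x‖) +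
          ‖P.am‖ * (T ^ (1 / 4 : ℝ) * ∑ x ∈ X, ‖ts 2 (-P.ka) (F.cf P) M N x‖)) := by
          rw [← Finset.mul_sum, Finset.sum_add_distrib, ← Finset.mul_sum, ← Finset.mul_sum]
          ring
      _ ≤ _ := by linarith
  have hZ : 0 ≤ T ^ ε * (X.card * y + √(X.card * T / y)) := by positivity
  calc ∑ x ∈ X, ‖F.H P 0 N x‖ ≤ ∑ x ∈ X, (‖F.H P 0 M x‖ + ‖F.H P M N x‖) :=
        Finset.sum_le_sum fun x _ => by
          rw [F.H_split P hMN x]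
          exact norm_add_le _ _
    _ = ∑ x ∈ X, ‖F.H P 0 M x‖ + ∑ x ∈ X, ‖F.H P M N x‖ := Finset.sum_add_distrib
    _ ≤ _ := by linarith

end Pool.Agent.Lib.MP_2a1a00_nt
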