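import Pool.Agent.Lib.MP_2a1a00_nt.V.Vd
import Pool.Agent.Lib.MP_2a1a00_nt.Mvt

/-! Exponential sums with square roots. -/

namespace Pool.Agent.Lib.MP_2a1a00_nt

open Complex MeasureTheory Set

theorem ves_small {u : ℝ} {K a b : ℕ} (hu : 0 < u) (hK : 1 ≤ K) (ha : K ≤ a) (hb : b ≤ 2 * K)
    (h : u ≤ √(K : ℝ)) :
    ‖∑ n ∈ Finset.Ico a b, exp (I * (u * √(n : ℝ) : ℝ))‖ ≤ 40 * (√(K : ℝ) / u) := by
  have hK' : (1 : ℝ) ≤ K := by exact_mod_cast hK
  have hs : 0 < √(K : ℝ) := Real.sqrt_pos.2 (by linarith)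
  have hs2 : √(K : ℝ) ^ 2 = K := Real.sq_sqrt (by linarith)
  have key := kl_anti (φ := fun n : ℕ => u * √(n : ℝ)) (a := a) (b := b)
    (η := u / (4 * √(K : ℝ))) 0 (by positivity) ?_ ?_
  · refine key.trans (le_of_eq ?_)
    field_simp
    norm_num
  · intro n _ _
    have x0 := Real.sqrt_nonneg (n : ℝ)
    have y0 := Real.sqrt_nonneg ((n : ℝ) + 1)
    have z0 := Real.sqrt_nonneg ((n : ℝ) + 2)
    have x2 : √(n : ℝ) ^ 2 = n := Real.sq_sqrt (by positivity)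
    have y2 : √((n : ℝ) + 1) ^ 2 = n + 1 := Real.sq_sqrt (by positivity)
    have z2 : √((n : ℝ) + 2) ^ 2 = n + 2 := Real.sq_sqrt (by positivity)
    have : √((n : ℝ) + 2) + √(n : ℝ) ≤ 2 * √((n : ℝ) + 1) :=
      abs_le_of_sq_le_sq' (by nlinarith [sq_nonneg (√((n : ℝ) + 2) - √(n : ℝ))])
        (by positivity) |>.2
    push_cast
    nlinarith
  · intro n h1 h2
    have n1 : (K : ℝ) ≤ n := by exact_mod_cast ha.trans h1
    have n2 : (n : ℝ) + 1 ≤ 2 * K := by exact_mod_cast (Nat.succ_le_of_lt h2).trans hb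
    have x2 : √(n : ℝ) ^ 2 = n := Real.sq_sqrt (by positivity)
    have y2 : √((n : ℝ) + 1) ^ 2 = n + 1 := Real.sq_sqrt (by positivity)
    have x1 : √(K : ℝ) ≤ √(n : ℝ) := Real.sqrt_le_sqrt n1
    have xy : √(n : ℝ) ≤ √((n : ℝ) + 1) := Real.sqrt_le_sqrt (by linarith)
    have y1 : √((n : ℝ) + 1) ≤ 2 * √(K : ℝ) :=
      Real.sqrt_le_iff.2 ⟨by positivity, by nlinarith⟩
    have e : √((n : ℝ) + 1) - √(n : ℝ) = 1 / (√((n : ℝ) + 1) + √(n : ℝ)) := by
      rw [eq_div_iff (by linarith)]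
      nlinarith
    have l1 : 1 / (4 * √(K : ℝ)) ≤ √((n : ℝ) + 1) - √(n : ℝ) := by
      rw [e]
      exact one_div_le_one_div_of_le (by linarith) (by linarith)
    have l2 : √((n : ℝ) + 1) - √(n : ℝ) ≤ 1 / √(K : ℝ) := by
      rw [e]
      exact one_div_le_one_div_of_le hs (by linarith)
    have l3 : u * (1 / √(K : ℝ)) ≤ 1 := by
      rw [mul_one_div, div_le_one hs]
      exact h
    have l4 : u / (4 * √(K : ℝ)) = u * (1 / √(K : ℝ)) / 4 := by field_simp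
    have l5 := mul_le_mul_of_nonneg_left l1 hu.le
    have l6 := mul_le_mul_of_nonneg_left l2 hu.le
    have l7 := Real.pi_gt_three
    rw [mul_one_div] at l5
    push_cast
    constructor <;> linarith

theorem ves_large : ∃ C : ℝ, 0 < C ∧ ∀ (u : ℝ) (K a b : ℕ), 1 ≤ K → K ≤ a → a ≤ b → b ≤ 2 * K →
    √(K : ℝ) ≤ u → ‖∑ n ∈ Finset.Ico a b, exp (I * (u * √(n : ℝ) : ℝ))‖ ≤
      C * (√u * (K : ℝ) ^ (1 / 4 : ℝ)) := by
  obtain ⟨C, hC, H⟩ := vdc
  refine ⟨15 * C, by positivity, fun u K a b hK ha hab hb h => ?_⟩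
  have hK' : (1 : ℝ) ≤ K := by exact_mod_cast hK
  have ha' : (K : ℝ) ≤ a := by exact_mod_cast ha
  have hb' : (b : ℝ) ≤ 2 * K := by exact_mod_cast hb
  have hs : 0 < √(K : ℝ) := Real.sqrt_pos.2 (by linarith)
  have hs2 : √(K : ℝ) ^ 2 = K := Real.sq_sqrt (by linarith)
  have hu : 0 < u := hs.trans_le h
  have hl : 0 < u / (12 * (K * √(K : ℝ))) := by positivity
  have key := H (fun t => u * √t) (fun t => u * (1 / (2 * √t))) (fun t => -(u / (4 * (t * √t))))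
    a b (u / (12 * (K * √(K : ℝ)))) 3 hab hl (by norm_num) ?_ ?_ (Or.inr ?_)
  · refine key.trans ?_
    have q0 : 0 < √(u / (12 * (K * √(K : ℝ)))) := Real.sqrt_pos.2 hl
    have q2 : √(u / (12 * (K * √(K : ℝ)))) ^ 2 = u / (12 * (K * √(K : ℝ))) := Real.sq_sqrt hl.le
    set q := √(u / (12 * (K * √(K : ℝ))))
    have q3 : 12 * K * q ^ 2 * √(K : ℝ) = u := by
      rw [q2]
      field_simp
    have q4 : 1 / q ≤ 12 * K * q := by
      rw [div_le_iff₀ q0]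
      refine le_of_mul_le_mul_right ?_ hs
      nlinarith
    have r2 : ((K : ℝ) ^ (1 / 4 : ℝ)) ^ 2 = √(K : ℝ) := by
      rw [← Real.rpow_natCast, ← Real.rpow_mul (by linarith), Real.sqrt_eq_rpow]
      norm_num
    have q5 : K * q ≤ √u * (K : ℝ) ^ (1 / 4 : ℝ) := by
      refine (abs_le_of_sq_le_sq' ?_ (by positivity)).2
      rw [mul_pow (√u), Real.sq_sqrt hu.le, r2, ← q3]
      have : 0 ≤ (K * q) ^ 2 := sq_nonneg _
      calc (K * q) ^ 2 ≤ 12 * (K * q) ^ 2 := by linarith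
        _ = 12 * K * q ^ 2 * √(K : ℝ) ^ 2 := by rw [hs2]; ring
        _ = _ := by ring
    have q6 : ((b : ℝ) - a) * q ≤ K * q := mul_le_mul_of_nonneg_right (by linarith) q0.le
    rw [mul_comm 15 C, mul_assoc C]
    refine mul_le_mul_of_nonneg_left ?_ hC.le
    linarith
  · intro t ht
    exact (Real.hasDerivAt_sqrt (by linarith [ht.1] : t ≠ 0)).const_mul u
  · intro t ht
    have t0 : 0 < t := by linarith [ht.1]
    have s0 : 0 < √t := Real.sqrt_pos.2 t0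
    have s2 : √t ^ 2 = t := Real.sq_sqrt t0.le
    have := (((Real.hasDerivAt_sqrt t0.ne').const_mul 2).inv (by positivity)).const_mul u
    have e : u * (-(2 * (1 / (2 * √t))) / (2 * √t) ^ 2) = -(u / (4 * (t * √t))) := by
      rw [mul_pow, s2]
      field_simp
      norm_num
    rw [e] at this
    simpa only [one_div, Pi.inv_apply] using this
  · intro t ht
    have t1 : (K : ℝ) ≤ t := ha'.trans ht.1
    have t2 : t ≤ 2 * K := ht.2.trans hb'
    have s1 : √(K : ℝ) ≤ √t := Real.sqrt_le_sqrt t1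
    have s3 : √t ≤ 3 / 2 * √(K : ℝ) := Real.sqrt_le_iff.2 ⟨by positivity, by nlinarith⟩
    have m1 : K * √(K : ℝ) ≤ t * √t := mul_le_mul t1 s1 hs.le (by linarith)
    have m2 : t * √t ≤ 2 * K * (3 / 2 * √(K : ℝ)) :=
      mul_le_mul t2 s3 (Real.sqrt_nonneg _) (by linarith)
    have m0 : 0 < K * √(K : ℝ) := by positivity
    rw [neg_neg]
    refine ⟨div_le_div_of_nonneg_left hu.le (by linarith) (by linarith), ?_⟩
    rw [show 3 * (u / (12 * (K * √(K : ℝ)))) = u / (4 * (K * √(K : ℝ))) by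
      field_simp
      norm_num]
    exact div_le_div_of_nonneg_left hu.le (by linarith) (by linarith)

theorem ves_abs (u : ℝ) (S : Finset ℕ) : ‖∑ n ∈ S, exp (I * (u * √(n : ℝ) : ℝ))‖ =
    ‖∑ n ∈ S, exp (I * (|u| * √(n : ℝ) : ℝ))‖ := by
  rcases abs_choice u with h | h
  · rw [h]
  · rw [h, ← Complex.norm_conj, map_sum]
    congr 1
    refine Finset.sum_congr rfl fun n _ => ?_
    rw [← exp_conj, map_mul, conj_I, conj_ofReal]
    congr 1
    push_cast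
    ring

/- For `0 < u` (else conjugate).  If `u ≤ √K`: the differences `u (√(n + 1) - √n) = u / (√(n + 1) + √n)` decrease and
lie in `[u / (4 √K), 1 / 2]`, `kl_anti` with `k = 0`.  If `√K ≤ u`: `vdc` with `-φ'' t = u t ^ (-3 / 2) / 4`,
`lam = u K ^ (-3 / 2) / 12`, `h = 3`, and `1 / √lam ≤ 12 K √lam`. -/
theorem es_block : ∃ C : ℝ, 0 < C ∧ ∀ (u : ℝ) (K a b : ℕ), u ≠ 0 → 1 ≤ K → K ≤ a → b ≤ 2 * K →
    ‖∑ n ∈ Finset.Ico a b, exp (I * (u * √(n : ℝ) : ℝ))‖ ≤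
      C * (√(K : ℝ) / |u| + √|u| * (K : ℝ) ^ (1 / 4 : ℝ)) := by
  obtain ⟨C, hC, H⟩ := ves_large
  refine ⟨40 + C, by positivity, fun u K a b hu hK ha hb => ?_⟩
  have p1 : 0 ≤ √(K : ℝ) / |u| := by positivity
  have p2 : 0 ≤ √|u| * (K : ℝ) ^ (1 / 4 : ℝ) := by positivity
  rw [ves_abs]
  rcases le_total |u| √(K : ℝ) with h | h
  · have := ves_small (abs_pos.2 hu) hK ha hb h
    nlinarith
  · rcases le_total a b with hab | hab
    · have := H |u| K a b hK ha hab hb h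
      nlinarith
    · rw [Finset.Ico_eq_empty_of_le hab, Finset.sum_empty, norm_zero]
      positivity

theorem ves_pow (x : ℝ) (hx : 0 ≤ x) : x ^ (-1 / 2 : ℝ) = (√x)⁻¹ := by
  rw [Real.sqrt_eq_rpow, ← Real.rpow_neg hx, neg_div]

theorem ves_one : ∃ C : ℝ, 0 < C ∧ ∀ (u : ℝ) (a b : ℕ), u ≠ 0 → 1 ≤ a → b ≤ 2 * a →
    ‖∑ n ∈ Finset.Ico a b, (((n : ℝ) ^ (-1 / 2 : ℝ) : ℝ) : ℂ) * exp (I * (u * √(n : ℝ) : ℝ))‖ ≤
      C * (1 / |u| + √|u| * (a : ℝ) ^ (-1 / 4 : ℝ)) := by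
  obtain ⟨C, hC, H⟩ := es_block
  refine ⟨2 * C, by positivity, fun u a b hu ha hb => ?_⟩
  rcases le_total b a with hab | hab
  · rw [Finset.Ico_eq_empty_of_le hab, Finset.sum_empty, norm_zero]
    positivity
  have ha' : (1 : ℝ) ≤ a := by exact_mod_cast ha
  have hb' : (b : ℝ) ≤ 2 * a := by exact_mod_cast hb
  have hs : 0 < √(a : ℝ) := Real.sqrt_pos.2 (by linarith)
  have hs2 : √(a : ℝ) ^ 2 = a := Real.sq_sqrt (by linarith)
  have key := abel (ω := fun n : ℕ => (((n : ℝ) ^ (-1 / 2 : ℝ) : ℝ) : ℂ))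
    (z := fun n : ℕ => exp (I * (u * √(n : ℝ) : ℝ))) (ω₀ := (√(a : ℝ))⁻¹)
    (ω₁ := (a * √(a : ℝ))⁻¹) hab (fun c _ hc => H u a a c hu ha le_rfl (hc.trans hb)) ?_ ?_
  · refine key.trans ?_
    have e1 : (√(a : ℝ))⁻¹ + ((b : ℝ) - a) * (a * √(a : ℝ))⁻¹ ≤ 2 * (√(a : ℝ))⁻¹ := by
      have : ((b : ℝ) - a) * (a * √(a : ℝ))⁻¹ ≤ a * (a * √(a : ℝ))⁻¹ :=
        mul_le_mul_of_nonneg_right (by linarith) (by positivity)
      rw [mul_inv (a : ℝ), ← mul_assoc (a : ℝ), mul_inv_cancel₀ (by linarith), one_mul] at this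
      rw [mul_inv (a : ℝ)]
      linarith
    refine (mul_le_mul_of_nonneg_right e1 (by positivity)).trans (le_of_eq ?_)
    have e2 : (a : ℝ) ^ (1 / 4 : ℝ) = √(a : ℝ) * (a : ℝ) ^ (-1 / 4 : ℝ) := by
      rw [Real.sqrt_eq_rpow, ← Real.rpow_add (by linarith)]
      norm_num
    rw [e2]
    field_simp
  · intro n h1 _
    rw [Complex.norm_real, ves_pow _ (by positivity), Real.norm_of_nonneg (by positivity)]
    exact inv_anti₀ hs (Real.sqrt_le_sqrt (by exact_mod_cast h1))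
  · intro n h1 _
    have n1 : (a : ℝ) ≤ n := by exact_mod_cast h1
    have x2 : √(n : ℝ) ^ 2 = n := Real.sq_sqrt (by positivity)
    have y2 : √((n : ℝ) + 1) ^ 2 = n + 1 := Real.sq_sqrt (by positivity)
    have x1 : √(a : ℝ) ≤ √(n : ℝ) := Real.sqrt_le_sqrt n1
    have xy : √(n : ℝ) ≤ √((n : ℝ) + 1) := Real.sqrt_le_sqrt (by linarith)
    have x0 : 0 < √(n : ℝ) := by linarith
    have y0 : 0 < √((n : ℝ) + 1) := by linarith
    rw [← ofReal_sub, Complex.norm_real, ves_pow _ (by positivity), ves_pow _ (by positivity),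
      Real.norm_eq_abs, Nat.cast_add_one, abs_sub_comm,
      abs_of_nonneg (sub_nonneg.2 (inv_anti₀ x0 xy))]
    have e : (√(n : ℝ))⁻¹ - (√((n : ℝ) + 1))⁻¹ =
        (√(n : ℝ) * √((n : ℝ) + 1) * (√((n : ℝ) + 1) + √(n : ℝ)))⁻¹ := by
      field_simp
      nlinarith
    rw [e]
    refine inv_anti₀ (by positivity) (mul_le_mul ?_ (by linarith) hs.le (by positivity))
    nlinarith

/- Cut `Ioc M N` into the blocks `Ico K (2 K) ∩ Ioc M N`, `K = 2 ^ j * (M + 1) ≤ N` (or induct on `j` for the sum over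
`Ico (M + 1) (min (N + 1) (2 ^ j * (M + 1)))`); on a block use `abel` with `ω n = n ^ (-1 / 2)` and `es_block`. -/
theorem es : ∃ C : ℝ, 0 < C ∧ ∀ (u : ℝ) (M N : ℕ), u ≠ 0 →
    ‖∑ n ∈ Finset.Ioc M N, (((n : ℝ) ^ (-1 / 2 : ℝ) : ℝ) : ℂ) * exp (I * (u * √(n : ℝ) : ℝ))‖ ≤
      C * (1 + Real.log N) * (1 / |u| + √|u| * ((M : ℝ) + 1) ^ (-1 / 4 : ℝ)) := by
  obtain ⟨C, hC, H⟩ := ves_one
  refine ⟨2 * C, by positivity, fun u M N hu => ?_⟩
  have hD : 0 ≤ C * (1 / |u| + √|u| * ((M : ℝ) + 1) ^ (-1 / 4 : ℝ)) := by positivity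
  have one : ∀ a b : ℕ, M + 1 ≤ a → b ≤ 2 * a →
      ‖∑ n ∈ Finset.Ico a b, (((n : ℝ) ^ (-1 / 2 : ℝ) : ℝ) : ℂ) * exp (I * (u * √(n : ℝ) : ℝ))‖ ≤
        C * (1 / |u| + √|u| * ((M : ℝ) + 1) ^ (-1 / 4 : ℝ)) := fun a b ha hb => by
    refine (H u a b hu (by omega) hb).trans ?_
    have : (a : ℝ) ^ (-1 / 4 : ℝ) ≤ ((M : ℝ) + 1) ^ (-1 / 4 : ℝ) :=
      Real.rpow_le_rpow_of_nonpos (by positivity) (by exact_mod_cast ha) (by norm_num)
    gcongr
  have many : ∀ j a b : ℕ, M + 1 ≤ a → b ≤ 2 ^ j * a →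
      ‖∑ n ∈ Finset.Ico a b, (((n : ℝ) ^ (-1 / 2 : ℝ) : ℝ) : ℂ) * exp (I * (u * √(n : ℝ) : ℝ))‖ ≤
        j * (C * (1 / |u| + √|u| * ((M : ℝ) + 1) ^ (-1 / 4 : ℝ))) := by
    intro j
    induction j with
    | zero =>
      intro a b _ hb
      rw [Finset.Ico_eq_empty_of_le (by omega), Finset.sum_empty, norm_zero]
      simp
    | succ j ih =>
      intro a b ha hb
      have j0 := mul_nonneg (Nat.cast_nonneg (α := ℝ) j) hD
      rw [Nat.cast_add_one]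
      rcases le_total b (2 * a) with h | h
      · have := one a b ha h
        linarith
      · rw [← Finset.sum_Ico_consecutive _ (by omega : a ≤ 2 * a) h]
        refine (norm_add_le _ _).trans ?_
        have h1 := one a (2 * a) ha le_rfl
        have h2 := ih (2 * a) b (by omega) (by rwa [← mul_assoc, ← pow_succ])
        linarith
  have hj : ((Nat.log 2 N + 1 : ℕ) : ℝ) ≤ 2 * (1 + Real.log N) := by
    rcases eq_or_ne N 0 with rfl | hN
    · simp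
    · have h1 : ((2 : ℝ) ^ Nat.log 2 N) ≤ N := by exact_mod_cast Nat.pow_log_le_self 2 hN
      have h2 := Real.log_le_log (by positivity) h1
      rw [Real.log_pow] at h2
      have h3 := Real.log_two_gt_d9
      have h4 : (0 : ℝ) ≤ Nat.log 2 N := Nat.cast_nonneg _
      push_cast
      nlinarith
  have h := many (Nat.log 2 N + 1) (M + 1) (N + 1) le_rfl
    ((Nat.lt_pow_succ_log_self one_lt_two N).trans_le (Nat.le_mul_of_pos_right _ M.succ_pos))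
  rw [Finset.Ico_add_one_add_one_eq_Ioc] at h
  refine h.trans ((mul_le_mul_of_nonneg_right hj hD).trans (le_of_eq ?_))
  ring

end Pool.Agent.Lib.MP_2a1a00_nt
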