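import Pool.Agent.Lib.MP_2a1a00_nt.V.ES

/-! The inequality of Halasz and Montgomery. -/

namespace Pool.Agent.Lib.MP_2a1a00_nt

open Complex MeasureTheory Set

theorem vhz_side {S : Finset ℝ} {y : ℝ} {R : ℕ} (g : ℝ → ℝ) (hy : 0 < y) (hR : 1 ≤ R)
    (hS : S.card ≤ R) (h1 : ∀ s ∈ S, y ≤ g s)
    (h2 : ∀ s ∈ S, ∀ t ∈ S, s ≠ t → y ≤ |g s - g t|) :
    ∑ s ∈ S, 1 / g s ≤ (2 + Real.log R) / y := by
  classical
  set f : ℝ → ℕ := fun s => ⌊g s / y⌋₊ with hf
  have h3 : ∀ s ∈ S, 1 ≤ g s / y := fun s hs => (one_le_div hy).2 (h1 s hs)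
  have h4 : ∀ s ∈ S, 1 ≤ f s := fun s hs => Nat.le_floor (by simpa using h3 s hs)
  have h5 : ∀ s ∈ S, (f s : ℝ) ≤ g s / y := fun s hs => Nat.floor_le (by linarith [h3 s hs])
  have h6 : ∀ s, g s / y < f s + 1 := fun s => Nat.lt_floor_add_one _
  have hinj : ∀ s ∈ S, ∀ t ∈ S, f s = f t → s = t := fun s hs t ht e => by
    by_contra hne
    have a1 := h5 s hs
    have a2 := h5 t ht
    have a3 := h6 s
    have a4 := h6 t
    rw [e] at a1 a3
    have a5 : |g s / y - g t / y| < 1 := abs_lt.2 ⟨by linarith, by linarith⟩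
    rw [← sub_div, abs_div, abs_of_pos hy, div_lt_one hy] at a5
    exact absurd (h2 s hs t ht hne) (not_le.2 a5)
  have hR' : (1 : ℝ) ≤ R := by exact_mod_cast hR
  have h7 : ∑ s ∈ S, (1 : ℝ) / f s ≤ 2 + Real.log R := by
    rw [← Finset.sum_image (g := f) (f := fun k : ℕ => (1 : ℝ) / k) hinj,
      ← Finset.sum_filter_add_sum_filter_not _ (fun k => k ≤ R)]
    have b1 : ∑ k ∈ (S.image f).filter (fun k => k ≤ R), (1 : ℝ) / k ≤ 1 + Real.log R := by
      refine (Finset.sum_le_sum_of_subset_of_nonneg (fun k hk => ?_)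
        fun _ _ _ => by positivity).trans (harm_le R)
      obtain ⟨hk, hk'⟩ := Finset.mem_filter.1 hk
      obtain ⟨s, hs, rfl⟩ := Finset.mem_image.1 hk
      exact Finset.mem_Icc.2 ⟨h4 s hs, hk'⟩
    have b2 : ∑ k ∈ (S.image f).filter (fun k => ¬k ≤ R), (1 : ℝ) / k ≤ 1 := by
      refine (Finset.sum_le_card_nsmul _ _ ((1 : ℝ) / R) fun k hk => ?_).trans ?_
      · have := (not_le.1 (Finset.mem_filter.1 hk).2).le
        exact one_div_le_one_div_of_le (by linarith) (by exact_mod_cast this)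
      · have : (((S.image f).filter (fun k => ¬k ≤ R)).card : ℝ) ≤ R := by
          exact_mod_cast ((Finset.card_filter_le _ _).trans Finset.card_image_le).trans hS
        rw [nsmul_eq_mul, mul_one_div, div_le_one (by linarith)]
        exact this
    linarith
  refine le_trans ?_ (div_le_div_of_nonneg_right h7 hy.le)
  rw [Finset.sum_div]
  refine Finset.sum_le_sum fun s hs => ?_
  have a1 : (1 : ℝ) ≤ f s := by exact_mod_cast h4 s hs
  rw [div_div]
  exact one_div_le_one_div_of_le (by positivity) ((le_div_iff₀ hy).1 (h5 s hs))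

/- Order the points on each side of `x`: the map `x' ↦ ⌊|x - x'| / y⌋₊` is injective on each side with values in
`[1, ∞)`, and a sum of `1 / k` over `R` different positive integers is at most `1 + log R` (`harm_le`; the terms
`k > R` are at most `1 / R` each, so the bound `2 + log R` is immediate). -/
theorem hz_inv {X : Finset ℝ} {y z x : ℝ} (hy : 0 < y) (hX : Sep X y z) (hx : x ∈ X) :
    ∑ x' ∈ X.erase x, 1 / |x - x'| ≤ 4 * (1 + Real.log X.card) / y := by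
  have hR : 1 ≤ X.card := Finset.card_pos.2 ⟨x, hx⟩
  have hc : ∀ (p : ℝ → Prop) [DecidablePred p], ((X.erase x).filter p).card ≤ X.card := fun p _ =>
    (Finset.card_filter_le _ _).trans Finset.card_erase_le
  have hm : ∀ {p : ℝ → Prop} [DecidablePred p] {s}, s ∈ (X.erase x).filter p →
      s ∈ X ∧ x ≠ s ∧ p s := fun h =>
    ⟨Finset.mem_of_mem_erase (Finset.mem_filter.1 h).1,
      (Finset.ne_of_mem_erase (Finset.mem_filter.1 h).1).symm, (Finset.mem_filter.1 h).2⟩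
  have hs : ∀ (p : ℝ → Prop) [DecidablePred p],
      (∀ s t, p s → p t → |(|x - s|) - (|x - t|)| = |s - t|) →
      ∑ s ∈ (X.erase x).filter p, 1 / |x - s| ≤ (2 + Real.log X.card) / y := fun p _ hp =>
    vhz_side (fun s => |x - s|) hy hR (hc p) (fun s h => (hX x hx s (hm h).1 (hm h).2.1).1)
      fun s h t h' hne => (hX s (hm h).1 t (hm h').1 hne).1.trans_eq
        (hp s t (hm h).2.2 (hm h').2.2).symm
  have h1 := hs (fun s => s ≤ x) fun s t h h' => by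
    rw [abs_of_nonneg (sub_nonneg.2 h), abs_of_nonneg (sub_nonneg.2 h'), sub_sub_sub_cancel_left,
      abs_sub_comm]
  have h2 := hs (fun s => ¬s ≤ x) fun s t h h' => by
    rw [abs_of_neg (sub_neg.2 (not_le.1 h)), abs_of_neg (sub_neg.2 (not_le.1 h')), neg_sub,
      neg_sub, sub_sub_sub_cancel_right]
  rw [← Finset.sum_filter_add_sum_filter_not _ (fun s => s ≤ x)]
  refine (add_le_add h1 h2).trans ?_
  rw [← add_div]
  exact div_le_div_of_nonneg_right (by linarith [Real.log_natCast_nonneg X.card]) hy.le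

theorem vhz_sqrt (M N : ℕ) : ∑ n ∈ Finset.Ioc M N, (n : ℝ) ^ (-1 / 2 : ℝ) ≤ 2 * √(N : ℝ) := by
  have h : ∀ N : ℕ, ∑ n ∈ Finset.Ioc 0 N, (n : ℝ) ^ (-1 / 2 : ℝ) ≤ 2 * √(N : ℝ) := fun N => by
    induction N with
    | zero => simp
    | succ N ih =>
      rw [Finset.sum_Ioc_succ_top (Nat.zero_le N)]
      have h0 : (0 : ℝ) < ((N + 1 : ℕ) : ℝ) := by positivity
      have h1 : ((N + 1 : ℕ) : ℝ) ^ (-1 / 2 : ℝ) = (√((N + 1 : ℕ) : ℝ))⁻¹ := by
        rw [Real.sqrt_eq_rpow, ← Real.rpow_neg h0.le]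
        norm_num
      have h2 := Real.sq_sqrt h0.le
      have h3 := Real.sq_sqrt (Nat.cast_nonneg (α := ℝ) N)
      have h4 := Real.sqrt_pos.2 h0
      rw [h1]
      have h5 : (√((N + 1 : ℕ) : ℝ))⁻¹ ≤ 2 * √((N + 1 : ℕ) : ℝ) - 2 * √(N : ℝ) := by
        rw [inv_eq_one_div, div_le_iff₀ h4]
        push_cast at h2 h4 ⊢
        nlinarith [sq_nonneg (√((N : ℝ) + 1) - √(N : ℝ))]
      linarith
  exact (Finset.sum_le_sum_of_subset_of_nonneg (Finset.Ioc_subset_Ioc_left (Nat.zero_le M))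
    fun _ _ _ => by positivity).trans (h N)

theorem vhz_gram (X : Finset ℝ) (A : Finset ℕ) (e : ℝ → ℂ) (he : ∀ x, ‖e x‖ = 1) (w : ℕ → ℝ)
    (φ : ℝ → ℕ → ℝ) :
    ∑ n ∈ A, w n * ‖∑ x ∈ X, e x * exp (I * φ x n)‖ ^ 2 ≤
      ∑ x ∈ X, ∑ x' ∈ X, ‖∑ n ∈ A, (w n : ℂ) * exp (I * (φ x n - φ x' n : ℝ))‖ := by
  have h : ((∑ n ∈ A, w n * ‖∑ x ∈ X, e x * exp (I * φ x n)‖ ^ 2 : ℝ) : ℂ) =
      ∑ x ∈ X, ∑ x' ∈ X, e x * (starRingEnd ℂ) (e x') *
        ∑ n ∈ A, (w n : ℂ) * exp (I * (φ x n - φ x' n : ℝ)) := by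
    simp only [ofReal_sum, ofReal_mul, ofReal_pow, ← Complex.mul_conj', map_sum,
      Finset.sum_mul_sum]
    simp only [Finset.mul_sum]
    rw [Finset.sum_comm]
    refine Finset.sum_congr rfl fun x _ => ?_
    rw [Finset.sum_comm]
    refine Finset.sum_congr rfl fun x' _ => Finset.sum_congr rfl fun n _ => ?_
    rw [map_mul, ← exp_conj, map_mul, conj_I, conj_ofReal, ofReal_sub, mul_sub, sub_eq_add_neg,
      exp_add, neg_mul]
    ring
  refine (le_abs_self _).trans ?_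
  rw [← Real.norm_eq_abs, ← Complex.norm_real, h]
  refine (norm_sum_le _ _).trans (Finset.sum_le_sum fun x _ => (norm_sum_le _ _).trans
    (Finset.sum_le_sum fun x' _ => ?_))
  rw [norm_mul, norm_mul, RCLike.norm_conj, he, he, one_mul, one_mul]

theorem vhz_cs (X : Finset ℝ) (M N : ℕ) (c : ℕ → ℂ) (K : ℝ) (φ : ℝ → ℕ → ℝ)
    (hc : ∀ n ∈ Finset.Ioc M N, ‖c n‖ ≤ K * (n : ℝ) ^ (-3 / 4 : ℝ)) :
    (∑ x ∈ X, ‖∑ n ∈ Finset.Ioc M N, c n * exp (I * φ x n)‖) ^ 2 ≤ K ^ 2 * (1 + Real.log N) *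
      ∑ x ∈ X, ∑ x' ∈ X, ‖∑ n ∈ Finset.Ioc M N, (((n : ℝ) ^ (-1 / 2 : ℝ) : ℝ) : ℂ) *
        exp (I * (φ x n - φ x' n : ℝ))‖ := by
  choose e he he' using fun x => Complex.exists_norm_eq_mul_self
    (∑ n ∈ Finset.Ioc M N, c n * exp (I * φ x n))
  have hn : ∀ n ∈ Finset.Ioc M N, (0 : ℝ) < n := fun n hn => by
    have := (Finset.mem_Ioc.1 hn).1
    exact_mod_cast (by omega : 0 < n)
  have h1 : ∑ x ∈ X, ‖∑ n ∈ Finset.Ioc M N, c n * exp (I * φ x n)‖ ≤
      ∑ n ∈ Finset.Ioc M N, (‖c n‖ * (n : ℝ) ^ (1 / 4 : ℝ)) *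
        ((n : ℝ) ^ (-1 / 4 : ℝ) * ‖∑ x ∈ X, e x * exp (I * φ x n)‖) := by
    have h2 : ((∑ x ∈ X, ‖∑ n ∈ Finset.Ioc M N, c n * exp (I * φ x n)‖ : ℝ) : ℂ) =
        ∑ n ∈ Finset.Ioc M N, c n * ∑ x ∈ X, e x * exp (I * φ x n) := by
      rw [ofReal_sum, Finset.sum_congr rfl fun x _ => he' x]
      simp only [Finset.mul_sum]
      rw [Finset.sum_comm]
      exact Finset.sum_congr rfl fun n _ => Finset.sum_congr rfl fun x _ => by ring
    refine (le_abs_self _).trans ?_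
    rw [← Real.norm_eq_abs, ← Complex.norm_real, h2]
    refine (norm_sum_le _ _).trans (Finset.sum_le_sum fun n h => le_of_eq ?_)
    have h3 : (n : ℝ) ^ (1 / 4 : ℝ) * (n : ℝ) ^ (-1 / 4 : ℝ) = 1 := by
      rw [← Real.rpow_add (hn n h)]
      norm_num
    rw [norm_mul, mul_assoc, ← mul_assoc ((n : ℝ) ^ (1 / 4 : ℝ)), h3, one_mul]
  refine (pow_le_pow_left₀ (by positivity) h1 2).trans
    ((Finset.sum_mul_sq_le_sq_mul_sq _ _ _).trans
      (mul_le_mul ?_ ?_ (by positivity) ?_))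
  · refine le_trans ?_ (mul_le_mul_of_nonneg_left (harm_le N) (sq_nonneg K))
    refine le_trans ?_ (mul_le_mul_of_nonneg_left (Finset.sum_le_sum_of_subset_of_nonneg
      (s := Finset.Ioc M N) (fun n h => ?_) fun _ _ _ => by positivity) (sq_nonneg K))
    · rw [Finset.mul_sum]
      refine Finset.sum_le_sum fun n h => ?_
      have h3 : ((n : ℝ) ^ (-3 / 4 : ℝ) * (n : ℝ) ^ (1 / 4 : ℝ)) ^ 2 = 1 / n := by
        rw [← Real.rpow_add (hn n h), ← Real.rpow_natCast, ← Real.rpow_mul (hn n h).le,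
          one_div (n : ℝ), ← Real.rpow_neg_one]
        norm_num
      rw [← h3, ← mul_pow, ← mul_assoc]
      exact pow_le_pow_left₀ (by positivity)
        (mul_le_mul_of_nonneg_right (hc n h) (by positivity)) 2
    · have := Finset.mem_Ioc.1 h
      exact Finset.mem_Icc.2 ⟨by omega, this.2⟩
  · refine le_trans (le_of_eq (Finset.sum_congr rfl fun n h => ?_))
      (vhz_gram X _ e he (fun n => (n : ℝ) ^ (-1 / 2 : ℝ)) φ)
    rw [mul_pow, ← Real.rpow_natCast, ← Real.rpow_mul (hn n h).le]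
    norm_num
  · have := Real.log_natCast_nonneg N
    positivity

theorem vhz_gap {T x x' : ℝ} (hT : 1 ≤ T) (hx : x ∈ Icc (T / 2) (4 * T))
    (hx' : x' ∈ Icc (T / 2) (4 * T)) :
    |x - x'| ≤ |√x - √x'| * (4 * √T) ∧ |√x - √x'| * √T ≤ |x - x'| := by
  have h : ∀ t ∈ Icc (T / 2) (4 * T), √T / 2 ≤ √t ∧ √t ≤ 2 * √T ∧ √t ^ 2 = t := fun t ht => by
    have h0 := Real.sq_sqrt (by linarith : 0 ≤ T)
    refine ⟨Real.le_sqrt_of_sq_le (by nlinarith [ht.1]),
      Real.sqrt_le_iff.2 ⟨by positivity, by nlinarith [ht.2]⟩, Real.sq_sqrt (by linarith [ht.1])⟩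
  obtain ⟨a1, a2, a3⟩ := h x hx
  obtain ⟨b1, b2, b3⟩ := h x' hx'
  have e : |x - x'| = |√x - √x'| * (√x + √x') := by
    rw [← abs_of_nonneg (by positivity : 0 ≤ √x + √x'), ← abs_mul]
    congr 1
    linear_combination b3 - a3
  rw [e]
  exact ⟨mul_le_mul_of_nonneg_left (by linarith) (abs_nonneg _),
    mul_le_mul_of_nonneg_left (by linarith) (abs_nonneg _)⟩

/- Choose `e x` of norm at most one with `‖S x‖ = e x * S x`.  Then the sum is `∑ n, c n * D n`,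
`D n = ∑ x, e x * exp (i κ √n √x)`, and by Cauchy-Schwarz its square is at most
`(∑ ‖c n‖ ^ 2 n ^ (1 / 2)) * ∑ n ^ (-1 / 2) ‖D n‖ ^ 2`, the first factor is at most `K ^ 2 (1 + log N)`.  Expand `‖D n‖ ^ 2`: the
diagonal gives `R * 2 √N`, the pairs `x ≠ x'` give `es` with `u = κ (√x - √x')`, where
`|κ| |x - x'| / (4 √T) ≤ |u| ≤ |κ| z / √T`; `hz_inv`. -/
theorem hz {κ : ℝ} (hκ : κ ≠ 0) : ∃ C : ℝ, 0 < C ∧ ∀ (c : ℕ → ℂ) (M N : ℕ) (K T y z : ℝ)
    (X : Finset ℝ), 1 ≤ T → 0 < y → 0 ≤ z → (∀ x ∈ X, x ∈ Icc (T / 2) (4 * T)) → Sep X y z →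
    (∀ n ∈ Finset.Ioc M N, ‖c n‖ ≤ K * (n : ℝ) ^ (-3 / 4 : ℝ)) →
    (∑ x ∈ X, ‖ts 2 κ c M N x‖) ^ 2 ≤ C * K ^ 2 * (1 + Real.log N) ^ 2 *
      (X.card * √(N : ℝ) + X.card * (1 + Real.log X.card) * √T / y +
        (X.card : ℝ) ^ 2 * √(z / √T) * ((M : ℝ) + 1) ^ (-1 / 4 : ℝ)) := by
  classical
  obtain ⟨C, hC, hes⟩ := es
  have hk := abs_pos.2 hκ
  refine ⟨2 + 16 * C / |κ| + C * √|κ|, by positivity, fun c M N K T y z X hT hy hz hX hS hc => ?_⟩
  have hL := Real.log_natCast_nonneg N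
  have hLX := Real.log_natCast_nonneg X.card
  have hT' : 0 < √T := Real.sqrt_pos.2 (by linarith)
  have e1 : ∀ x ∈ X, ts 2 κ c M N x =
      ∑ n ∈ Finset.Ioc M N, c n * exp (I * (κ * √x * √(n : ℝ) : ℝ)) := fun x _ =>
    Finset.sum_congr rfl fun n _ => by
      rw [← Real.sqrt_eq_rpow, Real.sqrt_mul (Nat.cast_nonneg n), mul_comm √(n : ℝ), ← mul_assoc κ]
  rw [Finset.sum_congr rfl fun x hx => congrArg norm (e1 x hx)]
  refine (vhz_cs X M N c K (fun x n => κ * √x * √(n : ℝ)) hc).trans ?_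
  set q := √(z / √T) * ((M : ℝ) + 1) ^ (-1 / 4 : ℝ) with hq
  have hq0 : 0 ≤ q := by positivity
  have h1 : ∀ x ∈ X, ∑ x' ∈ X, ‖∑ n ∈ Finset.Ioc M N, (((n : ℝ) ^ (-1 / 2 : ℝ) : ℝ) : ℂ) *
      exp (I * (κ * √x * √(n : ℝ) - κ * √x' * √(n : ℝ) : ℝ))‖ ≤
      2 * √(N : ℝ) + C * (1 + Real.log N) * (4 * √T / |κ| * (4 * (1 + Real.log X.card) / y) +
        X.card * (√|κ| * q)) := fun x hx => by
    rw [← Finset.add_sum_erase _ _ hx]
    refine add_le_add ((norm_sum_le _ _).trans (le_trans (le_of_eq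
      (Finset.sum_congr rfl fun n _ => ?_)) (vhz_sqrt M N))) ?_
    · rw [norm_mul, norm_ei, mul_one, Complex.norm_real, Real.norm_of_nonneg (by positivity)]
    have h2 : ∀ x' ∈ X.erase x, ‖∑ n ∈ Finset.Ioc M N, (((n : ℝ) ^ (-1 / 2 : ℝ) : ℝ) : ℂ) *
        exp (I * (κ * √x * √(n : ℝ) - κ * √x' * √(n : ℝ) : ℝ))‖ ≤
        C * (1 + Real.log N) * (4 * √T / |κ| * (1 / |x - x'|) + √|κ| * q) := fun x' hx' => by
      have hx'' := Finset.mem_of_mem_erase hx'
      obtain ⟨s1, s2⟩ := hS x hx x' hx'' (Finset.ne_of_mem_erase hx').symm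
      obtain ⟨g1, g2⟩ := vhz_gap hT (hX x hx) (hX x' hx'')
      have g0 : 0 < |x - x'| := hy.trans_le s1
      have g3 : 0 < |√x - √x'| := 
        (mul_pos_iff_of_pos_right (by positivity)).1 (g0.trans_le g1)
      have h3 := hes (κ * (√x - √x')) M N (mul_ne_zero hκ (abs_pos.1 g3))
      simp only [← sub_mul, ← mul_sub]
      refine h3.trans (mul_le_mul_of_nonneg_left (add_le_add ?_ ?_) (by positivity))
      · rw [abs_mul, mul_one_div, div_div, div_le_div_iff₀ (by positivity) (by positivity)]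
        nlinarith [mul_le_mul_of_nonneg_left g1 hk.le]
      · rw [abs_mul, Real.sqrt_mul hk.le, hq, mul_assoc]
        refine mul_le_mul_of_nonneg_left (mul_le_mul_of_nonneg_right (Real.sqrt_le_sqrt ?_)
          (by positivity)) (by positivity)
        exact (le_div_iff₀ hT').2 (g2.trans s2)
    refine (Finset.sum_le_sum h2).trans ?_
    rw [← Finset.mul_sum, Finset.sum_add_distrib, ← Finset.mul_sum, Finset.sum_const,
      nsmul_eq_mul]
    refine mul_le_mul_of_nonneg_left (add_le_add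
      (mul_le_mul_of_nonneg_left (hz_inv hy hS hx) (by positivity))
      (mul_le_mul_of_nonneg_right ?_ (by positivity))) (by positivity)
    exact_mod_cast Finset.card_erase_le
  refine (mul_le_mul_of_nonneg_left (Finset.sum_le_card_nsmul _ _ _ h1) (by positivity)).trans ?_
  rw [nsmul_eq_mul, mul_assoc ((X.card : ℝ) ^ 2), ← hq]
  set a := (X.card : ℝ) * √(N : ℝ) with ha
  set b := (X.card : ℝ) * (1 + Real.log X.card) * √T / y with hb
  set d := (X.card : ℝ) ^ 2 * q with hd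
  set L := 1 + Real.log N with hL'
  have ha0 : 0 ≤ a := by positivity
  have hb0 : 0 ≤ b := by positivity
  have hd0 : 0 ≤ d := by positivity
  have hL1 : 1 ≤ L := by linarith
  have e2 : (X.card : ℝ) * (2 * √(N : ℝ) + C * L * (4 * √T / |κ| *
      (4 * (1 + Real.log X.card) / y) + X.card * (√|κ| * q))) =
      2 * a + L * (16 * C / |κ| * b + C * √|κ| * d) := by
    rw [ha, hb, hd]
    ring
  rw [e2]
  set u := 16 * C / |κ|
  set v := C * √|κ|
  have hu : 0 ≤ u := by positivity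
  have hv : 0 ≤ v := by positivity
  have h4 : 2 * a + L * (u * b + v * d) ≤ L * ((2 + u + v) * (a + b + d)) := by
    have h5 : 2 * a ≤ L * (2 * a) := le_mul_of_one_le_left (by positivity) hL1
    have h6 : 2 * a + (u * b + v * d) ≤ (2 + u + v) * (a + b + d) := by
      nlinarith [mul_nonneg hu ha0, mul_nonneg hu hd0, mul_nonneg hv ha0, mul_nonneg hv hb0]
    nlinarith [mul_le_mul_of_nonneg_left h6 (by linarith : 0 ≤ L)]
  calc K ^ 2 * L * (2 * a + L * (u * b + v * d))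
      ≤ K ^ 2 * L * (L * ((2 + u + v) * (a + b + d))) :=
        mul_le_mul_of_nonneg_left h4 (by positivity)
    _ = _ := by ring

end Pool.Agent.Lib.MP_2a1a00_nt
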