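import Pool.Agent.Lib.MP_2a1a00_nt.V.Cnt
import Pool.Agent.Lib.MP_2a1a00_nt.V.Osc

/-! Substitutes for the inequality of Holder. -/

namespace Pool.Agent.Lib.MP_2a1a00_nt

open Complex MeasureTheory Set

theorem vhold_root {x Z : ℝ} {n : ℕ} (hx : 0 ≤ x) (hn : 0 < n) (h : x ^ n ≤ Z) :
    x ≤ Z ^ ((1 : ℝ) / n) := by
  have h1 : (x ^ n) ^ ((1 : ℝ) / n) = x := by
    rw [one_div]
    exact Real.pow_rpow_inv_natCast hx hn.ne'
  rw [← h1]
  exact Real.rpow_le_rpow (by positivity) h (by positivity)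

theorem vhold_pow_sub {e h : ℂ} {M : ℝ} (hM : 1 ≤ M) (he : ‖e‖ ≤ M) (hh : ‖h‖ ≤ M) (a : ℕ) :
    ‖e ^ a - h ^ a‖ ≤ a * ‖e - h‖ * M ^ a := by
  induction a with
  | zero => simp
  | succ a ih =>
    have e1 : e ^ (a + 1) - h ^ (a + 1) = (e ^ a - h ^ a) * e + h ^ a * (e - h) := by ring
    have hM0 : 0 ≤ M := by linarith
    have a1 : ‖e ^ a - h ^ a‖ * ‖e‖ ≤ a * ‖e - h‖ * M ^ a * M :=
      mul_le_mul ih he (norm_nonneg _) (by positivity)
    have a2 : ‖h‖ ^ a ≤ M ^ (a + 1) :=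
      (pow_le_pow_left₀ (norm_nonneg _) hh a).trans (pow_le_pow_right₀ hM (Nat.le_succ a))
    have a3 := mul_le_mul_of_nonneg_right a2 (norm_nonneg (e - h))
    rw [e1]
    refine (norm_add_le _ _).trans ?_
    rw [norm_mul, norm_mul, norm_pow]
    push_cast
    rw [pow_succ] at a3 ⊢
    linarith

/- Let `Z = 1 + ‖e‖ ^ A + ‖h‖ ^ A + ‖v‖ ^ 3`, so `‖e‖, ‖h‖ ≤ Z ^ (1 / A)`, `‖v‖ ≤ Z ^ (1 / 3)`.  If `Λ ≤ Z` the left side is at most
`2 Z ^ ρ ≤ 2 Λ ^ (ρ - 1) Z`.  Otherwise `‖e ^ a - h ^ a‖ ≤ a ‖e - h‖ (Z ^ (1 / A)) ^ (a - 1)` (`norm_pow_sub_pow_le`-type induction, or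
`Commute.geom_sum₂_mul`), `Z ^ ((a - 1) / A + b / 3) ≤ Z ≤ Λ`, and `r ≤ η + r ^ 2 / η`. -/
theorem hold_pt {a b A : ℕ} (hA : 0 < A) {ρ Λ η : ℝ} (hρ : (a : ℝ) / A + b / 3 ≤ ρ) (h1 : ρ ≤ 1)
    (hΛ : 1 ≤ Λ) (hη : 0 < η) (e h v : ℂ) :
    ‖(e ^ a - h ^ a) * v ^ b‖ ≤ 2 * Λ ^ (ρ - 1) * (1 + ‖e‖ ^ A + ‖h‖ ^ A + ‖v‖ ^ 3) +
      a * Λ * (η + ‖e - h‖ ^ 2 / η) := by
  set Z : ℝ := 1 + ‖e‖ ^ A + ‖h‖ ^ A + ‖v‖ ^ 3 with hZ
  have p1 : 0 ≤ ‖e‖ ^ A := by positivity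
  have p2 : 0 ≤ ‖h‖ ^ A := by positivity
  have p3 : 0 ≤ ‖v‖ ^ 3 := by positivity
  have hZ1 : 1 ≤ Z := by linarith
  have hZ0 : 0 < Z := by linarith
  have he : ‖e‖ ≤ Z ^ ((1 : ℝ) / A) := vhold_root (norm_nonneg _) hA (by linarith)
  have hh : ‖h‖ ≤ Z ^ ((1 : ℝ) / A) := vhold_root (norm_nonneg _) hA (by linarith)
  have hv : ‖v‖ ≤ Z ^ ((1 : ℝ) / (3 : ℕ)) := vhold_root (norm_nonneg _) (by norm_num) (by linarith)
  set M : ℝ := Z ^ ((1 : ℝ) / A) with hM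
  set N : ℝ := Z ^ ((1 : ℝ) / (3 : ℕ)) with hN
  have hM1 : 1 ≤ M := Real.one_le_rpow hZ1 (by positivity)
  have hN0 : 0 ≤ N := by positivity
  have hMN : M ^ a * N ^ b ≤ Z ^ ρ := by
    rw [hM, hN, ← Real.rpow_natCast, ← Real.rpow_natCast, ← Real.rpow_mul hZ0.le,
      ← Real.rpow_mul hZ0.le, ← Real.rpow_add hZ0]
    refine Real.rpow_le_rpow_of_exponent_le hZ1 (le_trans (le_of_eq ?_) hρ)
    push_cast
    ring
  have hvb : ‖v‖ ^ b ≤ N ^ b := pow_le_pow_left₀ (norm_nonneg _) hv b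
  have q1 : 0 ≤ 2 * Λ ^ (ρ - 1) * Z := by positivity
  have q2 : 0 ≤ a * Λ * (η + ‖e - h‖ ^ 2 / η) := by positivity
  rw [norm_mul, norm_pow]
  rcases le_total Λ Z with hc | hc
  · have a1 : ‖e ^ a - h ^ a‖ ≤ 2 * M ^ a := by
      refine (norm_sub_le _ _).trans ?_
      rw [norm_pow, norm_pow]
      have := pow_le_pow_left₀ (norm_nonneg _) he a
      have := pow_le_pow_left₀ (norm_nonneg _) hh a
      linarith
    have a2 : Z ^ ρ ≤ Λ ^ (ρ - 1) * Z := by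
      have : Z ^ ρ = Z ^ (ρ - 1) * Z := by
        rw [Real.rpow_sub_one hZ0.ne']
        field_simp
      rw [this]
      exact mul_le_mul_of_nonneg_right
        (Real.rpow_le_rpow_of_nonpos (by linarith) hc (by linarith)) hZ0.le
    have a3 : ‖e ^ a - h ^ a‖ * ‖v‖ ^ b ≤ 2 * M ^ a * N ^ b :=
      mul_le_mul a1 hvb (by positivity) (by positivity)
    nlinarith
  · have a1 := vhold_pow_sub hM1 he hh a
    have a2 : Z ^ ρ ≤ Λ := by
      refine le_trans ?_ hc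
      simpa using Real.rpow_le_rpow_of_exponent_le hZ1 h1
    have a3 : ‖e ^ a - h ^ a‖ * ‖v‖ ^ b ≤ a * ‖e - h‖ * M ^ a * N ^ b :=
      mul_le_mul a1 hvb (by positivity) (by positivity)
    have a4 : ‖e - h‖ ≤ η + ‖e - h‖ ^ 2 / η := by
      rw [← sub_le_iff_le_add', le_div_iff₀ hη]
      nlinarith [sq_nonneg (‖e - h‖ - η), norm_nonneg (e - h)]
    have a5 : a * ‖e - h‖ * (M ^ a * N ^ b) ≤ a * (η + ‖e - h‖ ^ 2 / η) * Λ :=
      mul_le_mul (mul_le_mul_of_nonneg_left a4 (by positivity)) (hMN.trans a2) (by positivity)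
        (by positivity)
    nlinarith

/- `hold_pt` for `e x / X`, `h x / X`, `v x / Y`, `Λ = η ^ (-1 / 2)`; integrate against `w` (`Bm.int_pow`). -/
theorem hold {a b A : ℕ} (hA : 0 < A) {ρ η T X Y Z : ℝ} (hρ : (a : ℝ) / A + b / 3 ≤ ρ) (h1 : ρ ≤ 1)
    (h0 : 0 < η) (hη : η ≤ 1) (hT : 0 ≤ T) (hX : 0 < X) (hY : 0 < Y) {e h v : ℝ → ℂ} {w : ℝ → ℝ}
    (he : Bm e T) (hh : Bm h T) (hv : Bm v T) (hw : ContinuousOn w (Icc T (2 * T)))
    (hw0 : ∀ x, 0 ≤ w x) (m0 : ∫ x in T..2 * T, w x ≤ Z) (m1 : mo A e w T ≤ Z * X ^ A)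
    (m2 : mo A h w T ≤ Z * X ^ A) (m3 : mo 3 v w T ≤ Z * Y ^ 3)
    (m4 : mo 2 (fun x => e x - h x) w T ≤ Z * (X * η) ^ 2) :
    ‖∫ x in T..2 * T, (e x ^ a - h x ^ a) * v x ^ b * w x‖ ≤
      (8 + 2 * a) * Z * X ^ a * Y ^ b * η ^ ((1 - ρ) / 2) := by
  have hT2 : T ≤ 2 * T := by linarith
  have hρ0 : 0 ≤ ρ := le_trans (by positivity) hρ
  set Λ : ℝ := η ^ (-(1 / 2) : ℝ) with hΛ
  have hΛ1 : 1 ≤ Λ := Real.one_le_rpow_of_pos_of_le_one_of_nonpos h0 hη (by norm_num)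
  set s : ℝ := η ^ ((1 - ρ) / 2) with hs
  have hs0 : 0 < s := by positivity
  have e1 : Λ ^ (ρ - 1) = s := by
    rw [hΛ, hs, ← Real.rpow_mul h0.le]
    congr 1
    ring
  have e2 : Λ * η ≤ s := by
    rw [hΛ, hs, ← Real.rpow_add_one h0.ne']
    exact Real.rpow_le_rpow_of_exponent_ge h0 hη (by linarith)
  have i0 : IntervalIntegrable w volume T (2 * T) := hw.intervalIntegrable_of_Icc hT2
  have i1 := he.int_pow hT A hw
  have i2 := hh.int_pow hT A hw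
  have i3 := hv.int_pow hT 3 hw
  have i4 := (he.sub hh).int_pow hT 2 hw
  have hZ : 0 ≤ Z := le_trans (intervalIntegral.integral_nonneg hT2 fun x _ => hw0 x) m0
  set K : ℝ := X ^ a * Y ^ b with hK
  have hK0 : 0 < K := by positivity
  have pt : ∀ x, ‖(e x ^ a - h x ^ a) * v x ^ b * w x‖ ≤
      K * (2 * s + a * Λ * η) * w x + K * (2 * s / X ^ A) * (‖e x‖ ^ A * w x) +
      K * (2 * s / X ^ A) * (‖h x‖ ^ A * w x) + K * (2 * s / Y ^ 3) * (‖v x‖ ^ 3 * w x) +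
      K * (a * Λ / (X ^ 2 * η)) * (‖e x - h x‖ ^ 2 * w x) := by
    intro x
    have b1 := hold_pt hA hρ h1 hΛ1 h0 (e x / X) (h x / X) (v x / Y)
    have hXc : (X : ℂ) ≠ 0 := ofReal_ne_zero.2 hX.ne'
    have hYc : (Y : ℂ) ≠ 0 := ofReal_ne_zero.2 hY.ne'
    have b2 : (e x ^ a - h x ^ a) * v x ^ b * w x =
        ((K * w x : ℝ) : ℂ) * (((e x / X) ^ a - (h x / X) ^ a) * (v x / Y) ^ b) := by
      rw [hK]
      push_cast
      rw [div_pow, div_pow, div_pow]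
      field_simp
    rw [e1, ← sub_div, norm_div, norm_div, norm_div, norm_div, Complex.norm_real, Complex.norm_real,
      Real.norm_of_nonneg hX.le, Real.norm_of_nonneg hY.le] at b1
    have hw1 := hw0 x
    rw [b2, norm_mul, Complex.norm_real, Real.norm_of_nonneg (by positivity)]
    refine (mul_le_mul_of_nonneg_left b1 (by positivity)).trans (le_of_eq ?_)
    rw [div_pow, div_pow, div_pow, div_pow]
    field_simp
    ring
  have j0 := i0.const_mul (K * (2 * s + a * Λ * η))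
  have j1 := i1.const_mul (K * (2 * s / X ^ A))
  have j2 := i2.const_mul (K * (2 * s / X ^ A))
  have j3 := i3.const_mul (K * (2 * s / Y ^ 3))
  have j4 := i4.const_mul (K * (a * Λ / (X ^ 2 * η)))
  refine (intervalIntegral.norm_integral_le_of_norm_le hT2
    (Filter.Eventually.of_forall fun x _ => pt x) ((((j0.add j1).add j2).add j3).add j4)).trans ?_
  rw [intervalIntegral.integral_add (((j0.add j1).add j2).add j3) j4,
    intervalIntegral.integral_add ((j0.add j1).add j2) j3,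
    intervalIntegral.integral_add (j0.add j1) j2, intervalIntegral.integral_add j0 j1]
  simp only [intervalIntegral.integral_const_mul]
  have hΛ0 : 0 < Λ := by linarith
  have c0 := mul_le_mul_of_nonneg_left m0 (show 0 ≤ K * (2 * s + a * Λ * η) by positivity)
  have c1 := mul_le_mul_of_nonneg_left m1 (show 0 ≤ K * (2 * s / X ^ A) by positivity)
  have c2 := mul_le_mul_of_nonneg_left m2 (show 0 ≤ K * (2 * s / X ^ A) by positivity)
  have c3 := mul_le_mul_of_nonneg_left m3 (show 0 ≤ K * (2 * s / Y ^ 3) by positivity)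
  have c4 := mul_le_mul_of_nonneg_left m4 (show 0 ≤ K * (a * Λ / (X ^ 2 * η)) by positivity)
  have d1 : K * (2 * s / X ^ A) * (Z * X ^ A) = K * Z * (2 * s) := by field_simp
  have d3 : K * (2 * s / Y ^ 3) * (Z * Y ^ 3) = K * Z * (2 * s) := by field_simp
  have d4 : K * (a * Λ / (X ^ 2 * η)) * (Z * (X * η) ^ 2) = K * Z * (a * (Λ * η)) := by field_simp
  have d5 : K * Z * (a * (Λ * η)) ≤ K * Z * (a * s) :=
    mul_le_mul_of_nonneg_left (mul_le_mul_of_nonneg_left e2 (by positivity)) (by positivity)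
  have d0 : K * (2 * s + a * Λ * η) * Z = K * Z * (2 * s) + K * Z * (a * (Λ * η)) := by ring
  have d6 : (8 + 2 * a) * Z * X ^ a * Y ^ b * s = 4 * (K * Z * (2 * s)) + 2 * (K * Z * (a * s)) := by
    rw [hK]
    ring
  unfold mo at c1 c2 c3 c4
  rw [d1] at c1 c2
  rw [d3] at c3
  rw [d4] at c4
  rw [d0] at c0
  rw [d6]
  linarith

/- `‖r‖ ≤ (X + ‖r‖ ^ 2 / X) / 2`. -/
theorem hold1 {T X Z P : ℝ} (hT : 0 ≤ T) (hX : 0 < X) {G r : ℝ → ℂ} {w : ℝ → ℝ} (hG : Bm G T)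
    (hr : Bm r T) (hw : ContinuousOn w (Icc T (2 * T))) (hw0 : ∀ x, 0 ≤ w x)
    (hP : ∀ x ∈ Icc T (2 * T), ‖G x‖ ≤ P) (m0 : ∫ x in T..2 * T, w x ≤ Z)
    (m1 : mo 2 r w T ≤ Z * X ^ 2) : ‖∫ x in T..2 * T, G x * r x * w x‖ ≤ P * (Z * X) := by
  have hT2 : T ≤ 2 * T := by linarith
  have hP0 : 0 ≤ P := (norm_nonneg _).trans (hP T ⟨le_rfl, hT2⟩)
  have i0 : IntervalIntegrable w volume T (2 * T) := hw.intervalIntegrable_of_Icc hT2
  have i1 := hr.int_pow hT 2 hw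
  have j0 := i0.const_mul (P * X / 2)
  have j1 := i1.const_mul (P / (2 * X))
  have pt : ∀ x ∈ Ioc T (2 * T), ‖G x * r x * w x‖ ≤
      P * X / 2 * w x + P / (2 * X) * (‖r x‖ ^ 2 * w x) := by
    intro x hx
    have hw1 := hw0 x
    rw [norm_mul, norm_mul, Complex.norm_real, Real.norm_of_nonneg hw1]
    have a1 : ‖r x‖ ≤ X / 2 + ‖r x‖ ^ 2 / (2 * X) := by
      rw [← sub_le_iff_le_add', le_div_iff₀ (by positivity)]
      nlinarith [sq_nonneg (‖r x‖ - X)]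
    have a2 := mul_le_mul_of_nonneg_right
      (mul_le_mul (hP x (Ioc_subset_Icc_self hx)) a1 (norm_nonneg _) hP0) hw1
    refine a2.trans (le_of_eq ?_)
    ring
  refine (intervalIntegral.norm_integral_le_of_norm_le hT2
    (Filter.Eventually.of_forall pt) (j0.add j1)).trans ?_
  rw [intervalIntegral.integral_add j0 j1]
  simp only [intervalIntegral.integral_const_mul]
  have c0 := mul_le_mul_of_nonneg_left m0 (show 0 ≤ P * X / 2 by positivity)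
  have c1 := mul_le_mul_of_nonneg_left m1 (show 0 ≤ P / (2 * X) by positivity)
  have d1 : P / (2 * X) * (Z * X ^ 2) = P * X / 2 * Z := by field_simp
  unfold mo at c1
  rw [d1] at c1
  linarith

/- With `r = e - h`: `‖e ^ 2 - h ^ 2‖ ≤ ‖r‖ (2 ‖e‖ + ‖r‖) ≤ η ‖e‖ ^ 2 + ‖r‖ ^ 2 / η + ‖r‖ ^ 2`. -/
theorem hold2 {T X Z P η : ℝ} (hT : 0 ≤ T) (h0 : 0 < η) (hη : η ≤ 1) {G e h : ℝ → ℂ} {w : ℝ → ℝ}
    (hG : Bm G T) (he : Bm e T) (hh : Bm h T) (hw : ContinuousOn w (Icc T (2 * T)))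
    (hw0 : ∀ x, 0 ≤ w x) (hP : ∀ x ∈ Icc T (2 * T), ‖G x‖ ≤ P) (m1 : mo 2 e w T ≤ Z * X ^ 2)
    (m2 : mo 2 (fun x => e x - h x) w T ≤ Z * (X * η) ^ 2) {y : ℝ} (hy : y ∈ Icc T (2 * T)) :
    ‖∫ x in T..y, G x * (e x ^ 2 - h x ^ 2) * w x‖ ≤ P * (3 * Z * X ^ 2 * η) := by
  have hT2 : T ≤ 2 * T := by linarith
  have hP0 : 0 ≤ P := (norm_nonneg _).trans (hP T ⟨le_rfl, hT2⟩)
  have i1 := he.int_pow hT 2 hw
  have i2 := (he.sub hh).int_pow hT 2 hw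
  have j1 := i1.const_mul (P * η)
  have j2 := i2.const_mul (P * (1 / η + 1))
  have pt : ∀ x ∈ Ioc T y, ‖G x * (e x ^ 2 - h x ^ 2) * w x‖ ≤
      P * η * (‖e x‖ ^ 2 * w x) + P * (1 / η + 1) * (‖e x - h x‖ ^ 2 * w x) := by
    intro x hx
    have hw1 := hw0 x
    rw [norm_mul, norm_mul, Complex.norm_real, Real.norm_of_nonneg hw1]
    have a0 : e x ^ 2 - h x ^ 2 = 2 * e x * (e x - h x) - (e x - h x) ^ 2 := by ring
    have a1 : ‖e x ^ 2 - h x ^ 2‖ ≤ η * ‖e x‖ ^ 2 + (1 / η + 1) * ‖e x - h x‖ ^ 2 := by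
      rw [a0]
      refine (norm_sub_le _ _).trans ?_
      rw [norm_mul, norm_mul, norm_pow, Complex.norm_two]
      have b1 : 2 * ‖e x‖ * ‖e x - h x‖ ≤ η * ‖e x‖ ^ 2 + ‖e x - h x‖ ^ 2 / η := by
        rw [← sub_le_iff_le_add', le_div_iff₀ h0]
        nlinarith [sq_nonneg (η * ‖e x‖ - ‖e x - h x‖)]
      have b2 : (1 / η + 1) * ‖e x - h x‖ ^ 2 = ‖e x - h x‖ ^ 2 / η + ‖e x - h x‖ ^ 2 := by ring
      linarith
    have a2 := mul_le_mul_of_nonneg_right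
      (mul_le_mul (hP x ⟨hx.1.le, hx.2.trans hy.2⟩) a1 (norm_nonneg _) hP0) hw1
    refine a2.trans (le_of_eq ?_)
    ring
  have hsub : uIcc T y ⊆ uIcc T (2 * T) := by
    rw [uIcc_of_le hy.1, uIcc_of_le hT2]
    exact Icc_subset_Icc_right hy.2
  refine (intervalIntegral.norm_integral_le_of_norm_le hy.1
    (Filter.Eventually.of_forall pt) ((j1.add j2).mono_set hsub)).trans ?_
  refine (intervalIntegral.integral_mono_interval le_rfl hy.1 hy.2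
    (Filter.Eventually.of_forall fun x => ?_) (j1.add j2)).trans ?_
  · have hw1 := hw0 x
    show (0 : ℝ) ≤ _
    positivity
  rw [intervalIntegral.integral_add j1 j2]
  simp only [intervalIntegral.integral_const_mul]
  have hZ : 0 ≤ Z * X ^ 2 := le_trans (intervalIntegral.integral_nonneg hT2 fun x _ =>
    mul_nonneg (by positivity) (hw0 x)) m1
  have c1 := mul_le_mul_of_nonneg_left m1 (show 0 ≤ P * η by positivity)
  have c2 := mul_le_mul_of_nonneg_left m2 (show 0 ≤ P * (1 / η + 1) by positivity)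
  have d2 : P * (1 / η + 1) * (Z * (X * η) ^ 2) =
      P * η * (Z * X ^ 2) + P * η * (Z * X ^ 2) * η := by field_simp
  have d3 : P * η * (Z * X ^ 2) * η ≤ P * η * (Z * X ^ 2) :=
    mul_le_of_le_one_right (by positivity) hη
  unfold mo at c1 c2
  rw [d2] at c2
  linarith

variable {G G₁ G₂ : ℝ → ℂ} {T P P₁ P₂ μ μ' : ℝ}

theorem Sm.cont (h : Sm G T P μ) : ContinuousOn G (Icc T (2 * T)) := by
  obtain ⟨G', h1, -⟩ := h
  exact h1.cont

theorem Sm.bm (h : Sm G T P μ) : Bm G T := by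
  exact Bm.of_cont h.cont

theorem Sm.le (h : Sm G T P μ) {x : ℝ} (hx : x ∈ Icc T (2 * T)) : ‖G x‖ ≤ P := by
  obtain ⟨G', -, h2⟩ := h
  exact (h2 x hx).1

theorem Sm.mono (h : Sm G T P₁ μ) (hP : P₁ ≤ P₂) (h0 : 0 ≤ μ) (hμ : μ ≤ μ') : Sm G T P₂ μ' := by
  obtain ⟨G', h1, h2⟩ := h
  refine ⟨G', h1, fun x hx => ⟨(h2 x hx).1.trans hP, (h2 x hx).2.trans ?_⟩⟩
  exact mul_le_mul hP hμ h0 (((norm_nonneg _).trans (h2 x hx).1).trans hP)

theorem Sm.mul (h₁ : Sm G₁ T P₁ μ) (h₂ : Sm G₂ T P₂ μ) (h0 : 0 ≤ μ) :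
    Sm (fun x => G₁ x * G₂ x) T (2 * (P₁ * P₂)) μ := by
  obtain ⟨G₁', a1, a2⟩ := h₁
  obtain ⟨G₂', b1, b2⟩ := h₂
  refine ⟨_, a1.mul b1, fun x hx => ?_⟩
  obtain ⟨a3, a4⟩ := a2 x hx
  obtain ⟨b3, b4⟩ := b2 x hx
  have p1 : 0 ≤ P₁ := (norm_nonneg _).trans a3
  have p2 : 0 ≤ P₂ := (norm_nonneg _).trans b3
  have c1 : ‖G₁ x‖ * ‖G₂ x‖ ≤ P₁ * P₂ := mul_le_mul a3 b3 (norm_nonneg _) p1
  have c2 : ‖G₁' x‖ * ‖G₂ x‖ ≤ P₁ * μ * P₂ := mul_le_mul a4 b3 (norm_nonneg _) (by positivity)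
  have c3 : ‖G₁ x‖ * ‖G₂' x‖ ≤ P₁ * (P₂ * μ) := mul_le_mul a3 b4 (norm_nonneg _) p1
  have c4 : 0 ≤ P₁ * P₂ := by positivity
  constructor
  · rw [norm_mul]
    linarith
  · refine (norm_add_le _ _).trans ?_
    rw [norm_mul, norm_mul]
    linarith

theorem Sm.sub (h₁ : Sm G₁ T P₁ μ) (h₂ : Sm G₂ T P₂ μ) :
    Sm (fun x => G₁ x - G₂ x) T (P₁ + P₂) μ := by
  obtain ⟨G₁', a1, a2⟩ := h₁
  obtain ⟨G₂', b1, b2⟩ := h₂
  refine ⟨_, a1.sub b1, fun x hx => ⟨?_, ?_⟩⟩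
  · exact (norm_sub_le _ _).trans (add_le_add (a2 x hx).1 (b2 x hx).1)
  · rw [add_mul]
    exact (norm_sub_le _ _).trans (add_le_add (a2 x hx).2 (b2 x hx).2)

theorem Sm.pow (h : Sm G T P μ) (h0 : 0 ≤ μ) (a : ℕ) : Sm (fun x => G x ^ a) T ((2 * P) ^ a) μ := by
  induction a with
  | zero =>
    refine ⟨fun _ => 0, ?_, fun x _ => ?_⟩
    · simpa using nice_one T
    · simpa using h0
  | succ a ih =>
    have h1 := ih.mul h h0
    have e1 : (2 * P) ^ (a + 1) = 2 * ((2 * P) ^ a * P) := by ring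
    rw [e1]
    simpa only [pow_succ] using h1

/- `nice_exp`, `norm_exp_log`. -/
theorem sm_px (hT : 0 < T) (D : ℂ) {β : ℂ} (hβ : 0 ≤ β.re) :
    Sm (fun x => D * px β x) T (‖D‖ * ((1 + ‖β‖) * (2 * T) ^ β.re)) (1 / T) := by
  have hD : Nice (fun _ : ℝ => D) (fun _ => 0) T :=
    ⟨continuousOn_const, fun x _ => hasDerivWithinAt_const _ _ _, Bm.of_cont continuousOn_const⟩
  refine ⟨_, hD.mul (nice_exp hT β), fun x hx => ?_⟩
  have hx0 : 0 < x := hT.trans_le hx.1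
  have a1 := norm_exp_log hT hβ hx
  have p1 : 0 ≤ (2 * T) ^ β.re := by positivity
  have p2 := norm_nonneg β
  constructor
  · rw [norm_mul]
    refine mul_le_mul_of_nonneg_left (le_trans a1 ?_) (norm_nonneg _)
    nlinarith
  · rw [zero_mul, zero_add, norm_mul, norm_mul, mul_assoc]
    refine mul_le_mul_of_nonneg_left ?_ (norm_nonneg _)
    have a2 : ‖β / (x : ℂ)‖ ≤ (1 + ‖β‖) * (1 / T) := by
      rw [norm_div, Complex.norm_real, Real.norm_of_nonneg hx0.le, mul_one_div]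
      exact div_le_div₀ (by positivity) (by linarith) hT hx.1
    refine (mul_le_mul a2 a1 (norm_nonneg _) (by positivity)).trans (le_of_eq ?_)
    ring

/- Let `Γ y = ∫ T..y, g`.  The product `G * Γ` is continuous with the right derivative `G' * Γ + G * g`:
`intervalIntegral.integral_eq_sub_of_hasDeriv_right_of_le` (compare `Nice.parts`). -/
theorem Sm.parts (hT : 0 ≤ T) (h : Sm G T P μ) {g : ℝ → ℂ} (hg : ContinuousOn g (Icc T (2 * T)))
    {Z : ℝ} (hZ : ∀ y ∈ Icc T (2 * T), ‖∫ x in T..y, g x‖ ≤ Z) {y : ℝ} (hy : y ∈ Icc T (2 * T)) :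
    ‖∫ x in T..y, G x * g x‖ ≤ P * (1 + T * |μ|) * Z := by
  have hT2 : T ≤ 2 * T := by linarith
  obtain ⟨G', a1, a2⟩ := h
  have hP0 : 0 ≤ P := (norm_nonneg _).trans (a2 y hy).1
  have hZ0 : 0 ≤ Z := (norm_nonneg _).trans (hZ y hy)
  have hgi : IntervalIntegrable g volume T (2 * T) := hg.intervalIntegrable_of_Icc hT2
  have hΓ : ContinuousOn (fun z => ∫ x in T..z, g x) (Icc T (2 * T)) := by
    have := intervalIntegral.continuousOn_primitive_interval' hgi left_mem_uIcc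
    rwa [uIcc_of_le hT2] at this
  have hsub : Icc T y ⊆ Icc T (2 * T) := Icc_subset_Icc_right hy.2
  have hd : ∀ z ∈ Ioo T y, HasDerivWithinAt (fun z => ∫ x in T..z, g x) (g z) (Ioi z) z := by
    intro z hz
    have hz2 : z ∈ Ioo T (2 * T) := ⟨hz.1, hz.2.trans_le hy.2⟩
    have hc : ContinuousOn g (Ioo T (2 * T)) := hg.mono Ioo_subset_Icc_self
    exact (intervalIntegral.integral_hasDerivAt_right
      ((Bm.of_cont hg).int (Ioo_subset_Icc_self hz2))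
      (hc.stronglyMeasurableAtFilter isOpen_Ioo z hz2)
      (hg.continuousAt (Icc_mem_nhds hz2.1 hz2.2))).hasDerivWithinAt
  have h1 := intervalIntegral.integral_mul_deriv_eq_deriv_mul_of_hasDeriv_right (a := T)
    (b := y) (u := G) (v := fun z => ∫ x in T..z, g x) (u' := G') (v' := g)
    (by rw [uIcc_of_le hy.1]; exact a1.cont.mono hsub)
    (by rw [uIcc_of_le hy.1]; exact hΓ.mono hsub)
    (by
      rw [min_eq_left hy.1, max_eq_right hy.1]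
      exact fun z hz => a1.der z ⟨hz.1, hz.2.trans_le hy.2⟩)
    (by rw [min_eq_left hy.1, max_eq_right hy.1]; exact hd)
    (a1.bm.int hy) ((Bm.of_cont hg).int hy)
  rw [h1]
  simp only [intervalIntegral.integral_same, mul_zero, sub_zero]
  have b1 : ‖G y * ∫ x in T..y, g x‖ ≤ P * Z := by
    rw [norm_mul]
    exact mul_le_mul (a2 y hy).1 (hZ y hy) (norm_nonneg _) hP0
  have b2 : ‖∫ z in T..y, G' z * ∫ x in T..z, g x‖ ≤ P * |μ| * Z * |y - T| := by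
    refine intervalIntegral.norm_integral_le_of_norm_le_const fun z hz => ?_
    rw [uIoc_of_le hy.1] at hz
    have hz2 : z ∈ Icc T (2 * T) := ⟨hz.1.le, hz.2.trans hy.2⟩
    rw [norm_mul]
    exact mul_le_mul ((a2 z hz2).2.trans (mul_le_mul_of_nonneg_left (le_abs_self μ) hP0))
      (hZ z hz2) (norm_nonneg _) (by positivity)
  have b3 : |y - T| ≤ T := by
    rw [abs_of_nonneg (by linarith [hy.1])]
    linarith [hy.2]
  have b4 : P * |μ| * Z * |y - T| ≤ P * |μ| * Z * T := mul_le_mul_of_nonneg_left b3 (by positivity)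
  refine (norm_sub_le _ _).trans ?_
  linarith

end Pool.Agent.Lib.MP_2a1a00_nt
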