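import Pool.Agent.Lib.MP_2a1a00_nt.V.St1
import Pool.Agent.Lib.MP_2a1a00_nt.Shift

/-! Mellin inversion for the gamma function in a sector. -/

namespace Pool.Agent.Lib.MP_2a1a00_nt

open Complex MeasureTheory Set

theorem vme1_ie {δ : ℝ} (hδ : 0 < δ) (k : ℝ) :
    Integrable fun v : ℝ => (1 + |v|) ^ k * Real.exp (-δ * |v|) := by
  have hc : Continuous fun v : ℝ => (1 + |v|) ^ k * Real.exp (-δ * |v|) :=
    (Continuous.rpow_const (by fun_prop) fun v => Or.inl (by positivity)).mul (by fun_prop)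
  obtain ⟨ε, hε, he⟩ : ∃ ε : ℝ, 0 < ε ∧ ε * |k| ≤ δ / 2 := by
    refine ⟨δ / 2 / (|k| + 1), by positivity, ?_⟩
    rw [div_mul_eq_mul_div, div_le_iff₀ (by positivity)]
    exact mul_le_mul_of_nonneg_left (by linarith) (by positivity)
  refine ((shift_int.comp_mul_left' (half_pos hδ).ne').const_mul ((1 + ε⁻¹) ^ |k|)).mono'
    hc.aestronglyMeasurable (Filter.Eventually.of_forall fun v => ?_)
  have h0 := abs_nonneg v
  have h1 : 1 + |v| ≤ (1 + ε⁻¹) * Real.exp (ε * |v|) := by
    refine le_trans ?_ (mul_le_mul_of_nonneg_left (Real.add_one_le_exp _) (by positivity))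
    have h2 : ε⁻¹ * (ε * |v|) = |v| := inv_mul_cancel_left₀ hε.ne' _
    nlinarith [mul_nonneg hε.le h0, inv_pos.2 hε]
  have h2 : (1 + |v|) ^ k ≤ (1 + ε⁻¹) ^ |k| * Real.exp (ε * |v| * |k|) := by
    rw [Real.exp_mul, ← Real.mul_rpow (by positivity) (by positivity)]
    exact (Real.rpow_le_rpow_of_exponent_le (by linarith) (le_abs_self k)).trans
      (Real.rpow_le_rpow (by positivity) h1 (abs_nonneg k))
  rw [Real.norm_of_nonneg (by positivity)]
  refine (mul_le_mul_of_nonneg_right h2 (Real.exp_pos _).le).trans ?_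
  rw [mul_assoc, ← Real.exp_add, abs_mul, abs_of_pos (half_pos hδ)]
  refine mul_le_mul_of_nonneg_left (Real.exp_le_exp.2 ?_) (by positivity)
  nlinarith [mul_le_mul_of_nonneg_right he h0]

theorem vme1_cont {c : ℝ} (hc : 0 < c) : Continuous fun v : ℝ => Gamma (c + v * I) := by
  refine continuous_iff_continuousAt.2 fun v => ContinuousAt.comp (f := fun v : ℝ => (c + v * I : ℂ))
    (differentiableAt_Gamma _ fun m h => ?_).continuousAt (by fun_prop)
  have h1 := congrArg re h
  simp at h1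
  linarith [Nat.cast_nonneg (α := ℝ) m]

theorem vme1_bd {c : ℝ} (hc : 0 < c) : ∃ C : ℝ, 0 < C ∧ ∀ (δ R : ℝ) (ω : ℂ) (v : ℝ),
    |ω.im| ≤ Real.pi / 2 - δ → R ≤ ω.re → ‖Gamma (c + v * I) * exp (-(c + v * I) * ω)‖ ≤
      C * Real.exp (-c * R) * ((1 + |v|) ^ (c - 1 / 2) * Real.exp (-δ * |v|)) := by
  obtain ⟨C, hC, h⟩ := gam_vert hc
  refine ⟨C, hC, fun δ R ω v h1 h2 => ?_⟩
  have h3 : (-(c + v * I) * ω : ℂ).re = -c * ω.re + v * ω.im := by simp
  have h4 : v * ω.im ≤ |v| * (Real.pi / 2 - δ) :=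
    (le_abs_self _).trans (by rw [abs_mul]; exact mul_le_mul_of_nonneg_left h1 (abs_nonneg v))
  rw [norm_mul, norm_exp, h3]
  refine (mul_le_mul_of_nonneg_right (h v) (Real.exp_pos _).le).trans ?_
  rw [mul_assoc, ← Real.exp_add, mul_mul_mul_comm, ← Real.exp_add]
  refine mul_le_mul_of_nonneg_left (Real.exp_le_exp.2 ?_) (by positivity)
  nlinarith [mul_le_mul_of_nonneg_left h2 hc.le]

theorem vme1_int {c : ℝ} (hc : 0 < c) {ω : ℂ} (hω : |ω.im| < Real.pi / 2) :
    Integrable fun v : ℝ => Gamma (c + v * I) * exp (-(c + v * I) * ω) := by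
  obtain ⟨C, -, h⟩ := vme1_bd hc
  exact ((vme1_ie (sub_pos.2 hω) _).const_mul _).mono'
    ((vme1_cont hc).mul (by fun_prop)).aestronglyMeasurable (Filter.Eventually.of_forall fun v =>
      h _ _ ω v (by linarith) le_rfl)

theorem vme1_diff {c : ℝ} (hc : 0 < c) {ω : ℂ} (hω : |ω.im| < Real.pi / 2) :
    DifferentiableAt ℂ (fun ω : ℂ => ∫ v : ℝ, Gamma (c + v * I) * exp (-(c + v * I) * ω)) ω := by
  obtain ⟨C, hC, h⟩ := vme1_bd hc
  obtain ⟨δ, hδ, h1⟩ : ∃ δ : ℝ, 0 < δ ∧ |ω.im| + δ = Real.pi / 2 - δ :=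
    ⟨(Real.pi / 2 - |ω.im|) / 2, by linarith, by ring⟩
  refine (hasDerivAt_integral_of_dominated_loc_of_deriv_le (s := Metric.ball ω δ)
    (F' := fun w (v : ℝ) => Gamma (c + v * I) * exp (-(c + v * I) * w) * (-(c + v * I)))
    (bound := fun v => C * Real.exp (-c * (ω.re - δ)) * (c + 1) *
      ((1 + |v|) ^ (c - 1 / 2 + 1) * Real.exp (-δ * |v|))) (Metric.ball_mem_nhds ω hδ)
    (Filter.Eventually.of_forall fun w => ((vme1_cont hc).mul (by fun_prop)).aestronglyMeasurable)
    (vme1_int hc hω) (((vme1_cont hc).mul (by fun_prop)).mul (by fun_prop)).aestronglyMeasurable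
    (Filter.Eventually.of_forall fun v w hw => ?_) ((vme1_ie hδ _).const_mul _)
    (Filter.Eventually.of_forall fun v w _ => ?_)).2.differentiableAt
  · rw [Metric.mem_ball, dist_eq_norm] at hw
    have h2 := (abs_im_le_norm (w - ω)).trans hw.le
    have h3 := (abs_re_le_norm (w - ω)).trans hw.le
    rw [sub_im] at h2
    rw [sub_re] at h3
    have h4 : ‖(-(c + v * I) : ℂ)‖ ≤ (c + 1) * (1 + |v|) := by
      rw [norm_neg]
      refine (norm_add_le _ _).trans ?_
      rw [norm_mul, norm_I, norm_real, norm_real, Real.norm_of_nonneg hc.le, Real.norm_eq_abs]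
      nlinarith [abs_nonneg v]
    rw [norm_mul, Real.rpow_add_one (by positivity)]
    refine (mul_le_mul (h δ (ω.re - δ) w v (by linarith [abs_sub_abs_le_abs_sub w.im ω.im])
      (by linarith [(abs_le.1 h3).1])) h4 (norm_nonneg _) (by positivity)).trans (le_of_eq ?_)
    ring
  · have h2 := (((hasDerivAt_id w).const_mul (-(c + v * I) : ℂ)).cexp).const_mul (Gamma (c + v * I))
    simpa only [id, mul_one, mul_assoc, Pi.mul_apply] using h2

/- `mellin_inversion` for `x ↦ exp (-x)` (`Complex.GammaIntegral_eq_mellin`, `Complex.Gamma_eq_integral`,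
`Complex.GammaIntegral_convergent`), vertical integrability from `gam_vert`. -/
theorem me1_real {c : ℝ} (hc : 0 < c) (u : ℝ) :
    Ln (fun z => Gamma z * exp (-z * u)) c = exp (-exp (u : ℂ)) := by
  have h1 : ∀ v : ℝ, mellin (fun x : ℝ => (Real.exp (-x) : ℂ)) (c + v * I) = Gamma (c + v * I) :=
    fun v => by rw [← GammaIntegral_eq_mellin, Gamma_eq_integral (by simpa using hc)]
  have h2 := mellinInv_mellin_eq c (fun x : ℝ => (Real.exp (-x) : ℂ)) (Real.exp_pos u)
    (by
      have h := GammaIntegral_convergent (s := c) (by simpa using hc)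
      simpa only [MellinConvergent, smul_eq_mul, mul_comm] using h)
    (by
      have h := vme1_int hc (ω := 0) (by simpa using Real.pi_pos)
      simpa only [VerticalIntegrable, h1, mul_zero, exp_zero, mul_one] using h)
    (by fun_prop)
  have h3 : ∀ z : ℂ, (Real.exp u : ℂ) ^ (-z) = exp (-z * u) := fun z => by
    rw [cpow_def_of_ne_zero (ofReal_ne_zero.2 (Real.exp_pos u).ne'), ← ofReal_log (Real.exp_pos u).le,
      Real.log_exp, mul_comm]
  simp only [mellinInv, h1, h3, smul_eq_mul, real_smul] at h2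
  simp only [Ln, mul_comm (Gamma _)]
  rw [h2]
  push_cast
  rfl

/- Both sides are holomorphic in `ω` on the strip `|im ω| < π / 2` (differentiate under the integral, dominated
through `gam_vert`: `‖exp (-z ω)‖ = exp (-c re ω + v im ω)`) and agree for real `ω`:
`AnalyticOnNhd.eqOn_of_preconnected_of_frequently_eq`. -/
theorem me1_strip {c : ℝ} (hc : 0 < c) {ω : ℂ} (hω : |ω.im| < Real.pi / 2) :
    Ln (fun z => Gamma z * exp (-z * ω)) c = exp (-exp ω) := by
  have ho : IsOpen {w : ℂ | |w.im| < Real.pi / 2} := isOpen_lt (by fun_prop) continuous_const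
  have hp : IsPreconnected {w : ℂ | |w.im| < Real.pi / 2} := by
    simp only [abs_lt]
    exact ((convex_halfSpace_im_gt _).inter (convex_halfSpace_im_lt _)).isPreconnected
  have h1 : AnalyticOnNhd ℂ (fun w : ℂ => Ln (fun z => Gamma z * exp (-z * w)) c)
      {w : ℂ | |w.im| < Real.pi / 2} :=
    DifferentiableOn.analyticOnNhd (fun w hw =>
      ((vme1_diff hc hw).const_mul _).differentiableWithinAt) ho
  have h2 : AnalyticOnNhd ℂ (fun w : ℂ => exp (-exp w)) {w : ℂ | |w.im| < Real.pi / 2} :=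
    DifferentiableOn.analyticOnNhd (by fun_prop) ho
  refine h1.eqOn_of_preconnected_of_frequently_eq h2 hp (z₀ := ((0 : ℝ) : ℂ))
    (by simpa using Real.pi_pos) ?_ hω
  have h3 : Filter.Tendsto (fun u : ℝ => (u : ℂ)) (nhdsWithin 0 {0}ᶜ) (nhdsWithin ((0 : ℝ) : ℂ) {((0 : ℝ) : ℂ)}ᶜ) :=
    continuous_ofReal.continuousWithinAt.tendsto_nhdsWithin fun u hu => ofReal_injective.ne hu
  exact h3.frequently (Filter.Eventually.of_forall fun u => me1_real hc u).frequently

theorem me1_int {c : ℝ} (hc : 0 < c) {ω : ℂ} (hω : |ω.im| < Real.pi / 2) :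
    Integrable fun v : ℝ => Gamma (c + v * I) * exp (-(c + v * I) * ω) :=
  vme1_int hc hω

end Pool.Agent.Lib.MP_2a1a00_nt
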