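import Pool.Agent.Lib.MP_2a1a00_nt.V.TB
import Pool.Agent.Lib.MP_2a1a00_nt.V.C1
import Pool.Agent.Lib.MP_2a1a00_nt.Unt

/-! The approximation of the error term by a short piece of the Voronoi series. -/

namespace Pool.Agent.Lib.MP_2a1a00_nt

open Complex MeasureTheory Set

theorem p1_W {w T : ℝ} (h0 : 0 ≤ w) (h1 : w ≤ 1) (hT : 1 ≤ T) : 1 ≤ T ^ w ∧ T ^ w ≤ T :=
  ⟨Real.one_le_rpow hT h0, by simpa using Real.rpow_le_rpow_of_exponent_le hT h1⟩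

theorem p1_div {w T : ℝ} (hT : 1 ≤ T) : T / T ^ w = T ^ (1 - w) := by
  rw [Real.rpow_sub (by linarith), Real.rpow_one]

theorem p1_pos {T x : ℝ} (hT : 1 ≤ T) (hx : x ∈ Icc T (2 * T)) : x ∈ Ioi (0 : ℝ) :=
  lt_of_lt_of_le one_pos (hT.trans hx.1)

theorem bd_unif' {α : Type} {S : ℝ → Set α} {φ : ℝ → α → ℝ} {c : ℝ}
    (h : ∀ ε : ℝ, 0 < ε → ∃ C : ℝ, ∀ T : ℝ, 1 ≤ T → ∀ x ∈ S T, φ T x ≤ C * T ^ ε * T ^ c) :
    ∃ K : ℝ → ℝ, Bd K c ∧ (∀ T, 1 ≤ T → T ^ c ≤ K T) ∧ ∀ T, 1 ≤ T → ∀ x ∈ S T, φ T x ≤ K T := by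
  obtain ⟨Λ, h1, h2, h3⟩ := bd_unif (g := fun T => T ^ c)
    (fun T hT => Real.rpow_pos_of_pos (by linarith) c) h
  exact ⟨fun T => Λ T * T ^ c, (h1.mul_rpow c).mono (zero_add c).le, fun T hT =>
    le_mul_of_one_le_left (Real.rpow_nonneg (by linarith) c) (h2 T), h3⟩

namespace Sel

variable (F : Sel) {P : Vo} {w γ c y : ℝ}

/-- The piece of the Voronoi series with `T ^ γ` terms. -/
noncomputable def Hs (P : Vo) (γ T : ℝ) : ℝ → ℂ := F.H P 0 ⌊T ^ γ⌋₊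

theorem bd_near (h0 : 0 ≤ w) (h1 : w ≤ 1) : ∃ K : ℝ → ℝ, Bd K (1 - w) ∧ ∀ T, 1 ≤ T →
    ∀ x ∈ Icc T (2 * T), ‖F.E x - F.B (T ^ w) x‖ ≤ K T := by
  obtain ⟨K, k1, -, k2⟩ := bd_unif' (S := fun T => Icc T (2 * T)) (c := 1 - w)
    (φ := fun T x => ‖F.E x - F.B (T ^ w) x‖) fun ε hε => by
      obtain ⟨C, -, h⟩ := F.B_near hε
      exact ⟨C, fun T hT x hx => p1_div (w := w) hT ▸
        h T _ (p1_W h0 h1 hT).1 (p1_W h0 h1 hT).2 x hx⟩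
  exact ⟨K, k1, k2⟩

theorem bd_B1 (h0 : 0 ≤ w) (h1 : w ≤ 1) : ∃ K : ℝ → ℝ, Bd K 0 ∧ ∀ T, 1 ≤ T →
    ∀ x ∈ Icc T (2 * T), ‖F.B1 (T ^ w) x‖ ≤ K T := by
  obtain ⟨K, k1, -, k2⟩ := bd_unif' (S := fun T => Icc T (2 * T)) (c := 0)
    (φ := fun T x => ‖F.B1 (T ^ w) x‖) fun ε hε => by
      obtain ⟨C, -, h⟩ := F.B1_le hε
      refine ⟨C, fun T hT x hx => ?_⟩
      rw [Real.rpow_zero, mul_one]
      exact h T _ (p1_W h0 h1 hT).1 (p1_W h0 h1 hT).2 x hx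
  exact ⟨K, k1, k2⟩

theorem nice_Bw (w : ℝ) {T : ℝ} (hT : 1 ≤ T) : Nice (F.B (T ^ w)) (F.B1 (T ^ w)) T :=
  F.nice_B (Real.rpow_pos_of_pos (by linarith) w) (by linarith)

theorem bd_B (h2 : 2 ≤ F.deg) (h3 : F.deg ≤ 3) (hP : F.Vor P) (h0 : 0 ≤ w) (h1 : w ≤ 1)
    (hy : (F.deg - 1) / (F.deg + 1) ≤ y) (hw : 1 - w ≤ y) : ∃ K : ℝ → ℝ, Bd K y ∧ ∀ T, 1 ≤ T →
    ∀ x ∈ Icc T (2 * T), ‖F.B (T ^ w) x‖ ≤ K T := by
  obtain ⟨K, k1, -, k2⟩ := bd_unif' (S := fun T => Icc T (2 * T))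
    (c := (F.deg - 1) / (F.deg + 1)) (φ := fun _ x => ‖F.E x‖) fun ε hε => by
      obtain ⟨C, -, h⟩ := F.E_sup h2 h3 hP hε
      exact ⟨C, h⟩
  obtain ⟨K', k3, k4⟩ := F.bd_near h0 h1
  refine ⟨_, (k1.mono hy).add (k3.mono hw), fun T hT x hx => ?_⟩
  have := norm_sub_le (F.E x) (F.E x - F.B (T ^ w) x)
  rw [sub_sub_cancel] at this
  linarith [k2 T hT x hx, k4 T hT x hx]

theorem Hs_sm (h2 : 2 ≤ F.deg) (P : Vo) (γ : ℝ) : ∃ K : ℝ → ℝ, Bd K (al F.deg + γ) ∧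
    ∀ T, 1 ≤ T → Sm (F.Hs P γ T) T (K T) (T ^ (-(1 / 2) : ℝ)) := by
  obtain ⟨C, hC, h⟩ := F.H_sm P h2
  refine ⟨fun T => C * T ^ al F.deg * ⌊T ^ γ⌋₊, ((bd_rpow _).const_mul (by linarith)).mul
    (bd_floor γ) fun _ _ => Nat.cast_nonneg _, fun T hT => ?_⟩
  rw [← neg_div]
  exact h _ T hT

theorem bm_Hs (P : Vo) (γ : ℝ) {T : ℝ} (hT : 1 ≤ T) : Bm (F.Hs P γ T) T :=
  Bm.of_cont ((F.H_cont P _ _).mono fun _ hx => p1_pos hT hx)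

theorem Hs_nice (h2 : 2 ≤ F.deg) (P : Vo) (hγ : al F.deg + γ ≤ 1 / 2) :
    ∃ (H' : ℝ → ℝ → ℂ) (K Λ : ℝ → ℝ), Bd K 0 ∧ Bd Λ (al F.deg + γ) ∧ ∀ T, 1 ≤ T →
      Nice (F.Hs P γ T) (H' T) T ∧ ∀ x ∈ Icc T (2 * T), ‖F.Hs P γ T x‖ ≤ Λ T ∧ ‖H' T x‖ ≤ K T := by
  obtain ⟨Λ, h1, h⟩ := F.Hs_sm h2 P γ
  choose! H' k using h
  exact ⟨H', _, Λ, (h1.mul_rpow (-(1 / 2))).mono (by linarith), h1, k⟩

theorem sq_bd (h2 : 2 ≤ F.deg) (hP : F.Vor P) (h0 : 1 / 2 ≤ w) (h1 : w ≤ 1)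
    (hγ : γ ≤ w * F.deg - 1) (c1 : 2 - 1 / F.deg - γ / F.deg ≤ c) (c2 : 1 + w * (F.deg - 2) ≤ c)
    (c3 : 1 + 2 * (al F.deg + 1 / F.deg + γ - w) ≤ c) :
    Bd (fun T => mu0 2 (fun x => F.B (T ^ w) x - F.Hs P γ T x) T) c := by
  have k1 := (bd_rpow (2 - 1 / F.deg - γ / F.deg)).mono c1
  have k2 := (bd_id.mul_rpow (w * (F.deg - 2))).mono c2
  have k3 := (bd_id.mul ((((bd_rpow (al F.deg + 1 / F.deg)).mul (bd_floor γ) fun _ _ =>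
    Nat.cast_nonneg _).div_rpow w).pow (fun T hT => by
      have : 0 < T := by linarith
      positivity) 2) fun _ _ => sq_nonneg _).mono (d := c) (by push_cast; linarith)
  refine ((k1.add k2).add k3).of_forall fun ε hε => ?_
  obtain ⟨C, hC, h⟩ := F.B_sq h2 hP hε
  refine ⟨C, hC, fun T hT => ?_⟩
  have hT0 : 0 < T := by linarith
  have hd : 0 < F.deg := by linarith
  refine (h T (T ^ w) ⌊T ^ γ⌋₊ hT ?_ (p1_W (by linarith) h1 hT).2 ?_).trans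
    (mul_le_mul_of_nonneg_left (add_le_add (add_le_add ?_ (le_of_eq ?_)) le_rfl) (by positivity))
  · rw [Real.sqrt_eq_rpow]
    exact Real.rpow_le_rpow_of_exponent_le hT h0
  · refine (Nat.floor_le (by positivity)).trans ?_
    rw [← Real.rpow_mul hT0.le, ← Real.rpow_sub_one hT0.ne']
    exact Real.rpow_le_rpow_of_exponent_le hT hγ
  · rw [sub_eq_add_neg _ (γ / F.deg), Real.rpow_add hT0]
    refine mul_le_mul_of_nonneg_left ?_ (by positivity)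
    rw [show -(γ / F.deg) = γ * (-1 / F.deg) by ring, Real.rpow_mul hT0.le]
    exact Real.rpow_le_rpow_of_nonpos (by positivity) (Nat.lt_floor_add_one _).le
      (div_nonpos_of_nonpos_of_nonneg (by norm_num) hd.le)
  · rw [← Real.rpow_mul hT0.le]

theorem tw_l2 {L : Sel} (hL : L.deg ≤ 1) (h2 : 2 ≤ F.deg) (h3 : F.deg ≤ 3) (hP : F.Vor P)
    (h0 : 0 ≤ w) (h1 : w ≤ 1) (hy : (F.deg - 1) / (F.deg + 1) ≤ y) (hw : 1 - w ≤ y)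
    (hy1 : y ≤ 1 / 2) (hγ : al F.deg + γ ≤ y)
    (hS : Bd (fun T => mu0 2 (fun x => F.B (T ^ w) x - F.Hs P γ T x) T) c) (c1 : 1 / 2 + 2 * y ≤ c)
    (c2 : 1 + y ≤ c) : Bd (fun T => mo 2 (fun x => F.B (T ^ w) x - F.Hs P γ T x) L.w T) c := by
  obtain ⟨H', K, Λ, k1, k2, k3⟩ := F.Hs_nice h2 P (hγ.trans hy1)
  obtain ⟨K', k4, k5⟩ := F.bd_B1 h0 h1
  obtain ⟨Λ', k6, k7⟩ := F.bd_B h2 h3 hP h0 h1 hy hw
  refine L.tm_sup hL le_rfl (q := 2) le_rfl (by linarith) (by linarith)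
    (fun T hT => (F.nice_Bw w hT).sub (k3 T hT).1) (k4.add k1) (fun T hT x hx => ?_)
    (k6.add (k2.mono hγ)) (fun T hT x hx => ?_) hS hS (by push_cast; linarith)
    (by push_cast; linarith)
  · exact (norm_sub_le _ _).trans (add_le_add (k5 T hT x hx) ((k3 T hT).2 x hx).2)
  · exact (norm_sub_le _ _).trans (add_le_add (k7 T hT x hx) ((k3 T hT).2 x hx).1)

/-- From the smoothed function to the error term itself. -/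
theorem back {v : ℝ → ℝ} (hv : Continuous v) (hv0 : ∀ x, 0 ≤ v x)
    (m0 : Bd (fun T => ∫ x in T..2 * T, v x) 1) {n : ℕ} {g : ℝ → ℝ → ℂ}
    (hg : ∀ T, 1 ≤ T → Bm (g T) T) (hc : 1 ≤ c)
    (h : Bd (fun T => mo n (fun x => F.B (T ^ (1 : ℝ)) x - g T x) v T) c) :
    Bd (fun T => mo n (fun x => F.E x - g T x) v T) c := by
  obtain ⟨K, k1, k2⟩ := F.bd_near zero_le_one le_rfl
  refine close_bd (fun T hT => (bm_E F hT).sub (hg T hT))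
    (fun T hT => (F.nice_Bw 1 hT).bm0.sub (hg T hT)) hv hv0 m0 k1 (fun T hT x hx => ?_) h
    (by simpa using hc)
  rw [sub_sub_sub_cancel_right]
  exact k2 T hT x hx

/-- From the error term to the smoothed function. -/
theorem forth {n : ℕ} (hc : 1 ≤ c) (h : Bd (fun T => mu0 n F.E T) c) :
    Bd (fun T => mu0 n (F.B (T ^ (1 : ℝ))) T) c := by
  obtain ⟨K, k1, k2⟩ := F.bd_near zero_le_one le_rfl
  simp only [← mo_one] at h ⊢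
  refine close_bd (g := fun _ => F.E) (fun T hT => (F.nice_Bw 1 hT).bm0) (fun T hT => bm_E F hT)
    continuous_const (fun _ => zero_le_one) bd_one k1 (fun T hT x hx => ?_) h (by simpa using hc)
  rw [norm_sub_rev]
  exact k2 T hT x hx

theorem back0 {v : ℝ → ℝ} (hv : Continuous v) (hv0 : ∀ x, 0 ≤ v x)
    (m0 : Bd (fun T => ∫ x in T..2 * T, v x) 1) {n : ℕ} (hc : 1 ≤ c)
    (h : Bd (fun T => mo n (F.B (T ^ (1 : ℝ))) v T) c) : Bd (fun T => mo n F.E v T) c := by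
  obtain ⟨K, k1, k2⟩ := F.bd_near zero_le_one le_rfl
  exact close_bd (f := fun _ => F.E) (fun T hT => bm_E F hT) (fun T hT => (F.nice_Bw 1 hT).bm0)
    hv hv0 m0 k1 k2 h (by simpa using hc)

end Sel

end Pool.Agent.Lib.MP_2a1a00_nt
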