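import Pool.Agent.Lib.MP_2a1a00_nt.V.Defs

/-! The polynomial in the main term. -/

namespace Pool.Agent.Lib.MP_2a1a00_nt

open MeasureTheory Set Polynomial

/- Induction on the degree of `R` (`Polynomial.degree_derivative_lt`): `Q = C c⁻¹ * (R - Q₁)` where
`C c * Q₁ + Q₁' = R'`. -/
theorem poly_solve {c : ℝ} (hc : c ≠ 0) (R : ℝ[X]) :
    ∃ Q : ℝ[X], C c * Q + derivative Q = R := by
  induction R using Polynomial.degree_lt_wf.induction with
  | _ R ih =>
    rcases eq_or_ne R 0 with rfl | hR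
    · exact ⟨0, by simp⟩
    obtain ⟨Q, hQ⟩ := ih _ (degree_derivative_lt hR)
    have h : C c * C c⁻¹ = 1 := by rw [← C_mul, mul_inv_cancel₀ hc, C_1]
    refine ⟨C c⁻¹ * (R - Q), ?_⟩
    rw [derivative_C_mul, derivative_sub]
    linear_combination (R : ℝ[X]) * h - C c⁻¹ * hQ

/- `Polynomial.degree_add_eq_left_of_degree_lt`, `Polynomial.degree_derivative_lt`, `Polynomial.degree_C_mul`. -/
theorem poly_deg {c : ℝ} (hc : c ≠ 0) (Q : ℝ[X]) :
    (C c * Q + derivative Q).degree = Q.degree := by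
  rcases eq_or_ne Q 0 with rfl | hQ
  · simp
  rw [degree_add_eq_left_of_degree_lt, degree_C_mul hc]
  rw [degree_C_mul hc]
  exact degree_derivative_lt hQ

theorem poly_Q {c : ℝ} (hc : c ≠ 0) (P : ℝ[X]) :
    ∃ Q : ℝ[X], Q.degree = P.degree ∧ C c * Q + derivative Q = P + derivative P := by
  obtain ⟨Q, hQ⟩ := poly_solve hc (P + derivative P)
  refine ⟨Q, ?_, hQ⟩
  rw [← poly_deg hc Q, hQ, ← poly_deg one_ne_zero P, C_1, one_mul]

/- The derivative of `x ^ c * Q (log x)`. -/
theorem poly_int {c a b : ℝ} (ha : 0 < a) (hb : 0 < b) (Q : ℝ[X]) :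
    ∫ x in a..b, x ^ (c - 1) * (C c * Q + derivative Q).eval (Real.log x) =
      b ^ c * Q.eval (Real.log b) - a ^ c * Q.eval (Real.log a) := by
  have h0 : ∀ x ∈ uIcc a b, 0 < x := fun x hx => (lt_min ha hb).trans_le hx.1
  refine intervalIntegral.integral_eq_sub_of_hasDerivAt
    (f := fun x => x ^ c * Q.eval (Real.log x)) (fun x hx => ?_) (ContinuousOn.intervalIntegrable ?_)
  · have hx0 := h0 x hx
    refine ((Real.hasDerivAt_rpow_const (p := c) (Or.inl hx0.ne')).mul
      ((Q.hasDerivAt (Real.log x)).comp x (Real.hasDerivAt_log hx0.ne'))).congr_deriv ?_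
    simp only [eval_add, eval_mul, eval_C, Function.comp, Real.rpow_sub_one hx0.ne']
    ring
  · exact (continuousOn_id.rpow_const fun x hx => Or.inl (h0 x hx).ne').mul
      ((Polynomial.continuous _).comp_continuousOn
        (Real.continuousOn_log.mono fun x hx => (h0 x hx).ne'))

end Pool.Agent.Lib.MP_2a1a00_nt
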