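import Pool.Agent.Lib.MP_2a1a00_nt.V.P3
import Pool.Agent.Lib.MP_2a1a00_nt.V.Tr
import Pool.Agent.Lib.MP_2a1a00_nt.V.B4

/-! The dyadic estimates when one of the exponents is one. -/

namespace Pool.Agent.Lib.MP_2a1a00_nt

open Complex MeasureTheory Set

theorem bd_split {f g k : ℝ → ℝ → ℂ} {c : ℝ} (hf : ∀ T, 1 ≤ T → Bm (f T) T)
    (hg : ∀ T, 1 ≤ T → Bm (g T) T) (h1 : Bd (fun T => ‖∫ x in T..2 * T, f T x‖) c)
    (h2 : Bd (fun T => ‖∫ x in T..2 * T, g T x‖) c) (h : ∀ T x, k T x = f T x + g T x) :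
    Bd (fun T => ‖∫ x in T..2 * T, k T x‖) c :=
  (h1.add h2).of_le fun T hT => by
    have hy : 2 * T ∈ Icc T (2 * T) := ⟨by linarith, le_rfl⟩
    simp only [h]
    rw [intervalIntegral.integral_add ((hf T hT).int hy) ((hg T hT).int hy)]
    exact norm_add_le _ _

theorem bd_two (r : ℝ) : Bd (fun T => (2 * T) ^ r) r :=
  ((bd_rpow r).const_mul (K := 2 ^ r) (by positivity)).of_le fun T hT => by
    rw [Real.mul_rpow zero_le_two (by linarith)]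

theorem trig_bd {G : ℝ → ℝ → ℂ} {β : ℂ} {K M : ℝ → ℝ} {κ k m : ℝ} (hκ : 0 < κ) (hβ : 0 ≤ β.re)
    (hK : Bd K k) (hM : Bd M m) (h1 : ∀ T, 1 ≤ T → 0 < M T)
    (h : ∀ T, 1 ≤ T → (Trig (G T) β (K T) fun _ B => κ / (3 * M T) ≤ |B|) ∨
      Trig (G T) β (K T) fun A _ => κ / (3 * M T) ≤ |A|) :
    ∃ B : ℝ → ℝ, Bd B (k + β.re + 5 / 6 + m / 2) ∧ ∀ T, 1 ≤ T → ∀ y ∈ Icc T (2 * T),
      ‖∫ x in T..y, G T x‖ ≤ B T := by
  have k1 := ((bd_rpow (5 / 6)).const_mul (K := 200) (by norm_num)).mul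
    (hM.const_mul (K := 3 / κ) (by positivity)).sqrt fun _ _ => Real.sqrt_nonneg _
  have k2 := ((bd_two β.re).const_mul (K := 1 + ‖β‖) (by positivity)).mul k1 fun T hT => by
    have : 0 < T := by linarith
    positivity
  refine ⟨_, (hK.mul k2 fun T hT => by
    have : 0 < T := by linarith
    positivity).mono (by linarith), fun T hT y hy => ?_⟩
  have h0 : 0 < T := by linarith
  have h2 := h1 T hT
  have e : √(3 / κ * M T) = (√(κ / (3 * M T)))⁻¹ := by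
    rw [← Real.sqrt_inv]
    congr 1
    field_simp
  rw [e, ← div_eq_mul_inv]
  rcases h T hT with h | h
  · exact h.int_B (by positivity) hβ hT hy
  · refine (h.int_A (by positivity) hβ hT hy).trans ?_
    have := Real.rpow_le_rpow_of_exponent_le hT (show (3 / 4 : ℝ) ≤ 5 / 6 by norm_num)
    have := h.nonneg
    gcongr

theorem rpow_nn {T : ℝ} (hT : 1 ≤ T) (r : ℝ) : 0 ≤ T ^ r := Real.rpow_nonneg (by linarith) r

theorem Sm.nonneg {G : ℝ → ℂ} {T P μ : ℝ} (h : Sm G T P μ) (hT : 1 ≤ T) : 0 ≤ P :=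
  (norm_nonneg _).trans (h.le ⟨le_rfl, by linarith⟩)

namespace Sel

variable {F F₁ F₂ L : Sel} {P P₁ P₂ : Vo} {γ γ₁ γ₂ : ℝ}

theorem bm_w (L : Sel) (T : ℝ) : Bm (fun x => (L.w x : ℂ)) T :=
  Bm.of_cont (continuous_ofReal.comp L.continuous_w).continuousOn

theorem Hs_pow (h2 : 2 ≤ F.deg) (P : Vo) (γ : ℝ) (a : ℕ) : ∃ K : ℝ → ℝ,
    Bd K (a * (al F.deg + γ)) ∧
      ∀ T, 1 ≤ T → Sm (fun x => F.Hs P γ T x ^ a) T (K T) (T ^ (-(1 / 2) : ℝ)) := by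
  obtain ⟨K, k1, k2⟩ := F.Hs_sm h2 P γ
  exact ⟨_, (k1.const_mul zero_le_two).pow (fun T hT => mul_nonneg zero_le_two
    ((k2 T hT).nonneg hT)) a, fun T hT => (k2 T hT).pow (rpow_nn hT _) a⟩

theorem trig1 (h : F.deg = 2) (hP : 0 < P.ka) (γ : ℝ) : ∃ K : ℝ → ℝ, Bd K γ ∧ ∀ T,
    Trig (F.Hs P γ T) (P.ex 2) (K T) fun A B => B = 0 ∧ P.ka / (3 * 1) ≤ |A| := by
  obtain ⟨C, hC, k⟩ := F.H_trig2 h P
  refine ⟨_, (bd_floor γ).const_mul (K := C) (by linarith), fun T => (k _).mono le_rfl ?_⟩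
  rintro A B ⟨h1, n, hn, h2⟩
  have h3 : (1 : ℝ) ≤ √(n : ℝ) := Real.one_le_sqrt.2 (by exact_mod_cast (Finset.mem_Ioc.1 hn).1)
  refine ⟨h1, ?_⟩
  rcases h2 with rfl | rfl
  · rw [abs_of_pos (by positivity)]
    nlinarith
  · rw [neg_mul, abs_neg, abs_of_pos (by positivity)]
    nlinarith

theorem trig2 (h : F.deg = 3) (hP : 0 < P.ka) (γ : ℝ) : ∃ K : ℝ → ℝ, Bd K γ ∧ ∀ T,
    Trig (F.Hs P γ T) (P.ex 3) (K T) fun A B => A = 0 ∧ P.ka / (3 * 1) ≤ |B| := by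
  obtain ⟨C, hC, k⟩ := F.H_trig3 h P
  refine ⟨_, (bd_floor γ).const_mul (K := C) (by linarith), fun T => (k _).mono le_rfl ?_⟩
  rintro A B ⟨h1, n, hn, h2⟩
  have h3 : (1 : ℝ) ≤ (n : ℝ) ^ (1 / 3 : ℝ) :=
    Real.one_le_rpow (by exact_mod_cast (Finset.mem_Ioc.1 hn).1) (by norm_num)
  refine ⟨h1, ?_⟩
  rcases h2 with rfl | rfl
  · rw [abs_of_pos (by positivity)]
    nlinarith
  · rw [neg_mul, abs_neg, abs_of_pos (by positivity)]
    nlinarith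

theorem q_osc (hL : L.deg ≤ 1) (h1 : F₁.deg = 2) (h2 : F₂.deg = 3) (p1 : 0 < P₁.ka) (p2 : 0 < P₂.ka)
    {a b : ℕ} (hab : a = 1 ∨ b = 1) :
    Bd (fun T => ‖∫ x in T..2 * T, F₁.Hs P₁ γ₁ T x ^ a * F₂.Hs P₂ γ₂ T x ^ b * L.w x‖)
      (a * (1 / 4 + γ₁) + b * (1 / 3 + γ₂) + 5 / 6) := by
  obtain ⟨K₁, a1, a2⟩ := Hs_pow h1.ge P₁ γ₁ a
  obtain ⟨K₂, b1, b2⟩ := Hs_pow (F := F₂) (by linarith) P₂ γ₂ b
  rw [h1, al_two] at a1
  rw [h2, al_three] at b1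
  obtain ⟨M₁, c1, c2⟩ := trig1 h1 p1 γ₁
  obtain ⟨M₂, d1, d2⟩ := trig2 h2 p2 γ₂
  have t1 := fun T => ((c2 T).mono (ok₂ := fun _ B => B = 0) le_rfl fun _ _ h => h.1).pow rfl
    (fun _ _ _ _ h h' => by rw [h, h', add_zero]) a
  have t2 := fun T => ((d2 T).mono (ok₂ := fun A _ => A = 0) le_rfl fun _ _ h => h.1).pow rfl
    (fun _ _ _ _ h h' => by rw [h, h', add_zero]) b
  have hM := (c1.pow (fun T _ => (c2 T).nonneg) a).mul (d1.pow (fun T _ => (d2 T).nonneg) b)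
    fun T _ => (t2 T).nonneg
  have hβ : (a * P₁.ex 2 + b * P₂.ex 3 : ℂ).re = a / 4 + b / 3 := by
    simp [Vo.ex_re, al_two, al_three]
    ring
  obtain ⟨B, e1, e2⟩ := trig_bd (G := fun T x => F₁.Hs P₁ γ₁ T x ^ a * F₂.Hs P₂ γ₂ T x ^ b)
    (β := a * P₁.ex 2 + b * P₂.ex 3) (M := fun _ => 1) (lt_min p1 p2) (by rw [hβ]; positivity) hM
    (bd_const 1) (fun _ _ => one_pos) fun T _ => by
      rcases hab with rfl | rfl
      · right
        simpa using ((c2 T).mul (t2 T) (ok := fun A _ => min P₁.ka P₂.ka / (3 * 1) ≤ |A|)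
          fun A B A' B' h h' => by
            rw [h', add_zero]
            exact (div_le_div_of_nonneg_right (min_le_left _ _) (by norm_num)).trans h.2)
      · left
        simpa using ((t1 T).mul (d2 T) (ok := fun _ B => min P₁.ka P₂.ka / (3 * 1) ≤ |B|)
          fun A B A' B' h h' => by
            rw [h, zero_add]
            exact (div_le_div_of_nonneg_right (min_le_right _ _) (by norm_num)).trans h'.2)
  refine L.smooth_bd hL (m := 1 / 2) (by norm_num) (by norm_num)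
    (fun T hT => (a2 T hT).mul (b2 T hT) (rpow_nn hT _))
    ((a1.mul b1 fun T hT => (b2 T hT).nonneg hT).const_mul zero_le_two) (e1.mono ?_) e2 (by linarith)
  rw [hβ]
  linarith

theorem q_first (hL : L.deg ≤ 1) (h1 : F₁.deg = 2) (h2 : F₂.deg = 3) (p1 : F₁.Vor P₁)
    (p2 : F₂.Vor P₂) (g0 : 0 ≤ γ) (g1 : γ ≤ 1 / 100) {a b A : ℕ} (hA : A = 6 ∨ A = 7)
    (hE : Bd (fun T => mo A F₁.E L.w T) (1 + A / 4)) (hρ : (a : ℝ) / A + b / 3 ≤ 20 / 21) :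
    Bd (fun T => ‖∫ x in T..2 * T, (F₁.E x ^ a - F₁.Hs P₁ γ T x ^ a) * F₂.E x ^ b * L.w x‖)
      (1 + a / 4 + b / 3 - γ / 168) :=
  (hold_bd (γ := γ / 4) (e := fun _ => F₁.E) (v := fun _ => F₂.E) (by omega) hρ (by linarith)
    (fun _ hT => bm_E F₁ hT) (fun _ hT => F₁.bm_Hs P₁ γ hT) (fun _ hT => bm_E F₂ hT) L.continuous_w
    L.w_nonneg (L.bd_mass hL) hE (p2_H hL h1 p1 g0 g1 hA) (p3_E hL h2 p2)
    ((p2_tw hL h1 p1 g1).mono (by linarith))).mono (by linarith)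

theorem q_high (hL : L.deg ≤ 1) {G : ℝ → ℝ → ℂ} {K : ℝ → ℝ} {k : ℝ} (hK : Bd K k)
    (hG : ∀ T, 1 ≤ T → Sm (G T) T (K T) (T ^ (-(1 / 2) : ℝ))) :
    Bd (fun T => ‖∫ x in T..2 * T,
      G T x * (F.B (T ^ (1 : ℝ)) x - F.B (T ^ (5 / 8 : ℝ)) x) * L.w x‖) (k + 5 / 4) := by
  obtain ⟨K₁, a1, a2⟩ := F.bd_near zero_le_one le_rfl
  obtain ⟨K₂, b1, b2⟩ := F.bd_near (w := 5 / 8) (by norm_num) (by norm_num)
  obtain ⟨K₃, c1, c2⟩ := F.bd_B1 zero_le_one le_rfl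
  obtain ⟨K₄, d1, d2⟩ := F.bd_B1 (w := 5 / 8) (by norm_num) (by norm_num)
  have s1 : ∀ T, 1 ≤ T → Sm (fun x => F.B (T ^ (1 : ℝ)) x - F.B (T ^ (5 / 8 : ℝ)) x) T
      (K₁ T + K₂ T + (K₃ T + K₄ T) * T ^ (3 / 8 : ℝ)) (T ^ (-(3 / 8) : ℝ)) := fun T hT => by
    refine ⟨_, (F.nice_Bw 1 hT).sub (F.nice_Bw _ hT), fun x hx => ⟨?_, ?_⟩⟩
    · have := norm_sub_le_norm_sub_add_norm_sub (F.B (T ^ (1 : ℝ)) x) (F.E x)
        (F.B (T ^ (5 / 8 : ℝ)) x)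
      rw [norm_sub_rev _ (F.E x)] at this
      have h3 := mul_nonneg (add_nonneg ((norm_nonneg _).trans (c2 T hT x hx))
        ((norm_nonneg _).trans (d2 T hT x hx))) (rpow_nn hT (3 / 8))
      linarith [a2 T hT x hx, b2 T hT x hx]
    · have h3 := mul_nonneg (add_nonneg ((norm_nonneg _).trans (a2 T hT x hx))
        ((norm_nonneg _).trans (b2 T hT x hx))) (rpow_nn hT (-(3 / 8)))
      rw [add_mul, mul_assoc, ← Real.rpow_add (by linarith), add_neg_cancel, Real.rpow_zero]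
      linarith [norm_sub_le (F.B1 (T ^ (1 : ℝ)) x) (F.B1 (T ^ (5 / 8 : ℝ)) x), c2 T hT x hx,
        d2 T hT x hx]
  have s2 := (((a1.mono (d := 3 / 8) (by norm_num)).add (b1.mono (by norm_num))).add
    (((c1.add d1).mul_rpow (3 / 8)).mono (by norm_num)))
  obtain ⟨Z, z1, z0, z2⟩ := bd_unif' (S := fun T => Icc T (2 * T)) (c := -(1 / 4))
    (φ := fun T y => ‖∫ x in T..y, (F.B (T ^ (1 : ℝ)) x - F.B (T ^ (5 / 8 : ℝ)) x) / x‖)
    fun ε hε => by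
      obtain ⟨C, -, h⟩ := F.B_prim hε
      refine ⟨C, fun T hT y hy => ?_⟩
      have := p1_W (w := 5 / 8) (by norm_num) (by norm_num) hT
      rw [Real.rpow_one]
      refine (h T _ this.1 this.2 y hy).trans (le_of_eq ?_)
      rw [rpow_pow hT, p1_div hT]
      norm_num
  have s3 : ∀ T, 1 ≤ T → Sm (fun x => G T x * (1 * px 1 x)) T
      (2 * (K T * (‖(1 : ℂ)‖ * ((1 + ‖(1 : ℂ)‖) * (2 * T) ^ (1 : ℂ).re))))
      (T ^ (-(1 / 2) : ℝ)) := fun T hT => by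
    refine (hG T hT).mul ((sm_px (by linarith) 1 (by simp)).mono le_rfl (by positivity) ?_)
      (rpow_nn hT _)
    rw [one_div, ← Real.rpow_neg_one]
    exact Real.rpow_le_rpow_of_exponent_le hT (by norm_num)
  have s4 := (hK.mul (((bd_two (1 : ℂ).re).const_mul (K := 1 + ‖(1 : ℂ)‖) (by positivity)).const_mul
    (norm_nonneg (1 : ℂ))) fun T hT => by
      have : 0 < T := by linarith
      positivity).const_mul zero_le_two
  have s5 : Bd (fun T => 1 + T * |T ^ (-(1 / 2) : ℝ)|) (1 / 2) :=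
    (((bd_const 1).mono (by norm_num)).add ((bd_id.mul_rpow (-(1 / 2))).mono (by norm_num))).of_le
      fun T hT => by rw [abs_of_nonneg (rpow_nn hT _)]
  have s6 := (s4.mul s5 fun T hT => by
    have : 0 < T := by linarith
    positivity).mul z1 fun T hT => (rpow_nn hT _).trans (z0 T hT)
  refine L.smooth_bd hL (m := 3 / 8) (by norm_num) (by norm_num)
    (fun T hT => ((hG T hT).mono le_rfl (rpow_nn hT _) (Real.rpow_le_rpow_of_exponent_le hT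
      (by norm_num))).mul (s1 T hT) (rpow_nn hT _))
    ((hK.mul s2 fun T hT => (s1 T hT).nonneg hT).const_mul zero_le_two)
    (s6.mono (by simp only [one_re]; linarith)) (fun T hT y hy => ?_) (by linarith)
  refine le_trans (le_of_eq ?_) ((s3 T hT).parts (by linarith) ((s1 T hT).cont.div
    continuous_ofReal.continuousOn fun x hx => ofReal_ne_zero.2 (ne_of_gt (p1_pos hT hx)))
    (z2 T hT) hy)
  congr 1
  refine intervalIntegral.integral_congr fun x hx => ?_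
  rw [uIcc_of_le hy.1] at hx
  have h0 : 0 < x := lt_of_lt_of_le one_pos (hT.trans hx.1)
  have h1 : (x : ℂ) ≠ 0 := ofReal_ne_zero.2 h0.ne'
  simp only [← px_cpow _ h0, cpow_one, Pi.div_apply]
  field_simp

theorem q_a1 (hL : L.deg ≤ 1) (h1 : F₁.deg = 2) (h2 : F₂.deg = 3) (p1 : F₁.Vor P₁)
    (p2 : F₂.Vor P₂) {a A : ℕ} (ha : a ≤ 4) (hA : A = 6 ∨ A = 7)
    (hE : Bd (fun T => mo A F₁.E L.w T) (1 + A / 4)) (hρ : (a : ℝ) / A + (1 : ℕ) / 3 ≤ 20 / 21) :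
    Bd (fun T => ‖∫ x in T..2 * T, hy F₁ F₂ L a 1 x‖) (1 + a / 4 + (1 : ℕ) / 3 - 1 / 1680000) := by
  have ha' : (a : ℝ) ≤ 4 := by exact_mod_cast ha
  obtain ⟨K, k1, k2⟩ := Hs_pow h1.ge P₁ (1 / 10000) a
  rw [h1, al_two] at k1
  have j1 := q_first (γ := 1 / 10000) hL h1 h2 p1 p2 (by norm_num) (by norm_num) hA hE hρ
  have j2 := q_osc (γ₁ := 1 / 10000) (γ₂ := 1 / 100) (a := a) (b := 1) hL h1 h2 p1.1 p2.1 (Or.inr rfl)
  have j3 := q_high (F := F₂) hL k1 k2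
  have bg : ∀ T, 1 ≤ T → Bm (fun x => F₂.B (T ^ (1 : ℝ)) x - F₂.B (T ^ (5 / 8 : ℝ)) x +
      F₂.Hs P₂ (1 / 100) T x) T := fun T hT =>
    ((F₂.nice_Bw _ hT).bm0.sub (F₂.nice_Bw _ hT).bm0).add (F₂.bm_Hs _ _ hT)
  have j4 := hold1_bd (x := 1 / 3 - 1 / 600) (fun T hT => (k2 T hT).bm)
    (fun T hT => (bm_E F₂ hT).sub (bg T hT)) L.continuous_w L.w_nonneg (L.bd_mass hL)
    (fun T hT x hx => (k2 T hT).le hx) k1 (F₂.back L.continuous_w L.w_nonneg (L.bd_mass hL) bg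
      (by norm_num) (((p3_B (γ := 1 / 100) hL h2 p2 le_rfl).mono (by norm_num)).of_le
        fun T _ => le_of_eq (by congr 1; ext x; ring)))
  have bh := fun T hT => (k2 T hT).bm
  have bw := L.bm_w
  have bd := fun T (hT : 1 ≤ T) => (F₂.nice_Bw 1 hT).bm0.sub (F₂.nice_Bw (5 / 8) hT).bm0
  have b1 := fun T (hT : 1 ≤ T) =>
    ((((bm_E F₁ hT).pow a).sub (bh T hT)).mul ((bm_E F₂ hT).pow 1)).mul (bw T)
  have b2 := fun T (hT : 1 ≤ T) => ((bh T hT).mul ((F₂.bm_Hs P₂ (1 / 100) hT).pow 1)).mul (bw T)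
  have b3 := fun T (hT : 1 ≤ T) => ((bh T hT).mul (bd T hT)).mul (bw T)
  have b4 := fun T (hT : 1 ≤ T) => ((bh T hT).mul ((bm_E F₂ hT).sub (bg T hT))).mul (bw T)
  refine bd_split (k := fun _ => hy F₁ F₂ L a 1) (fun T hT => (b1 T hT).add (b2 T hT))
    (fun T hT => (b3 T hT).add (b4 T hT))
    (bd_split b1 b2 (j1.mono (by norm_num)) (j2.mono (by push_cast; linarith)) fun _ _ => rfl)
    (bd_split b3 b4 (j3.mono (by push_cast; linarith)) (j4.mono (by push_cast; linarith))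
      fun _ _ => rfl) fun T x => ?_
  rw [hy, ← Sel.w]
  ring

theorem q_mid (hL : L.deg ≤ 1) (h1 : F₁.deg = 2) (h2 : F₂.deg = 3) (P₁ : Vo) (p2 : F₂.Vor P₂)
    (hM : F₂.MS (4 / 3)) (γ : ℝ) (a : ℕ) :
    Bd (fun T => ‖∫ x in T..2 * T, F₁.Hs P₁ γ T x ^ a *
      (F₂.E x ^ 2 - F₂.Hs P₂ (1 / 100) T x ^ 2) * L.w x‖)
      (a * (1 / 4 + γ) + 5 / 3 - 1 / 600) := by
  obtain ⟨K, k1, k2⟩ := Hs_pow h1.ge P₁ γ a
  rw [h1, al_two] at k1
  obtain ⟨B, e1, e2⟩ := hold2_bd (γ := 1 / 600) (x := 1 / 3) (e := fun _ => F₂.E) (by norm_num)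
    (fun T hT => (k2 T hT).bm) (fun _ hT => bm_E F₂ hT) (fun _ hT => F₂.bm_Hs P₂ (1 / 100) hT)
    L.continuous_w L.w_nonneg (fun T hT x hx => (k2 T hT).le hx) k1 (p3_E2 hL h2 p2)
    ((p3_tw hL h2 p2 hM le_rfl).mono (by norm_num))
  exact (e1.mono (by linarith)).of_le fun T hT => e2 T hT _ ⟨by linarith, le_rfl⟩

/-- The reduction to the short sums when the second exponent is two. -/
theorem q_two (hL : L.deg ≤ 1) (h1 : F₁.deg = 2) (h2 : F₂.deg = 3) (p1 : F₁.Vor P₁)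
    (p2 : F₂.Vor P₂) (hM : F₂.MS (4 / 3)) (g0 : 0 ≤ γ) (g1 : γ ≤ 1 / 10000) {a A : ℕ} (ha : a ≤ 4)
    (hA : A = 6 ∨ A = 7)
    (hE : Bd (fun T => mo A F₁.E L.w T) (1 + A / 4)) (hρ : (a : ℝ) / A + (2 : ℕ) / 3 ≤ 20 / 21)
    {g : ℝ → ℂ} (hg : ∀ T, 1 ≤ T → Bm g T) {c : ℝ} (hc : 1 + a / 4 + (2 : ℕ) / 3 - γ / 168 ≤ c)
    (h : Bd (fun T => ‖∫ x in T..2 * T, (F₁.Hs P₁ γ T x ^ a *
      F₂.Hs P₂ (1 / 100) T x ^ 2 - g x) * L.w x‖) c) :
    Bd (fun T => ‖∫ x in T..2 * T, (F₁.E x ^ a * F₂.E x ^ 2 - g x) * L.w x‖) c := by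
  have ha' : (a : ℝ) ≤ 4 := by exact_mod_cast ha
  have j1 := q_first hL h1 h2 p1 p2 g0 (by linarith) hA hE hρ
  have j2 := q_mid hL h1 h2 P₁ p2 hM γ a
  have bh := fun T (hT : 1 ≤ T) => (F₁.bm_Hs P₁ γ hT).pow a
  have bk := fun T (hT : 1 ≤ T) => (F₂.bm_Hs P₂ (1 / 100) hT).pow 2
  have bw := L.bm_w
  have b1 := fun T (hT : 1 ≤ T) =>
    ((((bm_E F₁ hT).pow a).sub (bh T hT)).mul ((bm_E F₂ hT).pow 2)).mul (bw T)
  have b2 := fun T (hT : 1 ≤ T) => ((bh T hT).mul (((bm_E F₂ hT).pow 2).sub (bk T hT))).mul (bw T)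
  have b3 := fun T (hT : 1 ≤ T) => (((bh T hT).mul (bk T hT)).sub (hg T hT)).mul (bw T)
  refine bd_split (k := fun _ x => (F₁.E x ^ a * F₂.E x ^ 2 - g x) * L.w x)
    (fun T hT => (b1 T hT).add (b2 T hT)) b3
    ((bd_split b1 b2 j1 (j2.mono (by push_cast; nlinarith)) fun _ _ => rfl).mono hc) h
    fun T x => by ring

theorem q_12 (hL : L.deg ≤ 1) (h1 : F₁.deg = 2) (h2 : F₂.deg = 3) (p1 : F₁.Vor P₁)
    (p2 : F₂.Vor P₂) (hM : F₂.MS (4 / 3)) :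
    Bd (fun T => ‖∫ x in T..2 * T, hy F₁ F₂ L 1 2 x‖)
      (1 + (1 : ℕ) / 4 + (2 : ℕ) / 3 - 1 / 1680000) := by
  have j := q_osc (γ₁ := 1 / 10000) (γ₂ := 1 / 100) (a := 1) (b := 2) hL h1 h2 p1.1 p2.1 (Or.inl rfl)
  have := q_two (a := 1) (g := fun _ => 0) (γ := 1 / 10000) hL h1 h2 p1 p2 hM (by norm_num) le_rfl
    (by norm_num) (Or.inl rfl)
    (p2_E6 hL h1 p1) (by norm_num) (fun T _ => Bm.of_cont continuousOn_const) le_rfl
    (by simpa only [sub_zero] using j.mono (by norm_num))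
  simp only [sub_zero] at this
  exact this.mono (by norm_num)

end Sel

end Pool.Agent.Lib.MP_2a1a00_nt
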