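import Pool.Agent.Lib.MP_2a1a00_nt.V.Q1
import Pool.Agent.Lib.MP_2a1a00_nt.V.Poly

/-! The dyadic asymptotic formula when both exponents are two. -/

namespace Pool.Agent.Lib.MP_2a1a00_nt

open Complex MeasureTheory Set

/-- The primitives of `G T` on `[T, 2 T]` are of size `T ^ (c + ε)`. -/
def Pb (G : ℝ → ℝ → ℂ) (c : ℝ) : Prop :=
  ∃ B : ℝ → ℝ, Bd B c ∧ ∀ T, 1 ≤ T → ∀ y ∈ Icc T (2 * T), ‖∫ x in T..y, G T x‖ ≤ B T

variable {f g k : ℝ → ℝ → ℂ} {c d : ℝ}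

theorem Pb.mono (h : Pb f c) (hc : c ≤ d) : Pb f d := by
  obtain ⟨B, h1, h2⟩ := h
  exact ⟨B, h1.mono hc, h2⟩

theorem Pb.congr (h : Pb f c) (e : ∀ T x, 1 ≤ T → 0 < x → g T x = f T x) : Pb g c := by
  obtain ⟨B, h1, h2⟩ := h
  refine ⟨B, h1, fun T hT y hy => le_trans (le_of_eq ?_) (h2 T hT y hy)⟩
  congr 1
  refine intervalIntegral.integral_congr fun x hx => e T x hT ?_
  rw [uIcc_of_le hy.1] at hx
  exact lt_of_lt_of_le one_pos (hT.trans hx.1)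

theorem Pb.add (h1 : Pb f c) (h2 : Pb g c) (hf : ∀ T, 1 ≤ T → Bm (f T) T)
    (hg : ∀ T, 1 ≤ T → Bm (g T) T) : Pb (fun T x => f T x + g T x) c := by
  obtain ⟨B, a1, a2⟩ := h1
  obtain ⟨B', b1, b2⟩ := h2
  refine ⟨_, a1.add b1, fun T hT y hy => ?_⟩
  rw [intervalIntegral.integral_add ((hf T hT).int hy) ((hg T hT).int hy)]
  exact (norm_add_le _ _).trans (add_le_add (a2 T hT y hy) (b2 T hT y hy))

theorem Pb.neg (h : Pb f c) : Pb (fun T x => -f T x) c := by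
  obtain ⟨B, a1, a2⟩ := h
  refine ⟨B, a1, fun T hT y hy => ?_⟩
  rw [intervalIntegral.integral_neg, norm_neg]
  exact a2 T hT y hy

theorem Pb.px (h : Pb f c) (hf : ∀ T, 1 ≤ T → ContinuousOn (f T) (Icc T (2 * T))) {D : ℝ → ℂ}
    (hD : Bd (fun T => ‖D T‖) d) {β : ℂ} (hβ : 0 ≤ β.re) :
    Pb (fun T x => D T * px β x * f T x) (d + β.re + c) := by
  obtain ⟨B, a1, a2⟩ := h
  have h0 : ∀ T, 1 ≤ T → 0 ≤ B T := fun T hT =>
    (norm_nonneg _).trans (a2 T hT T ⟨le_rfl, by linarith⟩)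
  refine ⟨_, (hD.mul (((bd_two β.re).const_mul (K := 1 + ‖β‖) (by positivity)).mul a1 h0)
    fun T hT => by
      have : 0 < T := by linarith
      have := h0 T hT
      positivity).mono (by linarith), fun T hT y hy => ?_⟩
  simp only [mul_assoc (D T)]
  rw [intervalIntegral.integral_const_mul, norm_mul]
  exact mul_le_mul_of_nonneg_left (parts_px (by linarith) (hf T hT) hβ (a2 T hT) hy) (norm_nonneg _)

theorem bm_of {T : ℝ} (hT : 1 ≤ T) {h : ℝ → ℂ} (hh : ContinuousOn h (Ioi 0)) : Bm h T :=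
  Bm.of_cont (hh.mono fun _ hx => p1_pos hT hx)

theorem px_int {σ : ℝ} (hσ : 0 ≤ σ) {a b : ℝ} (ha : 0 < a) (hb : 0 < b) :
    ∫ x in a..b, ((1 + σ : ℝ) : ℂ) * px σ x = ((b ^ (1 + σ) : ℝ) : ℂ) - ((a ^ (1 + σ) : ℝ) : ℂ) := by
  have h : ∫ x in a..b, ((1 + σ : ℝ) : ℂ) * px σ x = ∫ x in a..b, (((1 + σ) * x ^ σ : ℝ) : ℂ) := by
    refine intervalIntegral.integral_congr fun x hx => ?_
    have : 0 < x := (lt_min ha hb).trans_le hx.1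
    simp only [px_real _ this, ofReal_mul]
  rw [h, intervalIntegral.integral_ofReal, intervalIntegral.integral_const_mul,
    integral_rpow (Or.inl (by linarith)), ← ofReal_sub, add_comm σ]
  congr 1
  field_simp

/-- An asymptotic formula for the integrals from one bounds the primitives on dyadic intervals. -/
theorem pb_of {u v : ℝ → ℂ} {U : ℝ → ℂ} (hc : 0 ≤ c)
    (hu : ∀ a b : ℝ, 1 ≤ a → 1 ≤ b → IntervalIntegrable u volume a b) (hv : ContinuousOn v (Ioi 0))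
    (hU : ∀ a b : ℝ, 0 < a → 0 < b → ∫ x in a..b, v x = U b - U a)
    (h : ∀ ε : ℝ, 0 < ε → ∃ C : ℝ, ∀ T : ℝ, 1 ≤ T → ‖(∫ x in (1 : ℝ)..T, u x) - U T‖ ≤
      C * T ^ (c + ε)) : Pb (fun _ x => u x - v x) c := by
  obtain ⟨B, b1, -, b2⟩ := bd_unif' (S := fun T => Icc T (2 * T)) (c := c)
    (φ := fun T y => ‖∫ x in T..y, (u x - v x)‖) fun ε hε => by
      obtain ⟨C, h⟩ := h ε hε
      refine ⟨2 * (|C| * 2 ^ (c + ε)), fun T hT y hy => ?_⟩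
      have h0 : 0 < T := by linarith
      have hy1 : 1 ≤ y := hT.trans hy.1
      have k : ∀ z ∈ Icc T (2 * T), ‖(∫ x in (1 : ℝ)..z, u x) - U z‖ ≤
          |C| * 2 ^ (c + ε) * T ^ ε * T ^ c := fun z hz => by
        have hz0 : 0 < z := h0.trans_le hz.1
        refine (h z (hT.trans hz.1)).trans ((mul_le_mul (le_abs_self C) (Real.rpow_le_rpow hz0.le hz.2
          (by linarith)) (by positivity) (abs_nonneg C)).trans (le_of_eq ?_))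
        rw [Real.mul_rpow zero_le_two h0.le, Real.rpow_add h0]
        ring
      rw [intervalIntegral.integral_sub (hu T y hT hy1) ((bm_of hT hv).int hy),
        hU T y h0 (by linarith),
        ← intervalIntegral.integral_interval_sub_left (hu 1 y le_rfl hy1) (hu 1 T le_rfl hT),
        sub_sub_sub_comm]
      refine (norm_sub_le _ _).trans ?_
      linarith [k y hy, k T ⟨le_rfl, by linarith⟩]
  exact ⟨B, b1, b2⟩

theorem hy_int (F₁ F₂ L : Sel) (m n : ℕ) {a b : ℝ} (ha : 1 ≤ a) (hb : 1 ≤ b) :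
    IntervalIntegrable (hy F₁ F₂ L m n) volume a b ∧
      IntervalIntegrable (fun x => F₁.E x ^ m) volume a b := by
  have hs : uIoc a b ⊆ Icc 1 (max a b) := fun x hx => ⟨(le_min ha hb).trans hx.1.le, hx.2⟩
  have hs' : uIoc a b ⊆ Ioi 0 := fun x hx => one_pos.trans_le (hs hx).1
  have c : Continuous fun x : ℝ => ((‖L.L (1 / 2 + x * I)‖ ^ 2 : ℝ) : ℂ) :=
    continuous_ofReal.comp (L.continuous_L_half.norm.pow 2)
  obtain ⟨K₁, h₁⟩ := F₁.E_bdd (max a b)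
  obtain ⟨K₂, h₂⟩ := F₂.E_bdd (max a b)
  obtain ⟨K₃, h₃⟩ := (isCompact_Icc (a := 1) (b := max a b)).exists_bound_of_continuousOn
    c.continuousOn
  have e1 : ∀ x ∈ uIoc a b, ‖F₁.E x ^ m‖ ≤ K₁ ^ m := fun x hx => by
    rw [norm_pow]
    exact pow_le_pow_left₀ (norm_nonneg _) (h₁ x (hs hx)) m
  have e2 : ∀ x ∈ uIoc a b, ‖F₂.E x ^ n‖ ≤ K₂ ^ n := fun x hx => by
    rw [norm_pow]
    exact pow_le_pow_left₀ (norm_nonneg _) (h₂ x (hs hx)) n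
  refine ⟨intervalIntegrable_iff.2 (IntegrableOn.of_bound measure_Ioc_lt_top
    ((((F₁.E_meas.mono_set hs').pow m).mul ((F₂.E_meas.mono_set hs').pow n)).mul
      c.aestronglyMeasurable) (K₁ ^ m * K₂ ^ n * K₃) ((ae_restrict_iff' measurableSet_uIoc).2
      (Filter.Eventually.of_forall fun x hx => ?_))), intervalIntegrable_iff.2
      (IntegrableOn.of_bound measure_Ioc_lt_top ((F₁.E_meas.mono_set hs').pow m) (K₁ ^ m)
      ((ae_restrict_iff' measurableSet_uIoc).2 (Filter.Eventually.of_forall e1)))⟩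
  exact norm_mul_le_of_le (norm_mul_le_of_le (e1 x hx) (e2 x hx)) (h₃ x (hs hx))

/-- The diagonal term of the square of the short sum is close to the mean value of the square. -/
theorem pb_diag {F : Sel} {h O : ℝ → ℝ → ℂ} {D : ℝ → ℂ} {β C₀ : ℂ} {σ γ δ : ℝ} (hσ : 0 ≤ σ)
    (hγ : 0 ≤ γ) (hδ : δ ≤ 1) (hh : ∀ T, ContinuousOn (h T) (Ioi 0))
    (hO : ∀ T, ContinuousOn (O T) (Ioi 0)) (e : ∀ T x, 0 < x → h T x ^ 2 = D T * px β x + O T x)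
    (m1 : Bd (fun T => mo 2 F.E (fun _ => 1) T) (1 + 2 * (σ / 2)))
    (m2 : Bd (fun T => mo 2 (fun x => F.E x - h T x) (fun _ => 1) T) (1 + 2 * (σ / 2) - 2 * γ))
    (p : Pb O c) (ha : ∀ ε : ℝ, 0 < ε → ∃ C : ℝ, ∀ T : ℝ, 1 ≤ T →
      ‖(∫ x in (1 : ℝ)..T, F.E x ^ 2) - C₀ * (T ^ (1 + σ) : ℝ)‖ ≤ C * T ^ (1 + σ - δ + ε))
    (c1 : 1 + σ - γ ≤ c) (c2 : 1 + σ - δ ≤ c) :
    Pb (fun T x => D T * px β x - C₀ * ((1 + σ : ℝ) * px σ x)) c := by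
  have hv : ContinuousOn (fun x => C₀ * ((1 + σ : ℝ) * px σ x)) (Ioi 0) :=
    continuousOn_const.mul (continuousOn_const.mul (px_cont _))
  have p1 := pb_of (u := fun x => F.E x ^ 2) (U := fun x => C₀ * (x ^ (1 + σ) : ℝ)) (by linarith)
    (fun a b ha hb => (hy_int F F F 2 2 ha hb).2) hv (fun a b ha hb => by
      rw [intervalIntegral.integral_const_mul, px_int hσ ha hb, mul_sub]) ha
  have p2 : Pb _ _ := hold2_bd (G := fun _ _ => 1) (P := fun _ => 1) (e := fun _ => F.E) hγ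
    (fun _ _ => Bm.of_cont continuousOn_const) (fun _ hT => F.bm_E hT)
    (fun T hT => bm_of hT (hh T)) continuous_const (fun _ => zero_le_one)
    (fun _ _ _ _ => by simp) (bd_const 1) m1 m2
  have b1 := fun (T : ℝ) (hT : 1 ≤ T) => ((F.bm_E hT).pow 2).sub (bm_of hT hv)
  have b2 : ∀ T, 1 ≤ T → Bm (fun x => -(1 * (F.E x ^ 2 - h T x ^ 2) * ((1 : ℝ) : ℂ))) T :=
    fun T hT => by
    simpa using ((bm_of hT (hh T)).pow 2).sub ((F.bm_E hT).pow 2)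
  refine (((p1.mono c2).add (p2.mono (by linarith)).neg b1 b2).add p.neg
    (fun T hT => (b1 T hT).add (b2 T hT)) fun T hT => bm_of hT (hO T).neg).congr fun T x _ hx => ?_
  rw [e T x hx]
  push_cast
  ring

namespace Sel

variable {F₁ F₂ L : Sel} {P₁ P₂ : Vo}

theorem q2_floor {γ T : ℝ} (hγ : 0 ≤ γ) (hT : 1 ≤ T) : (0 : ℝ) < ⌊T ^ γ⌋₊ := by
  exact_mod_cast one_le_floor hγ hT

theorem q2_prim (h1 : F₁.deg = 2) (h2 : F₂.deg = 3) (p1 : F₁.Vor P₁) (p2 : F₂.Vor P₂)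
    (hM : F₂.MS (4 / 3)) {C₁ C₂ : ℂ} {δ : ℝ} (hδ : δ ≤ 1 / 100000)
    (a1 : ∀ ε : ℝ, 0 < ε → ∃ C : ℝ, ∀ T : ℝ, 1 ≤ T → ‖(∫ x in (1 : ℝ)..T, F₁.E x ^ 2) -
      C₁ * (T ^ (1 + 1 / 2 : ℝ) : ℝ)‖ ≤ C * T ^ (1 + 1 / 2 - δ + ε))
    {δ₂ : ℝ} (hδ₂ : δ₂ ≤ 1) (γ₁ : ℝ) (g0 : 4 * δ ≤ γ₁) (g1 : γ₁ ≤ 1 / 10000) (g2 : δ + 2 * γ₁ ≤ δ₂)
    (g3 : 0 ≤ γ₁)
    (a2 : ∀ ε : ℝ, 0 < ε → ∃ C : ℝ, ∀ T : ℝ, 1 ≤ T → ‖(∫ x in (1 : ℝ)..T, F₂.E x ^ 2) -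
      C₂ * (T ^ (1 + 2 / 3 : ℝ) : ℝ)‖ ≤ C * T ^ (1 + 2 / 3 - δ₂ + ε)) :
    Pb (fun T x => F₁.Hs P₁ γ₁ T x ^ 2 * F₂.Hs P₂ (1 / 100) T x ^ 2 -
      5 / 2 * C₁ * C₂ * px (7 / 6 : ℝ) x) (13 / 6 - δ) := by
  obtain ⟨K₁, k1, k⟩ := F₁.H_sq2 h1 p1.1
  choose D₁ O₁ d1 o1 e1 using k
  obtain ⟨K₂, k2, k⟩ := F₂.H_sq3 h2 p2.1
  choose D₂ O₂ d2 o2 e2 using k
  obtain ⟨M₂, m1, m2⟩ := trig2 h2 p2.1 (1 / 100)
  have n1 := ((bd_floor γ₁).pow (fun _ _ => Nat.cast_nonneg _) 2).const_mul (K := K₁) (by linarith)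
  have n2 := ((bd_floor (1 / 100)).pow (fun _ _ => Nat.cast_nonneg _) 2).const_mul (K := K₂)
    (by linarith)
  have r1 : (2 * P₁.ex 2).re = 1 / 2 := by simp [Vo.ex_re, al_two]; norm_num
  have r2 : (2 * P₂.ex 3).re = 2 / 3 := by simp [Vo.ex_re, al_three]; norm_num
  have c1 := fun T : ℝ => F₁.H_cont P₁ 0 ⌊T ^ γ₁⌋₊
  have c2 := fun T : ℝ => F₂.H_cont P₂ 0 ⌊T ^ (1 / 100 : ℝ)⌋₊
  have s1 : Pb (fun T => O₁ ⌊T ^ γ₁⌋₊) _ := trig_bd p1.1 (by rw [r1]; norm_num) n1 (bd_floor γ₁)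
    (fun T hT => q2_floor g3 hT) fun T _ => Or.inr ((o1 _).mono le_rfl fun _ _ h => h.2)
  have s2 : Pb (fun T => O₂ ⌊T ^ (1 / 100 : ℝ)⌋₊) _ := trig_bd p2.1 (by rw [r2]; norm_num) n2
    (bd_floor _) (fun T hT => q2_floor (by norm_num) hT)
    fun T _ => Or.inl ((o2 _).mono le_rfl fun _ _ h => h.2)
  rw [r1] at s1
  rw [r2] at s2
  have t2 := fun T => ((m2 T).mono (ok₂ := fun A _ => A = 0) le_rfl fun _ _ h => h.1).pow rfl
    (fun _ _ _ _ h h' => by rw [h, h', add_zero]) 2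
  have r3 : (2 * P₁.ex 2 + (2 : ℕ) * P₂.ex 3).re = 7 / 6 := by
    rw [add_re, r1, Nat.cast_ofNat, r2]
    norm_num
  have s3 : Pb (fun T x => O₁ ⌊T ^ γ₁⌋₊ x * F₂.Hs P₂ (1 / 100) T x ^ 2) _ := trig_bd p1.1
    (by rw [r3]; norm_num) (n1.mul (m1.pow (fun T _ => (m2 T).nonneg) 2) fun T _ => (t2 T).nonneg)
    (bd_floor γ₁) (fun T hT => q2_floor g3 hT) fun T _ => Or.inr ((o1 _).mul (t2 T)
      fun _ _ _ _ h h' => by rw [h', add_zero]; exact h.2)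
  rw [r3] at s3
  have hE1 : Bd (fun T => mo 2 F₁.E (fun _ => 1) T) (1 + 2 * (1 / 2 / 2)) := by
    simp only [mo_one]
    exact (low0 (n := 2) (m := 8) (x := 1 / 4) (f := fun _ => F₁.E) (by omega)
      (fun _ hT => bm_E F₁ hT) ((bd_nat 3 fun _ hε => F₁.E_eight h1 p1 hε).mono
        (by norm_num))).mono (by norm_num)
  have u1 := pb_diag (c := 3 / 2 - δ) (γ := γ₁ / 4) (σ := 1 / 2) (by norm_num) (by linarith)
    (by linarith) c1 (fun T => (o1 _).cont) (fun T => e1 _) hE1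
    ((p2_l2 h1 p1 (by linarith)).mono (by linarith)) (s1.mono (by push_cast; linarith)) a1
    (by linarith) (by linarith)
  have u2 := pb_diag (c := 5 / 3 - δ - 2 * γ₁) (γ := 1 / 600) (σ := 2 / 3) (by norm_num)
    (by norm_num) hδ₂ c2 (fun T => (o2 _).cont) (fun T => e2 _) ((p3_E0 h2 p2).mono (by norm_num))
    ((p3_l2 h2 p2 hM le_rfl).mono (by norm_num)) (s2.mono (by push_cast; linarith)) a2
    (by linarith) (by linarith)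
  have hD : Bd (fun T => ‖D₁ ⌊T ^ γ₁⌋₊‖) _ := n1.of_le fun T _ => d1 _
  have cp := fun (D β : ℂ) => (continuousOn_const (c := D)).mul (px_cont β)
  have w1 := fun T : ℝ => (cp (D₁ ⌊T ^ γ₁⌋₊) (2 * P₁.ex 2)).sub
    ((continuousOn_const (c := C₁)).mul (cp (1 + 1 / 2 : ℝ) (1 / 2 : ℝ)))
  have w2 := fun T : ℝ => (cp (D₂ ⌊T ^ (1 / 100 : ℝ)⌋₊) (2 * P₂.ex 3)).sub
    ((continuousOn_const (c := C₂)).mul (cp (1 + 2 / 3 : ℝ) (2 / 3 : ℝ)))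
  have sub := fun (T : ℝ) (hT : 1 ≤ T) x (hx : x ∈ Icc T (2 * T)) => p1_pos hT hx
  have v1 := s2.px (fun T hT => (o2 _).cont.mono (sub T hT)) hD (β := 2 * P₁.ex 2)
    (by rw [r1]; norm_num)
  have v2 := u2.px (fun T hT => (w2 T).mono (sub T hT)) hD (β := 2 * P₁.ex 2)
    (by rw [r1]; norm_num)
  have v3 := u1.px (fun T hT => (w1 T).mono (sub T hT)) (D := fun _ => C₂ * (1 + 2 / 3 : ℝ))
    (bd_const _) (β := (2 / 3 : ℝ)) (by rw [ofReal_re]; norm_num)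
  rw [r1] at v1 v2
  rw [ofReal_re] at v3
  have b0 := fun (T : ℝ) (hT : 1 ≤ T) => bm_of hT ((o1 ⌊T ^ γ₁⌋₊).cont.mul ((c2 T).pow 2))
  have b1 := fun (T : ℝ) (hT : 1 ≤ T) =>
    bm_of hT ((cp (D₁ ⌊T ^ γ₁⌋₊) (2 * P₁.ex 2)).mul (o2 ⌊T ^ (1 / 100 : ℝ)⌋₊).cont)
  have b2 := fun (T : ℝ) (hT : 1 ≤ T) => bm_of hT ((cp (D₁ ⌊T ^ γ₁⌋₊) (2 * P₁.ex 2)).mul (w2 T))
  have b3 := fun (T : ℝ) (hT : 1 ≤ T) => bm_of hT ((cp (C₂ * (1 + 2 / 3 : ℝ)) (2 / 3 : ℝ)).mul (w1 T))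
  refine (((s3.mono (by push_cast; linarith)).add (v1.mono (by push_cast; linarith)) b0 b1).add
    ((v2.mono (by push_cast; linarith)).add (v3.mono (by linarith)) b2 b3)
    (fun T hT => (b0 T hT).add (b1 T hT)) fun T hT => (b2 T hT).add (b3 T hT)).congr
    fun T x _ hx => ?_
  have e3 : px (7 / 6 : ℝ) x = px (2 / 3 : ℝ) x * px (1 / 2 : ℝ) x := by
    rw [← px_add]
    congr 1
    push_cast
    ring
  rw [e3, Hs, Hs, e1 _ x hx, e2 _ x hx]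
  push_cast
  ring

end Sel

end Pool.Agent.Lib.MP_2a1a00_nt
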