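import Pool.Agent.Lib.MP_2a1a00_nt.V.Defs
import Pool.Agent.Lib.MP_2a1a00_nt.Gam

/-! The formula of Stirling on vertical strips. -/

namespace Pool.Agent.Lib.MP_2a1a00_nt

open Complex MeasureTheory Set

theorem vst1_step {a : ℂ} (h0 : 0 ≤ a.re) (h2 : 2 ≤ ‖a‖) :
    ‖(a + 1 / 2) * (log (a + 1) - log a) - 1‖ ≤ 2 * (1 / ‖a‖ ^ 2) := by
  have ha : a ≠ 0 := norm_pos_iff.1 (by linarith)
  have hu : ‖1 / a‖ = 1 / ‖a‖ := by rw [norm_div, norm_one]
  have h1 : ‖1 / a‖ ≤ 1 / 2 := by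
    rw [hu]
    exact one_div_le_one_div_of_le two_pos h2
  have a1 := abs_le.1 (abs_arg_le_pi_div_two_iff.2 h0)
  have a2 := abs_lt.1 (abs_arg_lt_pi_div_two_iff.2 (Or.inl (gam_re h1)))
  have e : log (a + 1) = log a + log (1 + 1 / a) := by
    rw [← log_mul ha (gam_aux_ne h1) ⟨by linarith, by linarith⟩, mul_add, mul_one,
      mul_one_div_cancel ha]
  have b := norm_log_sub_logTaylor_le 2 (z := 1 / a) (by linarith)
  have t : logTaylor (2 + 1) (1 / a) = 1 / a - (1 / a) ^ 2 / 2 := by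
    simp [logTaylor, Finset.sum_range_succ]
    ring
  rw [t] at b
  set E := log (1 + 1 / a) - (1 / a - (1 / a) ^ 2 / 2) with hE
  have e2 : (a + 1 / 2) * (log (a + 1) - log a) - 1 = (a + 1 / 2) * E - (1 / a) ^ 2 / 4 := by
    rw [e, add_sub_cancel_left, hE]
    field_simp
    ring
  set u := ‖1 / a‖ with hud
  have u0 : 0 ≤ u := norm_nonneg _
  have ua : u * ‖a‖ = 1 := by
    rw [hu]
    field_simp
  have i1 : (1 - u)⁻¹ ≤ 2 := by
    rw [inv_le_comm₀ (by linarith) two_pos]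
    linarith
  have b2 : ‖E‖ ≤ u ^ 3 := by
    refine b.trans ?_
    have : u ^ (2 + 1) * (1 - u)⁻¹ ≤ u ^ 3 * 2 := mul_le_mul_of_nonneg_left i1 (by positivity)
    have h3 : 0 ≤ u ^ 3 := by positivity
    push_cast
    linarith
  have b3 : ‖a + 1 / 2‖ ≤ ‖a‖ + 1 / 2 := (norm_add_le _ _).trans (by norm_num)
  have b4 : ‖(a + 1 / 2) * E‖ ≤ (‖a‖ + 1 / 2) * u ^ 3 := by
    rw [norm_mul]
    exact mul_le_mul b3 b2 (norm_nonneg _) (by positivity)
  have b5 : ‖(1 / a) ^ 2 / 4‖ = u ^ 2 / 4 := by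
    rw [norm_div, norm_pow, Complex.norm_ofNat]
  have b6 : 1 / ‖a‖ ^ 2 = u ^ 2 := by rw [hu, div_pow, one_pow]
  have b7 : (‖a‖ + 1 / 2) * u ^ 3 = u ^ 2 + u ^ 2 * (u / 2) := by
    linear_combination u ^ 2 * ua
  have b8 : u ^ 2 * (u / 2) ≤ u ^ 2 * (1 / 4) := mul_le_mul_of_nonneg_left (by linarith) (by positivity)
  rw [e2, b6]
  refine (norm_sub_le _ _).trans ?_
  rw [b5]
  nlinarith [sq_nonneg u]

theorem vst1_lim {s : ℂ} (hs : ∀ k : ℕ, s + k ≠ 0) :
    Filter.Tendsto (fun n : ℕ => (s + n + 1 / 2) * (log n - log (s + (n + 1 : ℕ))) + (s + 1))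
      Filter.atTop (nhds 0) := by
  have h1 : Filter.Tendsto (fun n : ℕ => (n : ℂ) * ((s + 1) / (n : ℂ))) Filter.atTop
      (nhds (s + 1)) := by
    refine tendsto_const_nhds.congr' ?_
    filter_upwards [Filter.eventually_gt_atTop 0] with n hn
    have hn' : (n : ℂ) ≠ 0 := Nat.cast_ne_zero.2 hn.ne'
    field_simp
  have h2 := ((gam_rho hs).const_mul (s + 1 / 2)).add
    ((tendsto_nat_mul_log_one_add_of_tendsto h1).const_sub (s + 1))
  rw [mul_zero, sub_self, add_zero] at h2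
  refine h2.congr' ?_
  filter_upwards [Filter.eventually_gt_atTop 0] with n hn
  have hn' : (n : ℂ) ≠ 0 := Nat.cast_ne_zero.2 hn.ne'
  have e : s + (n + 1 : ℕ) = ((n : ℝ) : ℂ) * (1 + (s + 1) / (n : ℂ)) := by
    push_cast
    field_simp
    ring
  have h3 := hs (n + 1)
  rw [e] at h3 ⊢
  rw [log_ofReal_mul (by exact_mod_cast hn) (right_ne_zero_of_mul h3), natCast_log]
  ring

theorem vst1_fact {n : ℕ} (hn : n ≠ 0) : ((n.factorial : ℕ) : ℂ) =
    (Stirling.stirlingSeq n : ℝ) * exp ((Real.log √2 : ℝ) + (n + 1 / 2) * log n - n) := by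
  have h0 : (0 : ℝ) < n := by exact_mod_cast Nat.pos_of_ne_zero hn
  have e : Real.exp (Real.log √2 + (n + 1 / 2) * Real.log n - n) =
      √(2 * n : ℝ) * ((n : ℝ) / Real.exp 1) ^ n := by
    rw [Real.exp_sub, Real.exp_add, Real.exp_log (by positivity), add_mul, Real.exp_add,
      Real.exp_nat_mul, Real.exp_log h0, Real.sqrt_mul zero_le_two, Real.sqrt_eq_rpow (n : ℝ),
      Real.rpow_def_of_pos h0, div_pow, Real.exp_one_pow, mul_comm (Real.log n)]
    ring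
  have e2 : (n.factorial : ℝ) = Stirling.stirlingSeq n *
      Real.exp (Real.log √2 + (n + 1 / 2) * Real.log n - n) := by
    rw [e, Stirling.stirlingSeq, div_mul_cancel₀]
    positivity
  have e3 := congrArg (fun x : ℝ => (x : ℂ)) e2
  simp only [ofReal_natCast, ofReal_mul, ofReal_exp, ofReal_sub, ofReal_add, ofReal_div,
    ofReal_one, ofReal_ofNat, natCast_log] at e3
  exact e3

theorem vst1_main {s : ℂ} (h0 : 0 ≤ s.re) (h1 : 2 ≤ |s.im|) : ∃ r : ℂ, ‖r‖ ≤ 8 / |s.im| ∧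
    Gamma s = exp (c0 + (s - 1 / 2) * log s - s + r) := by
  have hn : ∀ k : ℕ, 2 ≤ ‖s + k‖ := fun k => h1.trans (gam_im_le s k)
  have hs : ∀ k : ℕ, s + k ≠ 0 := fun k => norm_pos_iff.1 (by linarith [hn k])
  set r : ℕ → ℂ := fun n => ∑ k ∈ Finset.range (n + 1),
    ((s + k + 1 / 2) * (log (s + k + 1) - log (s + k)) - 1) with hr
  have hb : ∀ n, r n ∈ Metric.closedBall (0 : ℂ) (8 / |s.im|) := by
    intro n
    rw [mem_closedBall_zero_iff]
    refine (norm_sum_le_of_le _ (n := fun k : ℕ => 2 * (1 / ‖s + k‖ ^ 2))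
      fun k _ => vst1_step (by simpa using add_nonneg h0 (Nat.cast_nonneg k)) (hn k)).trans ?_
    rw [← Finset.mul_sum]
    refine (mul_le_mul_of_nonneg_left (gam_sum h0 (by linarith) _) zero_le_two).trans
      (le_of_eq (by ring))
  have he : ∀ n : ℕ, ∑ k ∈ Finset.range (n + 1), log (s + k) =
      (s + n + 1 / 2) * log (s + (n + 1 : ℕ)) - (n + 1) - (s - 1 / 2) * log s - r n := by
    intro n
    induction n with
    | zero =>
      simp only [hr, zero_add, Finset.sum_range_one, Nat.cast_zero, add_zero, Nat.cast_one]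
      ring
    | succ n ih =>
      rw [Finset.sum_range_succ, ih]
      simp only [hr]
      rw [Finset.sum_range_succ _ (n + 1)]
      push_cast
      simp only [← add_assoc]
      ring
  obtain ⟨ρ, hρ, φ, hφ, hl⟩ := (isCompact_closedBall _ _).tendsto_subseq hb
  refine ⟨ρ, mem_closedBall_zero_iff.1 hρ, ?_⟩
  have t1 := (GammaSeq_tendsto_Gamma s).comp hφ.tendsto_atTop
  have t2 := ((Stirling.tendsto_stirlingSeq_sqrt_pi.comp hφ.tendsto_atTop).ofReal).mul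
    ((((vst1_lim hs).comp hφ.tendsto_atTop).add hl).const_add
      ((Real.log √2 : ℝ) + (s - 1 / 2) * log s - s)).cexp
  have e0 : ((√Real.pi : ℝ) : ℂ) * exp ((Real.log √2 : ℝ) + (s - 1 / 2) * log s - s + (0 + ρ)) =
      exp (c0 + (s - 1 / 2) * log s - s + ρ) := by
    have hp : (0 : ℝ) < √Real.pi := Real.sqrt_pos.2 Real.pi_pos
    have : ((√Real.pi : ℝ) : ℂ) = exp (Real.log √Real.pi : ℝ) := by
      rw [← ofReal_exp, Real.exp_log hp]
    rw [this, ← exp_add, c0, Real.sqrt_mul zero_le_two, Real.log_mul (by positivity) hp.ne']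
    congr 1
    push_cast
    ring
  rw [e0] at t2
  refine tendsto_nhds_unique t1 (t2.congr' ?_)
  filter_upwards [hφ.tendsto_atTop.eventually (Filter.eventually_gt_atTop 0)] with n hn
  simp only [Function.comp_apply]
  have hn' : ((φ n : ℕ) : ℂ) ≠ 0 := Nat.cast_ne_zero.2 hn.ne'
  have e1 : ∏ k ∈ Finset.range (φ n + 1), (s + k) =
      exp (∑ k ∈ Finset.range (φ n + 1), log (s + k)) := by
    rw [exp_sum]
    exact Finset.prod_congr rfl fun k _ => (exp_log (hs k)).symm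
  rw [GammaSeq, e1, he, vst1_fact hn.ne', cpow_def_of_ne_zero hn', mul_left_comm, ← exp_add,
    mul_div_assoc, ← exp_sub]
  congr 2
  ring

theorem vst1_log {τ : ℝ} (h : 0 < τ) : log (τ * I) = Real.log τ + Real.pi / 2 * I := by
  rw [log_ofReal_mul h I_ne_zero, log_I]

/- Let `S s = (s - 1 / 2) * log s - s`.  For `re s ≥ 0`, `‖s‖ ≥ 2`: `S (s + 1) - S s - log s` is
`(s + 1 / 2) * (log (s + 1) - log s) - 1`, of norm `≤ C / ‖s‖ ^ 2` (`log (s + 1) - log s = log (1 + 1 / s)`,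
`Complex.norm_log_one_add_sub_self_le`-type bound with two terms, `Complex.norm_log_sub_logTaylor_le`).
Telescoping with `gam_sum`: `∏ k ≤ n, (s + k) = exp (S (s + n + 1) - S s - ρ n)`, `‖ρ n‖ ≤ C / τ`.  In
`GammaSeq s n = n ^ s * n! / ∏` use `Stirling.tendsto_stirlingSeq_sqrt_pi` and
`s log n + (n + 1 / 2) log n - n - S (s + n + 1) → 0`; a limit of points of a closed ball lies in it
(pass to `exp`: the set of `exp r`, `‖r‖ ≤ c`, is compact).  Finally `log (τ i) = log τ + π / 2 * i`. -/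
theorem st1_axis : ∃ C : ℝ, 0 < C ∧ ∀ τ : ℝ, 2 ≤ τ → ∃ r : ℂ, ‖r‖ ≤ C / τ ∧
    Gamma (τ * I) = exp (c0 + (-1 / 2 + τ * I) * (Real.log τ + Real.pi / 2 * I) - τ * I + r) := by
  refine ⟨8, by norm_num, fun τ hτ => ?_⟩
  have hi : |(τ * I : ℂ).im| = τ := by simp [abs_of_nonneg (by linarith : 0 ≤ τ)]
  obtain ⟨r, h1, h2⟩ := vst1_main (s := τ * I) (by simp) (by rwa [hi])
  rw [hi] at h1
  refine ⟨r, h1, ?_⟩
  rw [h2, vst1_log (by linarith)]
  congr 1
  ring

/- `gam_ratio` with `s = τ i`, `w = p`, and `st1_axis`. -/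
theorem stir_pos (K : ℝ) : ∃ C τ₀ : ℝ, 0 < C ∧ 1 ≤ τ₀ ∧ ∀ (p : ℂ) (τ : ℝ), ‖p‖ ≤ K → τ₀ ≤ τ →
    ∃ r : ℂ, ‖r‖ ≤ C / τ ∧ Gamma (p + τ * I) =
      exp (c0 + (p - 1 / 2 + τ * I) * (Real.log τ + Real.pi / 2 * I) - τ * I + r) := by
  obtain ⟨C, hC, h⟩ := st1_axis
  refine ⟨C + 10 * (|K| + K ^ 2), 2 + 2 * |K|, by positivity, by linarith [abs_nonneg K],
    fun p τ hp hτ => ?_⟩
  have hK := abs_nonneg K
  have hp' : ‖p‖ ≤ |K| := hp.trans (le_abs_self K)
  have h0 : 0 < τ := by linarith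
  have hi : |(τ * I : ℂ).im| = τ := by simp [abs_of_pos h0]
  obtain ⟨r, h1, h2⟩ := h τ (by linarith)
  obtain ⟨r', h3, h4⟩ := gam_ratio (s := τ * I) (w := p) (by simp) (by rw [hi]; linarith)
    (by rw [hi]; linarith)
  rw [hi] at h3
  refine ⟨r + r', (norm_add_le _ _).trans ?_, ?_⟩
  · rw [add_div]
    refine add_le_add h1 (h3.trans ?_)
    rw [← sq_abs K]
    gcongr
  · rw [add_comm p, h4, h2, ← exp_add, vst1_log h0]
    congr 1
    ring

/- The conjugate of `stir_pos` at `conj p` (`Complex.Gamma_conj`, `Complex.exp_conj`). -/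
theorem stir_neg (K : ℝ) : ∃ C τ₀ : ℝ, 0 < C ∧ 1 ≤ τ₀ ∧ ∀ (p : ℂ) (τ : ℝ), ‖p‖ ≤ K → τ₀ ≤ τ →
    ∃ r : ℂ, ‖r‖ ≤ C / τ ∧ Gamma (p - τ * I) =
      exp (c0 + (p - 1 / 2 - τ * I) * (Real.log τ - Real.pi / 2 * I) + τ * I + r) := by
  obtain ⟨C, τ₀, hC, h0, h⟩ := stir_pos K
  refine ⟨C, τ₀, hC, h0, fun p τ hp hτ => ?_⟩
  obtain ⟨r, h1, h2⟩ := h (starRingEnd ℂ p) τ (by rwa [norm_conj]) hτ
  refine ⟨starRingEnd ℂ r, by rwa [norm_conj], ?_⟩
  have e : p - τ * I = starRingEnd ℂ (starRingEnd ℂ p + τ * I) := by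
    simp [sub_eq_add_neg]
  rw [e, Gamma_conj, h2, ← exp_conj]
  congr 1
  simp only [map_add, map_sub, map_mul, map_div₀, conj_conj, conj_ofReal, conj_I, map_one,
    map_ofNat]
  ring

/- For `|v| ≥ τ₀` take norms in `stir_pos`, `stir_neg` (`|v| ≤ 1 + |v| ≤ 2 |v|`); for `|v| ≤ τ₀` use `gam_le`. -/
theorem gam_vert {c : ℝ} (hc : 0 < c) : ∃ C : ℝ, 0 < C ∧ ∀ v : ℝ,
    ‖Gamma (c + v * I)‖ ≤ C * (1 + |v|) ^ (c - 1 / 2) * Real.exp (-(Real.pi / 2) * |v|) := by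
  obtain ⟨C₁, τ₁, hC₁, h₁, H₁⟩ := stir_pos c
  obtain ⟨C₂, τ₂, hC₂, h₂, H₂⟩ := stir_neg c
  have hn : ‖(c : ℂ)‖ ≤ c := by rw [norm_real, Real.norm_of_nonneg hc.le]
  set τ₀ := max τ₁ τ₂ with hτ₀
  have t1 : τ₁ ≤ τ₀ := le_max_left _ _
  have t2 : τ₂ ≤ τ₀ := le_max_right _ _
  have big : ∀ (τ : ℝ) (z : ℂ), τ₀ ≤ τ → z.re ≤ c0 + (c - 1 / 2) * Real.log τ - Real.pi / 2 * τ +
      (C₁ + C₂) → ‖exp z‖ ≤ Real.exp (c0 + (C₁ + C₂) + 1) * (1 + τ) ^ (c - 1 / 2) *
        Real.exp (-(Real.pi / 2) * τ) := by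
    intro τ z hτ hz
    have h0 : 0 < τ := by linarith
    rw [norm_exp, Real.rpow_def_of_pos (by linarith), ← Real.exp_add, ← Real.exp_add]
    refine Real.exp_le_exp.2 (hz.trans ?_)
    have l1 : Real.log τ ≤ Real.log (1 + τ) := Real.log_le_log h0 (by linarith)
    have l2 : Real.log (1 + τ) ≤ Real.log τ + 1 := by
      have := Real.log_le_log (by linarith) (show 1 + τ ≤ 2 * τ by linarith)
      rw [Real.log_mul two_ne_zero h0.ne'] at this
      linarith [Real.log_two_lt_d9]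
    nlinarith [mul_nonneg hc.le (sub_nonneg.2 l1)]
  have rb : ∀ (C τ : ℝ) (r : ℂ), 0 < C → 1 ≤ τ → ‖r‖ ≤ C / τ → r.re ≤ C := fun C τ r hC hτ hr =>
    (re_le_norm r).trans (hr.trans (div_le_self hC.le hτ))
  set A := Real.exp (c0 + (C₁ + C₂) + 1) with hA
  set B := Real.Gamma c * ((1 + τ₀) * Real.exp (Real.pi / 2 * τ₀)) with hB
  have hG := Real.Gamma_pos_of_pos hc
  have hB0 : 0 < B := by
    have : 0 < 1 + τ₀ := by linarith
    positivity
  have hA0 : 0 < A := Real.exp_pos _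
  refine ⟨A + B, by positivity, fun v => ?_⟩
  have hv := abs_nonneg v
  have hpos : 0 < (1 + |v|) ^ (c - 1 / 2) * Real.exp (-(Real.pi / 2) * |v|) := by positivity
  rw [mul_assoc]
  rcases le_total τ₀ |v| with h | h
  · refine le_trans ?_ (mul_le_mul_of_nonneg_right (le_add_of_nonneg_right hB0.le) hpos.le)
    rw [← mul_assoc]
    rcases le_total 0 v with h0 | h0
    · rw [abs_of_nonneg h0] at h ⊢
      obtain ⟨r, a1, a2⟩ := H₁ c v hn (t1.trans h)
      rw [a2]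
      refine big v _ h ?_
      have := rb _ _ _ hC₁ (h₁.trans (t1.trans h)) a1
      simp only [add_re, sub_re, mul_re, ofReal_re, ofReal_im, I_re, I_im, add_im, sub_im, mul_im,
        div_ofNat_re, div_ofNat_im, one_re, one_im]
      linarith
    · rw [abs_of_nonpos h0] at h ⊢
      obtain ⟨r, a1, a2⟩ := H₂ c (-v) hn (t2.trans h)
      have e : (c : ℂ) + v * I = c - (-v : ℝ) * I := by
        push_cast
        ring
      rw [e, a2]
      refine big (-v) _ h ?_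
      have := rb _ _ _ hC₂ (h₂.trans (t2.trans h)) a1
      simp only [add_re, sub_re, mul_re, ofReal_re, ofReal_im, I_re, I_im, sub_im, mul_im,
        div_ofNat_re, div_ofNat_im, one_re, one_im]
      linarith
  · refine le_trans ?_ (mul_le_mul_of_nonneg_right (le_add_of_nonneg_left hA0.le) hpos.le)
    have g1 : ‖Gamma (c + v * I)‖ ≤ Real.Gamma c := by
      simpa using gam_le (s := c + v * I) (by simpa using hc)
    refine g1.trans ?_
    rw [hB, mul_assoc]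
    refine le_mul_of_one_le_right hG.le ?_
    have a1 : (1 + |v|) ^ (-1 : ℝ) ≤ (1 + |v|) ^ (c - 1 / 2) :=
      Real.rpow_le_rpow_of_exponent_le (by linarith) (by linarith)
    have a2 : 1 ≤ (1 + τ₀) * (1 + |v|) ^ (c - 1 / 2) := by
      refine le_trans ?_ (mul_le_mul_of_nonneg_left a1 (by linarith))
      rw [Real.rpow_neg_one, ← div_eq_mul_inv, one_le_div (by linarith)]
      linarith
    have a3 : 1 ≤ Real.exp (Real.pi / 2 * τ₀) * Real.exp (-(Real.pi / 2) * |v|) := by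
      rw [← Real.exp_add]
      exact Real.one_le_exp (by nlinarith [Real.pi_pos])
    rw [mul_mul_mul_comm]
    exact one_le_mul_of_one_le_of_one_le a2 a3

end Pool.Agent.Lib.MP_2a1a00_nt
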