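import Pool.Agent.Lib.MP_2a1a00_nt.V.TM
import Pool.Agent.Lib.MP_2a1a00_nt.V.Hold
import Pool.Agent.Lib.MP_2a1a00_nt.V.Bd

/-! The twisting lemmas in the form of bounds `f T ≪ T ^ (c + ε)`. -/

namespace Pool.Agent.Lib.MP_2a1a00_nt

open Complex MeasureTheory Set

theorem mu0_nonneg (p : ℕ) (f : ℝ → ℂ) {T : ℝ} (hT : 0 ≤ T) : 0 ≤ mu0 p f T :=
  intervalIntegral.integral_nonneg (by linarith) fun _ _ => by positivity

theorem mo_nonneg (p : ℕ) (f : ℝ → ℂ) {w : ℝ → ℝ} (hw : ∀ x, 0 ≤ w x) {T : ℝ} (hT : 0 ≤ T) :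
    0 ≤ mo p f w T :=
  intervalIntegral.integral_nonneg (by linarith) fun x _ => mul_nonneg (by positivity) (hw x)

theorem mo_one (p : ℕ) (f : ℝ → ℂ) (T : ℝ) : mo p f (fun _ => 1) T = mu0 p f T := by
  simp [mo, mu0]

theorem rpow_pow {T : ℝ} (hT : 1 ≤ T) (y : ℝ) (p : ℕ) : (T ^ y) ^ p = T ^ (p * y) := by
  rw [← Real.rpow_natCast, ← Real.rpow_mul (by linarith), mul_comm]

variable {e h v G r : ℝ → ℝ → ℂ} {w P : ℝ → ℝ} {p c x γ : ℝ}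

theorem hold_bd {a b A : ℕ} (hA : 0 < A) (hρ : (a : ℝ) / A + b / 3 ≤ 20 / 21) (hγ : 0 ≤ γ)
    (he : ∀ T, 1 ≤ T → Bm (e T) T) (hh : ∀ T, 1 ≤ T → Bm (h T) T) (hv : ∀ T, 1 ≤ T → Bm (v T) T)
    (hw : Continuous w) (hw0 : ∀ x, 0 ≤ w x) (m0 : Bd (fun T => ∫ x in T..2 * T, w x) 1)
    (m1 : Bd (fun T => mo A (e T) w T) (1 + A / 4)) (m2 : Bd (fun T => mo A (h T) w T) (1 + A / 4))
    (m3 : Bd (fun T => mo 3 (v T) w T) 2)
    (m4 : Bd (fun T => mo 2 (fun x => e T x - h T x) w T) (3 / 2 - 2 * γ)) :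
    Bd (fun T => ‖∫ x in T..2 * T, (e T x ^ a - h T x ^ a) * v T x ^ b * w x‖)
      (1 + a / 4 + b / 3 - γ / 42) := by
  have hZ := (((m0.add ((m1.div_rpow (A / 4)).mono (by linarith))).add
    ((m2.div_rpow (A / 4)).mono (by linarith))).add ((m3.div_rpow 1).mono (by linarith))).add
    ((m4.div_rpow (1 / 2 - 2 * γ)).mono (by linarith))
  refine (((hZ.const_mul (K := 8 + 2 * a) (by positivity)).mul_rpow
    (a / 4 + b / 3 - γ / 42)).mono (by linarith)).of_le fun T hT => ?_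
  have h0 : 0 < T := by linarith
  have k0 : 0 ≤ ∫ x in T..2 * T, w x :=
    intervalIntegral.integral_nonneg (by linarith) fun x _ => hw0 x
  have k1 := div_nonneg (mo_nonneg A (e T) hw0 h0.le) (Real.rpow_nonneg h0.le (A / 4))
  have k2 := div_nonneg (mo_nonneg A (h T) hw0 h0.le) (Real.rpow_nonneg h0.le (A / 4))
  have k3 := div_nonneg (mo_nonneg 3 (v T) hw0 h0.le) (Real.rpow_nonneg h0.le 1)
  have k4 := div_nonneg (mo_nonneg 2 (fun x => e T x - h T x) hw0 h0.le)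
    (Real.rpow_nonneg h0.le (1 / 2 - 2 * γ))
  refine (hold (Z := (∫ x in T..2 * T, w x) + mo A (e T) w T / T ^ ((A : ℝ) / 4) +
    mo A (h T) w T / T ^ ((A : ℝ) / 4) + mo 3 (v T) w T / T ^ (1 : ℝ) +
    mo 2 (fun x => e T x - h T x) w T / T ^ (1 / 2 - 2 * γ)) (η := T ^ (-γ)) (X := T ^ (1 / 4 : ℝ))
    (Y := T ^ (1 / 3 : ℝ)) hA hρ (by norm_num) (by positivity)
    (Real.rpow_le_one_of_one_le_of_nonpos hT (by linarith)) h0.le (by positivity) (by positivity)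
    (he T hT) (hh T hT) (hv T hT) hw.continuousOn hw0 (by linarith) ?_ ?_ ?_ ?_).trans (le_of_eq ?_)
  · rw [rpow_pow hT, mul_one_div, ← div_le_iff₀ (by positivity)]
    linarith
  · rw [rpow_pow hT, mul_one_div, ← div_le_iff₀ (by positivity)]
    linarith
  · rw [rpow_pow hT, ← div_le_iff₀ (by positivity), show ((3 : ℕ) : ℝ) * (1 / 3) = 1 by norm_num]
    linarith
  · rw [← Real.rpow_add h0, rpow_pow hT, ← div_le_iff₀ (by positivity),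
      show ((2 : ℕ) : ℝ) * (1 / 4 + -γ) = 1 / 2 - 2 * γ by push_cast; ring]
    linarith
  · rw [rpow_pow hT, rpow_pow hT, ← Real.rpow_mul h0.le, mul_assoc, mul_assoc, ← Real.rpow_add h0,
      ← Real.rpow_add h0]
    congr 2
    ring

theorem hold1_bd (hG : ∀ T, 1 ≤ T → Bm (G T) T) (hr : ∀ T, 1 ≤ T → Bm (r T) T)
    (hw : Continuous w) (hw0 : ∀ x, 0 ≤ w x) (m0 : Bd (fun T => ∫ x in T..2 * T, w x) 1)
    (hP : ∀ T, 1 ≤ T → ∀ x ∈ Icc T (2 * T), ‖G T x‖ ≤ P T) (hp : Bd P p)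
    (m1 : Bd (fun T => mo 2 (r T) w T) (1 + 2 * x)) :
    Bd (fun T => ‖∫ y in T..2 * T, G T y * r T y * w y‖) (p + 1 + x) := by
  have hZ := m0.add ((m1.div_rpow (2 * x)).mono (by linarith))
  have k0 : ∀ T, 1 ≤ T → 0 ≤ ∫ x in T..2 * T, w x := fun T hT =>
    intervalIntegral.integral_nonneg (by linarith) fun x _ => hw0 x
  have k1 : ∀ T, 1 ≤ T → 0 ≤ mo 2 (r T) w T / T ^ (2 * x) := fun T hT =>
    div_nonneg (mo_nonneg 2 (r T) hw0 (by linarith)) (Real.rpow_nonneg (by linarith) _)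
  refine ((hp.mul (hZ.mul_rpow x) fun T hT => mul_nonneg (add_nonneg (k0 T hT) (k1 T hT))
    (Real.rpow_nonneg (by linarith) _)).mono (by linarith)).of_le fun T hT => ?_
  have h0 : 0 < T := by linarith
  refine hold1 h0.le (by positivity) (hG T hT) (hr T hT) hw.continuousOn hw0 (hP T hT)
    (by linarith [k1 T hT]) ?_
  rw [rpow_pow hT, ← div_le_iff₀ (by positivity), Nat.cast_ofNat]
  linarith [k0 T hT]

theorem hold2_bd (hγ : 0 ≤ γ) (hG : ∀ T, 1 ≤ T → Bm (G T) T) (he : ∀ T, 1 ≤ T → Bm (e T) T)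
    (hh : ∀ T, 1 ≤ T → Bm (h T) T) (hw : Continuous w) (hw0 : ∀ x, 0 ≤ w x)
    (hP : ∀ T, 1 ≤ T → ∀ x ∈ Icc T (2 * T), ‖G T x‖ ≤ P T) (hp : Bd P p)
    (m1 : Bd (fun T => mo 2 (e T) w T) (1 + 2 * x))
    (m2 : Bd (fun T => mo 2 (fun y => e T y - h T y) w T) (1 + 2 * x - 2 * γ)) :
    ∃ B : ℝ → ℝ, Bd B (p + 1 + 2 * x - γ) ∧ ∀ T, 1 ≤ T → ∀ y ∈ Icc T (2 * T),
      ‖∫ u in T..y, G T u * (e T u ^ 2 - h T u ^ 2) * w u‖ ≤ B T := by
  have hZ := ((m1.div_rpow (2 * x)).mono (d := 1) (by linarith)).add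
    ((m2.div_rpow (2 * x - 2 * γ)).mono (by linarith))
  have k0 : ∀ T, 1 ≤ T → 0 ≤ mo 2 (e T) w T / T ^ (2 * x) := fun T hT =>
    div_nonneg (mo_nonneg 2 (e T) hw0 (by linarith)) (Real.rpow_nonneg (by linarith) _)
  have k1 : ∀ T, 1 ≤ T → 0 ≤ mo 2 (fun y => e T y - h T y) w T / T ^ (2 * x - 2 * γ) := fun T hT =>
    div_nonneg (mo_nonneg 2 _ hw0 (by linarith)) (Real.rpow_nonneg (by linarith) _)
  refine ⟨_, (hp.mul ((hZ.const_mul (K := 3) (by norm_num)).mul_rpow (2 * x - γ)) fun T hT =>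
    mul_nonneg (mul_nonneg (by norm_num) (add_nonneg (k0 T hT) (k1 T hT)))
    (Real.rpow_nonneg (by linarith) _)).mono (by linarith), fun T hT y hy => ?_⟩
  have h0 : 0 < T := by linarith
  refine (hold2 (Z := mo 2 (e T) w T / T ^ (2 * x) +
    mo 2 (fun y => e T y - h T y) w T / T ^ (2 * x - 2 * γ)) (X := T ^ x) (η := T ^ (-γ)) h0.le
    (by positivity) (Real.rpow_le_one_of_one_le_of_nonpos hT (by linarith)) (hG T hT) (he T hT)
    (hh T hT) hw.continuousOn hw0 (hP T hT) ?_ ?_ hy).trans (le_of_eq ?_)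
  · rw [rpow_pow hT, ← div_le_iff₀ (by positivity), Nat.cast_ofNat]
    linarith [k1 T hT]
  · rw [← Real.rpow_add h0, rpow_pow hT, ← div_le_iff₀ (by positivity),
      show ((2 : ℕ) : ℝ) * (x + -γ) = 2 * x - 2 * γ by push_cast; ring]
    linarith [k0 T hT]
  · rw [rpow_pow hT, mul_assoc (3 * _), ← Real.rpow_add h0, Nat.cast_ofNat, ← sub_eq_add_neg]

theorem close_bd {n : ℕ} {f g : ℝ → ℝ → ℂ} {K : ℝ → ℝ} {k : ℝ} (hf : ∀ T, 1 ≤ T → Bm (f T) T)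
    (hg : ∀ T, 1 ≤ T → Bm (g T) T) (hw : Continuous w) (hw0 : ∀ x, 0 ≤ w x)
    (m0 : Bd (fun T => ∫ x in T..2 * T, w x) 1) (hK : Bd K k)
    (h : ∀ T, 1 ≤ T → ∀ x ∈ Icc T (2 * T), ‖f T x - g T x‖ ≤ K T)
    (m1 : Bd (fun T => mo n (g T) w T) c) (hc : n * k + 1 ≤ c) :
    Bd (fun T => mo n (f T) w T) c := by
  have h0 : ∀ T, 1 ≤ T → 0 ≤ K T := fun T hT =>
    (norm_nonneg _).trans (h T hT T ⟨le_rfl, by linarith⟩)
  refine ((m1.add (((hK.pow h0 n).mul m0 fun T hT => intervalIntegral.integral_nonneg (by linarith)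
    fun x _ => hw0 x).mono hc)).const_mul (K := 2 ^ n) (by positivity)).of_le fun T hT => ?_
  exact mo_close n (by linarith) (hf T hT) (hg T hT) hw.continuousOn hw0 (h T hT)

theorem low_bd {n m : ℕ} (hnm : n ≤ m) {f : ℝ → ℝ → ℂ} (hf : ∀ T, 1 ≤ T → Bm (f T) T)
    (hw : Continuous w) (hw0 : ∀ x, 0 ≤ w x) (m0 : Bd (fun T => ∫ x in T..2 * T, w x) 1)
    (m1 : Bd (fun T => mo m (f T) w T) (1 + m * x)) : Bd (fun T => mo n (f T) w T) (1 + n * x) := by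
  refine (((m0.mul_rpow (n * x)).add ((m1.div_rpow ((m - n : ℕ) * x)).mono ?_))).of_le
    fun T hT => ?_
  · rw [Nat.cast_sub hnm]
    linarith
  · have h0 : 0 < T := by linarith
    refine (mo_low (X := T ^ x) hnm h0.le (hf T hT) hw.continuousOn hw0 (by positivity)).trans
      (le_of_eq ?_)
    rw [rpow_pow hT, rpow_pow hT, mul_comm]

theorem bd_one : Bd (fun T => ∫ _ in T..2 * T, (1 : ℝ)) 1 :=
  bd_id.of_le fun T _ => by simp; linarith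

namespace Sel

variable (L : Sel)

theorem bd_mass (hL : L.deg ≤ 1) : Bd (fun T => ∫ x in T..2 * T, L.w x) 1 :=
  bd_id.of_forall fun ε hε => by
    obtain ⟨C, h1, h⟩ := L.mass hL hε
    exact ⟨C, by linarith, h⟩

theorem tm_bd (hL : L.deg ≤ 1) {n q : ℕ} (hn : 2 ≤ n) (hq : q + 2 ≤ 2 * n) {Φ Φ' : ℝ → ℝ → ℂ}
    {K : ℝ → ℝ} {y z : ℝ} (h0 : 0 ≤ y) (h1 : y ≤ 1) (hN : ∀ T, 1 ≤ T → Nice (Φ T) (Φ' T) T)
    (hK : Bd K 0) (hK' : ∀ T, 1 ≤ T → ∀ x ∈ Icc T (2 * T), ‖Φ' T x‖ ≤ K T)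
    (z0 : Bd (fun T => mu0 n (Φ T) T) c) (z1 : Bd (fun T => mu0 q (Φ T) T) z)
    (c1 : 1 / 2 + n * y ≤ c) (c2 : (1 + z) / 2 + y * (n - (q + 1) / 2) ≤ c) :
    Bd (fun T => ∫ x in T..2 * T, min ‖Φ T x‖ (T ^ y) ^ n * L.w x) c := by
  have k1 := (bd_sqrt.mul_rpow (n * y)).mono c1
  have k2 := (((((bd_const 1).add hK).mul (bd_id.mul z1 fun T hT =>
    mu0_nonneg _ _ (by linarith)).sqrt fun _ _ => Real.sqrt_nonneg _).mul_rpow
    (y * (n - (q + 1) / 2))).mono (d := c) (by linarith))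
  refine ((z0.add k1).add k2).of_forall fun ε hε => ?_
  obtain ⟨C, hC, h⟩ := L.tm hL hn hq hε
  refine ⟨C, hC, fun T hT => (h _ _ T _ _ _ _ (hN T hT) (Real.one_le_rpow hT h0) ?_ (hK' T hT)
    le_rfl le_rfl).trans (le_of_eq ?_)⟩
  · simpa using Real.rpow_le_rpow_of_exponent_le hT h1
  · rw [rpow_pow hT, ← Real.rpow_mul (by linarith)]

theorem tm_sup (hL : L.deg ≤ 1) {n q : ℕ} (hn : 2 ≤ n) (hq : q + 2 ≤ 2 * n) {Φ Φ' : ℝ → ℝ → ℂ}
    {K Λ : ℝ → ℝ} {y z : ℝ} (h0 : 0 ≤ y) (h1 : y ≤ 1) (hN : ∀ T, 1 ≤ T → Nice (Φ T) (Φ' T) T)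
    (hK : Bd K 0) (hK' : ∀ T, 1 ≤ T → ∀ x ∈ Icc T (2 * T), ‖Φ' T x‖ ≤ K T) (hΛ : Bd Λ y)
    (hΛ' : ∀ T, 1 ≤ T → ∀ x ∈ Icc T (2 * T), ‖Φ T x‖ ≤ Λ T)
    (z0 : Bd (fun T => mu0 n (Φ T) T) c) (z1 : Bd (fun T => mu0 q (Φ T) T) z)
    (c1 : 1 / 2 + n * y ≤ c) (c2 : (1 + z) / 2 + y * (n - (q + 1) / 2) ≤ c) :
    Bd (fun T => mo n (Φ T) L.w T) c := by
  have k0 : ∀ T, 1 ≤ T → 0 ≤ Λ T / T ^ y := fun T hT => div_nonneg
    ((norm_nonneg _).trans (hΛ' T hT T ⟨le_rfl, by linarith⟩)) (Real.rpow_nonneg (by linarith) _)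
  have k1 := ((bd_const 1).add ((hΛ.div_rpow y).mono (sub_self y).le)).pow
    (fun T hT => add_nonneg zero_le_one (k0 T hT)) n
  refine (((L.tm_bd hL hn hq h0 h1 hN hK hK' z0 z1 c1 c2).mul k1 fun T hT =>
    pow_nonneg (add_nonneg zero_le_one (k0 T hT)) n).mono (by simp)).of_le fun T hT => ?_
  have hT0 : 0 < T := by linarith
  have hT2 : T ≤ 2 * T := by linarith
  have hc := (hN T hT).cont.norm
  rw [mo, ← intervalIntegral.integral_mul_const]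
  refine intervalIntegral.integral_mono_on hT2 ?_ ?_ fun x hx => ?_
  · exact ((hc.pow n).mul L.continuous_w.continuousOn).intervalIntegrable_of_Icc hT2
  · exact ((((hc.inf continuousOn_const).pow n).mul L.continuous_w.continuousOn).mul
      continuousOn_const).intervalIntegrable_of_Icc hT2
  · rw [mul_right_comm, ← mul_pow]
    refine mul_le_mul_of_nonneg_right (pow_le_pow_left₀ (norm_nonneg _) ?_ n) (L.w_nonneg x)
    have h2 : 0 < T ^ y := by positivity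
    have h3 := k0 T hT
    rcases le_total ‖Φ T x‖ (T ^ y) with h | h
    · rw [min_eq_left h]
      nlinarith [norm_nonneg (Φ T x)]
    · rw [min_eq_right h, mul_add, mul_div_cancel₀ _ h2.ne']
      linarith [hΛ' T hT x hx]

theorem smooth_bd (hL : L.deg ≤ 1) {B : ℝ → ℝ} {m : ℝ} (h0 : 0 ≤ m) (h1 : m ≤ 1)
    (hS : ∀ T, 1 ≤ T → Sm (G T) T (P T) (T ^ (-m))) (hp : Bd P p) (hB : Bd B c)
    (hB' : ∀ T, 1 ≤ T → ∀ y ∈ Icc T (2 * T), ‖∫ x in T..y, G T x‖ ≤ B T) (hc : p + 1 - m / 2 ≤ c) :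
    Bd (fun T => ‖∫ x in T..2 * T, G T x * L.w x‖) c := by
  have k := ((hp.mul bd_id fun T hT => by linarith).mul (bd_rpow (-m)).sqrt
    fun _ _ => Real.sqrt_nonneg _).mono (d := c) (by linarith)
  refine (hB.add k).of_forall fun ε hε => ?_
  obtain ⟨C, hC, h⟩ := L.smooth hL hε
  refine ⟨C, hC, fun T hT => h _ T _ _ _ hT ?_
    (Real.rpow_le_one_of_one_le_of_nonpos hT (by linarith)) (hS T hT) (hB' T hT)⟩
  rw [one_div, ← Real.rpow_neg_one]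
  exact Real.rpow_le_rpow_of_exponent_le hT (by linarith)

end Sel

end Pool.Agent.Lib.MP_2a1a00_nt
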