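import Pool.Agent.Lib.MP_2a1a00_nt.V.Cnt
import Pool.Agent.Lib.MP_2a1a00_nt.Ms

/-! Twisted moments from ordinary moments. -/

namespace Pool.Agent.Lib.MP_2a1a00_nt

open Complex MeasureTheory Set

theorem vtm_half {s : ℝ} (hs : 0 ≤ s) (n : ℕ) : (s ^ 2) ^ ((n : ℝ) / 2) = s ^ n := by
  rw [← Real.rpow_natCast s 2, ← Real.rpow_mul hs, ← Real.rpow_natCast s n]
  congr 1
  push_cast
  ring

theorem vtm_v {a Y : ℝ} (ha : 0 ≤ a) (hY : 0 < Y) :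
    √(a ^ 2 / (1 + a ^ 2 / Y ^ 2)) ≤ min a Y ∧ min a Y ≤ 2 * √(a ^ 2 / (1 + a ^ 2 / Y ^ 2)) ∧
      a / (1 + a ^ 2 / Y ^ 2) ^ 2 ≤ √(a ^ 2 / (1 + a ^ 2 / Y ^ 2)) := by
  have h0 : 0 ≤ a ^ 2 / Y ^ 2 := by positivity
  have hD : 0 < 1 + a ^ 2 / Y ^ 2 := by linarith
  have hE : a ^ 2 / Y ^ 2 * Y ^ 2 = a ^ 2 := by field_simp
  generalize a ^ 2 / Y ^ 2 = t at h0 hD hE
  refine ⟨le_min ?_ ?_, ?_, ?_⟩
  · refine Real.sqrt_le_iff.2 ⟨ha, ?_⟩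
    rw [div_le_iff₀ hD]
    nlinarith [mul_nonneg (sq_nonneg a) h0]
  · refine Real.sqrt_le_iff.2 ⟨hY.le, ?_⟩
    rw [div_le_iff₀ hD]
    nlinarith [sq_nonneg Y]
  · have h1 : min a Y / 2 ≤ √(a ^ 2 / (1 + t)) := by
      refine Real.le_sqrt_of_sq_le ?_
      rw [le_div_iff₀ hD]
      have h2 : min a Y ^ 2 ≤ a ^ 2 := pow_le_pow_left₀ (le_min ha hY.le) (min_le_left _ _) 2
      have h3 : min a Y ^ 2 ≤ Y ^ 2 := pow_le_pow_left₀ (le_min ha hY.le) (min_le_right _ _) 2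
      have h4 := mul_le_mul_of_nonneg_left h3 h0
      nlinarith [sq_nonneg a]
    linarith
  · refine Real.le_sqrt_of_sq_le ?_
    rw [div_pow]
    refine div_le_div_of_nonneg_left (sq_nonneg a) hD ?_
    rw [← pow_mul]
    exact le_self_pow₀ (by linarith) (by norm_num)

/- Let `u = normSq (Φ x) = ‖Φ x‖ ^ 2`, `v = u / (1 + u / Y ^ 2)`, `G = v ^ (p / 2)` (real power, `HasDerivWithinAt.rpow_const`
with `1 ≤ p / 2`), `u' = 2 re (conj Φ * Φ')`, `v' = u' / (1 + u / Y ^ 2) ^ 2`, `|v'| ≤ 2 K √v`, `G' = (p / 2) v ^ (p / 2 - 1) v'`.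
With `m = min ‖Φ x‖ Y`: `m ^ 2 / 2 ≤ v ≤ m ^ 2`. -/
theorem tm_cut {p : ℕ} (hp : 2 ≤ p) {Φ Φ' : ℝ → ℂ} {T K Y : ℝ} (h : Nice Φ Φ' T) (hY : 0 < Y)
    (hK : ∀ x ∈ Icc T (2 * T), ‖Φ' x‖ ≤ K) : ∃ G G' : ℝ → ℝ,
    Nice (fun x => (G x : ℂ)) (fun x => (G' x : ℂ)) T ∧ ∀ x ∈ Icc T (2 * T),
      min ‖Φ x‖ Y ^ p ≤ 2 ^ p * G x ∧ 0 ≤ G x ∧ G x ≤ min ‖Φ x‖ Y ^ p ∧
        |G' x| ≤ p * K * min ‖Φ x‖ Y ^ (p - 1) := by
  obtain ⟨n, rfl⟩ : ∃ n, p = n + 2 := ⟨p - 2, by omega⟩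
  have hD : ∀ x, 0 < 1 + ‖Φ x‖ ^ 2 / Y ^ 2 := fun x => by positivity
  have hv0 : ∀ x, 0 ≤ ‖Φ x‖ ^ 2 / (1 + ‖Φ x‖ ^ 2 / Y ^ 2) := fun x => by positivity
  have hexp : ((n + 2 : ℕ) : ℝ) / 2 - 1 = (n : ℝ) / 2 := by push_cast; ring
  have hu : ContinuousOn (fun x => ‖Φ x‖ ^ 2) (Icc T (2 * T)) := h.cont.norm.pow 2
  have hd : ContinuousOn (fun x => 1 + ‖Φ x‖ ^ 2 / Y ^ 2) (Icc T (2 * T)) :=
    continuousOn_const.add (hu.div_const _)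
  have hv : ContinuousOn (fun x => ‖Φ x‖ ^ 2 / (1 + ‖Φ x‖ ^ 2 / Y ^ 2)) (Icc T (2 * T)) :=
    hu.div hd fun x _ => (hD x).ne'
  have hb : ∀ x ∈ Icc T (2 * T),
      |2 * inner ℝ (Φ x) (Φ' x) / (1 + ‖Φ x‖ ^ 2 / Y ^ 2) ^ 2 * (((n + 2 : ℕ) : ℝ) / 2) *
        (‖Φ x‖ ^ 2 / (1 + ‖Φ x‖ ^ 2 / Y ^ 2)) ^ ((n : ℝ) / 2)| ≤
        ((n + 2 : ℕ) : ℝ) * K * min ‖Φ x‖ Y ^ (n + 2 - 1) := by
    intro x hx
    obtain ⟨h1, -, h3⟩ := vtm_v (norm_nonneg (Φ x)) hY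
    have hK0 : 0 ≤ K := (norm_nonneg _).trans (hK x hx)
    have h4 : |inner ℝ (Φ x) (Φ' x)| ≤ ‖Φ x‖ * K :=
      (abs_real_inner_le_norm _ _).trans (mul_le_mul_of_nonneg_left (hK x hx) (norm_nonneg _))
    have h5 := vtm_half (Real.sqrt_nonneg (‖Φ x‖ ^ 2 / (1 + ‖Φ x‖ ^ 2 / Y ^ 2))) n
    rw [Real.sq_sqrt (hv0 x)] at h5
    rw [h5, show n + 2 - 1 = n + 1 from rfl]
    have h6 := Real.sqrt_nonneg (‖Φ x‖ ^ 2 / (1 + ‖Φ x‖ ^ 2 / Y ^ 2))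
    generalize √(‖Φ x‖ ^ 2 / (1 + ‖Φ x‖ ^ 2 / Y ^ 2)) = s at h1 h3 h6
    have h7 := hD x
    generalize 1 + ‖Φ x‖ ^ 2 / Y ^ 2 = D at h3 h7
    have h8 : |inner ℝ (Φ x) (Φ' x)| / D ^ 2 ≤ K * s := by
      calc _ ≤ ‖Φ x‖ * K / D ^ 2 := by gcongr
        _ = K * (‖Φ x‖ / D ^ 2) := by ring
        _ ≤ K * s := by gcongr
    rw [abs_mul, abs_mul, abs_div, abs_mul, abs_two, abs_of_nonneg (pow_nonneg h6 n),
      abs_of_nonneg (sq_nonneg D), abs_of_nonneg (by positivity : 0 ≤ ((n + 2 : ℕ) : ℝ) / 2)]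
    calc _ = ((n + 2 : ℕ) : ℝ) * (|inner ℝ (Φ x) (Φ' x)| / D ^ 2) * s ^ n := by ring
      _ ≤ ((n + 2 : ℕ) : ℝ) * (K * s) * s ^ n := by gcongr
      _ = ((n + 2 : ℕ) : ℝ) * K * s ^ (n + 1) := by ring
      _ ≤ _ := by gcongr
  refine ⟨fun x => (‖Φ x‖ ^ 2 / (1 + ‖Φ x‖ ^ 2 / Y ^ 2)) ^ (((n + 2 : ℕ) : ℝ) / 2),
    fun x => 2 * inner ℝ (Φ x) (Φ' x) / (1 + ‖Φ x‖ ^ 2 / Y ^ 2) ^ 2 * (((n + 2 : ℕ) : ℝ) / 2) *
      (‖Φ x‖ ^ 2 / (1 + ‖Φ x‖ ^ 2 / Y ^ 2)) ^ ((n : ℝ) / 2), ⟨?_, fun x hx => ?_, ?_, ?_⟩,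
    fun x hx => ?_⟩
  · exact continuous_ofReal.comp_continuousOn (hv.rpow_const fun x _ => Or.inr (by positivity))
  · have h1 := (h.der x hx).norm_sq
    have h2 : HasDerivWithinAt (fun x => ‖Φ x‖ ^ 2 / (1 + ‖Φ x‖ ^ 2 / Y ^ 2))
        (2 * inner ℝ (Φ x) (Φ' x) / (1 + ‖Φ x‖ ^ 2 / Y ^ 2) ^ 2) (Ioi x) x := by
      refine (h1.fun_div ((h1.div_const (Y ^ 2)).const_add 1) (hD x).ne').congr_deriv ?_
      congr 1
      ring
    have h3 := h2.rpow_const (p := ((n + 2 : ℕ) : ℝ) / 2) (Or.inr (by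
      have : (0 : ℝ) ≤ n := Nat.cast_nonneg n
      push_cast
      linarith))
    rw [hexp] at h3
    exact h3.ofReal_comp
  · have m0 : ∀ {f : ℝ → ℝ}, ContinuousOn f (Icc T (2 * T)) →
        AEStronglyMeasurable f (volume.restrict (Ioc T (2 * T))) := fun hf =>
      (hf.mono Ioc_subset_Icc_self).aestronglyMeasurable measurableSet_Ioc
    have m1 : AEStronglyMeasurable (fun x => inner ℝ (Φ x) (Φ' x))
        (volume.restrict (Ioc T (2 * T))) := h.bm0.meas.inner h.bm.meas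
    have m2 := m0 (((hd.pow 2).inv₀ fun x _ => (pow_pos (hD x) 2).ne'))
    have m3 := m0 (hv.rpow_const (p := (n : ℝ) / 2) fun x _ => Or.inr (by positivity))
    refine continuous_ofReal.comp_aestronglyMeasurable ?_
    simp only [div_eq_mul_inv (2 * inner ℝ (Φ _) (Φ' _))]
    exact (((m1.const_mul 2).mul m2).mul_const _).mul m3
  · refine ⟨|((n + 2 : ℕ) : ℝ) * K| * Y ^ (n + 2 - 1), fun x hx => ?_⟩
    rw [norm_real, Real.norm_eq_abs]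
    refine (hb x hx).trans ?_
    have h1 : 0 ≤ min ‖Φ x‖ Y := le_min (norm_nonneg _) hY.le
    exact mul_le_mul (le_abs_self _) (pow_le_pow_left₀ h1 (min_le_right _ _) _) (pow_nonneg h1 _)
      (abs_nonneg _)
  · obtain ⟨h1, h2, -⟩ := vtm_v (norm_nonneg (Φ x)) hY
    have h5 := vtm_half (Real.sqrt_nonneg (‖Φ x‖ ^ 2 / (1 + ‖Φ x‖ ^ 2 / Y ^ 2))) (n + 2)
    rw [Real.sq_sqrt (hv0 x)] at h5
    refine ⟨?_, Real.rpow_nonneg (hv0 x) _, ?_, hb x hx⟩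
    · simp only [h5]
      rw [← mul_pow]
      exact pow_le_pow_left₀ (le_min (norm_nonneg _) hY.le) h2 _
    · simp only [h5]
      exact pow_le_pow_left₀ (Real.sqrt_nonneg _) h1 _

namespace Sel

variable (L : Sel)

theorem vtm_split {G M : ℝ → ℂ} {T : ℝ} (hT : 0 ≤ T) (hG : ContinuousOn G (Icc T (2 * T)))
    (hM : ContinuousOn M (Icc T (2 * T))) : ‖∫ x in T..2 * T, G x * L.L2 x‖ ≤
      ‖∫ x in T..2 * T, G x * M x‖ + ‖∫ x in T..2 * T, G x * (L.L2 x - M x)‖ := by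
  have hle : T ≤ 2 * T := by linarith
  have i1 : IntervalIntegrable (fun x => G x * M x) volume T (2 * T) :=
    ContinuousOn.intervalIntegrable (by rw [uIcc_of_le hle]; exact hG.mul hM)
  have i2 : IntervalIntegrable (fun x => G x * (L.L2 x - M x)) volume T (2 * T) :=
    ContinuousOn.intervalIntegrable (by
      rw [uIcc_of_le hle]
      exact hG.mul (L.continuous_L2.continuousOn.sub hM))
  refine le_trans (le_of_eq ?_) (norm_add_le _ _)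
  rw [← intervalIntegral.integral_add i1 i2]
  congr 2
  funext x
  ring

theorem vtm_deg (hL : L.deg ≤ 1) {T : ℝ} (hT : 1 ≤ T) :
    T ^ (L.deg / 2) ≤ √T ∧ ∀ c : ℝ, 0 ≤ c → √((T + T ^ L.deg) * c) ≤ 2 * √T * √c := by
  have hT0 : 0 < T := by linarith
  refine ⟨?_, fun c hc => ?_⟩
  · rw [Real.sqrt_eq_rpow]
    exact Real.rpow_le_rpow_of_exponent_le hT (by linarith)
  · have h1 : T ^ L.deg ≤ T := by simpa using Real.rpow_le_rpow_of_exponent_le hT hL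
    refine Real.sqrt_le_iff.2 ⟨by positivity, ?_⟩
    rw [mul_pow, mul_pow, Real.sq_sqrt hc, Real.sq_sqrt hT0.le]
    exact mul_le_mul_of_nonneg_right (by linarith) hc

/- `ms_dy`. -/
theorem mass (hL : L.deg ≤ 1) {ε : ℝ} (hε : 0 < ε) : ∃ C : ℝ, 1 ≤ C ∧ ∀ T : ℝ, 1 ≤ T →
    ∫ x in T..2 * T, L.w x ≤ C * T ^ ε * T := by
  obtain ⟨C, hC, h⟩ := L.ms_dy hε
  refine ⟨C + 1, by linarith, fun T hT => ?_⟩
  have hT0 : 0 < T := by linarith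
  have h1 := h T hT
  simp only [L.L2_eq] at h1
  rw [intervalIntegral.integral_ofReal, norm_real, Real.norm_eq_abs,
    max_eq_left (by linarith : L.deg / 2 ≤ 1), Real.rpow_add hT0, Real.rpow_one] at h1
  have h2 : 0 ≤ T ^ ε * T := by positivity
  nlinarith [le_abs_self (∫ x in T..2 * T, L.w x)]

/- `tw` for `G` from `tm_cut`, `lam = 1 / Y`, `B₀ = Z₀` (as `0 ≤ G ≤ ‖Φ‖ ^ p`), `B₁ = Y ^ p`,
`B₂ = √Z * Y ^ (p - q / 2)`, `B₃ = p K √Z * Y ^ (p - 1 - q / 2)` (from `m ^ r ≤ Y ^ (r - q) * ‖Φ x‖ ^ q` for `q ≤ r`);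
`T ^ (deg / 2) ≤ √T`, `T + T ^ deg ≤ 2 T`. -/
theorem tm (hL : L.deg ≤ 1) {p q : ℕ} (hp : 2 ≤ p) (hq : q + 2 ≤ 2 * p) {ε : ℝ} (hε : 0 < ε) :
    ∃ C : ℝ, 0 < C ∧ ∀ (Φ Φ' : ℝ → ℂ) (T K Y Z₀ Z : ℝ), Nice Φ Φ' T → 1 ≤ Y → Y ≤ T →
    (∀ x ∈ Icc T (2 * T), ‖Φ' x‖ ≤ K) → mu0 p Φ T ≤ Z₀ → mu0 q Φ T ≤ Z →
    ∫ x in T..2 * T, min ‖Φ x‖ Y ^ p * L.w x ≤ C * T ^ ε *
      (Z₀ + √T * Y ^ p + (1 + K) * √(T * Z) * Y ^ ((p : ℝ) - (q + 1) / 2)) := by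
  obtain ⟨C, hC, h⟩ := L.tw hε
  have hp0 : (2 : ℝ) ≤ p := by exact_mod_cast hp
  refine ⟨2 ^ p * (C * (2 * p)), by positivity, fun Φ Φ' T K Y Z₀ Z hΦ hY hYT hK hZ₀ hZ => ?_⟩
  have hT : 1 ≤ T := hY.trans hYT
  have hT0 : 0 < T := by linarith
  have hY0 : 0 < Y := by linarith
  have hle : T ≤ 2 * T := by linarith
  have hK0 : 0 ≤ K := (norm_nonneg _).trans (hK T ⟨le_rfl, hle⟩)
  have hmu : ∀ k, 0 ≤ mu0 k Φ T := fun k =>
    intervalIntegral.integral_nonneg hle fun x _ => by positivity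
  have hZ0 : 0 ≤ Z := (hmu q).trans hZ
  have hZ₀0 : 0 ≤ Z₀ := (hmu p).trans hZ₀
  obtain ⟨M, hM, hA, hB⟩ := h T hT
  obtain ⟨G, G', hG, hb⟩ := tm_cut hp hΦ hY0 hK
  obtain ⟨r, hr⟩ : ∃ r, 2 * p = q + 2 + r := ⟨2 * p - (q + 2), by omega⟩
  obtain ⟨y, hy⟩ : ∃ y, y = √Y := ⟨_, rfl⟩
  have hy0 : 0 < y := hy ▸ Real.sqrt_pos.2 hY0
  have hy2 : y ^ 2 = Y := hy ▸ Real.sq_sqrt hY0.le
  have hm0 : ∀ x, 0 ≤ min ‖Φ x‖ Y := fun x => le_min (norm_nonneg _) hY0.le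
  have hGc : ContinuousOn G (Icc T (2 * T)) := continuous_re.comp_continuousOn hG.cont
  have iΦ : ∀ k : ℕ, IntervalIntegrable (fun x => ‖Φ x‖ ^ k) volume T (2 * T) := fun k =>
    ContinuousOn.intervalIntegrable (by rw [uIcc_of_le hle]; exact hΦ.cont.norm.pow k)
  have hnm : ∀ (f : ℝ → ℂ) (c : ℝ) (k : ℕ), Bm f T → 0 ≤ c →
      (∀ x ∈ Icc T (2 * T), ‖f x‖ ^ 2 ≤ c ^ 2 * min ‖Φ x‖ Y ^ (k + q)) →
      nm f T ≤ c * √Z * y ^ k := by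
    intro f c k hf hc hfx
    refine nm_le_of_sq (by positivity) ?_
    have h1 : Sq f T ≤ ∫ x in T..2 * T, c ^ 2 * Y ^ k * ‖Φ x‖ ^ q := by
      refine intervalIntegral.integral_mono_on hle (hf.int_sq hT0.le) ((iΦ q).const_mul _)
        fun x hx => (hfx x hx).trans ?_
      rw [pow_add, mul_assoc]
      refine mul_le_mul_of_nonneg_left ?_ (sq_nonneg c)
      exact mul_le_mul (pow_le_pow_left₀ (hm0 x) (min_le_right _ _) _)
        (pow_le_pow_left₀ (hm0 x) (min_le_left _ _) _) (pow_nonneg (hm0 x) _) (by positivity)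
    rw [intervalIntegral.integral_const_mul] at h1
    refine h1.trans ?_
    rw [mul_pow, mul_pow, Real.sq_sqrt hZ0, ← pow_mul, mul_comm k 2, pow_mul, hy2]
    calc c ^ 2 * Y ^ k * mu0 q Φ T ≤ c ^ 2 * Y ^ k * Z := by gcongr
      _ = _ := by ring
  have h0 := hA (fun x => (G x : ℂ)) Z₀ hG.cont (fun t ht => by
    have hsub : Icc T t ⊆ Icc T (2 * T) := Icc_subset_Icc_right ht.2
    have iG : IntervalIntegrable G volume T (2 * T) :=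
      ContinuousOn.intervalIntegrable (by rw [uIcc_of_le hle]; exact hGc)
    rw [intervalIntegral.integral_ofReal, norm_real, Real.norm_eq_abs,
      abs_of_nonneg (intervalIntegral.integral_nonneg ht.1 fun x hx => (hb x (hsub hx)).2.1)]
    refine le_trans ?_ hZ₀
    refine le_trans (intervalIntegral.integral_mono_interval le_rfl ht.1 ht.2 ?_ iG) ?_
    · exact (ae_restrict_iff' measurableSet_Ioc).2 (Filter.Eventually.of_forall fun x hx =>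
        (hb x (Ioc_subset_Icc_self hx)).2.1)
    · exact intervalIntegral.integral_mono_on hle iG (iΦ p) fun x hx => (hb x hx).2.2.1.trans
        (pow_le_pow_left₀ (hm0 x) (min_le_left _ _) _))
  have h1 := hB (fun x => (G x : ℂ)) (fun x => (G' x : ℂ)) (1 / Y) (Y ^ p)
    (1 * √Z * y ^ (r + 2)) (p * K * √Z * y ^ r) hG (one_div_le_one_div_of_le hY0 hYT)
    (by rw [div_le_one hY0]; exact hY)
    (fun x hx => by
      rw [norm_real, Real.norm_eq_abs, abs_of_nonneg (hb x hx).2.1]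
      exact (hb x hx).2.2.1.trans (pow_le_pow_left₀ (hm0 x) (min_le_right _ _) _))
    (hnm _ 1 (r + 2) hG.bm0 zero_le_one fun x hx => by
      rw [norm_real, Real.norm_eq_abs, abs_of_nonneg (hb x hx).2.1, one_pow, one_mul,
        show r + 2 + q = p * 2 by omega, pow_mul]
      exact pow_le_pow_left₀ (hb x hx).2.1 (hb x hx).2.2.1 2)
    (hnm _ (p * K) r hG.bm (by positivity) fun x hx => by
      rw [norm_real, Real.norm_eq_abs, show r + q = (p - 1) * 2 by omega, pow_mul, ← mul_pow]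
      exact pow_le_pow_left₀ (abs_nonneg _) (hb x hx).2.2.2 2)
  have h2 := L.vtm_split hT0.le hG.cont hM
  obtain ⟨d1, d2⟩ := L.vtm_deg hL hT
  have d3 := d2 (1 / Y) (by positivity)
  have d4 := d2 Y hY0.le
  rw [Real.sqrt_div zero_le_one, Real.sqrt_one, ← hy] at d3
  rw [← hy] at d4
  rw [div_div_eq_mul_div, div_one] at h1
  have e1 : Y ^ ((p : ℝ) - (q + 1) / 2) = y ^ (r + 1) := by
    rw [← vtm_half hy0.le, hy2]
    congr 1
    have : (2 : ℝ) * p = q + 2 + r := by exact_mod_cast hr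
    push_cast
    linarith
  have h3 : ∫ x in T..2 * T, min ‖Φ x‖ Y ^ p * L.w x ≤
      2 ^ p * ‖∫ x in T..2 * T, (G x : ℂ) * L.L2 x‖ := by
    simp only [L.L2_eq, ← ofReal_mul]
    rw [intervalIntegral.integral_ofReal, norm_real, Real.norm_eq_abs]
    refine le_trans ?_ (mul_le_mul_of_nonneg_left (le_abs_self _) (by positivity))
    rw [← intervalIntegral.integral_const_mul]
    refine intervalIntegral.integral_mono_on hle (ContinuousOn.intervalIntegrable ?_)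
      (ContinuousOn.intervalIntegrable ?_) fun x hx => ?_
    · rw [uIcc_of_le hle]
      exact (((continuous_id.min continuous_const).comp_continuousOn hΦ.cont.norm).pow p).mul L.continuous_w.continuousOn
    · rw [uIcc_of_le hle]
      exact continuousOn_const.mul (hGc.mul L.continuous_w.continuousOn)
    · rw [← mul_assoc]
      exact mul_le_mul_of_nonneg_right (hb x hx).1 (L.w_nonneg x)
  refine h3.trans ?_
  rw [e1, Real.sqrt_mul hT0.le, mul_assoc, mul_assoc]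
  refine mul_le_mul_of_nonneg_left (h2.trans ((add_le_add h0 h1).trans ?_)) (by positivity)
  have hp1 : 0 < C * T ^ ε := by positivity
  have h4 : T ^ (L.deg / 2) * Y ^ p + √((T + T ^ L.deg) * (1 / Y)) * (1 * √Z * y ^ (r + 2)) +
      √((T + T ^ L.deg) * Y) * (p * K * √Z * y ^ r) ≤
      √T * Y ^ p + (2 + 2 * p * K) * (√T * √Z * y ^ (r + 1)) := by
    calc _ ≤ √T * Y ^ p + 2 * √T * (1 / y) * (1 * √Z * y ^ (r + 2)) +
          2 * √T * y * (p * K * √Z * y ^ r) := by gcongr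
      _ = _ := by field_simp; ring
  have h5 : 0 ≤ √T * √Z * y ^ (r + 1) := by positivity
  have h6 : 0 ≤ √T * Y ^ p := by positivity
  calc _ ≤ C * T ^ ε * Z₀ + C * T ^ ε *
        (√T * Y ^ p + (2 + 2 * p * K) * (√T * √Z * y ^ (r + 1))) := by gcongr
    _ = C * T ^ ε * (Z₀ + √T * Y ^ p + (2 + 2 * p * K) * (√T * √Z * y ^ (r + 1))) := by ring
    _ ≤ C * T ^ ε * (2 * p * Z₀ + 2 * p * (√T * Y ^ p) +
        (2 * p + 2 * p * K) * (√T * √Z * y ^ (r + 1))) := by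
        refine mul_le_mul_of_nonneg_left (add_le_add (add_le_add ?_ ?_) ?_) hp1.le
        · exact le_mul_of_one_le_left hZ₀0 (by linarith)
        · exact le_mul_of_one_le_left h6 (by linarith)
        · exact mul_le_mul_of_nonneg_right (by linarith) h5
    _ = _ := by ring

/- `tw` with `lam = μ`, `nm_sup`. -/
theorem smooth (hL : L.deg ≤ 1) {ε : ℝ} (hε : 0 < ε) : ∃ C : ℝ, 0 < C ∧
    ∀ (G : ℝ → ℂ) (T P μ B₀ : ℝ), 1 ≤ T → 1 / T ≤ μ → μ ≤ 1 → Sm G T P μ →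
    (∀ y ∈ Icc T (2 * T), ‖∫ x in T..y, G x‖ ≤ B₀) →
    ‖∫ x in T..2 * T, G x * L.w x‖ ≤ C * T ^ ε * (B₀ + P * T * √μ) := by
  obtain ⟨C, hC, h⟩ := L.tw hε
  refine ⟨5 * C, by positivity, fun G T P μ B₀ hT h1 h2 ⟨G', hG, hb⟩ h0 => ?_⟩
  have hT0 : 0 < T := by linarith
  have hle : T ≤ 2 * T := by linarith
  have hμ : 0 < μ := lt_of_lt_of_le (by positivity) h1
  have hP : 0 ≤ P := (norm_nonneg _).trans (hb T ⟨le_rfl, hle⟩).1
  have hB₀ : 0 ≤ B₀ := (norm_nonneg _).trans (h0 T ⟨le_rfl, hle⟩)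
  obtain ⟨M, hM, hA, hB⟩ := h T hT
  have h3 := hA G B₀ hG.cont h0
  have h4 := hB G G' μ P (P * √T) (P * μ * √T) hG h1 h2 (fun x hx => (hb x hx).1)
    (nm_sup hT0.le hG.bm0 fun x hx => (hb x hx).1) (nm_sup hT0.le hG.bm fun x hx => (hb x hx).2)
  have h5 := L.vtm_split hT0.le hG.cont hM
  obtain ⟨d1, d2⟩ := L.vtm_deg hL hT
  have d3 := d2 μ hμ.le
  have d4 := d2 μ⁻¹ (by positivity)
  rw [Real.sqrt_inv, ← div_eq_mul_inv] at d4
  obtain ⟨t, ht⟩ : ∃ t, t = √T := ⟨_, rfl⟩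
  obtain ⟨m, hm⟩ : ∃ m, m = √μ := ⟨_, rfl⟩
  have ht0 : 0 < t := ht ▸ Real.sqrt_pos.2 hT0
  have hm0 : 0 < m := hm ▸ Real.sqrt_pos.2 hμ
  have ht2 : T = t ^ 2 := ht ▸ (Real.sq_sqrt hT0.le).symm
  have hm2 : μ = m ^ 2 := hm ▸ (Real.sq_sqrt hμ.le).symm
  have h6 : 1 ≤ t * m := by
    rw [div_le_iff₀ hT0, ht2, hm2] at h1
    by_contra hc
    nlinarith [mul_pos ht0 hm0]
  rw [← ht] at d1 d3 d4 h4
  rw [← hm] at d3 d4 ⊢
  have h7 : T ^ (L.deg / 2) * P + √((T + T ^ L.deg) * μ) * (P * t) +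
      √((T + T ^ L.deg) / μ) * (P * μ * t) ≤ 5 * (P * T * m) := by
    calc _ ≤ t * P + 2 * t * m * (P * t) + 2 * t * m⁻¹ * (P * μ * t) := by gcongr
      _ = t * P + 4 * (P * T * m) := by
          conv_lhs => rw [hm2]
          conv_rhs => rw [ht2]
          field_simp
          ring
      _ ≤ _ := by
          have : t * P * 1 ≤ t * P * (t * m) := by gcongr
          have h8 : P * T * m = t * P * (t * m) := by rw [ht2]; ring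
          linarith
  have hp1 : 0 < C * T ^ ε := by positivity
  calc _ ≤ C * T ^ ε * B₀ + C * T ^ ε * (5 * (P * T * m)) :=
        h5.trans (add_le_add h3 (h4.trans (mul_le_mul_of_nonneg_left h7 hp1.le)))
    _ ≤ _ := by nlinarith [mul_nonneg hp1.le hB₀]

end Sel

end Pool.Agent.Lib.MP_2a1a00_nt
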