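import Pool.Agent.Lib.MP_2a1a00_nt.V.Vd

/-! Exponential sums with periodic coefficients. -/

namespace Pool.Agent.Lib.MP_2a1a00_nt

open Complex MeasureTheory Set

lemma vwa_prod {A X h : ℝ} (hA : 0 < A) (hX : 0 < X) (hh : 0 < h) :
    √(X * h / A) * √(A ^ 3 / (X * h)) = A := by
  rw [← Real.sqrt_mul (by positivity), show X * h / A * (A ^ 3 / (X * h)) = A ^ 2 by field_simp,
    Real.sqrt_sq hA.le]

lemma vwa_D {A n h : ℝ} (hA : 0 < A) (h1 : A ≤ n) (h2 : n ≤ 3 * A) (hh : 0 < h) (hh2 : h ≤ 2 * A) :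
    h / (225 * A ^ 3) ≤ 1 / n ^ 2 - 1 / (n + h) ^ 2 ∧ 1 / n ^ 2 - 1 / (n + h) ^ 2 ≤ 8 * h / A ^ 3 := by
  have hn : 0 < n := lt_of_lt_of_le hA h1
  have e : 1 / n ^ 2 - 1 / (n + h) ^ 2 = h * (2 * n + h) / (n ^ 2 * (n + h) ^ 2) := by
    field_simp
    ring
  have u1 : n ^ 2 * (n + h) ^ 2 ≤ (3 * A) ^ 2 * (5 * A) ^ 2 := by
    gcongr
    linarith
  have u2 : A ^ 2 * A ^ 2 ≤ n ^ 2 * (n + h) ^ 2 := by
    gcongr
    linarith
  have hA3 : 0 < A ^ 3 := by positivity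
  rw [e]
  constructor
  · rw [div_le_div_iff₀ (by positivity) (by positivity)]
    have : n ^ 2 * (n + h) ^ 2 ≤ (2 * n + h) * (225 * A ^ 3) := by nlinarith
    nlinarith
  · rw [div_le_div_iff₀ (by positivity) (by positivity)]
    have : (2 * n + h) * A ^ 3 ≤ 8 * (n ^ 2 * (n + h) ^ 2) := by nlinarith
    nlinarith

/- `vdc` for `φ t = x * (log (q t + r + h) - log (q t + r))`, `φ'' t = q ^ 2 * x * (1 / n ^ 2 - 1 / (n + h) ^ 2)` with
`n = q t + r ∈ [A, 3 A]`, and `h (2 n + h) / (n ^ 2 (n + h) ^ 2) ∈ [2 / 225, 8] * h / A ^ 3`; so `lam = q ^ 2 X h / (200 A ^ 3)`,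
ratio `13000`, length at most `2 A / q`. -/
theorem wa_class {q : ℕ} (hq : 0 < q) : ∃ C : ℝ, 0 < C ∧ ∀ (A r a b h : ℕ) (X x : ℝ), 1 ≤ A →
    A ≤ q * a + r → q * b + r ≤ 3 * A → 1 ≤ h → h ≤ 2 * A → 0 < X → X ≤ |x| → |x| ≤ 8 * X →
    ‖∑ k ∈ Finset.Ico a b, exp (I * (x * (Real.log (q * k + r + h) - Real.log (q * k + r)) : ℝ))‖ ≤
      C * (√(X * h / A) + √((A : ℝ) ^ 3 / (X * h))) := by
  obtain ⟨C, hC, H⟩ := vdc
  refine ⟨14400 * C, by positivity, fun A r a b h X x hA ha hb hh hh2 hX hx1 hx2 => ?_⟩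
  rcases lt_or_ge b a with hab | hab
  · rw [Finset.Ico_eq_empty_of_le hab.le, Finset.sum_empty, norm_zero]
    positivity
  have hA' : (0 : ℝ) < A := by exact_mod_cast hA
  have hh' : (0 : ℝ) < h := by exact_mod_cast hh
  have hq' : (1 : ℝ) ≤ q := by exact_mod_cast hq
  have hq0 : (0 : ℝ) < q := by linarith
  have ha' : (A : ℝ) ≤ q * a + r := by exact_mod_cast ha
  have hb' : (q : ℝ) * b + r ≤ 3 * A := by exact_mod_cast hb
  have hh2' : (h : ℝ) ≤ 2 * A := by exact_mod_cast hh2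
  have hp := vwa_prod hA' hX hh'
  obtain ⟨u, hu⟩ : ∃ u, u = √(X * h / A) := ⟨_, rfl⟩
  obtain ⟨v, hv⟩ : ∃ v, v = √((A : ℝ) ^ 3 / (X * h)) := ⟨_, rfl⟩
  have hu0 : 0 < u := by rw [hu]; positivity
  have hv0 : 0 < v := by rw [hv]; positivity
  have hu2 : u ^ 2 = X * h / A := by rw [hu, Real.sq_sqrt (by positivity)]
  rw [← hu, ← hv] at hp ⊢
  have hs0 : 0 < q * u / (15 * A) := by positivity
  have hlam : (q * u / (15 * A)) ^ 2 = q ^ 2 * X * (h / (225 * A ^ 3)) := by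
    rw [div_pow, mul_pow, hu2]
    field_simp
    norm_num
  have hn : ∀ t ∈ Icc (a : ℝ) b, (A : ℝ) ≤ q * t + r ∧ q * t + r ≤ 3 * A := fun t ht =>
    ⟨by nlinarith [ht.1], by nlinarith [ht.2]⟩
  have hl : ∀ t c : ℝ, HasDerivAt (fun t : ℝ => q * t + c) q t := fun t c => by
    simpa using ((hasDerivAt_id t).const_mul (q : ℝ)).add_const c
  have key := H (fun t => x * (Real.log (q * t + r + h) - Real.log (q * t + r)))
    (fun t => x * (q / (q * t + r + h) - q / (q * t + r)))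
    (fun t => x * (q ^ 2 * (1 / (q * t + r) ^ 2 - 1 / (q * t + r + h) ^ 2))) a b
    ((q * u / (15 * A)) ^ 2) 14400 hab (by positivity) (by norm_num) ?_ ?_ ?_
  · rw [Real.sqrt_sq hs0.le] at key
    refine key.trans ?_
    have e1 : ((b : ℝ) - a) * (q * u / (15 * A)) ≤ u := by
      rw [← mul_div_assoc, div_le_iff₀ (by positivity)]
      nlinarith
    have e2 : 1 / (q * u / (15 * A)) ≤ 15 * v := by
      rw [div_le_iff₀ hs0, ← mul_div_assoc, le_div_iff₀ (by positivity)]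
      nlinarith
    have e3 : 14400 * ((b : ℝ) - a) * (q * u / (15 * A)) + 1 / (q * u / (15 * A)) ≤
        14400 * (u + v) := by nlinarith
    calc _ ≤ C * (14400 * (u + v)) := by gcongr
      _ = _ := by ring
  · intro t ht
    obtain ⟨h1, -⟩ := hn t ht
    have d1 := ((hl t r).add_const (h : ℝ)).log (by linarith : (0 : ℝ) < q * t + r + h).ne'
    have d2 := (hl t r).log (by linarith : (0 : ℝ) < q * t + r).ne'
    exact (d1.sub d2).const_mul x
  · intro t ht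
    obtain ⟨h1, -⟩ := hn t ht
    have p1 : (0 : ℝ) < q * t + r + h := by linarith
    have p2 : (0 : ℝ) < q * t + r := by linarith
    have d1 := (hasDerivAt_const t (q : ℝ)).div ((hl t r).add_const (h : ℝ)) p1.ne'
    have d2 := (hasDerivAt_const t (q : ℝ)).div (hl t r) p2.ne'
    refine ((d1.sub d2).const_mul x).congr_deriv ?_
    field_simp
    ring
  · have hb2 : ∀ y : ℝ, X ≤ y → y ≤ 8 * X → ∀ t ∈ Icc (a : ℝ) b, (q * u / (15 * A)) ^ 2 ≤
        y * (q ^ 2 * (1 / (q * t + r) ^ 2 - 1 / (q * t + r + h) ^ 2)) ∧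
        y * (q ^ 2 * (1 / (q * t + r) ^ 2 - 1 / (q * t + r + h) ^ 2)) ≤
          14400 * (q * u / (15 * A)) ^ 2 := by
      intro y hy1 hy2 t ht
      obtain ⟨h1, h2⟩ := hn t ht
      obtain ⟨d1, d2⟩ := vwa_D hA' h1 h2 hh' hh2'
      have d0 : (0 : ℝ) < h / (225 * A ^ 3) := by positivity
      rw [hlam]
      constructor
      · calc _ = X * (q ^ 2 * (h / (225 * A ^ 3))) := by ring
          _ ≤ _ := by gcongr; linarith
      · have d3 := d0.le.trans d1
        calc _ ≤ 8 * X * (q ^ 2 * (8 * h / A ^ 3)) := by gcongr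
          _ = _ := by field_simp; norm_num
    rcases le_total 0 x with h0 | h0
    · rw [abs_of_nonneg h0] at hx1 hx2
      exact Or.inl (hb2 x hx1 hx2)
    · rw [abs_of_nonpos h0] at hx1 hx2
      refine Or.inr fun t ht => ?_
      rw [← neg_mul]
      exact hb2 (-x) hx1 hx2 t ht

lemma vwa_lt {q r : ℕ} (hr : r < q) (k m : ℕ) : k < (m + q - 1 - r) / q ↔ q * k + r < m := by
  rw [Nat.lt_iff_add_one_le, Nat.le_div_iff_mul_le (by omega), add_mul, one_mul, mul_comm k q]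
  omega

lemma vwa_split {q : ℕ} (hq : 0 < q) (f : ℕ → ℂ) (a b : ℕ) :
    ∑ n ∈ Finset.Ico a b, f n = ∑ r ∈ Finset.range q,
      ∑ k ∈ Finset.Ico ((a + q - 1 - r) / q) ((b + q - 1 - r) / q), f (q * k + r) := by
  rw [← Finset.sum_fiberwise_of_maps_to (s := Finset.Ico a b) (t := Finset.range q)
    (g := fun n => n % q) (fun n _ => Finset.mem_range.2 (Nat.mod_lt _ hq))]
  refine Finset.sum_congr rfl fun r hr => ?_
  have hr' := Finset.mem_range.1 hr
  symm
  refine Finset.sum_nbij' (fun k => q * k + r) (fun n => n / q) ?_ ?_ ?_ ?_ ?_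
  · intro k hk
    rw [Finset.mem_Ico, ← not_lt, vwa_lt hr', vwa_lt hr', not_lt] at hk
    rw [Finset.mem_filter, Finset.mem_Ico]
    exact ⟨hk, by rw [Nat.mul_add_mod, Nat.mod_eq_of_lt hr']⟩
  · intro n hn
    rw [Finset.mem_filter, Finset.mem_Ico] at hn
    rw [Finset.mem_Ico, ← not_lt, vwa_lt hr', vwa_lt hr', not_lt, ← hn.2, Nat.div_add_mod]
    exact hn.1
  · intro k _
    rw [Nat.mul_add_div hq, Nat.div_eq_of_lt hr', add_zero]
  · intro n hn
    rw [Finset.mem_filter] at hn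
    rw [← hn.2, Nat.div_add_mod]
  · intro k _
    rfl

/- The product of the two square roots is `A ≥ 1`, so their sum is at least one; for `A < max q n₀` the trivial bound
is enough.  Otherwise sort `n` by `r = n % q` (`Finset.sum_fiberwise_of_maps_to`): the `n ∈ Ico a b` with `n % q = r` are
the `q k + r` for `k` in an interval `Ico a' b'` with `A ≤ q a' + r`, `q b' + r < b + q ≤ 3 A`, and `G` is constant on them. -/
theorem wpa {q : ℕ} (hq : 0 < q) (n₀ : ℕ) : ∃ C : ℝ, 0 < C ∧ ∀ (G : ℕ → ℂ) (A a b h : ℕ) (X x : ℝ),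
    (∀ n, ‖G n‖ ≤ 1) → (∀ n, n₀ ≤ n → G (n + q) = G n) → 1 ≤ A → A ≤ a → b ≤ 2 * A → 1 ≤ h →
    h ≤ 2 * A → 0 < X → X ≤ |x| → |x| ≤ 8 * X →
    ‖∑ n ∈ Finset.Ico a b, G n * exp (I * (x * (Real.log (n + h) - Real.log n) : ℝ))‖ ≤
      C * (√(X * h / A) + √((A : ℝ) ^ 3 / (X * h))) := by
  obtain ⟨C, hC, H⟩ := wa_class hq
  have hq' : (0 : ℝ) < q := by exact_mod_cast hq
  refine ⟨q * C + q + n₀, by positivity, fun G A a b h X x hG hper hA ha hb hh hh2 hX hx1 hx2 => ?_⟩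
  have hA' : (1 : ℝ) ≤ A := by exact_mod_cast hA
  have hh' : (0 : ℝ) < h := by exact_mod_cast hh
  have hp := vwa_prod (by linarith : (0 : ℝ) < A) hX hh'
  have H' := fun r a b h1 h2 => H A r a b h X x hA h1 h2 hh hh2 hX hx1 hx2
  obtain ⟨u, hu⟩ : ∃ u, u = √(X * h / A) := ⟨_, rfl⟩
  obtain ⟨v, hv⟩ : ∃ v, v = √((A : ℝ) ^ 3 / (X * h)) := ⟨_, rfl⟩
  have hu0 : 0 ≤ u := by rw [hu]; positivity
  have hv0 : 0 ≤ v := by rw [hv]; positivity
  rw [← hu, ← hv] at hp H' ⊢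
  have huv : 1 ≤ u + v := by
    by_contra hc
    push Not at hc
    nlinarith
  have hn0 : (0 : ℝ) ≤ n₀ := Nat.cast_nonneg _
  by_cases hsm : A < q ∨ A < n₀
  · have h1 : ‖∑ n ∈ Finset.Ico a b, G n * exp (I * (x * (Real.log (n + h) - Real.log n) : ℝ))‖ ≤
        ∑ n ∈ Finset.Ico a b, (1 : ℝ) := by
      refine norm_sum_le_of_le _ fun n _ => ?_
      rw [norm_mul, Complex.norm_exp_I_mul_ofReal, mul_one]
      exact hG n
    rw [Finset.sum_const, Nat.card_Ico, nsmul_eq_mul, mul_one] at h1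
    have h2 : ((b - a : ℕ) : ℝ) ≤ q + n₀ := by exact_mod_cast (by omega : b - a ≤ q + n₀)
    refine h1.trans (h2.trans ?_)
    have h3 : 0 < q * C := by positivity
    nlinarith
  push Not at hsm
  rw [vwa_split hq]
  have h1 : ∀ r ∈ Finset.range q, ‖∑ k ∈ Finset.Ico ((a + q - 1 - r) / q) ((b + q - 1 - r) / q),
      G (q * k + r) * exp (I * (x * (Real.log ((q * k + r : ℕ) + h) -
        Real.log (q * k + r : ℕ)) : ℝ))‖ ≤ C * (u + v) := by
    intro r hr
    have hr' := Finset.mem_range.1 hr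
    obtain ⟨a', ha'⟩ : ∃ a', a' = (a + q - 1 - r) / q := ⟨_, rfl⟩
    obtain ⟨b', hb'⟩ : ∃ b', b' = (b + q - 1 - r) / q := ⟨_, rfl⟩
    have e1 : a ≤ q * a' + r := by
      rw [← not_lt, ← vwa_lt hr', ← ha']
      exact lt_irrefl _
    have e2 : q * b' + r ≤ 3 * A := by
      rcases b' with _ | c
      · omega
      · have := (vwa_lt hr' c b).1 (by omega)
        rw [mul_add]
        omega
    have e3 : ∀ k, a' ≤ k → G (q * k + r) = G (q * a' + r) := by
      intro k hk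
      induction k, hk using Nat.le_induction with
      | base => rfl
      | succ k hk ih =>
        have := Nat.mul_le_mul_left q hk
        rw [← ih, ← hper (q * k + r) (by omega)]
        congr 1
        ring
    rw [← ha', ← hb', Finset.sum_congr rfl fun k hk => by rw [e3 k (Finset.mem_Ico.1 hk).1],
      ← Finset.mul_sum, norm_mul]
    have e4 := H' r a' b' (by omega) e2
    push_cast at e4 ⊢
    calc _ ≤ 1 * (C * (u + v)) := mul_le_mul (hG _) e4 (norm_nonneg _) zero_le_one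
      _ = _ := one_mul _
  refine (norm_sum_le_of_le _ h1).trans ?_
  rw [Finset.sum_const, Finset.card_range, nsmul_eq_mul]
  nlinarith

end Pool.Agent.Lib.MP_2a1a00_nt
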