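import Pool.Agent.Lib.MP_2a1a00_nt.V.Wa

/-! Triangular averages of one block. -/

namespace Pool.Agent.Lib.MP_2a1a00_nt

open Complex MeasureTheory Set

theorem vwb_split {E : Type} [NormedAddCommGroup E] [NormedSpace ℝ E] {s : ℝ} (hs : 0 < s)
    {F : ℝ → ℝ → E} (hF : Continuous fun p : ℝ × ℝ => F p.1 p.2) :
    ∫ v in -s..s, F |v| v = (∫ v in -s..0, F (-v) v) + ∫ v in (0 : ℝ)..s, F v v := by
  have hc : Continuous fun v => F |v| v := hF.comp (continuous_abs.prodMk continuous_id)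
  rw [← intervalIntegral.integral_add_adjacent_intervals (b := 0) (hc.intervalIntegrable _ _)
    (hc.intervalIntegrable _ _)]
  congr 1
  · refine intervalIntegral.integral_congr fun v hv => ?_
    rw [uIcc_of_le (by linarith)] at hv
    simp only [abs_of_nonpos hv.2]
  · refine intervalIntegral.integral_congr fun v hv => ?_
    rw [uIcc_of_le hs.le] at hv
    simp only [abs_of_nonneg hv.1]

theorem tri_mass {s : ℝ} (hs : 0 < s) : ∫ v in -s..s, (1 - |v| / s) = s := by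
  rw [vwb_split hs (F := fun a _ => 1 - a / s) (by fun_prop),
    intervalIntegral.integral_sub (by simp) (Continuous.intervalIntegrable (by fun_prop) _ _),
    intervalIntegral.integral_sub (by simp) (Continuous.intervalIntegrable (by fun_prop) _ _)]
  simp only [intervalIntegral.integral_div, integral_id, intervalIntegral.integral_const,
    smul_eq_mul]
  rw [intervalIntegral.integral_neg, integral_id]
  field_simp
  ring

theorem tri_le {s x Z : ℝ} (hs : 0 < s) {D : ℝ → ℂ} (h : ∀ v ∈ Icc (-s) s, ‖D (x + v)‖ ≤ Z) :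
    ‖tri s D x‖ ≤ s * Z := by
  refine (intervalIntegral.norm_integral_le_of_norm_le (g := fun v => (1 - |v| / s) * Z)
    (by linarith) (ae_of_all _ fun v hv => ?_)
    (Continuous.intervalIntegrable (by fun_prop) _ _)).trans
    (by rw [intervalIntegral.integral_mul_const, tri_mass hs])
  have h1 : 0 ≤ 1 - |v| / s := sub_nonneg.2 ((div_le_one hs).2 (abs_le.2 ⟨hv.1.le, hv.2⟩))
  rw [norm_mul, norm_real, Real.norm_of_nonneg h1]
  exact mul_le_mul_of_nonneg_left (h v ⟨hv.1.le, hv.2⟩) h1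

theorem tri_sum {ι : Type} (S : Finset ι) (c : ι → ℂ) (D : ι → ℝ → ℂ) (hD : ∀ k ∈ S, Continuous (D k))
    (s x : ℝ) : tri s (fun t => ∑ k ∈ S, c k * D k t) x = ∑ k ∈ S, c k * tri s (D k) x := by
  simp only [tri, Finset.mul_sum, ← intervalIntegral.integral_const_mul]
  rw [← intervalIntegral.integral_finsetSum fun k hk => by
    have := hD k hk
    exact Continuous.intervalIntegrable (by fun_prop) _ _]
  refine intervalIntegral.integral_congr fun v _ => Finset.sum_congr rfl fun k _ => ?_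
  ring

theorem vwb_prim {s θ : ℝ} (hs : s ≠ 0) (hθ : θ ≠ 0) (x a b : ℝ) :
    ∫ v in a..b, ((1 - v / s : ℝ) : ℂ) * exp (I * (θ * (x + v) : ℝ)) =
      ((1 - b / s) / (I * θ) - 1 / (s * θ ^ 2)) * exp (I * (θ * (x + b) : ℝ)) -
        ((1 - a / s) / (I * θ) - 1 / (s * θ ^ 2)) * exp (I * (θ * (x + a) : ℝ)) := by
  refine intervalIntegral.integral_eq_sub_of_hasDerivAt
    (f := fun v : ℝ => ((1 - v / s) / (I * θ) - 1 / (s * θ ^ 2)) * exp (I * (θ * (x + v) : ℝ)))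
    (fun v _ => ?_) (Continuous.intervalIntegrable (by fun_prop) _ _)
  have h0 : HasDerivAt (fun v : ℝ => (v : ℂ)) 1 v := ofRealCLM.hasDerivAt
  have h1 := ((((h0.div_const (s : ℂ)).const_sub 1).div_const (I * θ)).sub_const
    (1 / (s * θ ^ 2) : ℂ)).mul (((h0.const_add (x : ℂ)).const_mul (θ : ℂ)).const_mul I).cexp
  have hs' : (s : ℂ) ≠ 0 := ofReal_ne_zero.2 hs
  have hθ' : (θ : ℂ) ≠ 0 := ofReal_ne_zero.2 hθ
  simp only [ofReal_mul, ofReal_add]
  refine HasDerivAt.congr_deriv h1 ?_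
  push_cast
  field_simp
  linear_combination (-1 : ℂ) * I_sq

/- Split at `v = 0`; explicit primitives `((1 ∓ v / s) / (i θ) ∓ 1 / (s θ ^ 2)) * exp (i θ (x + v))`. -/
theorem tri_exp {s θ : ℝ} (hs : 0 < s) (hθ : θ ≠ 0) (x : ℝ) :
    tri s (fun t => exp (I * (θ * t : ℝ))) x = (2 * exp (I * (θ * x : ℝ)) -
      exp (I * (θ * (x + s) : ℝ)) - exp (I * (θ * (x - s) : ℝ))) / (s * θ ^ 2 : ℝ) := by
  have hs' : (s : ℂ) ≠ 0 := ofReal_ne_zero.2 hs.ne'
  have hθ' : (θ : ℂ) ≠ 0 := ofReal_ne_zero.2 hθ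
  rw [tri, vwb_split hs (F := fun a v => ((1 - a / s : ℝ) : ℂ) * exp (I * (θ * (x + v) : ℝ)))
    (by fun_prop), vwb_prim hs.ne' hθ]
  simp only [neg_div, ← div_neg]
  rw [vwb_prim (neg_ne_zero.2 hs.ne') hθ, add_zero, ← sub_eq_add_neg]
  push_cast
  field_simp
  ring

theorem vwb_abel {ω z : ℕ → ℂ} {A a : ℕ} {B ω₀ ω₁ : ℝ} (ha : A ≤ a)
    (hz : ∀ c, c ≤ 2 * A → ‖∑ n ∈ Finset.Ico a c, z n‖ ≤ B) (h₀ : 0 ≤ ω₀) (h₁ : 0 ≤ ω₁)
    (h0 : ∀ n, A ≤ n → n ≤ 2 * A → ‖ω n‖ ≤ ω₀)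
    (h1 : ∀ n, A ≤ n → n < 2 * A → ‖ω (n + 1) - ω n‖ ≤ ω₁) (c : ℕ) (hc : c ≤ 2 * A) :
    ‖∑ n ∈ Finset.Ico a c, ω n * z n‖ ≤ (ω₀ + A * ω₁) * B := by
  have hB : 0 ≤ B := (norm_nonneg _).trans (hz 0 (Nat.zero_le _))
  rcases le_total a c with h | h
  · refine (abel h (fun d _ hd => hz d (hd.trans hc)) (fun n hn hn' => h0 n (ha.trans hn) (hn'.trans hc))
      fun n hn hn' => h1 n (ha.trans hn) (hn'.trans_le hc)).trans ?_
    have h2 : (c : ℝ) ≤ 2 * A := by exact_mod_cast hc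
    have h3 : (A : ℝ) ≤ a := by exact_mod_cast ha
    gcongr
    linarith
  · rw [Finset.Ico_eq_empty_of_le h, Finset.sum_empty, norm_zero]
    positivity

theorem vwb_exp {u : ℂ} (hu : u.re ≤ 0) : ‖exp u - 1‖ ≤ 2 * ‖u‖ := by
  rcases le_total ‖u‖ 1 with h | h
  · exact norm_exp_sub_one_le h
  · refine (norm_sub_le _ _).trans ?_
    rw [norm_exp, norm_one]
    linarith [Real.exp_le_one_iff.2 hu]

theorem vwb_log {t u : ℝ} (ht : 0 < t) (hu : 0 ≤ u) :
    u / (t + u) ≤ Real.log (t + u) - Real.log t ∧ Real.log (t + u) - Real.log t ≤ u / t := by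
  have h : 0 < t + u := by positivity
  constructor
  · have := Real.log_le_sub_one_of_pos (div_pos ht h)
    rw [Real.log_div ht.ne' h.ne'] at this
    have e : u / (t + u) = 1 - t / (t + u) := by field_simp; ring
    linarith
  · have := Real.log_le_sub_one_of_pos (div_pos h ht)
    rw [Real.log_div h.ne' ht.ne'] at this
    have e : u / t = (t + u) / t - 1 := by field_simp; ring
    linarith

theorem vwb_pow {n : ℕ} (hn : 1 ≤ n) (h : ℕ) (w : ℂ) : ((n * (n + h) : ℕ) : ℂ) ^ w =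
    exp (w * (Real.log n + Real.log (n + h) : ℝ)) := by
  have h1 : (0 : ℝ) < n := by exact_mod_cast hn
  rw [cpow_def_of_ne_zero (Nat.cast_ne_zero.2 (by positivity)), ← natCast_log, mul_comm _ w,
    Nat.cast_mul, Nat.cast_add, Real.log_mul h1.ne' (by positivity)]

theorem vwb_om0 {A n : ℕ} (hA : 1 ≤ A) (hn : A ≤ n) (h : ℕ) {z : ℂ} (hz : 0 ≤ z.re) :
    ‖((n * (n + h) : ℕ) : ℂ) ^ (-(1 / 2) - z)‖ ≤ 1 / A := by
  have h1 : (1 : ℝ) ≤ A := by exact_mod_cast hA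
  have h2 : (A : ℝ) ≤ n := by exact_mod_cast hn
  have h3 := Real.log_nonneg h1
  have h4 := Real.log_le_log (by positivity) h2
  have h5 := Real.log_le_log (by positivity) (h2.trans (le_add_of_nonneg_right h.cast_nonneg))
  rw [vwb_pow (hA.trans hn), norm_exp, re_mul_ofReal, one_div (A : ℝ),
    ← Real.exp_log (show (0 : ℝ) < A by positivity), ← Real.exp_neg, Real.exp_le_exp]
  have e : (-(1 / 2) - z).re = -(1 / 2) - z.re := by simp
  rw [e]
  nlinarith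

theorem vwb_om1 {A n : ℕ} (hA : 1 ≤ A) (hn : A ≤ n) (h : ℕ) {z : ℂ} (hz : 0 ≤ z.re) :
    ‖(((n + 1) * (n + 1 + h) : ℕ) : ℂ) ^ (-(1 / 2) - z) - ((n * (n + h) : ℕ) : ℂ) ^ (-(1 / 2) - z)‖ ≤
      4 * (1 + ‖z‖) / A ^ 2 := by
  have h0 := vwb_om0 hA hn h hz
  have h1 : (1 : ℝ) ≤ A := by exact_mod_cast hA
  have h2 : (A : ℝ) ≤ n := by exact_mod_cast hn
  have h3 := vwb_log (t := n) (by linarith) zero_le_one
  have h4 := vwb_log (t := n + h) (by linarith [h.cast_nonneg (α := ℝ)]) zero_le_one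
  have h5 : 1 / (n : ℝ) ≤ 1 / A := one_div_le_one_div_of_le (by positivity) h2
  have h6 : 1 / ((n : ℝ) + h) ≤ 1 / A :=
    one_div_le_one_div_of_le (by positivity) (h2.trans (le_add_of_nonneg_right h.cast_nonneg))
  have h7 : 0 ≤ 1 / ((n : ℝ) + 1) := by positivity
  have h8 : 0 ≤ 1 / ((n : ℝ) + h + 1) := by positivity
  rw [vwb_pow (hA.trans hn)] at h0 ⊢
  rw [vwb_pow (by omega), Nat.cast_succ, add_right_comm (n : ℝ) 1 h]
  set δ : ℝ := Real.log (n + 1) + Real.log (n + h + 1) - (Real.log n + Real.log (n + h)) with hδ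
  have h9 : 0 ≤ δ := by linarith [h3.1, h4.1]
  have h10 : δ ≤ 2 * (1 / A) := by linarith [h3.2, h4.2]
  have hw : ‖-(1 / 2) - z‖ ≤ 1 + ‖z‖ := (norm_sub_le _ _).trans (by simp; norm_num)
  have e : Real.log (n + 1) + Real.log (n + h + 1) = Real.log n + Real.log (n + h) + δ := by ring
  rw [e, ofReal_add _ δ, mul_add, exp_add, ← mul_sub_one, norm_mul]
  have h11 := vwb_exp (u := (-(1 / 2) - z) * δ) (by
    rw [re_mul_ofReal]
    exact mul_nonpos_of_nonpos_of_nonneg (by simp; linarith) h9)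
  rw [norm_mul, norm_real, Real.norm_of_nonneg h9] at h11
  calc _ ≤ 1 / A * (2 * ((1 + ‖z‖) * (2 * (1 / A)))) :=
        mul_le_mul h0 (h11.trans (by gcongr)) (norm_nonneg _) (by positivity)
    _ = _ := by field_simp; ring

theorem vwb_th {A n h : ℕ} (hA : 1 ≤ A) (hn : A ≤ n) (hn' : n ≤ 2 * A) (hh' : h ≤ 2 * A) :
    (h : ℝ) / (4 * A) ≤ Real.log (n + h) - Real.log n := by
  have h1 : (1 : ℝ) ≤ A := by exact_mod_cast hA
  have h2 : (A : ℝ) ≤ n := by exact_mod_cast hn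
  have h3 : (n : ℝ) ≤ 2 * A := by exact_mod_cast hn'
  have h4 : (h : ℝ) ≤ 2 * A := by exact_mod_cast hh'
  exact (div_le_div_of_nonneg_left h.cast_nonneg (by linarith [h.cast_nonneg (α := ℝ)]) (by linarith)).trans
    (vwb_log (by linarith) h.cast_nonneg).1

theorem vwb_u0 {A n h : ℕ} (hA : 1 ≤ A) (hn : A ≤ n) (hn' : n ≤ 2 * A) (hh : 1 ≤ h)
    (hh' : h ≤ 2 * A) : 1 / (Real.log (n + h) - Real.log n) ^ 2 ≤ 16 * (A : ℝ) ^ 2 / h ^ 2 := by
  have h1 : (0 : ℝ) < A := by exact_mod_cast hA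
  have h2 : (0 : ℝ) < h := by exact_mod_cast hh
  calc _ ≤ 1 / ((h : ℝ) / (4 * A)) ^ 2 := by gcongr; exact vwb_th hA hn hn' hh'
    _ = _ := by field_simp; ring

theorem vwb_u1 {A n h : ℕ} (hA : 1 ≤ A) (hn : A ≤ n) (hn' : n < 2 * A) (hh : 1 ≤ h)
    (hh' : h ≤ 2 * A) : |1 / (Real.log ((n + 1 : ℕ) + h) - Real.log (n + 1 : ℕ)) ^ 2 -
      1 / (Real.log (n + h) - Real.log n) ^ 2| ≤ 32 * (A : ℝ) / h ^ 2 := by
  have h0 := vwb_u0 hA (hn.trans n.le_succ) hn' hh hh'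
  have h1 : (1 : ℝ) ≤ A := by exact_mod_cast hA
  have h2 : (A : ℝ) ≤ n := by exact_mod_cast hn
  have h3 : (0 : ℝ) < h := by exact_mod_cast hh
  have hn0 : (0 : ℝ) < n := by linarith
  rw [Nat.cast_succ] at h0 ⊢
  have h4 := (vwb_log (t := n + 1) (by positivity) h3.le).1
  have h5 := vwb_log (t := n * (n + 1 + h)) (by positivity) h3.le
  rw [show (n : ℝ) * (n + 1 + h) + h = (n + 1) * (n + h) by ring,
    Real.log_mul (by positivity) (by positivity), Real.log_mul hn0.ne' (by positivity)] at h5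
  set a := Real.log ((n : ℝ) + 1 + h) - Real.log (n + 1) with ha
  set b := Real.log ((n : ℝ) + h) - Real.log n with hb
  have ha0 : 0 < a := lt_of_lt_of_le (by positivity) h4
  have hab : a ≤ b := by
    have : 0 ≤ (h : ℝ) / ((n + 1) * (n + h)) := by positivity
    linarith [h5.1]
  have hba : b - a ≤ a / A := by
    have h6 : (h : ℝ) / (n * (n + 1 + h)) ≤ a / A := by
      rw [mul_comm, ← div_div]
      gcongr
    linarith [h5.2]
  have hb0 : 0 < b := ha0.trans_le hab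
  have e : 1 / a ^ 2 - 1 / b ^ 2 = 1 / a ^ 2 * ((b - a) * ((b + a) / b ^ 2)) := by
    field_simp
    ring
  have h7 : (b + a) / b ^ 2 ≤ 2 / a := by
    rw [div_le_div_iff₀ (by positivity) ha0]
    nlinarith
  have h8 : 0 ≤ b - a := sub_nonneg.2 hab
  rw [e, abs_of_nonneg (by positivity)]
  calc _ ≤ 16 * A ^ 2 / h ^ 2 * (a / A * (2 / a)) := by gcongr
    _ = _ := by field_simp; ring

/- Let `ω n = (n (n + h)) ^ (-1 / 2 - z)`, `θ n = log (n + h) - log n ≥ h / (n + h) ≥ h / (4 A)` for `n ∈ [A, 2 A]`.  On `[A, 2 A]`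
the function `t ↦ exp ((-1 / 2 - z) * log (t (t + h)))` has norm at most `1 / A` and a derivative of norm at most
`(1 + 2 ‖z‖) / A ^ 2`, and `θ ^ (-2)` is at most `16 A ^ 2 / h ^ 2` with a derivative at most `2 θ ^ (-2) / t`.  First bound:
`tri_le`, `abel`, `wpa` at the point `ς * (x + v)`.  Second bound: `tri_sum`, `tri_exp`, then `abel` with the weight
`ω n / θ n ^ 2` and `wpa` at the three points `ς x`, `ς (x + s)`, `ς (x - s)`. -/
theorem wpb {q : ℕ} (hq : 0 < q) (n₀ : ℕ) : ∃ C : ℝ, 0 < C ∧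
    ∀ (G : ℕ → ℂ) (A a b h : ℕ) (X x s ς : ℝ) (z : ℂ),
    (∀ n, ‖G n‖ ≤ 1) → (∀ n, n₀ ≤ n → G (n + q) = G n) → 1 ≤ A → A ≤ a → b ≤ 2 * A → 1 ≤ h →
    h ≤ 2 * A → 0 < X → 0 < s → (ς = 1 ∨ ς = -1) → 0 ≤ z.re →
    (∀ v ∈ Icc (-s) s, X ≤ |x + v| ∧ |x + v| ≤ 8 * X) →
    ‖tri s (fun t => ∑ n ∈ Finset.Ico a b, G n * ((n * (n + h) : ℕ) : ℂ) ^ (-(1 / 2) - z) *
        exp (I * (ς * (Real.log (n + h) - Real.log n) * t : ℝ))) x‖ ≤
      C * (1 + ‖z‖) * (s / A) * min 1 ((A / (s * h)) ^ 2) *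
        (√(X * h / A) + √((A : ℝ) ^ 3 / (X * h))) := by
  obtain ⟨C, hC, hw⟩ := wpa hq n₀
  refine ⟨960 * C, by positivity,
    fun G A a b h X x s ς z hG hp hA ha hb hh hh' hX hs hς hz hx => ?_⟩
  set S := √(X * h / A) + √((A : ℝ) ^ 3 / (X * h)) with hS
  have hS0 : 0 ≤ S := by positivity
  have hA0 : (0 : ℝ) < A := by exact_mod_cast hA
  have hh0 : (0 : ℝ) < h := by exact_mod_cast hh
  have hς' : |ς| = 1 := by rcases hς with rfl | rfl <;> simp
  have k1 : ∀ v ∈ Icc (-s) s, ∀ c, c ≤ 2 * A → ‖∑ n ∈ Finset.Ico a c,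
      ((n * (n + h) : ℕ) : ℂ) ^ (-(1 / 2) - z) *
        (G n * exp (I * (ς * (x + v) * (Real.log (n + h) - Real.log n) : ℝ)))‖ ≤
      5 * (1 + ‖z‖) / A * (C * S) := fun v hv c hc => by
    refine (vwb_abel (ω := fun n => ((n * (n + h) : ℕ) : ℂ) ^ (-(1 / 2) - z)) ha
      (fun c hc => hw G A a c h X (ς * (x + v)) hG hp hA ha hc hh hh' hX
        (by rw [abs_mul, hς', one_mul]; exact (hx v hv).1)
        (by rw [abs_mul, hς', one_mul]; exact (hx v hv).2)) (by positivity) (by positivity)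
      (fun n hn _ => vwb_om0 hA hn h hz) (fun n hn _ => vwb_om1 hA hn h hz) c hc).trans ?_
    gcongr
    rw [show 1 / (A : ℝ) + A * (4 * (1 + ‖z‖) / A ^ 2) = (1 + 4 * (1 + ‖z‖)) / A by field_simp]
    gcongr
    linarith [norm_nonneg z]
  rcases le_total 1 ((A / (s * h)) ^ 2) with hm | hm
  · rw [min_eq_left hm]
    refine (tri_le hs (Z := 5 * (1 + ‖z‖) / A * (C * S)) fun v hv => ?_).trans ?_
    · refine le_trans (le_of_eq ?_) (k1 v hv b hb)
      congr 1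
      refine Finset.sum_congr rfl fun n _ => ?_
      rw [mul_right_comm ς]
      ring
    · calc _ = 5 * C * (1 + ‖z‖) * (s / A) * 1 * S := by ring
        _ ≤ _ := by gcongr; norm_num
  rw [min_eq_right hm]
  set F : ℝ → ℂ := fun y => ∑ n ∈ Finset.Ico a b,
    ((1 / (Real.log (n + h) - Real.log n) ^ 2 : ℝ) : ℂ) * (((n * (n + h) : ℕ) : ℂ) ^ (-(1 / 2) - z) *
      (G n * exp (I * (ς * y * (Real.log (n + h) - Real.log n) : ℝ)))) with hF
  have k2 : ∀ v ∈ Icc (-s) s, ‖F (x + v)‖ ≤ 48 * A ^ 2 / h ^ 2 * (5 * (1 + ‖z‖) / A * (C * S)) :=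
    fun v hv => by
    refine (vwb_abel (ω := fun n => ((1 / (Real.log (n + h) - Real.log n) ^ 2 : ℝ) : ℂ))
      (ω₀ := 16 * A ^ 2 / h ^ 2) (ω₁ := 32 * A / h ^ 2) ha (k1 v hv) (by positivity) (by positivity)
      (fun n hn hn' => ?_) (fun n hn hn' => ?_) b hb).trans (le_of_eq (by ring))
    · rw [norm_real, Real.norm_of_nonneg (by positivity)]
      exact vwb_u0 hA hn hn' hh hh'
    · rw [← ofReal_sub, norm_real, Real.norm_eq_abs]
      exact vwb_u1 hA hn hn' hh hh'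
  have e : tri s (fun t => ∑ n ∈ Finset.Ico a b, G n * ((n * (n + h) : ℕ) : ℂ) ^ (-(1 / 2) - z) *
      exp (I * (ς * (Real.log (n + h) - Real.log n) * t : ℝ))) x =
      (2 * F (x + 0) - F (x + s) - F (x + -s)) / s := by
    rw [tri_sum _ _ (fun (n : ℕ) (t : ℝ) => exp (I * (ς * (Real.log (n + h) - Real.log n) * t : ℝ)))
      fun _ _ => by fun_prop]
    simp only [hF, Finset.mul_sum, ← Finset.sum_sub_distrib, Finset.sum_div]
    refine Finset.sum_congr rfl fun n hn => ?_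
    have hθ := (lt_of_lt_of_le (by positivity) (vwb_th hA (ha.trans (Finset.mem_Ico.1 hn).1)
      ((Finset.mem_Ico.1 hn).2.le.trans hb) hh')).ne'
    have hς0 : ς ≠ 0 := fun e => by simp [e] at hς'
    rw [tri_exp hs (mul_ne_zero hς0 hθ), mul_pow, ← sq_abs ς, hς', add_zero, ← sub_eq_add_neg]
    simp only [mul_right_comm ς]
    generalize Real.log (n + h) - Real.log n = θ at hθ ⊢
    have hs' : (s : ℂ) ≠ 0 := ofReal_ne_zero.2 hs.ne'
    have hθ' : (θ : ℂ) ≠ 0 := ofReal_ne_zero.2 hθ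
    push_cast
    field_simp
  rw [e, norm_div, norm_real, Real.norm_of_nonneg hs.le, div_le_iff₀ hs]
  have h1 := k2 0 ⟨by linarith, hs.le⟩
  have h2 := k2 s ⟨by linarith, le_rfl⟩
  have h3 := k2 (-s) ⟨le_rfl, by linarith⟩
  have h4 := norm_sub_le (2 * F (x + 0) - F (x + s)) (F (x + -s))
  have h5 := norm_sub_le (2 * F (x + 0)) (F (x + s))
  rw [norm_mul, Complex.norm_ofNat] at h5
  calc _ ≤ 4 * (48 * A ^ 2 / h ^ 2 * (5 * (1 + ‖z‖) / A * (C * S))) := by linarith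
    _ = _ := by field_simp; ring

end Pool.Agent.Lib.MP_2a1a00_nt
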